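import Mathlib

/-!
# GY.AT1 (diff 2): countable infinite quotients, `T / pT` infinite

`T / pT` is a vector space over `ZMod p` (`AddCommGroup.zmodModule`), of infinite dimension: take a basis `b : ι → T/pT`, `ι` infinite, an injection `ℕ → ι`, and the projection to the span of countably many coordinates:
`f : T → T/pT → (ι →₀ ZMod p) → (ℕ →₀ ZMod p)` (`Finsupp.comapDomain`/`Finsupp.lcomapDomain` is surjective), `Y = ker f`.
`at_comp`: `Y.comap f`, `A ⧸ Y.comap f ≃ T ⧸ Y`.
-/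

namespace Pool.Agent.GY

/-- `pT` -/
def pT (T : Type*) [AddCommGroup T] (n : ℕ) : AddSubgroup T := (nsmulAddMonoidHom (α := T) n).range

theorem mem_pT {T : Type*} [AddCommGroup T] {n : ℕ} {x : T} : x ∈ pT T n ↔ ∃ y, n • y = x := by
  unfold pT
  rw [AddMonoidHom.mem_range]
  rfl

theorem AT1_quot {A T : Type*} [AddCommGroup A] [AddCommGroup T] (f : A →+ T)
    (hf : Function.Surjective f) (hc : Countable T) (hi : Infinite T) :
    Countable (A ⧸ f.ker) ∧ Infinite (A ⧸ f.ker) := by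
  have e := (QuotientAddGroup.quotientKerEquivOfSurjective f hf).toEquiv
  exact ⟨e.countable_iff.2 hc, e.infinite_iff.2 hi⟩

theorem at_comp {A T : Type*} [AddCommGroup A] [AddCommGroup T] (f : A →+ T)
    (hf : Function.Surjective f) (h : ∃ Y : AddSubgroup T, Countable (T ⧸ Y) ∧ Infinite (T ⧸ Y)) :
    ∃ Y : AddSubgroup A, f.ker ≤ Y ∧ Countable (A ⧸ Y) ∧ Infinite (A ⧸ Y) := by
  obtain ⟨Y, hc, hi⟩ := h
  set g : A →+ T ⧸ Y := (QuotientAddGroup.mk' Y).comp f with hg
  have hsurj : Function.Surjective g := (QuotientAddGroup.mk'_surjective Y).comp hf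
  refine ⟨g.ker, ?_, AT1_quot g hsurj hc hi⟩
  intro x hx
  rw [AddMonoidHom.mem_ker] at hx ⊢
  rw [hg, AddMonoidHom.comp_apply, hx, map_zero]

theorem at1 {T : Type*} [AddCommGroup T] {p : ℕ} (hp : p.Prime) (h : Infinite (T ⧸ pT T p)) :
    ∃ Y : AddSubgroup T, Countable (T ⧸ Y) ∧ Infinite (T ⧸ Y) := by
  have : Fact p.Prime := ⟨hp⟩
  have hzero : ∀ x : T ⧸ pT T p, p • x = 0 := by
    intro x
    obtain ⟨y, rfl⟩ := QuotientAddGroup.mk'_surjective (pT T p) x
    rw [← map_nsmul]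
    exact (QuotientAddGroup.eq_zero_iff _).2 (mem_pT.2 ⟨y, rfl⟩)
  let _ : Module (ZMod p) (T ⧸ pT T p) := AddCommGroup.zmodModule hzero
  set b := Module.Basis.ofVectorSpace (ZMod p) (T ⧸ pT T p) with hb
  have hinf : Infinite (Module.Basis.ofVectorSpaceIndex (ZMod p) (T ⧸ pT T p)) := by
    by_contra hcon
    rw [not_infinite_iff_finite] at hcon
    have := Fintype.ofFinite (Module.Basis.ofVectorSpaceIndex (ZMod p) (T ⧸ pT T p))
    have hfin : Finite (T ⧸ pT T p) := by
      exact Finite.of_equiv _ b.equivFun.toEquiv.symm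
    exact not_finite_iff_infinite.2 h hfin
  obtain ⟨g⟩ : Nonempty (ℕ ↪ Module.Basis.ofVectorSpaceIndex (ZMod p) (T ⧸ pT T p)) :=
    ⟨Infinite.natEmbedding _⟩
  set q : (Module.Basis.ofVectorSpaceIndex (ZMod p) (T ⧸ pT T p) →₀ ZMod p) →ₗ[ZMod p] (ℕ →₀ ZMod p) :=
    Finsupp.lcomapDomain g g.injective with hq
  have hqs : Function.Surjective q := by
    intro v
    refine ⟨Finsupp.mapDomain g v, ?_⟩
    rw [hq]
    exact Finsupp.comapDomain_mapDomain g g.injective v
  set f : T →+ (ℕ →₀ ZMod p) :=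
    (q.toAddMonoidHom.comp b.repr.toLinearMap.toAddMonoidHom).comp (QuotientAddGroup.mk' (pT T p)) with hf
  have hfs : Function.Surjective f := by
    rw [hf]
    exact (hqs.comp b.repr.surjective).comp (QuotientAddGroup.mk'_surjective _)
  exact ⟨f.ker, AT1_quot f hfs inferInstance inferInstance⟩

end Pool.Agent.GY
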