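import Pool.Agent.GY.AT1

/-!
# GY.AT2 (diff 3): countable infinite quotients of a torsion group, all `T / pT` finite

Suppose no such quotient exists.  Let `p` be prime.  `T/pT` finite: choose finitely many representatives; they generate a finite subgroup `F` (torsion, abelian), `T = F + pT`.  Let `N ≥ 1` be the exponent of `F` (`N • F = 0`).
`D = N T`: `p D = p N T = N (pT) = N (F + pT) = N T = D`.
Claim: `D` has no element `x ≠ 0` with `p x = 0`.  Otherwise take a character `f : T →+ AddCircle (1 : ℚ)` with `f x ≠ 0` (`CharacterModule.exists_character_apply_ne_zero_of_ne_zero`).  `f(D)` is infinite: if it is finite, multiplication by `p` is surjective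
on it (`p D = D`), so injective, but `p f(x) = 0`.  So `f(T)` is infinite and countable (`AddCircle (1 : ℚ)` is countable), `Y = ker f`: contradiction.
So `T[p] ∩ D = 0` and `T[p]` embeds in `T / D = T / N T`, which is finite: `T / n T` is finite for all `n ≥ 1` by induction on the prime factors (`T/nT`: `T/(pn)T` is an extension of `T/nT` by `nT/pnT`, a quotient of `T/pT`).
So `T[p] = {x | p x = 0}` is finite for all primes `p`, so `T[n]` is finite for all `n ≥ 1` (induction: `x ↦ p x` maps `T[p n]` to `T[n]` with finite fibres), `T = ⋃ T[n]` is countable: `Y = ⊥`: contradiction.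
-/

namespace Pool.Agent.GY

theorem AT2_out {T : Type*} [AddCommGroup T] (n : ℕ) (x : T) :
    ∃ y, x = (Quotient.out (x : T ⧸ pT T n)) + n • y := by
  have h1 : ((Quotient.out (x : T ⧸ pT T n) : T) : T ⧸ pT T n) = (x : T ⧸ pT T n) :=
    Quotient.out_eq _
  rw [QuotientAddGroup.eq, mem_pT] at h1
  obtain ⟨y, hy⟩ := h1
  refine ⟨y, ?_⟩
  rw [hy]
  abel

/-- `T / nT` is finite -/
theorem at2_fin {T : Type*} [AddCommGroup T] (h : ∀ p : ℕ, p.Prime → Finite (T ⧸ pT T p)) {n : ℕ}
    (hn : n ≠ 0) : Finite (T ⧸ pT T n) := by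
  revert hn
  refine induction_on_primes (motive := fun n => n ≠ 0 → Finite (T ⧸ pT T n)) ?_ ?_ ?_ n
  · intro h0; exact absurd rfl h0
  · intro _
    have h1 : pT T 1 = ⊤ := by
      rw [eq_top_iff]
      intro x _
      rw [mem_pT]
      exact ⟨x, one_smul _ _⟩
    rw [h1]
    infer_instance
  · intro p a hp ih hpa
    have ha : a ≠ 0 := by
      rintro rfl
      exact hpa (mul_zero p)
    have i1 := ih ha
    have i2 := h p hp
    refine Finite.of_surjective (fun q : (T ⧸ pT T a) × (T ⧸ pT T p) =>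
      ((q.1.out + a • q.2.out : T) : T ⧸ pT T (p * a))) ?_
    intro z
    induction z using QuotientAddGroup.induction_on with
    | H x =>
      obtain ⟨y, hy⟩ := AT2_out a x
      obtain ⟨z, hz⟩ := AT2_out p y
      refine ⟨((x : T ⧸ pT T a), (y : T ⧸ pT T p)), ?_⟩
      show ((Quotient.out (x : T ⧸ pT T a) + a • Quotient.out (y : T ⧸ pT T p) : T) :
        T ⧸ pT T (p * a)) = (x : T ⧸ pT T (p * a))
      rw [QuotientAddGroup.eq, mem_pT]
      refine ⟨z, ?_⟩
      obtain ⟨u, hu⟩ : ∃ u, u = Quotient.out (x : T ⧸ pT T a) := ⟨_, rfl⟩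
      obtain ⟨v, hv⟩ : ∃ v, v = Quotient.out (y : T ⧸ pT T p) := ⟨_, rfl⟩
      rw [← hu, ← hv]
      rw [← hu] at hy
      rw [← hv] at hz
      have e1 : x = u + a • v + (p * a) • z := by
        rw [hy, hz, smul_add, smul_smul, mul_comm a p]
        abel
      rw [e1]
      abel

/-- all `p`-torsion finite implies countable -/
theorem at2_count {T : Type*} [AddCommGroup T] (ht : ∀ x : T, ∃ n : ℕ, n ≠ 0 ∧ n • x = 0)
    (h : ∀ p : ℕ, p.Prime → {x : T | p • x = 0}.Finite) : Countable T := by
  have hfin : ∀ n : ℕ, n ≠ 0 → {x : T | n • x = 0}.Finite := by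
    intro n
    refine induction_on_primes (motive := fun n => n ≠ 0 → {x : T | n • x = 0}.Finite) ?_ ?_ ?_ n
    · intro h0; exact absurd rfl h0
    · intro _
      refine (Set.finite_singleton (0 : T)).subset ?_
      intro x hx
      simpa using hx
    · intro p a hp ih hpa
      have ha : a ≠ 0 := by
        rintro rfl
        exact hpa (mul_zero p)
      have i1 := ih ha
      have i2 := h p hp
      have h1 : ((fun x : T => a • x) ⁻¹' {y : T | p • y = 0}).Finite := by
        refine i2.preimage' (fun b _ => ?_)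
        rcases Set.eq_empty_or_nonempty ((fun x : T => a • x) ⁻¹' {b}) with he | ⟨x₀, hx₀⟩
        · rw [he]; exact Set.finite_empty
        · refine (i1.image (fun x => x₀ + x)).subset ?_
          intro x hx
          have e1 : a • x = b := hx
          have e2 : a • x₀ = b := hx₀
          refine ⟨x - x₀, ?_, by simp⟩
          show a • (x - x₀) = 0
          rw [smul_sub, e1, e2, sub_self]
      refine h1.subset ?_
      intro x hx
      have e1 : (p * a) • x = 0 := hx
      show p • (a • x) = 0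
      rw [smul_smul]
      exact e1
  have hcov : (Set.univ : Set T) ⊆ ⋃ n : ℕ, {x : T | n ≠ 0 ∧ n • x = 0} := by
    intro x _
    obtain ⟨n, hn, hx⟩ := ht x
    exact Set.mem_iUnion.mpr ⟨n, hn, hx⟩
  rw [← Set.countable_univ_iff]
  refine Set.Countable.mono hcov (Set.countable_iUnion (fun n => ?_))
  rcases eq_or_ne n 0 with hn | hn
  · refine (Set.countable_empty).mono ?_
    intro x hx
    exact absurd hn hx.1
  · exact ((hfin n hn).subset (fun x hx => hx.2)).countable

theorem at2_div {T : Type*} [AddCommGroup T] {p : ℕ} (hp : p.Prime) {D : AddSubgroup T}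
    (hD : ∀ x ∈ D, ∃ y ∈ D, p • y = x) {x : T} (hx : x ∈ D) (hx0 : x ≠ 0) (hpx : p • x = 0) :
    ∃ Y : AddSubgroup T, Countable (T ⧸ Y) ∧ Infinite (T ⧸ Y) := by
  obtain ⟨f, hf⟩ := CharacterModule.exists_character_apply_ne_zero_of_ne_zero hx0
  let g : T →+ AddCircle (1 : ℚ) := f
  have hg : g x ≠ 0 := hf
  refine ⟨g.ker, ?_, ?_⟩
  · have h1 : Countable (AddCircle (1 : ℚ)) :=
      Function.Surjective.countable (f := (QuotientAddGroup.mk : ℚ → AddCircle (1 : ℚ)))
        QuotientAddGroup.mk_surjective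
    exact (QuotientAddGroup.kerLift_injective g).countable
  · by_contra hni
    rw [not_infinite_iff_finite] at hni
    have hr : (Set.range g).Finite := by
      refine (Set.finite_range (QuotientAddGroup.kerLift g)).subset ?_
      rintro _ ⟨t, rfl⟩
      exact ⟨(t : T ⧸ g.ker), rfl⟩
    have hF : (g '' (D : Set T)).Finite := hr.subset (Set.image_subset_range _ _)
    have hfin : Finite (g '' (D : Set T)) := hF
    let m : (g '' (D : Set T)) → (g '' (D : Set T)) := fun y => ⟨p • y.1, by
      obtain ⟨d, hd, hdy⟩ := y.2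
      exact ⟨p • d, D.nsmul_mem hd p, by rw [map_nsmul, hdy]⟩⟩
    have hsurj : Function.Surjective m := by
      rintro ⟨_, d, hd, rfl⟩
      obtain ⟨e, he, hed⟩ := hD d hd
      refine ⟨⟨g e, e, he, rfl⟩, ?_⟩
      apply Subtype.ext
      show p • g e = g d
      rw [← map_nsmul, hed]
    have hinj : Function.Injective m := Finite.injective_iff_surjective.mpr hsurj
    have h1 : (⟨g x, x, hx, rfl⟩ : (g '' (D : Set T))) = ⟨g 0, 0, D.zero_mem, rfl⟩ := by
      apply hinj
      apply Subtype.ext
      show p • g x = p • g 0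
      rw [← map_nsmul, hpx, map_zero, smul_zero]
    have h2 := congrArg Subtype.val h1
    apply hg
    have h3 : g x = g 0 := h2
    rw [h3, map_zero]

theorem at2 {T : Type*} [AddCommGroup T] (ht : ∀ x : T, ∃ n : ℕ, n ≠ 0 ∧ n • x = 0) (hinf : Infinite T)
    (h : ∀ p : ℕ, p.Prime → Finite (T ⧸ pT T p)) :
    ∃ Y : AddSubgroup T, Countable (T ⧸ Y) ∧ Infinite (T ⧸ Y) := by
  by_contra hno
  have hfin : ∀ p : ℕ, p.Prime → {x : T | p • x = 0}.Finite := by
    intro p hp
    have i1 := h p hp
    have hch : ∀ q : T ⧸ pT T p, ∃ n : ℕ, n ≠ 0 ∧ n • q.out = 0 := fun q => ht _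
    choose n hn0 hn using hch
    have i2 : Fintype (T ⧸ pT T p) := Fintype.ofFinite _
    obtain ⟨N, hNd⟩ : ∃ N : ℕ, N = ∏ q, n q := ⟨_, rfl⟩
    have hN0 : N ≠ 0 := by
      rw [hNd]
      exact Finset.prod_ne_zero_iff.mpr (fun q _ => hn0 q)
    have hN : ∀ q : T ⧸ pT T p, N • q.out = 0 := by
      intro q
      obtain ⟨c, hc⟩ : n q ∣ N := by
        rw [hNd]
        exact Finset.dvd_prod_of_mem n (Finset.mem_univ q)
      rw [hc, mul_comm, ← smul_smul, hn q, smul_zero]
    have hD : ∀ x ∈ pT T N, ∃ y ∈ pT T N, p • y = x := by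
      intro x hx
      rw [mem_pT] at hx
      obtain ⟨t, rfl⟩ := hx
      obtain ⟨y, hy⟩ := AT2_out p t
      refine ⟨N • y, by rw [mem_pT]; exact ⟨y, rfl⟩, ?_⟩
      obtain ⟨u, hu⟩ : ∃ u, u = Quotient.out (t : T ⧸ pT T p) := ⟨_, rfl⟩
      have hNu : N • u = 0 := by rw [hu]; exact hN _
      rw [← hu] at hy
      rw [hy, smul_add, hNu, zero_add, smul_smul, smul_smul, mul_comm]
    have hz : ∀ x ∈ pT T N, p • x = 0 → x = 0 := by
      intro x hx hpx
      by_contra hx0
      exact hno (at2_div hp hD hx hx0 hpx)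
    have i3 := at2_fin h hN0
    refine Set.Finite.of_finite_image (f := fun x : T => (x : T ⧸ pT T N)) (Set.toFinite _) ?_
    intro x hx y hy hxy
    have e1 : p • x = 0 := hx
    have e2 : p • y = 0 := hy
    have e3 : (x : T ⧸ pT T N) = (y : T ⧸ pT T N) := hxy
    rw [QuotientAddGroup.eq] at e3
    have e4 := hz _ e3 (by rw [smul_add, smul_neg, e1, e2, neg_zero, add_zero])
    exact (neg_add_eq_zero.mp e4)
  have hc := at2_count ht hfin
  apply hno
  refine ⟨⊥, ?_, ?_⟩
  · exact (QuotientAddGroup.quotientBot (G := T)).toEquiv.countable_iff.mpr hc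
  · exact (QuotientAddGroup.quotientBot (G := T)).toEquiv.infinite_iff.mpr hinf

end Pool.Agent.GY
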