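import Pool.Agent.GY.AT2

/-!
# GY.AT3 (diff 2): every abelian group that is not finitely generated has a countable infinite torsion quotient

* `at3a`: let `I` be a maximal linearly independent subset of the `ℤ`-module `A` (`exists_maximal_linearIndepOn`/Zorn), `Y₀ = span ℤ I` free.  `A / Y₀` is torsion: for `a ∈ A`, `I ∪ {a}` is dependent (or `a ∈ I`): `n a ∈ Y₀`, `n ≠ 0`.
  If `A / Y₀` is infinite: `Z = Y₀`.  If it is finite, then `I` is infinite (otherwise `A` is finitely generated).  `Z = 2 Y₀`: `A / 2 Y₀` is torsion and infinite, since the elements of `I` are distinct modulo `2 Y₀`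
  (`i - j = 2 y`, `y ∈ Y₀` is impossible by linear independence).
* `at3`: `T = A / Z`; `at1` if `T/pT` is infinite for some prime `p`, else `at2`; `at_comp` with `f = mk`; torsion: `A ⧸ Y` is a quotient of `A ⧸ Z` (`f.ker = Z ≤ Y`).
-/

namespace Pool.Agent.GY

theorem at3a {A : Type*} [AddCommGroup A] (h : ¬ AddGroup.FG A) :
    ∃ Z : AddSubgroup A, Infinite (A ⧸ Z) ∧ ∀ a : A, ∃ n : ℕ, n ≠ 0 ∧ n • a ∈ Z := by
  classical
  obtain ⟨I, hI, hmax⟩ := exists_maximal_linearIndepOn ℤ (id : A → A)
  rw [Set.image_id] at hmax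
  let Y : Submodule ℤ A := Submodule.span ℤ I
  have htor : ∀ a : A, ∃ n : ℕ, n ≠ 0 ∧ n • a ∈ Y := by
    intro a
    by_cases ha : a ∈ I
    · exact ⟨1, one_ne_zero, by rw [one_smul]; exact Submodule.subset_span ha⟩
    · obtain ⟨n, hn, hna⟩ := hmax a ha
      refine ⟨n.natAbs, Int.natAbs_ne_zero.2 hn, ?_⟩
      rcases Int.natAbs_eq n with h1 | h1
      · rw [← natCast_zsmul, ← h1]
        exact hna
      · have h2 : (n.natAbs : ℤ) = -n := by omega
        rw [← natCast_zsmul, h2, neg_smul]
        exact Submodule.neg_mem _ hna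
  by_cases hinf : Infinite (A ⧸ Y)
  · refine ⟨Y.toAddSubgroup, hinf, fun a => ?_⟩
    obtain ⟨n, hn, hna⟩ := htor a
    exact ⟨n, hn, hna⟩
  · rw [not_infinite_iff_finite] at hinf
    have hIinf : I.Infinite := by
      intro hIf
      apply h
      rw [← Module.Finite.iff_addGroup_fg]
      have h1 : Module.Finite ℤ Y := Module.Finite.span_of_finite ℤ hIf
      have h2 : Module.Finite ℤ (A ⧸ Y) := inferInstance
      exact Module.Finite.of_submodule_quotient Y
    let Z : AddSubgroup A := Y.toAddSubgroup.map (nsmulAddMonoidHom (α := A) 2)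
    refine ⟨Z, ?_, ?_⟩
    · have hI' : Infinite I := hIinf.to_subtype
      let g : I → A ⧸ Z := fun i => QuotientAddGroup.mk (i : A)
      have hg : Function.Injective g := by
        intro i j hij
        by_contra hne
        have h1 : -(i : A) + (j : A) ∈ Z := by
          rw [← QuotientAddGroup.eq]
          exact hij
        obtain ⟨y, hy, hyij⟩ := h1
        have hy' : y ∈ Submodule.span ℤ (Set.range (Subtype.val : I → A)) := by
          rw [Subtype.range_coe]
          exact hy
        rw [Finsupp.mem_span_range_iff_exists_finsupp] at hy'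
        obtain ⟨c, hc⟩ := hy'
        have hli : LinearIndependent ℤ (Subtype.val : I → A) := hI
        have hyij' : (2 : ℕ) • y = -(i : A) + (j : A) := hyij
        have key : Finsupp.linearCombination ℤ (Subtype.val : I → A)
            ((2 : ℤ) • c) = Finsupp.linearCombination ℤ (Subtype.val : I → A)
            (Finsupp.single j 1 - Finsupp.single i 1) := by
          rw [map_smul, map_sub, Finsupp.linearCombination_single,
            Finsupp.linearCombination_single, Finsupp.linearCombination_apply, hc, one_smul,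
            one_smul]
          have : (2 : ℤ) • y = (2 : ℕ) • y := by
            rw [← natCast_zsmul]
            rfl
          rw [this, hyij']
          abel
        have key2 := hli key
        have key3 := DFunLike.congr_fun key2 j
        simp only [Finsupp.smul_apply, Finsupp.sub_apply, Finsupp.single_eq_same,
          Finsupp.single_apply, hne, smul_eq_mul, if_false] at key3
        omega
      exact Infinite.of_injective g hg
    · intro a
      obtain ⟨n, hn, hna⟩ := htor a
      refine ⟨2 * n, by omega, n • a, hna, ?_⟩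
      change (2 : ℕ) • (n • a) = _
      rw [mul_smul]

theorem at3 {A : Type*} [AddCommGroup A] (h : ¬ AddGroup.FG A) :
    ∃ Y : AddSubgroup A, Countable (A ⧸ Y) ∧ Infinite (A ⧸ Y) ∧
      ∀ a : A, ∃ n : ℕ, n ≠ 0 ∧ n • a ∈ Y := by
  obtain ⟨Z, hZ, htor⟩ := at3a h
  have hT : ∃ Y : AddSubgroup (A ⧸ Z), Countable ((A ⧸ Z) ⧸ Y) ∧ Infinite ((A ⧸ Z) ⧸ Y) := by
    by_cases hp : ∃ p : ℕ, p.Prime ∧ Infinite ((A ⧸ Z) ⧸ pT (A ⧸ Z) p)
    · obtain ⟨p, hp, hinf⟩ := hp
      exact at1 hp hinf
    · apply at2 _ hZ
      · intro p hpp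
        by_contra hc
        exact hp ⟨p, hpp, not_finite_iff_infinite.1 hc⟩
      · intro x
        obtain ⟨a, rfl⟩ := QuotientAddGroup.mk_surjective x
        obtain ⟨n, hn, hna⟩ := htor a
        refine ⟨n, hn, ?_⟩
        rw [← QuotientAddGroup.mk_nsmul, QuotientAddGroup.eq_zero_iff]
        exact hna
  obtain ⟨Y, hY, hc, hi⟩ := at_comp (QuotientAddGroup.mk' Z) (QuotientAddGroup.mk'_surjective Z) hT
  refine ⟨Y, hc, hi, fun a => ?_⟩
  obtain ⟨n, hn, hna⟩ := htor a
  refine ⟨n, hn, hY ?_⟩
  rw [QuotientAddGroup.ker_mk']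
  exact hna

end Pool.Agent.GY
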