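import Pool.Agent.GY.ExpDef

/-!
# GY.AdDef (diff 2): the adjoint representation

For `v ∈ T` with one-parameter subgroup `X_v` (`exists_ops`), `X_v.conj g` is a one-parameter subgroup; `Ad g v` has `ι (Ad g v) = lam (X_v.conj g)`, so `g ex(t v) g⁻¹ = ex(t Ad g v)`.
* homogeneous: uniqueness (`lam_inj`, `ex_ops`, `lam_scale`).
* additive: let `s_n = 1/(n+1)`, `h_n = X_v(s_n) X_w(s_n)`, `𝒰` the hyperfilter on `ℕ` (or any ultrafilter `≤ atTop`).  `lim_lemma` gives `Z` with `Z t = lim h_n^⌊t/s_n⌋` and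
  `lam Z = lim D (h_n)/s_n = lam X_v + lam X_w` (`mul`, `lam_tendsto`), so `Z = X_{v+w}`.  Also for `h'_n = g h_n g⁻¹ = X'_v(s_n) X'_w(s_n)`, `X' = X.conj g`:
  `Z' t = lim h'_n^⌊t/s_n⌋ = g (Z t) g⁻¹` (continuity of conjugation, uniqueness of limits `S.t2`), and `lam Z' = lam X'_v + lam X'_w`.
  So `lam (X_{v+w}.conj g) = lam (X_v.conj g) + lam (X_w.conj g)`.
* `‖Ad g v - v‖ ≤ 2 C ‖D g‖ ‖v‖` if `‖D g‖ ≤ r`: `‖D (g ex(v/n) g⁻¹) - D (ex(v/n))‖ ≤ 2 C ‖D g‖ ‖v‖/n` (`conj_le`, `n` large), multiply by `n`, `n → ∞` (`lam_tendsto`/`ex_tendsto`).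
* `Ad_mul`, `Ad_one`: uniqueness.   `Ad_dist`: `Ad g - Ad h = (Ad (g h⁻¹) - 1) Ad h`, `dist_eq`.
-/

open Topology Filter Set

namespace Pool.Agent.GY.Gl

variable {G E : Type*} [Group G] [TopologicalSpace G] [IsTopologicalGroup G]
  [NormedAddCommGroup E] [NormedSpace ℝ E] [CompleteSpace E] (S : Gl G E)

/-- `ex (t v)` determines `v` -/
theorem eq_of_ex {v w : S.T} (h : ∀ t : ℝ, S.ex (t • v) = S.ex (t • w)) : v = w := by
  obtain ⟨X, hX, hXt⟩ := S.exists_ops v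
  obtain ⟨Y, hY, hYt⟩ := S.exists_ops w
  have hXY : X = Y := OPS.ext' (fun t => by rw [hXt, hYt, h])
  apply S.ι_inj
  rw [← hX, ← hY, hXY]

/-- the scale `1/(n+1)` -/
private noncomputable def sc (n : ℕ) : ℝ := ((n : ℝ) + 1)⁻¹

private theorem sc_pos (n : ℕ) : 0 < sc n := by unfold sc; positivity

private theorem sc_tendsto : Tendsto sc ((Filter.hyperfilter ℕ : Ultrafilter ℕ) : Filter ℕ) (𝓝 0) := by
  have h1 : Tendsto sc atTop (𝓝 0) := by
    have := tendsto_one_div_add_atTop_nhds_zero_nat (𝕜 := ℝ)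
    refine this.congr (fun n => ?_)
    simp [sc]
  exact h1.mono_left Nat.hyperfilter_le_atTop

private theorem sum_lim (X Y Z : OPS G) (hZ : S.lam Z = S.lam X + S.lam Y) (t : ℝ) :
    Tendsto (fun n => (X (sc n) * Y (sc n)) ^ ⌊t / sc n⌋)
      ((Filter.hyperfilter ℕ : Ultrafilter ℕ) : Filter ℕ) (𝓝 (Z t)) := by
  have hC := S.hC
  have hXn : ∀ n, ‖S.D (X (sc n))‖ ≤ ‖S.lam X‖ * sc n := fun n => by
    have := S.lam_nrm X (sc n)
    rw [abs_of_pos (sc_pos n)] at this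
    linarith [mul_comm (sc n) ‖S.lam X‖]
  have hYn : ∀ n, ‖S.D (Y (sc n))‖ ≤ ‖S.lam Y‖ * sc n := fun n => by
    have := S.lam_nrm Y (sc n)
    rw [abs_of_pos (sc_pos n)] at this
    linarith [mul_comm (sc n) ‖S.lam Y‖]
  obtain ⟨Z', hZ'1, hZ'2⟩ := S.lim_lemma (Filter.hyperfilter ℕ) (fun n => X (sc n) * Y (sc n)) sc
    sc_pos sc_tendsto (A := ‖S.lam X‖ + ‖S.lam Y‖) (fun n => by
      have h1 := S.nrm_mul_le (X (sc n)) (Y (sc n))
      have h2 := hXn n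
      have h3 := hYn n
      linarith)
  have h1 : Tendsto (fun n => (sc n)⁻¹ • S.D (X (sc n) * Y (sc n)))
      ((Filter.hyperfilter ℕ : Ultrafilter ℕ) : Filter ℕ) (𝓝 (S.lam X + S.lam Y)) := by
    have h2 := (S.lam_tendsto X (fun n => (sc_pos n).ne') sc_tendsto).add
      (S.lam_tendsto Y (fun n => (sc_pos n).ne') sc_tendsto)
    have h3 : Tendsto (fun n => (sc n)⁻¹ • (S.D (X (sc n) * Y (sc n)) - S.D (X (sc n))
        - S.D (Y (sc n)))) ((Filter.hyperfilter ℕ : Ultrafilter ℕ) : Filter ℕ) (𝓝 0) := by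
      have h4 : Tendsto (fun n => S.C * ‖S.lam X‖ * ‖S.lam Y‖ * sc n)
          ((Filter.hyperfilter ℕ : Ultrafilter ℕ) : Filter ℕ) (𝓝 0) := by
        have := sc_tendsto.const_mul (S.C * ‖S.lam X‖ * ‖S.lam Y‖)
        rwa [mul_zero] at this
      have h5 : Tendsto (fun n => ‖S.lam X‖ * sc n)
          ((Filter.hyperfilter ℕ : Ultrafilter ℕ) : Filter ℕ) (𝓝 0) := by
        have := sc_tendsto.const_mul ‖S.lam X‖
        rwa [mul_zero] at this
      have h6 : Tendsto (fun n => ‖S.lam Y‖ * sc n)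
          ((Filter.hyperfilter ℕ : Ultrafilter ℕ) : Filter ℕ) (𝓝 0) := by
        have := sc_tendsto.const_mul ‖S.lam Y‖
        rwa [mul_zero] at this
      refine squeeze_zero_norm' ?_ h4
      filter_upwards [h5.eventually (gt_mem_nhds S.hr), h6.eventually (gt_mem_nhds S.hr)]
        with n h7 h8
      have hp := sc_pos n
      rw [norm_smul, Real.norm_of_nonneg (inv_nonneg.2 hp.le)]
      have h9 := S.mul (X (sc n)) (Y (sc n)) ((hXn n).trans h7.le) ((hYn n).trans h8.le)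
      have h10 := hXn n
      have h11 := hYn n
      calc (sc n)⁻¹ * ‖S.D (X (sc n) * Y (sc n)) - S.D (X (sc n)) - S.D (Y (sc n))‖
          ≤ (sc n)⁻¹ * (S.C * (‖S.lam X‖ * sc n) * (‖S.lam Y‖ * sc n)) := by
            refine mul_le_mul_of_nonneg_left (h9.trans ?_) (inv_nonneg.2 hp.le)
            gcongr
        _ = S.C * ‖S.lam X‖ * ‖S.lam Y‖ * sc n := by
            field_simp
    have h7 := h2.add h3
    rw [add_zero] at h7
    refine h7.congr (fun n => ?_)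
    rw [← smul_add, ← smul_add]
    congr 1
    abel
  have h2 := tendsto_nhds_unique hZ'2 h1
  have h3 : Z' = Z := S.lam_inj (by rw [h2, hZ])
  rw [← h3]
  exact hZ'1 t

private theorem conj_add (g : G) (X Y Z : OPS G) (hZ : S.lam Z = S.lam X + S.lam Y) :
    S.lam (Z.conj g) = S.lam (X.conj g) + S.lam (Y.conj g) := by
  have : T2Space G := T2Space.of_injective_continuous S.emb.injective S.emb.continuous
  obtain ⟨W, hW⟩ := S.lam_add (X.conj g) (Y.conj g)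
  have h1 : W = Z.conj g := by
    apply OPS.ext'
    intro t
    have h2 := S.sum_lim (X.conj g) (Y.conj g) W hW t
    have h3 := S.sum_lim X Y Z hZ t
    have h4 := (tendsto_const_nhds (x := g)).mul (h3.mul (tendsto_const_nhds (x := g⁻¹)))
    refine tendsto_nhds_unique h2 ?_
    rw [OPS.conj_apply, mul_assoc]
    refine h4.congr (fun n => ?_)
    rw [OPS.conj_apply, OPS.conj_apply]
    have h5 : g * X (sc n) * g⁻¹ * (g * Y (sc n) * g⁻¹) = g * (X (sc n) * Y (sc n)) * g⁻¹ := by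
      group
    rw [h5, conj_zpow, mul_assoc]
  rw [← hW, h1]

private theorem exists_conj (g : G) (v : S.T) :
    ∃ w : S.T, ∀ X : OPS G, S.lam X = S.ι v → S.lam (X.conj g) = S.ι w := by
  obtain ⟨X, hX, hXt⟩ := S.exists_ops v
  obtain ⟨w, hw⟩ := S.exists_ι (X.conj g)
  refine ⟨w, fun Y hY => ?_⟩
  have : Y = X := S.lam_inj (by rw [hX, hY])
  rw [this, hw]

theorem exists_Ad (g : G) : ∃ A : S.T →ₗ[ℝ] S.T, ∀ v, g * S.ex v * g⁻¹ = S.ex (A v) := by
  choose A hA using S.exists_conj g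
  refine ⟨{ toFun := A, map_add' := ?_, map_smul' := ?_ }, ?_⟩
  · intro v w
    apply S.ι_inj
    obtain ⟨X, hX, -⟩ := S.exists_ops v
    obtain ⟨Y, hY, -⟩ := S.exists_ops w
    obtain ⟨Z, hZ, -⟩ := S.exists_ops (v + w)
    rw [map_add, ← hA v X hX, ← hA w Y hY, ← hA (v + w) Z hZ]
    apply S.conj_add
    rw [hX, hY, hZ, map_add]
  · intro c v
    apply S.ι_inj
    obtain ⟨X, hX, -⟩ := S.exists_ops v
    have h1 : S.lam (X.scale c) = S.ι (c • v) := by rw [S.lam_scale, hX, map_smul]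
    have h2 : (X.scale c).conj g = (X.conj g).scale c := by
      apply OPS.ext'
      intro t
      rw [OPS.conj_apply, OPS.scale_apply, OPS.scale_apply, OPS.conj_apply]
    rw [← hA (c • v) _ h1, h2, S.lam_scale, hA v X hX, RingHom.id_apply, map_smul]
  · intro v
    obtain ⟨X, hX, hXt⟩ := S.exists_ops v
    have h1 := S.ex_ops (X.conj g) (A v) (hA v X hX) 1
    have h2 := hXt 1
    rw [one_smul] at h1 h2
    rw [OPS.conj_apply, h2] at h1
    exact h1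

/-- adjoint representation -/
noncomputable def Ad (g : G) : S.T →L[ℝ] S.T := LinearMap.toContinuousLinearMap (S.exists_Ad g).choose

theorem Ad_spec (g : G) (v : S.T) : g * S.ex v * g⁻¹ = S.ex (S.Ad g v) :=
  (S.exists_Ad g).choose_spec v

theorem Ad_one : S.Ad 1 = 1 := by
  ext v
  apply S.eq_of_ex
  intro t
  rw [← map_smul, ← S.Ad_spec]
  simp

theorem Ad_mul (g h : G) : S.Ad (g * h) = S.Ad g * S.Ad h := by
  ext v
  apply S.eq_of_ex
  intro t
  rw [← map_smul, ← S.Ad_spec, mul_apply_eq_comp, ← map_smul, ← map_smul, ← S.Ad_spec,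
    ← S.Ad_spec]
  group

theorem Ad_sub_le (g : G) (hg : ‖S.D g‖ ≤ S.r) : ‖S.Ad g - 1‖ ≤ 2 * S.C * ‖S.D g‖ := by
  have hC := S.hC
  refine ContinuousLinearMap.opNorm_le_bound _ (by positivity) (fun v => ?_)
  have h1 := ((S.ex_tendsto (S.Ad g v)).sub (S.ex_tendsto v)).norm
  have h2 : ‖(S.Ad g - 1) v‖ = ‖S.ι (S.Ad g v) - S.ι v‖ := by
    rw [← map_sub, S.norm_ι]
    rfl
  rw [h2]
  refine le_of_tendsto h1 ?_
  have h0 : Tendsto (fun n : ℕ => (n : ℝ)⁻¹ * ‖v‖) atTop (𝓝 0) := by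
    have := (tendsto_inv_atTop_nhds_zero_nat (𝕜 := ℝ)).mul_const ‖v‖
    rwa [zero_mul] at this
  filter_upwards [eventually_gt_atTop 0, h0.eventually (gt_mem_nhds S.hr)] with n hn hnr
  have hn' : (0 : ℝ) < n := Nat.cast_pos.2 hn
  rw [← smul_sub, norm_smul, Real.norm_of_nonneg hn'.le, ← map_smul, ← S.Ad_spec]
  have h5 : ‖S.D (S.ex ((n : ℝ)⁻¹ • v))‖ ≤ (n : ℝ)⁻¹ * ‖v‖ := by
    refine (S.ex_nrm _).trans ?_
    rw [norm_smul, Real.norm_of_nonneg (inv_nonneg.2 hn'.le)]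
  have h3 := S.conj_le (S.ex ((n : ℝ)⁻¹ • v)) g (h5.trans hnr.le) hg
  calc _ ≤ (n : ℝ) * (2 * S.C * ((n : ℝ)⁻¹ * ‖v‖) * ‖S.D g‖) := by
        refine mul_le_mul_of_nonneg_left (h3.trans ?_) hn'.le
        gcongr
    _ = 2 * S.C * ‖S.D g‖ * ‖v‖ := by field_simp

theorem Ad_norm_le (g : G) (hg : ‖S.D g‖ ≤ S.r) : ‖S.Ad g‖ ≤ 1 + 2 * S.C * ‖S.D g‖ := by
  have h1 := S.Ad_sub_le g hg
  have h2 : ‖(1 : S.T →L[ℝ] S.T)‖ ≤ 1 := ContinuousLinearMap.norm_id_le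
  have h3 := norm_add_le (1 : S.T →L[ℝ] S.T) (S.Ad g - 1)
  rw [add_sub_cancel] at h3
  linarith

/-- `Ad` is locally Lipschitz -/
theorem Ad_dist (g h : G) (hgh : ‖S.D g - S.D h‖ ≤ S.r) :
    ‖S.Ad g - S.Ad h‖ ≤ 2 * S.C * ‖S.Ad h‖ * ‖S.D g - S.D h‖ := by
  have hC := S.hC
  have h1 : S.Ad g - S.Ad h = (S.Ad (g * h⁻¹) - 1) * S.Ad h := by
    rw [sub_mul, one_mul, ← S.Ad_mul, inv_mul_cancel_right]
  rw [h1]
  refine (norm_mul_le _ _).trans ?_
  have h2 := S.Ad_sub_le (g * h⁻¹) (by rwa [← S.dist_eq])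
  rw [← S.dist_eq] at h2
  calc _ ≤ (2 * S.C * ‖S.D g - S.D h‖) * ‖S.Ad h‖ := by gcongr
    _ = _ := by ring

theorem Ad_cont : Continuous S.Ad := by
  rw [continuous_iff_continuousAt]
  intro h
  rw [ContinuousAt, tendsto_iff_norm_sub_tendsto_zero]
  have h2 : Tendsto (fun g => ‖S.D g - S.D h‖) (𝓝 h) (𝓝 0) := S.tendsto_iff.1 tendsto_id
  have h1 : Tendsto (fun g => 2 * S.C * ‖S.Ad h‖ * ‖S.D g - S.D h‖) (𝓝 h) (𝓝 0) := by
    have h3 := h2.const_mul (2 * S.C * ‖S.Ad h‖)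
    rwa [mul_zero] at h3
  refine squeeze_zero' (Eventually.of_forall (fun _ => norm_nonneg _)) ?_ h1
  filter_upwards [h2.eventually (gt_mem_nhds S.hr)] with g hg
  exact S.Ad_dist g h hg.le

end Pool.Agent.GY.Gl
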