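import Mathlib

/-!
# GY.BanOps (diff 2): continuous one-parameter groups in a Banach algebra

`F t = ∫_0^t f`; `(1/δ) F δ → f 0 = 1` as `δ → 0`, so `M = F δ` is invertible for some `δ > 0` (Neumann series).
`f t * F δ = ∫_t^{t+δ} f` is `C¹` in `t`, so `f t = (∫_t^{t+δ} f) M⁻¹` is differentiable, and from the group law `f' t = f t * a`, `a = f' 0`.
Then `t ↦ f t * exp(-t a)` has derivative `0`, so it is constant `= 1` (`is_const_of_deriv_eq_zero`), `f t = exp(t a)`.
-/

open Topology Filter Set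

namespace Pool.Agent.GY

theorem ban_ops {A : Type*} [NormedRing A] [NormedAlgebra ℝ A] [CompleteSpace A] (f : ℝ → A)
    (hf : Continuous f) (h0 : f 0 = 1) (hadd : ∀ s t, f (s + t) = f s * f t) :
    ∃ a : A, ∀ t, f t = NormedSpace.exp (t • a) := by
  set F : ℝ → A := fun u => ∫ x in (0 : ℝ)..u, f x with hF
  have hFd : ∀ u, HasDerivAt F (f u) u := fun u => (hf.integral_hasStrictDerivAt 0 u).hasDerivAt
  -- slope at 0
  have hsl : Tendsto (fun u : ℝ => u⁻¹ • F u) (𝓝[>] 0) (𝓝 1) := by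
    have h1 := (hFd 0).tendsto_slope_zero_right
    rw [h0] at h1
    refine h1.congr' ?_
    filter_upwards with u
    simp [hF]
  obtain ⟨δ, hδ, hδ1⟩ : ∃ δ : ℝ, 0 < δ ∧ ‖1 - δ⁻¹ • F δ‖ < 1 := by
    have h1 : Tendsto (fun u : ℝ => ‖1 - u⁻¹ • F u‖) (𝓝[>] 0) (𝓝 0) := by
      have h2 := (tendsto_const_nhds (x := (1 : A))).sub hsl
      rw [sub_self] at h2
      simpa using h2.norm
    have h3 : ∀ᶠ u : ℝ in 𝓝[>] 0, ‖1 - u⁻¹ • F u‖ < 1 := h1.eventually (gt_mem_nhds one_pos)
    have h4 : ∀ᶠ u : ℝ in 𝓝[>] 0, 0 < u := by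
      filter_upwards [self_mem_nhdsWithin] with u hu using hu
    obtain ⟨u, hu1, hu2⟩ := (h4.and h3).exists
    exact ⟨u, hu1, hu2⟩
  -- F δ is a unit: right inverse
  obtain ⟨N, hN⟩ : ∃ N : A, F δ * N = 1 := by
    have h1 : IsUnit (1 - (1 - δ⁻¹ • F δ)) := isUnit_one_sub_of_norm_lt_one hδ1
    rw [sub_sub_cancel] at h1
    obtain ⟨w, hw⟩ := h1
    refine ⟨δ⁻¹ • (↑w⁻¹ : A), ?_⟩
    rw [mul_smul_comm, ← smul_mul_assoc, ← hw, Units.mul_inv]
  have hint : ∀ t, f t * F δ = F (t + δ) - F t := by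
    intro t
    have h1 : f t * F δ = ∫ x in (0 : ℝ)..δ, f t * f x := by
      have := (ContinuousLinearMap.mul ℝ A (f t)).intervalIntegral_comp_comm
        (hf.intervalIntegrable (μ := MeasureTheory.volume) 0 δ)
      simpa using this.symm
    rw [h1]
    have h2 : (fun x => f t * f x) = fun x => f (t + x) := by
      funext x; rw [hadd]
    rw [h2, intervalIntegral.integral_comp_add_left (fun x => f x) t, add_zero]
    have h3 := intervalIntegral.integral_add_adjacent_intervals
      (hf.intervalIntegrable (μ := MeasureTheory.volume) 0 t)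
      (hf.intervalIntegrable (μ := MeasureTheory.volume) t (t + δ))
    rw [hF]
    simp only
    rw [← h3, add_sub_cancel_left]
  set a : A := (f δ - 1) * N with ha
  have hfd : ∀ t, HasDerivAt f (f t * a) t := by
    intro t
    have h1 : f = fun t => (F (t + δ) - F t) * N := by
      funext s
      rw [← hint s, mul_assoc, hN, mul_one]
    have h2 : HasDerivAt (fun t => F (t + δ)) (f (t + δ)) t := by
      have := (hFd (t + δ)).comp_add_const t δ
      simpa using this
    have h3 : HasDerivAt (fun t => (F (t + δ) - F t) * N) ((f (t + δ) - f t) * N) t :=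
      (h2.sub (hFd t)).mul_const N
    rw [← h1] at h3
    have h4 : (f (t + δ) - f t) * N = f t * a := by
      rw [hadd, ha, ← mul_assoc, mul_sub, mul_one]
    rwa [h4] at h3
  refine ⟨a, ?_⟩
  have hg : ∀ t, HasDerivAt (fun t : ℝ => f t * NormedSpace.exp (t • (-a))) 0 t := by
    intro t
    have h1 := hasDerivAt_exp_smul_const' (𝕂 := ℝ) (-a) t
    have h2 := (hfd t).mul h1
    have h3 : f t * a * NormedSpace.exp (t • -a) + f t * (-a * NormedSpace.exp (t • -a)) = 0 := by
      rw [neg_mul, mul_neg, mul_assoc, add_neg_cancel]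
    rw [h3] at h2
    exact h2
  have hc : ∀ t, f t * NormedSpace.exp (t • (-a)) = 1 := by
    intro t
    have h1 : Differentiable ℝ (fun t : ℝ => f t * NormedSpace.exp (t • (-a))) :=
      fun s => (hg s).differentiableAt
    have h2 := is_const_of_deriv_eq_zero h1 (fun s => (hg s).deriv) t 0
    rw [h2, h0, zero_smul, NormedSpace.exp_zero, mul_one]
  intro t
  have hcomm : NormedSpace.exp (t • (-a)) * NormedSpace.exp (t • a) = 1 := by
    let _ : NormedAlgebra ℚ A := NormedAlgebra.restrictScalars ℚ ℝ A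
    rw [smul_neg]
    rw [← NormedSpace.exp_add_of_commute ((Commute.refl (t • a)).neg_left), neg_add_cancel,
      NormedSpace.exp_zero]
  calc f t = f t * (NormedSpace.exp (t • (-a)) * NormedSpace.exp (t • a)) := by rw [hcomm, mul_one]
    _ = (f t * NormedSpace.exp (t • (-a))) * NormedSpace.exp (t • a) := by rw [mul_assoc]
    _ = NormedSpace.exp (t • a) := by rw [hc, one_mul]

/-- the generator is unique -/
theorem exp_inj {A : Type*} [NormedRing A] [NormedAlgebra ℝ A] [CompleteSpace A] {a b : A}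
    (h : ∀ t : ℝ, NormedSpace.exp (t • a) = NormedSpace.exp (t • b)) : a = b := by
  have h1 := hasDerivAt_exp_smul_const (𝕂 := ℝ) a 0
  have h2 := hasDerivAt_exp_smul_const (𝕂 := ℝ) b 0
  have h3 : (fun u : ℝ => NormedSpace.exp (u • a)) = fun u : ℝ => NormedSpace.exp (u • b) :=
    funext h
  rw [h3] at h1
  have h4 := h1.unique h2
  simpa using h4

theorem exp_tendsto {A : Type*} [NormedRing A] [NormedAlgebra ℝ A] [CompleteSpace A] (a : A) :
    Tendsto (fun n : ℕ => (n : ℝ) • (NormedSpace.exp ((n : ℝ)⁻¹ • a) - 1)) atTop (𝓝 a) := by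
  have h1 := hasDerivAt_exp_smul_const (𝕂 := ℝ) a 0
  have h2 := h1.tendsto_slope_zero_right
  have h3 : Tendsto (fun n : ℕ => (n : ℝ)⁻¹) atTop (𝓝[>] 0) :=
    tendsto_nhdsWithin_iff.2 ⟨tendsto_inv_atTop_nhds_zero_nat, by
      filter_upwards [eventually_gt_atTop 0] with n hn
      have : (0 : ℝ) < (n : ℝ) := Nat.cast_pos.2 hn
      exact inv_pos.2 this⟩
  have h4 := h2.comp h3
  simp only [zero_add, zero_smul, NormedSpace.exp_zero, one_mul] at h4
  refine h4.congr ?_
  intro n
  simp

end Pool.Agent.GY
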