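import Pool.Agent.GY.AdDef
import Pool.Agent.GY.BanOps

/-!
# GY.AdExp (diff 2): `Ad (ex x) = exp (ad x)`, `ad` linear

`t ↦ Ad (ex (t x))` is a continuous one-parameter group in the Banach algebra `V →L V`: `ban_ops` gives `a_x` with `Ad (ex (t x)) = exp (t a_x)`.
* `a_{c x} = c a_x` by uniqueness (`exp_inj`).
* additive: `n (Ad (ex (x/n)) - 1) → a_x` (`exp_tendsto`).  `Ad (ex (x/n) ex (y/n)) - 1 = (A - 1) B + (B - 1)` with `A = Ad (ex (x/n))`, `B = Ad (ex (y/n)) → 1`, so `n` times it `→ a_x + a_y`.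
  `‖D (ex (x/n) ex (y/n)) - D (ex ((x+y)/n))‖ = O(1/n²)` (`mul`, `ex_est`), and `Ad` is Lipschitz (`Ad_dist`): the limit is also `a_{x+y}`.
* `‖a_x‖ ≤ 2 C ‖x‖` (`Ad_sub_le`, `ex_nrm`): continuous linear (or `V` is finite dimensional: `LinearMap.toContinuousLinearMap`).
-/

open Topology Filter Set

namespace Pool.Agent.GY.Gl

variable {G E : Type*} [Group G] [TopologicalSpace G] [IsTopologicalGroup G]
  [NormedAddCommGroup E] [NormedSpace ℝ E] [CompleteSpace E] (S : Gl G E)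

theorem AdExp_D (x y : S.T) (h : ℝ) (hx : |h| * ‖x‖ ≤ S.r) (hy : |h| * ‖y‖ ≤ S.r) :
    ‖S.D (S.ex (h • x) * S.ex (h • y)) - S.D (S.ex (h • (x + y)))‖ ≤
      (S.C * ‖x‖ * ‖y‖ + 4 * S.C * ‖x‖ ^ 2 + 4 * S.C * ‖y‖ ^ 2 + 4 * S.C * ‖x + y‖ ^ 2) * h ^ 2 := by
  have hC0 : 0 < S.C := S.C_pos
  have e2 := S.ex_est (h • x)
  have e3 := S.ex_est (h • y)
  have e4 := S.ex_est (h • (x + y))
  have n1 := S.ex_nrm (h • x)
  have n2 := S.ex_nrm (h • y)
  have e5 : S.D (S.ex (h • x) * S.ex (h • y)) - S.D (S.ex (h • (x + y))) =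
      (S.D (S.ex (h • x) * S.ex (h • y)) - S.D (S.ex (h • x)) - S.D (S.ex (h • y))) +
      (S.D (S.ex (h • x)) - S.ι (h • x)) + (S.D (S.ex (h • y)) - S.ι (h • y)) -
      (S.D (S.ex (h • (x + y))) - S.ι (h • (x + y))) := by
    rw [smul_add, map_add]
    abel
  rw [e5]
  rw [norm_smul, Real.norm_eq_abs, mul_pow, sq_abs] at e2 e3 e4
  rw [norm_smul, Real.norm_eq_abs] at n1 n2
  have e1 := S.mul (S.ex (h • x)) (S.ex (h • y)) (le_trans n1 hx) (le_trans n2 hy)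
  have e6 : S.C * ‖S.D (S.ex (h • x))‖ * ‖S.D (S.ex (h • y))‖ ≤
      S.C * (|h| * ‖x‖) * (|h| * ‖y‖) := by gcongr
  have e7 : S.C * (|h| * ‖x‖) * (|h| * ‖y‖) = S.C * ‖x‖ * ‖y‖ * h ^ 2 := by
    rw [← sq_abs h]; ring
  refine le_trans (norm_sub_le _ _) ?_
  refine le_trans (add_le_add_left (norm_add₃_le) _) ?_
  nlinarith [e1, e2, e3, e4, e6, e7]

theorem AdExp_add (a : S.T → (S.T →L[ℝ] S.T))
    (ha : ∀ (x : S.T) (t : ℝ), S.Ad (S.ex (t • x)) = NormedSpace.exp (t • a x)) (x y : S.T) :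
    a (x + y) = a x + a y := by
  have : CompleteSpace S.T := FiniteDimensional.complete ℝ S.T
  have hC0 : 0 < S.C := S.C_pos
  have hinv : Tendsto (fun n : ℕ => ((n:ℝ))⁻¹) atTop (𝓝 0) := tendsto_inv_atTop_nhds_zero_nat
  have lx := exp_tendsto (a x)
  have ly := exp_tendsto (a y)
  have lxy := exp_tendsto (a (x + y))
  simp only [← ha] at lx ly lxy
  have hB : Tendsto (fun n : ℕ => S.Ad (S.ex (((n:ℝ))⁻¹ • y))) atTop (𝓝 1) := by
    have h1 : Continuous (fun h : ℝ => S.Ad (S.ex (h • y))) :=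
      S.Ad_cont.comp (S.ex_cont.comp (continuous_id.smul continuous_const))
    have h2 := (h1.tendsto 0).comp hinv
    have h3 : S.Ad (S.ex ((0:ℝ) • y)) = 1 := by rw [zero_smul, S.ex_zero, S.Ad_one]
    rw [h3] at h2
    exact h2
  have l1 : Tendsto (fun n : ℕ => (n:ℝ) • (S.Ad (S.ex (((n:ℝ))⁻¹ • x) * S.ex (((n:ℝ))⁻¹ • y)) - 1))
      atTop (𝓝 (a x + a y)) := by
    have h1 := (lx.mul hB).add ly
    rw [mul_one] at h1
    refine h1.congr (fun n => ?_)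
    rw [S.Ad_mul, smul_mul_assoc, ← smul_add, sub_mul, one_mul]
    congr 1
    abel
  obtain ⟨K, hK⟩ : ∃ K : ℝ, K = S.C * ‖x‖ * ‖y‖ + 4 * S.C * ‖x‖ ^ 2 + 4 * S.C * ‖y‖ ^ 2 +
    4 * S.C * ‖x + y‖ ^ 2 := ⟨_, rfl⟩
  have hK0 : 0 ≤ K := by rw [hK]; positivity
  have l2 : Tendsto (fun n : ℕ => (n:ℝ) • (S.Ad (S.ex (((n:ℝ))⁻¹ • x) * S.ex (((n:ℝ))⁻¹ • y)) - 1)
      - (n:ℝ) • (S.Ad (S.ex (((n:ℝ))⁻¹ • (x + y))) - 1)) atTop (𝓝 0) := by
    rw [tendsto_zero_iff_norm_tendsto_zero]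
    obtain ⟨M, hM⟩ : ∃ M : ℝ, M = ‖(1 : S.T →L[ℝ] S.T)‖ + 1 := ⟨_, rfl⟩
    have hM0 : 0 ≤ M := by rw [hM]; positivity
    have h1 : Tendsto (fun n : ℕ => 2 * S.C * M * K * ((n:ℝ))⁻¹) atTop (𝓝 0) := by
      have h2 := hinv.const_mul (2 * S.C * M * K)
      simpa using h2
    have hAM : ∀ᶠ n : ℕ in atTop, ‖S.Ad (S.ex (((n:ℝ))⁻¹ • (x + y)))‖ < M := by
      have h1 : Continuous (fun h : ℝ => S.Ad (S.ex (h • (x + y)))) :=
        S.Ad_cont.comp (S.ex_cont.comp (continuous_id.smul continuous_const))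
      have h2 := (h1.tendsto 0).comp hinv
      have h3 : S.Ad (S.ex ((0:ℝ) • (x + y))) = 1 := by rw [zero_smul, S.ex_zero, S.Ad_one]
      rw [h3] at h2
      exact h2.norm.eventually_lt_const (by rw [hM]; linarith)
    have hx : ∀ᶠ n : ℕ in atTop, |((n:ℝ))⁻¹| * ‖x‖ < S.r := by
      have h2 := (hinv.abs).mul_const ‖x‖
      rw [abs_zero, zero_mul] at h2
      exact h2.eventually_lt_const S.hr
    have hy : ∀ᶠ n : ℕ in atTop, |((n:ℝ))⁻¹| * ‖y‖ < S.r := by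
      have h2 := (hinv.abs).mul_const ‖y‖
      rw [abs_zero, zero_mul] at h2
      exact h2.eventually_lt_const S.hr
    have hk : ∀ᶠ n : ℕ in atTop, K * ((n:ℝ))⁻¹ ^ 2 < S.r := by
      have h2 := (hinv.pow 2).const_mul K
      have h3 : K * (0:ℝ) ^ 2 = 0 := by ring
      rw [h3] at h2
      exact h2.eventually_lt_const S.hr
    refine squeeze_zero' (Eventually.of_forall (fun n => norm_nonneg _)) ?_ h1
    filter_upwards [hAM, hx, hy, hk] with n hAMn hxn hyn hkn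
    rw [← smul_sub, sub_sub_sub_cancel_right, norm_smul, Real.norm_of_nonneg (Nat.cast_nonneg n)]
    obtain ⟨h, hh⟩ : ∃ h : ℝ, h = ((n:ℝ))⁻¹ := ⟨_, rfl⟩
    rw [← hh] at hAMn hxn hyn hkn
    rw [← hh]
    have hnh : (n:ℝ) * h ^ 2 = h := by
      rw [hh]
      rcases Nat.eq_zero_or_pos n with hn | hn
      · rw [hn]; simp
      · have : (n:ℝ) ≠ 0 := by positivity
        field_simp
    have h4 := S.AdExp_D x y h hxn.le hyn.le
    rw [← hK] at h4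
    have h3 := S.Ad_dist (S.ex (h • x) * S.ex (h • y)) (S.ex (h • (x + y))) (le_trans h4 hkn.le)
    calc (n:ℝ) * ‖S.Ad (S.ex (h • x) * S.ex (h • y)) - S.Ad (S.ex (h • (x + y)))‖
        ≤ (n:ℝ) * (2 * S.C * ‖S.Ad (S.ex (h • (x + y)))‖ *
          ‖S.D (S.ex (h • x) * S.ex (h • y)) - S.D (S.ex (h • (x + y)))‖) := by gcongr
      _ ≤ (n:ℝ) * (2 * S.C * M * (K * h ^ 2)) := by gcongr
      _ = 2 * S.C * M * K * ((n:ℝ) * h ^ 2) := by ring
      _ = 2 * S.C * M * K * h := by rw [hnh]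
  have l3 := l1.sub lxy
  have h4 := tendsto_nhds_unique l2 l3
  exact (sub_eq_zero.mp h4.symm).symm

theorem exists_ad : ∃ a : S.T →L[ℝ] (S.T →L[ℝ] S.T), ∀ x, S.Ad (S.ex x) = NormedSpace.exp (a x) := by
  have : CompleteSpace S.T := FiniteDimensional.complete ℝ S.T
  have h1 : ∀ x : S.T, ∃ a : S.T →L[ℝ] S.T, ∀ t : ℝ,
      S.Ad (S.ex (t • x)) = NormedSpace.exp (t • a) := by
    intro x
    refine ban_ops (fun t : ℝ => S.Ad (S.ex (t • x))) ?_ ?_ ?_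
    · exact S.Ad_cont.comp (S.ex_cont.comp (continuous_id.smul continuous_const))
    · show S.Ad (S.ex ((0:ℝ) • x)) = 1
      rw [zero_smul, S.ex_zero, S.Ad_one]
    · intro s t
      show S.Ad (S.ex ((s + t) • x)) = S.Ad (S.ex (s • x)) * S.Ad (S.ex (t • x))
      rw [S.ex_add, S.Ad_mul]
  choose a ha using h1
  have hsmul : ∀ (c : ℝ) (x : S.T), a (c • x) = c • a x := by
    intro c x
    refine exp_inj (fun t => ?_)
    rw [← ha, smul_smul, ha, smul_smul]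
  let L : S.T →ₗ[ℝ] (S.T →L[ℝ] S.T) :=
    { toFun := a, map_add' := S.AdExp_add a ha, map_smul' := hsmul }
  refine ⟨LinearMap.toContinuousLinearMap L, fun x => ?_⟩
  have h2 := ha x 1
  rw [one_smul, one_smul] at h2
  exact h2

/-- `ad` -/
noncomputable def ad : S.T →L[ℝ] (S.T →L[ℝ] S.T) := S.exists_ad.choose

theorem Ad_ex (x : S.T) : S.Ad (S.ex x) = NormedSpace.exp (S.ad x) := S.exists_ad.choose_spec x

end Pool.Agent.GY.Gl
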