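import Pool.Agent.GY.DefsM

/-!
# GY.AnExt (diff 2): analytic extension of a law

For fixed `A B Y` the function `z ↦ RL L (A + z B) Y` (`ℂ → Mn n`) is entire (`NormedSpace.exp_analytic`/`exp` is differentiable over `ℂ` on a complex Banach algebra, products over a list), and equals `1` for real `z`; by the identity theorem
(`AnalyticOnNhd.eq_of_frequently_eq`, real points accumulate at `0`) it is `1` for all `z`, in particular at `z = i`.
First step: `RL L (A + i B) Y = 1` for all `A, B, Y ∈ 𝔤`.  Second step: for fixed `X = A + i B` the function `z ↦ RL L X (A' + z B')`.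
(Norm on `Mn n`: local instances `Matrix.linftyOpNormedRing`, `Matrix.linftyOpNormedAlgebra`, see `Mathlib/Analysis/Normed/Algebra/MatrixExponential.lean`.)
-/

open Topology Filter Set Matrix

namespace Pool.Agent.GY

set_option backward.isDefEq.respectTransparency false in
open scoped Norms.Operator in
theorem AnExt_diff {n : ℕ} (L : List (ℤ × ℤ)) (X Y : ℂ → Mn n) (hX : Differentiable ℂ X)
    (hY : Differentiable ℂ Y) : Differentiable ℂ (fun z => RL L (X z) (Y z)) := by
  have he : ∀ (c : ℂ) (Z : ℂ → Mn n), Differentiable ℂ Z →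
      Differentiable ℂ (fun z => NormedSpace.exp (c • Z z)) := by
    intro c Z hZ z
    exact (NormedSpace.exp_analytic (𝕂 := ℂ) (c • Z z)).differentiableAt.comp z
      ((hZ z).const_smul c)
  unfold RL
  induction L with
  | nil =>
    simp only [List.map_nil, List.prod_nil]
    exact differentiable_const _
  | cons p L ih =>
    simp only [List.map_cons, List.prod_cons]
    exact (((he _ X hX).mul (he _ Y hY)).mul (he _ X hX)).mul ih

set_option backward.isDefEq.respectTransparency false in
open scoped Norms.Operator in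
theorem AnExt_one {n : ℕ} (f : ℂ → Mn n) (hf : Differentiable ℂ f)
    (h : ∀ t : ℝ, f (t : ℂ) = 1) : ∀ z, f z = 1 := by
  have h1 : AnalyticOnNhd ℂ f Set.univ := fun z _ => hf.analyticAt z
  have h2 : AnalyticOnNhd ℂ (fun _ : ℂ => (1 : Mn n)) Set.univ := fun z _ => analyticAt_const
  have h3 : ∃ᶠ z in 𝓝[≠] (0 : ℂ), f z = (fun _ : ℂ => (1 : Mn n)) z := by
    have hu : Tendsto (fun n : ℕ => ((1 / ((n : ℝ) + 1) : ℝ) : ℂ)) atTop (𝓝[≠] (0 : ℂ)) := by
      rw [tendsto_nhdsWithin_iff]
      constructor
      · have h4 := (tendsto_one_div_add_atTop_nhds_zero_nat (𝕜 := ℝ))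
        have h5 := (Complex.continuous_ofReal.tendsto 0).comp h4
        rw [Complex.ofReal_zero] at h5
        exact h5
      · refine Eventually.of_forall fun n => ?_
        simp only [mem_compl_iff, mem_singleton_iff, Complex.ofReal_eq_zero]
        positivity
    refine hu.frequently ?_
    exact (Eventually.of_forall fun n => h _).frequently
  have h4 := h1.eq_of_frequently_eq h2 h3
  intro z
  rw [h4]

set_option backward.isDefEq.respectTransparency false in
open scoped Norms.Operator in
theorem an_ext {n : ℕ} (𝔤 : Submodule ℝ (Mn n)) (L : List (ℤ × ℤ))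
    (h : ∀ X ∈ 𝔤, ∀ Y ∈ 𝔤, RL L X Y = 1) {A B A' B' : Mn n} (hA : A ∈ 𝔤) (hB : B ∈ 𝔤)
    (hA' : A' ∈ 𝔤) (hB' : B' ∈ 𝔤) : RL L (A + Complex.I • B) (A' + Complex.I • B') = 1 := by
  have h1 : ∀ Y ∈ 𝔤, RL L (A + Complex.I • B) Y = 1 := by
    intro Y hY
    have h2 := AnExt_one (fun z => RL L (A + z • B) Y)
      (AnExt_diff L (fun z => A + z • B) (fun _ => Y) ?_ ?_) ?_ Complex.I
    · exact h2
    · exact (differentiable_const _).add (differentiable_id.smul_const B)
    · exact differentiable_const _
    · intro t
      have h3 : ((t : ℂ) • B : Mn n) = t • B := by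
        ext i j
        simp
      show RL L (A + (t : ℂ) • B) Y = 1
      rw [h3]
      exact h _ (𝔤.add_mem hA (𝔤.smul_mem t hB)) _ hY
  have h2 := AnExt_one (fun z => RL L (A + Complex.I • B) (A' + z • B'))
    (AnExt_diff L (fun _ => A + Complex.I • B) (fun z => A' + z • B') ?_ ?_) ?_ Complex.I
  · exact h2
  · exact differentiable_const _
  · exact (differentiable_const _).add (differentiable_id.smul_const B')
  · intro t
    have h3 : ((t : ℂ) • B' : Mn n) = t • B' := by
      ext i j
      simp
    show RL L (A + Complex.I • B) (A' + (t : ℂ) • B') = 1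
    rw [h3]
    exact h1 _ (𝔤.add_mem hA' (𝔤.smul_mem t hB'))

end Pool.Agent.GY
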