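import Mathlib

/-!
# GY.Ann (diff 3): the annihilator of the annihilator (compact abelian groups)

`B = {x | ∀ ψ ∈ Y, ψ x = 1}`, a closed subgroup of `C`; `X = C ⧸ B` compact Hausdorff group.  Every `ψ ∈ Y` induces a continuous character `ψ' : X → Circle`, and so does `χ` (hypothesis `h`).
The linear span of the functions `ψ'` (`ψ ∈ Y`) in `C(X, ℂ)` is a star subalgebra (`Y` is a group, `star ψ' = (ψ⁻¹)'`) separating the points of `X` (definition of `B`), so it is dense (Stone-Weierstrass: `ContinuousMap.starSubalgebra_topologicalClosure_eq_top_of_separatesPoints`).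
Suppose `χ ∉ Y`.  For `ψ ∈ Y` the character `χ ψ⁻¹` of `C` is not trivial, so it is not trivial on `X`: `∫ χ' conj ψ' dμ = 0` for the Haar measure `μ` of `X` (translation by a point `a` with `(χ ψ⁻¹) a ≠ 1` multiplies the integral by it).
So `∫ χ' conj f dμ = 0` for all `f` in the span and by density for all `f ∈ C(X, ℂ)`; for `f = χ'` it is `∫ 1 dμ ≠ 0`: contradiction.
(Haar measure: `borel X`, `haarMeasure ⊤`, as in `Pool/Agent/CAM/PWc.lean`.  If the quotient is unpleasant: work on `C` with the functions `f ∘ mk`.)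
-/

open Topology Filter Set

namespace Pool.Agent.GY

open MeasureTheory in
private theorem Ann_char_int {C : Type*} [CommGroup C] [TopologicalSpace C] [IsTopologicalGroup C]
    [CompactSpace C] [MeasurableSpace C] [BorelSpace C] (μ : Measure C)
    [μ.IsMulLeftInvariant] (θ : C →ₜ* Circle) {a : C} (ha : θ a ≠ 1) :
    ∫ x, ((θ x : Circle) : ℂ) ∂μ = 0 := by
  have h1 : ∫ x, ((θ (a * x) : Circle) : ℂ) ∂μ = ∫ x, ((θ x : Circle) : ℂ) ∂μ :=
    integral_mul_left_eq_self (fun x => ((θ x : Circle) : ℂ)) a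
  have h2 : ∫ x, ((θ (a * x) : Circle) : ℂ) ∂μ =
      ((θ a : Circle) : ℂ) * ∫ x, ((θ x : Circle) : ℂ) ∂μ := by
    rw [← integral_const_mul]
    refine integral_congr_ae (Eventually.of_forall (fun x => ?_))
    simp only [map_mul, Circle.coe_mul]
  have h3 : (1 - ((θ a : Circle) : ℂ)) * ∫ x, ((θ x : Circle) : ℂ) ∂μ = 0 := by
    rw [sub_mul, one_mul, ← h2, h1, sub_self]
  rcases mul_eq_zero.1 h3 with h | h
  · exfalso
    apply ha
    have : ((θ a : Circle) : ℂ) = 1 := (sub_eq_zero.1 h).symm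
    exact Circle.ext (by simpa using this)
  · exact h

open MeasureTheory in
theorem ann_mem {C : Type*} [CommGroup C] [TopologicalSpace C] [IsTopologicalGroup C]
    [CompactSpace C] [T2Space C] (Y : Subgroup (C →ₜ* Circle)) (χ : C →ₜ* Circle)
    (h : ∀ x : C, (∀ ψ ∈ Y, ψ x = 1) → χ x = 1) : χ ∈ Y := by
  classical
  by_contra hχ
  letI : MeasurableSpace C := borel C
  haveI : BorelSpace C := ⟨rfl⟩
  obtain ⟨μ, hμ1, hμ2⟩ : ∃ μ : Measure C, IsProbabilityMeasure μ ∧ μ.IsMulLeftInvariant := by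
    refine ⟨Measure.haarMeasure ⊤, ⟨?_⟩, inferInstance⟩
    have := Measure.haarMeasure_self (K₀ := (⊤ : TopologicalSpace.PositiveCompacts C))
    simpa using this
  -- the annihilator
  let B : Subgroup C :=
    { carrier := {x | ∀ ψ ∈ Y, ψ x = 1}
      mul_mem' := by
        intro a b ha hb ψ hψ
        rw [map_mul, ha ψ hψ, hb ψ hψ, one_mul]
      one_mem' := fun ψ _ => map_one ψ
      inv_mem' := by
        intro a ha ψ hψ
        rw [map_inv, ha ψ hψ, inv_one] }
  have hBmem : ∀ x, x ∈ B ↔ ∀ ψ ∈ Y, ψ x = 1 := fun x => Iff.rfl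
  -- induced functions on the quotient
  have hker : ∀ ψ ∈ Y, ∀ x ∈ B, ψ x = 1 := fun ψ hψ x hx => hx ψ hψ
  let lft : (ψ : C →ₜ* Circle) → (∀ x ∈ B, ψ x = 1) → C(C ⧸ B, ℂ) := fun ψ hψ =>
    ⟨fun q => ((QuotientGroup.lift B (ψ : C →* Circle) hψ q : Circle) : ℂ), by
      refine continuous_subtype_val.comp ?_
      exact Continuous.quotient_lift ψ.continuous_toFun _⟩
  have lft_mk : ∀ (ψ : C →ₜ* Circle) (hψ : ∀ x ∈ B, ψ x = 1) (x : C),
      lft ψ hψ (x : C ⧸ B) = ((ψ x : Circle) : ℂ) := fun ψ hψ x => rfl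
  let φ : Y →* C(C ⧸ B, ℂ) :=
    { toFun := fun ψ => lft ψ (hker ψ ψ.2)
      map_one' := by
        ext q
        obtain ⟨x, rfl⟩ := QuotientGroup.mk_surjective q
        rw [lft_mk]
        simp
      map_mul' := by
        intro ψ ψ'
        ext q
        obtain ⟨x, rfl⟩ := QuotientGroup.mk_surjective q
        rw [ContinuousMap.mul_apply, lft_mk, lft_mk, lft_mk]
        simp }
  have φ_mk : ∀ (ψ : Y) (x : C), φ ψ (x : C ⧸ B) = (((ψ : C →ₜ* Circle) x : Circle) : ℂ) :=
    fun ψ x => rfl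
  let M : Submonoid C(C ⧸ B, ℂ) := MonoidHom.mrange φ
  let A₀ : Subalgebra ℂ C(C ⧸ B, ℂ) := Algebra.adjoin ℂ (M : Set C(C ⧸ B, ℂ))
  have hMA : ∀ f ∈ M, f ∈ A₀ := fun f hf => Algebra.subset_adjoin hf
  let A : StarSubalgebra ℂ C(C ⧸ B, ℂ) :=
    { A₀ with
      star_mem' := by
        intro f hf
        show star f ∈ A₀
        refine Algebra.adjoin_induction (p := fun g _ => star g ∈ A₀) ?_ ?_ ?_ ?_ hf
        · rintro _ ⟨ψ, rfl⟩
          refine hMA _ ⟨ψ⁻¹, ?_⟩
          ext q
          obtain ⟨x, rfl⟩ := QuotientGroup.mk_surjective q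
          rw [ContinuousMap.star_apply, φ_mk, φ_mk]
          show ((((ψ : C →ₜ* Circle) x)⁻¹ : Circle) : ℂ) = star _
          rw [Circle.coe_inv_eq_conj]
          rfl
        · intro r
          rw [← algebraMap_star_comm]
          exact A₀.algebraMap_mem _
        · intro f g _ _ hf hg
          rw [star_add]
          exact A₀.add_mem hf hg
        · intro f g _ _ hf hg
          rw [star_mul]
          exact A₀.mul_mem hg hf }
  have hsep : A.SeparatesPoints := by
    intro q q' hqq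
    obtain ⟨x, rfl⟩ := QuotientGroup.mk_surjective q
    obtain ⟨y, rfl⟩ := QuotientGroup.mk_surjective q'
    have h1 : x⁻¹ * y ∉ B := fun hh => hqq (QuotientGroup.eq.2 hh)
    rw [hBmem] at h1
    push Not at h1
    obtain ⟨ψ, hψ, hne⟩ := h1
    refine ⟨_, ⟨φ ⟨ψ, hψ⟩, hMA _ ⟨_, rfl⟩, rfl⟩, ?_⟩
    show φ ⟨ψ, hψ⟩ (x : C ⧸ B) ≠ φ ⟨ψ, hψ⟩ (y : C ⧸ B)
    rw [φ_mk, φ_mk]
    intro heq
    apply hne
    have heq' : ψ x = ψ y := Circle.ext heq
    rw [map_mul, map_inv, heq', inv_mul_cancel]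
  have hdense := ContinuousMap.starSubalgebra_topologicalClosure_eq_top_of_separatesPoints A hsep
  have hχB : ∀ x ∈ B, χ x = 1 := fun x hx => h x hx
  -- integrability
  have hint : ∀ f : C(C ⧸ B, ℂ),
      Integrable (fun x : C => (starRingEnd ℂ) ((χ x : Circle) : ℂ) * f (x : C ⧸ B)) μ := by
    intro f
    refine Continuous.integrable_of_hasCompactSupport ?_ (HasCompactSupport.of_compactSpace _)
    refine Continuous.mul ?_ (f.continuous.comp continuous_quotient_mk')
    exact Complex.continuous_conj.comp (continuous_subtype_val.comp χ.continuous_toFun)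
  have hzero : ∀ f ∈ A, ∫ x : C, (starRingEnd ℂ) ((χ x : Circle) : ℂ) * f (x : C ⧸ B) ∂μ = 0 := by
    intro f hf
    have hf' : f ∈ Submodule.span ℂ (M : Set C(C ⧸ B, ℂ)) := by
      have h1 : f ∈ Subalgebra.toSubmodule A₀ := hf
      rw [Algebra.adjoin_eq_span, Submonoid.closure_eq] at h1
      exact h1
    refine Submodule.span_induction (p := fun g _ =>
      ∫ x : C, (starRingEnd ℂ) ((χ x : Circle) : ℂ) * g (x : C ⧸ B) ∂μ = 0) ?_ ?_ ?_ ?_ hf'
    · rintro _ ⟨ψ, rfl⟩
      have hne : ((ψ : C →ₜ* Circle) * χ⁻¹) ≠ 1 := by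
        intro he
        apply hχ
        have : χ = (ψ : C →ₜ* Circle) := (mul_inv_eq_one.1 he).symm
        rw [this]
        exact ψ.2
      obtain ⟨a, ha⟩ : ∃ a, ((ψ : C →ₜ* Circle) * χ⁻¹) a ≠ 1 := by
        by_contra hcon
        push Not at hcon
        apply hne
        ext x
        rw [hcon x]
        rfl
      rw [← Ann_char_int μ _ ha]
      refine integral_congr_ae (Eventually.of_forall (fun x => ?_))
      simp only [φ_mk]
      rw [← Circle.coe_inv_eq_conj, ← Circle.coe_mul, mul_comm]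
      rfl
    · simp
    · intro f g _ _ hf hg
      simp only [ContinuousMap.add_apply, mul_add]
      rw [integral_add (hint f) (hint g), hf, hg, add_zero]
    · intro c f _ hf
      simp only [ContinuousMap.smul_apply, smul_eq_mul]
      have : ∀ x : C, (starRingEnd ℂ) ((χ x : Circle) : ℂ) * (c * f (x : C ⧸ B)) =
          c * ((starRingEnd ℂ) ((χ x : Circle) : ℂ) * f (x : C ⧸ B)) := fun x => by ring
      simp_rw [this]
      rw [integral_const_mul, hf, mul_zero]
  -- approximate the function induced by `χ`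
  have hcl : lft χ hχB ∈ closure (A : Set C(C ⧸ B, ℂ)) := by
    have : lft χ hχB ∈ A.topologicalClosure := by
      rw [hdense]
      exact trivial
    exact this
  obtain ⟨f, hfA, hfd⟩ := Metric.mem_closure_iff.1 hcl (1 / 2) (by norm_num)
  have hone : ∫ x : C, (starRingEnd ℂ) ((χ x : Circle) : ℂ) * (lft χ hχB) (x : C ⧸ B) ∂μ = 1 := by
    have : ∀ x : C, (starRingEnd ℂ) ((χ x : Circle) : ℂ) * (lft χ hχB) (x : C ⧸ B) = 1 := by
      intro x
      rw [lft_mk, ← Circle.coe_inv_eq_conj, ← Circle.coe_mul, inv_mul_cancel, Circle.coe_one]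
    simp_rw [this]
    simp
  have hdiff : ∫ x : C, (starRingEnd ℂ) ((χ x : Circle) : ℂ) *
      (lft χ hχB - f) (x : C ⧸ B) ∂μ = 1 := by
    have : ∀ x : C, (starRingEnd ℂ) ((χ x : Circle) : ℂ) * (lft χ hχB - f) (x : C ⧸ B) =
        (starRingEnd ℂ) ((χ x : Circle) : ℂ) * (lft χ hχB) (x : C ⧸ B) -
          (starRingEnd ℂ) ((χ x : Circle) : ℂ) * f (x : C ⧸ B) := by
      intro x
      rw [ContinuousMap.sub_apply, mul_sub]
    simp_rw [this]
    rw [integral_sub (hint _) (hint _), hone, hzero f hfA, sub_zero]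
  have hle : ‖∫ x : C, (starRingEnd ℂ) ((χ x : Circle) : ℂ) *
      (lft χ hχB - f) (x : C ⧸ B) ∂μ‖ ≤ 1 / 2 := by
    have := norm_integral_le_of_norm_le_const (μ := μ) (C := 1 / 2)
      (f := fun x : C => (starRingEnd ℂ) ((χ x : Circle) : ℂ) * (lft χ hχB - f) (x : C ⧸ B))
      (Eventually.of_forall (fun x => by
        rw [norm_mul]
        have h1 : ‖(starRingEnd ℂ) ((χ x : Circle) : ℂ)‖ = 1 := by
          rw [RCLike.norm_conj, Circle.norm_coe]
        rw [h1, one_mul]
        refine ((lft χ hχB - f).norm_coe_le_norm _).trans ?_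
        rw [← dist_eq_norm]
        exact hfd.le))
    simpa using this
  rw [hdiff] at hle
  norm_num at hle

end Pool.Agent.GY
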