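import Mathlib

/-!
# GY.BaireD (diff 3): a generic sequence generates a dense subgroup avoiding a closed set

`X` is Polish (locally compact, Hausdorff, second countable), so `ℕ → X` is Polish, in particular a Baire space.
For `w : FreeGroup ℕ` let `E_w = {x : ℕ → X | lift x w ∈ A → lift x w = 1}`.  Claim: `E_w` contains a dense open set.  `w` uses finitely many letters: there are `k` and
`w' : FreeGroup (Fin k)` with `w = map Fin.val w'` (all letters of `w` are `< k`), so `lift x w = lift (x ∘ Fin.val) w'`.  If `w'` is a law, `E_w = univ`.  Otherwise `Z = {y : Fin k → X | lift y w' ∈ A}` is closed with empty interior, and its preimage under the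
restriction map `(ℕ → X) → (Fin k → X)`, which is open, continuous and surjective, is closed with empty interior; the complement is open dense and contained in `E_w`.
For a countable basis `b_j` of nonempty open sets of `X` the set `{x | ∃ n, x n ∈ b_j}` is open and dense (change a coordinate that is not restricted by a basic open set).
`FreeGroup ℕ` is countable: the intersection is dense (`dense_iInter_of_isOpen`/`dense_sInter`), so nonempty: take `x` in it and `H = range (lift x) = closure (range x)`.
-/

open Topology Filter Set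

namespace Pool.Agent.GY

theorem bd_cont_lift {X ι : Type*} [Group X] [TopologicalSpace X] [IsTopologicalGroup X]
    (w : FreeGroup ι) : Continuous (fun x : ι → X => FreeGroup.lift x w) := by
  induction w using FreeGroup.induction_on with
  | C1 => simpa using continuous_const
  | of i => simpa using continuous_apply i
  | inv_of i h =>
    simp only [map_inv, FreeGroup.lift_apply_of]
    exact (continuous_apply i).inv
  | mul x y hx hy =>
    simp only [map_mul]
    exact hx.mul hy

theorem bd_word (w : FreeGroup ℕ) : ∃ (k : ℕ) (w' : FreeGroup (Fin k)),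
    w = FreeGroup.map Fin.val w' := by
  induction w using FreeGroup.induction_on with
  | C1 => exact ⟨0, 1, by simp⟩
  | of i => exact ⟨i + 1, FreeGroup.of ⟨i, by omega⟩, by simp⟩
  | inv_of i h => exact ⟨i + 1, (FreeGroup.of ⟨i, by omega⟩)⁻¹, by simp⟩
  | mul x y hx hy =>
    obtain ⟨k, x', rfl⟩ := hx
    obtain ⟨l, y', rfl⟩ := hy
    refine ⟨max k l, FreeGroup.map (Fin.castLE (le_max_left k l)) x' *
      FreeGroup.map (Fin.castLE (le_max_right k l)) y', ?_⟩
    rw [map_mul, FreeGroup.map.comp, FreeGroup.map.comp]
    rfl

theorem bd_lift_map {X ι κ : Type*} [Group X] (x : κ → X) (f : ι → κ) (w : FreeGroup ι) :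
    FreeGroup.lift x (FreeGroup.map f w) = FreeGroup.lift (x ∘ f) w := by
  have : (FreeGroup.lift x).comp (FreeGroup.map f) = FreeGroup.lift (x ∘ f) := by
    ext i
    simp
  exact DFunLike.congr_fun this w

theorem bd_baire (X : Type*) [Group X] [TopologicalSpace X] [IsTopologicalGroup X]
    [LocallyCompactSpace X] [FirstCountableTopology X] : BaireSpace (ℕ → X) := by
  let u : UniformSpace X := IsTopologicalGroup.rightUniformSpace X
  have h1 : IsRightUniformGroup X := ⟨rfl⟩
  have h2 : CompleteSpace X := IsRightUniformGroup.completeSpace_of_weaklyLocallyCompactSpace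
  have h3 : (uniformity X).IsCountablyGenerated := by
    rw [IsRightUniformGroup.uniformity_eq]
    infer_instance
  infer_instance

theorem bd_countable : Countable (FreeGroup ℕ) := by
  have : Function.Surjective (FreeGroup.mk : List (ℕ × Bool) → FreeGroup ℕ) := by
    intro x
    exact ⟨x.toWord, FreeGroup.mk_toWord⟩
  exact this.countable

theorem baire_dense {X : Type*} [Group X] [TopologicalSpace X] [IsTopologicalGroup X]
    [T2Space X] [LocallyCompactSpace X] [SecondCountableTopology X] {A : Set X} (hA : IsClosed A)
    (h : ∀ k : ℕ, ∀ w : FreeGroup (Fin k), (∀ x : Fin k → X, FreeGroup.lift x w = 1) ∨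
      interior {x : Fin k → X | FreeGroup.lift x w ∈ A} = ∅) :
    ∃ H : Subgroup X, Dense (H : Set X) ∧ ∀ x ∈ H, x ∈ A → x = 1 := by
  classical
  have hB : BaireSpace (ℕ → X) := bd_baire X
  have hC : Countable (FreeGroup ℕ) := bd_countable
  -- the sets for the words
  have hO : ∀ w : FreeGroup ℕ, ∃ O : Set (ℕ → X), IsOpen O ∧ Dense O ∧
      ∀ x ∈ O, FreeGroup.lift x w ∈ A → FreeGroup.lift x w = 1 := by
    intro w
    obtain ⟨k, w', rfl⟩ := bd_word w
    rcases h k w' with h1 | h1
    · refine ⟨univ, isOpen_univ, dense_univ, fun x _ _ => ?_⟩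
      rw [bd_lift_map]
      exact h1 _
    · refine ⟨{x : ℕ → X | FreeGroup.lift x (FreeGroup.map Fin.val w') ∉ A}, ?_, ?_,
        fun x hx hx' => absurd hx' hx⟩
      · exact (hA.preimage (bd_cont_lift _)).isOpen_compl
      · rw [dense_iff_inter_open]
        rintro U hU ⟨x0, hx0⟩
        let g : (Fin k → X) → (ℕ → X) := fun y n => if hn : n < k then y ⟨n, hn⟩ else x0 n
        have hg : Continuous g := by
          refine continuous_pi fun n => ?_
          by_cases hn : n < k
          · simpa [g, hn] using continuous_apply (⟨n, hn⟩ : Fin k)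
          · simpa [g, hn] using continuous_const
        have hg1 : ∀ y, g y ∘ Fin.val = y := by
          intro y
          ext i
          simp [g]
        have hg0 : g (x0 ∘ Fin.val) = x0 := by
          ext n
          by_cases hn : n < k <;> simp [g, hn]
        have hV : IsOpen (g ⁻¹' U) := hU.preimage hg
        by_contra hcon
        have hsub : g ⁻¹' U ⊆ {x : Fin k → X | FreeGroup.lift x w' ∈ A} := by
          intro y hy
          by_contra hy2
          apply hcon
          refine ⟨g y, hy, ?_⟩
          change FreeGroup.lift (g y) (FreeGroup.map Fin.val w') ∉ A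
          rw [bd_lift_map, hg1]
          exact hy2
        have hmem : (x0 ∘ Fin.val) ∈ interior {x : Fin k → X | FreeGroup.lift x w' ∈ A} := by
          rw [mem_interior]
          refine ⟨_, hsub, hV, ?_⟩
          change g (x0 ∘ Fin.val) ∈ U
          rw [hg0]
          exact hx0
        rw [h1] at hmem
        exact hmem
  choose O hO1 hO2 hO3 using hO
  -- the sets for the basis
  let B := TopologicalSpace.countableBasis X
  have hBc : Countable B := (TopologicalSpace.countable_countableBasis X).to_subtype
  have hD1 : ∀ b : B, IsOpen {x : ℕ → X | ∃ n, x n ∈ (b : Set X)} := by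
    intro b
    have : {x : ℕ → X | ∃ n, x n ∈ (b : Set X)} = ⋃ n, (fun x : ℕ → X => x n) ⁻¹' (b : Set X) := by
      ext x
      simp
    rw [this]
    exact isOpen_iUnion fun n =>
      (TopologicalSpace.isOpen_of_mem_countableBasis b.2).preimage (continuous_apply n)
  have hD2 : ∀ b : B, Dense {x : ℕ → X | ∃ n, x n ∈ (b : Set X)} := by
    intro b
    obtain ⟨z, hz⟩ := TopologicalSpace.nonempty_of_mem_countableBasis b.2
    rw [dense_iff_inter_open]
    rintro U hU ⟨x0, hx0⟩
    have ht : Tendsto (fun n => Function.update x0 n z) atTop (𝓝 x0) := by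
      rw [tendsto_pi_nhds]
      intro i
      apply tendsto_const_nhds.congr'
      filter_upwards [eventually_gt_atTop i] with n hn
      rw [Function.update_of_ne (ne_of_lt hn)]
    obtain ⟨n, hn⟩ := (ht.eventually (hU.mem_nhds hx0)).exists
    exact ⟨_, hn, n, by simpa using hz⟩
  have hdense : Dense (⋂ i : FreeGroup ℕ ⊕ B, Sum.elim O
      (fun b : B => {x : ℕ → X | ∃ n, x n ∈ (b : Set X)}) i) := by
    apply dense_iInter_of_isOpen
    · rintro (w | b)
      · exact hO1 w
      · exact hD1 b
    · rintro (w | b)
      · exact hO2 w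
      · exact hD2 b
  have : Nonempty (ℕ → X) := ⟨fun _ => 1⟩
  obtain ⟨x, hx⟩ := hdense.nonempty
  rw [mem_iInter] at hx
  refine ⟨(FreeGroup.lift x).range, ?_, ?_⟩
  · rw [dense_iff_inter_open]
    rintro U hU ⟨u, hu⟩
    obtain ⟨b, hb, hub, hbU⟩ := (TopologicalSpace.isBasis_countableBasis X).exists_subset_of_mem_open
      hu hU
    obtain ⟨n, hn⟩ := hx (Sum.inr ⟨b, hb⟩)
    exact ⟨x n, hbU hn, FreeGroup.of n, by simp⟩
  · rintro y ⟨w, rfl⟩ hy
    exact hO3 w x (hx (Sum.inl w)) hy

end Pool.Agent.GY
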