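import Mathlib

/-!
# GY.BanNSS (diff 1): no small subgroups in a normed ring

`a_k = ‖g^(2^k) - 1‖`.  `g² - 1 = 2 (g - 1) + (g - 1)²` gives `a_{k+1} ≥ 2 a_k - a_k² ≥ (2 - c) a_k` with `2 - c > 1`, but
`a_k ≤ c`: so `a_0 = 0`.  (For a real normed algebra `‖2 x‖ = 2 ‖x‖`.)
-/

namespace Pool.Agent.GY

theorem ban_nss {A : Type*} [NormedRing A] [NormedAlgebra ℝ A] {g : A} {c : ℝ} (hc : c < 1)
    (h : ∀ n : ℕ, ‖g ^ n - 1‖ ≤ c) : g = 1 := by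
  have hstep : ∀ k : ℕ, (2 - c) * ‖g ^ (2 ^ k) - 1‖ ≤ ‖g ^ (2 ^ (k + 1)) - 1‖ := by
    intro k
    have h1 := h (2 ^ k)
    set x := g ^ (2 ^ k) - 1 with hx
    have h2 : g ^ (2 ^ (k + 1)) - 1 = (2 : ℝ) • x - -(x * x) := by
      have h3 : g ^ (2 ^ k) = x + 1 := by rw [hx, sub_add_cancel]
      rw [pow_succ 2 k, pow_mul, h3, two_smul]
      noncomm_ring
    rw [h2]
    have h4 : ‖(2 : ℝ) • x‖ = 2 * ‖x‖ := by
      rw [norm_smul, Real.norm_eq_abs, abs_of_pos (by norm_num : (0 : ℝ) < 2)]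
    have h5 := norm_sub_norm_le ((2 : ℝ) • x) (-(x * x))
    rw [h4, norm_neg] at h5
    have h6 := norm_mul_le x x
    have h7 : ‖x‖ * ‖x‖ ≤ c * ‖x‖ := mul_le_mul_of_nonneg_right h1 (norm_nonneg x)
    linarith
  have hpow : ∀ k : ℕ, (2 - c) ^ k * ‖g - 1‖ ≤ ‖g ^ (2 ^ k) - 1‖ := by
    intro k
    induction k with
    | zero => simp
    | succ k ih =>
      calc (2 - c) ^ (k + 1) * ‖g - 1‖ = (2 - c) * ((2 - c) ^ k * ‖g - 1‖) := by ring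
        _ ≤ (2 - c) * ‖g ^ (2 ^ k) - 1‖ := mul_le_mul_of_nonneg_left ih (by linarith)
        _ ≤ _ := hstep k
  by_contra hne
  have hpos : 0 < ‖g - 1‖ := norm_pos_iff.2 (sub_ne_zero.2 hne)
  obtain ⟨k, hk⟩ := pow_unbounded_of_one_lt (1 / ‖g - 1‖) (by linarith : (1 : ℝ) < 2 - c)
  have h1 := hpow k
  have h2 := h (2 ^ k)
  rw [div_lt_iff₀ hpos] at hk
  linarith

end Pool.Agent.GY
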