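import Pool.Agent.GY.LamAn

/-!
# GY.BchAn (diff 3): the explicit BCH function is analytic near `0`

`bch ad (x, y) = x + ∫_0^1 Λ(exp(t ad y) exp(ad x)) y dt`.
Let `𝒜 = V →L[ℝ] V` and `ℬ = C(unitInterval, 𝒜)`, a complete normed algebra.  The map `B ↦ (t ↦ t • B)`, `𝒜 → ℬ` is continuous linear (`i₁`), and `const : 𝒜 → ℬ` (`i₂`).
Evaluation at `t` is a continuous ring homomorphism `ℬ → 𝒜`, so it commutes with `NormedSpace.exp` (`NormedSpace.map_exp`) and with `LamOp` (`tsum`, on the ball of radius `1` around `1`: summable).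
`J : ℬ → V → V`, `J f y = ∫_0^1 f t y dt` is continuous bilinear (`‖J f y‖ ≤ ‖f‖ ‖y‖`).  So near `(0,0)`
`bch ad (x, y) = x + J (LamOp (exp (i₁ (ad y)) * exp (i₂ (ad x)))) y`, a composition of analytic maps: `NormedSpace.exp_analytic`, multiplication (`AnalyticAt.mul`), `lamOp_an` (the argument
is in the ball of radius `1` around `1` for `‖x‖, ‖y‖ ≤ s`), continuous (bi)linear maps (`ContinuousLinearMap.analyticAt`, `ContinuousLinearMap.analyticAt_bilinear`).
-/

open Topology Filter Set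

namespace Pool.Agent.GY

variable {V : Type*} [NormedAddCommGroup V] [NormedSpace ℝ V] [CompleteSpace V]

/-- `exp y exp x = exp (bch (x, y))` -/
noncomputable def bch (ad : V →L[ℝ] (V →L[ℝ] V)) (p : V × V) : V :=
  p.1 + ∫ t in (0 : ℝ)..1, (LamOp (NormedSpace.exp (t • ad p.2) * NormedSpace.exp (ad p.1))) p.2

section aux

variable {A : Type*} [NormedRing A] [NormedAlgebra ℝ A] [CompleteSpace A]

/-- the function `t ↦ t` -/
noncomputable def BchAn_tau (A : Type*) [NormedRing A] [NormedAlgebra ℝ A] :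
    C(unitInterval, A) :=
  ⟨fun t => (t : ℝ) • (1 : A), continuous_subtype_val.smul continuous_const⟩

omit [NormedAlgebra ℝ A] [CompleteSpace A] in
theorem BchAn_cont (f : C(unitInterval, A)) :
    Continuous (fun t : ℝ => f (Set.projIcc (0:ℝ) 1 zero_le_one t)) :=
  f.continuous.comp continuous_projIcc

/-- the integral over `[0,1]` -/
noncomputable def BchAn_int (A : Type*) [NormedRing A] [NormedAlgebra ℝ A] [CompleteSpace A] :
    C(unitInterval, A) →L[ℝ] A :=
  LinearMap.mkContinuous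
    { toFun := fun f => ∫ t in (0:ℝ)..1, f (Set.projIcc (0:ℝ) 1 zero_le_one t)
      map_add' := by
        intro f g
        rw [← intervalIntegral.integral_add ((BchAn_cont f).intervalIntegrable _ _)
          ((BchAn_cont g).intervalIntegrable _ _)]
        rfl
      map_smul' := by
        intro c f
        rw [RingHom.id_apply, ← intervalIntegral.integral_smul]
        rfl } 1 (by
      intro f
      have h := intervalIntegral.norm_integral_le_of_norm_le_const (a := (0:ℝ)) (b := 1)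
        (C := ‖f‖) (f := fun t : ℝ => f (Set.projIcc (0:ℝ) 1 zero_le_one t))
        (fun x _ => f.norm_coe_le_norm _)
      rw [sub_zero, abs_one, mul_one] at h
      rw [one_mul]
      exact h)

theorem BchAn_int_apply (f : C(unitInterval, A)) :
    BchAn_int A f = ∫ t in (0:ℝ)..1, f (Set.projIcc (0:ℝ) 1 zero_le_one t) := rfl

/-- evaluation at `t` -/
def BchAn_ev (A : Type*) [NormedRing A] (t : unitInterval) : C(unitInterval, A) →+* A where
  toFun := fun f => f t
  map_one' := rfl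
  map_mul' := fun _ _ => rfl
  map_zero' := rfl
  map_add' := fun _ _ => rfl

omit [NormedAlgebra ℝ A] [CompleteSpace A] in
theorem BchAn_ev_cont (t : unitInterval) : Continuous (BchAn_ev A t) :=
  continuous_eval_const t

end aux

section gen

variable {B : Type*} [NormedRing B] [NormedAlgebra ℝ B] [CompleteSpace B]

theorem BchAn_ev_exp {A : Type*} [NormedRing A] [NormedAlgebra ℝ A] [CompleteSpace A]
    (e : B →+* A) (he : Continuous e) (f : B) :
    e (NormedSpace.exp f) = NormedSpace.exp (e f) := by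
  let _ : NormedAlgebra ℚ A := NormedAlgebra.restrictScalars ℚ ℝ A
  let _ : NormedAlgebra ℚ B := NormedAlgebra.restrictScalars ℚ ℝ B
  exact NormedSpace.map_exp e he f

theorem BchAn_ev_lam {A : Type*} [NormedRing A] [NormedAlgebra ℝ A] [CompleteSpace A]
    (e : B →+* A) (he : Continuous e) (M : B) (hM : ‖M - 1‖ < 1) :
    e (LamOp M) = LamOp (e M) := by
  have hsum : Summable (fun k : ℕ => ((-1 : ℝ) ^ k / (k + 1)) • (M - 1) ^ k) := by
    refine Summable.of_norm_bounded (g := fun k : ℕ => ‖(1 : B)‖ * ‖M - 1‖ ^ k +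
      ‖M - 1‖ ^ k) ?_ ?_
    · exact ((summable_geometric_of_lt_one (norm_nonneg _) hM).mul_left _).add
        (summable_geometric_of_lt_one (norm_nonneg _) hM)
    · intro k
      rw [norm_smul]
      have h1 : ‖((-1 : ℝ) ^ k / (k + 1))‖ ≤ 1 := by
        rw [norm_div, norm_pow, norm_neg, norm_one, one_pow]
        have h2 : (1:ℝ) ≤ ‖(k:ℝ) + 1‖ := by
          rw [Real.norm_of_nonneg (by positivity)]
          linarith [Nat.cast_nonneg (α := ℝ) k]
        rw [div_le_one (by linarith)]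
        exact h2
      have h2 : ‖(M - 1) ^ k‖ ≤ ‖(1 : B)‖ * ‖M - 1‖ ^ k + ‖M - 1‖ ^ k := by
        have e0 : 0 ≤ ‖M - 1‖ ^ k := pow_nonneg (norm_nonneg _) k
        have e1 : 0 ≤ ‖(1 : B)‖ := norm_nonneg _
        rcases Nat.eq_zero_or_pos k with hk | hk
        · subst hk
          simp
        · have e2 := norm_pow_le' (M - 1) hk
          nlinarith
      calc ‖((-1 : ℝ) ^ k / (k + 1))‖ * ‖(M - 1) ^ k‖ ≤ 1 * ‖(M - 1) ^ k‖ := by gcongr
        _ = ‖(M - 1) ^ k‖ := one_mul _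
        _ ≤ _ := h2
  have h1 := hsum.hasSum.map e he
  have h2 := h1.tsum_eq
  have h3 : ∀ (c : ℝ) (b : B), e (c • b) = c • e b := fun c b => map_real_smul e he c b
  unfold LamOp
  rw [← h2]
  refine tsum_congr (fun k => ?_)
  simp only [Function.comp]
  rw [h3, map_pow, map_sub, map_one]

/-- the argument of `Λ` as a function on the interval -/
noncomputable def BchAn_M (τ : B) (c : (V →L[ℝ] V) →L[ℝ] B) (ad : V →L[ℝ] (V →L[ℝ] V))
    (p : V × V) : B :=
  NormedSpace.exp (τ * c (ad p.2)) * NormedSpace.exp (c (ad p.1))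

omit [CompleteSpace V] in
theorem BchAn_M_an (τ : B) (c : (V →L[ℝ] V) →L[ℝ] B) (ad : V →L[ℝ] (V →L[ℝ] V)) (p : V × V) :
    AnalyticAt ℝ (BchAn_M τ c ad) p := by
  have h2 : AnalyticAt ℝ (fun p : V × V => c (ad p.2)) p :=
    (c.analyticAt _).comp ((ad.analyticAt _).comp analyticAt_snd)
  have h1 : AnalyticAt ℝ (fun p : V × V => c (ad p.1)) p :=
    (c.analyticAt _).comp ((ad.analyticAt _).comp analyticAt_fst)
  have h3 : AnalyticAt ℝ (fun p : V × V => τ * c (ad p.2)) p :=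
    analyticAt_const.mul h2
  have h4 : AnalyticAt ℝ (fun p : V × V => NormedSpace.exp (τ * c (ad p.2))) p :=
    AnalyticAt.comp (f := fun p : V × V => τ * c (ad p.2))
      (NormedSpace.exp_analytic (𝕂 := ℝ) _) h3
  have h5 : AnalyticAt ℝ (fun p : V × V => NormedSpace.exp (c (ad p.1))) p :=
    AnalyticAt.comp (f := fun p : V × V => c (ad p.1)) (NormedSpace.exp_analytic (𝕂 := ℝ) _) h1
  exact h4.mul h5

omit [CompleteSpace V] [CompleteSpace B] in
theorem BchAn_M_zero (τ : B) (c : (V →L[ℝ] V) →L[ℝ] B) (ad : V →L[ℝ] (V →L[ℝ] V)) :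
    BchAn_M τ c ad 0 = 1 := by
  unfold BchAn_M
  rw [Prod.snd_zero, Prod.fst_zero, map_zero, map_zero, mul_zero, NormedSpace.exp_zero, mul_one]

theorem BchAn_gen (τ : B) (c : (V →L[ℝ] V) →L[ℝ] B) (I : B →L[ℝ] (V →L[ℝ] V))
    (ev : unitInterval → B →+* (V →L[ℝ] V)) (hev : ∀ t, Continuous (ev t))
    (hτ : ∀ t, ev t τ = (t:ℝ) • (1 : V →L[ℝ] V)) (hc : ∀ t a, ev t (c a) = a)
    (hI : ∀ f, I f = ∫ t in (0:ℝ)..1, ev (Set.projIcc (0:ℝ) 1 zero_le_one t) f)
    (hIc : ∀ f, Continuous (fun t : ℝ => ev (Set.projIcc (0:ℝ) 1 zero_le_one t) f))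
    (ad : V →L[ℝ] (V →L[ℝ] V)) :
    ∃ s : ℝ, 0 < s ∧ AnalyticOnNhd ℝ (bch ad) (Metric.ball 0 s) := by
  have hM_apply : ∀ (p : V × V) (t : unitInterval), ev t (BchAn_M τ c ad p) =
      NormedSpace.exp ((t:ℝ) • ad p.2) * NormedSpace.exp (ad p.1) := by
    intro p t
    unfold BchAn_M
    rw [map_mul, BchAn_ev_exp (ev t) (hev t), BchAn_ev_exp (ev t) (hev t), map_mul, hτ, hc, hc,
      smul_mul_assoc, one_mul]
  have heq : ∀ p : V × V, ‖BchAn_M τ c ad p - 1‖ < 1 →
      bch ad p = p.1 + (I (LamOp (BchAn_M τ c ad p))) p.2 := by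
    intro p hp
    unfold bch
    congr 1
    rw [hI, ContinuousLinearMap.intervalIntegral_apply ((hIc _).intervalIntegrable _ _)]
    refine intervalIntegral.integral_congr (fun t ht => ?_)
    rw [Set.uIcc_of_le zero_le_one] at ht
    have h1 : Set.projIcc (0:ℝ) 1 zero_le_one t = ⟨t, ht⟩ := Set.projIcc_of_mem zero_le_one ht
    show (LamOp (NormedSpace.exp (t • ad p.2) * NormedSpace.exp (ad p.1))) p.2 =
      (ev (Set.projIcc (0:ℝ) 1 zero_le_one t) (LamOp (BchAn_M τ c ad p))) p.2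
    rw [h1, BchAn_ev_lam _ (hev _) _ hp, hM_apply]
  have hc : ContinuousAt (fun p => ‖BchAn_M τ c ad p - 1‖) (0 : V × V) :=
    ((BchAn_M_an τ c ad 0).sub analyticAt_const).continuousAt.norm
  have hc2 : Tendsto (fun p => ‖BchAn_M τ c ad p - 1‖) (𝓝 (0 : V × V)) (𝓝 0) := by
    have h1 : ‖BchAn_M τ c ad 0 - 1‖ = 0 := by rw [BchAn_M_zero, sub_self, norm_zero]
    rw [← h1]
    exact hc
  obtain ⟨s, hs, hsub⟩ := Metric.eventually_nhds_iff_ball.mp
    (hc2.eventually_lt_const one_pos)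
  have hM : ∀ p ∈ Metric.ball (0 : V × V) s, ‖BchAn_M τ c ad p - 1‖ < 1 := hsub
  refine ⟨s, hs, fun p hp => ?_⟩
  have h1 : AnalyticAt ℝ (fun p : V × V => LamOp (BchAn_M τ c ad p)) p :=
    AnalyticAt.comp (f := BchAn_M τ c ad) (lamOp_an (BchAn_M τ c ad p) (by
      rw [Metric.mem_ball, dist_eq_norm]
      exact hM p hp)) (BchAn_M_an τ c ad p)
  have h2 : AnalyticAt ℝ (fun p : V × V => I (LamOp (BchAn_M τ c ad p))) p :=
    AnalyticAt.comp (f := fun p : V × V => LamOp (BchAn_M τ c ad p)) (I.analyticAt _) h1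
  have h3 : AnalyticAt ℝ (fun p : V × V =>
      ((I (LamOp (BchAn_M τ c ad p)), p.2) : (V →L[ℝ] V) × V)) p :=
    h2.prod analyticAt_snd
  have h4 : AnalyticAt ℝ (fun p : V × V => (I (LamOp (BchAn_M τ c ad p))) p.2) p :=
    AnalyticAt.comp (f := fun p : V × V =>
      ((I (LamOp (BchAn_M τ c ad p)), p.2) : (V →L[ℝ] V) × V))
      (ContinuousLinearMap.analyticAt_bilinear (ContinuousLinearMap.id ℝ (V →L[ℝ] V)) _) h3
  have h5 : AnalyticAt ℝ (fun p : V × V => p.1 + (I (LamOp (BchAn_M τ c ad p))) p.2) p :=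
    analyticAt_fst.add h4
  refine h5.congr ?_
  filter_upwards [Metric.isOpen_ball.mem_nhds hp] with q hq
  exact (heq q (hM q hq)).symm

end gen

theorem bch_an (ad : V →L[ℝ] (V →L[ℝ] V)) :
    ∃ s : ℝ, 0 < s ∧ AnalyticOnNhd ℝ (bch ad) (Metric.ball 0 s) :=
  BchAn_gen (B := C(unitInterval, V →L[ℝ] V)) (BchAn_tau (V →L[ℝ] V))
    (ContinuousLinearMap.const ℝ unitInterval) (BchAn_int (V →L[ℝ] V))
    (BchAn_ev (V →L[ℝ] V)) BchAn_ev_cont (fun _ => rfl) (fun _ _ => rfl)
    (fun f => BchAn_int_apply f) (fun f => BchAn_cont f) ad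

omit [CompleteSpace V] in
theorem bch_zero_right (ad : V →L[ℝ] (V →L[ℝ] V)) (x : V) : bch ad (x, 0) = x := by
  unfold bch
  simp

end Pool.Agent.GY
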