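import Pool.Agent.GY.DefsB

/-!
# GY.LamInv (diff 3): `Λ(exp a) Φ(a) = 1`

Let `‖a‖ ≤ 1/4`, `S t = ∫_0^t exp(s a) ds`, so `S 1 = Φ(a)`, `S' t = exp(t a)`, `exp(t a) - 1 = a S t` (both sides have the same derivative `a exp(t a)` and vanish at `0`), everything
commutes with `a`.  For `t ∈ [0,1]`: `‖a S t‖ = ‖exp(t a) - 1‖ ≤ exp(1/4) - 1 ≤ 1/3 =: q`.
`h t = Λ(exp(t a)) S t = ∑_k ((-1)^k/(k+1)) (a S t)^k S t = ∑_k ((-1)^k/(k+1)) a^k (S t)^(k+1)`; the term has derivative `(-1)^k a^k (S t)^k exp(t a) = (-1)^k (a S t)^k exp(t a)` bounded by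
`q^k exp(1/4)` on `[0,1]` (use an open interval `(-ε, 1+ε)` or one-sided derivatives; `‖exp(t a) - 1‖ ≤ 1/2` for `t ∈ (-1, 3/2)`), so
`h' t = ∑_k (-1)^k (a S t)^k exp(t a) = (1 + a S t)⁻¹ exp(t a) = 1` (`1 + a S t = exp(t a)`; Neumann series `NormedRing.summable_geometric_of_norm_lt_one`, `hasDerivAt_tsum_of_isPreconnected`).
`h 0 = 0`, so `h 1 = 1`.  The factors commute, so also `Φ(a) Λ(exp a) = 1`.
-/

open Topology Filter Set

set_option linter.unusedSectionVars false

namespace Pool.Agent.GY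

variable {A : Type*} [NormedRing A] [NormedAlgebra ℝ A] [CompleteSpace A]

private theorem li_exp_bound (b : A) : ‖NormedSpace.exp b - 1‖ ≤ Real.exp ‖b‖ - 1 := by
  have hs := NormedSpace.expSeries_summable' (𝕂 := ℝ) b
  have hsn := NormedSpace.norm_expSeries_summable' (𝕂 := ℝ) b
  have h1 : NormedSpace.exp b = ∑' n : ℕ, ((n.factorial : ℝ)⁻¹) • b ^ n := by
    rw [NormedSpace.exp_eq_tsum ℝ]
  have hr := NormedSpace.expSeries_summable' (𝕂 := ℝ) ‖b‖
  have h2 : Real.exp ‖b‖ = ∑' n : ℕ, ((n.factorial : ℝ)⁻¹) • ‖b‖ ^ n := by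
    rw [Real.exp_eq_exp_ℝ, NormedSpace.exp_eq_tsum ℝ]
  rw [h1, h2, hs.tsum_eq_zero_add, hr.tsum_eq_zero_add]
  simp only [Nat.factorial_zero, Nat.cast_one, inv_one, pow_zero, one_smul, add_sub_cancel_left]
  have hs' := (summable_nat_add_iff 1).mpr hsn
  have hr' := (summable_nat_add_iff 1).mpr hr
  refine (norm_tsum_le_tsum_norm hs').trans ?_
  refine hs'.tsum_le_tsum ?_ hr'
  intro n
  rw [norm_smul, smul_eq_mul, Real.norm_of_nonneg (by positivity)]
  exact mul_le_mul_of_nonneg_left (norm_pow_le' b (Nat.succ_pos n)) (by positivity)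

private theorem li_real (x : ℝ) (hx : x < 1) : Real.exp x - 1 ≤ (1 - x)⁻¹ - 1 := by
  have h1 : 1 - x ≤ Real.exp (-x) := by
    have := Real.add_one_le_exp (-x)
    linarith
  have h2 : Real.exp x = (Real.exp (-x))⁻¹ := by
    rw [Real.exp_neg, inv_inv]
  rw [h2]
  have h3 : 0 < 1 - x := by linarith
  have := inv_anti₀ h3 h1
  linarith

theorem norm_exp_sub_one_le (a : A) (ha : ‖a‖ ≤ 1 / 4) : ‖NormedSpace.exp a - 1‖ ≤ 1 / 3 := by
  have h1 := li_exp_bound a
  have h2 := li_real (1 / 4) (by norm_num)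
  have h3 : Real.exp ‖a‖ ≤ Real.exp (1 / 4) := Real.exp_le_exp.mpr ha
  norm_num at h2
  linarith

private theorem li_exp_t (a : A) (ha : ‖a‖ ≤ 1 / 4) (t : ℝ) (ht : t ∈ Ioo (-1 : ℝ) (3 / 2)) :
    ‖NormedSpace.exp (t • a) - 1‖ ≤ 3 / 5 := by
  have h1 := li_exp_bound (t • a)
  have h2 := li_real (3 / 8) (by norm_num)
  have hn : ‖t • a‖ ≤ 3 / 8 := by
    rw [norm_smul, Real.norm_eq_abs]
    have : |t| ≤ 3 / 2 := by
      rw [abs_le]
      constructor <;> linarith [ht.1, ht.2]
    calc |t| * ‖a‖ ≤ 3 / 2 * (1 / 4) := mul_le_mul this ha (norm_nonneg _) (by norm_num)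
      _ = 3 / 8 := by norm_num
  have h3 : Real.exp ‖t • a‖ ≤ Real.exp (3 / 8) := Real.exp_le_exp.mpr hn
  norm_num at h2
  linarith

/-- `S t = ∫_0^t exp(s a) ds` -/
private noncomputable def liS (a : A) (t : ℝ) : A := ∫ s in (0 : ℝ)..t, NormedSpace.exp (s • a)

private theorem li_cont (a : A) : Continuous (fun s : ℝ => NormedSpace.exp (s • a)) := by
  have : ∀ s : ℝ, HasDerivAt (fun s : ℝ => NormedSpace.exp (s • a)) (NormedSpace.exp (s • a) * a) s :=
    fun s => hasDerivAt_exp_smul_const a s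
  exact continuous_iff_continuousAt.mpr (fun s => (this s).continuousAt)

private theorem li_S_deriv (a : A) (t : ℝ) : HasDerivAt (liS a) (NormedSpace.exp (t • a)) t := by
  exact intervalIntegral.integral_hasDerivAt_right ((li_cont a).intervalIntegrable _ _)
    ((li_cont a).stronglyMeasurableAtFilter _ _) (li_cont a).continuousAt

private theorem li_S_zero (a : A) : liS a 0 = 0 := by
  simp [liS]

private theorem li_mul_left (a : A) (t : ℝ) : a * liS a t = NormedSpace.exp (t • a) - 1 := by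
  have h1 : ∀ s : ℝ, HasDerivAt (fun s : ℝ => NormedSpace.exp (s • a)) (a * NormedSpace.exp (s • a)) s :=
    fun s => hasDerivAt_exp_smul_const' a s
  have h2 := intervalIntegral.integral_eq_sub_of_hasDerivAt (a := (0 : ℝ)) (b := t)
    (fun s _ => h1 s) ((continuous_const.mul (li_cont a)).intervalIntegrable _ _)
  have h3 : ∫ s in (0 : ℝ)..t, a * NormedSpace.exp (s • a) = a * liS a t := by
    unfold liS
    have := (ContinuousLinearMap.mul ℝ A a).intervalIntegral_comp_comm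
      ((li_cont a).intervalIntegrable (μ := MeasureTheory.volume) 0 t)
    simpa using this
  rw [← h3, h2]
  simp

private theorem li_mul_right (a : A) (t : ℝ) : liS a t * a = NormedSpace.exp (t • a) - 1 := by
  have h1 : ∀ s : ℝ, HasDerivAt (fun s : ℝ => NormedSpace.exp (s • a)) (NormedSpace.exp (s • a) * a) s :=
    fun s => hasDerivAt_exp_smul_const a s
  have h2 := intervalIntegral.integral_eq_sub_of_hasDerivAt (a := (0 : ℝ)) (b := t)
    (fun s _ => h1 s) (((li_cont a).mul continuous_const).intervalIntegrable _ _)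
  have h3 : ∫ s in (0 : ℝ)..t, NormedSpace.exp (s • a) * a = liS a t * a := by
    unfold liS
    have := ((ContinuousLinearMap.mul ℝ A).flip a).intervalIntegral_comp_comm
      ((li_cont a).intervalIntegrable (μ := MeasureTheory.volume) 0 t)
    simpa using this
  rw [← h3, h2]
  simp

private theorem li_comm (a : A) (t : ℝ) : Commute a (liS a t) := by
  show a * liS a t = liS a t * a
  rw [li_mul_left, li_mul_right]

private theorem li_comm_exp (a : A) (s t : ℝ) : Commute (NormedSpace.exp (s • a)) (liS a t) := by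
  have h : NormedSpace.exp (s • a) = 1 + a * liS a s := by
    rw [li_mul_left]; abel
  -- the integral commutes with everything commuting with the integrand
  have h1 : NormedSpace.exp (s • a) * liS a t = ∫ r in (0 : ℝ)..t, NormedSpace.exp (s • a) * NormedSpace.exp (r • a) := by
    unfold liS
    have := (ContinuousLinearMap.mul ℝ A (NormedSpace.exp (s • a))).intervalIntegral_comp_comm
      ((li_cont a).intervalIntegrable (μ := MeasureTheory.volume) 0 t)
    simpa using this.symm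
  have h2 : liS a t * NormedSpace.exp (s • a) = ∫ r in (0 : ℝ)..t, NormedSpace.exp (r • a) * NormedSpace.exp (s • a) := by
    unfold liS
    have := ((ContinuousLinearMap.mul ℝ A).flip (NormedSpace.exp (s • a))).intervalIntegral_comp_comm
      ((li_cont a).intervalIntegrable (μ := MeasureTheory.volume) 0 t)
    simpa using this.symm
  show NormedSpace.exp (s • a) * liS a t = liS a t * NormedSpace.exp (s • a)
  rw [h1, h2]
  congr 1
  funext r
  have : Commute (s • a) (r • a) := ((Commute.refl a).smul_left s).smul_right r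
  exact (this.exp).eq

private theorem li_pow_deriv (a : A) (t : ℝ) (k : ℕ) :
    HasDerivAt (fun t => liS a t ^ (k + 1)) (((k : ℝ) + 1) • (liS a t ^ k * NormedSpace.exp (t • a))) t := by
  have h := (li_S_deriv a t).fun_pow' (k + 1)
  have hc := li_comm_exp a t t
  convert h using 1
  have : ∀ i ∈ Finset.range (k + 1), liS a t ^ ((k + 1).pred - i) * NormedSpace.exp (t • a) * liS a t ^ i =
      liS a t ^ k * NormedSpace.exp (t • a) := by
    intro i hi
    rw [Finset.mem_range] at hi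
    rw [mul_assoc, (hc.pow_right i).eq, ← mul_assoc, ← pow_add]
    congr 2
    simp only [Nat.pred_eq_sub_one, Nat.add_sub_cancel]
    omega
  rw [Finset.sum_congr rfl this, Finset.sum_const, Finset.card_range, ← Nat.cast_smul_eq_nsmul ℝ]
  push_cast
  rfl

private theorem li_term_deriv (a : A) (t : ℝ) (k : ℕ) :
    HasDerivAt (fun t => (((-1 : ℝ) ^ k / (k + 1)) • ((a * liS a t) ^ k)) * liS a t)
      ((-(a * liS a t)) ^ k * NormedSpace.exp (t • a)) t := by
  have h1 : (fun t => (((-1 : ℝ) ^ k / (k + 1)) • ((a * liS a t) ^ k)) * liS a t) =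
      fun t => ((-1 : ℝ) ^ k / (k + 1)) • (a ^ k * liS a t ^ (k + 1)) := by
    funext t
    rw [(li_comm a t).mul_pow, smul_mul_assoc, mul_assoc, pow_succ]
  rw [h1]
  have h2 := ((li_pow_deriv a t k).const_mul (a ^ k)).const_smul ((-1 : ℝ) ^ k / (k + 1))
  have hk : ((k : ℝ) + 1) ≠ 0 := by positivity
  have h3 : (-(a * liS a t)) ^ k * NormedSpace.exp (t • a) =
      ((-1 : ℝ) ^ k / (k + 1)) • (a ^ k * ((k : ℝ) + 1) • (liS a t ^ k * NormedSpace.exp (t • a))) := by
    rw [mul_smul_comm, smul_smul, div_mul_cancel₀ _ hk, neg_pow, (li_comm a t).mul_pow]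
    rcases Nat.even_or_odd k with he | ho
    · rw [he.neg_one_pow, he.neg_one_pow, one_mul, one_smul, mul_assoc]
    · rw [ho.neg_one_pow, ho.neg_one_pow, neg_one_mul, neg_one_smul, neg_mul, mul_assoc]
  rw [h3]
  exact h2

private theorem li_h_eq (a : A) (ha : ‖a‖ ≤ 1 / 4) (t : ℝ) (ht : t ∈ Ioo (-1 : ℝ) (3 / 2)) :
    LamOp (NormedSpace.exp (t • a)) * liS a t =
      ∑' k : ℕ, (((-1 : ℝ) ^ k / (k + 1)) • ((a * liS a t) ^ k)) * liS a t := by
  unfold LamOp
  rw [← li_mul_left]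
  have hq := li_exp_t a ha t ht
  rw [← li_mul_left] at hq
  rw [← Summable.tsum_mul_right]
  have hgeo : Summable (fun k : ℕ => ‖(a * liS a t) ^ k‖) := by
    have := summable_norm_geometric_of_norm_lt_one (r := a * liS a t)
      (lt_of_le_of_lt hq (by norm_num))
    exact this
  refine Summable.of_norm_bounded hgeo ?_
  intro k
  rw [norm_smul]
  have : ‖(-1 : ℝ) ^ k / (k + 1)‖ ≤ 1 := by
    rw [norm_div, norm_pow, norm_neg, norm_one, one_pow, Real.norm_of_nonneg (by positivity)]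
    rw [div_le_one (by positivity)]
    linarith [Nat.cast_nonneg (α := ℝ) k]
  calc ‖(-1 : ℝ) ^ k / (k + 1)‖ * ‖(a * liS a t) ^ k‖ ≤ 1 * ‖(a * liS a t) ^ k‖ :=
        mul_le_mul_of_nonneg_right this (norm_nonneg _)
    _ = _ := one_mul _

private theorem li_geo (x e : A) (hlt : ‖-x‖ < 1) (h : e = 1 + x) :
    (∑' k : ℕ, (-x) ^ k * e) = 1 := by
  have h1 : Summable (fun k : ℕ => (-x) ^ k) := summable_geometric_of_norm_lt_one hlt
  have h2 : (∑' k : ℕ, (-x) ^ k * e) = (∑' k : ℕ, (-x) ^ k) * e := h1.tsum_mul_right e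
  have h3 : e = 1 - (-x) := by rw [sub_neg_eq_add]; exact h
  rw [h2, h3]
  exact geom_series_mul_neg _ hlt

private theorem li_h_deriv (a : A) (ha : ‖a‖ ≤ 1 / 4) (t : ℝ) (ht : t ∈ Ioo (-1 : ℝ) (3 / 2)) :
    HasDerivAt (fun t => ∑' k : ℕ, (((-1 : ℝ) ^ k / (k + 1)) • ((a * liS a t) ^ k)) * liS a t) 1 t := by
  have hbd : ∃ M : ℝ, ∀ y ∈ Ioo (-1 : ℝ) (3 / 2), ‖NormedSpace.exp (y • a)‖ ≤ M := by
    refine ⟨3 / 5 + ‖(1 : A)‖, ?_⟩
    intro y hy
    have := li_exp_t a ha y hy
    calc ‖NormedSpace.exp (y • a)‖ = ‖(NormedSpace.exp (y • a) - 1) + 1‖ := by rw [sub_add_cancel]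
      _ ≤ ‖NormedSpace.exp (y • a) - 1‖ + ‖(1 : A)‖ := norm_add_le _ _
      _ ≤ _ := by linarith
  obtain ⟨M, hM⟩ := hbd
  have hM0 : 0 ≤ M := (norm_nonneg _).trans (hM t ht)
  have hpow : ∀ (k : ℕ) (y : ℝ), y ∈ Ioo (-1 : ℝ) (3 / 2) →
      ‖(-(a * liS a y)) ^ k‖ ≤ (3 / 5 : ℝ) ^ k * (1 + ‖(1 : A)‖) := by
    intro k y hy
    have hq := li_exp_t a ha y hy
    rw [← li_mul_left] at hq
    rcases Nat.eq_zero_or_pos k with h0 | h0
    · subst h0; simp
    · calc ‖(-(a * liS a y)) ^ k‖ ≤ ‖-(a * liS a y)‖ ^ k := norm_pow_le' _ h0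
        _ = ‖a * liS a y‖ ^ k := by rw [norm_neg]
        _ ≤ (3 / 5 : ℝ) ^ k := pow_le_pow_left₀ (norm_nonneg _) hq k
        _ ≤ (3 / 5 : ℝ) ^ k * (1 + ‖(1 : A)‖) := by
            apply le_mul_of_one_le_right (by positivity)
            linarith [norm_nonneg (1 : A)]
  have hu : Summable (fun k : ℕ => (3 / 5 : ℝ) ^ k * (1 + ‖(1 : A)‖) * M) := by
    apply Summable.mul_right
    apply Summable.mul_right
    exact summable_geometric_of_lt_one (by norm_num) (by norm_num)
  have h1 := hasDerivAt_tsum_of_isPreconnected (𝕜 := ℝ) (F := A)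
    (g := fun (k : ℕ) t => (((-1 : ℝ) ^ k / (k + 1)) • ((a * liS a t) ^ k)) * liS a t)
    (g' := fun (k : ℕ) t => (-(a * liS a t)) ^ k * NormedSpace.exp (t • a))
    (u := fun k : ℕ => (3 / 5 : ℝ) ^ k * (1 + ‖(1 : A)‖) * M) (t := Ioo (-1 : ℝ) (3 / 2)) (y₀ := 0) (y := t)
    hu isOpen_Ioo isPreconnected_Ioo
    (fun k y _ => li_term_deriv a y k)
    (fun k y hy => by
      calc ‖(-(a * liS a y)) ^ k * NormedSpace.exp (y • a)‖ ≤ ‖(-(a * liS a y)) ^ k‖ * ‖NormedSpace.exp (y • a)‖ :=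
            norm_mul_le _ _
        _ ≤ _ := mul_le_mul (hpow k y hy) (hM y hy) (norm_nonneg _) (by positivity))
    (by constructor <;> norm_num)
    (by
      have : (fun k : ℕ => (((-1 : ℝ) ^ k / (k + 1)) • ((a * liS a 0) ^ k)) * liS a 0) = fun _ => 0 := by
        funext k
        rw [li_S_zero]; simp
      show Summable (fun k : ℕ => (((-1 : ℝ) ^ k / (k + 1)) • ((a * liS a 0) ^ k)) * liS a 0)
      rw [this]
      exact summable_zero)
    ht
  have hlt : ‖-(a * liS a t)‖ < 1 := by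
    have hq := li_exp_t a ha t ht
    rw [← li_mul_left] at hq
    rw [norm_neg]
    linarith
  have h2 : (∑' k : ℕ, (-(a * liS a t)) ^ k * NormedSpace.exp (t • a)) = 1 :=
    li_geo _ _ hlt (by rw [li_mul_left]; abel)
  rw [← h2]
  exact h1

theorem lam_mul_phi (a : A) (ha : ‖a‖ ≤ 1 / 4) : LamOp (NormedSpace.exp a) * PhiOp a = 1 := by
  have h1 := intervalIntegral.integral_eq_sub_of_hasDerivAt (a := (0 : ℝ)) (b := 1)
    (f := fun t => ∑' k : ℕ, (((-1 : ℝ) ^ k / (k + 1)) • ((a * liS a t) ^ k)) * liS a t)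
    (f' := fun _ => (1 : A))
    (fun t ht => by
      rw [uIcc_of_le (by norm_num)] at ht
      exact li_h_deriv a ha t ⟨by linarith [ht.1], by linarith [ht.2]⟩)
    intervalIntegrable_const
  have h2 := li_h_eq a ha 1 (by constructor <;> norm_num)
  have h3 := li_h_eq a ha 0 (by constructor <;> norm_num)
  simp only [intervalIntegral.integral_const, sub_zero, one_smul] at h1
  rw [← h2, ← h3, li_S_zero, mul_zero, sub_zero, one_smul] at h1
  exact h1.symm

theorem phi_mul_lam (a : A) (ha : ‖a‖ ≤ 1 / 4) : PhiOp a * LamOp (NormedSpace.exp a) = 1 := by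
  rw [← lam_mul_phi a ha]
  have hc : Commute (NormedSpace.exp a - 1) (PhiOp a) := by
    have h1 := li_comm_exp a 1 1
    rw [one_smul] at h1
    exact (h1.sub_left (Commute.one_left _))
  unfold LamOp
  have : Commute (∑' k : ℕ, ((-1 : ℝ) ^ k / (k + 1)) • (NormedSpace.exp a - 1) ^ k) (PhiOp a) := by
    apply Commute.symm
    apply Commute.tsum_right
    intro k
    exact ((hc.symm).pow_right k).smul_right _
  exact this.symm.eq

end Pool.Agent.GY
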