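import Pool.Agent.GY.PhiEst
import Pool.Agent.GY.LamInv
import Pool.Agent.GY.BchAn

/-!
# GY.Bch (diff 3): the BCH formula

Let `‖x‖, ‖y‖ ≤ s` (small).  For `t ∈ [0, 1]` (even `t ∈ (-1, 2)`) let `z t = lg (ex(t y) ex x)`: `‖z t‖` small (`exists_log`), `ex (z t) = ex(t y) ex x`, `z 0 = x`.
* `z` is Lipschitz: `‖z t' - z t‖ ≤ (4/3) ‖D (ex (z t')) - D (ex (z t))‖ = (4/3)‖D (ex(t' y)) - D (ex(t y))‖ ≤ 2 |t' - t| ‖y‖` (`ex_lower`, `right`, `ex_upper`).
* differentiable: let `u = z (t+h) - z t`.  `ex (z t + u) = ex((t+h) y) ex x = ex(h y) ex (z t)`, so in `phi_est` (with `z = z t`) `k = h y` (injectivity `ex_inj`):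
  `‖h y - PhiOp (ad (z t)) u‖ ≤ 40 C ‖u‖² = O(h²)`.  Apply `Λ_t = LamOp (exp (ad (z t)))` (`lam_mul_phi`, `‖ad (z t)‖ ≤ 1/4`): `u = h Λ_t y + O(h²)`.  So `z' t = Λ_t y`.
* `exp (ad (z t)) = Ad (ex (z t)) = Ad (ex (t y)) Ad (ex x) = exp(t ad y) exp(ad x)` (`Ad_ex`, `Ad_mul`).
* integrate: `z 1 = x + ∫_0^1 Λ(exp(t ad y) exp(ad x)) y dt` (`intervalIntegral.integral_eq_sub_of_hasDerivAt`; continuity of the integrand from `lamOp_an`).
-/

open Topology Filter Set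

namespace Pool.Agent.GY.Gl

variable {G E : Type*} [Group G] [TopologicalSpace G] [IsTopologicalGroup G]
  [NormedAddCommGroup E] [NormedSpace ℝ E] [CompleteSpace E] (S : Gl G E)

theorem Bch_hasDeriv {F : Type*} [NormedAddCommGroup F] [NormedSpace ℝ F] {z : ℝ → F} {t : ℝ}
    {v : F} {K : ℝ} (h : ∀ h : ℝ, |h| < 1 → ‖z (t + h) - z t - h • v‖ ≤ K * h ^ 2) :
    HasDerivAt z v t := by
  rw [hasDerivAt_iff_isLittleO_nhds_zero]
  have h1 : (fun h : ℝ => z (t + h) - z t - h • v) =O[𝓝 0] fun h : ℝ => h ^ 2 := by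
    apply Asymptotics.IsBigO.of_bound K
    have : ∀ᶠ h : ℝ in 𝓝 0, |h| < 1 := by
      have := Metric.ball_mem_nhds (0 : ℝ) one_pos
      filter_upwards [this] with h hh
      simpa [Real.norm_eq_abs] using hh
    filter_upwards [this] with a ha
    have := h a ha
    rw [Real.norm_eq_abs, abs_of_nonneg (sq_nonneg a)]
    exact this
  exact h1.trans_isLittleO (Asymptotics.isLittleO_pow_id one_lt_two)

theorem bch_mul : ∃ s : ℝ, 0 < s ∧ ∀ x y : S.T, ‖x‖ ≤ s → ‖y‖ ≤ s →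
    S.ex y * S.ex x = S.ex (bch S.ad (x, y)) := by
  have hcT : CompleteSpace S.T := FiniteDimensional.complete ℝ S.T
  obtain ⟨s₁, hs₁, hphi⟩ := S.phi_est
  set N : ℝ := ‖S.ad‖ with hN
  have hN0 : 0 ≤ N := norm_nonneg S.ad
  have hC := S.C_pos
  have hRR := S.RR_pos
  set σ : ℝ := min s₁ (1 / (4 * (N + 1))) with hσ
  have hσ0 : 0 < σ := lt_min hs₁ (by positivity)
  obtain ⟨δ, hδ, hlog⟩ := S.exists_log (s := σ / 2) (by positivity)
  set s : ℝ := min (δ / 4) (S.RR / 4) with hs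
  have hs0 : 0 < s := lt_min (by positivity) (by positivity)
  have hsδ : 4 * s ≤ δ := by
    have := min_le_left (δ / 4) (S.RR / 4)
    linarith
  have hsR : 4 * s ≤ S.RR := by
    have := min_le_right (δ / 4) (S.RR / 4)
    linarith
  refine ⟨s, hs0, fun x y hx hy => ?_⟩
  -- the curve
  set z : ℝ → S.T := fun t => S.lg (S.ex (t • y) * S.ex x) with hz
  have hz1 : ∀ t : ℝ, |t| ≤ 2 → ‖z t‖ < σ / 2 ∧ ‖z t‖ < S.RR ∧
      S.ex (z t) = S.ex (t • y) * S.ex x := by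
    intro t ht
    have h1 : ‖S.D (S.ex (t • y) * S.ex x)‖ < δ := by
      have h2 := S.nrm_mul_le (S.ex (t • y)) (S.ex x)
      have h3 := S.ex_nrm (t • y)
      have h4 := S.ex_nrm x
      rw [norm_smul, Real.norm_eq_abs] at h3
      have h5 : |t| * ‖y‖ ≤ 2 * s := mul_le_mul ht hy (norm_nonneg _) (by norm_num)
      linarith
    obtain ⟨a, b, c, -⟩ := hlog _ h1
    exact ⟨a, b, c⟩
  have hz0 : z 0 = x := by
    rw [hz]
    beta_reduce
    rw [zero_smul, S.ex_zero, one_mul]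
    exact S.lg_ex (by linarith)
  have hlip : ∀ t t' : ℝ, |t| ≤ 2 → |t'| ≤ 2 → ‖z t' - z t‖ ≤ 2 * |t' - t| * ‖y‖ := by
    intro t t' ht ht'
    obtain ⟨-, a2, a3⟩ := hz1 t ht
    obtain ⟨-, b2, b3⟩ := hz1 t' ht'
    have h1 := S.ex_lower b2.le a2.le
    rw [a3, b3, S.right] at h1
    have hn : ∀ t : ℝ, |t| ≤ 2 → ‖t • y‖ ≤ S.RR := by
      intro t ht
      rw [norm_smul, Real.norm_eq_abs]
      have : |t| * ‖y‖ ≤ 2 * s := mul_le_mul ht hy (norm_nonneg _) (by norm_num)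
      linarith
    have h2 := S.ex_upper (hn t' ht') (hn t ht)
    rw [← sub_smul, norm_smul, Real.norm_eq_abs] at h2
    have h3 : 0 ≤ |t' - t| * ‖y‖ := by positivity
    linarith
  have hadn : ∀ v : S.T, ‖v‖ ≤ σ → ‖S.ad v‖ ≤ 1 / 4 := by
    intro v hv
    have h1 : ‖S.ad v‖ ≤ N * ‖v‖ := S.ad.le_opNorm v
    have h2 : σ ≤ 1 / (4 * (N + 1)) := min_le_right _ _
    have h3 : N * ‖v‖ ≤ N * (1 / (4 * (N + 1))) := mul_le_mul_of_nonneg_left (hv.trans h2) hN0
    have h4 : N * (1 / (4 * (N + 1))) ≤ 1 / 4 := by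
      rw [mul_one_div, div_le_div_iff₀ (by positivity) (by norm_num)]
      linarith
    linarith
  set M : ℝ → (S.T →L[ℝ] S.T) :=
    fun t => NormedSpace.exp (t • S.ad y) * NormedSpace.exp (S.ad x) with hM
  have hMz : ∀ t : ℝ, |t| ≤ 2 → NormedSpace.exp (S.ad (z t)) = M t := by
    intro t ht
    obtain ⟨-, -, a3⟩ := hz1 t ht
    rw [← S.Ad_ex, a3, S.Ad_mul, S.Ad_ex, S.Ad_ex, map_smul]
  have hder : ∀ t ∈ Set.uIcc (0 : ℝ) 1, HasDerivAt z (LamOp (M t) y) t := by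
    intro t ht
    rw [Set.uIcc_of_le zero_le_one] at ht
    have ht2 : |t| ≤ 2 := by
      rw [abs_of_nonneg ht.1]
      linarith [ht.2]
    obtain ⟨a1, a2, a3⟩ := hz1 t ht2
    apply Bch_hasDeriv (K := ‖LamOp (M t)‖ * (40 * S.C * (2 * ‖y‖) ^ 2))
    intro h hh
    have hth : |t + h| ≤ 2 := by
      have := abs_add_le t h
      rw [abs_of_nonneg ht.1] at this
      linarith [ht.2]
    obtain ⟨b1, b2, b3⟩ := hz1 (t + h) hth
    have hl := hlip t (t + h) ht2 hth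
    have e1 : t + h - t = h := by ring
    rw [e1] at hl
    set u := z (t + h) - z t with hu
    have hσ1 : σ ≤ s₁ := min_le_left _ _
    have hu1 : ‖u‖ ≤ s₁ := by
      have := norm_sub_le (z (t + h)) (z t)
      linarith
    obtain ⟨k, hk1, hk2, hk3⟩ := hphi (z t) u (by linarith) hu1
    have e2 : z t + u = z (t + h) := by rw [hu]; abel
    rw [e2, b3, a3, add_comm t h, S.ex_add, mul_assoc] at hk2
    have hk4 : S.ex (h • y) = S.ex k := mul_right_cancel hk2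
    have hhy : ‖h • y‖ ≤ S.RR := by
      rw [norm_smul, Real.norm_eq_abs]
      have : |h| * ‖y‖ ≤ 1 * s := mul_le_mul hh.le hy (norm_nonneg _) (by norm_num)
      linarith
    have hk5 : h • y = k := S.ex_inj hhy hk1 hk4
    rw [← hk5] at hk3
    have hinv : LamOp (M t) * PhiOp (S.ad (z t)) = 1 := by
      rw [← hMz t ht2]
      exact lam_mul_phi _ (hadn _ (by linarith))
    have e3 : u - h • (LamOp (M t) y) = -(LamOp (M t) (h • y - PhiOp (S.ad (z t)) u)) := by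
      have h7 : LamOp (M t) (PhiOp (S.ad (z t)) u) = u := by
        have := congrArg (fun f : S.T →L[ℝ] S.T => f u) hinv
        simpa using this
      rw [map_sub, h7, map_smul]
      abel
    rw [e3, norm_neg]
    refine ((LamOp (M t)).le_opNorm _).trans ?_
    have h8 : ‖h • y - PhiOp (S.ad (z t)) u‖ ≤ 40 * S.C * (2 * ‖y‖) ^ 2 * h ^ 2 := by
      refine hk3.trans ?_
      have h9 : ‖u‖ ^ 2 ≤ (2 * |h| * ‖y‖) ^ 2 := pow_le_pow_left₀ (norm_nonneg _) hl 2
      have h10 : (2 * |h| * ‖y‖) ^ 2 = (2 * ‖y‖) ^ 2 * h ^ 2 := by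
        rw [mul_pow, mul_pow, sq_abs]
        ring
      rw [h10] at h9
      calc 40 * S.C * ‖u‖ ^ 2 ≤ 40 * S.C * ((2 * ‖y‖) ^ 2 * h ^ 2) :=
            mul_le_mul_of_nonneg_left h9 (by positivity)
        _ = 40 * S.C * (2 * ‖y‖) ^ 2 * h ^ 2 := by ring
    calc ‖LamOp (M t)‖ * ‖h • y - PhiOp (S.ad (z t)) u‖ ≤
          ‖LamOp (M t)‖ * (40 * S.C * (2 * ‖y‖) ^ 2 * h ^ 2) :=
          mul_le_mul_of_nonneg_left h8 (norm_nonneg _)
      _ = ‖LamOp (M t)‖ * (40 * S.C * (2 * ‖y‖) ^ 2) * h ^ 2 := by ring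
  have hMc : Continuous M := by
    rw [hM]
    have h1 : Continuous (fun t : ℝ => NormedSpace.exp (t • S.ad y)) :=
      continuous_iff_continuousAt.2 fun t =>
        (hasDerivAt_exp_smul_const (𝕂 := ℝ) (S.ad y) t).continuousAt
    exact h1.mul continuous_const
  have hcont : ContinuousOn (fun t => (LamOp (M t)) y) (Set.uIcc (0 : ℝ) 1) := by
    have h1 : ContinuousOn (fun t => LamOp (M t)) (Set.uIcc (0 : ℝ) 1) := by
      have h2 : ContinuousOn (LamOp : (S.T →L[ℝ] S.T) → (S.T →L[ℝ] S.T)) (Metric.ball 1 1) :=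
        lamOp_an.continuousOn
      refine h2.comp hMc.continuousOn ?_
      intro t ht
      rw [Set.uIcc_of_le zero_le_one] at ht
      have ht2 : |t| ≤ 2 := by
        rw [abs_of_nonneg ht.1]
        linarith [ht.2]
      rw [Metric.mem_ball, dist_eq_norm, ← hMz t ht2]
      have := norm_exp_sub_one_le (S.ad (z t)) (hadn _ (by linarith [(hz1 t ht2).1]))
      linarith
    exact h1.clm_apply continuousOn_const
  have hint := intervalIntegral.integral_eq_sub_of_hasDerivAt hder hcont.intervalIntegrable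
  have hb : bch S.ad (x, y) = z 1 := by
    unfold bch
    have : (∫ t in (0 : ℝ)..1, (LamOp (NormedSpace.exp (t • S.ad (x, y).2) *
      NormedSpace.exp (S.ad (x, y).1))) (x, y).2) = z 1 - z 0 := hint
    rw [this, hz0]
    abel
  rw [hb, (hz1 1 (by norm_num)).2.2, one_smul]

end Pool.Agent.GY.Gl
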