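import Pool.Agent.GY.Bch

/-!
# GY.BchAll (diff 1-2): choice of the chart radius `r1`

`s` from `bch_mul` and `bch_an`; `bch S.ad` is continuous at `0` with value `bch (0,0) = 0` (`bch_zero_right`), so `‖bch‖ < RR` near `0`.  Take the minimum.
* `bch_neg`: `ex(-v) ex v = 1 = ex 0`: `bch (v, -v) = 0` by `ex_inj`.
-/

open Topology Filter Set

namespace Pool.Agent.GY.Gl

variable {G E : Type*} [Group G] [TopologicalSpace G] [IsTopologicalGroup G]
  [NormedAddCommGroup E] [NormedSpace ℝ E] [CompleteSpace E] (S : Gl G E)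

theorem exists_r1 : ∃ s : ℝ, 0 < s ∧ s ≤ S.RR ∧
    AnalyticOnNhd ℝ (bch S.ad) (Metric.ball 0 s) ∧
    ∀ x y : S.T, ‖x‖ < s → ‖y‖ < s →
      S.ex y * S.ex x = S.ex (bch S.ad (x, y)) ∧ ‖bch S.ad (x, y)‖ < S.RR := by
  have : CompleteSpace S.T := FiniteDimensional.complete ℝ S.T
  obtain ⟨s1, hs1, h1⟩ := S.bch_mul
  obtain ⟨s2, hs2, h2⟩ := bch_an S.ad
  have hcont : ContinuousAt (bch S.ad) 0 := (h2 0 (Metric.mem_ball_self hs2)).continuousAt
  have hval : bch S.ad (0 : S.T × S.T) = 0 := bch_zero_right S.ad 0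
  have hev : ∀ᶠ p in 𝓝 (0 : S.T × S.T), ‖bch S.ad p‖ < S.RR := by
    have h3 : Tendsto (fun p => ‖bch S.ad p‖) (𝓝 (0 : S.T × S.T)) (𝓝 ‖bch S.ad 0‖) :=
      hcont.norm
    rw [hval, norm_zero] at h3
    exact h3.eventually (gt_mem_nhds S.RR_pos)
  obtain ⟨s3, hs3, h3⟩ := Metric.eventually_nhds_iff_ball.1 hev
  refine ⟨min (min s1 s2) (min s3 S.RR), lt_min (lt_min hs1 hs2) (lt_min hs3 S.RR_pos),
    le_trans (min_le_right _ _) (min_le_right _ _), ?_, ?_⟩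
  · exact h2.mono (Metric.ball_subset_ball (le_trans (min_le_left _ _) (min_le_right _ _)))
  · intro x y hx hy
    rw [lt_min_iff, lt_min_iff, lt_min_iff] at hx hy
    refine ⟨h1 x y hx.1.1.le hy.1.1.le, h3 (x, y) ?_⟩
    rw [mem_ball_zero_iff, Prod.norm_mk]
    exact max_lt hx.2.1 hy.2.1

/-- the chart radius -/
noncomputable def r1 : ℝ := S.exists_r1.choose

theorem r1_pos : 0 < S.r1 := S.exists_r1.choose_spec.1

theorem r1_le : S.r1 ≤ S.RR := S.exists_r1.choose_spec.2.1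

theorem bch_analytic : AnalyticOnNhd ℝ (bch S.ad) (Metric.ball 0 S.r1) :=
  S.exists_r1.choose_spec.2.2.1

theorem bch_spec {x y : S.T} (hx : ‖x‖ < S.r1) (hy : ‖y‖ < S.r1) :
    S.ex y * S.ex x = S.ex (bch S.ad (x, y)) := (S.exists_r1.choose_spec.2.2.2 x y hx hy).1

theorem bch_norm {x y : S.T} (hx : ‖x‖ < S.r1) (hy : ‖y‖ < S.r1) :
    ‖bch S.ad (x, y)‖ < S.RR := (S.exists_r1.choose_spec.2.2.2 x y hx hy).2

theorem bch_neg {v : S.T} (hv : ‖v‖ < S.r1) : bch S.ad (v, -v) = 0 := by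
  have h1 : S.ex (-v) * S.ex v = S.ex (bch S.ad (v, -v)) :=
    S.bch_spec hv (by rw [norm_neg]; exact hv)
  rw [S.ex_neg, inv_mul_cancel] at h1
  refine S.ex_inj (S.bch_norm hv (by rw [norm_neg]; exact hv)).le ?_ ?_
  · rw [norm_zero]; exact S.RR_pos.le
  · rw [← h1, S.ex_zero]

theorem bch_zero_left {y : S.T} (hy : ‖y‖ < S.r1) : bch S.ad (0, y) = y := by
  have h0 : ‖(0 : S.T)‖ < S.r1 := by rw [norm_zero]; exact S.r1_pos
  have h1 : S.ex y * S.ex 0 = S.ex (bch S.ad (0, y)) := S.bch_spec h0 hy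
  rw [S.ex_zero, mul_one] at h1
  exact S.ex_inj (S.bch_norm h0 hy).le (le_trans hy.le S.r1_le) h1.symm

end Pool.Agent.GY.Gl
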