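import Pool.Agent.GY.Defs

/-!
# GY.Unif (diff 1-2): topological group lemmas

* `unif_conj`: the map `(x, b) ↦ x⁻¹ b x` is continuous and sends `B × {1}` to `1`: tube lemma
  (`generalized_tube_lemma`, or cover `B` by finitely many neighbourhoods).
* `exists_cpt_nhd`: a compact neighbourhood `L ⊆ U` (`exists_compact_subset` / `local_compact_nhds`),
  then `L ∩ L⁻¹`.
* `right_unif`: a continuous function with compact support is uniformly continuous for the right
  translations: Let `T = tsupport τ` compact, `V₀` a compact symmetric neighbourhood of `1`; on the compact set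
  `(T * V₀) × V₀` the function `(x, u) ↦ τ (x u) - τ x` is continuous and vanishes at `u = 1`: tube lemma gives
  `V ⊆ V₀` good for all `x ∈ T * V₀`; for `x ∉ T * V₀` and `u ∈ V₀` both `x, x u ∉ T`.
  (Mathlib: `HasCompactSupport.uniformContinuous_of_continuous` for the uniform structures of a
  topological group may be usable.)
* `exists_cut`: Urysohn for locally compact Hausdorff spaces (`exists_continuous_one_zero_of_isCompact`
  or `exists_continuous_zero_one_of_isCompact`) with the compact set `{1}` and the closed set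
  `(interior L)ᶜ`, `L` a compact neighbourhood of `1` inside `V`.
-/

open Topology Filter Set
open scoped ENNReal Pointwise

namespace Pool.Agent.GY

variable {G : Type*} [Group G] [TopologicalSpace G] [IsTopologicalGroup G]

theorem unif_conj {B V : Set G} (hB : IsCompact B) (hV : V ∈ 𝓝 (1 : G)) :
    ∃ V' ∈ 𝓝 (1 : G), ∀ x ∈ B, ∀ b ∈ V', x⁻¹ * b * x ∈ V := by
  have hc : Continuous fun p : G × G => p.1⁻¹ * p.2 * p.1 := by fun_prop
  have hn : IsOpen ((fun p : G × G => p.1⁻¹ * p.2 * p.1) ⁻¹' interior V) :=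
    isOpen_interior.preimage hc
  obtain ⟨u, v, _, hv, hBu, hv1, huv⟩ := generalized_tube_lemma hB (isCompact_singleton (x := (1 : G)))
    hn (by
      rintro ⟨x, y⟩ ⟨_, hy⟩
      have hy : y = 1 := hy
      subst hy
      show x⁻¹ * 1 * x ∈ interior V
      rw [mul_one, inv_mul_cancel]
      exact mem_interior_iff_mem_nhds.2 hV)
  refine ⟨v, hv.mem_nhds (hv1 (mem_singleton _)), fun x hx b hb => ?_⟩
  exact interior_subset (huv (show (x, b) ∈ u ×ˢ v from ⟨hBu hx, hb⟩))

theorem exists_sq_nhd {U : Set G} (hU : U ∈ 𝓝 (1 : G)) :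
    ∃ V ∈ 𝓝 (1 : G), IsOpen V ∧ V⁻¹ = V ∧ V * V ⊆ U := by
  obtain ⟨V, hVo, hV1, hVU⟩ := exists_open_nhds_one_mul_subset hU
  have ho : IsOpen (V ∩ V⁻¹) := hVo.inter hVo.inv
  refine ⟨V ∩ V⁻¹, ho.mem_nhds ⟨hV1, by simpa using hV1⟩, ho, ?_, ?_⟩
  · rw [Set.inter_inv, inv_inv, inter_comm]
  · exact (Set.mul_subset_mul inter_subset_left inter_subset_left).trans hVU

/-- compact sets have small thickenings -/
theorem exists_thick {K O : Set G} (hK : IsCompact K) (hO : IsOpen O) (hKO : K ⊆ O) :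
    ∃ V ∈ 𝓝 (1 : G), V * K ⊆ O ∧ K * V ⊆ O := by
  obtain ⟨V, hV, h1⟩ := compact_open_separated_mul_left hK hO hKO
  obtain ⟨V', hV', h2⟩ := compact_open_separated_mul_right hK hO hKO
  exact ⟨V ∩ V', inter_mem hV hV', (Set.mul_subset_mul inter_subset_left Subset.rfl).trans h1,
    (Set.mul_subset_mul Subset.rfl inter_subset_right).trans h2⟩

variable [LocallyCompactSpace G]

theorem exists_cpt_nhd {U : Set G} (hU : U ∈ 𝓝 (1 : G)) :
    ∃ V ∈ 𝓝 (1 : G), IsCompact V ∧ V⁻¹ = V ∧ V ⊆ U := by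
  obtain ⟨s, hs, hsU, hsc⟩ := local_compact_nhds hU
  obtain ⟨t, ht, htc, hts⟩ := exists_mem_nhds_isClosed_subset hs
  have htk : IsCompact t := hsc.of_isClosed_subset htc hts
  refine ⟨t ∩ t⁻¹, inter_mem ht (inv_mem_nhds_one G ht),
    htk.of_isClosed_subset (htc.inter htc.inv) inter_subset_left, ?_,
    inter_subset_left.trans (hts.trans hsU)⟩
  rw [Set.inter_inv, inv_inv, inter_comm]

variable [T2Space G]

theorem left_unif {τ : G → ℝ} (hc : Continuous τ) (hs : HasCompactSupport τ) {ε : ℝ}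
    (hε : 0 < ε) : ∃ V ∈ 𝓝 (1 : G), ∀ u ∈ V, ∀ x, |τ (u * x) - τ x| ≤ ε := by
  let : UniformSpace G := IsTopologicalGroup.rightUniformSpace G
  have huc : UniformContinuous τ := hs.uniformContinuous_of_continuous hc
  have h1 : (fun p : G × G => (τ p.1, τ p.2)) ⁻¹' {p : ℝ × ℝ | dist p.1 p.2 < ε} ∈ uniformity G :=
    huc (Metric.dist_mem_uniformity hε)
  rw [uniformity_eq_comap_nhds_one', mem_comap] at h1
  obtain ⟨t, ht, hsub⟩ := h1
  refine ⟨t, ht, fun u hu x => ?_⟩
  have h2 : ((x, u * x) : G × G) ∈ (fun p : G × G => p.2 * p.1⁻¹) ⁻¹' t := by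
    show u * x * x⁻¹ ∈ t
    rwa [mul_inv_cancel_right]
  have h3 : dist (τ x) (τ (u * x)) < ε := hsub h2
  rw [dist_comm, Real.dist_eq] at h3
  exact h3.le

theorem right_unif {τ : G → ℝ} (hc : Continuous τ) (hs : HasCompactSupport τ) {ε : ℝ}
    (hε : 0 < ε) : ∃ V ∈ 𝓝 (1 : G), ∀ u ∈ V, ∀ x, |τ (x * u) - τ x| ≤ ε := by
  have hc' : Continuous fun x => τ x⁻¹ := hc.comp continuous_inv
  have hs' : HasCompactSupport fun x => τ x⁻¹ := hs.comp_homeomorph (Homeomorph.inv G)
  obtain ⟨V, hV, h⟩ := left_unif hc' hs' hε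
  refine ⟨V⁻¹, inv_mem_nhds_one G hV, fun u hu x => ?_⟩
  have := h u⁻¹ hu x⁻¹
  simpa using this

theorem exists_cut {V : Set G} (hV : V ∈ 𝓝 (1 : G)) : ∃ τ : G → ℝ, Cut V τ := by
  obtain ⟨f, hf1, hfc, hfV, hfI⟩ := exists_continuousMap_one_of_isCompact_subset_isOpen
    (isCompact_singleton (x := (1 : G))) (isOpen_interior (s := V))
    (singleton_subset_iff.2 (mem_interior_iff_mem_nhds.2 hV))
  refine ⟨f, f.continuous, fun x => (hfI x).1, fun x => (hfI x).2, hf1 (mem_singleton _), ?_, hfc⟩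
  intro x hx
  exact interior_subset (hfV (subset_tsupport _ hx))

end Pool.Agent.GY
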