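import Pool.Agent.GY.DefsC
import Pool.Agent.GY.Unif

/-!
# GY.Crit (diff 2): a dense subgroup that misses small normal subgroups is not locally minimal

Suppose `H` is locally minimal with witness `V_H`; there is `V ∈ 𝓝 1` in `G` with `H ∩ V ⊆ V_H`.  Choose an open symmetric `V' ∈ 𝓝 1` with `V' * V' ⊆ V` (`exists_sq_nhd`) and a closed normal
`N ⊆ V'`, `N ≠ ⊥`, `N ⊓ H = ⊥`.  Let `q : H → G ⧸ N`, injective (kernel `N ⊓ H`), `σ = induced` topology from `G ⧸ N` (Hausdorff as `N` is closed, `QuotientGroup.instT3Space`):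
a Hausdorff group topology (`topologicalGroup_induced`), coarser than the subspace topology (`q` is continuous).
`V_H` is a `σ`-neighbourhood of `1`: the image of `V'` in `G ⧸ N` is open; if `h ∈ H` has `q h` in it, `h ∈ V' N ⊆ V' * V' ⊆ V`.
So `σ` is the subspace topology.  Let `x ∈ N`, `x ≠ 1`, and `O` an open neighbourhood of `1` in `G` with `x ∉ closure O` (`T2` group: regular).  `O ∩ H` is `σ`-open at `1`: there is an open `O' ∋ 1` in `G` with
`H ∩ (O' N) ⊆ O` (the preimage of an open set of `G ⧸ N` contains a set of this form; take `W` open in `G ⧸ N` with `q⁻¹ W ⊆ O`, `O'' = ` preimage of `W` in `G`, open, `N`-saturated, contains `N`).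
`O''` is open and `H` dense: `O'' ⊆ closure (O'' ∩ H) ⊆ closure O`.  But `x ∈ N ⊆ O''`: contradiction.
-/

open Topology Filter Set
open scoped Pointwise

namespace Pool.Agent.GY

theorem crit {G : Type*} [Group G] [TopologicalSpace G] [IsTopologicalGroup G] [T2Space G]
    {H : Subgroup G} (hH : Dense (H : Set G))
    (h : ∀ V ∈ 𝓝 (1 : G), ∃ N : Subgroup G, N.Normal ∧ IsClosed (N : Set G) ∧ (N : Set G) ⊆ V ∧
      N ≠ ⊥ ∧ N ⊓ H = ⊥) :
    ¬ LocallyMinimal H inferInstance := by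
  rintro ⟨VH, hVH, hmin⟩
  obtain ⟨V, hV, hVsub⟩ := (mem_nhds_subtype _ _ _).1 hVH
  obtain ⟨V', hV', hVo, hVs, hVV⟩ := exists_sq_nhd hV
  obtain ⟨N, hN, hNc, hNV, hNb, hNH⟩ := h V' hV'
  let q : H →* G ⧸ N := (QuotientGroup.mk' N).comp H.subtype
  have hqc : Continuous q := (QuotientGroup.continuous_mk (N := N)).comp continuous_subtype_val
  have hq : Function.Injective q := by
    rw [injective_iff_map_eq_one]
    intro x hx
    have hx1 : (x : G) ∈ N := by
      rw [← QuotientGroup.eq_one_iff]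
      exact hx
    have hx2 : (x : G) ∈ N ⊓ H := ⟨hx1, x.2⟩
    rw [hNH, Subgroup.mem_bot] at hx2
    exact Subtype.ext hx2
  have hT : T3Space (G ⧸ N) := by
    have : IsClosed (N : Set G) := hNc
    exact QuotientGroup.instT3Space N
  let σ : TopologicalSpace H := TopologicalSpace.induced q inferInstance
  have h1 : (instTopologicalSpaceSubtype : TopologicalSpace H) ≤ σ :=
    continuous_iff_le_induced.1 hqc
  have h2 : @IsTopologicalGroup H σ _ := topologicalGroup_induced q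
  have h3 : @T2Space H σ := by
    refine @T2Space.mk H σ ?_
    intro x y hxy
    obtain ⟨u, v, hu, hv, hxu, hyv, huv⟩ := t2_separation (hq.ne hxy)
    exact ⟨q ⁻¹' u, q ⁻¹' v, ⟨u, hu, rfl⟩, ⟨v, hv, rfl⟩, hxu, hyv, huv.preimage _⟩
  have hV1 : (1 : G) ∈ V' := mem_of_mem_nhds hV'
  have h4 : VH ∈ @nhds H σ 1 := by
    rw [nhds_induced]
    refine ⟨(QuotientGroup.mk' N) '' V', ?_, ?_⟩
    · apply IsOpen.mem_nhds
      · exact QuotientGroup.isOpenMap_coe _ hVo
      · exact ⟨1, hV1, by simp⟩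
    · rintro x ⟨v, hv, hvx⟩
      apply hVsub
      have hvx' : (QuotientGroup.mk v : G ⧸ N) = QuotientGroup.mk (x : G) := hvx
      rw [QuotientGroup.eq] at hvx'
      apply hVV
      exact ⟨v, hv, v⁻¹ * x, hNV hvx', by simp⟩
  have h5 := hmin σ h1 h2 h3 h4
  obtain ⟨x, hx1⟩ := Subgroup.ne_bot_iff_exists_ne_one.1 hNb
  have hxG : (1 : G) ≠ (x : G) := fun hc => hx1 (Subtype.ext hc.symm)
  obtain ⟨O, v, hO, hv, h1O, hxv, hOv⟩ := t2_separation hxG
  have hxcl : (x : G) ∉ closure O := by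
    intro hc
    rw [mem_closure_iff] at hc
    obtain ⟨y, hy1, hy2⟩ := hc v hv hxv
    exact (Set.disjoint_left.1 hOv) hy2 hy1
  have hOH : @IsOpen H instTopologicalSpaceSubtype ((Subtype.val : H → G) ⁻¹' O) :=
    ⟨O, hO, rfl⟩
  have hOσ : @IsOpen H σ ((Subtype.val : H → G) ⁻¹' O) := by
    rw [h5]
    exact hOH
  obtain ⟨W, hW, hWO⟩ := hOσ
  have h1W : (1 : G ⧸ N) ∈ W := by
    have : (1 : H) ∈ q ⁻¹' W := by
      rw [hWO]
      exact h1O
    have h' : q 1 ∈ W := this
    rwa [map_one] at h'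
  have hxW : (x : G) ∈ (QuotientGroup.mk : G → G ⧸ N) ⁻¹' W := by
    change (QuotientGroup.mk (x : G) : G ⧸ N) ∈ W
    rw [(QuotientGroup.eq_one_iff (N := N) (x : G)).2 x.2]
    exact h1W
  have hOo : IsOpen ((QuotientGroup.mk : G → G ⧸ N) ⁻¹' W) :=
    hW.preimage QuotientGroup.continuous_mk
  apply hxcl
  refine closure_mono ?_ (hH.open_subset_closure_inter hOo hxW)
  rintro y ⟨hy1, hy2⟩
  have : (⟨y, hy2⟩ : H) ∈ q ⁻¹' W := hy1
  rw [hWO] at this
  exact this

end Pool.Agent.GY
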