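import Pool.Agent.GY.GoodQ

/-!
# GY.Prof (diff 2): compact totally disconnected subgroups

`B` with the induced topology is a compact Hausdorff totally disconnected topological group (`isTotallyDisconnected` of the set gives `TotallyDisconnectedSpace B`:
`totallyDisconnectedSpace_subtype_iff`).
* `prof_open`: for `V ∈ 𝓝 1` there is a clopen neighbourhood of `1` in `B` inside `V` (`compact_exists_isClopen_in_isOpen`), and in it an open subgroup (`IsTopologicalGroup.exist_openSubgroup_sub_clopen_nhds_of_one`);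
  an open subgroup of a compact group is closed (compact) and has finite index: representatives of the cosets give `F`.
* `prof_small`: if `N = ⊥`, then `B ⊆ F * {1}` is finite.
* `fin_im`: by `goodK_quot` there is a neighbourhood of `1` in `G ⧸ K` without nontrivial subgroups (or use directly the open set `O ⊇ K` of `GoodK`: `O ∈ 𝓝 1`, subgroups inside `O` are `≤ K`): `prof_open` with `V = O` gives
  `N ⊆ O`, so `N ≤ K`, and `B ⊆ F * N ⊆ F * K`.
-/

open Topology Filter Set
open scoped Pointwise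

namespace Pool.Agent.GY

variable {G : Type*} [Group G] [TopologicalSpace G] [IsTopologicalGroup G] [T2Space G]

theorem prof_open {B : Subgroup G} (hB : IsCompact (B : Set G))
    (htd : IsTotallyDisconnected (B : Set G)) {V : Set G} (hV : V ∈ 𝓝 (1 : G)) :
    ∃ N : Subgroup G, N ≤ B ∧ IsCompact (N : Set G) ∧ (N : Set G) ⊆ V ∧
      ∃ F : Set G, F.Finite ∧ (B : Set G) ⊆ F * (N : Set G) := by
  haveI : CompactSpace B := isCompact_iff_compactSpace.1 hB
  haveI : TotallyDisconnectedSpace B := totallyDisconnectedSpace_subtype_iff.2 htd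
  obtain ⟨O, hOV, hO, h1⟩ := mem_nhds_iff.1 hV
  obtain ⟨H, hH⟩ := ProfiniteGrp.exist_openNormalSubgroup_sub_open_nhds_of_one (G := B)
    (hO.preimage continuous_subtype_val) (by simpa using h1)
  haveI : Finite (B ⧸ H.toSubgroup) := H.toSubgroup.quotient_finite_of_isOpen H.isOpen'
  have hHc : IsCompact ((H.toSubgroup : Subgroup B) : Set B) := by
    have : IsClosed ((H.toSubgroup : Subgroup B) : Set B) :=
      Subgroup.isClosed_of_isOpen _ H.isOpen'
    exact this.isCompact
  refine ⟨H.toSubgroup.map B.subtype, ?_, ?_, ?_, ?_⟩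
  · rintro _ ⟨b, _, rfl⟩
    exact b.2
  · rw [Subgroup.coe_map]
    exact hHc.image continuous_subtype_val
  · rintro _ ⟨b, hb, rfl⟩
    exact hOV (hH hb)
  · refine ⟨Set.range (fun q : B ⧸ H.toSubgroup => ((Quotient.out q : B) : G)),
      Set.finite_range _, ?_⟩
    intro b hb
    have hq : (Quotient.out ((⟨b, hb⟩ : B) : B ⧸ H.toSubgroup))⁻¹ * (⟨b, hb⟩ : B) ∈
        H.toSubgroup := by
      rw [← QuotientGroup.eq]
      exact QuotientGroup.out_eq' _
    refine Set.mem_mul.2 ⟨_, ⟨((⟨b, hb⟩ : B) : B ⧸ H.toSubgroup), rfl⟩, _,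
      ⟨_, hq, rfl⟩, ?_⟩
    simp

theorem prof_small {B : Subgroup G} (hB : IsCompact (B : Set G))
    (htd : IsTotallyDisconnected (B : Set G)) (hinf : (B : Set G).Infinite) {V : Set G}
    (hV : V ∈ 𝓝 (1 : G)) :
    ∃ N : Subgroup G, N ≤ B ∧ IsCompact (N : Set G) ∧ (N : Set G) ⊆ V ∧ N ≠ ⊥ := by
  obtain ⟨N, h1, h2, h3, F, hF, hBF⟩ := prof_open hB htd hV
  refine ⟨N, h1, h2, h3, ?_⟩
  rintro rfl
  apply hinf
  refine hF.subset ?_
  intro b hb
  obtain ⟨f, hf, m, hm, rfl⟩ := Set.mem_mul.1 (hBF hb)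
  have : m = 1 := by simpa using hm
  rw [this, mul_one]
  exact hf

theorem fin_im {B : Subgroup G} (hB : IsCompact (B : Set G))
    (htd : IsTotallyDisconnected (B : Set G)) {K : Subgroup G} (hK : GoodK K) :
    ∃ F : Set G, F.Finite ∧ (B : Set G) ⊆ F * (K : Set G) := by
  obtain ⟨O, hO, hKO, hsub⟩ := hK.nss
  have hV : O ∈ 𝓝 (1 : G) := hO.mem_nhds (hKO K.one_mem)
  obtain ⟨N, h1, h2, h3, F, hF, hBF⟩ := prof_open hB htd hV
  exact ⟨F, hF, hBF.trans (Set.mul_subset_mul_left (hsub N h3))⟩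

end Pool.Agent.GY
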