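import Pool.Agent.GY.DenseP
import Pool.Agent.GY.Prof
import Pool.Agent.GY.Crit

/-!
# GY.CaseA1 (diff 2): an infinite profinite central subgroup

`M = ⨅ n, K n`, `A = B * M` closed (product of two compact sets; T2) and saturated.  Let `w : FreeGroup (Fin k)` and suppose that `{x | lift x w ∈ A}` has nonempty interior `O`.  For every `n`: for `x ∈ O`, `lift x w = b m` with `b ∈ B`, `m ∈ M ≤ K n`:
`word_quot` with `F = B` (`fin_im`) gives `lift x w ∈ K n` for all `x`.  So `lift x w ∈ M` for all `x`.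
`dense_pull` gives `H` dense with `H ∩ B M ⊆ M`.  So `H ⊓ B = ⊥` (`x ∈ H ⊓ B`: `x ∈ B M`, so `x ∈ M ⊓ B = ⊥`).
`crit`: for `V ∈ 𝓝 1` take `N` from `prof_small`: `N ≤ B` is central, so normal; compact, so closed; `N ⊓ H ≤ B ⊓ H = ⊥`.
-/

open Topology Filter Set
open scoped Pointwise

namespace Pool.Agent.GY

theorem case_a1 {G : Type*} [Group G] [TopologicalSpace G] [IsTopologicalGroup G]
    [LocallyCompactSpace G] [T2Space G] [ConnectedSpace G] {K : ℕ → Subgroup G} (hK : SeqG K)
    {B : Subgroup G} (hB : IsCompact (B : Set G)) (htd : IsTotallyDisconnected (B : Set G))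
    (hinf : (B : Set G).Infinite) (hcen : B ≤ Subgroup.center G) (hBM : B ⊓ (⨅ n, K n) = ⊥) :
    ∃ H : Subgroup G, Dense (H : Set G) ∧ ¬ LocallyMinimal H inferInstance := by
  set M : Subgroup G := ⨅ n, K n with hM
  have hMc : IsCompact (M : Set G) := hK.compact
  have hAc : IsCompact ((B : Set G) * (M : Set G)) := hB.mul hMc
  have hA : IsClosed ((B : Set G) * (M : Set G)) := hAc.isClosed
  have hs : ∀ a ∈ (B : Set G) * (M : Set G), ∀ m ∈ M, a * m ∈ (B : Set G) * (M : Set G) := by
    intro a ha m hm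
    obtain ⟨b, hb, m', hm', rfl⟩ := Set.mem_mul.1 ha
    exact Set.mem_mul.2 ⟨b, hb, m' * m, M.mul_mem hm' hm, by group⟩
  have h : ∀ k : ℕ, ∀ w : FreeGroup (Fin k),
      (∀ x : Fin k → G, FreeGroup.lift x w ∈ M) ∨
      interior {x : Fin k → G | FreeGroup.lift x w ∈ (B : Set G) * (M : Set G)} = ∅ := by
    intro k w
    by_cases hne : interior {x : Fin k → G | FreeGroup.lift x w ∈ (B : Set G) * (M : Set G)} = ∅
    · exact Or.inr hne
    · left
      have hne' : (interior {x : Fin k → G | FreeGroup.lift x w ∈ (B : Set G) * (M : Set G)}).Nonempty :=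
        Set.nonempty_iff_ne_empty.2 hne
      intro x
      rw [hM, Subgroup.mem_iInf]
      intro n
      refine word_quot (hK.good n) w (F := (B : Set G)) (fin_im hB htd (hK.good n))
        isOpen_interior hne' ?_ x
      intro y hy
      have hy0 : y ∈ {x : Fin k → G | FreeGroup.lift x w ∈ (B : Set G) * (M : Set G)} := interior_subset hy
      have hy' : FreeGroup.lift y w ∈ (B : Set G) * (M : Set G) := hy0
      obtain ⟨b, hb, m, hm, hbm⟩ := Set.mem_mul.1 hy'
      refine ⟨b, hb, ?_⟩
      rw [← hbm]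
      have hmn : m ∈ K n := by
        have : m ∈ M := hm
        rw [hM, Subgroup.mem_iInf] at this
        exact this n
      have : b⁻¹ * (b * m) = m := by group
      rw [this]
      exact hmn
  obtain ⟨H, hH, hHA⟩ := dense_pull hK hA hs h
  refine ⟨H, hH, crit hH ?_⟩
  intro V hV
  obtain ⟨N, hNB, hNc, hNV, hN1⟩ := prof_small hB htd hinf hV
  refine ⟨N, ?_, hNc.isClosed, hNV, hN1, ?_⟩
  · constructor
    intro n hn g
    have hc : n ∈ Subgroup.center G := hcen (hNB hn)
    have h1 : g * n = n * g := Subgroup.mem_center_iff.1 hc g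
    have h2 : g * n * g⁻¹ = n := by rw [h1]; group
    rw [h2]
    exact hn
  · rw [eq_bot_iff]
    intro x hx
    rw [Subgroup.mem_inf] at hx
    have hxB : x ∈ B := hNB hx.1
    have hxA : x ∈ (B : Set G) * (M : Set G) := Set.mem_mul.2 ⟨x, hxB, 1, M.one_mem, mul_one x⟩
    have hxM : x ∈ M := hHA x hx.2 hxA
    have : x ∈ B ⊓ M := Subgroup.mem_inf.2 ⟨hxB, hxM⟩
    rw [hBM] at this
    exact this

end Pool.Agent.GY
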