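import Pool.Agent.GY.Unif
import Pool.Agent.CAM.PWc

/-!
# GY.Cent (diff 2): small normal subgroups of connected groups are central

* `td_central`: for `n ∈ N` the set `{g n g⁻¹}` is preconnected, inside `N`, and contains `n`: it is `{n}`.
* `ab_central`: `N` compact abelian (`CommGroup N` from `hab`).  Let `n ∈ N`, and suppose `g n g⁻¹ ≠ n` for some `g`: there is a continuous character `χ : N → Circle` (theorem `Pool.Agent.CAM.pw` for the compact Hausdorff abelian
  group `N`) with `χ (g n g⁻¹ n⁻¹) ≠ 1`.  The set `A = {g | χ (g x g⁻¹) = χ x for all x ∈ N}` is a subgroup of `G`.  It is open: the map `(g, x) ↦ χ (g x g⁻¹ x⁻¹)`, `G × N → Circle`, is continuous and `1` for `g = 1`; by compactness of `N` there is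
  `V ∈ 𝓝 1` such that its values are within distance `< 1` of `1` for `g ∈ V`, `x ∈ N`.  For fixed `g ∈ V`, `x ↦ χ (g x g⁻¹ x⁻¹)` is a homomorphism (N abelian), its image is a subgroup of the circle inside `{|z - 1| < 1}`, so trivial
  (`z` with `|z^k - 1| < 1` for all `k`: `z = 1`; e.g. `ban_nss`-type doubling argument: with `|z^k - 1| ≤ c < 1`; choose the bound `1/2`).
  So `A ∈ 𝓝 1`, `A` is open, hence `A = G` (connected): contradiction.
-/

open Topology Filter Set
open scoped Pointwise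

namespace Pool.Agent.GY

variable {G : Type*} [Group G] [TopologicalSpace G] [IsTopologicalGroup G]

theorem td_central [ConnectedSpace G] {N : Subgroup G} (hN : N.Normal)
    (htd : IsTotallyDisconnected (N : Set G)) : N ≤ Subgroup.center G := by
  intro n hn
  rw [Subgroup.mem_center_iff]
  intro g
  have hc : Continuous fun g : G => g * n * g⁻¹ := by fun_prop
  have h1 : IsPreconnected (range fun g : G => g * n * g⁻¹) := isPreconnected_range hc
  have h2 : range (fun g : G => g * n * g⁻¹) ⊆ (N : Set G) := by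
    rintro _ ⟨g, rfl⟩
    exact hN.conj_mem n hn g
  have h3 := htd _ h2 h1 (mem_range_self g) (mem_range_self 1)
  simp only [one_mul, inv_one, mul_one] at h3
  rw [mul_inv_eq_iff_eq_mul] at h3
  exact h3

/-- continuous characters of a compact abelian group separate points -/
theorem chr_sep {A : Type*} [CommGroup A] [TopologicalSpace A] [IsTopologicalGroup A]
    [CompactSpace A] [T2Space A] {x : A} (hx : x ≠ 1) : ∃ χ : A →ₜ* Circle, χ x ≠ 1 :=
  Pool.Agent.CAM.pw x hx

/-- the circle has no small subgroups -/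
theorem circle_nss {z : Circle} (h : ∀ k : ℕ, ‖((z ^ k : Circle) : ℂ) - 1‖ ≤ 1 / 2) : z = 1 := by
  have key : ∀ j : ℕ, (3 / 2 : ℝ) ^ j * ‖(z : ℂ) - 1‖ ≤ ‖((z ^ (2 ^ j) : Circle) : ℂ) - 1‖ := by
    intro j
    induction j with
    | zero => simp
    | succ j ih =>
      have e : ((z ^ (2 ^ (j + 1)) : Circle) : ℂ) - 1 =
          (((z ^ (2 ^ j) : Circle) : ℂ) - 1) * (((z ^ (2 ^ j) : Circle) : ℂ) + 1) := by
        rw [pow_succ 2 j, pow_mul, pow_two]
        push_cast
        ring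
      have h1 := h (2 ^ j)
      have h2 : (3 / 2 : ℝ) ≤ ‖((z ^ (2 ^ j) : Circle) : ℂ) + 1‖ := by
        have e2 : (2 : ℂ) = (((z ^ (2 ^ j) : Circle) : ℂ) + 1) - (((z ^ (2 ^ j) : Circle) : ℂ) - 1) := by
          ring
        have h3 : ‖(2 : ℂ)‖ ≤ ‖((z ^ (2 ^ j) : Circle) : ℂ) + 1‖ + ‖((z ^ (2 ^ j) : Circle) : ℂ) - 1‖ := by
          conv_lhs => rw [e2]
          exact norm_sub_le _ _
        have h4 : ‖(2 : ℂ)‖ = 2 := by simp
        rw [h4] at h3
        linarith
      rw [e, norm_mul]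
      calc (3 / 2 : ℝ) ^ (j + 1) * ‖(z : ℂ) - 1‖ = ((3 / 2 : ℝ) ^ j * ‖(z : ℂ) - 1‖) * (3 / 2) := by
            rw [pow_succ]; ring
        _ ≤ _ := mul_le_mul ih h2 (by norm_num) (norm_nonneg _)
  by_contra hz
  have hpos : 0 < ‖(z : ℂ) - 1‖ := by
    rw [norm_pos_iff, sub_ne_zero]
    intro h1
    exact hz (Circle.ext (by simpa using h1))
  obtain ⟨j, hj⟩ := pow_unbounded_of_one_lt (1 / ‖(z : ℂ) - 1‖) (by norm_num : (1 : ℝ) < 3 / 2)
  have h1 := key j
  have h2 := h (2 ^ j)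
  have h3 : 1 < (3 / 2 : ℝ) ^ j * ‖(z : ℂ) - 1‖ := by
    rwa [div_lt_iff₀ hpos] at hj
  linarith

theorem ab_central [ConnectedSpace G] [T2Space G] {N : Subgroup G} (hN : N.Normal)
    (hc : IsCompact (N : Set G)) (hab : ∀ x ∈ N, ∀ y ∈ N, x * y = y * x) :
    N ≤ Subgroup.center G := by
  intro n hn
  rw [Subgroup.mem_center_iff]
  by_contra hcon
  push Not at hcon
  obtain ⟨g₀, hg₀⟩ := hcon
  let _ : CommGroup N := { (inferInstance : Group N) with
    mul_comm := fun x y => Subtype.ext (hab x x.2 y y.2) }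
  have : CompactSpace N := isCompact_iff_compactSpace.1 hc
  have hne : (⟨g₀ * n * g₀⁻¹ * n⁻¹, N.mul_mem (hN.conj_mem n hn g₀) (N.inv_mem hn)⟩ : N) ≠ 1 := by
    intro h
    have h1 : g₀ * n * g₀⁻¹ * n⁻¹ = 1 := congrArg Subtype.val h
    rw [mul_inv_eq_one, mul_inv_eq_iff_eq_mul] at h1
    exact hg₀ h1
  obtain ⟨χ, hχ⟩ := chr_sep hne
  obtain ⟨cj, hcj⟩ : ∃ cj : G → N → N, ∀ g x, cj g x = ⟨g * x * g⁻¹, hN.conj_mem x x.2 g⟩ :=
    ⟨fun g x => ⟨g * x * g⁻¹, hN.conj_mem x x.2 g⟩, fun _ _ => rfl⟩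
  have hcjv : ∀ g x, (cj g x : G) = g * x * g⁻¹ := fun g x => by rw [hcj]
  have cj_mul : ∀ g x y, cj g (x * y) = cj g x * cj g y := by
    intro g x y
    apply Subtype.ext
    show (cj g (x * y) : G) = (cj g x : G) * (cj g y : G)
    rw [hcjv, hcjv, hcjv]
    show g * ((x : G) * (y : G)) * g⁻¹ = _
    group
  have cj_cj : ∀ g h x, cj (g * h) x = cj g (cj h x) := by
    intro g h x
    apply Subtype.ext
    rw [hcjv, hcjv, hcjv]
    group
  have cj_one : ∀ x, cj 1 x = x := by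
    intro x
    apply Subtype.ext
    rw [hcjv]
    group
  let A : Subgroup G :=
    { carrier := {g | ∀ x, χ (cj g x) = χ x}
      mul_mem' := by
        intro g h hg hh x
        rw [cj_cj, hg, hh]
      one_mem' := by
        intro x
        rw [cj_one]
      inv_mem' := by
        intro g hg x
        have h1 := hg (cj g⁻¹ x)
        rw [← cj_cj, mul_inv_cancel, cj_one] at h1
        exact h1.symm }
  have hcont : Continuous fun p : G × N => χ (cj p.1 p.2) * (χ p.2)⁻¹ := by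
    have h1 : Continuous fun p : G × N => cj p.1 p.2 := by
      rw [continuous_induced_rng]
      have : (Subtype.val ∘ fun p : G × N => cj p.1 p.2) = fun p : G × N => p.1 * p.2 * p.1⁻¹ := by
        funext p
        exact hcjv _ _
      rw [this]
      fun_prop
    exact (χ.continuous_toFun.comp h1).mul (χ.continuous_toFun.comp continuous_snd).inv
  have hopen : IsOpen {p : G × N | ‖((χ (cj p.1 p.2) * (χ p.2)⁻¹ : Circle) : ℂ) - 1‖ < 1 / 2} := by
    refine isOpen_lt ?_ continuous_const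
    exact ((continuous_subtype_val.comp hcont).sub continuous_const).norm
  obtain ⟨u, v, hu, _, h1u, huv, hsub⟩ := generalized_tube_lemma (isCompact_singleton (x := (1 : G)))
    (isCompact_univ (X := N)) hopen (by
      rintro ⟨g, x⟩ ⟨hg, _⟩
      have hg : g = 1 := hg
      subst hg
      show ‖((χ (cj 1 x) * (χ x)⁻¹ : Circle) : ℂ) - 1‖ < 1 / 2
      rw [cj_one, mul_inv_cancel]
      simp)
  have hA : (A : Set G) ∈ 𝓝 (1 : G) := by
    refine mem_of_superset (hu.mem_nhds (h1u (mem_singleton _))) ?_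
    intro g hg x
    have h1 : ∀ k : ℕ, χ (cj g (x ^ k)) * (χ (x ^ k))⁻¹ = (χ (cj g x) * (χ x)⁻¹) ^ k := by
      intro k
      induction k with
      | zero =>
        have h2 : cj g 1 = 1 := by
          apply Subtype.ext
          rw [hcjv]
          show g * 1 * g⁻¹ = 1
          group
        rw [pow_zero, pow_zero, h2, map_one]
        simp
      | succ k ih =>
        rw [pow_succ, pow_succ, cj_mul, map_mul, map_mul, ← ih, mul_inv]
        exact mul_mul_mul_comm _ _ _ _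
    have h2 := circle_nss (z := χ (cj g x) * (χ x)⁻¹) (fun k => by
      rw [← h1 k]
      exact (hsub (show (g, x ^ k) ∈ u ×ˢ v from ⟨hg, huv (mem_univ _)⟩)).le)
    rwa [mul_inv_eq_one] at h2
  have hAo : IsOpen (A : Set G) := A.isOpen_of_mem_nhds hA
  have hAc : IsClosed (A : Set G) := A.isClosed_of_isOpen hAo
  have hAu : (A : Set G) = univ := IsClopen.eq_univ ⟨hAc, hAo⟩ ⟨1, A.one_mem⟩
  have hg₀A : g₀ ∈ (A : Set G) := by rw [hAu]; exact mem_univ _
  have h3 := hg₀A ⟨n, hn⟩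
  apply hχ
  have h4 : (⟨g₀ * n * g₀⁻¹ * n⁻¹, N.mul_mem (hN.conj_mem n hn g₀) (N.inv_mem hn)⟩ : N) =
      cj g₀ ⟨n, hn⟩ * (⟨n, hn⟩ : N)⁻¹ := by
    apply Subtype.ext
    show g₀ * n * g₀⁻¹ * n⁻¹ = (cj g₀ ⟨n, hn⟩ : G) * n⁻¹
    rw [hcjv]
  rw [h4, map_mul, h3, map_inv, mul_inv_cancel]

end Pool.Agent.GY
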