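import Pool.Agent.GY.AT3
import Pool.Agent.GY.Ann
import Pool.Agent.GY.Cent

/-!
# GY.DualN (diff 3): compact abelian groups that are not NSS

`A = C →ₜ* Circle` (the dual group, `CommGroup`).
* `dual_nfg`: if `A` is generated by finitely many `χ_1, ..., χ_m` (`Subgroup.closure S = ⊤`, `S` finite), then `V = {x | ‖χ_i x - 1‖ < 1/2 for all i}` is a neighbourhood of `1`; a subgroup `L ⊆ V` satisfies `χ_i = 1` on `L` (`circle_nss` applied to `χ_i x`, `χ_i (x^k)`),
  so all `χ ∈ A` are trivial on `L` and `L = ⊥` (`chr_sep`): `C` is NSS.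
* `at3` for `Additive A` (`AddGroup.FG (Additive A) ↔ Group.FG A`): a subgroup `Y ≤ A` with `A / Y` countable infinite, and every `χ` has a power `χ^n ∈ Y`, `n ≠ 0`.   `B = {x | ∀ ψ ∈ Y, ψ x = 1}`: a closed subgroup.
* totally disconnected: let `S ⊆ B` be preconnected and `x, y ∈ S`.  For `χ ∈ A` with `χ^n ∈ Y`: `χ` maps `B` to the finite set of `n`-th roots of unity, so it is constant on `S` (`IsPreconnected.image`, finite sets are totally disconnected: `Set.Finite.isTotallyDisconnected`? `IsPreconnected.subsingleton` in a finite T1 discrete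
  subspace).  So `χ x = χ y` for all `χ`, and `x = y` (`chr_sep`).
* infinite: suppose `B` is finite; restriction to `B` maps `A` to the functions `B → Circle` with values in the `|B|`-th roots of unity (`x^|B| = 1`): a finite set; two characters with the same restriction are congruent modulo `Y` (`ann_mem`): so `A / Y` is finite.
* `W`: `A/Y` countable: choose a sequence `χ_n` in `A` meeting every class of `A / Y`; `W n = {x | ‖χ_n x - 1‖ < 1/2}`.  If a subgroup `L` is inside all `W n`, then `χ_n = 1` on `L` for all `n` (`circle_nss`), so for `x ∈ B ⊓ L` all `χ = χ_n ψ` (`ψ ∈ Y`) satisfy `χ x = 1`: `x = 1`.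
-/

open Topology Filter Set
open scoped Pointwise

namespace Pool.Agent.GY

theorem DualN_nhd {C : Type*} [CommGroup C] [TopologicalSpace C] (χ : C →ₜ* Circle) :
    {x : C | ‖((χ x : Circle) : ℂ) - 1‖ < 1 / 2} ∈ 𝓝 (1 : C) := by
  have hc : Continuous (fun x : C => ‖((χ x : Circle) : ℂ) - 1‖) :=
    ((continuous_subtype_val.comp χ.continuous_toFun).sub continuous_const).norm
  have h1 : ‖((χ 1 : Circle) : ℂ) - 1‖ < 1 / 2 := by
    rw [map_one]
    simp
  exact (isOpen_lt hc continuous_const).mem_nhds h1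

theorem DualN_triv {C : Type*} [CommGroup C] [TopologicalSpace C] (χ : C →ₜ* Circle)
    {L : Subgroup C} (hL : (L : Set C) ⊆ {x : C | ‖((χ x : Circle) : ℂ) - 1‖ < 1 / 2}) :
    ∀ x ∈ L, χ x = 1 := by
  intro x hx
  apply circle_nss
  intro k
  have h1 : (χ x) ^ k = χ (x ^ k) := (map_pow χ x k).symm
  rw [h1]
  exact (hL (L.pow_mem hx k)).le

theorem dual_nfg {C : Type*} [CommGroup C] [TopologicalSpace C] [IsTopologicalGroup C]
    [CompactSpace C] [T2Space C] (h : ¬ NSS C) : ¬ Group.FG (C →ₜ* Circle) := by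
  intro hfg
  obtain ⟨S, hS, hfin⟩ := Group.fg_iff.1 hfg
  apply h
  refine ⟨⋂ χ ∈ S, {x : C | ‖((χ x : Circle) : ℂ) - 1‖ < 1 / 2},
    (Filter.biInter_mem hfin).2 (fun χ _ => DualN_nhd χ), ?_⟩
  intro L hL
  rw [eq_bot_iff]
  intro x hx
  rw [Subgroup.mem_bot]
  by_contra hx1
  obtain ⟨χ, hχ⟩ := chr_sep hx1
  apply hχ
  let E : Subgroup (C →ₜ* Circle) :=
    { carrier := {ψ | ψ x = 1}
      one_mem' := rfl
      mul_mem' := by
        intro a b ha hb
        have ha' : a x = 1 := ha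
        have hb' : b x = 1 := hb
        show (a * b) x = 1
        rw [ContinuousMonoidHom.mul_apply, ha', hb', mul_one]
      inv_mem' := by
        intro a ha
        have ha' : a x = 1 := ha
        show (a x)⁻¹ = 1
        rw [ha', inv_one] }
  have hE : S ⊆ (E : Set (C →ₜ* Circle)) := by
    intro ψ hψ
    show ψ x = 1
    refine DualN_triv ψ (L := L) ?_ x hx
    intro y hy
    exact Set.mem_iInter₂.1 (hL hy) ψ hψ
  have h2 : Subgroup.closure S ≤ E := (Subgroup.closure_le E).2 hE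
  rw [hS] at h2
  exact h2 (Subgroup.mem_top χ)

theorem DualN_roots {n : ℕ} (hn : n ≠ 0) : {z : Circle | z ^ n = 1}.Finite := by
  have h1 : {z : ℂ | z ^ n = 1}.Finite := by
    apply ((Polynomial.nthRoots n (1 : ℂ)).toFinset.finite_toSet).subset
    intro z hz
    have hz' : z ^ n = 1 := hz
    simp only [Finset.mem_coe, Multiset.mem_toFinset]
    exact (Polynomial.mem_nthRoots (Nat.pos_of_ne_zero hn)).2 hz'
  have h2 : {z : Circle | z ^ n = 1} ⊆ (fun z : Circle => (z : ℂ)) ⁻¹' {z : ℂ | z ^ n = 1} := by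
    intro z hz
    have hz' : z ^ n = 1 := hz
    show (z : ℂ) ^ n = 1
    rw [← Circle.coe_pow, hz', Circle.coe_one]
  exact (h1.preimage (Circle.coe_injective.injOn)).subset h2

theorem dual_case {C : Type*} [CommGroup C] [TopologicalSpace C] [IsTopologicalGroup C]
    [CompactSpace C] [T2Space C] (h : ¬ NSS C) :
    ∃ B : Subgroup C, IsClosed (B : Set C) ∧ IsTotallyDisconnected (B : Set C) ∧
      (B : Set C).Infinite ∧ ∃ W : ℕ → Set C, (∀ n, W n ∈ 𝓝 (1 : C)) ∧
        ∀ L : Subgroup C, (∀ n, (L : Set C) ⊆ W n) → B ⊓ L = ⊥ := by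
  have hnfg : ¬ AddGroup.FG (Additive (C →ₜ* Circle)) := by
    rw [← GroupFG.iff_add_fg]
    exact dual_nfg h
  obtain ⟨Y', hcount, hinf, htor⟩ := at3 hnfg
  let Y : Subgroup (C →ₜ* Circle) := AddSubgroup.toSubgroup' Y'
  have hY : ∀ ψ : C →ₜ* Circle, ψ ∈ Y ↔ Additive.ofMul ψ ∈ Y' := fun ψ => Iff.rfl
  let B : Subgroup C :=
    { carrier := {x | ∀ ψ ∈ Y, ψ x = 1}
      one_mem' := fun ψ _ => map_one ψ
      mul_mem' := by
        intro a b ha hb ψ hψ
        rw [map_mul, ha ψ hψ, hb ψ hψ, mul_one]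
      inv_mem' := by
        intro a ha ψ hψ
        rw [map_inv, ha ψ hψ, inv_one] }
  have hB : ∀ x : C, x ∈ B ↔ ∀ ψ ∈ Y, ψ x = 1 := fun x => Iff.rfl
  have htor' : ∀ χ : C →ₜ* Circle, ∃ n : ℕ, n ≠ 0 ∧ χ ^ n ∈ Y := by
    intro χ
    obtain ⟨n, hn, hmem⟩ := htor (Additive.ofMul χ)
    refine ⟨n, hn, ?_⟩
    rw [hY, ofMul_pow]
    exact hmem
  have hann : ∀ χ : C →ₜ* Circle, (∀ x ∈ B, χ x = 1) → χ ∈ Y := by
    intro χ hχ
    exact ann_mem Y χ (fun x hx => hχ x hx)
  refine ⟨B, ?_, ?_, ?_, ?_⟩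
  · have : (B : Set C) = ⋂ ψ ∈ Y, {x : C | ψ x = 1} := by
      ext x
      simp only [SetLike.mem_coe, hB, Set.mem_iInter, Set.mem_ofPred_eq]
    rw [this]
    exact isClosed_biInter (fun ψ _ => isClosed_eq ψ.continuous_toFun continuous_const)
  · intro t ht hpre x hx y hy
    by_contra hxy
    have hne : x * y⁻¹ ≠ 1 := fun h0 => hxy (mul_inv_eq_one.1 h0)
    obtain ⟨χ, hχ⟩ := chr_sep hne
    apply hχ
    obtain ⟨n, hn, hmem⟩ := htor' χ
    have hsub : (fun z => χ z) '' t ⊆ {z : Circle | z ^ n = 1} := by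
      rintro _ ⟨z, hz, rfl⟩
      have hzB : z ∈ B := ht hz
      have := (hB z).1 hzB _ hmem
      rw [ContinuousMonoidHom.pow_apply] at this
      exact this
    have hpre' : IsPreconnected ((fun z => χ z) '' t) :=
      hpre.image _ χ.continuous_toFun.continuousOn
    have hss : ((fun z => χ z) '' t).Subsingleton :=
      (DualN_roots hn).countable.isTotallyDisconnected _ hsub hpre'
    have : χ x = χ y := hss ⟨x, hx, rfl⟩ ⟨y, hy, rfl⟩
    rw [map_mul, map_inv, this, mul_inv_cancel]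
  · intro hfin
    have hfB : Finite B := hfin
    have hN0 : Nat.card B ≠ 0 := Nat.card_pos.ne'
    have hpow : ∀ x ∈ B, x ^ (Nat.card B) = 1 := by
      intro x hx
      have := pow_card_eq_one' (x := (⟨x, hx⟩ : B))
      have h2 := congrArg Subtype.val this
      exact h2
    let Φ : (Additive (C →ₜ* Circle) ⧸ Y') → (B → Circle) :=
      fun q x => (Additive.toMul q.out) (x : C)
    have hrange : (Set.range Φ).Finite := by
      apply (Set.Finite.pi' (fun _ : B => DualN_roots hN0)).subset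
      rintro _ ⟨q, rfl⟩ x
      show ((Additive.toMul q.out) (x : C)) ^ (Nat.card B) = 1
      rw [← map_pow, hpow x x.2, map_one]
    have hinj : Function.Injective Φ := by
      intro q₁ q₂ h12
      have h3 : (Additive.toMul q₁.out)⁻¹ * Additive.toMul q₂.out ∈ Y := by
        apply hann
        intro x hx
        have h4 := congrFun h12 ⟨x, hx⟩
        have h5 : (Additive.toMul q₁.out) x = (Additive.toMul q₂.out) x := h4
        rw [ContinuousMonoidHom.mul_apply]
        have h6 : ((Additive.toMul q₁.out)⁻¹ : C →ₜ* Circle) x = ((Additive.toMul q₁.out) x)⁻¹ := rfl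
        rw [h6, h5, inv_mul_cancel]
      have h7 : -q₁.out + q₂.out ∈ Y' := h3
      have h8 : (QuotientAddGroup.mk q₁.out : Additive (C →ₜ* Circle) ⧸ Y') = QuotientAddGroup.mk q₂.out :=
        QuotientAddGroup.eq.2 h7
      rw [QuotientAddGroup.out_eq', QuotientAddGroup.out_eq'] at h8
      exact h8
    have : Finite (Set.range Φ) := hrange
    have hfinq : Finite (Additive (C →ₜ* Circle) ⧸ Y') := Finite.of_injective_finite_range hinj
    exact not_finite_iff_infinite.2 hinf hfinq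
  · obtain ⟨f, hf⟩ := exists_surjective_nat (Additive (C →ₜ* Circle) ⧸ Y')
    refine ⟨fun n => {x : C | ‖(((Additive.toMul (f n).out : C →ₜ* Circle) x : Circle) : ℂ) - 1‖ < 1 / 2},
      fun n => DualN_nhd _, ?_⟩
    intro L hL
    rw [eq_bot_iff]
    intro x hx
    rw [Subgroup.mem_inf] at hx
    rw [Subgroup.mem_bot]
    by_contra hx1
    obtain ⟨χ, hχ⟩ := chr_sep hx1
    apply hχ
    obtain ⟨n, hn⟩ := hf (QuotientAddGroup.mk (Additive.ofMul χ))
    have h1 : (Additive.toMul (f n).out : C →ₜ* Circle) x = 1 := DualN_triv _ (hL n) x hx.2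
    have h2 : (QuotientAddGroup.mk (f n).out : Additive (C →ₜ* Circle) ⧸ Y') =
        QuotientAddGroup.mk (Additive.ofMul χ) := by
      rw [QuotientAddGroup.out_eq', hn]
    have h3 : -(f n).out + Additive.ofMul χ ∈ Y' := QuotientAddGroup.eq.1 h2
    have h4 : (Additive.toMul (f n).out)⁻¹ * χ ∈ Y := h3
    have h5 := (hB x).1 hx.1 _ h4
    rw [ContinuousMonoidHom.mul_apply] at h5
    have h6 : ((Additive.toMul (f n).out)⁻¹ : C →ₜ* Circle) x = ((Additive.toMul (f n).out) x)⁻¹ := rfl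
    rw [h6, h1, inv_one, one_mul] at h5
    exact h5

end Pool.Agent.GY
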