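import Pool.Agent.GY.CaseA1
import Pool.Agent.GY.DualN

/-!
# GY.CaseA2 (diff 2): case (a), some compact central subgroup is not NSS

`↥C` is a compact Hausdorff topological group, commutative (`C ≤ center`): put a `CommGroup ↥C` instance with the given group structure (`{ (inferInstance : Group ↥C) with mul_comm := ... }`; `NSS ↥C` unfolds to a statement about this group structure).
`dual_case` gives `B' ≤ ↥C` and `W n`; `B = B'.map C.subtype`: compact (closed in the compact `↥C`, continuous image), totally disconnected (`C.subtype` is an embedding: `Topology.IsEmbedding.isTotallyDisconnected_image`), infinite, central.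
`W n ∈ 𝓝 1` in `↥C` is the trace of a neighbourhood `U n ∈ 𝓝 (1 : G)` (`mem_nhds_subtype`).  `exists_seq` gives `K n ⊆ U n`, `SeqG K`.
`B ⊓ ⨅ n, K n = ⊥`: apply the last property to `L = (⨅ n, K n).subgroupOf C`.  Then `case_a1`.
-/

open Topology Filter Set
open scoped Pointwise

namespace Pool.Agent.GY

theorem CaseA2_aux {C : Type*} [inst : Group C] [TopologicalSpace C] [IsTopologicalGroup C]
    [CompactSpace C] [T2Space C] (hcomm : ∀ a b : C, a * b = b * a) (h : ¬ NSS C) :
    ∃ B : Subgroup C, IsClosed (B : Set C) ∧ IsTotallyDisconnected (B : Set C) ∧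
      (B : Set C).Infinite ∧ ∃ W : ℕ → Set C, (∀ n, W n ∈ 𝓝 (1 : C)) ∧
        ∀ L : Subgroup C, (∀ n, (L : Set C) ⊆ W n) → B ⊓ L = ⊥ := by
  let _ : CommGroup C := { inst with mul_comm := hcomm }
  exact dual_case h

theorem case_a {G : Type*} [Group G] [TopologicalSpace G] [IsTopologicalGroup G]
    [LocallyCompactSpace G] [T2Space G] [ConnectedSpace G]
    (hGY : ∀ U ∈ 𝓝 (1 : G), ∃ K : Subgroup G, GoodK K ∧ (K : Set G) ⊆ U) {C : Subgroup G}
    (hC : IsCompact (C : Set G)) (hcen : C ≤ Subgroup.center G) (hns : ¬ NSS C) :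
    ∃ H : Subgroup G, Dense (H : Set G) ∧ ¬ LocallyMinimal H inferInstance := by
  have hcs : CompactSpace C := isCompact_iff_compactSpace.mp hC
  have hcomm : ∀ a b : C, a * b = b * a := by
    intro a b
    apply Subtype.ext
    exact ((Subgroup.mem_center_iff.mp (hcen b.2)) a.1)
  obtain ⟨B', hB'c, hB'td, hB'inf, W, hW, hWL⟩ := CaseA2_aux hcomm hns
  have hcoe : ((B'.map C.subtype : Subgroup G) : Set G) = Subtype.val '' (B' : Set C) := rfl
  choose U hU hUW using fun n => (mem_nhds_subtype (C : Set G) (1 : C) (W n)).mp (hW n)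
  obtain ⟨K, hK, hKU⟩ := exists_seq hGY hU
  refine case_a1 hK (B := B'.map C.subtype) ?_ ?_ ?_ ?_ ?_
  · rw [hcoe]
    exact hB'c.isCompact.image continuous_subtype_val
  · rw [hcoe]
    exact (Topology.IsEmbedding.subtypeVal.isTotallyDisconnected_image).mpr hB'td
  · rw [hcoe]
    exact hB'inf.image Subtype.val_injective.injOn
  · rintro _ ⟨y, _, rfl⟩
    exact hcen y.2
  · rw [eq_bot_iff]
    rintro _ ⟨⟨y, hy, rfl⟩, hx2⟩
    have h1 := hWL ((⨅ n, K n).subgroupOf C) (by
      intro n z hz
      have hz' : (z : G) ∈ ⨅ n, K n := hz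
      exact hUW n (hKU n (Subgroup.mem_iInf.mp hz' n)))
    have h2 : y ∈ B' ⊓ (⨅ n, K n).subgroupOf C := ⟨hy, hx2⟩
    rw [h1, Subgroup.mem_bot] at h2
    rw [h2]
    exact Subgroup.one_mem _

end Pool.Agent.GY
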