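import Pool.Agent.GY.SigC

/-!
# GY.SeqK (diff 2): decreasing sequences of good subgroups

`M = ⨅ n, K n`, a compact normal subgroup.
* `seq_sub`: if `O` is open and `M ⊆ O`, then `K n ⊆ O` for some `n` (compactness, decreasing: `exists_subset_nhds_of_isCompact`).
* `seq_sec`: countable basis of `G ⧸ M` at `1`: `G ⧸ K n` is NSS (`goodK_quot`), locally compact, so has `B n m` (`nss_basis`; replace by interiors); `W n m` = the image in `G ⧸ M` of the preimage of `interior (B n m)` in `G`: open neighbourhoods of `1`.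
  Let `V ∈ 𝓝 1` in `G ⧸ M`, `O` = preimage of `interior V`, open, contains `M`; `K n ⊆ O` for some `n`; the set `{g | g K n ⊆ O}` is open (tube lemma), `K n`-saturated and contains `K n`; its image in `G ⧸ K n` is open and contains some `B n m`.
  So the preimage of `B n m` is inside `{g | g K n ⊆ O} ⊆ O`, and `W n m ⊆ V`.   Then `sec_of_basis`.
-/

open Topology Filter Set
open scoped Pointwise

namespace Pool.Agent.GY

variable {G : Type*} [Group G] [TopologicalSpace G] [IsTopologicalGroup G]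

/-- decreasing sequence of good subgroups -/
structure SeqG (K : ℕ → Subgroup G) : Prop where
  good : ∀ n, GoodK (K n)
  anti : Antitone K

theorem SeqG.normal {K : ℕ → Subgroup G} (hK : SeqG K) : (⨅ n, K n).Normal :=
  Subgroup.normal_iInf_normal (fun n => (hK.good n).normal)

variable [T2Space G]

theorem SeqG.compact {K : ℕ → Subgroup G} (hK : SeqG K) :
    IsCompact ((⨅ n, K n : Subgroup G) : Set G) := by
  rw [Subgroup.coe_iInf]
  exact (hK.good 0).compact.of_isClosed_subset
    (isClosed_iInter (fun n => (hK.good n).compact.isClosed)) (iInter_subset _ 0)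

theorem seq_sub {K : ℕ → Subgroup G} (hK : SeqG K) {O : Set G} (hO : IsOpen O)
    (h : ((⨅ n, K n : Subgroup G) : Set G) ⊆ O) : ∃ n, (K n : Set G) ⊆ O := by
  rw [Subgroup.coe_iInf] at h
  refine exists_subset_nhds_of_isCompact' (V := fun n => (K n : Set G)) ?_
    (fun n => (hK.good n).compact) (fun n => (hK.good n).compact.isClosed)
    (fun x hx => hO.mem_nhds (h hx))
  exact (directed_of_isDirected_le (fun i j hij => hK.anti hij) :
    Directed (fun A B : Set G => A ⊇ B) (fun n => (K n : Set G)))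

theorem seq_sec [LocallyCompactSpace G] [ConnectedSpace G] {K : ℕ → Subgroup G} (hK : SeqG K)
    [(⨅ n, K n).Normal] : SecondCountableTopology (G ⧸ (⨅ n, K n : Subgroup G)) := by
  have hcl : IsClosed ((⨅ n, K n : Subgroup G) : Set G) := hK.compact.isClosed
  have hex : ∀ n, ∃ B : ℕ → Set G, (∀ m, B m ∈ 𝓝 (1 : G)) ∧
      (∀ m, ∀ g ∈ B m, ∀ k ∈ K n, g * k ∈ B m) ∧
      ∀ V ∈ 𝓝 (1 : G), ∃ m, B m ⊆ V * (K n : Set G) := by
    intro n
    have hn : (K n).Normal := (hK.good n).normal
    have hc : IsClosed ((K n : Subgroup G) : Set G) := (hK.good n).compact.isClosed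
    obtain ⟨B, hB1, hB2⟩ := nss_basis (goodK_quot (hK.good n))
    refine ⟨fun m => (QuotientGroup.mk : G → G ⧸ K n) ⁻¹' (B m), fun m => ?_, fun m g hg k hk => ?_,
      fun V hV => ?_⟩
    · have hc' : ContinuousAt (QuotientGroup.mk : G → G ⧸ K n) 1 :=
        continuous_quotient_mk'.continuousAt
      exact hc' (hB1 m)
    · show (QuotientGroup.mk (g * k) : G ⧸ K n) ∈ B m
      rw [QuotientGroup.mk_mul_of_mem _ hk]
      exact hg
    · have h1 : (QuotientGroup.mk : G → G ⧸ K n) '' V ∈ 𝓝 (1 : G ⧸ K n) :=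
        QuotientGroup.isOpenMap_coe.image_mem_nhds hV
      obtain ⟨m, hm⟩ := hB2 _ h1
      refine ⟨m, fun g hg => ?_⟩
      obtain ⟨v, hv, hvg⟩ := hm hg
      rw [QuotientGroup.eq] at hvg
      exact ⟨v, hv, v⁻¹ * g, hvg, by simp⟩
  choose B hB1 hB2 hB3 using hex
  have hconn : ConnectedSpace (G ⧸ (⨅ n, K n : Subgroup G)) :=
    (QuotientGroup.mk_surjective (s := (⨅ n, K n : Subgroup G))).connectedSpace
      continuous_quotient_mk'
  refine sec_of_basis (G := G ⧸ (⨅ n, K n : Subgroup G))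
    (B := fun k => (QuotientGroup.mk : G → G ⧸ (⨅ n, K n : Subgroup G)) ''
      (B k.unpair.1 k.unpair.2)) ?_ ?_
  · intro k
    exact QuotientGroup.isOpenMap_coe.image_mem_nhds (hB1 _ _)
  · intro V hV
    set O : Set G := (QuotientGroup.mk : G → G ⧸ (⨅ n, K n : Subgroup G)) ⁻¹' (interior V) with hO
    have hOo : IsOpen O := isOpen_interior.preimage continuous_quotient_mk'
    have hMO : ((⨅ n, K n : Subgroup G) : Set G) ⊆ O := by
      intro x hx
      rw [hO, mem_preimage]
      have : (QuotientGroup.mk x : G ⧸ (⨅ n, K n : Subgroup G)) = 1 :=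
        (QuotientGroup.eq_one_iff x).2 hx
      rw [this]
      exact mem_interior_iff_mem_nhds.2 hV
    obtain ⟨n, hn⟩ := seq_sub hK hOo hMO
    obtain ⟨V', hV', hVK, -⟩ := exists_thick (hK.good n).compact hOo hn
    obtain ⟨m, hm⟩ := hB3 n V' hV'
    refine ⟨Nat.pair n m, ?_⟩
    rintro _ ⟨g, hg, rfl⟩
    rw [Nat.unpair_pair] at hg
    exact interior_subset (hVK (hm hg))

/-- construction: from arbitrary neighbourhoods `U n` of `1` in a connected locally compact group -/
theorem exists_seq [LocallyCompactSpace G] [ConnectedSpace G]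
    (hGY : ∀ U ∈ 𝓝 (1 : G), ∃ K : Subgroup G, GoodK K ∧ (K : Set G) ⊆ U) {U : ℕ → Set G}
    (hU : ∀ n, U n ∈ 𝓝 (1 : G)) : ∃ K : ℕ → Subgroup G, SeqG K ∧ ∀ n, (K n : Set G) ⊆ U n := by
  choose K₀ hg hs using fun n => hGY (U n) (hU n)
  let K' : ℕ → Subgroup G := fun n => Nat.rec (K₀ 0) (fun m H => H ⊓ K₀ (m + 1)) n
  have h0 : K' 0 = K₀ 0 := rfl
  have hsucc : ∀ n, K' (n + 1) = K' n ⊓ K₀ (n + 1) := fun _ => rfl
  refine ⟨K', ⟨fun n => ?_, antitone_nat_of_succ_le (fun n => ?_)⟩, fun n => ?_⟩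
  · induction n with
    | zero => exact hg 0
    | succ n ih => rw [hsucc]; exact goodK_inf ih (hg _)
  · rw [hsucc]; exact inf_le_left
  · cases n with
    | zero => exact hs 0
    | succ n =>
      rw [hsucc]
      exact fun x hx => hs (n + 1) hx.2

end Pool.Agent.GY
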