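import Pool.Agent.GY.IdComp
import Pool.Agent.GY.SeqK
import Pool.Agent.GY.Cent

/-!
# GY.CaseB1 (diff 2): case (b), all compact central subgroups are NSS; the sequence `K n`

* `b1_start`: take any `K₀` good (`hGY` with `U = univ`).  `C = K₀ ⊓ center G` is compact (`center` is closed: T2) and central: NSS: a neighbourhood of `1` in `↥C` without nontrivial subgroups, the trace of `V ∈ 𝓝 (1 : G)`.  `K'` good inside `V`, `K₁ = K₀ ⊓ K'` (`goodK_inf`): `K₁ ⊓ center G ≤ C` is inside `V`: trivial.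
* `b1_triv`: `N` normal compact, `N ≤ K₁` with `K₁ ⊓ center G = ⊥`.  If `N` is abelian (`ab_central`) or totally disconnected (`td_central`), then `N = ⊥`.
* `b1_seq`: `G` not NSS.  Recursion: `K 0 = K₁`; given `K n ≤ K₁` good: `idc (K n) ≠ ⊥`, otherwise `K n` is totally disconnected (`idc_td`), so `K n = ⊥` (`b1_triv`) and `G` is NSS (`goodK_bot`).  Take `x ∈ idc (K n)`, `x ≠ 1`, `K'` good inside `{x}ᶜ`, `K (n+1) = K n ⊓ K'`:
  `x ∉ idc (K (n+1))`.  (Recursion on the subtype of the good subgroups `≤ K₁`.)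
-/

open Topology Filter Set
open scoped Pointwise

namespace Pool.Agent.GY

variable {G : Type*} [Group G] [TopologicalSpace G] [IsTopologicalGroup G] [T2Space G]

theorem b1_start (hGY : ∀ U ∈ 𝓝 (1 : G), ∃ K : Subgroup G, GoodK K ∧ (K : Set G) ⊆ U)
    (h : ∀ C : Subgroup G, IsCompact (C : Set G) → C ≤ Subgroup.center G → NSS C) :
    ∃ K : Subgroup G, GoodK K ∧ K ⊓ Subgroup.center G = ⊥ := by
  obtain ⟨K₀, hK₀, _⟩ := hGY Set.univ Filter.univ_mem
  have hcl : IsClosed ((Subgroup.center G : Subgroup G) : Set G) := by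
    have h1 : ((Subgroup.center G : Subgroup G) : Set G) = ⋂ g : G, {z : G | g * z = z * g} := by
      ext z
      simp only [SetLike.mem_coe, Subgroup.mem_center_iff, Set.mem_iInter, Set.mem_setOf_eq]
    rw [h1]
    exact isClosed_iInter (fun g => isClosed_eq (continuous_const.mul continuous_id)
      (continuous_id.mul continuous_const))
  obtain ⟨C, hCdef⟩ : ∃ C : Subgroup G, C = K₀ ⊓ Subgroup.center G := ⟨_, rfl⟩
  have hCc : IsCompact (C : Set G) := by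
    rw [hCdef, Subgroup.coe_inf]
    exact hK₀.compact.inter_right hcl
  obtain ⟨U, hU, hUL⟩ := h C hCc (by rw [hCdef]; exact inf_le_right)
  obtain ⟨V, hV, hVU⟩ := (mem_nhds_subtype (C : Set G) (1 : C) U).mp hU
  obtain ⟨K', hK', hK'V⟩ := hGY V hV
  refine ⟨K₀ ⊓ K', goodK_inf hK₀ hK', ?_⟩
  rw [eq_bot_iff]
  intro x hx
  have hx1 : x ∈ K₀ := hx.1.1
  have hx2 : x ∈ Subgroup.center G := hx.2
  have hxC : x ∈ C := by rw [hCdef]; exact ⟨hx1, hx2⟩
  have hL := hUL ((K₀ ⊓ K' ⊓ Subgroup.center G).subgroupOf C) (by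
    intro y hy
    have hy' : (y : G) ∈ K₀ ⊓ K' ⊓ Subgroup.center G := hy
    exact hVU (hK'V hy'.1.2))
  have hx3 : (⟨x, hxC⟩ : C) ∈ (K₀ ⊓ K' ⊓ Subgroup.center G).subgroupOf C := hx
  rw [hL, Subgroup.mem_bot] at hx3
  rw [Subgroup.mem_bot]
  exact congrArg Subtype.val hx3

variable [ConnectedSpace G]

theorem b1_ab {K N : Subgroup G} (hK : K ⊓ Subgroup.center G = ⊥) (hN : N.Normal)
    (hc : IsCompact (N : Set G)) (hNK : N ≤ K) (hab : ∀ x ∈ N, ∀ y ∈ N, x * y = y * x) :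
    N = ⊥ := by
  have h1 := ab_central hN hc hab
  rw [eq_bot_iff, ← hK]
  exact le_inf hNK h1

theorem b1_td {K N : Subgroup G} (hK : K ⊓ Subgroup.center G = ⊥) (hN : N.Normal)
    (hNK : N ≤ K) (htd : IsTotallyDisconnected (N : Set G)) : N = ⊥ := by
  have h1 := td_central hN htd
  rw [eq_bot_iff, ← hK]
  exact le_inf hNK h1

theorem b1_seq (hGY : ∀ U ∈ 𝓝 (1 : G), ∃ K : Subgroup G, GoodK K ∧ (K : Set G) ⊆ U)
    (h : ∀ C : Subgroup G, IsCompact (C : Set G) → C ≤ Subgroup.center G → NSS C)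
    (hG : ¬ NSS G) :
    ∃ K : ℕ → Subgroup G, SeqG K ∧ K 0 ⊓ Subgroup.center G = ⊥ ∧
      ∀ n, ¬ idc (K n) ≤ idc (K (n + 1)) := by
  obtain ⟨K₁, hK₁, hKc⟩ := b1_start hGY h
  have step : ∀ K : {K : Subgroup G // GoodK K ∧ K ≤ K₁},
      ∃ K' : {K : Subgroup G // GoodK K ∧ K ≤ K₁}, K'.1 ≤ K.1 ∧ ¬ idc K.1 ≤ idc K'.1 := by
    rintro ⟨K, hK, hKK⟩
    have hne : idc K ≠ ⊥ := by
      intro he
      have h1 := b1_td hKc hK.normal hKK (idc_td he)
      rw [h1] at hK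
      exact hG (goodK_bot.mp hK)
    obtain ⟨x, hx, hx1⟩ := (Subgroup.bot_or_exists_ne_one (idc K)).resolve_left hne
    obtain ⟨K', hK', hK'x⟩ := hGY {x}ᶜ (isOpen_compl_singleton.mem_nhds (fun he => hx1 he.symm))
    refine ⟨⟨K ⊓ K', goodK_inf hK hK', le_trans inf_le_left hKK⟩, inf_le_left, ?_⟩
    intro hle
    have h2 : x ∈ K ⊓ K' := idc_le _ (hle hx)
    exact hK'x h2.2 rfl
  choose f hf1 hf2 using step
  let F : ℕ → {K : Subgroup G // GoodK K ∧ K ≤ K₁} := fun n =>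
    Nat.rec ⟨K₁, hK₁, le_rfl⟩ (fun _ K => f K) n
  refine ⟨fun n => (F n).1, ⟨fun n => (F n).2.1, ?_⟩, hKc, fun n => hf2 (F n)⟩
  exact antitone_nat_of_succ_le (fun n => hf1 (F n))

end Pool.Agent.GY
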