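import Pool.Agent.GY.StarG
import Pool.Agent.GY.CaseB1

/-!
# GY.CaseB3 (diff 2): case (b), the subgroup `Q`

`M = ⨅ n, K n`, `P = idc (K 0)` (compact connected normal), `R = idc M ≤ P`.  `Q = P ⊓ Subgroup.centralizer (R : Set G)`: normal (the centralizer of a normal subgroup is normal), compact (the centralizer is closed).
* (star) for `c ∈ P` there is `r ∈ R` with `r⁻¹ c` commuting with all `x ∈ R`: `star_gen` in the compact connected group `↥P` with the subgroup `R.subgroupOf P`.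
* `Q ⊓ M = ⊥`: `E = idc (Q ⊓ M)` is a connected subgroup of `M`, so `E ≤ R` (`le_idc`), and `E ≤ Q` centralizes `R`: `E` is abelian, compact, normal (`idc_normal`), `E ≤ K 0`: `E = ⊥` (`b1_ab`).  So `Q ⊓ M` is totally disconnected (`idc_td`), normal, `≤ K 0`: `⊥` (`b1_td`).
* `Q ⊓ idc (K n) ≠ ⊥`: otherwise `idc (K n) ≤ R`: for `c ∈ idc (K n) ≤ P` (antitone) take `r` from (star); `z = r⁻¹ c ∈ Q` and `z ∈ idc (K n)` (`R ≤ idc (K n)` by `idc_mono`), so `z = 1` and `c = r ∈ R ≤ idc (K (n+1))`: contradiction.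
* `Q` is not abelian: otherwise `Q = ⊥` (`b1_ab`, `Q ≤ P ≤ K 0`), but `Q ⊓ idc (K 0) ≠ ⊥`.
-/

open Topology Filter Set
open scoped Pointwise

namespace Pool.Agent.GY

theorem case_b3 {G : Type*} [Group G] [TopologicalSpace G] [IsTopologicalGroup G] [T2Space G]
    [ConnectedSpace G] {K : ℕ → Subgroup G} (hK : SeqG K)
    (hcen : K 0 ⊓ Subgroup.center G = ⊥) (hst : ∀ n, ¬ idc (K n) ≤ idc (K (n + 1))) :
    ∃ Q : Subgroup G, Q.Normal ∧ IsCompact (Q : Set G) ∧ Q ≤ idc (K 0) ∧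
      Q ⊓ (⨅ n, K n) = ⊥ ∧ (∀ n, Q ⊓ idc (K n) ≠ ⊥) ∧ ∃ x ∈ Q, ∃ y ∈ Q, x * y ≠ y * x := by
  set M : Subgroup G := ⨅ n, K n with hMdef
  have hMn : M.Normal := hK.normal
  have hMc : IsCompact (M : Set G) := hK.compact
  have hRn : (idc M).Normal := idc_normal hMn
  have hRc : IsCompact (idc M : Set G) := idc_compact hMc
  have hRconn : IsConnected (idc M : Set G) := idc_conn M
  have hPn : (idc (K 0)).Normal := idc_normal (hK.good 0).normal
  have hPc : IsCompact (idc (K 0) : Set G) := idc_compact (hK.good 0).compact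
  have hPconn : IsConnected (idc (K 0) : Set G) := idc_conn (K 0)
  have hMK : ∀ n, M ≤ K n := fun n => iInf_le _ n
  have hRK : ∀ n, idc M ≤ idc (K n) := fun n => idc_mono (hMK n)
  have hPK : idc (K 0) ≤ K 0 := idc_le _
  -- (star)
  have hstar : ∀ c ∈ idc (K 0), ∃ r ∈ idc M, ∀ x ∈ idc M, (r⁻¹ * c) * x = x * (r⁻¹ * c) := by
    intro c hc
    have : CompactSpace (idc (K 0)) := isCompact_iff_compactSpace.1 hPc
    have : ConnectedSpace (idc (K 0)) := isConnected_iff_connectedSpace.1 hPconn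
    have h1 : ((idc M).subgroupOf (idc (K 0))).Normal := inferInstance
    have h2 : IsClosed (((idc M).subgroupOf (idc (K 0)) : Subgroup (idc (K 0))) :
        Set (idc (K 0))) := hRc.isClosed.preimage continuous_subtype_val
    have h3 : IsConnected (((idc M).subgroupOf (idc (K 0)) : Subgroup (idc (K 0))) :
        Set (idc (K 0))) := by
      refine ⟨⟨1, Subgroup.one_mem _⟩, ?_⟩
      refine (Topology.IsInducing.subtypeVal.isPreconnected_image).1 ?_
      convert hRconn.isPreconnected using 1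
      ext x
      constructor
      · rintro ⟨y, hy, rfl⟩
        exact hy
      · intro hx
        exact ⟨⟨x, hRK 0 hx⟩, hx, rfl⟩
    obtain ⟨r, hr, hr'⟩ := star_gen h1 h2 h3 ⟨c, hc⟩
    refine ⟨r, hr, fun x hx => ?_⟩
    have := hr' ⟨x, hRK 0 hx⟩ hx
    exact congrArg Subtype.val this
  -- the centralizer
  set Z : Subgroup G := Subgroup.centralizer (idc M : Set G) with hZ
  have hZmem : ∀ g, g ∈ Z ↔ ∀ h ∈ idc M, h * g = g * h := by
    intro g
    rw [hZ, Subgroup.mem_centralizer_iff]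
    rfl
  have hZn : Z.Normal := by
    refine ⟨fun z hz g => ?_⟩
    rw [hZmem] at hz ⊢
    intro h hh
    have h1 := hz (g⁻¹ * h * g) (by
      have := hRn.conj_mem h hh g⁻¹
      rwa [inv_inv] at this)
    calc h * (g * z * g⁻¹) = g * ((g⁻¹ * h * g) * z) * g⁻¹ := by group
      _ = g * (z * (g⁻¹ * h * g)) * g⁻¹ := by rw [h1]
      _ = g * z * g⁻¹ * h := by group
  have hZcl : IsClosed (Z : Set G) := by
    have : (Z : Set G) = ⋂ h ∈ (idc M : Set G), {g | h * g = g * h} := by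
      ext g
      simp only [SetLike.mem_coe, hZmem, mem_iInter, Set.mem_ofPred_eq]
    rw [this]
    exact isClosed_biInter fun h _ => isClosed_eq (by fun_prop) (by fun_prop)
  have hQn : (idc (K 0) ⊓ Z).Normal := Subgroup.normal_inf_normal _ _
  have hQc : IsCompact ((idc (K 0) ⊓ Z : Subgroup G) : Set G) := hPc.inter_right hZcl
  have hQP : idc (K 0) ⊓ Z ≤ idc (K 0) := inf_le_left
  -- each Q ⊓ idc (K n) is nontrivial
  have hne : ∀ n, (idc (K 0) ⊓ Z) ⊓ idc (K n) ≠ ⊥ := by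
    intro n hbot
    apply hst n
    intro c hc
    have hcP : c ∈ idc (K 0) := idc_mono (hK.anti (Nat.zero_le n)) hc
    obtain ⟨r, hr, hr'⟩ := hstar c hcP
    have hz : r⁻¹ * c ∈ (idc (K 0) ⊓ Z) ⊓ idc (K n) := by
      refine Subgroup.mem_inf.2 ⟨Subgroup.mem_inf.2 ⟨mul_mem (inv_mem (hRK 0 hr)) hcP, ?_⟩,
        mul_mem (inv_mem (hRK n hr)) hc⟩
      rw [hZmem]
      intro h hh
      exact (hr' h hh).symm
    rw [hbot, Subgroup.mem_bot] at hz
    have : c = r := by
      rw [inv_mul_eq_one] at hz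
      exact hz.symm
    rw [this]
    exact hRK (n + 1) hr
  have hQM : (idc (K 0) ⊓ Z) ⊓ M = ⊥ := by
    have hn : ((idc (K 0) ⊓ Z) ⊓ M).Normal := Subgroup.normal_inf_normal _ _
    have hc : IsCompact (((idc (K 0) ⊓ Z) ⊓ M : Subgroup G) : Set G) :=
      hQc.inter_right hMc.isClosed
    have hE : idc ((idc (K 0) ⊓ Z) ⊓ M) = ⊥ := by
      refine b1_ab hcen (idc_normal hn) (idc_compact hc)
        ((idc_le _).trans (inf_le_right.trans (hMK 0))) ?_
      intro x hx y hy
      have hxR : x ∈ idc M := by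
        refine le_idc ((idc_le _).trans inf_le_right) (idc_conn _).isPreconnected hx
      have hyZ : y ∈ Z := ((idc_le _ hy).1).2
      exact (hZmem y).1 hyZ x hxR
    exact b1_td hcen hn (inf_le_right.trans (hMK 0)) (idc_td hE)
  refine ⟨idc (K 0) ⊓ Z, hQn, hQc, hQP, hQM, hne, ?_⟩
  by_contra hcon
  push Not at hcon
  have : idc (K 0) ⊓ Z = ⊥ := b1_ab hcen hQn hQc (hQP.trans hPK) hcon
  apply hne 0
  rw [this, bot_inf_eq]

end Pool.Agent.GY
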