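import Pool.Agent.GY.Wq
import Pool.Agent.GY.SeqK
import Pool.Agent.GY.BaireD

/-!
# GY.DenseP (diff 2): dense subgroups avoiding a closed saturated set

`M = ⨅ n, K n` is a compact normal subgroup; `X = G ⧸ M` is a locally compact Hausdorff second countable group (`seq_sec`).  `A' = mk '' A` is closed (`mk ⁻¹' A' = A` as `A` is saturated; `mk` is a quotient map).
For `w`: if `∀ x, lift x w ∈ M`, then `w` is a law of `X` (`lift_mk`, surjectivity of `mk`).  Otherwise `{y : Fin k → X | lift y w ∈ A'}` has empty interior: the preimage of its interior under the continuous surjective map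
`(Fin k → G) → (Fin k → X)` is an open subset of `{x | lift x w ∈ A}`.
`baire_dense` gives `H' ≤ X`; `H = H'.comap (QuotientGroup.mk' M)` is dense (`Dense.preimage` for the open map `mk`), and `x ∈ H`, `x ∈ A` gives `mk x = 1`.
-/

open Topology Filter Set
open scoped Pointwise

namespace Pool.Agent.GY

theorem dense_pull {G : Type*} [Group G] [TopologicalSpace G] [IsTopologicalGroup G]
    [LocallyCompactSpace G] [T2Space G] [ConnectedSpace G] {K : ℕ → Subgroup G} (hK : SeqG K)
    {A : Set G} (hA : IsClosed A) (hs : ∀ a ∈ A, ∀ m ∈ (⨅ n, K n : Subgroup G), a * m ∈ A)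
    (h : ∀ k : ℕ, ∀ w : FreeGroup (Fin k),
      (∀ x : Fin k → G, FreeGroup.lift x w ∈ (⨅ n, K n : Subgroup G)) ∨
      interior {x : Fin k → G | FreeGroup.lift x w ∈ A} = ∅) :
    ∃ H : Subgroup G, Dense (H : Set G) ∧ ∀ x ∈ H, x ∈ A → x ∈ (⨅ n, K n : Subgroup G) := by
  obtain ⟨M, hM⟩ : ∃ M : Subgroup G, M = ⨅ n, K n := ⟨_, rfl⟩
  have hn : (⨅ n, K n).Normal := hK.normal
  have hcpt := hK.compact
  have hsec := seq_sec hK
  rw [← hM] at hs h ⊢
  have hnM : M.Normal := by rw [hM]; exact hn
  have hMcl : IsClosed (M : Set G) := by rw [hM]; exact hcpt.isClosed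
  have hsecM : SecondCountableTopology (G ⧸ M) := by
    subst hM
    exact hsec
  have hpre : (QuotientGroup.mk : G → G ⧸ M) ⁻¹' ((QuotientGroup.mk : G → G ⧸ M) '' A) = A := by
    ext x
    constructor
    · rintro ⟨a, ha, hax⟩
      have h1 : a⁻¹ * x ∈ M := QuotientGroup.eq.mp hax
      have h2 := hs a ha _ h1
      rwa [mul_inv_cancel_left] at h2
    · intro hx
      exact ⟨x, hx, rfl⟩
  have hA' : IsClosed ((QuotientGroup.mk : G → G ⧸ M) '' A) := by
    have hq : Topology.IsQuotientMap (QuotientGroup.mk : G → G ⧸ M) := isQuotientMap_quotient_mk'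
    rw [← hq.isClosed_preimage, hpre]
    exact hA
  have hφs : ∀ (k : ℕ) (y : Fin k → G ⧸ M), ∃ x : Fin k → G, (fun i => (x i : G ⧸ M)) = y := by
    intro k y
    refine ⟨fun i => (y i).out, ?_⟩
    funext i
    exact QuotientGroup.out_eq' (y i)
  obtain ⟨H', hH'd, hH'⟩ := baire_dense hA' (by
    intro k w
    rcases h k w with h1 | h1
    · left
      intro y
      obtain ⟨x, rfl⟩ := hφs k y
      rw [← lift_mk]
      exact (QuotientGroup.eq_one_iff _).mpr (h1 x)
    · right
      have hφc : Continuous (fun (x : Fin k → G) (i : Fin k) => (x i : G ⧸ M)) :=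
        continuous_pi (fun i => QuotientGroup.continuous_mk.comp (continuous_apply i))
      rw [Set.eq_empty_iff_forall_notMem]
      intro y hy
      obtain ⟨x, rfl⟩ := hφs k y
      have h2 : (fun (x : Fin k → G) (i : Fin k) => (x i : G ⧸ M)) ⁻¹'
          (interior {y : Fin k → G ⧸ M | FreeGroup.lift y w ∈
            (QuotientGroup.mk : G → G ⧸ M) '' A}) ⊆
          interior {x : Fin k → G | FreeGroup.lift x w ∈ A} := by
        refine interior_maximal ?_ (isOpen_interior.preimage hφc)
        intro x hx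
        have h0 : (fun i => (x i : G ⧸ M)) ∈ interior {y : Fin k → G ⧸ M |
          FreeGroup.lift y w ∈ (QuotientGroup.mk : G → G ⧸ M) '' A} := hx
        have h3 : FreeGroup.lift (fun i => (x i : G ⧸ M)) w ∈
          (QuotientGroup.mk : G → G ⧸ M) '' A := by
          have h00 := interior_subset h0
          exact h00
        rw [← lift_mk] at h3
        have h4 : FreeGroup.lift x w ∈ (QuotientGroup.mk : G → G ⧸ M) ⁻¹'
          ((QuotientGroup.mk : G → G ⧸ M) '' A) := h3
        rw [hpre] at h4
        exact h4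
      rw [h1] at h2
      exact h2 hy)
  refine ⟨H'.comap (QuotientGroup.mk' M), ?_, ?_⟩
  · exact hH'd.preimage QuotientGroup.isOpenMap_coe
  · intro x hx hxA
    have h1 := hH' (x : G ⧸ M) hx ⟨x, hxA, rfl⟩
    exact (QuotientGroup.eq_one_iff x).mp h1

end Pool.Agent.GY
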