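import Pool.Agent.GY.GoodQ

/-!
# GY.IdComp (diff 2): the identity component of a subgroup

* `conn_inter`: a decreasing sequence of compact preconnected sets in a Hausdorff space has a preconnected intersection.  Suppose the intersection `S` is contained in two open sets... Use: `S` compact; if `S = A ∪ B` with `A, B` disjoint, closed in `S` (so compact), nonempty, there are disjoint open sets `U ⊇ A`, `V ⊇ B` (`SeparatedNhds`), and
  `C n ⊆ U ∪ V` for some `n` (`IsCompact.nonempty_iInter...` / `exists_subset_nhds_of_isCompact`), `C n` meets both (`C n ⊇ S`): contradiction with `isPreconnected_iff_subset_of_disjoint` (check the form in Mathlib: `isPreconnected_iff_subset_of_disjoint_closed`, `isPreconnected_closed_iff`).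
* `idc K` is the image of the connected component of `1` in `↥K` (`Subgroup.connectedComponentOfOne`), which is closed in `↥K`, and a connected set.
* `le_idc`: a preconnected subgroup `L ≤ K`: as a subset of `↥K` it is preconnected (`Topology.IsInducing.isPreconnected_image`) and contains `1`: `IsPreconnected.subset_connectedComponent`.
* `idc_normal`: for `g`, conjugation by `g` maps `idc K` to a connected subgroup of `K` (`K` normal): `le_idc`.
* `idc_td`: if `idc K = ⊥`, then a preconnected `S ⊆ K` with `x, y ∈ S`: `x⁻¹ S` is preconnected, in `K`, contains `1`, so it is inside `idc K` (the connected component of `1` in `↥K`): `x⁻¹ y = 1`.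
* `idc_inf`: `≤`: `⨅ idc (K n)` is a subgroup of `⨅ K n`, preconnected by `conn_inter`: `le_idc`.  `≥`: monotone.
-/

open Topology Filter Set
open scoped Pointwise

namespace Pool.Agent.GY

theorem conn_inter {X : Type*} [TopologicalSpace X] [T2Space X] {C : ℕ → Set X}
    (hc : ∀ n, IsCompact (C n)) (hp : ∀ n, IsPreconnected (C n)) (ha : Antitone C) :
    IsPreconnected (⋂ n, C n) := by
  have hS : IsCompact (⋂ n, C n) :=
    (hc 0).of_isClosed_subset (isClosed_iInter fun n => (hc n).isClosed) (iInter_subset _ 0)
  rw [isPreconnected_iff_subset_of_disjoint_closed]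
  intro u v hu hv hsub hdisj
  have hA : IsCompact ((⋂ n, C n) ∩ u) := hS.inter_right hu
  have hB : IsCompact ((⋂ n, C n) ∩ v) := hS.inter_right hv
  have hAB : Disjoint ((⋂ n, C n) ∩ u) ((⋂ n, C n) ∩ v) := by
    rw [Set.disjoint_iff]
    rintro x ⟨⟨hx, hxu⟩, _, hxv⟩
    have : x ∈ (⋂ n, C n) ∩ (u ∩ v) := ⟨hx, hxu, hxv⟩
    rwa [hdisj] at this
  obtain ⟨U, V, hU, hV, hAU, hBV, hUV⟩ := SeparatedNhds.of_isCompact_isCompact hA hB hAB
  have hcov : ∀ x ∈ ⋂ n, C n, U ∪ V ∈ 𝓝 x := by
    intro x hx
    apply (hU.union hV).mem_nhds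
    rcases hsub hx with h | h
    · exact Or.inl (hAU ⟨hx, h⟩)
    · exact Or.inr (hBV ⟨hx, h⟩)
  obtain ⟨n, hn⟩ := exists_subset_nhds_of_isCompact' (V := C)
    (directed_of_isDirected_le fun i j hij => ha hij) hc (fun i => (hc i).isClosed) hcov
  have h1 := (isPreconnected_iff_subset_of_disjoint.1 (hp n)) U V hU hV hn (by
    rw [Set.eq_empty_iff_forall_notMem]
    rintro x ⟨_, hxU, hxV⟩
    exact Set.disjoint_left.1 hUV hxU hxV)
  rcases h1 with h1 | h1
  · left
    intro x hx
    rcases hsub hx with h | h
    · exact h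
    · exact absurd (hBV ⟨hx, h⟩) (Set.disjoint_left.1 hUV (h1 (mem_iInter.1 hx n)))
  · right
    intro x hx
    rcases hsub hx with h | h
    · exact absurd (h1 (mem_iInter.1 hx n)) (Set.disjoint_left.1 hUV (hAU ⟨hx, h⟩))
    · exact h

variable {G : Type*} [Group G] [TopologicalSpace G] [IsTopologicalGroup G]

/-- the identity component of a subgroup, as a subgroup of `G` -/
def idc (K : Subgroup G) : Subgroup G := (Subgroup.connectedComponentOfOne K).map K.subtype

theorem idc_le (K : Subgroup G) : idc K ≤ K := Subgroup.map_subtype_le _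

theorem idc_conn (K : Subgroup G) : IsConnected (idc K : Set G) := by
  have h : (idc K : Set G) = Subtype.val '' (connectedComponent (1 : K)) := rfl
  rw [h]
  exact isConnected_connectedComponent.image _ continuous_subtype_val.continuousOn

private theorem IdComp_sub {K : Subgroup G} {T : Set G} (h : T ⊆ K) (hT : IsPreconnected T)
    (h1 : (1 : G) ∈ T) : T ⊆ (idc K : Set G) := by
  have e : (Subtype.val : K → G) '' ((Subtype.val : K → G) ⁻¹' T) = T := by
    ext x
    constructor
    · rintro ⟨y, hy, rfl⟩
      exact hy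
    · intro hx
      exact ⟨⟨x, h hx⟩, hx, rfl⟩
  have h2 : IsPreconnected ((Subtype.val : K → G) ⁻¹' T) := by
    refine (Topology.IsInducing.isPreconnected_image
      (f := (Subtype.val : K → G)) Topology.IsInducing.subtypeVal).1 ?_
    rw [e]
    exact hT
  have h3 : ((Subtype.val : K → G) ⁻¹' T) ⊆ connectedComponent (1 : K) :=
    h2.subset_connectedComponent h1
  intro x hx
  exact ⟨⟨x, h hx⟩, h3 hx, rfl⟩

theorem le_idc {K L : Subgroup G} (h : L ≤ K) (hL : IsPreconnected (L : Set G)) : L ≤ idc K :=
  IdComp_sub h hL L.one_mem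

theorem idc_mono {K L : Subgroup G} (h : L ≤ K) : idc L ≤ idc K :=
  le_idc ((idc_le L).trans h) (idc_conn L).isPreconnected

theorem idc_normal {K : Subgroup G} (hK : K.Normal) : (idc K).Normal := by
  refine ⟨fun n hn g => ?_⟩
  have h1 : (idc K).map (MulAut.conj g).toMonoidHom ≤ idc K := by
    apply le_idc
    · rintro _ ⟨x, hx, rfl⟩
      exact hK.conj_mem x (idc_le K hx) g
    · have e : (((idc K).map (MulAut.conj g).toMonoidHom : Subgroup G) : Set G) =
          (fun x => g * x * g⁻¹) '' (idc K : Set G) := by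
        rw [Subgroup.coe_map]
        rfl
      rw [e]
      exact (idc_conn K).isPreconnected.image _ (by fun_prop)
  exact h1 ⟨n, hn, rfl⟩

theorem idc_compact {K : Subgroup G} (hK : IsCompact (K : Set G)) :
    IsCompact (idc K : Set G) := by
  have : CompactSpace K := isCompact_iff_compactSpace.1 hK
  have h : (idc K : Set G) = Subtype.val '' (connectedComponent (1 : K)) := rfl
  rw [h]
  exact (isClosed_connectedComponent.isCompact).image continuous_subtype_val

theorem idc_td {K : Subgroup G} (h : idc K = ⊥) : IsTotallyDisconnected (K : Set G) := by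
  intro S hSK hS x hx y hy
  have h1 : IsPreconnected ((fun z => x⁻¹ * z) '' S) := hS.image _ (by fun_prop)
  have h2 : ((fun z => x⁻¹ * z) '' S) ⊆ (K : Set G) := by
    rintro _ ⟨z, hz, rfl⟩
    exact K.mul_mem (K.inv_mem (hSK hx)) (hSK hz)
  have h3 := IdComp_sub h2 h1 ⟨x, hx, inv_mul_cancel x⟩ ⟨y, hy, rfl⟩
  rw [h] at h3
  have h4 : x⁻¹ * y = 1 := h3
  exact inv_mul_eq_one.1 h4

theorem idc_inf [T2Space G] {K : ℕ → Subgroup G} (ha : Antitone K)
    (hK : ∀ n, IsCompact (K n : Set G)) : (⨅ n, idc (K n)) = idc (⨅ n, K n) := by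
  apply le_antisymm
  · apply le_idc
    · exact iInf_mono fun n => idc_le (K n)
    · rw [Subgroup.coe_iInf]
      exact conn_inter (fun n => idc_compact (hK n)) (fun n => (idc_conn (K n)).isPreconnected)
        (fun i j hij => idc_mono (ha hij))
  · exact le_iInf fun n => idc_mono (iInf_le K n)

end Pool.Agent.GY
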