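import Pool.Agent.GY.NoLaw
import Pool.Agent.GY.DenseP
import Pool.Agent.GY.Crit
import Pool.Agent.GY.IdComp

/-!
# GY.CaseB4 (diff 2): case (b), conclusion

`M = ⨅ n, K n`.  `x, y ∈ Q` with `c = x y x⁻¹ y⁻¹ ≠ 1`, `c ∈ Q`, so `c ∉ M`: there is `m` with `c ∉ K m`.  `A = K m`, closed, saturated (`M ≤ K m`).
* Let `w : FreeGroup (Fin k)`.  If `w = 1`, the first alternative of `dense_pull` holds.  Let `w ≠ 1` and suppose `{x | lift x w ∈ K m}` has nonempty interior: `word_quot` (`F = {1}`, `F₀ = {1}`) gives `lift x w ∈ K m` for all `x`.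
  `X = G ⧸ K m`, `P' = (idc (K 0)).map (mk' (K m))`: a compact connected subgroup (as a group `↥P'`: compact, Hausdorff, connected), not commutative (`mk x`, `mk y`; `c ∉ K m`; `Q ≤ idc (K 0)`).  `no_law` gives `u : Fin k → ↥P'` with `lift u w ≠ 1`; lift the `u i` to elements `x i ∈ G`: `lift x w ∉ K m` (`lift_hom`, `lift_mk`): contradiction.
* `dense_pull`: `H` dense with `H ∩ K m ⊆ M`.
* `crit`: `V ∈ 𝓝 1`.  The compact sets `Q ⊓ idc (K n)` decrease, their intersection is `≤ Q ⊓ M = ⊥`, so `Q ⊓ idc (K n) ⊆ interior V` for some `n`, and we may take `n ≥ m`.  `N = Q ⊓ idc (K n)`: normal (`idc_normal`), closed, `≠ ⊥`; `N ⊓ H`: an element is in `Q`, `H` and `K n ≤ K m`, so in `M ⊓ Q = ⊥`.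
-/

open Topology Filter Set
open scoped Pointwise

namespace Pool.Agent.GY

private theorem CaseB4_nolaw {G : Type*} [Group G] [TopologicalSpace G] [IsTopologicalGroup G]
    [T2Space G] {P L : Subgroup G} [hLn : L.Normal] (hL : IsClosed (L : Set G))
    (hPc : IsCompact (P : Set G)) (hPconn : IsConnected (P : Set G))
    (hna : ∃ x ∈ P, ∃ y ∈ P, x * y * x⁻¹ * y⁻¹ ∉ L) {k : ℕ} {w : FreeGroup (Fin k)}
    (hw : w ≠ 1) (h : ∀ x : Fin k → G, FreeGroup.lift x w ∈ L) : False := by
  have hcont : Continuous (QuotientGroup.mk' L : G → G ⧸ L) := continuous_quotient_mk'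
  have hclL : IsClosed (L : Set G) := hL
  have hT : T2Space (G ⧸ L) := by
    have : IsClosed (L : Set G) := hL
    infer_instance
  set P' : Subgroup (G ⧸ L) := P.map (QuotientGroup.mk' L) with hP'
  have hset : (P' : Set (G ⧸ L)) = (QuotientGroup.mk' L) '' (P : Set G) := by
    rw [hP']; rfl
  have hc : CompactSpace P' := by
    apply isCompact_iff_compactSpace.1
    rw [hset]
    exact hPc.image hcont
  have hconn : ConnectedSpace P' := by
    apply isConnected_iff_connectedSpace.1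
    rw [hset]
    exact hPconn.image _ hcont.continuousOn
  have hT' : T2Space P' := inferInstance
  obtain ⟨x, hx, y, hy, hxy⟩ := hna
  have hna' : ∃ x y : P', x * y ≠ y * x := by
    refine ⟨⟨QuotientGroup.mk' L x, ⟨x, hx, rfl⟩⟩, ⟨QuotientGroup.mk' L y, ⟨y, hy, rfl⟩⟩, ?_⟩
    intro heq
    apply hxy
    have h1 : QuotientGroup.mk' L x * QuotientGroup.mk' L y =
        QuotientGroup.mk' L y * QuotientGroup.mk' L x := congrArg Subtype.val heq
    rw [← QuotientGroup.eq_one_iff]
    show QuotientGroup.mk' L (x * y * x⁻¹ * y⁻¹) = 1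
    rw [map_mul, map_mul, map_mul, map_inv, map_inv, h1]
    group
  obtain ⟨u, hu⟩ := no_law hna' w hw
  have hex : ∀ i, ∃ g : G, QuotientGroup.mk' L g = (u i : G ⧸ L) := by
    intro i
    obtain ⟨g, -, hg⟩ := (u i).2
    exact ⟨g, hg⟩
  choose g hg using hex
  apply hu
  have h1 := h g
  rw [← QuotientGroup.eq_one_iff, lift_mk] at h1
  have h2 := lift_hom P'.subtype w u
  have h3 : (fun i => P'.subtype (u i)) = fun i => (g i : G ⧸ L) := by
    funext i
    exact (hg i).symm
  rw [h3, h1] at h2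
  exact Subtype.ext h2

theorem case_b4 {G : Type*} [Group G] [TopologicalSpace G] [IsTopologicalGroup G]
    [LocallyCompactSpace G] [T2Space G] [ConnectedSpace G] {K : ℕ → Subgroup G} (hK : SeqG K)
    {Q : Subgroup G} (hQ : Q.Normal) (hc : IsCompact (Q : Set G)) (hle : Q ≤ idc (K 0))
    (hM : Q ⊓ (⨅ n, K n) = ⊥) (hn : ∀ n, Q ⊓ idc (K n) ≠ ⊥)
    (hna : ∃ x ∈ Q, ∃ y ∈ Q, x * y ≠ y * x) :
    ∃ H : Subgroup G, Dense (H : Set G) ∧ ¬ LocallyMinimal H inferInstance := by
  obtain ⟨x, hx, y, hy, hxy⟩ := hna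
  have hcQ : x * y * x⁻¹ * y⁻¹ ∈ Q :=
    mul_mem (mul_mem (mul_mem hx hy) (inv_mem hx)) (inv_mem hy)
  have hc1 : x * y * x⁻¹ * y⁻¹ ≠ 1 := by
    intro h
    apply hxy
    calc x * y = (x * y * x⁻¹ * y⁻¹) * (y * x) := by group
      _ = y * x := by rw [h, one_mul]
  have hm : ∃ m, x * y * x⁻¹ * y⁻¹ ∉ K m := by
    by_contra hcon
    push Not at hcon
    have : x * y * x⁻¹ * y⁻¹ ∈ Q ⊓ (⨅ n, K n) :=
      Subgroup.mem_inf.2 ⟨hcQ, Subgroup.mem_iInf.2 hcon⟩
    rw [hM, Subgroup.mem_bot] at this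
    exact hc1 this
  obtain ⟨m, hm⟩ := hm
  have hMK : ∀ n, (⨅ n, K n) ≤ K n := fun n => iInf_le _ n
  have hclm : IsClosed (K m : Set G) := (hK.good m).compact.isClosed
  have hnm : (K m).Normal := (hK.good m).normal
  obtain ⟨H, hH, hHM⟩ := dense_pull hK (A := (K m : Set G)) hclm
    (fun a ha z hz => mul_mem (S := Subgroup G) ha (hMK m hz)) (by
      intro k w
      by_cases hw : w = 1
      · left
        intro x
        rw [hw, map_one]
        exact one_mem _
      · right
        by_contra hne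
        have hne' : (interior {x : Fin k → G | FreeGroup.lift x w ∈ (K m : Set G)}).Nonempty :=
          Set.nonempty_iff_ne_empty.2 hne
        have hall := word_quot (hK.good m) w (F := {1})
          ⟨{1}, Set.finite_singleton 1, by
            rintro z hz
            rw [Set.mem_singleton_iff] at hz
            exact ⟨1, rfl, 1, one_mem (K m), by simp [hz]⟩⟩
          isOpen_interior hne' (by
            intro z hz
            refine ⟨1, rfl, ?_⟩
            have := interior_subset hz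
            simpa using this)
        exact CaseB4_nolaw (P := idc (K 0)) hclm (idc_compact (hK.good 0).compact)
          (idc_conn (K 0)) ⟨x, hle hx, y, hle hy, hm⟩ hw hall)
  refine ⟨H, hH, crit hH ?_⟩
  intro V hV
  -- the sets Q ⊓ idc (K n) shrink to 1
  have hanti : ∀ i j, i ≤ j → Q ⊓ idc (K j) ≤ Q ⊓ idc (K i) := fun i j hij =>
    inf_le_inf_left _ (idc_mono (hK.anti hij))
  have hcpt : ∀ n, IsCompact ((Q ⊓ idc (K n) : Subgroup G) : Set G) := fun n =>
    hc.inter_right (idc_compact (hK.good n).compact).isClosed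
  obtain ⟨n, hnV⟩ := exists_subset_nhds_of_isCompact
    (V := fun n => ((Q ⊓ idc (K n) : Subgroup G) : Set G)) (U := V)
    (fun i j => ⟨max i j, hanti i _ (le_max_left _ _), hanti j _ (le_max_right _ _)⟩)
    hcpt (by
      intro z hz
      rw [Set.mem_iInter] at hz
      have hzQ : z ∈ Q := (Subgroup.mem_inf.1 (hz 0)).1
      have hzM : z ∈ (⨅ n, K n) := by
        rw [Subgroup.mem_iInf]
        intro n
        exact idc_le _ (Subgroup.mem_inf.1 (hz n)).2
      have : z ∈ Q ⊓ (⨅ n, K n) := Subgroup.mem_inf.2 ⟨hzQ, hzM⟩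
      rw [hM, Subgroup.mem_bot] at this
      rw [this]
      exact hV)
  refine ⟨Q ⊓ idc (K (max n m)), ?_, ?_, ?_, hn _, ?_⟩
  · have h1 : (idc (K (max n m))).Normal := idc_normal (hK.good _).normal
    exact Subgroup.normal_inf_normal _ _
  · exact (hcpt _).isClosed
  · exact fun z hz => hnV (hanti n _ (le_max_left _ _) hz)
  · rw [eq_bot_iff]
    intro z hz
    have hz1 := (Subgroup.mem_inf.1 hz).1
    have hzH := (Subgroup.mem_inf.1 hz).2
    have hzQ := (Subgroup.mem_inf.1 hz1).1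
    have hzK : z ∈ K m := hK.anti (le_max_right n m) (idc_le _ (Subgroup.mem_inf.1 hz1).2)
    have hzM := hHM z hzH hzK
    rw [← hM]
    exact Subgroup.mem_inf.2 ⟨hzQ, hzM⟩

end Pool.Agent.GY
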