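import Pool.Agent.GY.BchAll

/-!
# GY.ChartB (diff 2): the charts

`baseC`: `lg : ex '' ball 0 r1 → ball 0 r1` with inverse `ex` (`lg_ex`, `isOpen_ex`, `lg_cont`, `ex_cont`, `r1_le`).
`cht g x = eu (lg (g⁻¹ x))`, `(cht g).symm y = g ex (eu.symm y)`.
-/

open Topology Filter Set
open scoped Manifold ContDiff

namespace Pool.Agent.GY.Gl

variable {G E : Type*} [Group G] [TopologicalSpace G] [IsTopologicalGroup G]
  [NormedAddCommGroup E] [NormedSpace ℝ E] [CompleteSpace E] (S : Gl G E)

/-- the logarithm chart -/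
noncomputable def baseC : OpenPartialHomeomorph G S.T where
  toFun := S.lg
  invFun := S.ex
  source := S.ex '' Metric.ball 0 S.r1
  target := Metric.ball 0 S.r1
  map_source' := by
    rintro x ⟨v, hv, rfl⟩
    have hv' : ‖v‖ < S.r1 := by simpa using hv
    rw [S.lg_ex (hv'.le.trans S.r1_le)]
    exact hv
  map_target' := by
    intro v hv
    exact ⟨v, hv, rfl⟩
  left_inv' := by
    rintro x ⟨v, hv, rfl⟩
    have hv' : ‖v‖ < S.r1 := by simpa using hv
    rw [S.lg_ex (hv'.le.trans S.r1_le)]
  right_inv' := by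
    intro v hv
    have hv' : ‖v‖ < S.r1 := by simpa using hv
    exact S.lg_ex (hv'.le.trans S.r1_le)
  open_source := S.isOpen_ex S.r1_le
  open_target := Metric.isOpen_ball
  continuousOn_toFun := by
    exact S.lg_cont.mono (Set.image_mono (Metric.ball_subset_ball S.r1_le))
  continuousOn_invFun := S.ex_cont.continuousOn

/-- dimension -/
noncomputable def dm : ℕ := Module.finrank ℝ S.T

/-- linear coordinates -/
noncomputable def eu : S.T ≃L[ℝ] EuclideanSpace ℝ (Fin S.dm) := toEuclidean

/-- the chart at `g` -/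
noncomputable def cht (g : G) : OpenPartialHomeomorph G (EuclideanSpace ℝ (Fin S.dm)) :=
  ((Homeomorph.mulLeft g⁻¹).toOpenPartialHomeomorph.trans S.baseC).trans
    S.eu.toHomeomorph.toOpenPartialHomeomorph

theorem cht_apply (g x : G) : S.cht g x = S.eu (S.lg (g⁻¹ * x)) := rfl

theorem cht_symm_apply (g : G) (y : EuclideanSpace ℝ (Fin S.dm)) :
    (S.cht g).symm y = g * S.ex (S.eu.symm y) := by
  have h : (S.cht g).symm y = (g⁻¹)⁻¹ * S.ex (S.eu.symm y) := rfl
  rw [h, inv_inv]

theorem cht_source (g : G) :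
    (S.cht g).source = {x | g⁻¹ * x ∈ S.ex '' Metric.ball 0 S.r1} := by
  unfold cht
  rw [OpenPartialHomeomorph.trans_source, OpenPartialHomeomorph.trans_source]
  ext x
  simp only [Homeomorph.toOpenPartialHomeomorph_source, Set.preimage_univ, Set.inter_univ,
    Set.univ_inter, Set.mem_preimage, Set.mem_ofPred_eq]
  exact Iff.rfl

theorem cht_target (g : G) :
    (S.cht g).target = {y | ‖S.eu.symm y‖ < S.r1} := by
  unfold cht
  rw [OpenPartialHomeomorph.trans_target, OpenPartialHomeomorph.trans_target]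
  ext y
  simp only [Homeomorph.toOpenPartialHomeomorph_target, Set.preimage_univ, Set.inter_univ,
    Set.univ_inter, Set.mem_preimage, Set.mem_ofPred_eq]
  have h : (S.eu.toHomeomorph.toOpenPartialHomeomorph.symm y ∈ S.baseC.target) ↔
      S.eu.symm y ∈ Metric.ball (0 : S.T) S.r1 := Iff.rfl
  rw [h, mem_ball_zero_iff]

theorem mem_cht_source (g : G) : g ∈ (S.cht g).source := by
  rw [cht_source, Set.mem_ofPred_eq, inv_mul_cancel]
  refine ⟨0, ?_, S.ex_zero⟩
  rw [mem_ball_zero_iff, norm_zero]
  exact S.r1_pos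

theorem cht_self (g : G) : S.cht g g = 0 := by
  rw [cht_apply, inv_mul_cancel, S.lg_one, map_zero]

/-- the charted space structure -/
@[reducible] noncomputable def chSp : ChartedSpace (EuclideanSpace ℝ (Fin S.dm)) G where
  atlas := Set.range S.cht
  chartAt := S.cht
  mem_chart_source := S.mem_cht_source
  chart_mem_atlas := fun g => ⟨g, rfl⟩

end Pool.Agent.GY.Gl
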