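import Pool.Agent.GY.BchAll

/-!
# GY.Curve (diff 2): analytic curves and the identity theorem

`good_local`, by induction on `GoodCurve`:
* const: `β = 0`;  ex: `ex((t₀+s) v) = ex(t₀ v) ex(s v)`, `β s = s v`.
* mul: `c(t₀+s) d(t₀+s) = c(t₀) ex(β s) d(t₀) ex(γ s) = c(t₀) d(t₀) ex(Ad (d(t₀)⁻¹) (β s)) ex(γ s)` (`Ad_spec`), `= ... ex (bch (γ s, Ad (..) (β s)))` for small `s` (`bch_spec`); analytic (`bch_analytic`,
  continuous linear maps), value `bch (0, 0) = 0`.
* inv: `(c(t₀) ex(β s))⁻¹ = ex(-β s) c(t₀)⁻¹ = c(t₀)⁻¹ ex(- Ad (c(t₀)) (β s))`.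
`good_cont`: continuity.
`good_identity`: let `A = {t₀ | c t = b for t near t₀}`: open, contains `0`.  Closed: let `t₀` be in the closure; `c t₀ = b` by continuity; if `t₀ ∉ A`, then `t₀` is a limit of points `t ∈ A`, `t ≠ t₀`, with
`c t = b`, i.e. `ex (β s) = 1` frequently for `s → 0`, `s ≠ 0`; `‖β s‖ ≤ RR` for small `s`, so `β s = 0` frequently (`ex_inj`), and `β = 0` near `0`
(`AnalyticAt.frequently_zero_iff_eventually_zero`): `t₀ ∈ A`.  So `A = univ` (`IsClopen`, `ℝ` connected).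
-/

open Topology Filter Set

namespace Pool.Agent.GY.Gl

variable {G E : Type*} [Group G] [TopologicalSpace G] [IsTopologicalGroup G]
  [NormedAddCommGroup E] [NormedSpace ℝ E] [CompleteSpace E] (S : Gl G E)

/-- products of constants and one-parameter subgroups -/
inductive GoodCurve : (ℝ → G) → Prop
  | const (g : G) : GoodCurve (fun _ => g)
  | ex (v : S.T) : GoodCurve (fun t => S.ex (t • v))
  | mul {c d : ℝ → G} : GoodCurve c → GoodCurve d → GoodCurve (fun t => c t * d t)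
  | inv {c : ℝ → G} : GoodCurve c → GoodCurve (fun t => (c t)⁻¹)

variable {S} {c : ℝ → G}

theorem good_cont (h : S.GoodCurve c) : Continuous c := by
  induction h with
  | const g => exact continuous_const
  | ex v => exact S.ex_cont.comp (continuous_id.smul continuous_const)
  | mul _ _ ih1 ih2 => exact ih1.mul ih2
  | inv _ ih => exact ih.inv

theorem good_local (h : S.GoodCurve c) (t₀ : ℝ) : ∃ β : ℝ → S.T, AnalyticAt ℝ β 0 ∧ β 0 = 0 ∧
    ∀ᶠ s in 𝓝 (0 : ℝ), c (t₀ + s) = c t₀ * S.ex (β s) := by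
  induction h with
  | const g =>
    refine ⟨fun _ => 0, analyticAt_const, rfl, Eventually.of_forall fun s => ?_⟩
    simp [S.ex_zero]
  | ex v =>
    refine ⟨fun s => s • v, analyticAt_id.smul analyticAt_const, zero_smul _ _,
      Eventually.of_forall fun s => ?_⟩
    exact S.ex_add v t₀ s
  | @mul c d _ _ ih1 ih2 =>
    obtain ⟨β, hβ, hβ0, hβc⟩ := ih1
    obtain ⟨γ, hγ, hγ0, hγd⟩ := ih2
    have hA : AnalyticAt ℝ (fun s => S.Ad (d t₀)⁻¹ (β s)) 0 :=
      ((S.Ad (d t₀)⁻¹).analyticAt _).comp hβ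
    have hA0 : S.Ad (d t₀)⁻¹ (β 0) = 0 := by rw [hβ0, map_zero]
    have hpair : AnalyticAt ℝ (fun s => (γ s, S.Ad (d t₀)⁻¹ (β s))) 0 := AnalyticAt.prod hγ hA
    have hbch : AnalyticAt ℝ (bch S.ad) (γ 0, S.Ad (d t₀)⁻¹ (β 0)) := by
      rw [hγ0, hA0]
      exact S.bch_analytic (0, 0) (Metric.mem_ball_self S.r1_pos)
    refine ⟨fun s => bch S.ad (γ s, S.Ad (d t₀)⁻¹ (β s)), AnalyticAt.comp (g := bch S.ad) (f := fun s => (γ s, S.Ad (d t₀)⁻¹ (β s))) hbch hpair, ?_, ?_⟩
    · simp only [hγ0, hA0]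
      exact bch_zero_right S.ad 0
    · have h1 : ∀ᶠ s in 𝓝 (0 : ℝ), ‖γ s‖ < S.r1 := by
        have := hγ.continuousAt.norm
        have h0 : ‖γ 0‖ < S.r1 := by rw [hγ0, norm_zero]; exact S.r1_pos
        exact this.eventually_lt continuousAt_const h0
      have h2 : ∀ᶠ s in 𝓝 (0 : ℝ), ‖S.Ad (d t₀)⁻¹ (β s)‖ < S.r1 := by
        have := hA.continuousAt.norm
        have h0 : ‖S.Ad (d t₀)⁻¹ (β 0)‖ < S.r1 := by rw [hA0, norm_zero]; exact S.r1_pos
        exact this.eventually_lt continuousAt_const h0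
      filter_upwards [hβc, hγd, h1, h2] with s hs1 hs2 hs3 hs4
      have h3 := S.Ad_spec (d t₀)⁻¹ (β s)
      rw [inv_inv] at h3
      rw [hs1, hs2, ← S.bch_spec hs3 hs4, ← h3]
      group
  | @inv c _ ih =>
    obtain ⟨β, hβ, hβ0, hβc⟩ := ih
    refine ⟨fun s => S.Ad (c t₀) (-β s), ((S.Ad (c t₀)).analyticAt _).comp hβ.neg, ?_, ?_⟩
    · simp [hβ0]
    · filter_upwards [hβc] with s hs
      rw [hs, ← S.Ad_spec (c t₀) (-β s), S.ex_neg]
      group

theorem good_identity (h : S.GoodCurve c) {b : G} (hb : ∀ᶠ t in 𝓝 (0 : ℝ), c t = b) (t : ℝ) :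
    c t = b := by
  have : T2Space G := S.emb.t2Space
  have hcont := good_cont h
  set A : Set ℝ := {t₀ | ∀ᶠ t in 𝓝 t₀, c t = b} with hA
  have hopen : IsOpen A := isOpen_setOfPred_eventually_nhds
  have hsub : A ⊆ {t | c t = b} := fun t₀ ht₀ => ht₀.self_of_nhds
  have hclosedb : IsClosed {t | c t = b} := isClosed_eq hcont continuous_const
  have hclosed : IsClosed A := by
    apply isClosed_of_closure_subset
    intro t₀ ht₀
    have hct : c t₀ = b := closure_minimal hsub hclosedb ht₀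
    by_contra hnot
    obtain ⟨β, hβ, hβ0, hβc⟩ := good_local h t₀
    rw [hct] at hβc
    -- frequently `c (t₀ + s) = b`
    have hmap : Tendsto (fun s : ℝ => t₀ + s) (𝓝 0) (𝓝 t₀) := by
      have : Tendsto (fun s : ℝ => t₀ + s) (𝓝 0) (𝓝 (t₀ + 0)) :=
        (continuous_const.add continuous_id).tendsto 0
      rwa [add_zero] at this
    have hfreq : ∃ᶠ s in 𝓝[≠] (0 : ℝ), c (t₀ + s) = b := by
      rw [Filter.Frequently]
      intro hev
      rw [eventually_nhdsWithin_iff] at hev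
      have hmap2 : Tendsto (fun t : ℝ => t - t₀) (𝓝 t₀) (𝓝 0) := by
        have : Tendsto (fun t : ℝ => t - t₀) (𝓝 t₀) (𝓝 (t₀ - t₀)) :=
          (continuous_id.sub continuous_const).tendsto t₀
        rwa [sub_self] at this
      have hev2 := hmap2.eventually hev
      obtain ⟨t₁, ht₁A, ht₁⟩ := mem_closure_iff_frequently.mp ht₀ |>.and_eventually hev2 |>.exists
      have hne : t₁ ≠ t₀ := by
        rintro rfl
        exact hnot ht₁A
      apply ht₁ (by simpa [sub_eq_zero] using hne)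
      rw [add_sub_cancel]
      exact hsub ht₁A
    have hsmall : ∀ᶠ s in 𝓝[≠] (0 : ℝ), ‖β s‖ ≤ S.RR := by
      apply eventually_nhdsWithin_of_eventually_nhds
      have h0 : ‖β 0‖ < S.RR := by rw [hβ0, norm_zero]; exact S.RR_pos
      exact (hβ.continuousAt.norm.eventually_lt continuousAt_const h0).mono fun s hs => hs.le
    have hzero : ∃ᶠ s in 𝓝[≠] (0 : ℝ), β s = 0 := by
      refine (hfreq.and_eventually (hsmall.and
        (eventually_nhdsWithin_of_eventually_nhds hβc))).mono ?_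
      rintro s ⟨h1, h2, h3⟩
      rw [h1] at h3
      have h4 : S.ex (β s) = 1 := by
        have := congrArg (fun g => b⁻¹ * g) h3
        simpa using this.symm
      apply S.ex_inj h2 (by rw [norm_zero]; exact S.RR_pos.le)
      rw [h4, S.ex_zero]
    have hev : ∀ᶠ s in 𝓝 (0 : ℝ), β s = 0 := hβ.frequently_zero_iff_eventually_zero.mp hzero
    apply hnot
    have hfin : ∀ᶠ s in 𝓝 (0 : ℝ), c (t₀ + s) = b := by
      filter_upwards [hev, hβc] with s h1 h2
      rw [h2, h1, S.ex_zero, mul_one]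
    have hmap2 : Tendsto (fun t : ℝ => t - t₀) (𝓝 t₀) (𝓝 0) := by
      have : Tendsto (fun t : ℝ => t - t₀) (𝓝 t₀) (𝓝 (t₀ - t₀)) :=
        (continuous_id.sub continuous_const).tendsto t₀
      rwa [sub_self] at this
    refine (hmap2.eventually hfin).mono fun t ht => ?_
    rwa [add_sub_cancel] at ht
  have huniv : A = univ := IsClopen.eq_univ ⟨hclosed, hopen⟩ ⟨0, hb⟩
  exact hsub (huniv ▸ mem_univ t)

end Pool.Agent.GY.Gl
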