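import Mathlib

/-!
# GY: Gleason-Yamabe; common definitions of part A
-/

open Topology Filter Set
open scoped ENNReal Pointwise

namespace Pool.Agent.GY

/-- no small subgroups -/
def NSS (G : Type*) [Group G] [TopologicalSpace G] : Prop :=
  ∃ U ∈ 𝓝 (1 : G), ∀ L : Subgroup G, (L : Set G) ⊆ U → L = ⊥

/-- `K` is a compact normal subgroup and all subgroups close to `K` lie in `K` -/
structure GoodK {G : Type*} [Group G] [TopologicalSpace G] (K : Subgroup G) : Prop where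
  normal : K.Normal
  compact : IsCompact (K : Set G)
  nss : ∃ O : Set G, IsOpen O ∧ (K : Set G) ⊆ O ∧ ∀ L : Subgroup G, (L : Set G) ⊆ O → L ≤ K

noncomputable section

variable {G : Type*} [Group G]

/-- weighted word length -/
def rho (w : G → ℝ≥0∞) (x : G) : ℝ≥0∞ := ⨅ (L : List G) (_ : L.prod = x), (L.map w).sum

/-- truncated length -/
def Del (w : G → ℝ≥0∞) (x : G) : ℝ := (min (rho w x) 1).toReal

/-- `θ x = sup_y (1 - Δ y) τ (y⁻¹ x)` -/
def Th (w : G → ℝ≥0∞) (τ : G → ℝ) (x : G) : ℝ := ⨆ y : G, (1 - Del w y) * τ (y⁻¹ * x)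

/-- a weight adapted to `P` -/
structure Wt (P : Set G) (w : G → ℝ≥0∞) : Prop where
  symm : ∀ g, w g⁻¹ = w g
  mem : ∀ x, rho w x < 1 → x ∈ P

/-- union of the subgroups inside `W` -/
def QW (W : Set G) : Set G := {x | ∃ L : Subgroup G, (L : Set G) ⊆ W ∧ x ∈ L}

variable [TopologicalSpace G]

/-- a cutoff function with support in `V` -/
structure Cut (V : Set G) (τ : G → ℝ) : Prop where
  cont : Continuous τ
  nonneg : ∀ x, 0 ≤ τ x
  le_one : ∀ x, τ x ≤ 1
  one : τ 1 = 1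
  supp : ∀ x, τ x ≠ 0 → x ∈ V
  hcs : HasCompactSupport τ

/-- a continuous function with values in `[0,1]` and support in `S` -/
structure Reg (S : Set G) (θ : G → ℝ) : Prop where
  cont : Continuous θ
  nonneg : ∀ x, 0 ≤ θ x
  le_one : ∀ x, θ x ≤ 1
  supp : ∀ x, θ x ≠ 0 → x ∈ S

/-- `φ x = ∫ θ (x u) θ (u) du` -/
def Ph [MeasurableSpace G] (μ : MeasureTheory.Measure G) (θ : G → ℝ) (x : G) : ℝ :=
  ∫ u, θ (x * u) * θ u ∂μ

end

end Pool.Agent.GY
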