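import Mathlib

/-!
# GY, part B: Gleason data and one-parameter subgroups
-/

open Topology Filter Set

namespace Pool.Agent.GY

/-- Gleason data on a topological group: an embedding `D` in a normed space with right invariant
distance, and a local second order estimate. -/
structure Gl (G : Type*) [Group G] [TopologicalSpace G] (E : Type*) [NormedAddCommGroup E]
    [NormedSpace ℝ E] where
  D : G → E
  C : ℝ
  hC : 1 ≤ C
  one : D 1 = 0
  right : ∀ g h x, ‖D (g * x) - D (h * x)‖ = ‖D g - D h‖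
  emb : Topology.IsEmbedding D
  r : ℝ
  hr : 0 < r
  hCr : 1 ≤ C * r
  mul : ∀ g h, ‖D g‖ ≤ r → ‖D h‖ ≤ r → ‖D (g * h) - D g - D h‖ ≤ C * ‖D g‖ * ‖D h‖
  cpt : IsCompact {g : G | ‖D g‖ ≤ r}

/-- continuous one-parameter subgroups -/
structure OPS (G : Type*) [Group G] [TopologicalSpace G] where
  toFun : ℝ → G
  cont : Continuous toFun
  add : ∀ s t, toFun (s + t) = toFun s * toFun t

instance {G : Type*} [Group G] [TopologicalSpace G] : CoeFun (OPS G) (fun _ => ℝ → G) :=
  ⟨OPS.toFun⟩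

/-- `Φ(a) = ∫₀¹ exp(s a) ds` -/
noncomputable def PhiOp {A : Type*} [NormedRing A] [NormedAlgebra ℝ A] (a : A) : A :=
  ∫ s in (0 : ℝ)..1, NormedSpace.exp (s • a)

/-- `Λ(M) = ∑ (-1)^k (M-1)^k / (k+1)` -/
noncomputable def LamOp {A : Type*} [NormedRing A] [NormedAlgebra ℝ A] (M : A) : A :=
  ∑' k : ℕ, ((-1 : ℝ) ^ k / (k + 1)) • (M - 1) ^ k

end Pool.Agent.GY
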