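import Mathlib

/-!
# GY, part C: locally minimal groups
-/

open Topology Filter Set

namespace Pool.Agent.GY

/-- The topological group `(H, τ)` is locally minimal: there is a neighbourhood `V` of the identity
such that every Hausdorff group topology `σ ⊆ τ` for which `V` is a neighbourhood of the identity
is equal to `τ`. (In Mathlib `τ ≤ σ` means that every `σ`-open set is `τ`-open.) -/
def LocallyMinimal (H : Type*) [Group H] (τ : TopologicalSpace H) : Prop :=
  ∃ V : Set H, V ∈ @nhds H τ 1 ∧ ∀ σ : TopologicalSpace H, τ ≤ σ →
    @IsTopologicalGroup H σ _ → @T2Space H σ → V ∈ @nhds H σ 1 → σ = τ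

end Pool.Agent.GY
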