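import Mathlib

/-!
# GY: matrices, common definitions for the no-law theorem
-/

open Topology Filter Set Matrix

namespace Pool.Agent.GY

/-- complex square matrices -/
abbrev Mn (n : ℕ) : Type := Matrix (Fin n) (Fin n) ℂ

/-- value of the word `∏ x^j y^c x^(-j)` at `x = exp X`, `y = exp Y` -/
noncomputable def RL {n : ℕ} (L : List (ℤ × ℤ)) (X Y : Mn n) : Mn n :=
  (L.map (fun p => NormedSpace.exp ((p.1 : ℂ) • X) * NormedSpace.exp ((p.2 : ℂ) • Y) *
    NormedSpace.exp (-(p.1 : ℂ) • X))).prod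

end Pool.Agent.GY
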