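import Pool.Agent.GY.Unif

/-!
# GY.DphiA (diff 1-2): the map `D g = (x ↦ φ (g x) - φ x)` into the bounded continuous functions

* `Dphi_right`: `(D (g y) - D (h y)) x = φ (g (y x)) - φ (h (y x))`: the same supremum as for `D g - D h` (`x ↦ y x` is a bijection).
* `Dphi_dist`: `Dphi_right` with `y = h⁻¹` and `D 1 = 0`.
* `Dphi_mul_le`: `φ (g h x) - φ x = (φ (g (h x)) - φ (h x)) + (φ (h x) - φ x)`.
* `Dphi_cont`: `left_unif` for `φ`: `‖D g - D h‖ = sup |φ (g h⁻¹ x) - φ x| ≤ ε` if `g h⁻¹ ∈ V_ε`.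
-/

open Topology Filter Set
open scoped BoundedContinuousFunction Pointwise

namespace Pool.Agent.GY

variable {G : Type*} [Group G] [TopologicalSpace G] [IsTopologicalGroup G] {φ : G → ℝ}

/-- `D g = (x ↦ φ (g x) - φ x)` -/
noncomputable def Dphi (φ : G → ℝ) (hc : Continuous φ) (M : ℝ) (hM : ∀ x, |φ x| ≤ M) (g : G) :
    G →ᵇ ℝ :=
  BoundedContinuousFunction.ofNormedAddCommGroup (fun x => φ (g * x) - φ x)
    ((hc.comp (continuous_const.mul continuous_id)).sub hc) (2 * M) (by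
      intro x
      have h1 := hM (g * x)
      have h2 := hM x
      rw [Real.norm_eq_abs]
      calc |φ (g * x) - φ x| ≤ |φ (g * x)| + |φ x| := abs_sub _ _
        _ ≤ 2 * M := by linarith)

variable (hc : Continuous φ) {M : ℝ} (hM : ∀ x, |φ x| ≤ M) (g h y x : G)

theorem Dphi_apply : Dphi φ hc M hM g x = φ (g * x) - φ x := rfl

theorem Dphi_one : Dphi φ hc M hM 1 = 0 := by
  ext x
  rw [Dphi_apply, one_mul, sub_self]
  rfl

theorem Dphi_norm_le {c : ℝ} (h0 : 0 ≤ c) :
    ‖Dphi φ hc M hM g‖ ≤ c ↔ ∀ x, |φ (g * x) - φ x| ≤ c := by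
  rw [BoundedContinuousFunction.norm_le h0]
  constructor
  · intro h x
    have := h x
    rwa [Dphi_apply, Real.norm_eq_abs] at this
  · intro h x
    rw [Dphi_apply, Real.norm_eq_abs]
    exact h x

theorem Dphi_right : ‖Dphi φ hc M hM (g * y) - Dphi φ hc M hM (h * y)‖ =
    ‖Dphi φ hc M hM g - Dphi φ hc M hM h‖ := by
  apply le_antisymm
  · rw [BoundedContinuousFunction.norm_le (norm_nonneg _)]
    intro x
    have h1 : (Dphi φ hc M hM (g * y) - Dphi φ hc M hM (h * y)) x =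
        (Dphi φ hc M hM g - Dphi φ hc M hM h) (y * x) := by
      rw [BoundedContinuousFunction.sub_apply, BoundedContinuousFunction.sub_apply, Dphi_apply,
        Dphi_apply, Dphi_apply, Dphi_apply, mul_assoc, mul_assoc]
      ring
    rw [h1]
    exact BoundedContinuousFunction.norm_coe_le_norm _ _
  · rw [BoundedContinuousFunction.norm_le (norm_nonneg _)]
    intro x
    have h1 : (Dphi φ hc M hM g - Dphi φ hc M hM h) x =
        (Dphi φ hc M hM (g * y) - Dphi φ hc M hM (h * y)) (y⁻¹ * x) := by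
      rw [BoundedContinuousFunction.sub_apply, BoundedContinuousFunction.sub_apply, Dphi_apply,
        Dphi_apply, Dphi_apply, Dphi_apply, mul_assoc, mul_assoc, mul_inv_cancel_left]
      ring
    rw [h1]
    exact BoundedContinuousFunction.norm_coe_le_norm _ _

theorem Dphi_dist : ‖Dphi φ hc M hM g - Dphi φ hc M hM h‖ = ‖Dphi φ hc M hM (g * h⁻¹)‖ := by
  rw [← Dphi_right hc hM g h h⁻¹, mul_inv_cancel, Dphi_one, sub_zero]

theorem Dphi_mul_le : ‖Dphi φ hc M hM (g * h)‖ ≤ ‖Dphi φ hc M hM g‖ + ‖Dphi φ hc M hM h‖ := by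
  rw [Dphi_norm_le hc hM _ (by positivity)]
  intro x
  have h1 : |φ (g * (h * x)) - φ (h * x)| ≤ ‖Dphi φ hc M hM g‖ :=
    (Dphi_norm_le hc hM g (norm_nonneg _)).1 le_rfl (h * x)
  have h2 : |φ (h * x) - φ x| ≤ ‖Dphi φ hc M hM h‖ :=
    (Dphi_norm_le hc hM h (norm_nonneg _)).1 le_rfl x
  have h3 : φ (g * h * x) - φ x = (φ (g * (h * x)) - φ (h * x)) + (φ (h * x) - φ x) := by
    rw [mul_assoc]; ring
  rw [h3]
  exact le_trans (abs_add_le _ _) (add_le_add h1 h2)

theorem Dphi_pow_le (n : ℕ) : ‖Dphi φ hc M hM (g ^ n)‖ ≤ n * ‖Dphi φ hc M hM g‖ := by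
  induction n with
  | zero => rw [pow_zero, Dphi_one]; simp
  | succ n ih =>
    rw [pow_succ]
    refine le_trans (Dphi_mul_le hc hM _ _) ?_
    push_cast
    linarith

theorem Dphi_cont [LocallyCompactSpace G] [T2Space G] (hs : HasCompactSupport φ) :
    Continuous (Dphi φ hc M hM) := by
  rw [continuous_iff_continuousAt]
  intro h
  refine Metric.tendsto_nhds.2 fun ε hε => ?_
  obtain ⟨V, hV, hV'⟩ := left_unif hc hs (half_pos hε)
  have ht : Tendsto (fun g : G => g * h⁻¹) (𝓝 h) (𝓝 1) := by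
    have := (continuous_mul_const h⁻¹).tendsto h
    rwa [mul_inv_cancel] at this
  filter_upwards [ht hV] with g hg
  rw [dist_eq_norm, Dphi_dist]
  refine lt_of_le_of_lt ?_ (half_lt_self hε)
  rw [Dphi_norm_le hc hM _ (half_pos hε).le]
  intro x
  exact hV' _ hg x

end Pool.Agent.GY
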