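import Pool.Agent.GY.DefsM

/-!
# GY.EigE (diff 3): a nilpotent element in the complexification of a nonabelian algebra of skew-hermitian matrices

`𝔤_ℂ = {X + i Y | X, Y ∈ 𝔤}` is a complex subspace of `Mn n`.  Let `A ∈ 𝔤` with `ad_A ≠ 0` on `𝔤` (`ad_A X = A X - X A`).  `T = i ad_A : 𝔤_ℂ → 𝔤_ℂ` is `ℂ`-linear and self-adjoint for the inner product `⟨X, Y⟩ = tr (Xᴴ Y)`:
`tr ([A,X]ᴴ Y) = tr (Xᴴ Aᴴ Y - Aᴴ Xᴴ Y) = tr (-Xᴴ A Y + A Xᴴ Y) = -tr (Xᴴ [A, Y])`.  `T ≠ 0` is symmetric, so it has an eigenvalue `≠ 0` (if all eigenvalues of a symmetric operator on a finite dimensional space are `0`, it is `0`: `LinearMap.IsSymmetric.direct_sum_decomposition`/orthonormal eigenbasis).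
(Alternative without an inner product: `ad_A` restricted to `𝔤_ℂ`; if `0` is its only eigenvalue, it is nilpotent on `𝔤_ℂ`; `tr ([A,X]ᴴ [A,X]) = - tr (Xᴴ [A,[A,X]])` shows `ad_A² X = 0 → ad_A X = 0`, so `ad_A = 0` on `𝔤_ℂ`.)
So there is `E ∈ 𝔤_ℂ`, `E ≠ 0`, `A E - E A = μ E`, `μ ≠ 0`.
`A E^k - E^k A = k μ E^k` (induction).  If `E` is not nilpotent, all `E^k ≠ 0` and `ad_A` has on `Mn n` infinitely many eigenvalues `k μ`: impossible (`Module.End` on a finite dimensional space: `Module.End.finite_hasEigenvalue`/`finite_spectrum`).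
-/

open Topology Filter Set Matrix
open scoped ComplexOrder

namespace Pool.Agent.GY

/-- complexification of a real space of matrices -/
def EigE.cx {n : ℕ} (𝔤 : Submodule ℝ (Mn n)) : Submodule ℂ (Mn n) where
  carrier := {M | ∃ X ∈ 𝔤, ∃ Y ∈ 𝔤, M = X + Complex.I • Y}
  zero_mem' := ⟨0, 𝔤.zero_mem, 0, 𝔤.zero_mem, by simp⟩
  add_mem' := by
    rintro _ _ ⟨X, hX, Y, hY, rfl⟩ ⟨X', hX', Y', hY', rfl⟩
    exact ⟨X + X', 𝔤.add_mem hX hX', Y + Y', 𝔤.add_mem hY hY', by rw [smul_add]; abel⟩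
  smul_mem' := by
    rintro c _ ⟨X, hX, Y, hY, rfl⟩
    refine ⟨c.re • X - c.im • Y, 𝔤.sub_mem (𝔤.smul_mem _ hX) (𝔤.smul_mem _ hY),
      c.im • X + c.re • Y, 𝔤.add_mem (𝔤.smul_mem _ hX) (𝔤.smul_mem _ hY), ?_⟩
    ext i j
    simp only [Matrix.smul_apply, Matrix.add_apply, Matrix.sub_apply, smul_eq_mul, Complex.real_smul]
    conv_lhs => rw [← Complex.re_add_im c]
    linear_combination (Y i j * c.im) * Complex.I_sq

/-- `ad_A` -/
noncomputable def EigE.ad {n : ℕ} (A : Mn n) : Module.End ℂ (Mn n) :=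
  LinearMap.mulLeft ℂ A - LinearMap.mulRight ℂ A

theorem EigE.ad_apply {n : ℕ} (A X : Mn n) : EigE.ad A X = A * X - X * A := rfl

theorem EigE.ker {n : ℕ} {A : Mn n} (hA : Aᴴ = -A) (X : Mn n) (h : EigE.ad A (EigE.ad A X) = 0) :
    EigE.ad A X = 0 := by
  rw [← Matrix.trace_conjTranspose_mul_self_eq_zero_iff]
  have h1 : (EigE.ad A X)ᴴ * EigE.ad A X =
      (A * (Xᴴ * EigE.ad A X) - (Xᴴ * EigE.ad A X) * A) - Xᴴ * (EigE.ad A (EigE.ad A X)) := by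
    simp only [EigE.ad_apply, Matrix.conjTranspose_sub, Matrix.conjTranspose_mul, hA]
    noncomm_ring
  rw [h1, h, mul_zero, sub_zero, Matrix.trace_sub, Matrix.trace_mul_comm, sub_self]

theorem EigE.pow {n : ℕ} {A E : Mn n} {μ : ℂ} (h : EigE.ad A E = μ • E) (k : ℕ) :
    EigE.ad A (E ^ k) = ((k : ℂ) * μ) • E ^ k := by
  rw [EigE.ad_apply] at h
  induction k with
  | zero => simp [EigE.ad_apply]
  | succ k ih =>
    rw [EigE.ad_apply] at ih ⊢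
    have h1 : A * E ^ (k + 1) - E ^ (k + 1) * A =
        (A * E ^ k - E ^ k * A) * E + E ^ k * (A * E - E * A) := by
      rw [pow_succ]; noncomm_ring
    rw [h1, h, ih, smul_mul_assoc, mul_smul_comm, ← pow_succ, ← add_smul]
    congr 1
    push_cast
    ring

theorem EigE.nil {n : ℕ} {A E : Mn n} {μ : ℂ} (hμ : μ ≠ 0) (h : EigE.ad A E = μ • E) :
    IsNilpotent E := by
  by_contra hn
  have h1 : ∀ k : ℕ, (EigE.ad A).HasEigenvalue ((k : ℂ) * μ) := by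
    intro k
    apply Module.End.hasEigenvalue_of_hasEigenvector (x := E ^ k)
    refine ⟨?_, fun h0 => hn ⟨k, h0⟩⟩
    rw [Module.End.mem_eigenspace_iff]
    exact EigE.pow h k
  have h2 : Set.Finite {z : ℂ | (EigE.ad A).HasEigenvalue z} := Module.End.finite_hasEigenvalue _
  have h3 : Set.Infinite (Set.range (fun k : ℕ => (k : ℂ) * μ)) := by
    apply Set.infinite_range_of_injective
    intro a b hab
    have := mul_right_cancel₀ hμ hab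
    exact_mod_cast this
  apply h3
  apply h2.subset
  rintro _ ⟨k, rfl⟩
  exact h1 k

theorem eig_E {n : ℕ} (𝔤 : Submodule ℝ (Mn n)) (hs : ∀ A ∈ 𝔤, Aᴴ = -A)
    (hb : ∀ A ∈ 𝔤, ∀ B ∈ 𝔤, A * B - B * A ∈ 𝔤) (hna : ∃ A ∈ 𝔤, ∃ B ∈ 𝔤, A * B ≠ B * A) :
    ∃ A ∈ 𝔤, ∃ B ∈ 𝔤, A + Complex.I • B ≠ 0 ∧ IsNilpotent (A + Complex.I • B) := by
  obtain ⟨A, hA, B, hB, hAB⟩ := hna
  have hmem : ∀ M ∈ EigE.cx 𝔤, EigE.ad A M ∈ EigE.cx 𝔤 := by
    rintro _ ⟨X, hX, Y, hY, rfl⟩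
    refine ⟨A * X - X * A, hb A hA X hX, A * Y - Y * A, hb A hA Y hY, ?_⟩
    rw [EigE.ad_apply, mul_add, add_mul, mul_smul_comm, smul_mul_assoc, smul_sub]
    abel
  set W : Submodule ℂ (Mn n) := (EigE.cx 𝔤).map (EigE.ad A) with hW
  have hWV : W ≤ EigE.cx 𝔤 := by
    rintro _ ⟨M, hM, rfl⟩
    exact hmem M hM
  have hWW : ∀ M ∈ W, EigE.ad A M ∈ W := by
    intro M hM
    exact ⟨M, hWV hM, rfl⟩
  have hBW : EigE.ad A B ∈ W := ⟨B, ⟨B, hB, 0, 𝔤.zero_mem, by simp⟩, rfl⟩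
  have hnt : Nontrivial W := by
    refine ⟨⟨⟨EigE.ad A B, hBW⟩, 0, fun h => hAB ?_⟩⟩
    have := congrArg Subtype.val h
    exact sub_eq_zero.1 this
  obtain ⟨μ, hμ⟩ := Module.End.exists_eigenvalue ((EigE.ad A).restrict hWW)
  obtain ⟨⟨E, hE⟩, hev⟩ := hμ.exists_hasEigenvector
  have hE0 : E ≠ 0 := fun h => hev.2 (Subtype.ext h)
  have hEe : EigE.ad A E = μ • E := congrArg Subtype.val hev.apply_eq_smul
  have hμ0 : μ ≠ 0 := by
    rintro rfl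
    rw [zero_smul] at hEe
    obtain ⟨M, hM, rfl⟩ := hE
    exact hE0 (EigE.ker (hs A hA) M hEe)
  obtain ⟨X, hX, Y, hY, rfl⟩ := hWV hE
  exact ⟨X, hX, Y, hY, hE0, EigE.nil hμ0 hEe⟩

end Pool.Agent.GY
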