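import Pool.Agent.GY.Unif

/-!
# GY.Esc (diff 1): the escape norm

`esc U g = 1/n`, `n` the first exponent with `g^n ∉ U`; `0` if there is none.
`NoSub U`: `U` compact, symmetric neighbourhood of `1` without nontrivial subgroups.
* `esc_inv`: `(g⁻¹)^n ∈ U ↔ g^n ∈ U`.
* `eq_one_of_esc`: all powers (also negative) are in `U`: `Subgroup.zpowers g ⊆ U`.
-/

open Topology Filter Set
open scoped ENNReal Pointwise

namespace Pool.Agent.GY

variable {G : Type*} [Group G]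

open Classical in
/-- escape norm -/
noncomputable def esc (U : Set G) (g : G) : ℝ :=
  if h : ∃ n : ℕ, g ^ n ∉ U then 1 / (Nat.find h : ℝ) else 0

/-- compact symmetric neighbourhood of `1` without nontrivial subgroups -/
structure NoSub [TopologicalSpace G] (U : Set G) : Prop where
  cpt : IsCompact U
  nhd : U ∈ 𝓝 (1 : G)
  symm : U⁻¹ = U
  nosub : ∀ L : Subgroup G, (L : Set G) ⊆ U → L = ⊥

theorem NoSub.one_mem [TopologicalSpace G] {U : Set G} (hU : NoSub U) : (1 : G) ∈ U :=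
  mem_of_mem_nhds hU.nhd

variable {U : Set G} {g : G}

open Classical in
/-- auxiliary form of `esc` -/
noncomputable def Esc_F (p : ℕ → Prop) : ℝ :=
  if h : ∃ n : ℕ, p n then 1 / (Nat.find h : ℝ) else 0

theorem Esc_find_congr (p : ℕ → Prop) (i1 i2 : DecidablePred p) (h : ∃ n, p n) :
    (1 : ℝ) / (@Nat.find p i1 h : ℝ) = 1 / (@Nat.find p i2 h : ℝ) := by
  have e : i1 = i2 := Subsingleton.elim _ _
  rw [e]

theorem Esc_eq_F : esc U g = Esc_F (fun n : ℕ => g ^ n ∉ U) := by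
  unfold esc Esc_F
  by_cases h : ∃ n : ℕ, g ^ n ∉ U
  · rw [dif_pos h, dif_pos h]
    exact Esc_find_congr _ _ _ h
  · rw [dif_neg h, dif_neg h]

theorem esc_nonneg : 0 ≤ esc U g := by
  unfold esc
  split_ifs with h
  · positivity
  · exact le_rfl

theorem Esc_spec (h1 : (1 : G) ∈ U) (h : ∃ n : ℕ, g ^ n ∉ U) :
    ∃ n : ℕ, 0 < n ∧ esc U g = 1 / n ∧ g ^ n ∉ U ∧ ∀ i < n, g ^ i ∈ U := by
  classical
  refine ⟨Nat.find h, ?_, ?_, Nat.find_spec h, fun i hi => ?_⟩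
  · rw [Nat.find_pos]
    simpa using h1
  · unfold esc
    rw [dif_pos h]
  · have := Nat.find_min h hi
    exact not_not.mp this

theorem Esc_zero (h : ¬ ∃ n : ℕ, g ^ n ∉ U) : esc U g = 0 := by
  unfold esc
  rw [dif_neg h]

theorem esc_le_one (h1 : (1 : G) ∈ U) : esc U g ≤ 1 := by
  by_cases h : ∃ n : ℕ, g ^ n ∉ U
  · obtain ⟨n, hn, e, -, -⟩ := Esc_spec h1 h
    rw [e, div_le_one (by exact_mod_cast hn)]
    exact_mod_cast hn
  · rw [Esc_zero h]
    norm_num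

theorem esc_one (h1 : (1 : G) ∈ U) : esc U (1 : G) = 0 := by
  apply Esc_zero
  rintro ⟨n, hn⟩
  rw [one_pow] at hn
  exact hn h1

theorem esc_inv (hU : U⁻¹ = U) : esc U g⁻¹ = esc U g := by
  have hiff : ∀ n : ℕ, (g⁻¹) ^ n ∈ U ↔ g ^ n ∈ U := by
    intro n
    rw [inv_pow, ← Set.mem_inv, hU]
  have hfun : (fun n : ℕ => (g⁻¹) ^ n ∉ U) = (fun n : ℕ => g ^ n ∉ U) :=
    funext fun n => propext (not_congr (hiff n))
  rw [Esc_eq_F, Esc_eq_F, hfun]

theorem pow_mem_of_esc (h1 : (1 : G) ∈ U) {i : ℕ} (h : i * esc U g < 1) : g ^ i ∈ U := by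
  by_cases he : ∃ n : ℕ, g ^ n ∉ U
  · obtain ⟨n, hn, e, -, hlt⟩ := Esc_spec h1 he
    apply hlt
    rw [e, mul_one_div, div_lt_one (by exact_mod_cast hn)] at h
    exact_mod_cast h
  · by_contra hi
    exact he ⟨i, hi⟩

theorem esc_le {n : ℕ} (hn : 0 < n) (h : ∀ i < n, g ^ i ∈ U) : esc U g ≤ 1 / n := by
  have h1 : (1 : G) ∈ U := by simpa using h 0 hn
  by_cases he : ∃ n : ℕ, g ^ n ∉ U
  · obtain ⟨m, hm, e, hm2, -⟩ := Esc_spec h1 he
    have : n ≤ m := by
      by_contra hlt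
      exact hm2 (h m (by omega))
    rw [e]
    exact one_div_le_one_div_of_le (by exact_mod_cast hn) (by exact_mod_cast this)
  · rw [Esc_zero he]
    positivity

theorem esc_of_not_mem (h1 : (1 : G) ∈ U) (hg : g ∉ U) : esc U g = 1 := by
  have he : ∃ n : ℕ, g ^ n ∉ U := ⟨1, by simpa using hg⟩
  obtain ⟨n, hn, e, -, hlt⟩ := Esc_spec h1 he
  have : n = 1 := by
    by_contra hne
    have : g ^ 1 ∈ U := hlt 1 (by omega)
    exact hg (by simpa using this)
  rw [e, this]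
  norm_num

/-- at the exit time -/
theorem exists_exit (h : esc U g ≠ 0) :
    ∃ n : ℕ, esc U g = 1 / n ∧ g ^ n ∉ U ∧ ∀ i < n, g ^ i ∈ U := by
  classical
  by_cases he : ∃ n : ℕ, g ^ n ∉ U
  · refine ⟨Nat.find he, ?_, Nat.find_spec he, fun i hi => not_not.mp (Nat.find_min he hi)⟩
    unfold esc
    rw [dif_pos he]
  · exact absurd (Esc_zero he) h

theorem eq_one_of_esc [TopologicalSpace G] (hU : NoSub U) (h : esc U g = 0) : g = 1 := by
  have hpow : ∀ i : ℕ, g ^ i ∈ U := fun i =>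
    pow_mem_of_esc hU.one_mem (by rw [h, mul_zero]; norm_num)
  have h2 : ((Subgroup.zpowers g : Subgroup G) : Set G) ⊆ U := by
    rintro _ ⟨n, rfl⟩
    show g ^ n ∈ U
    rcases Int.eq_nat_or_neg n with ⟨m, rfl | rfl⟩
    · rw [zpow_natCast]
      exact hpow m
    · rw [zpow_neg, zpow_natCast, ← Set.mem_inv, hU.symm]
      exact hpow m
  have h3 := hU.nosub _ h2
  rwa [Subgroup.zpowers_eq_bot] at h3

end Pool.Agent.GY
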