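import Pool.Agent.GY.Esc

/-!
# GY.EscF1 (diff 2): if many powers stay in `U` then `g` is near `1`

* `esc_F1`: the sets `A_m = {g | g^i ∈ U for i ≤ m}`, `m ≥ 1`, are closed subsets of the compact set `U` (`U` closed: `T2`), decreasing, with
  intersection `{1}` (all powers in `U`: `eq_one_of_esc`-type argument with `NoSub`).  So `A_m ∩ (interior V)ᶜ = ∅` for some `m`
  (`IsCompact.elim_directed_family_closed_of_isCompact` or `exists_subset_nhds_of_isCompact`).
* `esc_F1'`: `c = 1/(2m)`: if `i esc g ≤ c`, then for `j ≤ m`: `(i j) esc g ≤ 1/2 < 1`, so `(g^i)^j ∈ U`.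
* `esc_small`: if `esc U g ≤ c` then `g ∈ V` (`i = 1`).
* `esc_conj`: `V' ∈ 𝓝 1` with `x⁻¹ b x ∈ U` for `x ∈ B`, `b ∈ V'` (`unif_conj`), `c` from `esc_F1'` for `V'`.  If `esc U g = 0`, then `g = 1`, trivial.  Otherwise
  let `n = ⌊c / esc U g⌋ + 1`; for `i < n`: `i esc g ≤ c`, `g^i ∈ V'`, `(x⁻¹ g x)^i = x⁻¹ g^i x ∈ U`; `esc_le`: `esc U (x⁻¹ g x) ≤ 1/n ≤ esc U g / c`.  `C = 1/c`.
-/

open Topology Filter Set
open scoped ENNReal Pointwise

namespace Pool.Agent.GY

variable {G : Type*} [Group G] [TopologicalSpace G] [IsTopologicalGroup G] [T2Space G] {U : Set G}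

theorem esc_F1 (hU : NoSub U) {V : Set G} (hV : V ∈ 𝓝 (1 : G)) :
    ∃ m : ℕ, 0 < m ∧ ∀ g : G, (∀ i ≤ m, g ^ i ∈ U) → g ∈ V := by
  classical
  by_contra hcon
  push Not at hcon
  have hUcl : IsClosed U := hU.cpt.isClosed
  let Z : ℕ → Set G := fun m => {g | ∀ i ≤ m + 1, g ^ i ∈ U} ∩ (interior V)ᶜ
  have hZcl : ∀ m, IsClosed (Z m) := by
    intro m
    refine IsClosed.inter ?_ isOpen_interior.isClosed_compl
    have : {g : G | ∀ i ≤ m + 1, g ^ i ∈ U} = ⋂ i : ℕ, ⋂ _ : i ≤ m + 1, {g : G | g ^ i ∈ U} := by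
      ext g
      simp
    rw [this]
    refine isClosed_iInter fun i => isClosed_iInter fun _ => ?_
    exact hUcl.preimage (continuous_pow i)
  have hZsub : ∀ m, Z m ⊆ U := by
    intro m g hg
    have h := hg.1 1 (by omega)
    simpa using h
  have hne : (⋂ i, Z i).Nonempty := by
    refine IsCompact.nonempty_iInter_of_sequence_nonempty_isCompact_isClosed Z ?_ ?_ ?_ hZcl
    · intro i g hg
      exact ⟨fun j hj => hg.1 j (by omega), hg.2⟩
    · intro i
      obtain ⟨g, hg, hgV⟩ := hcon (i + 1) (by omega)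
      exact ⟨g, hg, fun h => hgV (interior_subset h)⟩
    · exact hU.cpt.of_isClosed_subset (hZcl 0) (hZsub 0)
  obtain ⟨g, hg⟩ := hne
  rw [mem_iInter] at hg
  have hpow : ∀ i : ℕ, g ^ i ∈ U := by
    intro i
    exact (hg i).1 i (by omega)
  have he : esc U g = 0 := by
    unfold esc
    rw [dif_neg]
    push Not
    exact hpow
  have h1 := eq_one_of_esc hU he
  apply (hg 0).2
  rw [h1]
  exact mem_interior_iff_mem_nhds.2 hV

theorem esc_F1' (hU : NoSub U) {V : Set G} (hV : V ∈ 𝓝 (1 : G)) :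
    ∃ c : ℝ, 0 < c ∧ ∀ g : G, ∀ i : ℕ, i * esc U g ≤ c → g ^ i ∈ V := by
  obtain ⟨m, hm, h⟩ := esc_F1 hU hV
  have hm' : (0 : ℝ) < m := by exact_mod_cast hm
  refine ⟨1 / (2 * m), by positivity, ?_⟩
  intro g i hi
  apply h
  intro j hj
  rw [← pow_mul]
  apply pow_mem_of_esc hU.one_mem
  have hj' : (j : ℝ) ≤ m := by exact_mod_cast hj
  have he : 0 ≤ esc U g := esc_nonneg
  have h0 : 0 ≤ (i : ℝ) * esc U g := by positivity
  have h2 : ((i * j : ℕ) : ℝ) * esc U g = j * (i * esc U g) := by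
    push_cast
    ring
  rw [h2]
  calc (j : ℝ) * (i * esc U g) ≤ m * (1 / (2 * m)) := by
        apply mul_le_mul hj' hi h0 hm'.le
    _ = 1 / 2 := by field_simp
    _ < 1 := by norm_num

theorem esc_small (hU : NoSub U) {V : Set G} (hV : V ∈ 𝓝 (1 : G)) :
    ∃ c : ℝ, 0 < c ∧ ∀ g : G, esc U g ≤ c → g ∈ V := by
  obtain ⟨c, hc, h⟩ := esc_F1' hU hV
  refine ⟨c, hc, fun g hg => ?_⟩
  have := h g 1 (by simpa using hg)
  simpa using this

theorem esc_conj (hU : NoSub U) {B : Set G} (hB : IsCompact B) :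
    ∃ C : ℝ, 0 < C ∧ ∀ x ∈ B, ∀ g : G, esc U (x⁻¹ * g * x) ≤ C * esc U g := by
  obtain ⟨V', hV', hconj⟩ := unif_conj hB hU.nhd
  obtain ⟨c, hc, h⟩ := esc_F1' hU hV'
  have h1 : (1 : G) ∈ U := mem_of_mem_nhds hU.nhd
  refine ⟨1 / c, by positivity, ?_⟩
  intro x hx g
  rcases (esc_nonneg : 0 ≤ esc U g).eq_or_lt with he | he
  · have hg : g = 1 := eq_one_of_esc hU he.symm
    subst hg
    have : x⁻¹ * 1 * x = 1 := by group
    rw [this, esc_one h1]
    simp
  · have hfl : (⌊c / esc U g⌋₊ : ℝ) ≤ c / esc U g := Nat.floor_le (by positivity)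
    have hfl2 : c / esc U g < (⌊c / esc U g⌋₊ : ℝ) + 1 := Nat.lt_floor_add_one _
    have hle : esc U (x⁻¹ * g * x) ≤ 1 / ((⌊c / esc U g⌋₊ + 1 : ℕ) : ℝ) := by
      apply esc_le (Nat.succ_pos _)
      intro i hi
      have hi' : (i : ℝ) ≤ ⌊c / esc U g⌋₊ := by
        exact_mod_cast Nat.lt_succ_iff.1 hi
      have h2 : (i : ℝ) * esc U g ≤ c := by
        have := hi'.trans hfl
        rwa [le_div_iff₀ he] at this
      have h3 := hconj x hx _ (h g i h2)
      have h4 : (x⁻¹ * g * x) ^ i = x⁻¹ * g ^ i * x := by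
        have := conj_pow (a := x⁻¹) (b := g) (i := i)
        rw [inv_inv] at this
        exact this
      rw [h4]
      exact h3
    refine hle.trans ?_
    have h5 : 0 < c / esc U g := by positivity
    calc 1 / ((⌊c / esc U g⌋₊ + 1 : ℕ) : ℝ) ≤ 1 / (c / esc U g) := by
          apply one_div_le_one_div_of_le h5
          push_cast
          exact hfl2.le
      _ = 1 / c * esc U g := by field_simp

end Pool.Agent.GY
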