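import Pool.Agent.GY.Defs

/-!
# GY.PowEst (diff 1): differences along powers (pure algebra)

`φ (g^m x) - φ x = ∑_{i<m} (φ (g (g^i x)) - φ (g^i x))`, and each term differs from `φ (g x) - φ x` by at most `c`.
So `m |φ (g x) - φ x| ≤ |φ (g^m x) - φ x| + m c ≤ 2 M + m c`.
`list_est`: induction on the list: `|φ (g L x) - φ x| ≤ |φ (g (L x)) - φ (L x)| + |φ (L x) - φ x|`.
-/

open Topology Filter Set
open scoped ENNReal Pointwise

namespace Pool.Agent.GY

variable {G : Type*} [Group G] {φ : G → ℝ}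

theorem pow_est {M c : ℝ} (hM : ∀ x, |φ x| ≤ M) {g : G} {m : ℕ}
    (h : ∀ i < m, ∀ x, |φ (g * (g ^ i * x)) - φ (g ^ i * x) - φ (g * x) + φ x| ≤ c) (x : G) :
    m * |φ (g * x) - φ x| ≤ 2 * M + m * c := by
  have h1 : ∑ i ∈ Finset.range m, (φ (g * (g ^ i * x)) - φ (g ^ i * x)) = φ (g ^ m * x) - φ x := by
    have := Finset.sum_range_sub (fun i => φ (g ^ i * x)) m
    simp only [pow_zero, one_mul] at this
    rw [← this]
    refine Finset.sum_congr rfl fun i _ => ?_
    rw [← mul_assoc, ← pow_succ']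
  have h2 : (m : ℝ) * (φ (g * x) - φ x) = (φ (g ^ m * x) - φ x)
      - ∑ i ∈ Finset.range m, (φ (g * (g ^ i * x)) - φ (g ^ i * x) - φ (g * x) + φ x) := by
    rw [← h1, ← Finset.sum_sub_distrib]
    have : ∀ i ∈ Finset.range m, (φ (g * (g ^ i * x)) - φ (g ^ i * x)
        - (φ (g * (g ^ i * x)) - φ (g ^ i * x) - φ (g * x) + φ x)) = φ (g * x) - φ x := by
      intro i _
      ring
    rw [Finset.sum_congr rfl this, Finset.sum_const, Finset.card_range, nsmul_eq_mul]
  have h3 : |∑ i ∈ Finset.range m, (φ (g * (g ^ i * x)) - φ (g ^ i * x) - φ (g * x) + φ x)|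
      ≤ m * c := by
    calc _ ≤ ∑ i ∈ Finset.range m, |φ (g * (g ^ i * x)) - φ (g ^ i * x) - φ (g * x) + φ x| :=
          Finset.abs_sum_le_sum_abs _ _
      _ ≤ ∑ _i ∈ Finset.range m, c :=
          Finset.sum_le_sum fun i hi => h i (Finset.mem_range.1 hi) x
      _ = m * c := by rw [Finset.sum_const, Finset.card_range, nsmul_eq_mul]
  have h4 : (m : ℝ) * |φ (g * x) - φ x| = |(m : ℝ) * (φ (g * x) - φ x)| := by
    rw [abs_mul, Nat.abs_cast]
  rw [h4, h2]
  have h5 := abs_le.1 h3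
  have h6 := abs_le.1 (hM (g ^ m * x))
  have h7 := abs_le.1 (hM x)
  rw [abs_le]
  constructor <;> linarith [h5.1, h5.2, h6.1, h6.2, h7.1, h7.2]

theorem list_est {a : G → ℝ} (L : List G) (h : ∀ g ∈ L, ∀ x, |φ (g * x) - φ x| ≤ a g) (x : G) :
    |φ (L.prod * x) - φ x| ≤ (L.map a).sum := by
  induction L with
  | nil => simp
  | cons g L ih =>
    rw [List.prod_cons, List.map_cons, List.sum_cons, mul_assoc]
    have h1 := h g (by simp) (L.prod * x)
    have h2 := ih (fun g hg => h g (List.mem_cons_of_mem _ hg))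
    have h3 : φ (g * (L.prod * x)) - φ x
        = (φ (g * (L.prod * x)) - φ (L.prod * x)) + (φ (L.prod * x) - φ x) := by ring
    rw [h3]
    exact (abs_add_le _ _).trans (add_le_add h1 h2)

end Pool.Agent.GY
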