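import Pool.Agent.GY.Ph1

/-!
# GY.Ph2 (diff 2): the second difference of `φ`

Let `F z = θ (g z) - θ z`, `|F| ≤ a`.  Then `φ (g y) - φ y = ∫ F (y u) θ (u) du`.
For `y = b x` substitute `u = (x⁻¹ b⁻¹ x) u'` (left invariance, `integral_mul_left_eq_self`):
`b x u = x u'`, so `φ (g b x) - φ (b x) = ∫ F (x u') θ (x⁻¹ b⁻¹ x u') du'`.
Subtract `φ (g x) - φ x = ∫ F (x u') θ (u') du'`.
`int_abs_le`: the integrand is `≤ ε` on `V₀ * S` and vanishes outside (if `u ∉ V₀ * S`, then `u ∉ S` and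
`c u ∉ S` because `u = c⁻¹ (c u)`, `c⁻¹ ∈ V₀`).
-/

open Topology Filter Set MeasureTheory
open scoped ENNReal Pointwise

namespace Pool.Agent.GY

variable {G : Type*} [Group G] [TopologicalSpace G] [IsTopologicalGroup G]
  [LocallyCompactSpace G] [T2Space G] [MeasurableSpace G] [BorelSpace G]
  {μ : Measure G} [μ.IsHaarMeasure] {S : Set G} {θ : G → ℝ}

theorem ph_second (hS : IsCompact S) (hθ : Reg S θ) {a : ℝ} {g : G}
    (h : ∀ z, |θ (g * z) - θ z| ≤ a) (b x : G) :
    |Ph μ θ (g * (b * x)) - Ph μ θ (b * x) - Ph μ θ (g * x) + Ph μ θ x| ≤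
      a * ∫ u, |θ (x⁻¹ * b⁻¹ * x * u) - θ u| ∂μ := by
  have i0 : ∀ y c : G, Integrable (fun u => θ (y * u) * θ (c * u)) μ := fun y c =>
    ph_int (μ := μ) hS hθ y c
  have i1 : ∀ y : G, Integrable (fun u => θ (y * u) * θ u) μ := by
    intro y
    have := i0 y 1
    simpa using this
  set c : G := x⁻¹ * b⁻¹ * x with hc
  have hPh : ∀ y : G, Ph μ θ (y * x) = ∫ u, θ (y * x * u) * θ u ∂μ := fun y => rfl
  have e1 : ∀ g' : G, Ph μ θ (g' * (b * x)) = ∫ u, θ (g' * (x * u)) * θ (c * u) ∂μ := by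
    intro g'
    have h1 := integral_mul_left_eq_self (μ := μ) (fun u => θ (g' * (b * x) * u) * θ u) c
    have h2 : Ph μ θ (g' * (b * x)) = ∫ u, θ (g' * (b * x) * u) * θ u ∂μ := rfl
    rw [h2, ← h1]
    congr 1
    funext u
    have h3 : g' * (b * x) * (c * u) = g' * (x * u) := by
      rw [hc]
      group
    rw [h3]
  have e2 : Ph μ θ (b * x) = ∫ u, θ (x * u) * θ (c * u) ∂μ := by
    have := e1 1
    simpa using this
  have j1 : Integrable (fun u => θ (g * (x * u)) * θ (c * u)) μ := by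
    have := i0 (g * x) c
    simpa [mul_assoc] using this
  have j2 : Integrable (fun u => θ (x * u) * θ (c * u)) μ := i0 x c
  have j3 : Integrable (fun u => θ (g * (x * u)) * θ u) μ := by
    have := i1 (g * x)
    simpa [mul_assoc] using this
  have j4 : Integrable (fun u => θ (x * u) * θ u) μ := i1 x
  have e3 : Ph μ θ (g * x) = ∫ u, θ (g * (x * u)) * θ u ∂μ := by
    have h2 : Ph μ θ (g * x) = ∫ u, θ (g * x * u) * θ u ∂μ := rfl
    rw [h2]
    simp_rw [mul_assoc]
  have e4 : Ph μ θ x = ∫ u, θ (x * u) * θ u ∂μ := rfl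
  have e5 : Ph μ θ (g * (b * x)) - Ph μ θ (b * x) - Ph μ θ (g * x) + Ph μ θ x =
      ∫ u, (θ (g * (x * u)) - θ (x * u)) * (θ (c * u) - θ u) ∂μ := by
    have j12 : Integrable (fun u => θ (g * (x * u)) * θ (c * u) - θ (x * u) * θ (c * u)) μ :=
      j1.sub j2
    have j123 : Integrable (fun u => θ (g * (x * u)) * θ (c * u) - θ (x * u) * θ (c * u) -
      θ (g * (x * u)) * θ u) μ := j12.sub j3
    rw [e1 g, e2, e3, e4, ← integral_sub j1 j2, ← integral_sub j12 j3,
      ← integral_add j123 j4]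
    congr 1
    funext u
    ring
  have k1 : Integrable (fun u => θ (c * u) - θ u) μ := by
    have h1 := reg_int (μ := μ) hS hθ c
    have h2 : Integrable θ μ := by
      have := reg_int (μ := μ) hS hθ 1
      simpa using this
    exact h1.sub h2
  rw [e5, ← integral_const_mul, ← Real.norm_eq_abs]
  refine norm_integral_le_of_norm_le (k1.abs.const_mul a) (Eventually.of_forall fun u => ?_)
  rw [Real.norm_eq_abs, abs_mul]
  exact mul_le_mul_of_nonneg_right (h _) (abs_nonneg _)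

theorem int_abs_le (hS : IsCompact S) (hθ : Reg S θ) {V₀ : Set G} (hV₀ : IsCompact V₀)
    (hV₁ : V₀⁻¹ = V₀) (h1 : (1 : G) ∈ V₀) {c : G} (hc : c ∈ V₀) {ε : ℝ}
    (h : ∀ u, |θ (c * u) - θ u| ≤ ε) :
    ∫ u, |θ (c * u) - θ u| ∂μ ≤ ε * (μ (V₀ * S)).toReal := by
  have hz : ∀ u, u ∉ V₀ * S → |θ (c * u) - θ u| = 0 := by
    intro u hu
    have h2 : θ u = 0 := by
      by_contra h0
      apply hu
      have := Set.mul_mem_mul h1 (hθ.supp u h0)
      simpa using this
    have h3 : θ (c * u) = 0 := by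
      by_contra h0
      apply hu
      have hc' : c⁻¹ ∈ V₀ := by
        rw [← hV₁]
        exact Set.inv_mem_inv.2 hc
      have := Set.mul_mem_mul hc' (hθ.supp _ h0)
      simpa using this
    rw [h2, h3]
    simp
  rw [← setIntegral_eq_integral_of_forall_compl_eq_zero hz]
  refine (le_abs_self _).trans ?_
  rw [← Real.norm_eq_abs]
  exact norm_setIntegral_le_of_norm_le_const (hV₀.mul hS).measure_lt_top (fun u _ => by
    rw [Real.norm_eq_abs, abs_abs]
    exact h u)

end Pool.Agent.GY
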