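import Pool.Agent.GY.ThL
import Pool.Agent.GY.Ph2

/-!
# GY.SqLow (diff 2): if `φ 1 - φ x` is small then `θ x > 1 - δ`

`V₁` from `th_equi_right` with `ε = δ/4`, `V₂ ⊆ V₁` a compact neighbourhood of `1`, `m = μ V₂ ∈ (0, ∞)`,
`η = (δ/2)^2 m / 2`.  If `θ x ≤ 1 - δ`, then for `u ∈ V₂`: `θ (x u) ≤ 1 - δ + δ/4` and
`θ u ≥ θ 1 - δ/4 = 1 - δ/4`, so `(θ (x u) - θ u)^2 ≥ (δ/2)^2` on `V₂`, and by `ph_sq`
`φ 1 - φ x = 1/2 ∫ (θ (x u) - θ u)^2 ≥ η`.
-/

open Topology Filter Set MeasureTheory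
open scoped ENNReal Pointwise

namespace Pool.Agent.GY

variable {G : Type*} [Group G] [TopologicalSpace G] [IsTopologicalGroup G]
  [LocallyCompactSpace G] [T2Space G] [MeasurableSpace G] [BorelSpace G]
  {P V : Set G} {τ : G → ℝ}

theorem sq_low (μ : Measure G) [μ.IsHaarMeasure] (hP : IsCompact P) (hτ : Cut V τ) {δ : ℝ}
    (hδ : 0 < δ) :
    ∃ η : ℝ, 0 < η ∧ ∀ w : G → ℝ≥0∞, Wt P w → ∀ x,
      Ph μ (Th w τ) 1 - Ph μ (Th w τ) x < η → 1 - δ < Th w τ x := by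
  obtain ⟨V₁, hV₁, h1⟩ := th_equi_right hτ (ε := δ / 4) (by linarith)
  obtain ⟨V₂, hV₂, hV₂c, -, hV₂s⟩ := exists_cpt_nhd hV₁
  have hμpos : 0 < μ V₂ := Measure.measure_pos_of_mem_nhds μ hV₂
  have hμfin : μ V₂ < ⊤ := hV₂c.measure_lt_top
  have hm : 0 < (μ V₂).toReal := ENNReal.toReal_pos hμpos.ne' hμfin.ne
  refine ⟨(δ / 2) ^ 2 * (μ V₂).toReal / 2, by positivity, ?_⟩
  intro w hw x hx
  by_contra hcon
  push Not at hcon
  have hS : IsCompact (P * tsupport τ) := hP.mul hτ.hcs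
  have hθ : Reg (P * tsupport τ) (Th w τ) := th_reg hτ hw
  have hone : Th w τ 1 = 1 := th_one hτ
  rw [ph_sq hS hθ x] at hx
  have hint : Integrable (fun u => (Th w τ (x * u) - Th w τ u) ^ 2) μ := by
    have i1 := ph_int (μ := μ) hS hθ x x
    have i2 := ph_int (μ := μ) hS hθ x 1
    have i3 := ph_int (μ := μ) hS hθ 1 1
    have := (i1.sub (i2.const_mul 2)).add i3
    refine this.congr ?_
    filter_upwards with u
    simp only [Pi.add_apply, Pi.sub_apply, one_mul]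
    ring
  have hlow : (δ / 2) ^ 2 * (μ V₂).toReal ≤ ∫ u, (Th w τ (x * u) - Th w τ u) ^ 2 ∂μ := by
    have s1 : ∫ u in V₂, (Th w τ (x * u) - Th w τ u) ^ 2 ∂μ ≤
        ∫ u, (Th w τ (x * u) - Th w τ u) ^ 2 ∂μ := by
      apply setIntegral_le_integral hint
      filter_upwards with u
      exact sq_nonneg _
    have s2 : ∫ u in V₂, (δ / 2) ^ 2 ∂μ ≤ ∫ u in V₂, (Th w τ (x * u) - Th w τ u) ^ 2 ∂μ := by
      apply setIntegral_mono_on
      · exact integrableOn_const hμfin.ne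
      · exact hint.integrableOn
      · exact hV₂c.measurableSet
      · intro u hu
        have a1 := h1 w u (hV₂s hu) x
        have a2 := h1 w u (hV₂s hu) 1
        rw [one_mul, hone] at a2
        rw [abs_le] at a1 a2
        have a3 : δ / 2 ≤ -(Th w τ (x * u) - Th w τ u) := by linarith [a1.1, a1.2, a2.1, a2.2]
        have a4 : (δ / 2) ^ 2 ≤ (-(Th w τ (x * u) - Th w τ u)) ^ 2 :=
          pow_le_pow_left₀ (by linarith) a3 2
        rwa [neg_sq] at a4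
    rw [setIntegral_const] at s2
    have e : μ.real V₂ • (δ / 2) ^ 2 = (δ / 2) ^ 2 * (μ V₂).toReal := by
      rw [smul_eq_mul, mul_comm]; rfl
    rw [e] at s2
    linarith
  linarith

end Pool.Agent.GY
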