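import Pool.Agent.GY.Small2
import Pool.Agent.GY.SqLow
import Pool.Agent.GY.PowEst

/-!
# GY.LemmaG (diff 3): the key lemma (Gleason)

`μ` a Haar measure (`borel G`), `τ` a cutoff for `V` (`exists_cut`), `θ = Th w τ`, `φ = Ph μ θ`,
`S = P * tsupport τ`, `M = μ S` (`|φ| ≤ M`, `ph_le`).  `η` from `sq_low` (for `δ`).  Let `ε₁ = η / (2 C)`,
`V₁` from `small_second` with `ε = ε₁ / 2`, and `K ≥ C` with `4 M / K ≤ ε₁ / 2`.
Claim: if `w g ≤ C`, then `|φ (g x) - φ x| ≤ ε₁ (w g)` for all `x`.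
 Let `a = (w g).toReal ≤ C ≤ K`.  If `a = 0`: `th_left` with `a = 0` gives `θ (g z) = θ z`, so
 `φ (g x) = φ x` (`ph_first`).  If `a > 0`: `m = ⌊K / a⌋ ≥ 1`, `m ≥ K / (2 a)`; `i a ≤ K` for `i ≤ m`, so
 `g^i ∈ V₁` for `i ≤ m` (also `g ∈ V₁`); `pow_est` with `c = (ε₁ / 2) a`:
 `m |φ (g x) - φ x| ≤ 2 M + m (ε₁/2) a`, so `|φ (g x) - φ x| ≤ 2 M / m + (ε₁/2) a ≤ (4 M / K + ε₁/2) a ≤ ε₁ a`.
If `rho w x < C`: a list `L` with product `x` and `∑ w < C` (`rho_lt_iff`); all its elements have `w g < C`;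
`list_est` at the point `1`: `|φ x - φ 1| ≤ ε₁ ∑ (w g).toReal ≤ ε₁ C = η / 2 < η`, so `θ x > 1 - δ` (`sq_low`),
and `th_gt` gives `y`.
-/

open Topology Filter Set MeasureTheory
open scoped ENNReal Pointwise

namespace Pool.Agent.GY

variable {G : Type*} [Group G] [TopologicalSpace G] [IsTopologicalGroup G]
  [LocallyCompactSpace G] [T2Space G]

theorem LemmaG_claim {P V : Set G} {τ : G → ℝ} [MeasurableSpace G] [BorelSpace G]
    (μ : Measure G) [μ.IsHaarMeasure] (hP : IsCompact P) (hτ : Cut V τ) {ε₁ C K : ℝ} {V₁ : Set G}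
    (hε : 0 < ε₁) (hC : 0 < C) (hCK : C ≤ K)
    (hK : 4 * (μ (P * tsupport τ)).toReal / K ≤ ε₁ / 2) {w : G → ℝ≥0∞} (hw : Wt P w)
    (hsm : ∀ g ∈ V₁, ∀ b ∈ V₁, ∀ a : ℝ, 0 ≤ a → w g ≤ ENNReal.ofReal a → ∀ x,
        |Ph μ (Th w τ) (g * (b * x)) - Ph μ (Th w τ) (b * x) - Ph μ (Th w τ) (g * x)
          + Ph μ (Th w τ) x| ≤ (ε₁ / 2) * a)
    (hpow : ∀ g, w g ≤ ENNReal.ofReal C → ∀ i : ℕ, (i : ℝ≥0∞) * w g ≤ ENNReal.ofReal K →
      g ^ i ∈ V₁) (g : G) (hg : w g ≤ ENNReal.ofReal C) (x : G) :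
    |Ph μ (Th w τ) (g * x) - Ph μ (Th w τ) x| ≤ ε₁ * (w g).toReal := by
  have hS : IsCompact (P * tsupport τ) := hP.mul hτ.hcs
  have hreg := th_reg hτ hw
  have hK0 : 0 < K := hC.trans_le hCK
  have hne : w g ≠ ⊤ := (hg.trans_lt ENNReal.ofReal_lt_top).ne
  set a : ℝ := (w g).toReal with ha
  have hwa : w g = ENNReal.ofReal a := (ENNReal.ofReal_toReal hne).symm
  have ha0 : 0 ≤ a := ENNReal.toReal_nonneg
  have haC : a ≤ C := by
    rw [hwa] at hg
    exact (ENNReal.ofReal_le_ofReal_iff hC.le).1 hg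
  rcases ha0.eq_or_lt with h0 | hpos
  · have h1 : ∀ z, |Th w τ (g * z) - Th w τ z| ≤ 0 := by
      intro z
      refine th_left hτ hw.symm le_rfl ?_ z
      rw [hwa, ← h0]
    have h2 := ph_first (μ := μ) hS hreg h1 x
    rw [← h0, mul_zero]
    rwa [zero_mul] at h2
  · set m : ℕ := ⌊K / a⌋₊ with hm
    have hKa : 1 ≤ K / a := by
      rw [le_div_iff₀ hpos, one_mul]
      exact haC.trans hCK
    have hm1 : 1 ≤ m := by
      rw [hm]
      exact (Nat.one_le_floor_iff _).2 hKa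
    have hm1' : (1 : ℝ) ≤ m := by exact_mod_cast hm1
    have hmK : (m : ℝ) ≤ K / a := Nat.floor_le (by positivity)
    have hmlt : K / a < m + 1 := Nat.lt_floor_add_one _
    have hmaK : (m : ℝ) * a ≤ K := by
      rw [le_div_iff₀ hpos] at hmK
      exact hmK
    have hpow' : ∀ i : ℕ, i ≤ m → g ^ i ∈ V₁ := by
      intro i hi
      apply hpow g hg i
      rw [hwa, ← ENNReal.ofReal_natCast, ← ENNReal.ofReal_mul (Nat.cast_nonneg i)]
      apply ENNReal.ofReal_le_ofReal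
      have : (i : ℝ) ≤ m := by exact_mod_cast hi
      nlinarith
    have hgV : g ∈ V₁ := by
      have := hpow' 1 hm1
      rwa [pow_one] at this
    have hest := pow_est (φ := Ph μ (Th w τ)) (M := (μ (P * tsupport τ)).toReal)
      (c := (ε₁ / 2) * a) (fun x => ph_le hS hreg x) (g := g) (m := m)
      (fun i hi x => by
        exact hsm g hgV (g ^ i) (hpow' i hi.le) a ha0 (le_of_eq hwa) x) x
    set M : ℝ := (μ (P * tsupport τ)).toReal with hM
    have hM0 : 0 ≤ M := ENNReal.toReal_nonneg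
    set D : ℝ := |Ph μ (Th w τ) (g * x) - Ph μ (Th w τ) x| with hD
    have h4 : 4 * M ≤ ε₁ / 2 * K := by
      rwa [div_le_iff₀ hK0] at hK
    have hKm : K ≤ 2 * m * a := by
      have : K / a < 2 * m := by linarith
      rw [div_lt_iff₀ hpos] at this
      exact this.le
    have h5 : 2 * M ≤ m * (ε₁ / 2 * a) := by
      have : ε₁ / 2 * K ≤ ε₁ / 2 * (2 * m * a) := by
        apply mul_le_mul_of_nonneg_left hKm (by positivity)
      nlinarith
    have h6 : (m : ℝ) * D ≤ m * (ε₁ * a) := by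
      calc (m : ℝ) * D ≤ 2 * M + m * (ε₁ / 2 * a) := hest
        _ ≤ m * (ε₁ / 2 * a) + m * (ε₁ / 2 * a) := by linarith
        _ = m * (ε₁ * a) := by ring
    exact le_of_mul_le_mul_left h6 (by linarith)

omit [Group G] [TopologicalSpace G] [IsTopologicalGroup G] [LocallyCompactSpace G] [T2Space G] in
theorem LemmaG_sum {w : G → ℝ≥0∞} (c : ℝ) (L : List G) (h : (L.map w).sum ≠ ⊤) :
    (L.map fun g => c * (w g).toReal).sum = c * ((L.map w).sum).toReal := by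
  induction L with
  | nil => simp
  | cons g L ih =>
    rw [List.map_cons, List.sum_cons] at h
    have h1 : w g ≠ ⊤ := by
      intro h'
      rw [h'] at h
      simp at h
    have h2 : (L.map w).sum ≠ ⊤ := by
      intro h'
      rw [h'] at h
      simp at h
    rw [List.map_cons, List.sum_cons, ih h2, List.map_cons, List.sum_cons,
      ENNReal.toReal_add h1 h2]
    ring

theorem lemmaG {P V : Set G} (hP : IsCompact P) (hV : V ∈ 𝓝 (1 : G)) {δ C : ℝ} (hδ : 0 < δ)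
    (hδ1 : δ ≤ 1) (hC : 0 < C) :
    ∃ V₁ ∈ 𝓝 (1 : G), ∃ K : ℝ, 0 < K ∧ ∀ w : G → ℝ≥0∞, Wt P w →
      (∀ g, w g ≤ ENNReal.ofReal C → ∀ i : ℕ, (i : ℝ≥0∞) * w g ≤ ENNReal.ofReal K → g ^ i ∈ V₁) →
      ∀ x, rho w x < ENNReal.ofReal C → ∃ y, rho w y < ENNReal.ofReal δ ∧ y⁻¹ * x ∈ V := by
  let _i : MeasurableSpace G := borel G
  have _j : BorelSpace G := ⟨rfl⟩
  let μ : Measure G := Measure.haar
  obtain ⟨τ, hτ⟩ := exists_cut hV
  obtain ⟨η, hη, hlow⟩ := sq_low μ hP hτ hδ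
  set ε₁ : ℝ := η / (2 * C) with hε₁
  have hε₁0 : 0 < ε₁ := by positivity
  obtain ⟨V₁, hV₁, hsm⟩ := small_second μ hP hτ (half_pos hε₁0)
  set M : ℝ := (μ (P * tsupport τ)).toReal with hM
  have hM0 : 0 ≤ M := ENNReal.toReal_nonneg
  set K : ℝ := C + 8 * M / ε₁ with hK
  have hCK : C ≤ K := by
    have : 0 ≤ 8 * M / ε₁ := by positivity
    linarith
  have hK0 : 0 < K := hC.trans_le hCK
  have h4 : 4 * M / K ≤ ε₁ / 2 := by
    rw [div_le_iff₀ hK0, hK]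
    have h1 : ε₁ / 2 * (C + 8 * M / ε₁) = ε₁ / 2 * C + 4 * M := by
      field_simp
      ring
    rw [h1]
    have : 0 < ε₁ / 2 * C := by positivity
    linarith
  refine ⟨V₁, hV₁, K, hK0, ?_⟩
  intro w hw hpow x hx
  have hclaim : ∀ g, w g ≤ ENNReal.ofReal C → ∀ x,
      |Ph μ (Th w τ) (g * x) - Ph μ (Th w τ) x| ≤ ε₁ * (w g).toReal := by
    intro g hg x
    exact LemmaG_claim μ hP hτ hε₁0 hC hCK h4 hw (hsm w hw) hpow g hg x
  obtain ⟨L, hL, hsum⟩ := rho_lt_iff.1 hx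
  have hLe : ∀ g ∈ L, w g ≤ ENNReal.ofReal C := by
    intro g hg
    have h1 : w g ≤ (L.map w).sum := List.single_le_sum (fun _ _ => zero_le) _
      (List.mem_map_of_mem hg)
    exact h1.trans hsum.le
  have hest := list_est (φ := Ph μ (Th w τ)) (a := fun g => ε₁ * (w g).toReal) L
    (fun g hg x => hclaim g (hLe g hg) x) 1
  have hne : (L.map w).sum ≠ ⊤ := (hsum.trans ENNReal.ofReal_lt_top).ne
  rw [LemmaG_sum ε₁ L hne, hL, mul_one] at hest
  have hS : ((L.map w).sum).toReal ≤ C := by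
    exact ENNReal.toReal_le_of_le_ofReal hC.le hsum.le
  have hlt : ε₁ * ((L.map w).sum).toReal ≤ η / 2 := by
    calc ε₁ * ((L.map w).sum).toReal ≤ ε₁ * C := mul_le_mul_of_nonneg_left hS hε₁0.le
      _ = η / 2 := by rw [hε₁]; field_simp
  have hfin : Ph μ (Th w τ) 1 - Ph μ (Th w τ) x < η := by
    have h1 := (abs_le.1 (hest.trans hlt)).1
    linarith
  exact th_gt hτ hδ hδ1 (hlow w hw x hfin)

end Pool.Agent.GY
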