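import Pool.Agent.GY.EscF1
import Pool.Agent.GY.LemmaG

/-!
# GY.EscSum (diff 3): Gleason's lemma: words with small total escape norm stay in `U`

Let `|g|_n = max (esc U g) (1/n)` (`n ≥ 1`), `c_n = inf {∑ |g_i|_n : ∏ g_i ∉ U}` (real `sInf`).  If `U = univ` the claim is trivial; otherwise the set is nonempty
(one letter outside `U`), and `c_n ≥ 1/n > 0` because a word with product `∉ U` is nonempty (`1 ∈ U`).  Words with `∑ |g_i|_n < c_n` have product in `U`.
Constants (independent of `n`): choose `V', V ∈ 𝓝 1` with `V' * V ⊆ U` (`exists_sq_nhd`), `M` from `esc_F1` for `V'`, `δ = 1/M`; `lemmaG` with `P = U`, `V`,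
`δ`, `C = 2` gives `V₁`, `K`; `c₁` from `esc_F1'` for `V₁`.  Let `c* = min (c₁ / (2 K)) (1/4)`.
Claim: `c_n ≥ c*` for all `n`.  Suppose `c_n < c*`.  Weight `w g = ENNReal.ofReal (|g|_n / c_n)`: symmetric (`esc_inv`); `rho w x < 1` gives a word with
`∑ |g_i|_n < c_n`, so `x ∈ U`: `Wt U w`.  Escape condition: let `w g ≤ 2` and `i w g ≤ K`; then `i esc U g ≤ i |g|_n ≤ K c_n ≤ c₁`, so `g^i ∈ V₁`.
By definition of the infimum there is a word with `∑ |g_i|_n < 2 c_n` and product `x ∉ U`; `rho w x < 2`; `lemmaG`: `x = y v` with `rho w y < δ`, `v ∈ V`.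
For `j ≤ M`: `rho w (y^j) ≤ j rho w y < 1` (`rho_pow_le`, `M δ = 1`), so `y^j ∈ U`; hence `y ∈ V'` and `x ∈ V' * V ⊆ U`: contradiction.
Conclusion: if `∑ esc U g_i < c*`, choose `n` with `∑ max (esc U g_i) (1/n) < c*` (`≤ ∑ esc + length/n`), so `∏ ∈ U`.
-/

open Topology Filter Set
open scoped ENNReal Pointwise

namespace Pool.Agent.GY

variable {G : Type*} [Group G] [TopologicalSpace G] [IsTopologicalGroup G]
  [LocallyCompactSpace G] [T2Space G] {U : Set G}

private theorem EscSum_sum {α : Type*} (h : α → ℝ) (h0 : ∀ g, 0 ≤ h g) (L : List α) :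
    (L.map (fun g => ENNReal.ofReal (h g))).sum = ENNReal.ofReal (L.map h).sum := by
  induction L with
  | nil => simp
  | cons a L ih =>
    simp only [List.map_cons, List.sum_cons, ih]
    rw [ENNReal.ofReal_add (h0 a)]
    exact List.sum_nonneg (by
      intro x hx
      obtain ⟨y, -, rfl⟩ := List.mem_map.1 hx
      exact h0 y)

private theorem EscSum_div {α : Type*} (f : α → ℝ) (c : ℝ) (L : List α) :
    (L.map (fun g => f g / c)).sum = (L.map f).sum / c := by
  induction L with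
  | nil => simp
  | cons a L ih =>
    simp only [List.map_cons, List.sum_cons, ih]
    ring

private theorem EscSum_key (hU : NoSub U) :
    ∃ cs : ℝ, 0 < cs ∧ ∀ f : G → ℝ, (∀ g, f g⁻¹ = f g) → (∀ g, esc U g ≤ f g) →
      ∀ c : ℝ, 0 < c → (∀ L : List G, (L.map f).sum < c → L.prod ∈ U) →
      (∃ L : List G, (L.map f).sum < 2 * c ∧ L.prod ∉ U) → cs ≤ c := by
  obtain ⟨V, hV, -, -, hVV⟩ := exists_sq_nhd hU.nhd
  obtain ⟨M, hM, hM'⟩ := esc_F1 hU hV
  have hMr : (0 : ℝ) < M := by exact_mod_cast hM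
  have hδ : (0 : ℝ) < 1 / M := by positivity
  have hδ1 : (1 : ℝ) / M ≤ 1 := by
    rw [div_le_one hMr]
    exact_mod_cast hM
  obtain ⟨V₁, hV₁, K, hK, hG⟩ := lemmaG hU.cpt hV hδ hδ1 (C := 2) (by norm_num)
  obtain ⟨c₁, hc₁, hF⟩ := esc_F1' hU hV₁
  refine ⟨c₁ / K, by positivity, ?_⟩
  intro f hfs hfe c hc hin ⟨L, hL, hLU⟩
  by_contra hcon
  push Not at hcon
  have hcK : K * c < c₁ := by
    rw [lt_div_iff₀ hK] at hcon
    linarith
  have hf0 : ∀ g, 0 ≤ f g := fun g => esc_nonneg.trans (hfe g)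
  have hfc0 : ∀ g, 0 ≤ f g / c := fun g => div_nonneg (hf0 g) hc.le
  set w : G → ℝ≥0∞ := fun g => ENNReal.ofReal (f g / c) with hw
  have hsum : ∀ L : List G, (L.map w).sum = ENNReal.ofReal ((L.map f).sum / c) := by
    intro L
    rw [hw, EscSum_sum _ hfc0, EscSum_div]
  have hWt : Wt U w := by
    refine ⟨fun g => by simp only [hw, hfs], fun x hx => ?_⟩
    obtain ⟨L', hL', hs⟩ := rho_lt_iff.1 hx
    rw [hsum, ← ENNReal.ofReal_one, ENNReal.ofReal_lt_ofReal_iff one_pos, div_lt_one hc] at hs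
    rw [← hL']
    exact hin L' hs
  have hesc : ∀ g, w g ≤ ENNReal.ofReal 2 → ∀ i : ℕ, (i : ℝ≥0∞) * w g ≤ ENNReal.ofReal K →
      g ^ i ∈ V₁ := by
    intro g _ i hi
    have h1 : (i : ℝ) * (f g / c) ≤ K := by
      rw [hw, ← ENNReal.ofReal_natCast, ← ENNReal.ofReal_mul (by positivity),
        ENNReal.ofReal_le_ofReal_iff hK.le] at hi
      exact hi
    apply hF
    have h2 : (i : ℝ) * f g ≤ K * c := by
      rw [← mul_div_assoc, div_le_iff₀ hc] at h1
      exact h1
    have h3 : (i : ℝ) * esc U g ≤ i * f g := by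
      have := hfe g
      gcongr
    linarith
  have hrho : rho w L.prod < ENNReal.ofReal 2 := by
    refine (rho_le_of_list L).trans_lt ?_
    rw [hsum, ENNReal.ofReal_lt_ofReal_iff (by norm_num), div_lt_iff₀ hc]
    exact hL
  obtain ⟨y, hy, hyV⟩ := hG w hWt hesc L.prod hrho
  have hyU : ∀ j ≤ M, y ^ j ∈ U := by
    intro j hj
    apply hWt.mem
    refine (rho_pow_le j).trans_lt ?_
    have h1 : (j : ℝ≥0∞) * rho w y ≤ (M : ℝ≥0∞) * rho w y := by
      gcongr
    refine h1.trans_lt ?_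
    have hM0 : (M : ℝ≥0∞) ≠ 0 := by
      exact_mod_cast hM.ne'
    have hMt : (M : ℝ≥0∞) ≠ ⊤ := ENNReal.natCast_ne_top M
    have h2 : (M : ℝ≥0∞) * rho w y < (M : ℝ≥0∞) * ENNReal.ofReal (1 / M) :=
      (ENNReal.mul_lt_mul_iff_right hM0 hMt).2 hy
    refine h2.trans_eq ?_
    rw [← ENNReal.ofReal_natCast, ← ENNReal.ofReal_mul (by positivity)]
    rw [mul_one_div_cancel hMr.ne', ENNReal.ofReal_one]
  have hyV' := hM' y hyU
  apply hLU
  apply hVV
  exact ⟨y, hyV', y⁻¹ * L.prod, hyV, by simp⟩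

theorem esc_sum (hU : NoSub U) :
    ∃ c : ℝ, 0 < c ∧ ∀ L : List G, (L.map (esc U)).sum < c → L.prod ∈ U := by
  have h1U : (1 : G) ∈ U := mem_of_mem_nhds hU.nhd
  by_cases huniv : ∀ g, g ∈ U
  · exact ⟨1, one_pos, fun L _ => huniv _⟩
  push Not at huniv
  obtain ⟨g₀, hg₀⟩ := huniv
  obtain ⟨cs, hcs, hkey⟩ := EscSum_key hU
  refine ⟨cs, hcs, fun L hL => ?_⟩
  by_contra hLU
  -- choose n
  obtain ⟨n, hn⟩ : ∃ n : ℕ, (L.map (esc U)).sum + L.length * (1 / ((n : ℝ) + 1)) < cs := by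
    have h1 : Tendsto (fun n : ℕ => (L.map (esc U)).sum + L.length * (1 / ((n : ℝ) + 1))) atTop
        (𝓝 ((L.map (esc U)).sum + L.length * 0)) :=
      tendsto_const_nhds.add (tendsto_const_nhds.mul tendsto_one_div_add_atTop_nhds_zero_nat)
    rw [mul_zero, add_zero] at h1
    exact ((h1.eventually (gt_mem_nhds hL)).exists)
  set f : G → ℝ := fun g => max (esc U g) (1 / ((n : ℝ) + 1)) with hf
  have hpos : (0 : ℝ) < 1 / ((n : ℝ) + 1) := by positivity
  have hf0 : ∀ g, 0 < f g := fun g => lt_of_lt_of_le hpos (le_max_right _ _)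
  have hfL : ∀ L : List G, (L.map f).sum ≤
      (L.map (esc U)).sum + L.length * (1 / ((n : ℝ) + 1)) := by
    intro L
    induction L with
    | nil => simp
    | cons a L ih =>
      simp only [List.map_cons, List.sum_cons, List.length_cons, Nat.cast_add, Nat.cast_one]
      have : f a ≤ esc U a + 1 / ((n : ℝ) + 1) := by
        rw [hf]
        apply max_le
        · linarith
        · have := esc_nonneg (U := U) (g := a)
          linarith
      nlinarith
  set S : Set ℝ := {s | ∃ L : List G, L.prod ∉ U ∧ s = (L.map f).sum} with hS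
  have hne : S.Nonempty := ⟨_, [g₀], by simpa using hg₀, rfl⟩
  have hlow : ∀ s ∈ S, 1 / ((n : ℝ) + 1) ≤ s := by
    rintro s ⟨L', hL', rfl⟩
    cases L' with
    | nil => exact absurd (by simpa using h1U) hL'
    | cons a L' =>
      simp only [List.map_cons, List.sum_cons]
      have h1 : 1 / ((n : ℝ) + 1) ≤ f a := le_max_right _ _
      have h2 : 0 ≤ (L'.map f).sum := List.sum_nonneg (by
        intro x hx
        obtain ⟨y, -, rfl⟩ := List.mem_map.1 hx
        exact (hf0 y).le)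
      linarith
  have hbdd : BddBelow S := ⟨_, hlow⟩
  have hc0 : 0 < sInf S := lt_of_lt_of_le hpos (le_csInf hne hlow)
  have hb : ∀ L : List G, (L.map f).sum < sInf S → L.prod ∈ U := by
    intro L' hL'
    by_contra hcon
    exact absurd (csInf_le hbdd ⟨L', hcon, rfl⟩) (not_le.2 hL')
  have hcc : ∃ L : List G, (L.map f).sum < 2 * sInf S ∧ L.prod ∉ U := by
    obtain ⟨s, ⟨L', hL', rfl⟩, hs⟩ := exists_lt_of_csInf_lt hne
      (show sInf S < 2 * sInf S by linarith)
    exact ⟨L', hs, hL'⟩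
  have := hkey f (fun g => by simp only [hf, esc_inv hU.symm]) (fun g => le_max_left _ _)
    (sInf S) hc0 hb hcc
  exact hLU (hb L (lt_of_lt_of_le ((hfL L).trans_lt hn) this))

end Pool.Agent.GY
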