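import Pool.Agent.GY.VSub

/-!
# GY.ExpDef (diff 1-2): the exponential map

`ex v = X_v 1` where `lam X_v = v`.  By `lam_inj` and `lam_scale`, `X_v t = ex (t v)` (`X_v.scale t` has `lam = t v`, value at `1` is `X_v t`).
`ex_dist` is `ops_dist` at `t = 1`.
-/

open Topology Filter Set

namespace Pool.Agent.GY.Gl

variable {G E : Type*} [Group G] [TopologicalSpace G] [IsTopologicalGroup G]
  [NormedAddCommGroup E] [NormedSpace ℝ E] [CompleteSpace E] (S : Gl G E)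

/-- exponential map -/
noncomputable def ex (v : S.T) : G := (S.ι_ops v).choose 1

theorem ex_ops (X : OPS G) (v : S.T) (h : S.lam X = S.ι v) (t : ℝ) : X t = S.ex (t • v) := by
  have h1 : S.lam (S.ι_ops (t • v)).choose = S.ι (t • v) := (S.ι_ops (t • v)).choose_spec
  have h2 : (S.ι_ops (t • v)).choose = X.scale t := by
    apply S.lam_inj
    rw [h1, S.lam_scale, h, map_smul]
  unfold ex
  rw [h2, OPS.scale_apply, mul_one]

theorem exists_ops (v : S.T) : ∃ X : OPS G, S.lam X = S.ι v ∧ ∀ t, X t = S.ex (t • v) := by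
  obtain ⟨X, hX⟩ := S.ι_ops v
  exact ⟨X, hX, S.ex_ops X v hX⟩

theorem ex_add (v : S.T) (s t : ℝ) : S.ex ((s + t) • v) = S.ex (s • v) * S.ex (t • v) := by
  obtain ⟨X, -, hX⟩ := S.exists_ops v
  rw [← hX, ← hX, ← hX]
  exact X.add s t

theorem ex_zero : S.ex 0 = 1 := by
  obtain ⟨X, -, hX⟩ := S.exists_ops (0 : S.T)
  have h := hX 0
  rw [smul_zero] at h
  rw [← h, X.zero']

theorem ExpDef_one (v : S.T) : ∃ X : OPS G, S.lam X = S.ι v ∧ (∀ t, X t = S.ex (t • v)) ∧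
    X 1 = S.ex v := by
  obtain ⟨X, hX, hX'⟩ := S.exists_ops v
  exact ⟨X, hX, hX', by rw [hX', one_smul]⟩

theorem ex_neg (v : S.T) : S.ex (-v) = (S.ex v)⁻¹ := by
  obtain ⟨X, -, hX, h1⟩ := S.ExpDef_one v
  rw [← h1, ← X.neg', hX, neg_one_smul]

theorem ex_natmul (v : S.T) (n : ℕ) : S.ex ((n : ℝ) • v) = S.ex v ^ n := by
  obtain ⟨X, -, hX, h1⟩ := S.ExpDef_one v
  rw [← h1, ← X.natmul, mul_one, hX]

theorem ex_nrm (v : S.T) : ‖S.D (S.ex v)‖ ≤ ‖v‖ := by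
  obtain ⟨X, hl, hX, h1⟩ := S.ExpDef_one v
  have h := S.lam_nrm X 1
  rwa [h1, hl, abs_one, one_mul, S.norm_ι] at h

theorem ex_est (v : S.T) : ‖S.D (S.ex v) - S.ι v‖ ≤ 4 * S.C * ‖v‖ ^ 2 := by
  obtain ⟨X, hl, hX, h1⟩ := S.ExpDef_one v
  have h := S.lam_est X 1
  rwa [h1, hl, one_smul, S.norm_ι, one_pow, mul_one] at h

theorem ex_dist (v w : S.T) (hv : ‖v‖ ≤ S.r) :
    ‖S.D (S.ex v) - S.D (S.ex w)‖ ≤ (1 + 2 * S.C * ‖v‖) * ‖v - w‖ := by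
  obtain ⟨X, hl, hX, h1⟩ := S.ExpDef_one v
  obtain ⟨Y, hl', hY, h1'⟩ := S.ExpDef_one w
  have h := S.ops_dist X Y 1 (by rw [hl, abs_one, one_mul, S.norm_ι]; exact hv)
  rwa [h1, h1', hl, hl', abs_one, one_mul, one_mul, S.norm_ι, ← map_sub, S.norm_ι] at h

theorem ExpDef_contAt (w : S.T) (hw : ‖w‖ < S.r) : ContinuousAt S.ex w := by
  unfold ContinuousAt
  rw [S.tendsto_iff]
  have h1 : Tendsto (fun v : S.T => (1 + 2 * S.C * ‖v‖) * ‖v - w‖) (𝓝 w) (𝓝 0) := by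
    have hc : Continuous (fun v : S.T => (1 + 2 * S.C * ‖v‖) * ‖v - w‖) := by fun_prop
    have := hc.tendsto w
    rwa [sub_self, norm_zero, mul_zero] at this
  refine squeeze_zero' (Eventually.of_forall fun v => norm_nonneg _) ?_ h1
  have h2 : ∀ᶠ v : S.T in 𝓝 w, ‖v‖ < S.r := continuous_norm.continuousAt.eventually_lt_const hw
  filter_upwards [h2] with v hv
  exact S.ex_dist v w hv.le

theorem ex_cont : Continuous S.ex := by
  rw [continuous_iff_continuousAt]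
  intro w
  obtain ⟨n, hn⟩ := exists_nat_gt (‖w‖ / S.r)
  have hr := S.hr
  have hn0 : (0 : ℝ) < n := lt_of_le_of_lt (by positivity) hn
  have h1 : ‖(n : ℝ)⁻¹ • w‖ < S.r := by
    rw [norm_smul, Real.norm_of_nonneg (inv_nonneg.2 hn0.le), inv_mul_lt_iff₀ hn0]
    rwa [div_lt_iff₀ hr] at hn
  have h2 : S.ex = fun v => S.ex ((n : ℝ)⁻¹ • v) ^ n := by
    funext v
    rw [← S.ex_natmul, smul_smul, mul_inv_cancel₀ hn0.ne', one_smul]
  rw [h2]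
  apply ContinuousAt.pow
  exact ContinuousAt.comp (f := fun v : S.T => (n : ℝ)⁻¹ • v) (S.ExpDef_contAt _ h1)
    (continuous_const_smul _).continuousAt

/-- `n (D (ex (v/n))) → v` -/
theorem ex_tendsto (v : S.T) :
    Tendsto (fun n : ℕ => (n : ℝ) • S.D (S.ex ((n : ℝ)⁻¹ • v))) atTop (𝓝 (S.ι v)) := by
  rw [tendsto_iff_norm_sub_tendsto_zero]
  have h1 : Tendsto (fun n : ℕ => 4 * S.C * ‖v‖ ^ 2 * (n : ℝ)⁻¹) atTop (𝓝 0) := by
    have := (tendsto_inv_atTop_nhds_zero_nat (𝕜 := ℝ)).const_mul (4 * S.C * ‖v‖ ^ 2)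
    rwa [mul_zero] at this
  refine squeeze_zero' (Eventually.of_forall fun n => norm_nonneg _) ?_ h1
  filter_upwards [eventually_gt_atTop 0] with n hn
  have hn0 : (0 : ℝ) < n := by exact_mod_cast hn
  have e : (n : ℝ) • S.D (S.ex ((n : ℝ)⁻¹ • v)) - S.ι v
      = (n : ℝ) • (S.D (S.ex ((n : ℝ)⁻¹ • v)) - S.ι ((n : ℝ)⁻¹ • v)) := by
    rw [smul_sub, map_smul, smul_smul, mul_inv_cancel₀ hn0.ne', one_smul]
  rw [e, norm_smul, Real.norm_of_nonneg hn0.le]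
  have h2 := S.ex_est ((n : ℝ)⁻¹ • v)
  rw [norm_smul, Real.norm_of_nonneg (inv_nonneg.2 hn0.le)] at h2
  calc (n : ℝ) * ‖S.D (S.ex ((n : ℝ)⁻¹ • v)) - S.ι ((n : ℝ)⁻¹ • v)‖
      ≤ n * (4 * S.C * ((n : ℝ)⁻¹ * ‖v‖) ^ 2) := mul_le_mul_of_nonneg_left h2 hn0.le
    _ = 4 * S.C * ‖v‖ ^ 2 * (n : ℝ)⁻¹ := by
        field_simp

end Pool.Agent.GY.Gl
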