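import Pool.Agent.GY.Tele
import Pool.Agent.GY.ExpDef

/-!
# GY.ExBi (diff 2): `exp` is bi-Lipschitz near `0`

`tele` with `g = ex (v/n)`, `h = ex (w/n)`: `n ‖D g‖ ≤ ‖v‖ ≤ R`; as `n → ∞`, `n (D g - D h) → v - w` (`ex_tendsto`), so
`n ‖D g - D h‖ → ‖v - w‖`.   `RR = 1/(100 C²)`: `9 C² R ≤ 9/100 ≤ 1/4`, `8 C R ≤ 1`, `RR ≤ r/100` (`hCr`).
-/

open Topology Filter Set

namespace Pool.Agent.GY.Gl

variable {G E : Type*} [Group G] [TopologicalSpace G] [IsTopologicalGroup G]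
  [NormedAddCommGroup E] [NormedSpace ℝ E] [CompleteSpace E] (S : Gl G E)

theorem ExBi_norm (v w : S.T) : ‖S.ι v - S.ι w‖ = ‖v - w‖ := by
  rw [← map_sub, S.norm_ι]

theorem ex_bi {v w : S.T} {R : ℝ} (hv : ‖v‖ ≤ R) (hw : ‖w‖ ≤ R) (hR : 8 * S.C * R ≤ 1) :
    ‖S.D (S.ex v) - S.D (S.ex w) - (S.ι v - S.ι w)‖ ≤ 9 * S.C ^ 2 * R * ‖v - w‖ := by
  have hlim : Tendsto (fun n : ℕ => (n : ℝ) • (S.D (S.ex ((n : ℝ)⁻¹ • v)) -
      S.D (S.ex ((n : ℝ)⁻¹ • w)))) atTop (𝓝 (S.ι v - S.ι w)) := by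
    have := (S.ex_tendsto v).sub (S.ex_tendsto w)
    refine this.congr (fun n => ?_)
    rw [smul_sub]
  have hL : Tendsto (fun n : ℕ => ‖S.D (S.ex v) - S.D (S.ex w) -
      (n : ℝ) • (S.D (S.ex ((n : ℝ)⁻¹ • v)) - S.D (S.ex ((n : ℝ)⁻¹ • w)))‖) atTop
      (𝓝 ‖S.D (S.ex v) - S.D (S.ex w) - (S.ι v - S.ι w)‖) := (hlim.const_sub _).norm
  have hRt : Tendsto (fun n : ℕ => 9 * S.C ^ 2 * R *
      ‖(n : ℝ) • (S.D (S.ex ((n : ℝ)⁻¹ • v)) - S.D (S.ex ((n : ℝ)⁻¹ • w)))‖) atTop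
      (𝓝 (9 * S.C ^ 2 * R * ‖S.ι v - S.ι w‖)) := hlim.norm.const_mul _
  rw [← S.ExBi_norm v w]
  refine le_of_tendsto_of_tendsto hL hRt ?_
  filter_upwards [eventually_ge_atTop 1] with n hn
  have hn0 : (n : ℝ) ≠ 0 := by
    have : (0 : ℝ) < (n : ℝ) := by exact_mod_cast hn
    exact this.ne'
  have hpow : ∀ u : S.T, S.ex ((n : ℝ)⁻¹ • u) ^ n = S.ex u := by
    intro u
    rw [← S.ex_natmul, smul_smul, mul_inv_cancel₀ hn0, one_smul]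
  have hb : ∀ u : S.T, (n : ℝ) * ‖S.D (S.ex ((n : ℝ)⁻¹ • u))‖ ≤ ‖u‖ := by
    intro u
    have h1 := S.ex_nrm ((n : ℝ)⁻¹ • u)
    rw [norm_smul, norm_inv, Real.norm_of_nonneg (Nat.cast_nonneg n)] at h1
    have h2 : (n : ℝ) * ‖S.D (S.ex ((n : ℝ)⁻¹ • u))‖ ≤ (n : ℝ) * ((n : ℝ)⁻¹ * ‖u‖) :=
      mul_le_mul_of_nonneg_left h1 (Nat.cast_nonneg n)
    rwa [← mul_assoc, mul_inv_cancel₀ hn0, one_mul] at h2
  have h := S.tele (S.ex ((n : ℝ)⁻¹ • v)) (S.ex ((n : ℝ)⁻¹ • w)) n hR ((hb v).trans hv)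
    ((hb w).trans hw)
  rw [hpow, hpow] at h
  refine h.trans (le_of_eq ?_)
  rw [norm_smul, Real.norm_of_nonneg (Nat.cast_nonneg n)]
  ring

/-- the basic radius -/
noncomputable def RR : ℝ := 1 / (100 * S.C ^ 2)

theorem RR_pos : 0 < S.RR := by
  have hC := S.hC
  unfold RR
  positivity

theorem RR_le : S.RR ≤ 1 / 100 := by
  have hC := S.hC
  unfold RR
  apply one_div_le_one_div_of_le (by norm_num)
  nlinarith

theorem C_RR : 100 * (S.C * S.RR) ≤ 1 := by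
  have hC := S.hC
  unfold RR
  have h1 : 100 * (S.C * (1 / (100 * S.C ^ 2))) = 1 / S.C := by
    have : S.C ≠ 0 := by linarith
    field_simp
  rw [h1, div_le_one (by linarith)]
  exact hC

theorem RR_le_r : 100 * S.RR ≤ S.r := by
  have hC := S.hC
  have hCr := S.hCr
  have h1 := S.C_RR
  have h2 := S.RR_pos
  by_contra hcon
  push Not at hcon
  have : S.C * S.r < S.C * (100 * S.RR) := mul_lt_mul_of_pos_left hcon (by linarith)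
  linarith

theorem ExBi_est {v w : S.T} (hv : ‖v‖ ≤ S.RR) (hw : ‖w‖ ≤ S.RR) :
    ‖S.D (S.ex v) - S.D (S.ex w) - (S.ι v - S.ι w)‖ ≤ 1 / 4 * ‖v - w‖ := by
  have hC := S.hC
  refine (S.ex_bi hv hw (by have := S.C_RR; have := S.RR_pos; nlinarith)).trans ?_
  apply mul_le_mul_of_nonneg_right _ (norm_nonneg _)
  unfold RR
  have h1 : 9 * S.C ^ 2 * (1 / (100 * S.C ^ 2)) = 9 / 100 := by
    have : S.C ≠ 0 := by linarith
    field_simp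
  rw [h1]
  norm_num

theorem ex_lower {v w : S.T} (hv : ‖v‖ ≤ S.RR) (hw : ‖w‖ ≤ S.RR) :
    3 / 4 * ‖v - w‖ ≤ ‖S.D (S.ex v) - S.D (S.ex w)‖ := by
  have h1 := S.ExBi_est hv hw
  have h2 := norm_sub_norm_le (S.ι v - S.ι w) (S.D (S.ex v) - S.D (S.ex w))
  rw [norm_sub_rev] at h1
  rw [S.ExBi_norm] at h2
  linarith

theorem ex_upper {v w : S.T} (hv : ‖v‖ ≤ S.RR) (hw : ‖w‖ ≤ S.RR) :
    ‖S.D (S.ex v) - S.D (S.ex w)‖ ≤ 5 / 4 * ‖v - w‖ := by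
  have h1 := S.ExBi_est hv hw
  have h2 := norm_sub_norm_le (S.D (S.ex v) - S.D (S.ex w)) (S.ι v - S.ι w)
  rw [S.ExBi_norm] at h2
  linarith

theorem ex_inj {v w : S.T} (hv : ‖v‖ ≤ S.RR) (hw : ‖w‖ ≤ S.RR) (h : S.ex v = S.ex w) : v = w := by
  have h1 := S.ex_lower hv hw
  rw [h, sub_self, norm_zero] at h1
  have h2 : ‖v - w‖ = 0 := le_antisymm (by linarith) (norm_nonneg _)
  exact sub_eq_zero.1 (norm_eq_zero.1 h2)

end Pool.Agent.GY.Gl
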