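import Pool.Agent.GY.VSub

/-!
# GY.LemT (diff 2): small group elements are almost tangent

Suppose not: for every `n` there is `h_n` with `‖D (h_n)‖ < 1/(n+1)` and `‖D (h_n) - u‖ > ε ‖D (h_n)‖` for all `u ∈ V`.
`u = 0` gives `D (h_n) ≠ 0` (otherwise `0 > 0`... `‖D h_n‖ > ε ‖D h_n‖` is false if `D h_n = 0`).  `s_n = ‖D (h_n)‖ > 0`, `s_n → 0`.  `lim_lemma` with the hyperfilter, `A = 1`:
`D (h_n)/s_n → lam Z`; so for some `n` `‖D (h_n)/s_n - lam Z‖ ≤ ε`, i.e. `‖D (h_n) - s_n lam Z‖ ≤ ε s_n`, `s_n lam Z ∈ V`: contradiction.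
-/

open Topology Filter Set

namespace Pool.Agent.GY.Gl

variable {G E : Type*} [Group G] [TopologicalSpace G] [IsTopologicalGroup G]
  [NormedAddCommGroup E] [NormedSpace ℝ E] [CompleteSpace E] (S : Gl G E)

theorem lemT {ε : ℝ} (hε : 0 < ε) : ∃ δ : ℝ, 0 < δ ∧ ∀ h : G, ‖S.D h‖ < δ →
    ∃ u : S.T, ‖S.D h - S.ι u‖ ≤ ε * ‖S.D h‖ := by
  by_contra hcon
  push Not at hcon
  choose h hh hu using fun n : ℕ => hcon (1 / ((n : ℝ) + 1)) (by positivity)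
  have hpos : ∀ n, 0 < ‖S.D (h n)‖ := by
    intro n
    by_contra h0
    have h1 : ‖S.D (h n)‖ = 0 := le_antisymm (not_lt.1 h0) (norm_nonneg _)
    have h2 := hu n 0
    rw [map_zero, sub_zero, h1, mul_zero] at h2
    exact lt_irrefl _ h2
  have hs0 : Tendsto (fun n => ‖S.D (h n)‖) (hyperfilter ℕ : Filter ℕ) (𝓝 0) :=
    squeeze_zero (fun n => norm_nonneg _) (fun n => (hh n).le)
      (tendsto_one_div_add_atTop_nhds_zero_nat.mono_left Nat.hyperfilter_le_atTop)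
  obtain ⟨Z, -, hZ⟩ := S.lim_lemma (hyperfilter ℕ) h (fun n => ‖S.D (h n)‖) hpos hs0
    (A := 1) (fun n => by rw [one_mul])
  obtain ⟨z, hz⟩ := S.exists_ι Z
  have hev : ∀ᶠ n in (hyperfilter ℕ : Filter ℕ),
      ‖(‖S.D (h n)‖)⁻¹ • S.D (h n) - S.lam Z‖ < ε := by
    have := (tendsto_iff_norm_sub_tendsto_zero.1 hZ).eventually (gt_mem_nhds hε)
    exact this
  obtain ⟨n, hn⟩ := hev.exists
  have h1 := hu n (‖S.D (h n)‖ • z)
  rw [map_smul, hz] at h1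
  have e : S.D (h n) - ‖S.D (h n)‖ • S.lam Z =
      ‖S.D (h n)‖ • ((‖S.D (h n)‖)⁻¹ • S.D (h n) - S.lam Z) := by
    rw [smul_sub, smul_smul, mul_inv_cancel₀ (hpos n).ne', one_smul]
  rw [e, norm_smul, norm_norm] at h1
  have h2 := mul_lt_mul_of_pos_left hn (hpos n)
  linarith

end Pool.Agent.GY.Gl
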