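import Pool.Agent.GY.ExBi
import Pool.Agent.GY.LemT

/-!
# GY.ExOpen (diff 3): `exp` is open near `0`

Let `‖v₀‖ < RR`; we may assume `ρ ≤ RR - ‖v₀‖` and `ρ ≤ 1`.  `δ₁` from `lemT` for `ε = 1/8`.  Let `δ ≤ δ₁`, `δ ≤ ρ/16`, `δ ≤ r`, and `‖D g - D (ex v₀)‖ < δ`.
The closed ball `B` of centre `v₀`, radius `ρ/2` in `V` is compact (`V` finite dimensional); let `v ∈ B` minimise `‖D g - D (ex v)‖`; the minimum is `< δ`
(value at `v₀`).  Let `h = g (ex v)⁻¹`, `‖D h‖ = ‖D g - D (ex v)‖ < δ` (`dist_eq`).  If `h = 1`, then `g = ex v`, done.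
Otherwise `u ∈ V` with `‖D h - u‖ ≤ ‖D h‖/8`, `‖u‖ ≤ 2 ‖D h‖`.
* `‖v - v₀‖ ≤ (4/3) ‖D (ex v) - D (ex v₀)‖ ≤ (4/3) 2 δ < ρ/4` (`ex_lower`), so `v + u ∈ B` (`‖u‖ ≤ 2 δ ≤ ρ/8`).
* `g = h ex v`: `‖D g - D (ex v) - D h‖ ≤ C ‖D h‖ ‖v‖ ≤ C RR ‖D h‖` (`mul`, `ex_nrm`);
  `‖D (ex (v+u)) - D (ex v) - u‖ ≤ 9 C² RR ‖u‖ ≤ 18 C² RR ‖D h‖` (`ex_bi`).
  So `‖D g - D (ex (v+u))‖ ≤ (1/8 + C RR + 18 C² RR) ‖D h‖ ≤ (1/8 + 19/100) ‖D h‖ < ‖D h‖`: contradicts the minimality.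
-/

open Topology Filter Set

namespace Pool.Agent.GY.Gl

variable {G E : Type*} [Group G] [TopologicalSpace G] [IsTopologicalGroup G]
  [NormedAddCommGroup E] [NormedSpace ℝ E] [CompleteSpace E] (S : Gl G E)

theorem ex_open {v₀ : S.T} (hv₀ : ‖v₀‖ < S.RR) {ρ : ℝ} (hρ : 0 < ρ) :
    ∃ δ : ℝ, 0 < δ ∧ ∀ g : G, ‖S.D g - S.D (S.ex v₀)‖ < δ →
      ∃ v : S.T, ‖v - v₀‖ < ρ ∧ S.ex v = g := by
  obtain ⟨δ₁, hδ₁, hT⟩ := S.lemT (ε := 1 / 8) (by norm_num)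
  obtain ⟨η, hη, hη1, hη2⟩ : ∃ η : ℝ, 0 < η ∧ η ≤ ρ ∧ η ≤ S.RR - ‖v₀‖ :=
    ⟨min ρ (S.RR - ‖v₀‖), lt_min hρ (by linarith), min_le_left _ _, min_le_right _ _⟩
  refine ⟨min (min δ₁ (η / 16)) S.r, lt_min (lt_min hδ₁ (by linarith)) S.hr, ?_⟩
  intro g hg0
  have hg : ‖S.D g - S.D (S.ex v₀)‖ < min δ₁ (η / 16) := lt_of_lt_of_le hg0 (min_le_left _ _)
  have hg3 : ‖S.D g - S.D (S.ex v₀)‖ < S.r := lt_of_lt_of_le hg0 (min_le_right _ _)
  have hg1 : ‖S.D g - S.D (S.ex v₀)‖ < δ₁ := lt_of_lt_of_le hg (min_le_left _ _)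
  have hg2 : ‖S.D g - S.D (S.ex v₀)‖ < η / 16 := lt_of_lt_of_le hg (min_le_right _ _)
  have hDc : Continuous S.D := S.emb.continuous
  have hfc : Continuous (fun v : S.T => ‖S.D g - S.D (S.ex v)‖) :=
    (continuous_const.sub (hDc.comp S.ex_cont)).norm
  have : ProperSpace S.T := FiniteDimensional.proper ℝ S.T
  obtain ⟨v, hvB, hvmin⟩ := (isCompact_closedBall v₀ (η / 2)).exists_isMinOn
    ⟨v₀, by simp; linarith⟩ hfc.continuousOn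
  have hvB' : ‖v - v₀‖ ≤ η / 2 := by
    rw [← dist_eq_norm]; exact Metric.mem_closedBall.mp hvB
  have hmin : ∀ w : S.T, ‖w - v₀‖ ≤ η / 2 →
      ‖S.D g - S.D (S.ex v)‖ ≤ ‖S.D g - S.D (S.ex w)‖ := by
    intro w hw
    exact isMinOn_iff.mp hvmin w (Metric.mem_closedBall.mpr (by rw [dist_eq_norm]; exact hw))
  have hfv : ‖S.D g - S.D (S.ex v)‖ ≤ ‖S.D g - S.D (S.ex v₀)‖ :=
    hmin v₀ (by simp; linarith)
  obtain ⟨h, hh⟩ : ∃ h : G, h = g * (S.ex v)⁻¹ := ⟨_, rfl⟩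
  have hhg : h * S.ex v = g := by rw [hh]; group
  have hDh : ‖S.D h‖ = ‖S.D g - S.D (S.ex v)‖ := by
    have h1 := S.right h 1 (S.ex v)
    rw [hhg, one_mul, S.one, sub_zero] at h1
    exact h1.symm
  obtain ⟨u, hu⟩ := hT h (by rw [hDh]; linarith)
  have hnn : 0 ≤ ‖S.D h‖ := norm_nonneg _
  have hu1 : ‖u‖ ≤ 9 / 8 * ‖S.D h‖ := by
    rw [← S.norm_ι u]
    have h1 : ‖S.ι u‖ ≤ ‖S.D h‖ + ‖S.D h - S.ι u‖ := by
      have h2 : S.ι u = S.D h - (S.D h - S.ι u) := by abel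
      calc ‖S.ι u‖ = ‖S.D h - (S.D h - S.ι u)‖ := by rw [← h2]
        _ ≤ _ := norm_sub_le _ _
    linarith
  rcases hnn.eq_or_lt with h0 | hpos
  · refine ⟨v, by linarith, ?_⟩
    have h1 : S.D h = S.D 1 := by
      rw [S.one]; exact norm_eq_zero.mp h0.symm
    have h2 : h = 1 := S.emb.injective h1
    rw [← hhg, h2, one_mul]
  · exfalso
    have hC := S.hC
    have hRR : S.C ^ 2 * S.RR = 1 / 100 := by
      unfold RR
      have : S.C ^ 2 ≠ 0 := by positivity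
      field_simp
    have hRRp := S.RR_pos
    have hRR1 : S.RR ≤ 1 := le_trans S.RR_le (by norm_num)
    have hvn : ‖v‖ ≤ S.RR := by
      have h1 : ‖v‖ ≤ ‖v - v₀‖ + ‖v₀‖ := by
        calc ‖v‖ = ‖(v - v₀) + v₀‖ := by rw [sub_add_cancel]
          _ ≤ _ := norm_add_le _ _
      linarith
    have hlow := S.ex_lower hvn hv₀.le
    have htri : ‖S.D (S.ex v) - S.D (S.ex v₀)‖ ≤
        ‖S.D g - S.D (S.ex v)‖ + ‖S.D g - S.D (S.ex v₀)‖ := by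
      have h2 : S.D (S.ex v) - S.D (S.ex v₀) =
        (S.D g - S.D (S.ex v₀)) - (S.D g - S.D (S.ex v)) := by abel
      rw [h2]
      have := norm_sub_le (S.D g - S.D (S.ex v₀)) (S.D g - S.D (S.ex v))
      linarith
    have hvv0 : ‖v - v₀‖ ≤ η / 6 := by linarith
    have hub : ‖u‖ ≤ η / 8 := by
      have : ‖S.D h‖ < η / 16 := by rw [hDh]; linarith
      linarith
    have hwB : ‖(v + u) - v₀‖ ≤ η / 2 := by
      have h1 : (v + u) - v₀ = (v - v₀) + u := by abel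
      rw [h1]
      have := norm_add_le (v - v₀) u
      linarith
    have hwn : ‖v + u‖ ≤ S.RR := by
      have h1 : ‖v + u‖ ≤ ‖(v + u) - v₀‖ + ‖v₀‖ := by
        calc ‖v + u‖ = ‖((v + u) - v₀) + v₀‖ := by rw [sub_add_cancel]
          _ ≤ _ := norm_add_le _ _
      linarith
    have hCRR := S.C_RR
    have hRRr := S.RR_le_r
    have hbi := S.ex_bi (v := v + u) (w := v) (R := S.RR) hwn hvn (by linarith)
    have hexv := S.ex_nrm v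
    have hmul := S.mul h (S.ex v) (by rw [hDh]; linarith) (by linarith)
    rw [hhg] at hmul
    have hι : S.ι (v + u) - S.ι v = S.ι u := by rw [map_add]; abel
    rw [hι, add_sub_cancel_left] at hbi
    have hkey : ‖S.D g - S.D (S.ex (v + u))‖ ≤
        ‖S.D g - S.D h - S.D (S.ex v)‖ + ‖S.D h - S.ι u‖ +
        ‖S.D (S.ex (v + u)) - S.D (S.ex v) - S.ι u‖ := by
      have h2 : S.D g - S.D (S.ex (v + u)) =
        (S.D g - S.D h - S.D (S.ex v)) + (S.D h - S.ι u) -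
          (S.D (S.ex (v + u)) - S.D (S.ex v) - S.ι u) := by abel
      rw [h2]
      refine le_trans (norm_sub_le _ _) ?_
      have := norm_add_le (S.D g - S.D h - S.D (S.ex v)) (S.D h - S.ι u)
      linarith
    have hmin' := hmin (v + u) hwB
    rw [← hDh] at hmin'
    have e1 : S.C * ‖S.D h‖ * ‖S.D (S.ex v)‖ ≤ 1 / 100 * ‖S.D h‖ := by
      have h1 : ‖S.D (S.ex v)‖ ≤ S.RR := le_trans hexv hvn
      have h2 : S.C * S.RR ≤ 1 / 100 := by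
        rw [← hRR]
        have : S.C ≤ S.C ^ 2 := by nlinarith
        exact mul_le_mul_of_nonneg_right this hRRp.le
      calc S.C * ‖S.D h‖ * ‖S.D (S.ex v)‖ ≤ S.C * ‖S.D h‖ * S.RR :=
            mul_le_mul_of_nonneg_left h1 (by positivity)
        _ = (S.C * S.RR) * ‖S.D h‖ := by ring
        _ ≤ 1 / 100 * ‖S.D h‖ := mul_le_mul_of_nonneg_right h2 hnn
    have e2 : 9 * S.C ^ 2 * S.RR * ‖u‖ ≤ 81 / 800 * ‖S.D h‖ := by
      have h1 : 9 * S.C ^ 2 * S.RR = 9 / 100 := by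
        calc 9 * S.C ^ 2 * S.RR = 9 * (S.C ^ 2 * S.RR) := by ring
          _ = 9 / 100 := by rw [hRR]; norm_num
      rw [h1]
      linarith
    linarith

end Pool.Agent.GY.Gl
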