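import Mathlib

/-!
# GY.FreeSyl (diff 2): the syllable form of a nontrivial element of a free group

Claim: for every `w` there is a list `L` (possibly empty) with consecutive first components different, all second components nonzero and `w = (L.map (fun p => of p.1 ^ p.2)).prod`.
Induction: `w = 1`: `L = []`.  Multiplication on the left by `of i ^ e`, `e = ± 1`: if the head of `L` is `(i, c)`: replace it by `(i, c + e)`, or drop it if `c + e = 0`; otherwise put `(i, e)` in front.
(`FreeGroup.induction_on`-like induction over words `FreeGroup.mk l`, `l : List (α × Bool)`.)  If `w ≠ 1`, then `L ≠ []`.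
-/

namespace Pool.Agent.GY

/-- syllable forms -/
def FreeSyl_P {k : ℕ} (w : FreeGroup (Fin k)) : Prop :=
  ∃ L : List (Fin k × ℤ), (∀ p ∈ L, p.2 ≠ 0) ∧ L.IsChain (fun p q => p.1 ≠ q.1) ∧
      w = (L.map (fun p => FreeGroup.of p.1 ^ p.2)).prod

theorem FreeSyl_mul {k : ℕ} (i : Fin k) (e : ℤ) (he : e ≠ 0) (w : FreeGroup (Fin k))
    (hw : FreeSyl_P w) : FreeSyl_P (FreeGroup.of i ^ e * w) := by
  obtain ⟨L, h1, h2, rfl⟩ := hw
  match L, h1, h2 with
  | [], _, _ =>
    refine ⟨[(i, e)], ?_, List.isChain_singleton _, by simp⟩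
    intro p hp
    rw [List.mem_singleton] at hp
    rw [hp]
    exact he
  | (j, c) :: L', h1, h2 =>
    by_cases hj : j = i
    · subst hj
      have h3 : L'.IsChain (fun p q : Fin k × ℤ => p.1 ≠ q.1) := List.IsChain.tail h2
      by_cases hc : e + c = 0
      · refine ⟨L', fun p hp => h1 p (List.mem_cons_of_mem _ hp), h3, ?_⟩
        rw [List.map_cons, List.prod_cons, ← mul_assoc]
        simp only
        rw [← zpow_add, hc, zpow_zero, one_mul]
      · refine ⟨(j, e + c) :: L', ?_, ?_, ?_⟩
        · intro p hp
          rw [List.mem_cons] at hp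
          rcases hp with rfl | hp
          · exact hc
          · exact h1 p (List.mem_cons_of_mem _ hp)
        · match L', h2 with
          | [], _ => exact List.isChain_singleton _
          | q :: L'', h2 =>
            rw [List.isChain_cons_cons] at h2 ⊢
            exact h2
        · rw [List.map_cons, List.prod_cons, List.map_cons, List.prod_cons, ← mul_assoc]
          simp only
          rw [← zpow_add]
    · refine ⟨(i, e) :: (j, c) :: L', ?_, ?_, ?_⟩
      · intro p hp
        rw [List.mem_cons] at hp
        rcases hp with rfl | hp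
        · exact he
        · exact h1 p hp
      · rw [List.isChain_cons_cons]
        exact ⟨fun h => hj h.symm, h2⟩
      · simp

theorem FreeSyl_all {k : ℕ} (z : FreeGroup (Fin k)) :
    ∀ w : FreeGroup (Fin k), FreeSyl_P w → FreeSyl_P (z * w) := by
  induction z using FreeGroup.induction_on with
  | C1 => intro w hw; rwa [one_mul]
  | of x =>
    intro w hw
    have := FreeSyl_mul x 1 one_ne_zero w hw
    rwa [zpow_one] at this
  | inv_of x _ =>
    intro w hw
    have := FreeSyl_mul x (-1) (by norm_num) w hw
    rwa [zpow_neg_one] at this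
  | mul x y hx hy =>
    intro w hw
    rw [mul_assoc]
    exact hx _ (hy _ hw)

theorem free_syl {k : ℕ} (w : FreeGroup (Fin k)) (hw : w ≠ 1) :
    ∃ L : List (Fin k × ℤ), L ≠ [] ∧ (∀ p ∈ L, p.2 ≠ 0) ∧ L.IsChain (fun p q => p.1 ≠ q.1) ∧
      w = (L.map (fun p => FreeGroup.of p.1 ^ p.2)).prod := by
  have h0 : FreeSyl_P (1 : FreeGroup (Fin k)) := ⟨[], by simp, List.isChain_nil, by simp⟩
  have h1 := FreeSyl_all w 1 h0
  rw [mul_one] at h1
  obtain ⟨L, h2, h3, h4⟩ := h1
  refine ⟨L, ?_, h2, h3, h4⟩
  rintro rfl
  apply hw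
  rw [h4]
  simp

end Pool.Agent.GY
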