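import Pool.Agent.GY.DphiA
import Pool.Agent.GY.EscF1

/-!
# GY.GLow (diff 2): the lower bound `esc U g ≤ ‖D g‖ / c₀`

There is `c₀ > 0` with `‖D y‖ ≥ c₀` for all `y ∉ interior U`: on the compact set `tsupport φ \ interior U` the continuous function `‖D y‖` (`Dphi_cont`) is positive
(`hsep`: `‖D y‖ = 0` gives `φ (y x) = φ x` for all `x`, so `y = 1 ∈ interior U`), so it has a positive minimum (or the set is empty); for `y ∉ tsupport φ`:
`‖D y‖ ≥ |φ (y 1) - φ 1| = φ 1 > 0`.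
If `esc U g ≠ 0` let `n` be the exit time (`exists_exit`): `g^n ∉ U`, so `c₀ ≤ ‖D (g^n)‖ ≤ n ‖D g‖`, and `esc U g = 1/n ≤ ‖D g‖/c₀`.
-/

open Topology Filter Set
open scoped BoundedContinuousFunction Pointwise

namespace Pool.Agent.GY

variable {G : Type*} [Group G] [TopologicalSpace G] [IsTopologicalGroup G]
  [LocallyCompactSpace G] [T2Space G] {φ : G → ℝ} {U : Set G}

private theorem glow_c0 (hU : NoSub U) (hc : Continuous φ) {M : ℝ} (hM : ∀ x, |φ x| ≤ M)
    (hs : HasCompactSupport φ) (h1 : 0 < φ 1) (hsep : ∀ g, (∀ x, φ (g * x) = φ x) → g = 1) :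
    ∃ c₀ : ℝ, 0 < c₀ ∧ ∀ y, y ∉ interior U → c₀ ≤ ‖Dphi φ hc M hM y‖ := by
  have hcont : Continuous fun y => ‖Dphi φ hc M hM y‖ := (Dphi_cont hc hM hs).norm
  have hK : IsCompact (tsupport φ ∩ (interior U)ᶜ) :=
    IsCompact.inter_right hs isOpen_interior.isClosed_compl
  have hout : ∀ y, y ∉ tsupport φ → φ 1 ≤ ‖Dphi φ hc M hM y‖ := by
    intro y hy
    have h := (Dphi φ hc M hM y).norm_coe_le_norm 1
    rw [Dphi_apply, mul_one, image_eq_zero_of_notMem_tsupport hy, zero_sub, norm_neg,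
      Real.norm_eq_abs, abs_of_pos h1] at h
    exact h
  have hpos : ∀ y, y ∉ interior U → 0 < ‖Dphi φ hc M hM y‖ := by
    intro y hy
    rcases (norm_nonneg (Dphi φ hc M hM y)).eq_or_lt with h | h
    · exfalso
      apply hy
      have : y = 1 := by
        apply hsep
        intro x
        have h2 := (Dphi_norm_le hc hM y le_rfl).1 h.symm.le x
        have h3 := abs_nonpos_iff.1 h2
        linarith
      rw [this]
      exact mem_interior_iff_mem_nhds.2 hU.nhd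
    · exact h
  rcases (tsupport φ ∩ (interior U)ᶜ).eq_empty_or_nonempty with he | hne
  · refine ⟨φ 1, h1, ?_⟩
    intro y hy
    apply hout
    intro hy2
    have : y ∈ tsupport φ ∩ (interior U)ᶜ := ⟨hy2, hy⟩
    rw [he] at this
    exact this
  · obtain ⟨y0, hy0, hmin⟩ := hK.exists_isMinOn hne hcont.continuousOn
    refine ⟨min (φ 1) ‖Dphi φ hc M hM y0‖, lt_min h1 (hpos y0 hy0.2), ?_⟩
    intro y hy
    by_cases hyt : y ∈ tsupport φ
    · exact (min_le_right _ _).trans (hmin ⟨hyt, hy⟩)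
    · exact (min_le_left _ _).trans (hout y hyt)

theorem glow (hU : NoSub U) (hc : Continuous φ) {M : ℝ} (hM : ∀ x, |φ x| ≤ M)
    (hs : HasCompactSupport φ) (h1 : 0 < φ 1) (hsep : ∀ g, (∀ x, φ (g * x) = φ x) → g = 1) :
    ∃ K : ℝ, 0 < K ∧ ∀ g, esc U g ≤ K * ‖Dphi φ hc M hM g‖ := by
  obtain ⟨c₀, hc₀, hlow⟩ := glow_c0 hU hc hM hs h1 hsep
  refine ⟨1 / c₀, by positivity, ?_⟩
  intro g
  by_cases he : esc U g = 0
  · rw [he]
    positivity
  · obtain ⟨n, hn, hgn, -⟩ := exists_exit he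
    have hn0 : n ≠ 0 := by
      rintro rfl
      apply hgn
      rw [pow_zero]
      exact mem_of_mem_nhds hU.nhd
    have hn' : (0 : ℝ) < n := by exact_mod_cast Nat.pos_of_ne_zero hn0
    have h2 : c₀ ≤ ‖Dphi φ hc M hM (g ^ n)‖ := hlow _ fun h => hgn (interior_subset h)
    have h3 := h2.trans (Dphi_pow_le hc hM g n)
    rw [hn]
    rw [div_le_iff₀ hn']
    calc (1 : ℝ) = 1 / c₀ * c₀ := by field_simp
      _ ≤ 1 / c₀ * (n * ‖Dphi φ hc M hM g‖) := by
        apply mul_le_mul_of_nonneg_left h3 (by positivity)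
      _ = 1 / c₀ * ‖Dphi φ hc M hM g‖ * n := by ring

end Pool.Agent.GY
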