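import Pool.Agent.GY.ThA

/-!
# GY.ThL (diff 2): equicontinuity of `θ`, uniformly in the weight

* right: `right_unif` for `τ` and `th_right`.
* left: let `S = P * tsupport τ` (compact), `V₀` a compact symmetric neighbourhood of `1`, `V₂` from the right
  equicontinuity.  By `unif_conj` with the compact set `B = V₀ * S` there is `V₁ ⊆ V₀` with
  `u⁻¹ c u ∈ V₂` for `u ∈ B`, `c ∈ V₁`; then `c u = u (u⁻¹ c u)`.  For `u ∉ V₀ * S` both
  `u ∉ S` and `c u ∉ S` (`u = c⁻¹ (c u)`), so both values are `0` (`th_supp`).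
-/

open Topology Filter Set
open scoped ENNReal Pointwise

namespace Pool.Agent.GY

variable {G : Type*} [Group G] [TopologicalSpace G] [IsTopologicalGroup G]
  [LocallyCompactSpace G] [T2Space G] {P V : Set G} {τ : G → ℝ}

theorem th_equi_right (hτ : Cut V τ) {ε : ℝ} (hε : 0 < ε) :
    ∃ V₁ ∈ 𝓝 (1 : G), ∀ w : G → ℝ≥0∞, ∀ u ∈ V₁, ∀ x, |Th w τ (x * u) - Th w τ x| ≤ ε := by
  obtain ⟨V₁, hV₁, h⟩ := right_unif hτ.cont hτ.hcs hε
  exact ⟨V₁, hV₁, fun w u hu x => th_right hτ (fun x => h u hu x) x⟩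

theorem th_equi_left (hP : IsCompact P) (hτ : Cut V τ) {ε : ℝ} (hε : 0 < ε) :
    ∃ V₁ ∈ 𝓝 (1 : G), ∀ w : G → ℝ≥0∞, Wt P w → ∀ c ∈ V₁, ∀ x,
      |Th w τ (c * x) - Th w τ x| ≤ ε := by
  have hS : IsCompact (P * tsupport τ) := hP.mul hτ.hcs
  obtain ⟨V₀, hV₀, hV₀c, hV₀s, -⟩ := exists_cpt_nhd (G := G) (U := Set.univ) univ_mem
  obtain ⟨V₂, hV₂, h2⟩ := th_equi_right hτ hε
  obtain ⟨V', hV', h'⟩ := unif_conj (hV₀c.mul hS) hV₂
  refine ⟨V₀ ∩ V', inter_mem hV₀ hV', ?_⟩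
  intro w hw c hc u
  by_cases hu : u ∈ V₀ * (P * tsupport τ)
  · have h3 := h2 w (u⁻¹ * c * u) (h' u hu c hc.2) u
    have e : u * (u⁻¹ * c * u) = c * u := by group
    rwa [e] at h3
  · have h4 : Th w τ u = 0 := by
      by_contra hne
      apply hu
      exact ⟨1, mem_of_mem_nhds hV₀, u, th_supp hτ hw hne, by simp⟩
    have h5 : Th w τ (c * u) = 0 := by
      by_contra hne
      apply hu
      refine ⟨c⁻¹, ?_, c * u, th_supp hτ hw hne, by simp⟩
      rw [← hV₀s]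
      simpa using hc.1
    rw [h4, h5]
    simpa using hε.le

end Pool.Agent.GY
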