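import Pool.Agent.GY.EscSum
import Pool.Agent.GY.ThL
import Pool.Agent.GY.Ph2

/-!
# GY.GPhi (diff 3): the function `φ` with second order estimates

`c` from `esc_sum`, weight `w g = ENNReal.ofReal (esc U g / c)`: `Wt U w`.  Choose a cutoff `τ` for a neighbourhood `V` of `1` with `tsupport τ ⊆ V`... precisely such that
`S := U * tsupport τ ⊆ U'` (`exists_thick` for the compact `U ⊆ interior U'`; take the cutoff supported in a compact `V₂ ⊆ V`, so `tsupport τ ⊆ V₂`).
`θ = Th w τ` is `Reg S θ`, `φ = Ph μ θ` with `μ` a Haar measure.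
* first order: `th_left` with `a = esc U g / c` and `ph_first`.
* second order for `g, b ∈ V₀`, `V₀` a compact symmetric neighbourhood of `1`: if `x ∉ B := V₀ * (V₀ * (S * S⁻¹))` all terms vanish (`ph_supp`).  If `x ∈ B`: `ph_second` with
  `a = esc U g / c`; `|θ (x⁻¹ b⁻¹ x u) - θ u| ≤ esc U (x⁻¹ b⁻¹ x)/c ≤ C₁ esc U b` (`th_left`, `esc_conj`, `esc_inv`), and by `int_abs_le` (with the compact symmetric set
  `V₃ ⊇ {x⁻¹ b⁻¹ x}`, `V₃ = T ∪ T⁻¹ ∪ {1}`, `T` the image of `B × V₀`) the integral is `≤ C₁ esc U b · μ (V₃ * S)`.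
* separation: if `φ (g x) = φ x` for all `x`, then `φ (g^k) = φ 1` for all `k : ℕ`, so `∫ (θ (g^k u) - θ u)² = 0` (`ph_sq`), `θ (g^k u) = θ u` for all `u`
  (continuous, `μ` positive on open sets), `θ (g^k) = θ 1 = 1 ≠ 0`, so `g^k ∈ S ⊆ U'`; the same for `g⁻¹` (`φ (g⁻¹ x) = φ x`); so `zpowers g ⊆ U'` and `g = 1`.
* `φ 1 > 0`: `∫ θ²`, `θ 1 = 1`.
-/

open Topology Filter Set MeasureTheory
open scoped ENNReal Pointwise

namespace Pool.Agent.GY

variable {G : Type*} [Group G] [TopologicalSpace G] [IsTopologicalGroup G]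
  [LocallyCompactSpace G] [T2Space G] {U U' : Set G}

private theorem GPhi_wt (hU : NoSub U) {c : ℝ} (hc : 0 < c)
    (hs : ∀ L : List G, (L.map (esc U)).sum < c → L.prod ∈ U) :
    Wt U (fun g => ENNReal.ofReal (esc U g / c)) := by
  have hsum : ∀ L : List G, (L.map (fun g => ENNReal.ofReal (esc U g / c))).sum =
      ENNReal.ofReal ((L.map (esc U)).sum / c) := by
    intro L
    induction L with
    | nil => simp
    | cons a L ih =>
      simp only [List.map_cons, List.sum_cons, ih]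
      rw [add_div, ENNReal.ofReal_add (div_nonneg esc_nonneg hc.le)]
      refine div_nonneg (List.sum_nonneg ?_) hc.le
      intro x hx
      obtain ⟨y, -, rfl⟩ := List.mem_map.1 hx
      exact esc_nonneg
  refine ⟨fun g => by simp only [esc_inv hU.symm], fun x hx => ?_⟩
  obtain ⟨L', hL', hs'⟩ := rho_lt_iff.1 hx
  rw [hsum, ← ENNReal.ofReal_one, ENNReal.ofReal_lt_ofReal_iff one_pos, div_lt_one hc] at hs'
  rw [← hL']
  exact hs L' hs'

private theorem GPhi_pow {φ : G → ℝ} {g : G} (h : ∀ x, φ (g * x) = φ x) (k : ℕ) :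
    φ (g ^ k) = φ 1 := by
  induction k with
  | zero => simp
  | succ k ih => rw [pow_succ', h, ih]

private theorem GPhi_eq [MeasurableSpace G] [BorelSpace G] {μ : Measure G} [μ.IsHaarMeasure]
    {S : Set G} {θ : G → ℝ} (hS : IsCompact S) (hθ : Reg S θ) {x : G}
    (h : Ph μ θ x = Ph μ θ 1) : θ x = θ 1 := by
  have h1 := ph_sq (μ := μ) hS hθ x
  rw [h, sub_self] at h1
  have h2 : ∫ u, (θ (x * u) - θ u) ^ 2 ∂μ = 0 := by linarith
  have hint : Integrable (fun u => (θ (x * u) - θ u) ^ 2) μ := by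
    have e : (fun u => (θ (x * u) - θ u) ^ 2) =
        fun u => θ (x * u) * θ (x * u) - θ (x * u) * θ (1 * u) - θ (x * u) * θ (1 * u)
          + θ (1 * u) * θ (1 * u) := by
      funext u
      rw [one_mul]
      ring
    rw [e]
    exact (((ph_int hS hθ x x).sub (ph_int hS hθ x 1)).sub (ph_int hS hθ x 1)).add
      (ph_int hS hθ 1 1)
  have h3 : (fun u => (θ (x * u) - θ u) ^ 2) =ᵐ[μ] 0 :=
    (integral_eq_zero_iff_of_nonneg (fun u => sq_nonneg _) hint).1 h2
  have hcont : Continuous (fun u => (θ (x * u) - θ u) ^ 2) :=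
    ((hθ.cont.comp (continuous_const.mul continuous_id)).sub hθ.cont).pow 2
  have h4 := (Continuous.ae_eq_iff_eq μ hcont continuous_zero).1 h3
  have h5 := congrFun h4 1
  simp only [mul_one, Pi.zero_apply] at h5
  have := pow_eq_zero_iff (two_ne_zero) |>.1 h5
  linarith

theorem exists_phi (hU : NoSub U) (hUU' : U ⊆ interior U')
    (hU' : ∀ L : Subgroup G, (L : Set G) ⊆ U' → L = ⊥) {V₀ : Set G} (hV₀ : IsCompact V₀)
    (hV₀' : V₀ ∈ 𝓝 (1 : G)) (hVs : V₀⁻¹ = V₀) :
    ∃ φ : G → ℝ, Continuous φ ∧ HasCompactSupport φ ∧ 0 < φ 1 ∧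
      (∀ g, (∀ x, φ (g * x) = φ x) → g = 1) ∧
      ∃ C : ℝ, 0 < C ∧ (∀ g x, |φ (g * x) - φ x| ≤ C * esc U g) ∧
        ∀ g ∈ V₀, ∀ b ∈ V₀, ∀ x,
          |φ (g * (b * x)) - φ (b * x) - φ (g * x) + φ x| ≤ C * esc U g * esc U b := by
  letI : MeasurableSpace G := borel G
  haveI : BorelSpace G := ⟨rfl⟩
  obtain ⟨c, hc, hs⟩ := esc_sum hU
  have hWt := GPhi_wt hU hc hs
  set w : G → ℝ≥0∞ := fun g => ENNReal.ofReal (esc U g / c) with hw
  obtain ⟨V, hV, -, hUV⟩ := exists_thick hU.cpt isOpen_interior hUU'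
  obtain ⟨V₂, hV₂, hV₂c, -, hV₂V⟩ := exists_cpt_nhd hV
  obtain ⟨τ, hτ⟩ := exists_cut hV₂
  have hts : tsupport τ ⊆ V₂ := closure_minimal (fun x hx => hτ.supp x hx) hV₂c.isClosed
  set S : Set G := U * tsupport τ with hSdef
  have hS : IsCompact S := hU.cpt.mul hτ.hcs
  have hθ : Reg S (Th w τ) := th_reg hτ hWt
  set θ : G → ℝ := Th w τ with hθdef
  have hθ1 : θ 1 = 1 := th_one hτ
  have hSU' : S ⊆ U' := by
    refine (Set.mul_subset_mul_left (hts.trans hV₂V)).trans (hUV.trans interior_subset)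
  set μ : Measure G := Measure.haar with hμ
  have hleft : ∀ g z, |θ (g * z) - θ z| ≤ esc U g / c := fun g z =>
    th_left hτ hWt.symm (div_nonneg esc_nonneg hc.le) le_rfl z
  -- the compact sets
  have h1V₀ : (1 : G) ∈ V₀ := mem_of_mem_nhds hV₀'
  set B : Set G := V₀ * (V₀ * (S * S⁻¹)) with hB
  have hBc : IsCompact B := hV₀.mul (hV₀.mul (hS.mul hS.inv))
  obtain ⟨C₁, hC₁, hconj⟩ := esc_conj hU hBc
  set T : Set G := (fun p : G × G => p.1⁻¹ * p.2⁻¹ * p.1) '' (B ×ˢ V₀) with hT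
  have hTc : IsCompact T := (hBc.prod hV₀).image (by fun_prop)
  set V₃ : Set G := (T ∪ T⁻¹) ∪ {1} with hV₃
  have hV₃c : IsCompact V₃ := (hTc.union hTc.inv).union isCompact_singleton
  have hV₃s : V₃⁻¹ = V₃ := by
    rw [hV₃, Set.union_inv, Set.union_inv, inv_inv, Set.union_comm T⁻¹ T]
    simp
  have h1V₃ : (1 : G) ∈ V₃ := Or.inr rfl
  set C : ℝ := (μ S).toReal / c + 1 / c * (C₁ / c * (μ (V₃ * S)).toReal) + 1 with hCdef
  have ht1 : 0 ≤ (μ S).toReal / c := div_nonneg ENNReal.toReal_nonneg hc.le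
  have ht2 : 0 ≤ 1 / c * (C₁ / c * (μ (V₃ * S)).toReal) := by positivity
  have hC0 : 0 < C := by rw [hCdef]; linarith
  refine ⟨Ph μ θ, ph_cont hS hθ, ph_hcs hS hθ, ?_, ?_, C, hC0, ?_, ?_⟩
  · -- φ 1 > 0
    have hcont : Continuous (fun u => θ (1 * u) * θ u) := by
      have := hθ.cont
      fun_prop
    have hhcs : HasCompactSupport (fun u => θ (1 * u) * θ u) :=
      (reg_hcs hS hθ).mul_left
    refine hcont.integral_pos_of_hasCompactSupport_nonneg_nonzero (x := 1) hhcs ?_ ?_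
    · intro u
      exact mul_nonneg (hθ.nonneg _) (hθ.nonneg _)
    · simp [hθ1]
  · -- separation
    intro g hg
    have hg' : ∀ x, Ph μ θ (g⁻¹ * x) = Ph μ θ x := by
      intro x
      have := hg (g⁻¹ * x)
      rw [mul_inv_cancel_left] at this
      exact this.symm
    have hmem : ∀ g : G, (∀ x, Ph μ θ (g * x) = Ph μ θ x) → ∀ k : ℕ, g ^ k ∈ U' := by
      intro g hg k
      apply hSU'
      apply hθ.supp
      rw [GPhi_eq hS hθ (GPhi_pow hg k), hθ1]
      exact one_ne_zero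
    have hz : Subgroup.zpowers g = ⊥ := by
      apply hU'
      rintro y ⟨k, rfl⟩
      obtain ⟨n, rfl | rfl⟩ := k.eq_nat_or_neg
      · simpa using hmem g hg n
      · simpa using hmem g⁻¹ hg' n
    exact Subgroup.zpowers_eq_bot.1 hz
  · -- first order
    intro g x
    refine (ph_first hS hθ (hleft g) x).trans ?_
    have h0 : 0 ≤ esc U g := esc_nonneg
    have h1 : esc U g / c * (μ S).toReal = (μ S).toReal / c * esc U g := by ring
    rw [h1]
    apply mul_le_mul_of_nonneg_right _ h0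
    rw [hCdef]
    linarith
  · -- second order
    intro g hg b hb x
    have h0g : 0 ≤ esc U g := esc_nonneg
    have h0b : 0 ≤ esc U b := esc_nonneg
    by_cases hx : x ∈ B
    · have hcV : x⁻¹ * b⁻¹ * x ∈ V₃ := Or.inl (Or.inl ⟨(x, b), ⟨hx, hb⟩, rfl⟩)
      have hesc : esc U (x⁻¹ * b⁻¹ * x) ≤ C₁ * esc U b := by
        have := hconj x hx b⁻¹
        rwa [esc_inv hU.symm] at this
      have h2 := int_abs_le (μ := μ) hS hθ hV₃c hV₃s h1V₃ hcV (ε := C₁ * esc U b / c)
        (fun u => (hleft _ u).trans (by gcongr))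
      have h3 := ph_second (μ := μ) hS hθ (hleft g) b x
      refine h3.trans ?_
      have h4 : esc U g / c * ∫ u, |θ (x⁻¹ * b⁻¹ * x * u) - θ u| ∂μ ≤
          esc U g / c * (C₁ * esc U b / c * (μ (V₃ * S)).toReal) := by
        gcongr
      refine h4.trans ?_
      have h5 : esc U g / c * (C₁ * esc U b / c * (μ (V₃ * S)).toReal) =
        (1 / c * (C₁ / c * (μ (V₃ * S)).toReal)) * (esc U g * esc U b) := by ring
      rw [h5, mul_assoc C]
      apply mul_le_mul_of_nonneg_right _ (mul_nonneg h0g h0b)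
      rw [hCdef]
      linarith
    · have hz : ∀ y, Ph μ θ y ≠ 0 → y ∈ S * S⁻¹ := fun y hy => ph_supp hθ hy
      have hinv : ∀ g ∈ V₀, g⁻¹ ∈ V₀ := fun g hg => by
        rw [← hVs]; exact Set.inv_mem_inv.2 hg
      have hsub : ∀ y, y ∈ V₀ * (S * S⁻¹) → y ∈ B := fun y hy =>
        ⟨1, h1V₀, y, hy, by simp⟩
      have e1 : Ph μ θ x = 0 := by
        by_contra h
        exact hx (hsub x ⟨1, h1V₀, x, hz x h, by simp⟩)
      have e2 : Ph μ θ (g * x) = 0 := by
        by_contra h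
        exact hx (hsub x ⟨g⁻¹, hinv g hg, g * x, hz _ h, by simp⟩)
      have e3 : Ph μ θ (b * x) = 0 := by
        by_contra h
        exact hx (hsub x ⟨b⁻¹, hinv b hb, b * x, hz _ h, by simp⟩)
      have e4 : Ph μ θ (g * (b * x)) = 0 := by
        by_contra h
        exact hx ⟨b⁻¹, hinv b hb, b * x, ⟨g⁻¹, hinv g hg, g * (b * x), hz _ h, by simp⟩, by simp⟩
      rw [e1, e2, e3, e4]
      simp only [sub_zero, add_zero, abs_zero]
      positivity

end Pool.Agent.GY
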