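import Pool.Agent.GY.GPhi
import Pool.Agent.GY.GLow
import Pool.Agent.GY.DefsB

/-!
# GY.GlMk (diff 2): a locally compact group without small subgroups has Gleason data

Choose `U'` a neighbourhood of `1` without nontrivial subgroups, `U ⊆ interior U'` compact symmetric neighbourhood (`exists_cpt_nhd`): `NoSub U`.  `V₀ = U`.  `φ` from `exists_phi`,
`D = Dphi φ`, `K` from `glow`.  `right` is `Dphi_right`.
* embedding: continuous (`Dphi_cont`); if `‖D g_i - D g‖ → 0`, then `‖D (g_i g⁻¹)‖ → 0`, `esc U (g_i g⁻¹) → 0`, `g_i g⁻¹ → 1` (`esc_small`): inducing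
  (`Topology.isInducing_iff_nhds`, it is enough that `𝓝 g = comap D (𝓝 (D g))`).  Injective: `‖D (g h⁻¹)‖ = 0` gives `g h⁻¹ = 1` (`hsep`).
* `r`: by `esc_small` there is `c` with `esc U g ≤ c → g ∈ U`; `r = c/K`: `‖D g‖ ≤ r` implies `g ∈ U = V₀`; so `{‖D g‖ ≤ r}` is closed in the compact `U`: compact; and for
  `‖D g‖, ‖D h‖ ≤ r`: `(D (g h) - D g - D h) x = φ (g (h x)) - φ (h x) - φ (g x) + φ x`, bounded by `C esc g esc h ≤ C K² ‖D g‖ ‖D h‖`.
  Take the constant `max (C K²) (max 1 (1/r))`.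
-/

open Topology Filter Set
open scoped BoundedContinuousFunction Pointwise

namespace Pool.Agent.GY

theorem exists_gl {G : Type*} [Group G] [TopologicalSpace G] [IsTopologicalGroup G]
    [LocallyCompactSpace G] [T2Space G] (hG : NSS G) : Nonempty (Gl G (G →ᵇ ℝ)) := by
  obtain ⟨U', hU'n, hU'⟩ := hG
  have hint : interior U' ∈ 𝓝 (1 : G) := interior_mem_nhds.2 hU'n
  obtain ⟨U, hUn, hUc, hUs, hUU'⟩ := exists_cpt_nhd hint
  have hU : NoSub U :=
    ⟨hUc, hUn, hUs, fun L hL => hU' L (hL.trans (hUU'.trans interior_subset))⟩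
  obtain ⟨φ, hc, hs, h1, hsep, C, hC, hC1, hC2⟩ := exists_phi hU hUU' hU' hUc hUn hUs
  obtain ⟨M, hM⟩ : ∃ M : ℝ, ∀ x, |φ x| ≤ M := by
    obtain ⟨M, hM⟩ := hs.exists_bound_of_continuous hc
    exact ⟨M, fun x => by simpa [Real.norm_eq_abs] using hM x⟩
  obtain ⟨K, hK, hlow⟩ := glow hU hc hM hs h1 hsep
  obtain ⟨c, hc0, hcU⟩ := esc_small hU hUn
  have key : ∀ (c' : ℝ) (g : G), ‖Dphi φ hc M hM g‖ ≤ c' / K → esc U g ≤ c' := by
    intro c' g hg
    refine (hlow g).trans ?_
    calc K * ‖Dphi φ hc M hM g‖ ≤ K * (c' / K) := by gcongr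
      _ = c' := by field_simp
  have hDU : ∀ g : G, ‖Dphi φ hc M hM g‖ ≤ c / K → g ∈ U := fun g hg => hcU g (key c g hg)
  have hcont : Continuous (Dphi φ hc M hM) := Dphi_cont hc hM hs
  have hinj : Function.Injective (Dphi φ hc M hM) := by
    intro g h hgh
    have h0 : ‖Dphi φ hc M hM (g * h⁻¹)‖ = 0 := by
      rw [← Dphi_dist, hgh, sub_self, norm_zero]
    have h2 : g * h⁻¹ = 1 := by
      apply hsep
      intro x
      have h3 := (Dphi_norm_le hc hM (g * h⁻¹) (le_refl (0 : ℝ))).1 h0.le x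
      have h4 := abs_nonpos_iff.1 h3
      linarith
    exact mul_inv_eq_one.1 h2
  have hemb : Topology.IsEmbedding (Dphi φ hc M hM) := by
    refine ⟨isInducing_iff_nhds.2 fun g => le_antisymm (tendsto_iff_comap.1 (hcont.tendsto g)) ?_,
      hinj⟩
    intro W hW
    have hV : {x : G | x * g ∈ W} ∈ 𝓝 (1 : G) := by
      have ht : Tendsto (fun x : G => x * g) (𝓝 1) (𝓝 g) := by
        have := (continuous_mul_right g).tendsto (1 : G)
        simpa using this
      exact ht hW
    obtain ⟨c', hc'0, hc'⟩ := esc_small hU hV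
    refine ⟨Metric.ball (Dphi φ hc M hM g) (c' / K),
      Metric.ball_mem_nhds _ (div_pos hc'0 hK), ?_⟩
    intro h hh
    have h2 : ‖Dphi φ hc M hM (h * g⁻¹)‖ < c' / K := by
      rw [← Dphi_dist, ← dist_eq_norm]
      exact hh
    have h3 := hc' _ (key c' _ h2.le)
    simpa using h3
  have hr : 0 < c / K := div_pos hc0 hK
  refine ⟨{ D := Dphi φ hc M hM
            C := max (C * K ^ 2) (max 1 (1 / (c / K)))
            hC := (le_max_left _ _).trans (le_max_right _ _)
            one := Dphi_one hc hM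
            right := fun g h x => Dphi_right hc hM g h x
            emb := hemb
            r := c / K
            hr := hr
            hCr := ?_
            mul := ?_
            cpt := ?_ }⟩
  · have h5 : 1 / (c / K) ≤ max (C * K ^ 2) (max 1 (1 / (c / K))) :=
      (le_max_right _ _).trans (le_max_right _ _)
    calc (1 : ℝ) = 1 / (c / K) * (c / K) := by field_simp
      _ ≤ _ := mul_le_mul_of_nonneg_right h5 hr.le
  · intro g h hg hh
    have h0 : 0 ≤ max (C * K ^ 2) (max 1 (1 / (c / K))) * ‖Dphi φ hc M hM g‖ *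
        ‖Dphi φ hc M hM h‖ := by positivity
    rw [BoundedContinuousFunction.norm_le h0]
    intro x
    have e : (Dphi φ hc M hM (g * h) - Dphi φ hc M hM g - Dphi φ hc M hM h) x =
        φ (g * (h * x)) - φ (h * x) - φ (g * x) + φ x := by
      simp only [BoundedContinuousFunction.coe_sub, Pi.sub_apply, Dphi_apply]
      rw [mul_assoc]
      ring
    rw [e, Real.norm_eq_abs]
    refine (hC2 g (hDU g hg) h (hDU h hh) x).trans ?_
    have e1 := hlow g
    have e2 := hlow h
    have n1 : 0 ≤ esc U g := esc_nonneg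
    have n2 : 0 ≤ esc U h := esc_nonneg
    calc C * esc U g * esc U h
        ≤ C * (K * ‖Dphi φ hc M hM g‖) * (K * ‖Dphi φ hc M hM h‖) := by gcongr
      _ = C * K ^ 2 * ‖Dphi φ hc M hM g‖ * ‖Dphi φ hc M hM h‖ := by ring
      _ ≤ _ := by
        gcongr
        exact le_max_left _ _
  · refine hUc.of_isClosed_subset (isClosed_le hcont.norm continuous_const) ?_
    intro g hg
    exact hDU g hg

end Pool.Agent.GY
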