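import Pool.Agent.GY.Unif

/-!
# GY.GoodQ (diff 1-2): `GoodK`

* `goodK_quot`: the set `O' = {g | g K ⊆ O}` is open (tube lemma, `K` compact), `K`-saturated and contains `K`; its image in
  `G ⧸ K` is open and contains `1`.  If `L` is a subgroup of `G ⧸ K` inside the image, its preimage is a subgroup of `G`
  inside `O'` (saturated), so inside `O`, so `≤ K`; hence `L = ⊥`.
* `goodK_inf`: open set `O₁ ∩ O₂`.
* `goodK_bot`: `GoodK ⊥ ↔ NSS G`.
-/

open Topology Filter Set
open scoped ENNReal Pointwise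

namespace Pool.Agent.GY

variable {G : Type*} [Group G] [TopologicalSpace G] [IsTopologicalGroup G]

theorem goodK_quot {K : Subgroup G} (hK : GoodK K) [K.Normal] : NSS (G ⧸ K) := by
  obtain ⟨O, hO, hKO, hL⟩ := hK.nss
  have hopen : IsOpen {g : G | ∀ k ∈ (K : Set G), g * k ∈ O} := by
    rw [isOpen_iff_eventually]
    intro g hg
    refine hK.compact.eventually_forall_of_forall_eventually ?_
    intro k hk
    have h1 : Continuous fun p : G × G => p.1 * p.2 := continuous_mul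
    exact h1.continuousAt.eventually (hO.mem_nhds (hg k hk))
  have h1mem : (1 : G) ∈ {g : G | ∀ k ∈ (K : Set G), g * k ∈ O} := by
    intro k hk
    rw [one_mul]
    exact hKO hk
  refine ⟨(QuotientGroup.mk : G → G ⧸ K) '' {g : G | ∀ k ∈ (K : Set G), g * k ∈ O}, ?_, ?_⟩
  · exact (QuotientGroup.isOpenMap_coe _ hopen).mem_nhds ⟨1, h1mem, rfl⟩
  · intro L hLU
    have hsub : ((L.comap (QuotientGroup.mk' K) : Subgroup G) : Set G) ⊆ O := by
      intro g hg
      have h2 : (QuotientGroup.mk g : G ⧸ K) ∈ (L : Set (G ⧸ K)) := hg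
      obtain ⟨g', hg', heq⟩ := hLU h2
      have h3 : g'⁻¹ * g ∈ K := QuotientGroup.eq.1 heq
      have h4 := hg' _ h3
      rwa [mul_inv_cancel_left] at h4
    have hle := hL _ hsub
    rw [eq_bot_iff]
    intro q hq
    obtain ⟨g, rfl⟩ := QuotientGroup.mk'_surjective K q
    rw [Subgroup.mem_bot]
    exact (QuotientGroup.eq_one_iff g).2 (hle hq)

theorem goodK_inf [T2Space G] {K₁ K₂ : Subgroup G} (h₁ : GoodK K₁) (h₂ : GoodK K₂) :
    GoodK (K₁ ⊓ K₂) := by
  obtain ⟨O₁, hO₁, hK₁, hL₁⟩ := h₁.nss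
  obtain ⟨O₂, hO₂, hK₂, hL₂⟩ := h₂.nss
  have n₁ := h₁.normal
  have n₂ := h₂.normal
  refine ⟨inferInstance, ?_, O₁ ∩ O₂, hO₁.inter hO₂, ?_, ?_⟩
  · rw [Subgroup.coe_inf]
    exact h₁.compact.inter_right h₂.compact.isClosed
  · rw [Subgroup.coe_inf]
    exact Set.inter_subset_inter hK₁ hK₂
  · intro L hL
    exact le_inf (hL₁ L (hL.trans Set.inter_subset_left)) (hL₂ L (hL.trans Set.inter_subset_right))

theorem goodK_bot : GoodK (⊥ : Subgroup G) ↔ NSS G := by
  constructor
  · intro h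
    obtain ⟨O, hO, hKO, hL⟩ := h.nss
    refine ⟨O, hO.mem_nhds (hKO (by simp)), ?_⟩
    intro L hLO
    exact le_bot_iff.1 (hL L hLO)
  · rintro ⟨U, hU, hL⟩
    refine ⟨inferInstance, ?_, interior U, isOpen_interior, ?_, ?_⟩
    · rw [Subgroup.coe_bot]
      exact isCompact_singleton
    · rw [Subgroup.coe_bot]
      exact Set.singleton_subset_iff.2 (mem_interior_iff_mem_nhds.2 hU)
    · intro L hLO
      exact le_bot_iff.2 (hL L (hLO.trans interior_subset))

end Pool.Agent.GY
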