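import Pool.Agent.GY.LieOps
import Pool.Agent.GY.GlMk

/-!
# GY.IsLie (diff 1): Hilbert's fifth problem for groups without small subgroups
-/

open Topology Filter Set
open scoped Manifold ContDiff

namespace Pool.Agent.GY

/-- a topological group is a Lie group if it admits a compatible structure of a finite dimensional
real analytic manifold with analytic group operations -/
def IsLie (G : Type*) [Group G] [TopologicalSpace G] : Prop :=
  ∃ (n : ℕ) (_ : ChartedSpace (EuclideanSpace ℝ (Fin n)) G), LieGroup (𝓡 n) ω G

theorem isLie_of_nss {G : Type*} [Group G] [TopologicalSpace G] [IsTopologicalGroup G]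
    [LocallyCompactSpace G] [T2Space G] (hG : NSS G) : IsLie G := by
  obtain ⟨S⟩ := exists_gl hG
  exact ⟨S.dm, S.chSp, S.lieGroup⟩

end Pool.Agent.GY
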