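import Pool.Agent.GY.DefsB

/-!
# GY.LamAn (diff 2): `Λ` is analytic on the unit ball around `1`

`LamOp M = f (M - 1)` with the power series `f = ∑ c_k x^k`, `c_k = (-1)^k/(k+1)`: `FormalMultilinearSeries.ofScalars A c` has radius `≥ 1`
(`FormalMultilinearSeries.le_radius_of_bound` with `‖c_k‖ ≤ 1`, or the ratio test lemmas for `ofScalars`), and sums to `f` on the ball
(`FormalMultilinearSeries.hasFPowerSeriesOnBall`, `ofScalars_sum_eq`/`ofScalarsSum`).
-/

open Topology Filter Set

namespace Pool.Agent.GY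

variable {A : Type*} [NormedRing A] [NormedAlgebra ℝ A] [CompleteSpace A]

/-- the coefficients -/
noncomputable def LamAn_c : ℕ → ℝ := fun k => (-1 : ℝ) ^ k / (k + 1)

theorem LamAn_c_le (k : ℕ) : ‖LamAn_c k‖ ≤ 1 := by
  unfold LamAn_c
  rw [norm_div, norm_pow, norm_neg, norm_one, one_pow]
  have h : (1 : ℝ) ≤ ‖((k : ℝ) + 1)‖ := by
    rw [Real.norm_eq_abs, abs_of_pos (by positivity)]
    have : (0 : ℝ) ≤ k := Nat.cast_nonneg k
    linarith
  exact div_le_one_of_le₀ h (by positivity)

omit [CompleteSpace A] in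
theorem LamAn_radius :
    (1 : ENNReal) ≤ (FormalMultilinearSeries.ofScalars A LamAn_c).radius := by
  have h : ((1 : NNReal) : ENNReal) ≤ (FormalMultilinearSeries.ofScalars A LamAn_c).radius := by
    apply FormalMultilinearSeries.le_radius_of_bound _
      (1 + ‖FormalMultilinearSeries.ofScalars A LamAn_c 0‖)
    intro n
    rw [NNReal.coe_one, one_pow, mul_one]
    rcases Nat.eq_zero_or_pos n with h | h
    · rw [h]
      linarith
    · have h1 := FormalMultilinearSeries.ofScalars_norm_le (E := A) (c := LamAn_c) n h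
      have h2 := LamAn_c_le n
      have h3 : 0 ≤ ‖FormalMultilinearSeries.ofScalars A LamAn_c 0‖ :=
        ContinuousMultilinearMap.opNorm_nonneg _
      linarith
  simpa using h

omit [CompleteSpace A] in
theorem LamAn_eq (M : A) :
    (LamOp M : A) = (FormalMultilinearSeries.ofScalars A LamAn_c).sum (M - 1) := by
  have h := FormalMultilinearSeries.ofScalars_sum_eq (E := A) LamAn_c (M - 1)
  unfold LamOp
  rw [FormalMultilinearSeries.ofScalarsSum] at h
  rw [h]
  rfl

theorem lamOp_an : AnalyticOnNhd ℝ (LamOp : A → A) (Metric.ball 1 1) := by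
  have hr := LamAn_radius (A := A)
  have hpos : 0 < (FormalMultilinearSeries.ofScalars A LamAn_c).radius :=
    lt_of_lt_of_le (by norm_num) hr
  have h1 := (FormalMultilinearSeries.hasFPowerSeriesOnBall _ hpos).analyticOnNhd
  have h2 : AnalyticOnNhd ℝ (FormalMultilinearSeries.ofScalars A LamAn_c).sum
      (Metric.ball (0 : A) 1) := by
    apply h1.mono
    intro x hx
    rw [Metric.mem_ball, dist_zero_right] at hx
    rw [Metric.mem_eball]
    apply lt_of_lt_of_le _ hr
    rw [edist_dist, dist_zero_right]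
    exact ENNReal.ofReal_lt_one.2 hx
  have h3 := h2.comp_sub (1 : A)
  have h4 : (LamOp : A → A) = fun z => (FormalMultilinearSeries.ofScalars A LamAn_c).sum (z - 1) := by
    funext M
    exact LamAn_eq M
  rw [h4]
  apply h3.mono
  intro x hx
  rw [Metric.mem_ball, dist_eq_norm] at hx
  refine Set.mem_add.2 ⟨x - 1, ?_, 1, rfl, by abel⟩
  rw [Metric.mem_ball, dist_zero_right]
  exact hx

set_option linter.unusedSectionVars false in
theorem lamOp_one : LamOp (1 : A) = 1 := by
  unfold LamOp
  rw [tsum_eq_single 0]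
  · simp
  · intro k hk
    rw [sub_self, zero_pow hk, smul_zero]

end Pool.Agent.GY
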