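import Mathlib

/-!
# GY.Trot (diff 2): Trotter product formula in a Banach algebra

`X_n = exp(a/n) exp(b/n)`, `Y_n = exp((a+b)/n)`.  `‖X_n‖, ‖Y_n‖ ≤ e^{M/n}` with `M = ‖a‖ + ‖b‖` (use `max 1 ‖1‖`-free bounds: if `‖1‖` is not `1` use instead: the bound `‖exp x - 1 - x‖ ≤ ‖x‖² e^{‖x‖}`; one may assume `[NormOneClass A]` if this helps: it is in the statement).
`‖X_n - Y_n‖ ≤ K/n²` (both are `1 + (a+b)/n + O(1/n²)`), telescoping: `X^n - Y^n = ∑ X^i (X - Y) Y^{n-1-i}`, so `‖X_n^n - Y_n^n‖ ≤ n e^{M} K/n² → 0`, and `Y_n^n = exp(a+b)`.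
* `matrix_trotter`: the same for matrices (local normed algebra instance `Matrix.linftyOpNormedRing`, `Matrix.linftyOpNormedAlgebra`; `NormOneClass` needs `n > 0`: for `n = 0` everything is trivial, `Subsingleton`).
-/

open Topology Filter Set

namespace Pool.Agent.GY

namespace Trot

variable {A : Type*} [NormedRing A] [NormOneClass A] [NormedAlgebra ℝ A] [CompleteSpace A]

theorem exp_tail (x : A) : ‖NormedSpace.exp x - 1 - x‖ ≤ ‖x‖ ^ 2 * Real.exp ‖x‖ := by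
  have h1 : HasSum (fun n : ℕ => ((n.factorial : ℝ)⁻¹) • x ^ n) (NormedSpace.exp x) :=
    NormedSpace.exp_series_hasSum_exp' x
  have h2 : HasSum (fun n : ℕ => (((n + 2).factorial : ℝ)⁻¹) • x ^ (n + 2))
      (NormedSpace.exp x - 1 - x) := by
    have := (hasSum_nat_add_iff' 2).2 h1
    have e : ∑ i ∈ Finset.range 2, ((i.factorial : ℝ)⁻¹) • x ^ i = 1 + x := by
      rw [Finset.sum_range_succ, Finset.sum_range_one]
      simp
    rw [e] at this
    rw [sub_sub]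
    exact this
  have h3 : HasSum (fun n : ℕ => ‖x‖ ^ 2 * (‖x‖ ^ n / (n.factorial : ℝ))) (‖x‖ ^ 2 * Real.exp ‖x‖) := by
    apply HasSum.mul_left
    rw [Real.exp_eq_exp_ℝ]
    exact NormedSpace.expSeries_div_hasSum_exp ‖x‖
  rw [← h2.tsum_eq]
  apply tsum_of_norm_bounded h3
  intro n
  rw [norm_smul, norm_inv, Real.norm_natCast]
  have h4 : ‖x ^ (n + 2)‖ ≤ ‖x‖ ^ (n + 2) := norm_pow_le x (n + 2)
  have h5 : ((n.factorial : ℕ) : ℝ) ≤ (((n + 2).factorial : ℕ) : ℝ) := by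
    exact_mod_cast Nat.factorial_le (by omega)
  have h6 : (0 : ℝ) < n.factorial := by exact_mod_cast Nat.factorial_pos n
  calc ((((n + 2).factorial : ℕ) : ℝ))⁻¹ * ‖x ^ (n + 2)‖
      ≤ ((n.factorial : ℝ))⁻¹ * ‖x‖ ^ (n + 2) := by
        apply mul_le_mul _ h4 (norm_nonneg _) (by positivity)
        exact inv_anti₀ h6 h5
    _ = ‖x‖ ^ 2 * (‖x‖ ^ n / (n.factorial : ℝ)) := by
        rw [pow_add]; ring

theorem norm_exp_le (x : A) : ‖NormedSpace.exp x‖ ≤ Real.exp ‖x‖ := by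
  have h1 : HasSum (fun n : ℕ => ((n.factorial : ℝ)⁻¹) • x ^ n) (NormedSpace.exp x) :=
    NormedSpace.exp_series_hasSum_exp' x
  have h3 : HasSum (fun n : ℕ => (‖x‖ ^ n / (n.factorial : ℝ))) (Real.exp ‖x‖) := by
    rw [Real.exp_eq_exp_ℝ]
    exact NormedSpace.expSeries_div_hasSum_exp ‖x‖
  rw [← h1.tsum_eq]
  apply tsum_of_norm_bounded h3
  intro n
  rw [norm_smul, norm_inv, Real.norm_natCast]
  have h4 : ‖x ^ n‖ ≤ ‖x‖ ^ n := norm_pow_le x n
  have h6 : (0 : ℝ) < n.factorial := by exact_mod_cast Nat.factorial_pos n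
  rw [div_eq_inv_mul]
  exact mul_le_mul_of_nonneg_left h4 (by positivity)

theorem pow_sub (X Y : A) (R : ℝ) (hR : 1 ≤ R) (hX : ‖X‖ ≤ R) (hY : ‖Y‖ ≤ R) (n : ℕ) :
    ‖X ^ n - Y ^ n‖ ≤ n * R ^ n * ‖X - Y‖ := by
  induction n with
  | zero => simp
  | succ n ih =>
    have h1 : X ^ (n + 1) - Y ^ (n + 1) = (X ^ n - Y ^ n) * X + Y ^ n * (X - Y) := by
      rw [pow_succ, pow_succ]
      noncomm_ring
    rw [h1]
    have hR0 : 0 ≤ R := by linarith
    have hYn : ‖Y ^ n‖ ≤ R ^ n := (norm_pow_le Y n).trans (pow_le_pow_left₀ (norm_nonneg _) hY n)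
    have hRn : R ^ n ≤ R ^ (n + 1) := pow_le_pow_right₀ hR (by omega)
    calc ‖(X ^ n - Y ^ n) * X + Y ^ n * (X - Y)‖
        ≤ ‖(X ^ n - Y ^ n) * X‖ + ‖Y ^ n * (X - Y)‖ := norm_add_le _ _
      _ ≤ ‖X ^ n - Y ^ n‖ * ‖X‖ + ‖Y ^ n‖ * ‖X - Y‖ :=
          add_le_add (norm_mul_le _ _) (norm_mul_le _ _)
      _ ≤ (n * R ^ n * ‖X - Y‖) * R + R ^ (n + 1) * ‖X - Y‖ := by
          apply add_le_add
          · apply mul_le_mul ih hX (norm_nonneg _)
            positivity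
          · exact mul_le_mul_of_nonneg_right (hYn.trans hRn) (norm_nonneg _)
      _ = ((n + 1 : ℕ) : ℝ) * R ^ (n + 1) * ‖X - Y‖ := by
          push_cast
          ring

theorem diff_bound (a b : A) (s : ℝ) (hs0 : 0 ≤ s) (hs1 : s ≤ 1) :
    ‖NormedSpace.exp (s • a) * NormedSpace.exp (s • b) - NormedSpace.exp (s • (a + b))‖ ≤
      s ^ 2 * (4 * (‖a‖ + ‖b‖ + 1) ^ 3 * Real.exp (2 * (‖a‖ + ‖b‖))) := by
  set M := ‖a‖ + ‖b‖ with hM
  have hM0 : 0 ≤ M := by positivity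
  have ha : ‖s • a‖ ≤ s * M := by
    rw [norm_smul, Real.norm_of_nonneg hs0]
    exact mul_le_mul_of_nonneg_left (by rw [hM]; linarith [norm_nonneg b]) hs0
  have hb : ‖s • b‖ ≤ s * M := by
    rw [norm_smul, Real.norm_of_nonneg hs0]
    exact mul_le_mul_of_nonneg_left (by rw [hM]; linarith [norm_nonneg a]) hs0
  have hab : ‖s • (a + b)‖ ≤ s * M := by
    rw [norm_smul, Real.norm_of_nonneg hs0]
    exact mul_le_mul_of_nonneg_left (norm_add_le a b) hs0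
  have hsM : s * M ≤ M := by nlinarith
  have tail : ∀ x : A, ‖x‖ ≤ s * M → ‖NormedSpace.exp x - 1 - x‖ ≤ s ^ 2 * (M ^ 2 * Real.exp M) := by
    intro x hx
    refine (exp_tail x).trans ?_
    have h1 : ‖x‖ ^ 2 ≤ (s * M) ^ 2 := pow_le_pow_left₀ (norm_nonneg _) hx 2
    have h2 : Real.exp ‖x‖ ≤ Real.exp M := Real.exp_le_exp.2 (hx.trans hsM)
    calc ‖x‖ ^ 2 * Real.exp ‖x‖ ≤ (s * M) ^ 2 * Real.exp M :=
          mul_le_mul h1 h2 (Real.exp_nonneg _) (by positivity)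
      _ = s ^ 2 * (M ^ 2 * Real.exp M) := by ring
  set ra := NormedSpace.exp (s • a) - 1 - s • a with hra
  set rb := NormedSpace.exp (s • b) - 1 - s • b with hrb
  set rc := NormedSpace.exp (s • (a + b)) - 1 - s • (a + b) with hrc
  have h0 : NormedSpace.exp (s • a) * NormedSpace.exp (s • b) - NormedSpace.exp (s • (a + b)) =
      (s • a) * (s • b) + (1 + s • a) * rb + ra * NormedSpace.exp (s • b) - rc := by
    have gen : ∀ x y X Y Z : A, X * Y - Z =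
        x * y + (1 + x) * (Y - 1 - y) + (X - 1 - x) * Y - (Z - 1 - (x + y)) := by
      intro x y X Y Z
      noncomm_ring
    rw [hra, hrb, hrc, smul_add]
    exact gen _ _ _ _ _
  rw [h0]
  have e1 : ‖(s • a) * (s • b)‖ ≤ s ^ 2 * M ^ 2 := by
    refine (norm_mul_le _ _).trans ?_
    calc ‖s • a‖ * ‖s • b‖ ≤ (s * M) * (s * M) := mul_le_mul ha hb (norm_nonneg _) (by positivity)
      _ = s ^ 2 * M ^ 2 := by ring
  have e2 : ‖(1 + s • a) * rb‖ ≤ (1 + M) * (s ^ 2 * (M ^ 2 * Real.exp M)) := by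
    refine (norm_mul_le _ _).trans ?_
    apply mul_le_mul _ (tail _ hb) (norm_nonneg _) (by positivity)
    refine (norm_add_le _ _).trans ?_
    rw [norm_one]
    linarith
  have e3 : ‖ra * NormedSpace.exp (s • b)‖ ≤ (s ^ 2 * (M ^ 2 * Real.exp M)) * Real.exp M := by
    refine (norm_mul_le _ _).trans ?_
    apply mul_le_mul (tail _ ha) _ (norm_nonneg _) (by positivity)
    exact (norm_exp_le _).trans (Real.exp_le_exp.2 (hb.trans hsM))
  have e4 : ‖rc‖ ≤ s ^ 2 * (M ^ 2 * Real.exp M) := tail _ hab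
  have hE : 1 ≤ Real.exp M := Real.one_le_exp hM0
  have hE2 : Real.exp (2 * M) = Real.exp M * Real.exp M := by
    rw [← Real.exp_add]; ring_nf
  have hEE : Real.exp M ≤ Real.exp M * Real.exp M := by nlinarith
  have hEM : M ≤ Real.exp M := (by linarith [Real.add_one_le_exp M])
  have tot : ‖(s • a) * (s • b) + (1 + s • a) * rb + ra * NormedSpace.exp (s • b) - rc‖ ≤
      s ^ 2 * M ^ 2 + (1 + M) * (s ^ 2 * (M ^ 2 * Real.exp M)) +
      (s ^ 2 * (M ^ 2 * Real.exp M)) * Real.exp M + s ^ 2 * (M ^ 2 * Real.exp M) := by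
    refine (norm_sub_le _ _).trans ?_
    apply add_le_add _ e4
    refine (norm_add_le _ _).trans ?_
    apply add_le_add _ e3
    refine (norm_add_le _ _).trans ?_
    exact add_le_add e1 e2
  refine tot.trans ?_
  rw [hE2]
  set E := Real.exp M with hEdef
  have hs2 : 0 ≤ s ^ 2 := by positivity
  have : s ^ 2 * M ^ 2 + (1 + M) * (s ^ 2 * (M ^ 2 * E)) + (s ^ 2 * (M ^ 2 * E)) * E +
      s ^ 2 * (M ^ 2 * E) = s ^ 2 * (M ^ 2 * (1 + (1 + M) * E + E * E + E)) := by ring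
  rw [this]
  apply mul_le_mul_of_nonneg_left _ hs2
  have g1 : 1 + (1 + M) * E + E * E + E ≤ 4 * (M + 1) * (E * E) := by nlinarith [mul_nonneg hM0 (by linarith : (0:ℝ) ≤ E)]
  calc M ^ 2 * (1 + (1 + M) * E + E * E + E) ≤ M ^ 2 * (4 * (M + 1) * (E * E)) :=
        mul_le_mul_of_nonneg_left g1 (by positivity)
    _ = 4 * (M ^ 2 * (M + 1)) * (E * E) := by ring
    _ ≤ 4 * (M + 1) ^ 3 * (E * E) := by
        apply mul_le_mul_of_nonneg_right _ (by positivity)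
        apply mul_le_mul_of_nonneg_left _ (by norm_num)
        nlinarith

end Trot

open Trot in
theorem trotter {A : Type*} [NormedRing A] [NormOneClass A] [NormedAlgebra ℝ A] [CompleteSpace A]
    (a b : A) : Tendsto (fun n : ℕ => (NormedSpace.exp ((n : ℝ)⁻¹ • a) *
      NormedSpace.exp ((n : ℝ)⁻¹ • b)) ^ n) atTop (𝓝 (NormedSpace.exp (a + b))) := by
  set M := ‖a‖ + ‖b‖ with hM
  have hM0 : 0 ≤ M := by positivity
  set K : ℝ := 4 * (M + 1) ^ 3 * Real.exp (2 * M) with hK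
  have hbound : ∀ n : ℕ, 1 ≤ n → ‖(NormedSpace.exp ((n : ℝ)⁻¹ • a) *
      NormedSpace.exp ((n : ℝ)⁻¹ • b)) ^ n - NormedSpace.exp (a + b)‖ ≤
      (Real.exp M * K) * (n : ℝ)⁻¹ := by
    intro n hn
    have hn1 : (1 : ℝ) ≤ n := by exact_mod_cast hn
    have hn0 : (0 : ℝ) < n := by linarith
    have hs0 : (0 : ℝ) ≤ (n : ℝ)⁻¹ := by positivity
    have hs1 : (n : ℝ)⁻¹ ≤ 1 := inv_le_one_of_one_le₀ hn1
    have hY : NormedSpace.exp (a + b) = (NormedSpace.exp ((n : ℝ)⁻¹ • (a + b))) ^ n := by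
      let _ : NormedAlgebra ℚ A := NormedAlgebra.restrictScalars ℚ ℝ A
      rw [← NormedSpace.exp_nsmul]
      congr 1
      rw [← Nat.cast_smul_eq_nsmul ℝ, smul_smul, mul_inv_cancel₀ hn0.ne', one_smul]
    rw [hY]
    have hR : 1 ≤ Real.exp ((n : ℝ)⁻¹ * M) := Real.one_le_exp (by positivity)
    have nX : ‖NormedSpace.exp ((n : ℝ)⁻¹ • a) * NormedSpace.exp ((n : ℝ)⁻¹ • b)‖ ≤
        Real.exp ((n : ℝ)⁻¹ * M) := by
      refine (norm_mul_le _ _).trans ?_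
      have h1 := norm_exp_le ((n : ℝ)⁻¹ • a)
      have h2 := norm_exp_le ((n : ℝ)⁻¹ • b)
      rw [norm_smul, Real.norm_of_nonneg hs0] at h1 h2
      calc ‖NormedSpace.exp ((n : ℝ)⁻¹ • a)‖ * ‖NormedSpace.exp ((n : ℝ)⁻¹ • b)‖
          ≤ Real.exp ((n : ℝ)⁻¹ * ‖a‖) * Real.exp ((n : ℝ)⁻¹ * ‖b‖) :=
            mul_le_mul h1 h2 (norm_nonneg _) (Real.exp_nonneg _)
        _ = Real.exp ((n : ℝ)⁻¹ * M) := by rw [← Real.exp_add, hM]; ring_nf
    have nY : ‖NormedSpace.exp ((n : ℝ)⁻¹ • (a + b))‖ ≤ Real.exp ((n : ℝ)⁻¹ * M) := by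
      have h1 := norm_exp_le ((n : ℝ)⁻¹ • (a + b))
      rw [norm_smul, Real.norm_of_nonneg hs0] at h1
      refine h1.trans (Real.exp_le_exp.2 ?_)
      exact mul_le_mul_of_nonneg_left (norm_add_le a b) hs0
    refine (Trot.pow_sub _ _ _ hR nX nY n).trans ?_
    have hRn : Real.exp ((n : ℝ)⁻¹ * M) ^ n = Real.exp M := by
      rw [← Real.exp_nat_mul]
      congr 1
      field_simp
    rw [hRn]
    have hd := diff_bound a b (n : ℝ)⁻¹ hs0 hs1
    calc (n : ℝ) * Real.exp M * ‖NormedSpace.exp ((n : ℝ)⁻¹ • a) *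
          NormedSpace.exp ((n : ℝ)⁻¹ • b) - NormedSpace.exp ((n : ℝ)⁻¹ • (a + b))‖
        ≤ (n : ℝ) * Real.exp M * ((n : ℝ)⁻¹ ^ 2 * K) :=
          mul_le_mul_of_nonneg_left hd (by positivity)
      _ = (Real.exp M * K) * (n : ℝ)⁻¹ := by
          field_simp
  rw [tendsto_iff_norm_sub_tendsto_zero]
  have hlim : Tendsto (fun n : ℕ => (Real.exp M * K) * (n : ℝ)⁻¹) atTop (𝓝 0) := by
    have := (tendsto_inv_atTop_nhds_zero_nat (𝕜 := ℝ)).const_mul (Real.exp M * K)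
    rw [mul_zero] at this
    exact this
  apply squeeze_zero' (Eventually.of_forall (fun _ => norm_nonneg _)) _ hlim
  filter_upwards [eventually_ge_atTop 1] with n hn
  exact hbound n hn

theorem matrix_trotter {m : ℕ} (a b : Matrix (Fin m) (Fin m) ℂ) :
    Tendsto (fun n : ℕ => (NormedSpace.exp ((n : ℝ)⁻¹ • a) *
      NormedSpace.exp ((n : ℝ)⁻¹ • b)) ^ n) atTop (𝓝 (NormedSpace.exp (a + b))) := by
  rcases Nat.eq_zero_or_pos m with hm | hm
  · subst hm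
    have h : ∀ x y : Matrix (Fin 0) (Fin 0) ℂ, x = y := fun x y => Subsingleton.elim x y
    have : (fun n : ℕ => (NormedSpace.exp ((n : ℝ)⁻¹ • a) *
      NormedSpace.exp ((n : ℝ)⁻¹ • b)) ^ n) = fun _ => NormedSpace.exp (a + b) := by
      funext n
      exact h _ _
    rw [this]
    exact tendsto_const_nhds
  · let _ : NormedRing (Matrix (Fin m) (Fin m) ℂ) := Matrix.linftyOpNormedRing
    let _ : NormedAlgebra ℝ (Matrix (Fin m) (Fin m) ℂ) := Matrix.linftyOpNormedAlgebra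
    have : Nonempty (Fin m) := ⟨⟨0, hm⟩⟩
    have : NormOneClass (Matrix (Fin m) (Fin m) ℂ) := Matrix.linfty_opNormOneClass
    exact trotter a b

end Pool.Agent.GY
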