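import Pool.Agent.GY.DefsM
import Pool.Agent.GY.Trot

/-!
# GY.LieM1 (diff 2): the Lie algebra of a compact group of matrices

`range π` is compact, so closed in `Mn n`.
* `lie_add`: `exp(t(A+B)) = lim (exp(tA/n) exp(tB/n))^n` (`matrix_trotter` for `t • A`, `t • B`), each term is in `range π`, which is closed.
* `lie_skew`: `exp(tA)` is unitary: `exp(t A)ᴴ exp(t A) = exp(t Aᴴ) exp(t A) = 1` for all `t`; so `exp(t Aᴴ) = exp(-t A)` for all `t`: derivative at `0`.
* `lie_conj`: `π x exp(t A) (π x)⁻¹ = exp(t π x A (π x)⁻¹)` (`Matrix.exp_conj`).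
* `lie_br`: `γ s = exp(sA) B exp(-sA) ∈ 𝔤` for all real `s`; `(γ s - γ 0)/s ∈ 𝔤`, and it tends to `A B - B A`; `𝔤` is closed (`Submodule.closed_of_finiteDimensional`).
-/

open Topology Filter Set Matrix

namespace Pool.Agent.GY

variable {P : Type*} [Group P] [TopologicalSpace P] [IsTopologicalGroup P] [CompactSpace P]
  {n : ℕ} (π : P →* Mn n) (hπ : Continuous π)

include hπ in
theorem lie_add {A B : Mn n} (hA : ∀ t : ℝ, ∃ x, π x = NormedSpace.exp (t • A))
    (hB : ∀ t : ℝ, ∃ x, π x = NormedSpace.exp (t • B)) (t : ℝ) :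
    ∃ x, π x = NormedSpace.exp (t • (A + B)) := by
  have hcl : IsClosed (Set.range π) := (isCompact_range hπ).isClosed
  have hlim := matrix_trotter (t • A) (t • B)
  rw [← smul_add] at hlim
  have hmem : NormedSpace.exp (t • (A + B)) ∈ Set.range π := by
    apply hcl.mem_of_tendsto hlim
    filter_upwards with k
    rw [smul_smul, smul_smul]
    obtain ⟨x, hx⟩ := hA ((k : ℝ)⁻¹ * t)
    obtain ⟨y, hy⟩ := hB ((k : ℝ)⁻¹ * t)
    exact ⟨(x * y) ^ k, by rw [map_pow, map_mul, hx, hy]⟩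
  exact hmem

/-- the Lie algebra of the image of `π` -/
def LieOf : Submodule ℝ (Mn n) where
  carrier := {A | ∀ t : ℝ, ∃ x, π x = NormedSpace.exp (t • A)}
  add_mem' := fun hA hB t => lie_add π hπ hA hB t
  zero_mem' := fun t => ⟨1, by simp⟩
  smul_mem' := fun c A hA t => by simpa [smul_smul] using hA (t * c)

theorem mem_LieOf {A : Mn n} :
    A ∈ LieOf π hπ ↔ ∀ t : ℝ, ∃ x, π x = NormedSpace.exp (t • A) := Iff.rfl

namespace LieM1

theorem deriv_exp (A : Mn n) : Tendsto (fun t : ℝ => t⁻¹ • (NormedSpace.exp (t • A) - 1))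
    (𝓝[≠] 0) (𝓝 A) := by
  let _ : NormedRing (Matrix (Fin n) (Fin n) ℂ) := Matrix.linftyOpNormedRing
  let _ : NormedAlgebra ℝ (Matrix (Fin n) (Fin n) ℂ) := Matrix.linftyOpNormedAlgebra
  have h1 := hasDerivAt_exp_smul_const (𝕂 := ℝ) A (0 : ℝ)
  rw [hasDerivAt_iff_tendsto_slope] at h1
  simp only [zero_smul, NormedSpace.exp_zero, one_mul] at h1
  refine h1.congr ?_
  intro t
  rw [slope_def_module]
  simp only [zero_smul, NormedSpace.exp_zero, sub_zero]
  rfl

theorem inj_exp {A B : Mn n} (h : ∀ t : ℝ, NormedSpace.exp (t • A) = NormedSpace.exp (t • B)) :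
    A = B := by
  have h1 := deriv_exp A
  have h2 := deriv_exp B
  simp only [h] at h1
  exact tendsto_nhds_unique h1 h2

end LieM1

open LieM1

theorem lie_skew (hu : ∀ x, π x ∈ Matrix.unitaryGroup (Fin n) ℂ) {A : Mn n}
    (hA : A ∈ LieOf π hπ) : Aᴴ = -A := by
  apply inj_exp
  intro t
  obtain ⟨x, hx⟩ := hA t
  have h1 := (Matrix.mem_unitaryGroup_iff').1 (hu x)
  rw [hx, Matrix.star_eq_conjTranspose, ← Matrix.exp_conjTranspose,
    Matrix.conjTranspose_smul] at h1
  rw [star_trivial] at h1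
  have h2 : NormedSpace.exp (t • A) * NormedSpace.exp (t • (-A)) = 1 := by
    rw [← Matrix.exp_add_of_commute]
    · simp
    · exact ((Commute.refl A).neg_right.smul_left t).smul_right t
  calc NormedSpace.exp (t • Aᴴ) = NormedSpace.exp (t • Aᴴ) *
        (NormedSpace.exp (t • A) * NormedSpace.exp (t • (-A))) := by rw [h2, mul_one]
    _ = NormedSpace.exp (t • (-A)) := by rw [← mul_assoc, h1, one_mul]

theorem lie_conj {A : Mn n} (hA : A ∈ LieOf π hπ) (x : P) : π x * A * π x⁻¹ ∈ LieOf π hπ := by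
  intro t
  obtain ⟨y, hy⟩ := hA t
  refine ⟨x * y * x⁻¹, ?_⟩
  rw [map_mul, map_mul, hy]
  have hinv : π x * π x⁻¹ = 1 := by rw [← map_mul, mul_inv_cancel, map_one]
  have hinv' : π x⁻¹ = (π x)⁻¹ := (Matrix.inv_eq_right_inv hinv).symm
  have hU : IsUnit (π x) := IsUnit.of_mul_eq_one _ hinv
  rw [hinv', ← Matrix.exp_conj _ _ hU]
  congr 1
  rw [mul_smul_comm, smul_mul_assoc]

theorem lie_br {A B : Mn n} (hA : A ∈ LieOf π hπ) (hB : B ∈ LieOf π hπ) :
    A * B - B * A ∈ LieOf π hπ := by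
  have hcl : IsClosed ((LieOf π hπ : Submodule ℝ (Mn n)) : Set (Mn n)) :=
    Submodule.closed_of_finiteDimensional _
  have hγ : ∀ s : ℝ, NormedSpace.exp (s • A) * B * NormedSpace.exp (-(s • A)) ∈ LieOf π hπ := by
    intro s
    obtain ⟨x, hx⟩ := hA s
    have h1 := lie_conj π hπ hB x
    have hinv : π x * π x⁻¹ = 1 := by rw [← map_mul, mul_inv_cancel, map_one]
    have hinv' : π x⁻¹ = (π x)⁻¹ := (Matrix.inv_eq_right_inv hinv).symm
    rw [hinv', hx, ← Matrix.exp_neg] at h1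
    exact h1
  have hlim : Tendsto (fun s : ℝ => s⁻¹ • (NormedSpace.exp (s • A) * B *
      NormedSpace.exp (-(s • A)) - B)) (𝓝[≠] 0) (𝓝 (A * B - B * A)) := by
    have d1 := deriv_exp A
    have d2 : Tendsto (fun s : ℝ => s⁻¹ • (NormedSpace.exp (-(s • A)) - 1)) (𝓝[≠] 0)
        (𝓝 (-A)) := by
      have := deriv_exp (-A)
      simp only [smul_neg] at this
      simpa using this
    have hid : Tendsto (fun s : ℝ => s) (𝓝[≠] 0) (𝓝 0) := nhdsWithin_le_nhds
    have d3 : Tendsto (fun s : ℝ => NormedSpace.exp (-(s • A))) (𝓝[≠] 0) (𝓝 1) := by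
      have h1 := (hid.smul d2).const_add (1 : Mn n)
      rw [zero_smul, add_zero] at h1
      refine h1.congr' ?_
      filter_upwards [self_mem_nhdsWithin] with s hs
      have hs0 : s ≠ 0 := hs
      rw [smul_smul, mul_inv_cancel₀ hs0, one_smul]
      abel
    have h2 := ((d1.mul_const B).mul d3).add (d2.const_mul B)
    have e1 : A * B * 1 + B * (-A) = A * B - B * A := by
      rw [mul_one, mul_neg, sub_eq_add_neg]
    rw [e1] at h2
    refine h2.congr ?_
    intro s
    have gen : ∀ X Y : Mn n, X * B * Y - B = (X - 1) * B * Y + B * (Y - 1) := by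
      intro X Y
      noncomm_ring
    rw [gen, smul_add, smul_mul_assoc, smul_mul_assoc, mul_smul_comm]
  apply hcl.mem_of_tendsto hlim
  filter_upwards with s
  exact Submodule.smul_mem _ _ (Submodule.sub_mem _ (hγ s) hB)

end Pool.Agent.GY
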