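import Pool.Agent.GY.ExOpen

/-!
# GY.LogDef (diff 1-2): the logarithm

`lg g` = the unique `v` with `‖v‖ ≤ RR`, `ex v = g` (`0` if there is none).
* `exists_log`: `ex_open` at `v₀ = 0` with `ρ = min RR s`.
* `lg_cont`: `‖lg g - v‖ ≤ (4/3) ‖D g - D (ex v)‖` (`ex_lower`), and near `ex v`, `‖v‖ < RR`, all `g` are of the form `ex v'`, `‖v'‖ < RR` (`ex_open`).
* `isOpen_ex`: `ex_open` (with `S.tendsto_iff`/`exists_ball` to pass to neighbourhoods: `{g | ‖D g - D (ex v₀)‖ < δ}` is open by continuity of `D`).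
* `gen`: `Subgroup.closure (range ex)` contains a neighbourhood of `1`, so it is open, closed, and everything if `G` is connected.
-/

open Topology Filter Set

namespace Pool.Agent.GY.Gl

variable {G E : Type*} [Group G] [TopologicalSpace G] [IsTopologicalGroup G]
  [NormedAddCommGroup E] [NormedSpace ℝ E] [CompleteSpace E] (S : Gl G E)

open Classical in
/-- logarithm -/
noncomputable def lg (g : G) : S.T :=
  if h : ∃ v : S.T, ‖v‖ ≤ S.RR ∧ S.ex v = g then h.choose else 0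

theorem lg_ex {v : S.T} (hv : ‖v‖ ≤ S.RR) : S.lg (S.ex v) = v := by
  have h : ∃ w : S.T, ‖w‖ ≤ S.RR ∧ S.ex w = S.ex v := ⟨v, hv, rfl⟩
  unfold lg
  rw [dif_pos h]
  exact S.ex_inj h.choose_spec.1 hv h.choose_spec.2

theorem lg_one : S.lg 1 = 0 := by
  rw [← S.ex_zero]
  exact S.lg_ex (by rw [norm_zero]; exact S.RR_pos.le)

theorem exists_log {s : ℝ} (hs : 0 < s) : ∃ δ : ℝ, 0 < δ ∧ ∀ g : G, ‖S.D g‖ < δ →
    ‖S.lg g‖ < s ∧ ‖S.lg g‖ < S.RR ∧ S.ex (S.lg g) = g ∧ ‖S.lg g‖ ≤ 4 / 3 * ‖S.D g‖ := by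
  have h0 : ‖(0 : S.T)‖ < S.RR := by rw [norm_zero]; exact S.RR_pos
  obtain ⟨δ, hδ, h⟩ := S.ex_open h0 (ρ := min S.RR s) (lt_min S.RR_pos hs)
  refine ⟨δ, hδ, fun g hg => ?_⟩
  obtain ⟨v, hv, rfl⟩ := h g (by rw [S.ex_zero, S.one, sub_zero]; exact hg)
  rw [sub_zero] at hv
  have hv1 : ‖v‖ < S.RR := lt_of_lt_of_le hv (min_le_left _ _)
  rw [S.lg_ex hv1.le]
  refine ⟨lt_of_lt_of_le hv (min_le_right _ _), hv1, rfl, ?_⟩
  have h2 := S.ex_lower hv1.le h0.le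
  rw [sub_zero, S.ex_zero, S.one, sub_zero] at h2
  linarith

theorem isOpen_ex {s : ℝ} (hs : s ≤ S.RR) : IsOpen (S.ex '' Metric.ball 0 s) := by
  rw [isOpen_iff_mem_nhds]
  rintro _ ⟨v₀, hv₀, rfl⟩
  rw [mem_ball_zero_iff] at hv₀
  obtain ⟨δ, hδ, h⟩ := S.ex_open (lt_of_lt_of_le hv₀ hs) (ρ := s - ‖v₀‖) (by linarith)
  have ho : IsOpen {g : G | ‖S.D g - S.D (S.ex v₀)‖ < δ} :=
    isOpen_lt ((S.cont.sub continuous_const).norm) continuous_const
  have hm : S.ex v₀ ∈ {g : G | ‖S.D g - S.D (S.ex v₀)‖ < δ} := by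
    change ‖S.D (S.ex v₀) - S.D (S.ex v₀)‖ < δ
    rw [sub_self, norm_zero]
    exact hδ
  refine Filter.mem_of_superset (ho.mem_nhds hm) ?_
  intro g hg
  obtain ⟨v, hv, rfl⟩ := h g hg
  refine ⟨v, ?_, rfl⟩
  rw [mem_ball_zero_iff]
  calc ‖v‖ = ‖(v - v₀) + v₀‖ := by rw [sub_add_cancel]
    _ ≤ ‖v - v₀‖ + ‖v₀‖ := norm_add_le _ _
    _ < s := by linarith

theorem ex_lg {g : G} (hg : g ∈ S.ex '' Metric.ball 0 S.RR) :
    S.ex (S.lg g) = g ∧ ‖S.lg g‖ < S.RR := by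
  obtain ⟨v, hv, rfl⟩ := hg
  rw [mem_ball_zero_iff] at hv
  rw [S.lg_ex hv.le]
  exact ⟨rfl, hv⟩

theorem lg_cont : ContinuousOn S.lg (S.ex '' Metric.ball 0 S.RR) := by
  intro g hg
  unfold ContinuousWithinAt
  rw [tendsto_iff_norm_sub_tendsto_zero]
  obtain ⟨hg1, hg2⟩ := S.ex_lg hg
  have h1 : Tendsto (fun g' => 4 / 3 * ‖S.D g' - S.D g‖)
      (𝓝[S.ex '' Metric.ball 0 S.RR] g) (𝓝 0) := by
    have hc : Continuous (fun g' => 4 / 3 * ‖S.D g' - S.D g‖) :=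
      continuous_const.mul ((S.cont.sub continuous_const).norm)
    have := hc.tendsto g
    rw [sub_self, norm_zero, mul_zero] at this
    exact this.mono_left nhdsWithin_le_nhds
  refine squeeze_zero' (Eventually.of_forall fun g' => norm_nonneg _) ?_ h1
  filter_upwards [self_mem_nhdsWithin] with g' hg'
  obtain ⟨hg1', hg2'⟩ := S.ex_lg hg'
  have h2 := S.ex_lower hg2'.le hg2.le
  rw [hg1, hg1'] at h2
  linarith

theorem ex_nhds {s : ℝ} (hs : 0 < s) : S.ex '' Metric.ball 0 s ∈ 𝓝 (1 : G) := by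
  have h1 := S.isOpen_ex (s := min s S.RR) (min_le_right _ _)
  have h2 : (1 : G) ∈ S.ex '' Metric.ball 0 (min s S.RR) :=
    ⟨0, by rw [mem_ball_zero_iff, norm_zero]; exact lt_min hs S.RR_pos, S.ex_zero⟩
  exact Filter.mem_of_superset (h1.mem_nhds h2)
    (Set.image_mono (Metric.ball_subset_ball (min_le_left _ _)))

theorem gen [ConnectedSpace G] : Subgroup.closure (Set.range S.ex) = ⊤ := by
  have h1 : ((Subgroup.closure (Set.range S.ex) : Subgroup G) : Set G) ∈ 𝓝 (1 : G) := by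
    refine Filter.mem_of_superset (S.ex_nhds one_pos) ?_
    rintro _ ⟨v, -, rfl⟩
    exact Subgroup.subset_closure ⟨v, rfl⟩
  have h2 : IsOpen ((Subgroup.closure (Set.range S.ex) : Subgroup G) : Set G) :=
    Subgroup.isOpen_of_mem_nhds _ h1
  have h3 : IsClosed ((Subgroup.closure (Set.range S.ex) : Subgroup G) : Set G) :=
    Subgroup.isClosed_of_isOpen _ h2
  have h4 := IsClopen.eq_univ ⟨h3, h2⟩ ⟨1, Subgroup.one_mem _⟩
  rw [← Subgroup.coe_top, SetLike.coe_set_eq] at h4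
  exact h4

end Pool.Agent.GY.Gl
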