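import Pool.Agent.GY.LieM1
import Pool.Agent.GY.GlMk
import Pool.Agent.GY.LogDef
import Pool.Agent.GY.BanOps
import Pool.Agent.GY.BanNSS

/-!
# GY.LieM2 (diff 2): the Lie algebra of a compact connected nonabelian matrix group is nonabelian

* `P` is NSS: the set `{x | ‖π x - 1‖ < 1/2}` (a norm making `Mn n` a normed algebra) contains no nontrivial subgroup (`ban_nss` and injectivity).
* `exists_gl`: Gleason data `S`; `Subgroup.closure (range S.ex) = ⊤` (`Gl.gen`, `P` connected).
* for `v : S.T`: `f t = π (S.ex (t • v))` is a continuous one-parameter group of matrices (`ex_cont`, `ex_add`, `ex_zero`): `f t = exp(t A)` (`ban_ops`), so `A ∈ LieOf π hπ`.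
* If all elements of the Lie algebra commute, the matrices `π (S.ex v)` commute, so (injectivity) the elements `S.ex v` commute, so `P` is commutative (`Subgroup.closure_induction₂` or `Subgroup.closureCommGroupOfComm`): contradiction.
-/

open Topology Filter Set Matrix

namespace Pool.Agent.GY

theorem lie_nonab {P : Type*} [Group P] [TopologicalSpace P] [IsTopologicalGroup P]
    [CompactSpace P] [T2Space P] [ConnectedSpace P] {n : ℕ} (π : P →* Mn n) (hπ : Continuous π)
    (hinj : Function.Injective π) (hna : ∃ x y : P, x * y ≠ y * x) :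
    ∃ A ∈ LieOf π hπ, ∃ B ∈ LieOf π hπ, A * B ≠ B * A := by
  classical
  let _ : NormedRing (Mn n) := Matrix.linftyOpNormedRing
  let _ : NormedAlgebra ℝ (Mn n) := Matrix.linftyOpNormedAlgebra
  have : CompleteSpace (Mn n) := FiniteDimensional.complete ℝ (Mn n)
  by_contra hcon
  push Not at hcon
  -- no small subgroups
  have hN : NSS P := by
    refine ⟨{x | ‖π x - 1‖ < 1 / 2}, ?_, ?_⟩
    · have hc : Continuous fun x : P => ‖π x - 1‖ := (hπ.sub continuous_const).norm
      have ho : IsOpen {x : P | ‖π x - 1‖ < 1 / 2} := isOpen_lt hc continuous_const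
      refine ho.mem_nhds ?_
      simp
    · intro L hL
      rw [Subgroup.eq_bot_iff_forall]
      intro g hg
      have h1 : π g = 1 := by
        refine ban_nss (c := 1 / 2) (by norm_num) fun k => ?_
        have h2 : g ^ k ∈ {x : P | ‖π x - 1‖ < 1 / 2} := hL (L.pow_mem hg k)
        have h3 : ‖π (g ^ k) - 1‖ < 1 / 2 := h2
        rw [map_pow] at h3
        exact h3.le
      exact hinj (by rw [h1, map_one])
  obtain ⟨S⟩ := exists_gl hN
  -- generators
  have hgen : ∀ v : S.T, ∃ A ∈ LieOf π hπ, π (S.ex v) = NormedSpace.exp A := by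
    intro v
    obtain ⟨A, hA⟩ := ban_ops (fun t : ℝ => π (S.ex (t • v)))
      (hπ.comp (S.ex_cont.comp (continuous_id.smul continuous_const)))
      (by simp [S.ex_zero]) (fun s t => by simp only [S.ex_add, map_mul])
    refine ⟨A, ?_, ?_⟩
    · rw [mem_LieOf]
      exact fun t => ⟨S.ex (t • v), hA t⟩
    · have := hA 1
      simp only [one_smul] at this
      exact this
  have hcomm : ∀ v w : S.T, S.ex v * S.ex w = S.ex w * S.ex v := by
    intro v w
    obtain ⟨A, hA, hA'⟩ := hgen v
    obtain ⟨B, hB, hB'⟩ := hgen w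
    apply hinj
    rw [map_mul, map_mul, hA', hB']
    have : Commute A B := hcon A hA B hB
    exact this.exp
  obtain ⟨x, y, hxy⟩ := hna
  apply hxy
  have hx : x ∈ Subgroup.closure (Set.range S.ex) := by rw [S.gen]; trivial
  have hy : y ∈ Subgroup.closure (Set.range S.ex) := by rw [S.gen]; trivial
  have hcl : ∀ a ∈ Set.range S.ex, ∀ b ∈ Set.range S.ex, a * b = b * a := by
    rintro _ ⟨v, rfl⟩ _ ⟨w, rfl⟩
    exact hcomm v w
  have h1 : ∀ b ∈ Set.range S.ex, ∀ z ∈ Subgroup.closure (Set.range S.ex), z * b = b * z := by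
    intro b hb z hz
    have : z ∈ Subgroup.centralizer ({b} : Set P) := by
      refine (Subgroup.closure_le _).2 ?_ hz
      intro a ha
      rw [SetLike.mem_coe, Subgroup.mem_centralizer_iff]
      intro c hc
      rw [Set.mem_singleton_iff] at hc
      subst hc
      exact hcl _ hb _ ha
    rw [Subgroup.mem_centralizer_iff] at this
    exact (this b rfl).symm
  have h2 : y ∈ Subgroup.centralizer ({x} : Set P) := by
    refine (Subgroup.closure_le _).2 ?_ hy
    intro a ha
    rw [SetLike.mem_coe, Subgroup.mem_centralizer_iff]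
    intro c hc
    rw [Set.mem_singleton_iff] at hc
    subst hc
    exact h1 a ha _ hx
  rw [Subgroup.mem_centralizer_iff] at h2
  exact h2 x rfl

end Pool.Agent.GY
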