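import Pool.Agent.GY.Manif

/-!
# GY.LieOps (diff 2-3): the group operations are analytic in the charts

* `mul_chart`: for `‖x‖, ‖y‖` small: `g ex x · h ex y = g h · ex (Ad h⁻¹ x) ex y = g h ex (bch (y, Ad h⁻¹ x))` (`Ad_spec`, `bch_spec`).  In the chart at `g h` this is
  `eu (bch (y, Ad h⁻¹ x))`.  So `(a, b) ↦ cht (g h) ((cht g).symm a * (cht h).symm b)` is analytic at `(0, 0)`.
* `inv_chart`: `(g ex x)⁻¹ = ex(-x) g⁻¹ = g⁻¹ ex (- Ad g x)`: linear in the charts at `g` and `g⁻¹`.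
* `lieGroup`: `ContMDiff` of the multiplication at `(g, h)`: `contMDiffAt_iff` with the charts at `(g, h)` (product chart) and `g h` (`chartAt = cht`), `extChartAt` simplify for `𝓡 n`; the derivative
  condition at the point `(cht g g, cht h h) = (0, 0)` is `mul_chart`.  Same for the inverse.
-/

open Topology Filter Set
open scoped Manifold ContDiff

namespace Pool.Agent.GY.Gl

variable {G E : Type*} [Group G] [TopologicalSpace G] [IsTopologicalGroup G]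
  [NormedAddCommGroup E] [NormedSpace ℝ E] [CompleteSpace E] (S : Gl G E)

theorem mul_chart (g h : G) : AnalyticAt ℝ
    (fun p : EuclideanSpace ℝ (Fin S.dm) × EuclideanSpace ℝ (Fin S.dm) =>
      S.cht (g * h) ((S.cht g).symm p.1 * (S.cht h).symm p.2)) (0, 0) := by
  have hr1 : 0 < S.r1 := S.r1_pos
  have hm : ((0, 0) : S.T × S.T) ∈ Metric.ball (0 : S.T × S.T) S.r1 := by
    rw [mem_ball_zero_iff, Prod.norm_def]
    simpa using hr1
  have hx : AnalyticAt ℝ (fun p : EuclideanSpace ℝ (Fin S.dm) × EuclideanSpace ℝ (Fin S.dm) =>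
      S.Ad h⁻¹ (S.eu.symm p.1)) (0, 0) :=
    (((S.Ad h⁻¹).comp (S.eu.symm : EuclideanSpace ℝ (Fin S.dm) →L[ℝ] S.T)).comp
      (ContinuousLinearMap.fst ℝ (EuclideanSpace ℝ (Fin S.dm))
        (EuclideanSpace ℝ (Fin S.dm)))).analyticAt _
  have hy : AnalyticAt ℝ (fun p : EuclideanSpace ℝ (Fin S.dm) × EuclideanSpace ℝ (Fin S.dm) =>
      S.eu.symm p.2) (0, 0) :=
    ((S.eu.symm : EuclideanSpace ℝ (Fin S.dm) →L[ℝ] S.T).comp
      (ContinuousLinearMap.snd ℝ (EuclideanSpace ℝ (Fin S.dm))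
        (EuclideanSpace ℝ (Fin S.dm)))).analyticAt _
  have hb : AnalyticAt ℝ (fun p : EuclideanSpace ℝ (Fin S.dm) × EuclideanSpace ℝ (Fin S.dm) =>
      bch S.ad (S.eu.symm p.2, S.Ad h⁻¹ (S.eu.symm p.1))) (0, 0) := by
    refine AnalyticAt.fun_comp (g := bch S.ad) ?_ (hy.prod hx)
    have : ((S.eu.symm (0 : EuclideanSpace ℝ (Fin S.dm)),
      S.Ad h⁻¹ (S.eu.symm (0 : EuclideanSpace ℝ (Fin S.dm)))) : S.T × S.T) = (0, 0) := by
      simp
    show AnalyticAt ℝ (bch S.ad) (S.eu.symm (0 : EuclideanSpace ℝ (Fin S.dm)),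
      S.Ad h⁻¹ (S.eu.symm (0 : EuclideanSpace ℝ (Fin S.dm))))
    rw [this]
    exact S.bch_analytic _ hm
  have hd : AnalyticAt ℝ (fun p : EuclideanSpace ℝ (Fin S.dm) × EuclideanSpace ℝ (Fin S.dm) =>
      S.eu (bch S.ad (S.eu.symm p.2, S.Ad h⁻¹ (S.eu.symm p.1)))) (0, 0) :=
    AnalyticAt.fun_comp (g := fun v => S.eu v)
      ((S.eu : S.T →L[ℝ] EuclideanSpace ℝ (Fin S.dm)).analyticAt _) hb
  have hev1 : ∀ᶠ p : EuclideanSpace ℝ (Fin S.dm) × EuclideanSpace ℝ (Fin S.dm) in 𝓝 (0, 0),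
      ‖S.Ad h⁻¹ (S.eu.symm p.1)‖ < S.r1 := by
    apply (hx.continuousAt.norm).eventually_lt_const
    show ‖S.Ad h⁻¹ (S.eu.symm (0 : EuclideanSpace ℝ (Fin S.dm)))‖ < S.r1
    simpa using hr1
  have hev2 : ∀ᶠ p : EuclideanSpace ℝ (Fin S.dm) × EuclideanSpace ℝ (Fin S.dm) in 𝓝 (0, 0),
      ‖S.eu.symm p.2‖ < S.r1 := by
    apply (hy.continuousAt.norm).eventually_lt_const
    show ‖S.eu.symm (0 : EuclideanSpace ℝ (Fin S.dm))‖ < S.r1
    simpa using hr1
  refine hd.congr ?_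
  filter_upwards [hev1, hev2] with p h1 h2
  rw [S.cht_symm_apply, S.cht_symm_apply, S.cht_apply]
  congr 1
  have e1 : (g * h)⁻¹ * (g * S.ex (S.eu.symm p.1) * (h * S.ex (S.eu.symm p.2))) =
      S.ex (bch S.ad (S.eu.symm p.2, S.Ad h⁻¹ (S.eu.symm p.1))) := by
    rw [← S.bch_spec h2 h1, ← S.Ad_spec]
    group
  rw [e1, S.lg_ex (S.bch_norm h2 h1).le]

theorem inv_chart (g : G) : AnalyticAt ℝ
    (fun y : EuclideanSpace ℝ (Fin S.dm) => S.cht g⁻¹ ((S.cht g).symm y)⁻¹) 0 := by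
  have hr1 : 0 < S.r1 := S.r1_pos
  have hx : AnalyticAt ℝ (fun y : EuclideanSpace ℝ (Fin S.dm) =>
      S.Ad g (-(S.eu.symm y))) 0 :=
    ((S.Ad g).comp (-(S.eu.symm : EuclideanSpace ℝ (Fin S.dm) →L[ℝ] S.T))).analyticAt _
  have hd : AnalyticAt ℝ (fun y : EuclideanSpace ℝ (Fin S.dm) =>
      S.eu (S.Ad g (-(S.eu.symm y)))) 0 :=
    AnalyticAt.fun_comp (g := fun v => S.eu v)
      ((S.eu : S.T →L[ℝ] EuclideanSpace ℝ (Fin S.dm)).analyticAt _) hx
  have hev1 : ∀ᶠ y : EuclideanSpace ℝ (Fin S.dm) in 𝓝 0,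
      ‖S.Ad g (-(S.eu.symm y))‖ < S.r1 := by
    apply (hx.continuousAt.norm).eventually_lt_const
    show ‖S.Ad g (-(S.eu.symm (0 : EuclideanSpace ℝ (Fin S.dm))))‖ < S.r1
    simpa using hr1
  refine hd.congr ?_
  filter_upwards [hev1] with y h1
  rw [S.cht_symm_apply, S.cht_apply]
  congr 1
  have e1 : g⁻¹⁻¹ * (g * S.ex (S.eu.symm y))⁻¹ = S.ex (S.Ad g (-(S.eu.symm y))) := by
    rw [← S.Ad_spec, S.ex_neg]
    group
  rw [e1, S.lg_ex (h1.le.trans S.r1_le)]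

theorem lieGroup : letI := S.chSp
    LieGroup (𝓡 S.dm) ω G := by
  letI := S.chSp
  haveI : IsManifold (𝓡 S.dm) ω G := S.manif
  have hch : ∀ x : G, chartAt (EuclideanSpace ℝ (Fin S.dm)) x = S.cht x := fun x => rfl
  refine { contMDiff_mul := ?_, contMDiff_inv := ?_ }
  · intro p
    obtain ⟨g, h⟩ := p
    rw [contMDiffAt_iff]
    refine ⟨continuous_mul.continuousAt, ?_⟩
    have h0 : extChartAt ((𝓡 S.dm).prod (𝓡 S.dm)) ((g, h) : G × G) (g, h) = (0, 0) := by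
      rw [extChartAt_prod]
      simp [extChartAt, hch, S.cht_self]
    rw [h0]
    have := (S.mul_chart g h).contDiffAt (n := ω)
    refine ContDiffAt.contDiffWithinAt ?_
    convert this using 1
    rfl
  · intro g
    rw [contMDiffAt_iff]
    refine ⟨continuous_inv.continuousAt, ?_⟩
    have h0 : extChartAt (𝓡 S.dm) g g = 0 := by
      simp [extChartAt, hch, S.cht_self]
    rw [h0]
    have := (S.inv_chart g).contDiffAt (n := ω)
    refine ContDiffAt.contDiffWithinAt ?_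
    convert this using 1
    rfl

end Pool.Agent.GY.Gl
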