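import Pool.Agent.GY.OpsLam

/-!
# GY.LimLem (diff 3): the key limit lemma

`Z t = lim h_i^⌊t/s_i⌋` along the ultrafilter.
* Existence of the limit for every `t`: write `n = ⌊t/s_i⌋`, `|n| ‖D (h_i)‖ ≤ A |t| + A s_i`.  Choose `k` with `(A |t| + 1)/k ≤ r/2`.  With `n = q k + m`, `0 ≤ m < k`
  (`Int.ediv`), `‖D (h_i^q)‖ ≤ r` and `‖D (h_i^m)‖ ≤ k A s_i ≤ r` for almost all `i`; so `h_i^n = (h_i^q)^k h_i^m` is in the compact set `B^k * B`,
  `B = {‖D g‖ ≤ r}` (`S.cpt`).  So the ultrafilter (map) converges (`IsCompact.ultrafilter_le_nhds`).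
* `Z (t + t') = Z t Z t'`: `⌊(t+t')/s⌋ - ⌊t/s⌋ - ⌊t'/s⌋ ∈ {0, 1}` and `h_i → 1` (`‖D (h_i)‖ ≤ A s_i → 0`); limits are unique (`S.t2`).
* `‖D (Z t)‖ ≤ A |t|` in the limit (`nrm_zpow_le`, continuity of `D`), so `Z` is continuous at `0`, hence everywhere (homomorphism).
* `D (h_i)/s_i → lam Z`: for `0 < t ≤ 1`, `n = ⌊t/s_i⌋`: `‖D (h_i^n) - n D (h_i)‖ ≤ 4 C (A t + A s_i)²` (`zpow_est`), `‖n D (h_i) - (t/s_i) D (h_i)‖ ≤ A s_i`.
  So along the ultrafilter `limsup ‖D (Z t) - t (D (h_i)/s_i)‖ ≤ 4 C A² t²`; with `‖D (Z t) - t lam Z‖ ≤ 4 C t² ‖lam Z‖²`: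
  `limsup ‖D (h_i)/s_i - lam Z‖ ≤ K t` for all small `t > 0`.
-/

open Topology Filter Set
open scoped Pointwise

namespace Pool.Agent.GY.Gl

variable {G E : Type*} [Group G] [TopologicalSpace G] [IsTopologicalGroup G]
  [NormedAddCommGroup E] [NormedSpace ℝ E] [CompleteSpace E] (S : Gl G E)

theorem LimLem_floor (x : ℝ) : |((⌊x⌋ : ℤ) : ℝ)| ≤ |x| + 1 := by
  have h1 := Int.floor_le x
  have h2 := Int.lt_floor_add_one x
  rw [abs_le]
  constructor
  · have := neg_abs_le x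
    linarith
  · have := le_abs_self x
    linarith

/-- the power has bounded norm -/
theorem LimLem_nrm {g : G} {s A : ℝ} (hs : 0 < s) (hA : ‖S.D g‖ ≤ A * s) (t : ℝ) :
    ‖S.D (g ^ ⌊t / s⌋)‖ ≤ A * |t| + A * s := by
  have hA0 : 0 ≤ A * s := (norm_nonneg _).trans hA
  refine (S.nrm_zpow_le g _).trans ?_
  calc |((⌊t / s⌋ : ℤ) : ℝ)| * ‖S.D g‖ ≤ (|t / s| + 1) * (A * s) :=
        mul_le_mul (LimLem_floor _) hA (norm_nonneg _) (by positivity)
    _ = A * |t| + A * s := by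
        rw [abs_div, abs_of_pos hs]
        field_simp

theorem LimLem_cpt {ι : Type*} (𝒰 : Ultrafilter ι) (h : ι → G) (s : ι → ℝ) (hs : ∀ i, 0 < s i)
    (hs0 : Tendsto s (𝒰 : Filter ι) (𝓝 0)) {A : ℝ} (hA : ∀ i, ‖S.D (h i)‖ ≤ A * s i) (t : ℝ) :
    ∃ y : G, Tendsto (fun i => h i ^ ⌊t / s i⌋) (𝒰 : Filter ι) (𝓝 y) := by
  set B : Set G := {g : G | ‖S.D g‖ ≤ S.r} with hB
  have hBc : IsCompact B := S.cpt
  have hr := S.hr
  obtain ⟨k, hk⟩ := exists_nat_gt ((|A| * |t| + 1 + S.r) / (S.r / 2))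
  have hk0 : (0 : ℝ) < k := lt_of_le_of_lt (by positivity) hk
  have hk0' : 0 < k := by exact_mod_cast hk0
  have hk1 : (1 : ℝ) ≤ k := by exact_mod_cast hk0'
  rw [div_lt_iff₀ (by positivity)] at hk
  have hK : IsCompact ((fun p : G × G => p.1 ^ k * p.2) '' (B ×ˢ B)) :=
    (hBc.prod hBc).image (by fun_prop)
  -- smallness
  have hsm : ∀ᶠ i in (𝒰 : Filter ι), s i < min 1 (S.r / (2 * (k * (|A| + 1)))) :=
    hs0.eventually (gt_mem_nhds (lt_min one_pos (by positivity)))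
  have hmem : ∀ᶠ i in (𝒰 : Filter ι), h i ^ ⌊t / s i⌋ ∈ (fun p : G × G => p.1 ^ k * p.2) '' (B ×ˢ B) := by
    filter_upwards [hsm] with i hi
    have hi1 : s i < 1 := lt_of_lt_of_le hi (min_le_left _ _)
    have hi2 : s i < S.r / (2 * (k * (|A| + 1))) := lt_of_lt_of_le hi (min_le_right _ _)
    have hsi := hs i
    have hA' : ‖S.D (h i)‖ ≤ |A| * s i :=
      (hA i).trans (mul_le_mul_of_nonneg_right (le_abs_self A) hsi.le)
    have hAA : 0 ≤ |A| := abs_nonneg A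
    have hkA : k * (|A| * s i) ≤ S.r / 2 := by
      rw [lt_div_iff₀ (by positivity)] at hi2
      have : k * (|A| * s i) ≤ s i * (k * (|A| + 1)) := by
        have : 0 ≤ s i * k := by positivity
        nlinarith
      linarith
    set n : ℤ := ⌊t / s i⌋ with hn
    have hkz : (k : ℤ) ≠ 0 := by exact_mod_cast hk0'.ne'
    have hdm : n = (n / k) * k + n % k := by
      have := Int.emod_add_mul_ediv n k
      linarith [this, mul_comm (n / (k : ℤ)) k]
    have hm0 : 0 ≤ n % k := Int.emod_nonneg _ hkz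
    have hm1 : n % k < k := Int.emod_lt_of_pos _ (by exact_mod_cast hk0')
    refine ⟨(h i ^ (n / k), h i ^ (n % k)), ⟨?_, ?_⟩, ?_⟩
    · show ‖S.D (h i ^ (n / k))‖ ≤ S.r
      refine (S.nrm_zpow_le _ _).trans ?_
      have hq : |((n / k : ℤ) : ℝ)| * k ≤ |(n : ℝ)| + k := by
        have e1 : (((n / k : ℤ) : ℝ)) * k = (n : ℝ) - ((n % k : ℤ) : ℝ) := by
          have : ((n : ℤ) : ℝ) = ((n / k : ℤ) : ℝ) * ((k : ℤ) : ℝ) + ((n % k : ℤ) : ℝ) := by
            exact_mod_cast hdm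
          rw [this]
          push_cast
          ring
        have e2 : |((n / k : ℤ) : ℝ)| * k = |(n : ℝ) - ((n % k : ℤ) : ℝ)| := by
          rw [← e1, abs_mul, abs_of_pos hk0]
        rw [e2]
        refine (abs_sub _ _).trans ?_
        have h3 : |((n % k : ℤ) : ℝ)| ≤ k := by
          rw [abs_of_nonneg (by exact_mod_cast hm0)]
          exact_mod_cast hm1.le
        linarith
      have hnb : |(n : ℝ)| * (|A| * s i) ≤ |A| * |t| + |A| * s i := by
        have := LimLem_floor (t / s i)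
        calc |(n : ℝ)| * (|A| * s i) ≤ (|t / s i| + 1) * (|A| * s i) :=
              mul_le_mul_of_nonneg_right this (by positivity)
          _ = |A| * |t| + |A| * s i := by
              rw [abs_div, abs_of_pos hsi]
              field_simp
      have hfin : |((n / k : ℤ) : ℝ)| * (|A| * s i) * k ≤ S.r * k := by
        calc |((n / k : ℤ) : ℝ)| * (|A| * s i) * k = (|((n / k : ℤ) : ℝ)| * k) * (|A| * s i) := by ring
          _ ≤ (|(n : ℝ)| + k) * (|A| * s i) := mul_le_mul_of_nonneg_right hq (by positivity)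
          _ = |(n : ℝ)| * (|A| * s i) + k * (|A| * s i) := by ring
          _ ≤ (|A| * |t| + |A| * s i) + k * (|A| * s i) := by linarith
          _ ≤ S.r * k := by
              have h5 : |A| * s i ≤ k * (|A| * s i) := by
                have : 0 ≤ |A| * s i := by positivity
                nlinarith
              nlinarith
      calc |((n / k : ℤ) : ℝ)| * ‖S.D (h i)‖ ≤ |((n / k : ℤ) : ℝ)| * (|A| * s i) :=
            mul_le_mul_of_nonneg_left hA' (abs_nonneg _)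
        _ ≤ S.r := le_of_mul_le_mul_right hfin hk0
    · show ‖S.D (h i ^ (n % k))‖ ≤ S.r
      refine (S.nrm_zpow_le _ _).trans ?_
      have h3 : |((n % k : ℤ) : ℝ)| ≤ k := by
        rw [abs_of_nonneg (by exact_mod_cast hm0)]
        exact_mod_cast hm1.le
      calc |((n % k : ℤ) : ℝ)| * ‖S.D (h i)‖ ≤ k * (|A| * s i) :=
            mul_le_mul h3 hA' (norm_nonneg _) hk0.le
        _ ≤ S.r := by linarith
    · show (h i ^ (n / k)) ^ k * h i ^ (n % k) = h i ^ n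
      rw [← zpow_natCast, ← zpow_mul, ← zpow_add, ← hdm]
  obtain ⟨y, -, hy⟩ := hK.ultrafilter_le_nhds (𝒰.map (fun i => h i ^ ⌊t / s i⌋)) (by
    rw [le_principal_iff]
    exact hmem)
  exact ⟨y, hy⟩

theorem lim_lemma {ι : Type*} (𝒰 : Ultrafilter ι) (h : ι → G) (s : ι → ℝ) (hs : ∀ i, 0 < s i)
    (hs0 : Tendsto s (𝒰 : Filter ι) (𝓝 0)) {A : ℝ} (hA : ∀ i, ‖S.D (h i)‖ ≤ A * s i) :
    ∃ Z : OPS G, (∀ t : ℝ, Tendsto (fun i => h i ^ ⌊t / s i⌋) (𝒰 : Filter ι) (𝓝 (Z t))) ∧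
      Tendsto (fun i => (s i)⁻¹ • S.D (h i)) (𝒰 : Filter ι) (𝓝 (S.lam Z)) := by
  have hT2 : T2Space G := S.emb.t2Space
  choose Z hZ using fun t => S.LimLem_cpt 𝒰 h s hs hs0 hA t
  have hD0 : Tendsto (fun i => ‖S.D (h i)‖) (𝒰 : Filter ι) (𝓝 0) := by
    have h1 : Tendsto (fun i => A * s i) (𝒰 : Filter ι) (𝓝 0) := by
      simpa using hs0.const_mul A
    exact squeeze_zero (fun i => norm_nonneg _) hA h1
  have hadd : ∀ t t', Z (t + t') = Z t * Z t' := by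
    intro t t'
    have h1 : Tendsto (fun i => h i ^ (⌊(t + t') / s i⌋ - ⌊t / s i⌋ - ⌊t' / s i⌋))
        (𝒰 : Filter ι) (𝓝 1) := by
      rw [S.tendsto_one_iff]
      refine squeeze_zero (fun i => norm_nonneg _) (fun i => ?_) hD0
      refine (S.nrm_zpow_le _ _).trans ?_
      have e1 : 0 ≤ ⌊(t + t') / s i⌋ - ⌊t / s i⌋ - ⌊t' / s i⌋ := by
        have := Int.le_floor_add (t / s i) (t' / s i)
        rw [← add_div] at this
        omega
      have e2 : ⌊(t + t') / s i⌋ - ⌊t / s i⌋ - ⌊t' / s i⌋ ≤ 1 := by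
        have := Int.le_floor_add_floor (t / s i) (t' / s i)
        rw [← add_div] at this
        omega
      have e3 : |((⌊(t + t') / s i⌋ - ⌊t / s i⌋ - ⌊t' / s i⌋ : ℤ) : ℝ)| ≤ 1 := by
        rw [abs_of_nonneg (by exact_mod_cast e1)]
        exact_mod_cast e2
      calc _ ≤ 1 * ‖S.D (h i)‖ := mul_le_mul_of_nonneg_right e3 (norm_nonneg _)
        _ = ‖S.D (h i)‖ := one_mul _
    have h2 := ((hZ t).mul (hZ t')).mul h1
    rw [mul_one] at h2
    have h3 : (fun i => h i ^ ⌊t / s i⌋ * h i ^ ⌊t' / s i⌋ *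
        h i ^ (⌊(t + t') / s i⌋ - ⌊t / s i⌋ - ⌊t' / s i⌋)) = fun i => h i ^ ⌊(t + t') / s i⌋ := by
      funext i
      rw [← zpow_add, ← zpow_add]
      congr 1
      ring
    rw [h3] at h2
    exact tendsto_nhds_unique (hZ (t + t')) h2
  have hnrm : ∀ t, ‖S.D (Z t)‖ ≤ A * |t| := by
    intro t
    have h1 : Tendsto (fun i => ‖S.D (h i ^ ⌊t / s i⌋)‖) (𝒰 : Filter ι) (𝓝 ‖S.D (Z t)‖) :=
      ((S.cont.tendsto _).comp (hZ t)).norm
    have h2 : Tendsto (fun i => A * |t| + A * s i) (𝒰 : Filter ι) (𝓝 (A * |t|)) := by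
      simpa using (hs0.const_mul A).const_add (A * |t|)
    exact le_of_tendsto_of_tendsto' h1 h2 (fun i => S.LimLem_nrm (hs i) (hA i) t)
  have hZ0 : Tendsto Z (𝓝 0) (𝓝 1) := by
    rw [S.tendsto_one_iff]
    have h2 : Tendsto (fun t : ℝ => A * |t|) (𝓝 0) (𝓝 0) := by
      have : Continuous (fun t : ℝ => A * |t|) := by fun_prop
      simpa using this.tendsto 0
    exact squeeze_zero (fun t => norm_nonneg _) hnrm h2
  have hZc : Continuous Z := by
    rw [continuous_iff_continuousAt]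
    intro t₀
    have h1 : Tendsto (fun t : ℝ => t - t₀) (𝓝 t₀) (𝓝 0) := by
      have : Continuous (fun t : ℝ => t - t₀) := by fun_prop
      simpa using this.tendsto t₀
    have h2 := (hZ0.comp h1).mul_const (Z t₀)
    rw [one_mul] at h2
    refine h2.congr fun t => ?_
    show Z (t - t₀) * Z t₀ = Z t
    rw [← hadd, sub_add_cancel]
  set Zo : OPS G := ⟨Z, hZc, hadd⟩ with hZo
  have hZoa : ∀ t, Zo t = Z t := fun t => rfl
  refine ⟨Zo, hZ, ?_⟩
  rw [Metric.tendsto_nhds]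
  intro ε hε
  have hC := S.C_pos
  set L := ‖S.lam Zo‖ with hL
  -- choice of `t`
  obtain ⟨t, ht0, ht1, ht2⟩ : ∃ t : ℝ, 0 < t ∧ t ≤ 1 ∧
      t * (4 * S.C * L ^ 2 + 16 * S.C * A ^ 2 + 1) ≤ ε / 2 := by
    have hK : 0 < 4 * S.C * L ^ 2 + 16 * S.C * A ^ 2 + 1 := by positivity
    refine ⟨min 1 (ε / 2 / (4 * S.C * L ^ 2 + 16 * S.C * A ^ 2 + 1)), lt_min one_pos (by positivity),
      min_le_left _ _, ?_⟩
    calc min 1 (ε / 2 / (4 * S.C * L ^ 2 + 16 * S.C * A ^ 2 + 1)) *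
          (4 * S.C * L ^ 2 + 16 * S.C * A ^ 2 + 1) ≤
          (ε / 2 / (4 * S.C * L ^ 2 + 16 * S.C * A ^ 2 + 1)) *
          (4 * S.C * L ^ 2 + 16 * S.C * A ^ 2 + 1) :=
          mul_le_mul_of_nonneg_right (min_le_right _ _) hK.le
      _ = ε / 2 := div_mul_cancel₀ _ hK.ne'
  have hδ : Tendsto (fun i => A * s i + ‖S.D (h i ^ ⌊t / s i⌋) - S.D (Z t)‖) (𝒰 : Filter ι) (𝓝 0) := by
    have h1 : Tendsto (fun i => S.D (h i ^ ⌊t / s i⌋)) (𝒰 : Filter ι) (𝓝 (S.D (Z t))) :=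
      (S.cont.tendsto _).comp (hZ t)
    have h2 : Tendsto (fun i => ‖S.D (h i ^ ⌊t / s i⌋) - S.D (Z t)‖) (𝒰 : Filter ι) (𝓝 0) := by
      rw [tendsto_iff_norm_sub_tendsto_zero] at h1
      exact h1
    simpa using (hs0.const_mul A).add h2
  filter_upwards [hδ.eventually (gt_mem_nhds (show (0 : ℝ) < t * (ε / 2) by positivity)),
    hs0.eventually (gt_mem_nhds ht0)] with i hi1 hi2
  have hsi := hs i
  have hAi := hA i
  have hAs : 0 ≤ A * s i := (norm_nonneg _).trans hAi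
  have hA0 : 0 ≤ A := nonneg_of_mul_nonneg_left hAs hsi
  rw [dist_eq_norm]
  set n : ℤ := ⌊t / s i⌋ with hn
  have a1 : ‖S.D (h i ^ n) - (n : ℝ) • S.D (h i)‖ ≤ 4 * S.C * (2 * A * t) ^ 2 := by
    refine (S.zpow_est (h i) n).trans ?_
    have : |(n : ℝ)| * ‖S.D (h i)‖ ≤ 2 * A * t := by
      calc |(n : ℝ)| * ‖S.D (h i)‖ ≤ (|t / s i| + 1) * (A * s i) :=
            mul_le_mul (LimLem_floor _) hAi (norm_nonneg _) (by positivity)
        _ = A * t + A * s i := by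
            rw [abs_div, abs_of_pos hsi, abs_of_pos ht0]
            field_simp
        _ ≤ 2 * A * t := by nlinarith
    have h0 : 0 ≤ |(n : ℝ)| * ‖S.D (h i)‖ := by positivity
    have h1 : (|(n : ℝ)| * ‖S.D (h i)‖) ^ 2 ≤ (2 * A * t) ^ 2 := pow_le_pow_left₀ h0 this 2
    exact mul_le_mul_of_nonneg_left h1 (by positivity)
  have a2 : ‖(n : ℝ) • S.D (h i) - (t / s i) • S.D (h i)‖ ≤ A * s i := by
    rw [← sub_smul, norm_smul, Real.norm_eq_abs]
    have h1 : |(n : ℝ) - t / s i| ≤ 1 := by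
      have h2 := Int.floor_le (t / s i)
      have h3 := Int.lt_floor_add_one (t / s i)
      rw [abs_le]
      constructor <;> linarith
    calc |(n : ℝ) - t / s i| * ‖S.D (h i)‖ ≤ 1 * (A * s i) :=
          mul_le_mul h1 hAi (norm_nonneg _) (by norm_num)
      _ = A * s i := one_mul _
  have a3 := S.lam_est Zo t
  rw [hZoa, ← hL] at a3
  have key : ‖(t / s i) • S.D (h i) - t • S.lam Zo‖ ≤
      A * s i + ‖S.D (h i ^ n) - S.D (Z t)‖ + (4 * S.C * (2 * A * t) ^ 2 + 4 * S.C * t ^ 2 * L ^ 2) := by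
    have e : (t / s i) • S.D (h i) - t • S.lam Zo =
        -((n : ℝ) • S.D (h i) - (t / s i) • S.D (h i)) - (S.D (h i ^ n) - (n : ℝ) • S.D (h i)) +
        (S.D (h i ^ n) - S.D (Z t)) + (S.D (Z t) - t • S.lam Zo) := by abel
    rw [e]
    refine (norm_add_le _ _).trans ?_
    refine (add_le_add_left ((norm_add_le _ _).trans (add_le_add_left (norm_sub_le _ _) _)) _).trans ?_
    rw [norm_neg]
    linarith
  have e2 : (t / s i) • S.D (h i) - t • S.lam Zo = t • ((s i)⁻¹ • S.D (h i) - S.lam Zo) := by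
    rw [smul_sub, smul_smul, div_eq_mul_inv]
  rw [e2, norm_smul, Real.norm_eq_abs, abs_of_pos ht0] at key
  have hfin : t * ‖(s i)⁻¹ • S.D (h i) - S.lam Zo‖ < t * ε := by
    refine lt_of_le_of_lt key ?_
    have h3 : 4 * S.C * (2 * A * t) ^ 2 + 4 * S.C * t ^ 2 * L ^ 2 ≤ t * (ε / 2) := by
      have h4 : t * (t * (4 * S.C * L ^ 2 + 16 * S.C * A ^ 2 + 1)) ≤ t * (ε / 2) :=
        mul_le_mul_of_nonneg_left ht2 ht0.le
      nlinarith [sq_nonneg t]
    linarith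
  exact lt_of_mul_lt_mul_left hfin ht0.le

end Pool.Agent.GY.Gl
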