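import Pool.Agent.GY.Trap
import Pool.Agent.GY.Unif

/-!
# GY.Yam (diff 2): Gleason-Yamabe for connected locally compact groups

Let `U₀ ⊆ U` be a compact neighbourhood of `1`, `W` open from `trapping` (shrink to the interior),
`H = topological closure of closure (QW W)`, a compact subgroup inside `U₀`; every subgroup inside `W` is `≤ H`.
`pw_nss_sub` for `H` and `W`: `N ≤ H` compact, normalised by `H`, `N ⊆ W`, `O` open containing `N`, all subgroups of
`H` inside `O` are `≤ N`.
* Normal: by `exists_thick` (twice) there is a symmetric `V ∈ 𝓝 1` with `V * N * V ⊆ W ∩ O`.  For `g ∈ V` the subgroup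
  `g N g⁻¹` is inside `W`, so `≤ H`, and inside `O`, so `≤ N`; the same for `g⁻¹`.  So the normaliser of `N` contains `V`;
  it is an open subgroup of the connected group `G`, hence everything (`Subgroup.isOpen_of_mem_nhds`, open subgroups are
  closed).
* GoodK: open set `W ∩ O`: a subgroup `L ⊆ W ∩ O` is `≤ H` and so `≤ N`.
-/

open Topology Filter Set
open scoped ENNReal Pointwise

namespace Pool.Agent.GY

variable {G : Type*} [Group G] [TopologicalSpace G] [IsTopologicalGroup G]
  [LocallyCompactSpace G] [T2Space G] [ConnectedSpace G]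

theorem gleason_yamabe {U : Set G} (hU : U ∈ 𝓝 (1 : G)) :
    ∃ K : Subgroup G, GoodK K ∧ (K : Set G) ⊆ U := by
  obtain ⟨U₀, hU₀, hcpt, -, hsub⟩ := exists_cpt_nhd hU
  obtain ⟨W₀, hW₀, hWU⟩ := trapping hU₀
  set W : Set G := interior W₀ with hW
  have hWo : IsOpen W := isOpen_interior
  have hWn : W ∈ 𝓝 (1 : G) := interior_mem_nhds.2 hW₀
  have hQ : QW W ⊆ QW W₀ := by
    rintro x ⟨L, hL, hx⟩
    exact ⟨L, hL.trans interior_subset, hx⟩
  set H : Subgroup G := (Subgroup.closure (QW W)).topologicalClosure with hH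
  have hHU : (H : Set G) ⊆ U₀ := by
    rw [hH, Subgroup.topologicalClosure_coe]
    refine closure_minimal ?_ hcpt.isClosed
    exact (SetLike.coe_subset_coe.2 (Subgroup.closure_mono hQ)).trans hWU
  have hHc : IsCompact (H : Set G) :=
    hcpt.of_isClosed_subset (Subgroup.isClosed_topologicalClosure _) hHU
  have hLH : ∀ L : Subgroup G, (L : Set G) ⊆ W → L ≤ H := by
    intro L hL x hx
    exact Subgroup.le_topologicalClosure _ (Subgroup.subset_closure ⟨L, hL, hx⟩)
  obtain ⟨N, hNH, -, hNc, hNW, O, hO, hNO, hLN⟩ := pw_nss_sub hHc hWn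
  have hWO : IsOpen (W ∩ O) := hWo.inter hO
  have hNWO : (N : Set G) ⊆ W ∩ O := subset_inter hNW hNO
  -- conjugates
  have hcont : Continuous fun q : G × G => q.1 * q.2 * q.1⁻¹ := by fun_prop
  have hpre : IsOpen ((fun q : G × G => q.1 * q.2 * q.1⁻¹) ⁻¹' (W ∩ O)) := hWO.preimage hcont
  have hincl : ({(1 : G)} : Set G) ×ˢ (N : Set G) ⊆
      (fun q : G × G => q.1 * q.2 * q.1⁻¹) ⁻¹' (W ∩ O) := by
    rintro ⟨a, b⟩ ⟨ha, hb⟩
    have ha' : a = 1 := ha
    subst ha'
    show 1 * b * 1⁻¹ ∈ W ∩ O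
    rw [one_mul, inv_one, mul_one]
    exact hNWO hb
  obtain ⟨u, v, hu, -, h1u, hNv, huv⟩ := generalized_tube_lemma isCompact_singleton hNc hpre hincl
  have h1u' : (1 : G) ∈ u := h1u rfl
  have hconj : ∀ g ∈ u, ∀ n ∈ N, g * n * g⁻¹ ∈ N := by
    intro g hg n hn
    have hsubL : ((N.map (MulAut.conj g).toMonoidHom : Subgroup G) : Set G) ⊆ W ∩ O := by
      rintro y ⟨m, hm, rfl⟩
      have : (g, m) ∈ u ×ˢ v := ⟨hg, hNv hm⟩
      have := huv this
      simpa using this
    have h2 : N.map (MulAut.conj g).toMonoidHom ≤ N :=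
      hLN _ (hLH _ (hsubL.trans inter_subset_left)) (hsubL.trans inter_subset_right)
    have : (MulAut.conj g).toMonoidHom n ∈ N := h2 (Subgroup.mem_map_of_mem _ hn)
    simpa using this
  have hVn : u ∩ u⁻¹ ∈ 𝓝 (1 : G) := by
    refine Filter.inter_mem (hu.mem_nhds h1u') ?_
    apply hu.inv.mem_nhds
    simpa using h1u'
  have hnorm : ∀ g ∈ u ∩ u⁻¹, g ∈ Subgroup.normalizer (N : Set G) := by
    rintro g ⟨hg, hg'⟩
    rw [Subgroup.mem_normalizer_iff]
    intro h
    constructor
    · intro hh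
      exact hconj g hg h hh
    · intro hh
      have := hconj g⁻¹ hg' _ hh
      have e : g⁻¹ * (g * h * g⁻¹) * g⁻¹⁻¹ = h := by group
      rwa [e] at this
  have hopen : IsOpen ((Subgroup.normalizer (N : Set G) : Subgroup G) : Set G) := by
    apply Subgroup.isOpen_of_mem_nhds (g := 1)
    exact Filter.mem_of_superset hVn hnorm
  have hclopen : IsClopen ((Subgroup.normalizer (N : Set G) : Subgroup G) : Set G) :=
    ⟨Subgroup.isClosed_of_isOpen _ hopen, hopen⟩
  have huniv := hclopen.eq_univ ⟨1, Subgroup.one_mem _⟩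
  have hNnormal : N.Normal := by
    rw [← Subgroup.normalizer_eq_top_iff]
    exact SetLike.coe_injective (by simpa using huniv)
  exact ⟨N, ⟨hNnormal, hNc, W ∩ O, hWO, hNWO, fun L hL =>
    hLN L (hLH L (hL.trans inter_subset_left)) (hL.trans inter_subset_right)⟩,
    (SetLike.coe_subset_coe.2 hNH).trans (hHU.trans hsub)⟩

end Pool.Agent.GY
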