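import Pool.Agent.GY.CaseA2
import Pool.Agent.GY.CaseB3
import Pool.Agent.GY.CaseB4
import Pool.Agent.GY.Yam
import Pool.Agent.GY.IsLie

/-!
# GY.Main (diff 1): densely locally minimal connected locally compact groups are Lie groups
-/

open Topology Filter Set
open scoped Pointwise

namespace Pool.Agent.GY

theorem main {G : Type*} [Group G] [TopologicalSpace G] [IsTopologicalGroup G]
    [LocallyCompactSpace G] [T2Space G] [ConnectedSpace G]
    (h : ∀ H : Subgroup G, Dense (H : Set G) → LocallyMinimal H inferInstance) : IsLie G := by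
  have hGY : ∀ U ∈ 𝓝 (1 : G), ∃ K : Subgroup G, GoodK K ∧ (K : Set G) ⊆ U :=
    fun U hU => gleason_yamabe hU
  by_cases hG : NSS G
  · exact isLie_of_nss hG
  exfalso
  by_cases hC : ∀ C : Subgroup G, IsCompact (C : Set G) → C ≤ Subgroup.center G → NSS C
  · obtain ⟨K, hK, hcen, hst⟩ := b1_seq hGY hC hG
    obtain ⟨Q, hQ, hc, hle, hM, hn, hna⟩ := case_b3 hK hcen hst
    obtain ⟨H, hH, hH'⟩ := case_b4 hK hQ hc hle hM hn hna
    exact hH' (h H hH)
  · push Not at hC
    obtain ⟨C, hC1, hC2, hC3⟩ := hC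
    obtain ⟨H, hH, hH'⟩ := case_a hGY hC1 hC2 hC3
    exact hH' (h H hH)

end Pool.Agent.GY
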