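import Pool.Agent.GY.ChartB

/-!
# GY.Manif (diff 3): the transition maps are analytic

`trans_an`: the map is `y ↦ eu (lg (h⁻¹ g ex (eu.symm y)))`.  Fix `y₀` in the set, `v₀ = eu.symm y₀`, `‖v₀‖ < r1`, `h⁻¹ g ex v₀ = ex w₀` with `‖w₀‖ < r1`.  For `v = eu.symm y` near `v₀`:
`h⁻¹ g ex v = ex w₀ ex(-v₀) ex v`, `ex(-v₀) ex v = ex (bch (v, -v₀))` (`bch_spec`), `b v := bch (v, -v₀)` is analytic at `v₀` and `b v₀ = 0` (`bch_neg`), so `‖b v‖ < r1` for `v` near `v₀`;
`ex w₀ ex (b v) = ex (bch (b v, w₀))` (`bch_spec`), with norm `< RR` (`bch_norm`), so `lg` of it is `bch (b v, w₀)` (`lg_ex`), analytic at `v₀` (`bch_analytic`: the point `(0, w₀)` is in the ball of radius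
`r1` of the product (sup norm)).  So the map is analytic at `y₀`; `AnalyticAt.contDiffAt` (`ω`), hence `ContDiffOn` on the open set.
`manif`: `isManifold_of_contDiffOn`; `𝓡 n` is the identity model (`modelWithCornersSelf`), the sets simplify.
-/

open Topology Filter Set
open scoped Manifold ContDiff

namespace Pool.Agent.GY.Gl

variable {G E : Type*} [Group G] [TopologicalSpace G] [IsTopologicalGroup G]
  [NormedAddCommGroup E] [NormedSpace ℝ E] [CompleteSpace E] (S : Gl G E)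

theorem trans_an (g h : G) : AnalyticOnNhd ℝ (fun y => S.cht h ((S.cht g).symm y))
    {y | y ∈ (S.cht g).target ∧ (S.cht g).symm y ∈ (S.cht h).source} := by
  intro y₀ hy₀
  obtain ⟨hy1, hy2⟩ := hy₀
  rw [S.cht_target] at hy1
  rw [S.cht_source, S.cht_symm_apply] at hy2
  obtain ⟨w₀, hw₀, hw⟩ := hy2
  have hv₀ : ‖S.eu.symm y₀‖ < S.r1 := hy1
  have hw₀' : ‖w₀‖ < S.r1 := by simpa using hw₀
  set v₀ : S.T := S.eu.symm y₀ with hv₀def
  have hnv₀ : ‖-v₀‖ < S.r1 := by rwa [norm_neg]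
  have hr1 : 0 < S.r1 := S.r1_pos
  -- analyticity of the candidate
  have hm1 : ((v₀, -v₀) : S.T × S.T) ∈ Metric.ball (0 : S.T × S.T) S.r1 := by
    rw [mem_ball_zero_iff, Prod.norm_def]
    exact max_lt hv₀ hnv₀
  have hm2 : ((0, w₀) : S.T × S.T) ∈ Metric.ball (0 : S.T × S.T) S.r1 := by
    rw [mem_ball_zero_iff, Prod.norm_def]
    exact max_lt (by simpa using hr1) hw₀'
  have hb0 : bch S.ad (v₀, -v₀) = 0 := S.bch_neg hv₀
  have hsymm : AnalyticAt ℝ (fun y => S.eu.symm y) y₀ :=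
    (S.eu.symm : EuclideanSpace ℝ (Fin S.dm) →L[ℝ] S.T).analyticAt y₀
  have hb : AnalyticAt ℝ (fun y => bch S.ad (S.eu.symm y, -v₀)) y₀ := by
    have h1 : AnalyticAt ℝ (fun y => ((S.eu.symm y, -v₀) : S.T × S.T)) y₀ :=
      hsymm.prod analyticAt_const
    exact AnalyticAt.fun_comp (g := bch S.ad) (S.bch_analytic _ hm1) h1
  have hc : AnalyticAt ℝ (fun y => bch S.ad (bch S.ad (S.eu.symm y, -v₀), w₀)) y₀ := by
    have h1 : AnalyticAt ℝ (fun y => ((bch S.ad (S.eu.symm y, -v₀), w₀) : S.T × S.T)) y₀ :=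
      hb.prod analyticAt_const
    refine AnalyticAt.fun_comp (g := bch S.ad) ?_ h1
    have : ((bch S.ad (S.eu.symm y₀, -v₀), w₀) : S.T × S.T) = (0, w₀) := by
      rw [← hv₀def, hb0]
    rw [this]
    exact S.bch_analytic _ hm2
  have hd : AnalyticAt ℝ (fun y => S.eu (bch S.ad (bch S.ad (S.eu.symm y, -v₀), w₀))) y₀ :=
    AnalyticAt.fun_comp (g := fun v => S.eu v)
      ((S.eu : S.T →L[ℝ] EuclideanSpace ℝ (Fin S.dm)).analyticAt _) hc
  -- local equality
  have hev1 : ∀ᶠ y in 𝓝 y₀, ‖S.eu.symm y‖ < S.r1 := by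
    have : Continuous (fun y => ‖S.eu.symm y‖) := continuous_norm.comp S.eu.symm.continuous
    exact this.continuousAt.eventually_lt_const hv₀
  have hev2 : ∀ᶠ y in 𝓝 y₀, ‖bch S.ad (S.eu.symm y, -v₀)‖ < S.r1 := by
    have h2 : ContinuousAt (fun y => ‖bch S.ad (S.eu.symm y, -v₀)‖) y₀ := hb.continuousAt.norm
    apply h2.eventually_lt_const
    show ‖bch S.ad (S.eu.symm y₀, -v₀)‖ < S.r1
    rw [← hv₀def, hb0]
    simpa using hr1
  refine hd.congr ?_
  filter_upwards [hev1, hev2] with y h1 h2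
  rw [S.cht_symm_apply, S.cht_apply]
  congr 1
  have e1 : h⁻¹ * (g * S.ex (S.eu.symm y)) = S.ex (bch S.ad (bch S.ad (S.eu.symm y, -v₀), w₀)) := by
    rw [← S.bch_spec h2 hw₀', ← S.bch_spec h1 hnv₀, hw, S.ex_neg]
    group
  rw [e1, S.lg_ex (S.bch_norm h2 hw₀').le]

theorem manif : letI := S.chSp
    IsManifold (𝓡 S.dm) ω G := by
  letI := S.chSp
  apply isManifold_of_contDiffOn
  intro e e' he he'
  obtain ⟨g, rfl⟩ := he
  obtain ⟨h, rfl⟩ := he'
  have hA := S.trans_an g h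
  have : ContDiffOn ℝ ω (fun y => S.cht h ((S.cht g).symm y))
      {y | y ∈ (S.cht g).target ∧ (S.cht g).symm y ∈ (S.cht h).source} := by
    intro y hy
    exact (hA y hy).contDiffAt.contDiffWithinAt
  refine this.congr_mono ?_ ?_
  · intro y hy
    simp
  · intro y hy
    simp only [modelWithCornersSelf_coe, Set.range_id, Set.inter_univ,
      modelWithCornersSelf_coe_symm, Set.preimage_id] at hy
    simpa using hy

end Pool.Agent.GY.Gl
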