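import Pool.Agent.GY.PWeig

/-!
# GY.PWrep (diff 2): finite dimensional unitary representations separate points (Peter-Weyl)

`μ = haarMeasure ⊤` (`borel H`; probability, regular, left invariant, open positive; see
`Pool/Agent/CAM/PWc.lean`, theorem `pw`).  `E` from `pw_eig`, orthonormal basis `e` of `E` (`stdOrthonormalBasis`),
`π x i j = ⟪e i, tau x (e j)⟫`.  `tau x` maps `E` into `E` isometrically, `tau_mul`, `tau_one`: `π` is a homomorphism into the
unitary matrices; `π x₀ = 1` would give `tau x₀ f = f` on `E`; entries are continuous by `tau_cont`.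
(`n` = dimension of `E`.)
-/

open Topology Filter Set MeasureTheory

namespace Pool.Agent.GY

theorem pw_rep {H : Type*} [Group H] [TopologicalSpace H] [IsTopologicalGroup H] [CompactSpace H]
    [T2Space H] (x₀ : H) (hx : x₀ ≠ 1) :
    ∃ (n : ℕ) (π : H →* Matrix (Fin n) (Fin n) ℂ), Continuous π ∧
      (∀ x, π x ∈ Matrix.unitaryGroup (Fin n) ℂ) ∧ π x₀ ≠ 1 := by
  let _ : MeasurableSpace H := borel H
  have _ : BorelSpace H := ⟨rfl⟩
  obtain ⟨μ, hμ1, hμ2, hμ3, hμ4⟩ : ∃ μ : Measure H, IsProbabilityMeasure μ ∧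
      μ.IsMulLeftInvariant ∧ μ.Regular ∧ μ.IsOpenPosMeasure := by
    refine ⟨Measure.haarMeasure ⊤, ⟨?_⟩, inferInstance, inferInstance, inferInstance⟩
    have := Measure.haarMeasure_self (K₀ := (⊤ : TopologicalSpace.PositiveCompacts H))
    simpa using this
  obtain ⟨E, hfd, hinv, f, hf, hne⟩ := pw_eig μ x₀ hx
  let e := stdOrthonormalBasis ℂ E
  let T : H → E →ₗ[ℂ] E := fun x => ((tau μ x).toLinearMap).restrict (hinv x)
  have hTapp : ∀ x (g : E), ((T x g : E) : Lp ℂ 2 μ) = tau μ x (g : Lp ℂ 2 μ) := fun x g => rfl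
  have hT1 : T 1 = LinearMap.id := by
    ext1 g
    apply Subtype.ext
    rw [hTapp, tau_one]
    rfl
  have hTm : ∀ x y, T (x * y) = T x ∘ₗ T y := by
    intro x y
    ext1 g
    apply Subtype.ext
    rw [LinearMap.comp_apply, hTapp, hTapp, hTapp, tau_mul]
  have hent : ∀ x i j, LinearMap.toMatrix e.toBasis e.toBasis (T x) i j
      = inner ℂ (e i : E) (T x (e j)) := by
    intro x i j
    rw [LinearMap.toMatrix_apply]
    simp only [OrthonormalBasis.coe_toBasis, OrthonormalBasis.coe_toBasis_repr_apply,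
      OrthonormalBasis.repr_apply_apply]
  refine ⟨Module.finrank ℂ E,
    { toFun := fun x => LinearMap.toMatrix e.toBasis e.toBasis (T x)
      map_one' := by rw [hT1, LinearMap.toMatrix_id]
      map_mul' := fun x y => by rw [hTm, LinearMap.toMatrix_comp e.toBasis e.toBasis e.toBasis] },
    ?_, ?_, ?_⟩
  · apply continuous_matrix
    intro i j
    have h1 : (fun x => inner ℂ ((e i : E) : Lp ℂ 2 μ) (tau μ x ((e j : E) : Lp ℂ 2 μ))) =
        fun x => LinearMap.toMatrix e.toBasis e.toBasis (T x) i j := by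
      funext x
      rw [hent]
      rfl
    have h2 := continuous_const (y := ((e i : E) : Lp ℂ 2 μ)) |>.inner (𝕜 := ℂ)
      (tau_cont μ ((e j : E) : Lp ℂ 2 μ))
    rw [h1] at h2
    exact h2
  · intro x
    rw [Matrix.mem_unitaryGroup_iff']
    ext i j
    simp only [MonoidHom.coe_mk, OneHom.coe_mk]
    rw [Matrix.mul_apply]
    have h1 : ∀ k, star (LinearMap.toMatrix e.toBasis e.toBasis (T x)) i k *
        LinearMap.toMatrix e.toBasis e.toBasis (T x) k j =
        inner ℂ (T x (e i)) (e k : E) * inner ℂ (e k : E) (T x (e j)) := by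
      intro k
      rw [Matrix.star_apply, hent, hent]
      congr 1
      exact inner_conj_symm (𝕜 := ℂ) (T x (e i)) (e k : E)
    rw [Finset.sum_congr rfl fun k _ => h1 k, OrthonormalBasis.sum_inner_mul_inner]
    have h2 : inner ℂ (T x (e i)) (T x (e j)) = inner ℂ (e i : E) (e j : E) := by
      have := (tau μ x).inner_map_map ((e i : E) : Lp ℂ 2 μ) ((e j : E) : Lp ℂ 2 μ)
      exact this
    rw [h2, Matrix.one_apply]
    exact orthonormal_iff_ite.1 e.orthonormal i j
  · intro h
    simp only [MonoidHom.coe_mk, OneHom.coe_mk] at h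
    rw [← LinearMap.toMatrix_id e.toBasis] at h
    have h2 := (LinearMap.toMatrix e.toBasis e.toBasis).injective h
    apply hne
    have h3 := congrArg (fun L : E →ₗ[ℂ] E => ((L ⟨f, hf⟩ : E) : Lp ℂ 2 μ)) h2
    simpa [hTapp] using h3

end Pool.Agent.GY
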