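import Pool.Agent.GY.DefsM

/-!
# GY.PolyWord (diff 3): a nilpotent matrix and its adjoint satisfy no law

Let `F = Eᴴ`, `μ ≥ 1` the largest number with `E^μ ≠ 0` (so `F^μ ≠ 0`, `F^(μ+1) = 0`), `L = [(j_1, c_1), ..., (j_m, c_m)]`, `m ≥ 1`, `d_i = j_{i+1} - j_i ≠ 0`.  Suppose `RL L (s E) (t F) = 1` for all real `s, t`.  Multiply by `exp(-j_1 s E)` on the left and by
`exp(j_m s E)` on the right:  `e^{c_1 t F} e^{d_1 s E} e^{c_2 t F} ... e^{d_{m-1} s E} e^{c_m t F} = exp((j_m - j_1) s E)`, which does not depend on `t`.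
* `exp(c t F) / t^μ → (c^μ / μ!) F^μ` as `t → ∞` (`exp` of a nilpotent matrix is a finite sum).  Divide by `t^{m μ}`, `t → ∞`: with `κ = ∏ c_i^μ / μ! ≠ 0`:
  `κ F^μ e^{d_1 s E} F^μ ... e^{d_{m-1} s E} F^μ = 0` for all real `s`.
* divide by `s^{(m-1) μ}`, `s → ∞`: `F^μ E^μ F^μ ... E^μ F^μ = 0` (`m` factors `F^μ`, `m - 1` factors `E^μ`).  With `Z = E^μ`, `F^μ = Zᴴ`: `(Zᴴ Z)^m = 0` after multiplication by `Z`; but `Zᴴ Z` is hermitian and nonzero
  (`Matrix.conjTranspose_mul_self_eq_zero`), and a hermitian nilpotent matrix is zero: contradiction.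
Formal suggestion: induct over the list with a general lemma: if `f_i(t)/t^μ → A_i` for each factor then the product divided by `t^{mμ}` tends to the product of the limits (`Filter.Tendsto.mul`, lists), in the topology of `Mn n`
(finite dimensional; local normed algebra instance `Matrix.linftyOpNormedAlgebra` etc. as in `Mathlib/Analysis/Normed/Algebra/MatrixExponential.lean`, or work entrywise/topologically).
-/

open Topology Filter Set Matrix

namespace Pool.Agent.GY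

namespace PolyWord

variable {n : ℕ}

theorem exp_nil (N : Mn n) (μ : ℕ) (h : N ^ (μ + 1) = 0) (c : ℂ) :
    NormedSpace.exp (c • N) = ∑ k ∈ Finset.range (μ + 1), (c ^ k / (k.factorial : ℂ)) • N ^ k := by
  rw [NormedSpace.exp_eq_tsum ℂ]
  show ∑' k : ℕ, ((k.factorial : ℂ)⁻¹) • (c • N) ^ k = _
  rw [tsum_eq_sum (s := Finset.range (μ + 1))]
  · apply Finset.sum_congr rfl
    intro k _
    rw [smul_pow, smul_smul, div_eq_mul_inv, mul_comm]
  · intro k hk
    rw [Finset.mem_range, not_lt] at hk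
    have : N ^ k = 0 := by
      obtain ⟨r, rfl⟩ := Nat.exists_eq_add_of_le hk
      rw [pow_add, h, zero_mul]
    rw [smul_pow, this, smul_zero, smul_zero]

theorem scaled_exp (N : Mn n) (μ : ℕ) (h : N ^ (μ + 1) = 0) (c : ℂ) :
    Tendsto (fun t : ℝ => (((t : ℂ))⁻¹ ^ μ) • NormedSpace.exp ((c * t) • N)) atTop
      (𝓝 ((c ^ μ / (μ.factorial : ℂ)) • N ^ μ)) := by
  have h1 : ∀ k ∈ Finset.range (μ + 1), Tendsto (fun t : ℝ => (((t : ℂ))⁻¹ ^ μ) •
      (((c * t) ^ k / (k.factorial : ℂ)) • N ^ k)) atTop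
      (𝓝 (if k = μ then ((c ^ μ / (μ.factorial : ℂ)) • N ^ μ) else 0)) := by
    intro k hk
    rw [Finset.mem_range] at hk
    by_cases hkμ : k = μ
    · rw [if_pos hkμ, hkμ]
      apply tendsto_const_nhds.congr'
      filter_upwards [eventually_gt_atTop (0 : ℝ)] with t ht
      have ht0 : (t : ℂ) ≠ 0 := by exact_mod_cast ht.ne'
      rw [smul_smul]
      congr 1
      have h9 : ((t : ℂ))⁻¹ ^ μ * (t : ℂ) ^ μ = 1 := by
        rw [← mul_pow, inv_mul_cancel₀ ht0, one_pow]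
      calc c ^ μ / (μ.factorial : ℂ) = (((t : ℂ))⁻¹ ^ μ * (t : ℂ) ^ μ) * (c ^ μ / (μ.factorial : ℂ)) := by
            rw [h9, one_mul]
        _ = ((t : ℂ))⁻¹ ^ μ * ((c * t) ^ μ / (μ.factorial : ℂ)) := by rw [mul_pow]; ring
    · rw [if_neg hkμ]
      have hlt : k < μ := by omega
      have h2 : Tendsto (fun t : ℝ => (((t : ℂ))⁻¹ ^ (μ - k) * (c ^ k / (k.factorial : ℂ))) • N ^ k)
          atTop (𝓝 ((0 * (c ^ k / (k.factorial : ℂ))) • N ^ k)) := by
        apply Tendsto.smul_const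
        apply Tendsto.mul_const
        have h3 : Tendsto (fun t : ℝ => ((t : ℂ))⁻¹) atTop (𝓝 0) := by
          have h4 : Tendsto (fun t : ℝ => ((t⁻¹ : ℝ) : ℂ)) atTop (𝓝 ((0 : ℝ) : ℂ)) :=
            (Complex.continuous_ofReal.tendsto 0).comp tendsto_inv_atTop_zero
          simpa using h4
        have h5 := h3.pow (μ - k)
        rw [zero_pow (by omega)] at h5
        exact h5
      rw [zero_mul, zero_smul] at h2
      refine h2.congr' ?_
      filter_upwards [eventually_gt_atTop (0 : ℝ)] with t ht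
      have ht0 : (t : ℂ) ≠ 0 := by exact_mod_cast ht.ne'
      rw [smul_smul]
      congr 1
      have h6 : ((t : ℂ))⁻¹ ^ μ = ((t : ℂ))⁻¹ ^ (μ - k) * ((t : ℂ))⁻¹ ^ k := by
        rw [← pow_add]
        congr 1
        omega
      have h9 : ((t : ℂ))⁻¹ ^ k * (t : ℂ) ^ k = 1 := by
        rw [← mul_pow, inv_mul_cancel₀ ht0, one_pow]
      calc ((t : ℂ))⁻¹ ^ (μ - k) * (c ^ k / (k.factorial : ℂ))
          = ((t : ℂ))⁻¹ ^ (μ - k) * ((((t : ℂ))⁻¹ ^ k * (t : ℂ) ^ k) * (c ^ k / (k.factorial : ℂ))) := by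
            rw [h9, one_mul]
        _ = ((t : ℂ))⁻¹ ^ μ * ((c * t) ^ k / (k.factorial : ℂ)) := by rw [h6, mul_pow]; ring
  have h2 := tendsto_finsetSum _ h1
  rw [Finset.sum_ite_eq' (Finset.range (μ + 1)) μ, if_pos (Finset.mem_range.2 (by omega))] at h2
  refine h2.congr ?_
  intro t
  rw [exp_nil N μ h, Finset.smul_sum]

theorem exp_mul (E : Mn n) (a b : ℂ) :
    NormedSpace.exp (a • E) * NormedSpace.exp (b • E) = NormedSpace.exp ((a + b) • E) := by
  rw [add_smul, Matrix.exp_add_of_commute]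
  exact ((Commute.refl E).smul_left a).smul_right b

theorem list_tendsto (L : List (ℤ × ℤ)) (f : ℤ × ℤ → ℝ → Mn n) (A : ℤ × ℤ → Mn n) (μ : ℕ)
    (h : ∀ p ∈ L, Tendsto (fun t : ℝ => (((t : ℂ))⁻¹ ^ μ) • f p t) atTop (𝓝 (A p))) :
    Tendsto (fun t : ℝ => ((((t : ℂ))⁻¹ ^ μ) ^ L.length) • (L.map (fun p => f p t)).prod) atTop
      (𝓝 (L.map A).prod) := by
  induction L with
  | nil => simp
  | cons p L ih =>
    have h1 := h p (List.mem_cons_self ..)
    have h2 := ih (fun q hq => h q (List.mem_cons_of_mem _ hq))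
    refine ((h1.mul h2).congr ?_)
    intro t
    rw [List.map_cons, List.prod_cons, List.length_cons, smul_mul_smul_comm, pow_succ, mul_comm
      ((((t : ℂ))⁻¹ ^ μ) ^ L.length)]

theorem gen1 (c d : ℂ) (X Y W V : Mn n) :
    X * (c • Y) * W * (d • V) = (c * d) • (X * Y * W * V) := by
  rw [mul_comm c d]
  simp only [mul_smul_comm, smul_mul_assoc, smul_smul]

theorem gen2 (c d : ℂ) (X Y W : Mn n) :
    X * (c • Y) * (d • W) = (c * d) • (X * Y * W) := by
  rw [mul_comm c d]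
  simp only [mul_smul_comm, smul_mul_assoc, smul_smul]

theorem list_scal (L : List (ℤ × ℤ)) (k : ℤ × ℤ → ℂ) (F : Mn n) (a b : ℤ × ℤ → Mn n) :
    (L.map (fun p => a p * (k p • F) * b p)).prod =
      (L.map k).prod • (L.map (fun p => a p * F * b p)).prod := by
  induction L with
  | nil => simp
  | cons p L ih =>
    rw [List.map_cons, List.prod_cons, List.map_cons, List.prod_cons, List.map_cons,
      List.prod_cons, ih, gen1]

/-- the product `∏ exp(j s E) F^μ exp(-j s E)` -/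
noncomputable def Q (E Z : Mn n) (L : List (ℤ × ℤ)) (s : ℝ) : Mn n :=
  (L.map (fun p => NormedSpace.exp (((p.1 : ℂ) * s) • E) * Z *
    NormedSpace.exp ((-(p.1 : ℂ) * s) • E))).prod

theorem chain_lim (E Z : Mn n) (μ : ℕ) (h : E ^ (μ + 1) = 0) (L : List (ℤ × ℤ)) :
    ∀ p : ℤ × ℤ, (p :: L).IsChain (fun p q => p.1 ≠ q.1) → ∃ k : ℤ, ∃ κ : ℂ, κ ≠ 0 ∧
      Tendsto (fun s : ℝ => ((((s : ℂ))⁻¹ ^ μ) ^ (L.length + 1)) •
        (NormedSpace.exp ((-(p.1 : ℂ) * s) • E) * Q E Z (p :: L) s *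
          NormedSpace.exp (((k : ℂ) * s) • E))) atTop (𝓝 (κ • (Z * E ^ μ) ^ (L.length + 1))) := by
  induction L with
  | nil =>
    intro p _
    refine ⟨p.1 + 1, ((1 : ℂ) ^ μ / (μ.factorial : ℂ)), ?_, ?_⟩
    · rw [one_pow]
      exact div_ne_zero one_ne_zero (by exact_mod_cast Nat.factorial_ne_zero μ)
    · have h1 := (scaled_exp E μ h 1).const_mul Z
      have e1 : Z * (((1 : ℂ) ^ μ / (μ.factorial : ℂ)) • E ^ μ) =
          ((1 : ℂ) ^ μ / (μ.factorial : ℂ)) • (Z * E ^ μ) ^ (([] : List (ℤ × ℤ)).length + 1) := by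
        rw [mul_smul_comm, List.length_nil, zero_add, pow_one]
      rw [e1] at h1
      refine h1.congr ?_
      intro s
      unfold Q
      rw [List.map_cons, List.map_nil, List.prod_cons, List.prod_nil, mul_one, List.length_nil,
        zero_add, pow_one, mul_smul_comm]
      congr 1
      have e2 : NormedSpace.exp ((-(p.1 : ℂ) * s) • E) * (NormedSpace.exp (((p.1 : ℂ) * s) • E) * Z *
          NormedSpace.exp ((-(p.1 : ℂ) * s) • E)) * NormedSpace.exp ((((p.1 + 1 : ℤ) : ℂ) * s) • E) =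
          (NormedSpace.exp ((-(p.1 : ℂ) * s) • E) * NormedSpace.exp (((p.1 : ℂ) * s) • E)) * Z *
          (NormedSpace.exp ((-(p.1 : ℂ) * s) • E) *
            NormedSpace.exp ((((p.1 + 1 : ℤ) : ℂ) * s) • E)) := by
        noncomm_ring
      rw [e2, exp_mul, exp_mul]
      have e3 : (-(p.1 : ℂ) * s + (p.1 : ℂ) * s) = 0 := by ring
      have e4 : (-(p.1 : ℂ) * s + ((p.1 + 1 : ℤ) : ℂ) * s) = 1 * s := by push_cast; ring
      rw [e3, e4, zero_smul, NormedSpace.exp_zero, one_mul, one_mul]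
  | cons q L ih =>
    intro p hch
    rw [List.isChain_cons_cons] at hch
    obtain ⟨hpq, hch'⟩ := hch
    obtain ⟨k, κ, hκ, hlim⟩ := ih q hch'
    set d : ℂ := (q.1 : ℂ) - (p.1 : ℂ) with hd
    have hd0 : d ≠ 0 := by
      rw [hd, sub_ne_zero]
      exact_mod_cast hpq.symm
    refine ⟨k, (d ^ μ / (μ.factorial : ℂ)) * κ, ?_, ?_⟩
    · exact mul_ne_zero (div_ne_zero (pow_ne_zero _ hd0)
        (by exact_mod_cast Nat.factorial_ne_zero μ)) hκ
    · have h1 := ((scaled_exp E μ h d).const_mul Z).mul hlim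
      have e1 : Z * ((d ^ μ / (μ.factorial : ℂ)) • E ^ μ) * (κ • (Z * E ^ μ) ^ (L.length + 1)) =
          ((d ^ μ / (μ.factorial : ℂ)) * κ) • (Z * E ^ μ) ^ ((q :: L).length + 1) := by
        rw [gen2, List.length_cons, pow_succ' (Z * E ^ μ) (L.length + 1)]
      rw [e1] at h1
      refine h1.congr ?_
      intro s
      rw [gen2, List.length_cons, ← pow_succ']
      congr 1
      have e2 : Q E Z (p :: q :: L) s = NormedSpace.exp (((p.1 : ℂ) * s) • E) * Z *
          NormedSpace.exp ((-(p.1 : ℂ) * s) • E) * Q E Z (q :: L) s := by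
        unfold Q
        rw [List.map_cons, List.prod_cons]
      rw [e2]
      set W := Q E Z (q :: L) s
      set V := NormedSpace.exp (((k : ℂ) * s) • E)
      have e5 : (-(p.1 : ℂ) * s) = d * s + (-(q.1 : ℂ) * s) := by rw [hd]; ring
      have e6 : NormedSpace.exp ((-(p.1 : ℂ) * s) • E) = NormedSpace.exp ((d * s) • E) *
          NormedSpace.exp ((-(q.1 : ℂ) * s) • E) := by rw [exp_mul, ← e5]
      have e7 : NormedSpace.exp ((-(p.1 : ℂ) * s) • E) * NormedSpace.exp (((p.1 : ℂ) * s) • E) = 1 := by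
        rw [exp_mul]
        have : (-(p.1 : ℂ) * s + (p.1 : ℂ) * s) = 0 := by ring
        rw [this, zero_smul, NormedSpace.exp_zero]
      calc Z * NormedSpace.exp ((d * s) • E) * (NormedSpace.exp ((-(q.1 : ℂ) * s) • E) * W * V)
          = Z * (NormedSpace.exp ((d * s) • E) * NormedSpace.exp ((-(q.1 : ℂ) * s) • E)) * W * V := by
            noncomm_ring
        _ = 1 * Z * NormedSpace.exp ((-(p.1 : ℂ) * s) • E) * W * V := by rw [← e6, one_mul]
        _ = (NormedSpace.exp ((-(p.1 : ℂ) * s) • E) * NormedSpace.exp (((p.1 : ℂ) * s) • E)) * Z *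
            NormedSpace.exp ((-(p.1 : ℂ) * s) • E) * W * V := by rw [e7]
        _ = _ := by noncomm_ring

open scoped ComplexOrder in
theorem star_zero (Z : Mn n) (h : Zᴴ * Z = 0) : Z = 0 :=
  Matrix.conjTranspose_mul_self_eq_zero.1 h

theorem herm_nil (N : Mn n) (hN : Nᴴ = N) : ∀ m : ℕ, N ^ (m + 1) = 0 → N = 0 := by
  intro m
  induction m with
  | zero => intro h; simpa using h
  | succ m ih =>
    intro h
    apply ih
    have h1 : (N ^ (m + 1))ᴴ * N ^ (m + 1) = 0 := by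
      rw [Matrix.conjTranspose_pow, hN, ← pow_add]
      have : m + 1 + (m + 1) = (m + 1 + 1) + m := by ring
      rw [this, pow_add, h, zero_mul]
    exact star_zero _ h1

end PolyWord

open PolyWord

theorem poly_word {n : ℕ} (E : Mn n) (hE : IsNilpotent E) (hne : E ≠ 0) (L : List (ℤ × ℤ))
    (hL : L ≠ []) (hc : ∀ p ∈ L, p.2 ≠ 0) (hch : L.IsChain (fun p q => p.1 ≠ q.1)) :
    ∃ s t : ℝ, RL L ((s : ℂ) • E) ((t : ℂ) • Eᴴ) ≠ 1 := by
  classical
  by_contra hno
  push Not at hno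
  -- the exponent
  obtain ⟨μ, hμ1, hμ0, hμz⟩ : ∃ μ : ℕ, 1 ≤ μ ∧ E ^ μ ≠ 0 ∧ E ^ (μ + 1) = 0 := by
    have hex : ∃ k, E ^ k = 0 := hE
    set k := Nat.find hex with hk
    have hk1 : E ^ k = 0 := Nat.find_spec hex
    have hk2 : ∀ j < k, E ^ j ≠ 0 := fun j hj => Nat.find_min hex hj
    have hk0 : k ≠ 0 := by
      intro h0
      rw [h0, pow_zero] at hk1
      apply hne
      calc E = E * 1 := (mul_one E).symm
        _ = 0 := by rw [hk1, mul_zero]
    have hk1' : k ≠ 1 := by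
      intro h1
      rw [h1, pow_one] at hk1
      exact hne hk1
    refine ⟨k - 1, by omega, hk2 _ (by omega), ?_⟩
    have : k - 1 + 1 = k := by omega
    rw [this]
    exact hk1
  have hFz : Eᴴ ^ (μ + 1) = 0 := by
    rw [← Matrix.conjTranspose_pow, hμz, Matrix.conjTranspose_zero]
  obtain ⟨p, L', rfl⟩ : ∃ p L', L = p :: L' := by
    cases L with
    | nil => exact absurd rfl hL
    | cons p L' => exact ⟨p, L', rfl⟩
  set L := p :: L' with hLdef
  -- first limit
  have hinv0 : Tendsto (fun t : ℝ => ((t : ℂ))⁻¹) atTop (𝓝 0) := by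
    have h4 : Tendsto (fun t : ℝ => ((t⁻¹ : ℝ) : ℂ)) atTop (𝓝 ((0 : ℝ) : ℂ)) :=
      (Complex.continuous_ofReal.tendsto 0).comp tendsto_inv_atTop_zero
    simpa using h4
  have hstep1 : ∀ s : ℝ, Q E (Eᴴ ^ μ) L s = 0 := by
    intro s
    set f : ℤ × ℤ → ℝ → Mn n := fun q t => NormedSpace.exp (((q.1 : ℂ) * s) • E) *
      NormedSpace.exp (((q.2 : ℂ) * t) • Eᴴ) * NormedSpace.exp ((-(q.1 : ℂ) * s) • E) with hf
    set A : ℤ × ℤ → Mn n := fun q => NormedSpace.exp (((q.1 : ℂ) * s) • E) *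
      (((q.2 : ℂ) ^ μ / (μ.factorial : ℂ)) • Eᴴ ^ μ) * NormedSpace.exp ((-(q.1 : ℂ) * s) • E)
      with hA
    have h1 : Tendsto (fun t : ℝ => ((((t : ℂ))⁻¹ ^ μ) ^ L.length) •
        (L.map (fun q => f q t)).prod) atTop (𝓝 (L.map A).prod) := by
      apply list_tendsto
      intro q _
      have h2 := ((scaled_exp Eᴴ μ hFz (q.2 : ℂ)).const_mul
        (NormedSpace.exp (((q.1 : ℂ) * s) • E))).mul_const (NormedSpace.exp ((-(q.1 : ℂ) * s) • E))
      refine h2.congr ?_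
      intro t
      rw [hf]
      simp only [mul_smul_comm, smul_mul_assoc]
    have h2 : ∀ t : ℝ, (L.map (fun q => f q t)).prod = 1 := by
      intro t
      rw [← hno s t]
      unfold RL
      congr 1
      apply List.map_congr_left
      intro q _
      rw [hf]
      simp only [smul_smul]
    have h3 : Tendsto (fun t : ℝ => ((((t : ℂ))⁻¹ ^ μ) ^ L.length) •
        (L.map (fun q => f q t)).prod) atTop (𝓝 0) := by
      have h4 : Tendsto (fun t : ℝ => ((((t : ℂ))⁻¹ ^ μ) ^ L.length) • (1 : Mn n)) atTop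
          (𝓝 ((((0 : ℂ)) ^ μ) ^ L.length • (1 : Mn n))) :=
        ((hinv0.pow μ).pow L.length).smul_const _
      rw [zero_pow (by omega), zero_pow (by rw [hLdef]; simp), zero_smul] at h4
      refine h4.congr ?_
      intro t
      rw [h2 t]
    have h5 : (L.map A).prod = 0 := tendsto_nhds_unique h1 h3
    rw [hA, list_scal] at h5
    have h6 : (L.map (fun q : ℤ × ℤ => (q.2 : ℂ) ^ μ / (μ.factorial : ℂ))).prod ≠ 0 := by
      apply List.prod_ne_zero
      intro h0
      rw [List.mem_map] at h0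
      obtain ⟨q, hq, hq0⟩ := h0
      have : (q.2 : ℂ) ≠ 0 := by exact_mod_cast hc q hq
      exact (div_ne_zero (pow_ne_zero _ this) (by exact_mod_cast Nat.factorial_ne_zero μ)) hq0
    exact (smul_eq_zero.1 h5).resolve_left h6
  obtain ⟨k, κ, hκ, hlim⟩ := chain_lim E (Eᴴ ^ μ) μ hμz L' p hch
  have h0 : Tendsto (fun s : ℝ => ((((s : ℂ))⁻¹ ^ μ) ^ (L'.length + 1)) •
        (NormedSpace.exp ((-(p.1 : ℂ) * s) • E) * Q E (Eᴴ ^ μ) (p :: L') s *
          NormedSpace.exp (((k : ℂ) * s) • E))) atTop (𝓝 0) := by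
    apply tendsto_const_nhds.congr
    intro s
    rw [hstep1 s, mul_zero, zero_mul, smul_zero]
  have h1 := tendsto_nhds_unique hlim h0
  have h2 : (Eᴴ ^ μ * E ^ μ) ^ (L'.length + 1) = 0 := (smul_eq_zero.1 h1).resolve_left hκ
  rw [← Matrix.conjTranspose_pow] at h2
  have h3 := herm_nil ((E ^ μ)ᴴ * E ^ μ) (by
    rw [Matrix.conjTranspose_mul, Matrix.conjTranspose_conjTranspose]) _ h2
  exact hμ0 (star_zero _ h3)

end Pool.Agent.GY
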