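import Pool.Agent.GY.WordId
import Pool.Agent.GY.GoodQ

/-!
# GY.Wq (diff 2): words in quotients

* `lift_mk`: `FreeGroup.lift` commutes with homomorphisms (`FreeGroup.induction_on` or `FreeGroup.ext_hom`).
* `pi_mk_open`: the map `(Fin k → G) → (Fin k → G ⧸ K)` is open (`IsOpenMap.piMap`, `QuotientGroup.isOpenMap_coe`; all but finitely many components are surjective/trivial since `Fin k` is finite).
* `word_quot`: `X = G ⧸ K` is NSS (`goodK_quot`), locally compact, Hausdorff (`K` is closed), connected.  The image of `O` in `Fin k → X` is open and nonempty, the word takes there values in the finite set `mk '' F`: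
  `word_identity_fin` gives that `w` is a law on `X`, that is `lift x w ∈ K`.
-/

open Topology Filter Set
open scoped Pointwise

namespace Pool.Agent.GY

theorem lift_hom {G G' : Type*} [Group G] [Group G'] (f : G →* G') {ι : Type*} (w : FreeGroup ι)
    (x : ι → G) : f (FreeGroup.lift x w) = FreeGroup.lift (fun i => f (x i)) w := by
  have h : f.comp (FreeGroup.lift x) = FreeGroup.lift (fun i => f (x i)) := by
    apply FreeGroup.ext_hom
    intro a
    simp
  rw [← h]
  rfl

theorem lift_mk {G : Type*} [Group G] {K : Subgroup G} [K.Normal] {ι : Type*} (w : FreeGroup ι)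
    (x : ι → G) : ((FreeGroup.lift x w : G) : G ⧸ K) = FreeGroup.lift (fun i => (x i : G ⧸ K)) w :=
  lift_hom (QuotientGroup.mk' K) w x

variable {G : Type*} [Group G] [TopologicalSpace G] [IsTopologicalGroup G]

theorem pi_mk_open {K : Subgroup G} [K.Normal] {k : ℕ} :
    IsOpenMap (fun (x : Fin k → G) (i : Fin k) => (x i : G ⧸ K)) := by
  have h := IsOpenMap.piMap (ι := Fin k) (A := fun _ => G) (B := fun _ => G ⧸ K)
    (f := fun _ => (QuotientGroup.mk : G → G ⧸ K))
    (fun _ => QuotientGroup.isOpenMap_coe)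
    (Filter.Eventually.of_forall fun _ => QuotientGroup.mk_surjective)
  exact h

theorem word_quot [LocallyCompactSpace G] [T2Space G] [ConnectedSpace G] {K : Subgroup G}
    (hK : GoodK K) {k : ℕ} (w : FreeGroup (Fin k)) {F : Set G}
    (hF : ∃ F₀ : Set G, F₀.Finite ∧ F ⊆ F₀ * (K : Set G)) {O : Set (Fin k → G)} (hO : IsOpen O)
    (hne : O.Nonempty) (h : ∀ x ∈ O, ∃ f ∈ F, f⁻¹ * FreeGroup.lift x w ∈ K) :
    ∀ x : Fin k → G, FreeGroup.lift x w ∈ K := by
  have := hK.normal
  have hcl : IsClosed (K : Set G) := hK.compact.isClosed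
  have : IsClosed (K : Set G) := hcl
  have : T2Space (G ⧸ K) := inferInstance
  have : LocallyCompactSpace (G ⧸ K) := inferInstance
  have : ConnectedSpace (G ⧸ K) :=
    (QuotientGroup.mk_surjective (s := K)).connectedSpace continuous_quotient_mk'
  have hN : NSS (G ⧸ K) := goodK_quot hK
  obtain ⟨F₀, hF₀, hFF⟩ := hF
  have key := word_identity_fin hN w (F := (QuotientGroup.mk : G → G ⧸ K) '' F₀)
    (hF₀.image _) (O := (fun (x : Fin k → G) (i : Fin k) => (x i : G ⧸ K)) '' O)
    (pi_mk_open O hO) (hne.image _) (by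
      rintro _ ⟨x, hx, rfl⟩
      obtain ⟨f, hf, hfx⟩ := h x hx
      obtain ⟨f₀, hf₀, κ, hκ, rfl⟩ := Set.mem_mul.1 (hFF hf)
      rw [← lift_mk]
      refine ⟨f₀, hf₀, ?_⟩
      rw [QuotientGroup.eq]
      have e : f₀⁻¹ * FreeGroup.lift x w = κ * ((f₀ * κ)⁻¹ * FreeGroup.lift x w) := by group
      rw [e]
      exact K.mul_mem hκ hfx)
  intro x
  have h1 := key (fun i => (x i : G ⧸ K))
  rw [← lift_mk] at h1
  exact (QuotientGroup.eq_one_iff _).1 h1

end Pool.Agent.GY
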