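import Pool.Agent.GY.LieM2
import Pool.Agent.GY.EigE
import Pool.Agent.GY.PolyWord
import Pool.Agent.GY.FreeSyl
import Pool.Agent.GY.AnExt
import Pool.Agent.GY.PWrep
import Pool.Agent.GY.Wq

/-!
# GY.NoLaw (diff 2): a compact connected nonabelian group satisfies no nontrivial law

`c = x y x⁻¹ y⁻¹ ≠ 1`; `pw_rep c`: `π : P →* Mn n` continuous unitary, `π c ≠ 1`.  `P' = P ⧸ π.ker` is a compact connected Hausdorff group (`π.ker` is closed), `π' : P' →* Mn n` (`QuotientGroup.kerLift`/`lift`) is continuous, unitary and injective;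
`P'` is nonabelian.  `𝔤 = LieOf π'`; `eig_E` gives `A, B ∈ 𝔤`, `E = A + i B ≠ 0` nilpotent; `Eᴴ = -A + i B`.
Suppose `lift x w = 1` for all `x : Fin k → P`; then also for `x : Fin k → P'` (`lift_mk`).  `free_syl`: `w = ∏ of p.1 ^ p.2` over `L`.  Let `L' = L.map (fun p => ((p.1 : ℕ) : ℤ, p.2))`.
For `X, Y ∈ 𝔤` take `u, v ∈ P'` with `π' u = exp X`, `π' v = exp Y` (`t = 1`) and `x_i = u^i v u^(-i)`: `1 = π' (lift x w) = ∏ (exp X)^{p.1} (exp Y)^{p.2} (exp X)^{-p.1} = RL L' X Y` (inverses in `Mn n`: `π' u⁻¹ = exp (-X)`; `exp (m • X)` for integers `m`: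
`Matrix.exp_zsmul` or `exp_nsmul`).
`an_ext` for `A, B` scaled by real `s` and `-A, B` scaled by real `t`: `RL L' (s E) (t Eᴴ) = 1`: contradiction to `poly_word`.
-/

open Topology Filter Set Matrix

namespace Pool.Agent.GY

theorem NoLaw_zpow {P : Type*} [Group P] {n : ℕ} (π : P →* Mn n) {u : P} {X : Mn n}
    (h : π u = NormedSpace.exp X) (m : ℤ) : π (u ^ m) = NormedSpace.exp ((m : ℂ) • X) := by
  have hnat : ∀ m : ℕ, π (u ^ m) = NormedSpace.exp ((m : ℂ) • X) := by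
    intro m
    rw [map_pow, h, ← Matrix.exp_nsmul]
    congr 1
    exact (Nat.cast_smul_eq_nsmul ℂ m X).symm
  have hexp : ∀ c : ℂ, NormedSpace.exp (c • X) * NormedSpace.exp (-c • X) = 1 := by
    intro c
    rw [← Matrix.exp_add_of_commute]
    · rw [neg_smul, add_neg_cancel, NormedSpace.exp_zero]
    · rw [neg_smul]
      exact (Commute.refl _).neg_right
  obtain ⟨a, rfl | rfl⟩ := Int.eq_nat_or_neg m
  · rw [zpow_natCast, hnat]
    push_cast
    rfl
  · have h1 : π (u ^ (-(a : ℤ))) * π (u ^ a) = 1 := by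
      rw [← map_mul, _root_.zpow_neg, zpow_natCast, inv_mul_cancel, map_one]
    calc π (u ^ (-(a : ℤ)))
        = π (u ^ (-(a : ℤ))) * (NormedSpace.exp ((a : ℂ) • X) * NormedSpace.exp (-(a : ℂ) • X)) := by
          rw [hexp, mul_one]
      _ = NormedSpace.exp (-(a : ℂ) • X) := by
          rw [← mul_assoc, ← hnat, h1, one_mul]
      _ = _ := by push_cast; rfl

theorem NoLaw_RL {P : Type*} [Group P] {n k : ℕ} (π : P →* Mn n) {u v : P} {X Y : Mn n}
    (hu : π u = NormedSpace.exp X) (hv : π v = NormedSpace.exp Y) (L : List (Fin k × ℤ)) :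
    π (FreeGroup.lift (fun i : Fin k => u ^ ((i : ℕ) : ℤ) * v * (u ^ ((i : ℕ) : ℤ))⁻¹)
      (L.map (fun p => FreeGroup.of p.1 ^ p.2)).prod) =
    RL (L.map (fun p => (((p.1 : ℕ) : ℤ), p.2))) X Y := by
  unfold RL
  rw [map_list_prod, map_list_prod, List.map_map, List.map_map, List.map_map]
  congr 1
  apply List.map_congr_left
  intro p _
  simp only [Function.comp_apply, map_zpow, FreeGroup.lift_apply_of]
  rw [conj_zpow, map_mul, map_mul, NoLaw_zpow π hu, NoLaw_zpow π hv, ← _root_.zpow_neg,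
    NoLaw_zpow π hu]
  push_cast
  rfl

theorem no_law {P : Type*} [Group P] [TopologicalSpace P] [IsTopologicalGroup P] [CompactSpace P]
    [T2Space P] [ConnectedSpace P] (hna : ∃ x y : P, x * y ≠ y * x) {k : ℕ}
    (w : FreeGroup (Fin k)) (hw : w ≠ 1) : ∃ x : Fin k → P, FreeGroup.lift x w ≠ 1 := by
  by_contra hcon
  push Not at hcon
  obtain ⟨x₀, y₀, hxy⟩ := hna
  have hc : x₀ * y₀ * x₀⁻¹ * y₀⁻¹ ≠ 1 := by
    intro h
    apply hxy
    rw [mul_inv_eq_one, mul_inv_eq_iff_eq_mul] at h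
    exact h
  obtain ⟨n, π, hπc, hπu, hπ1⟩ := pw_rep _ hc
  have hcl : IsClosed (π.ker : Set P) := by
    have : (π.ker : Set P) = π ⁻¹' {1} := by
      ext x; simp [MonoidHom.mem_ker]
    rw [this]
    exact isClosed_singleton.preimage hπc
  have hT3 : T3Space (P ⧸ π.ker) := inferInstance
  have hconn : ConnectedSpace (P ⧸ π.ker) := Quotient.instConnectedSpace
  let π' : P ⧸ π.ker →* Mn n := QuotientGroup.lift π.ker π le_rfl
  have hπ'mk : ∀ x : P, π' (x : P ⧸ π.ker) = π x := fun x => QuotientGroup.lift_mk' _ _ x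
  have hπ'c : Continuous π' := hπc.quotient_lift _
  have hinj : Function.Injective π' := by
    intro a b hab
    obtain ⟨x, rfl⟩ := QuotientGroup.mk_surjective a
    obtain ⟨y, rfl⟩ := QuotientGroup.mk_surjective b
    rw [hπ'mk, hπ'mk] at hab
    rw [QuotientGroup.eq, MonoidHom.mem_ker, map_mul, ← hab, ← map_mul, inv_mul_cancel, map_one]
  have hu' : ∀ a, π' a ∈ Matrix.unitaryGroup (Fin n) ℂ := by
    intro a
    obtain ⟨x, rfl⟩ := QuotientGroup.mk_surjective a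
    rw [hπ'mk]
    exact hπu x
  have hna' : ∃ a b : P ⧸ π.ker, a * b ≠ b * a := by
    refine ⟨(x₀ : P ⧸ π.ker), (y₀ : P ⧸ π.ker), ?_⟩
    intro h
    apply hπ1
    have h1 := congrArg π' h
    rw [← QuotientGroup.mk_mul, ← QuotientGroup.mk_mul, hπ'mk, hπ'mk] at h1
    have h2 : x₀ * y₀ * x₀⁻¹ * y₀⁻¹ = (x₀ * y₀) * (x₀⁻¹ * y₀⁻¹) := by group
    rw [h2, map_mul, h1, ← map_mul]
    have h3 : y₀ * x₀ * (x₀⁻¹ * y₀⁻¹) = 1 := by group
    rw [h3, map_one]
  have hlaw : ∀ x : Fin k → P ⧸ π.ker, FreeGroup.lift x w = 1 := by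
    intro x
    choose x' hx' using fun i => QuotientGroup.mk_surjective (x i)
    have h1 := lift_mk (K := π.ker) w x'
    rw [hcon x'] at h1
    have h2 : (fun i => ((x' i : P) : P ⧸ π.ker)) = x := funext hx'
    rw [h2] at h1
    rw [← h1]
    rfl
  obtain ⟨A, hA, B, hB, hne, hnil⟩ := eig_E (LieOf π' hπ'c)
    (fun A hA => lie_skew π' hπ'c hu' hA)
    (fun A hA B hB => lie_br π' hπ'c hA hB)
    (lie_nonab π' hπ'c hinj hna')
  obtain ⟨L, hL0, hL1, hL2, hL3⟩ := free_syl w hw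
  set L' : List (ℤ × ℤ) := L.map (fun p => (((p.1 : ℕ) : ℤ), p.2)) with hL'
  have hRL : ∀ X ∈ LieOf π' hπ'c, ∀ Y ∈ LieOf π' hπ'c, RL L' X Y = 1 := by
    intro X hX Y hY
    obtain ⟨u, hu⟩ := hX 1
    obtain ⟨v, hv⟩ := hY 1
    rw [one_smul] at hu hv
    rw [hL', ← NoLaw_RL π' hu hv L, ← hL3, hlaw, map_one]
  obtain ⟨s, t, hst⟩ := poly_word (A + Complex.I • B) hnil hne L' (by
      rw [hL']
      intro h
      exact hL0 (List.map_eq_nil_iff.1 h)) (by
      intro p hp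
      rw [hL', List.mem_map] at hp
      obtain ⟨q, hq, rfl⟩ := hp
      exact hL1 q hq) (by
      rw [hL', List.isChain_map]
      refine hL2.imp ?_
      intro a b hab h
      apply hab
      apply Fin.ext
      have h' : (((a.1 : ℕ) : ℤ)) = (((b.1 : ℕ) : ℤ)) := h
      exact_mod_cast h')
  apply hst
  have hAs := lie_skew π' hπ'c hu' hA
  have hBs := lie_skew π' hπ'c hu' hB
  have h1 := an_ext (LieOf π' hπ'c) L' hRL ((LieOf π' hπ'c).smul_mem s hA)
    ((LieOf π' hπ'c).smul_mem s hB) ((LieOf π' hπ'c).smul_mem (-t) hA)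
    ((LieOf π' hπ'c).smul_mem t hB)
  have h2 : ((s : ℂ) • (A + Complex.I • B) : Mn n) = s • A + Complex.I • (s • B) := by
    ext i j
    simp
    ring
  have h3 : ((t : ℂ) • (A + Complex.I • B)ᴴ : Mn n) = (-t) • A + Complex.I • (t • B) := by
    rw [Matrix.conjTranspose_add, Matrix.conjTranspose_smul, hAs, hBs]
    ext i j
    simp
    ring
  rw [h2, h3]
  exact h1

end Pool.Agent.GY
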