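import Pool.Agent.GY.DefsB

/-!
# GY.Nrm (diff 1): the norm of Gleason data

* `dist_eq`: `right` with `x = h⁻¹`.
* `nrm_inv`: `‖D g⁻¹ - D 1‖ = ‖D (g⁻¹ g) - D g‖`.   `nrm_mul_le`: `‖D (g h) - D h‖ = ‖D g - D 1‖` (right invariance).
* `comm_le`: both differ from `D g + D h` by at most `C ‖D g‖ ‖D h‖`.
* `conj_le`: right invariance (multiply by `h`): `‖D (h g h⁻¹) - D g‖ = ‖D (h g) - D (g h)‖`.
* `left_le`: `‖D (x g) - D (x h)‖ = ‖D (x (g h⁻¹) x⁻¹)‖` (`dist_eq`) `≤ (1 + 2 C ‖D x‖) ‖D (g h⁻¹)‖`.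
* `mul_dist`: `‖D (a b) - D (a d)‖ + ‖D (a d) - D (c d)‖`.
-/

open Topology Filter Set

namespace Pool.Agent.GY.Gl

variable {G E : Type*} [Group G] [TopologicalSpace G] [NormedAddCommGroup E] [NormedSpace ℝ E]
  (S : Gl G E) (g h x a b c d : G)

theorem C_pos : 0 < S.C := lt_of_lt_of_le one_pos S.hC

theorem dist_eq : ‖S.D g - S.D h‖ = ‖S.D (g * h⁻¹)‖ := by
  have := S.right g h h⁻¹
  rw [mul_inv_cancel, S.one, sub_zero] at this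
  exact this.symm

theorem nrm_mul_le : ‖S.D (g * h)‖ ≤ ‖S.D g‖ + ‖S.D h‖ := by
  have h1 := S.right g 1 h
  rw [one_mul, S.one, sub_zero] at h1
  calc ‖S.D (g * h)‖ = ‖(S.D (g * h) - S.D h) + S.D h‖ := by rw [sub_add_cancel]
    _ ≤ ‖S.D (g * h) - S.D h‖ + ‖S.D h‖ := norm_add_le _ _
    _ = _ := by rw [h1]

theorem nrm_inv : ‖S.D g⁻¹‖ = ‖S.D g‖ := by
  have h1 := S.right g⁻¹ 1 g
  rw [inv_mul_cancel, one_mul, S.one, sub_zero, zero_sub, norm_neg] at h1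
  exact h1.symm

theorem nrm_eq_zero : ‖S.D g‖ = 0 ↔ g = 1 := by
  rw [norm_eq_zero, ← S.one]
  exact S.emb.injective.eq_iff

theorem nrm_pow_le (n : ℕ) : ‖S.D (g ^ n)‖ ≤ n * ‖S.D g‖ := by
  induction n with
  | zero => simp [S.one]
  | succ n ih =>
    rw [pow_succ]
    refine (S.nrm_mul_le _ _).trans ?_
    push_cast
    linarith

theorem nrm_zpow_le (n : ℤ) : ‖S.D (g ^ n)‖ ≤ |(n : ℝ)| * ‖S.D g‖ := by
  obtain ⟨k, rfl | rfl⟩ := n.eq_nat_or_neg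
  · simp only [zpow_natCast, Int.cast_natCast, Nat.abs_cast]
    exact S.nrm_pow_le g k
  · simp only [zpow_neg, zpow_natCast, Int.cast_neg, Int.cast_natCast, abs_neg, Nat.abs_cast]
    rw [S.nrm_inv]
    exact S.nrm_pow_le g k

theorem comm_le (hg : ‖S.D g‖ ≤ S.r) (hh : ‖S.D h‖ ≤ S.r) :
    ‖S.D (g * h) - S.D (h * g)‖ ≤ 2 * S.C * ‖S.D g‖ * ‖S.D h‖ := by
  have h1 := S.mul g h hg hh
  have h2 := S.mul h g hh hg
  have e : S.D (g * h) - S.D (h * g)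
      = (S.D (g * h) - S.D g - S.D h) - (S.D (h * g) - S.D h - S.D g) := by abel
  rw [e]
  refine (norm_sub_le _ _).trans ?_
  nlinarith

theorem conj_le (hg : ‖S.D g‖ ≤ S.r) (hh : ‖S.D h‖ ≤ S.r) :
    ‖S.D (h * g * h⁻¹) - S.D g‖ ≤ 2 * S.C * ‖S.D g‖ * ‖S.D h‖ := by
  have h1 := S.right (h * g * h⁻¹) g h
  rw [inv_mul_cancel_right] at h1
  rw [← h1]
  have h2 := S.comm_le h g hh hg
  linarith

theorem nrm_conj_le (hg : ‖S.D g‖ ≤ S.r) (hh : ‖S.D h‖ ≤ S.r) :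
    ‖S.D (h * g * h⁻¹)‖ ≤ (1 + 2 * S.C * ‖S.D h‖) * ‖S.D g‖ := by
  have h1 := S.conj_le g h hg hh
  have h2 : ‖S.D (h * g * h⁻¹)‖ ≤ ‖S.D (h * g * h⁻¹) - S.D g‖ + ‖S.D g‖ := by
    have := norm_add_le (S.D (h * g * h⁻¹) - S.D g) (S.D g)
    rwa [sub_add_cancel] at this
  linarith

theorem left_le (hx : ‖S.D x‖ ≤ S.r) (hgh : ‖S.D g - S.D h‖ ≤ S.r) :
    ‖S.D (x * g) - S.D (x * h)‖ ≤ (1 + 2 * S.C * ‖S.D x‖) * ‖S.D g - S.D h‖ := by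
  rw [S.dist_eq g h] at hgh
  rw [S.dist_eq (x * g) (x * h), S.dist_eq g h]
  have e : x * g * (x * h)⁻¹ = x * (g * h⁻¹) * x⁻¹ := by group
  rw [e]
  exact S.nrm_conj_le _ _ hgh hx

theorem mul_dist (ha : ‖S.D a‖ ≤ S.r) (hbd : ‖S.D b - S.D d‖ ≤ S.r) :
    ‖S.D (a * b) - S.D (c * d)‖ ≤
      (1 + 2 * S.C * ‖S.D a‖) * ‖S.D b - S.D d‖ + ‖S.D a - S.D c‖ := by
  have h1 := S.left_le b d a ha hbd
  have h2 := S.right a c d
  have e : S.D (a * b) - S.D (c * d) = (S.D (a * b) - S.D (a * d)) + (S.D (a * d) - S.D (c * d)) := by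
    abel
  rw [e]
  refine (norm_add_le _ _).trans ?_
  linarith

theorem cont : Continuous S.D := S.emb.continuous

theorem tendsto_iff {ι : Type*} {l : Filter ι} {f : ι → G} {y : G} :
    Tendsto f l (𝓝 y) ↔ Tendsto (fun i => ‖S.D (f i) - S.D y‖) l (𝓝 0) := by
  rw [S.emb.tendsto_nhds_iff, tendsto_iff_norm_sub_tendsto_zero]
  rfl

theorem tendsto_one_iff {ι : Type*} {l : Filter ι} {f : ι → G} :
    Tendsto f l (𝓝 1) ↔ Tendsto (fun i => ‖S.D (f i)‖) l (𝓝 0) := by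
  rw [S.tendsto_iff, S.one]
  simp only [sub_zero]

theorem exists_ball {U : Set G} (hU : U ∈ 𝓝 (1 : G)) : ∃ ε : ℝ, 0 < ε ∧ ∀ g, ‖S.D g‖ < ε → g ∈ U := by
  rw [S.emb.nhds_eq_comap, Filter.mem_comap] at hU
  obtain ⟨t, ht, htU⟩ := hU
  rw [S.one, Metric.mem_nhds_iff] at ht
  obtain ⟨ε, hε, hball⟩ := ht
  refine ⟨ε, hε, fun g hg => htU (hball ?_)⟩
  rw [mem_ball_zero_iff]
  exact hg

theorem ball_mem {ε : ℝ} (hε : 0 < ε) : {g : G | ‖S.D g‖ < ε} ∈ 𝓝 (1 : G) := by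
  have ho : IsOpen {g : G | ‖S.D g‖ < ε} := isOpen_lt (S.cont.norm) continuous_const
  apply ho.mem_nhds
  change ‖S.D 1‖ < ε
  rw [S.one, norm_zero]
  exact hε

theorem cpt_ball {s : ℝ} (hs : s ≤ S.r) : IsCompact {g : G | ‖S.D g‖ ≤ s} := by
  have hc : IsClosed {g : G | ‖S.D g‖ ≤ s} := isClosed_le S.cont.norm continuous_const
  refine S.cpt.of_isClosed_subset hc ?_
  intro g hg
  exact le_trans hg hs

include S in
theorem t2 : T2Space G := T2Space.of_injective_continuous S.emb.injective S.emb.continuous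

end Pool.Agent.GY.Gl
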