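import Pool.Agent.GY.OpsLam

/-!
# GY.OpsDist (diff 2): distance of two one-parameter subgroups

For `t` and `n ≥ 1`: `X t = (X (t/n))^n`; `pow_dist` with `n ‖D (X (t/n))‖ ≤ |t| ‖lam X‖ ≤ r`:
`‖D (X t) - D (Y t)‖ ≤ (1 + 2 C |t| ‖lam X‖) n ‖D (X (t/n)) - D (Y (t/n))‖`, and `n (D (X (t/n)) - D (Y (t/n))) → t (lam X - lam Y)` as
`n → ∞` (`lam_est`).   `lam_inj`: equal for small `t`, so for all `t` (`X t = (X (t/n))^n`).
-/

open Topology Filter Set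

namespace Pool.Agent.GY.Gl

variable {G E : Type*} [Group G] [TopologicalSpace G] [IsTopologicalGroup G]
  [NormedAddCommGroup E] [NormedSpace ℝ E] [CompleteSpace E] (S : Gl G E)

theorem ops_dist (X Y : OPS G) (t : ℝ) (ht : |t| * ‖S.lam X‖ ≤ S.r) : ‖S.D (X t) - S.D (Y t)‖ ≤
    (1 + 2 * S.C * (|t| * ‖S.lam X‖)) * (|t| * ‖S.lam X - S.lam Y‖) := by
  have hC0 : 0 < S.C := S.C_pos
  have hr := ht
  clear ht
  rcases eq_or_ne t 0 with ht | ht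
  · subst ht
    rw [OPS.zero' X, OPS.zero' Y]
    simp
  obtain ⟨τ, hτ⟩ : ∃ τ : ℕ → ℝ, τ = fun n : ℕ => t * (1 / ((n:ℝ) + 1)) := ⟨_, rfl⟩
  have hτ0 : ∀ n, τ n ≠ 0 := by
    intro n
    rw [hτ]
    exact mul_ne_zero ht (by positivity)
  have hτt : Tendsto τ atTop (𝓝 0) := by
    rw [hτ]
    have h1 := (tendsto_one_div_add_atTop_nhds_zero_nat (𝕜 := ℝ)).const_mul t
    simpa using h1
  have hsm : ∀ᶠ n in atTop, ‖S.D (X (τ n)) - S.D (Y (τ n))‖ ≤ S.r := by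
    have e0 : Tendsto (fun n => |τ n| * (‖S.lam X‖ + ‖S.lam Y‖)) atTop (𝓝 0) := by
      have e1 := (hτt.abs).mul_const (‖S.lam X‖ + ‖S.lam Y‖)
      simpa using e1
    filter_upwards [e0.eventually_lt_const S.hr] with n hn
    refine le_trans (norm_sub_le _ _) ?_
    have e1 := S.lam_nrm X (τ n)
    have e2 := S.lam_nrm Y (τ n)
    linarith
  have h1 : ∀ᶠ n in atTop, ‖S.D (X t) - S.D (Y t)‖ ≤ (1 + 2 * S.C * (|t| * ‖S.lam X‖)) *
      (|t| * ‖(τ n)⁻¹ • S.D (X (τ n)) - (τ n)⁻¹ • S.D (Y (τ n))‖) := by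
    filter_upwards [hsm] with n hsmn
    have hn0 : (0:ℝ) < ((n + 1 : ℕ) : ℝ) := by positivity
    have hnt : ((n + 1 : ℕ) : ℝ) * τ n = t := by
      rw [hτ]
      push_cast
      field_simp
    have hX : X t = (X (τ n)) ^ (n+1) := by rw [← OPS.natmul, hnt]
    have hY : Y t = (Y (τ n)) ^ (n+1) := by rw [← OPS.natmul, hnt]
    have habs : |t| = ((n + 1 : ℕ) : ℝ) * |τ n| := by
      rw [← hnt, abs_mul, abs_of_pos hn0]
    have h3 : ((n + 1 : ℕ) : ℝ) * ‖S.D (X (τ n))‖ ≤ |t| * ‖S.lam X‖ := by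
      rw [habs, mul_assoc]
      exact mul_le_mul_of_nonneg_left (S.lam_nrm X (τ n)) hn0.le
    have h2 := S.pow_dist (X (τ n)) (Y (τ n)) (n+1) (le_trans h3 hr) hsmn
    rw [← hX, ← hY] at h2
    have h4 : |t| * ‖(τ n)⁻¹ • S.D (X (τ n)) - (τ n)⁻¹ • S.D (Y (τ n))‖ =
        ((n + 1 : ℕ) : ℝ) * ‖S.D (X (τ n)) - S.D (Y (τ n))‖ := by
      rw [← smul_sub, norm_smul, norm_inv, Real.norm_eq_abs, habs]
      have : |τ n| ≠ 0 := abs_ne_zero.mpr (hτ0 n)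
      field_simp
    rw [h4]
    refine le_trans h2 ?_
    calc ((n + 1 : ℕ) : ℝ) * (1 + 2 * S.C * (((n + 1 : ℕ) : ℝ) * ‖S.D (X (τ n))‖)) *
          ‖S.D (X (τ n)) - S.D (Y (τ n))‖
        = (1 + 2 * S.C * (((n + 1 : ℕ) : ℝ) * ‖S.D (X (τ n))‖)) *
          (((n + 1 : ℕ) : ℝ) * ‖S.D (X (τ n)) - S.D (Y (τ n))‖) := by ring
      _ ≤ (1 + 2 * S.C * (|t| * ‖S.lam X‖)) *
          (((n + 1 : ℕ) : ℝ) * ‖S.D (X (τ n)) - S.D (Y (τ n))‖) := by gcongr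
  have h2 : Tendsto (fun n => (1 + 2 * S.C * (|t| * ‖S.lam X‖)) *
      (|t| * ‖(τ n)⁻¹ • S.D (X (τ n)) - (τ n)⁻¹ • S.D (Y (τ n))‖)) atTop
      (𝓝 ((1 + 2 * S.C * (|t| * ‖S.lam X‖)) * (|t| * ‖S.lam X - S.lam Y‖))) :=
    (((S.lam_tendsto X hτ0 hτt).sub (S.lam_tendsto Y hτ0 hτt)).norm.const_mul _).const_mul _
  exact ge_of_tendsto h2 h1

theorem lam_inj {X Y : OPS G} (h : S.lam X = S.lam Y) : X = Y := by
  have hr := S.hr
  have small : ∀ t : ℝ, |t| * ‖S.lam X‖ ≤ S.r → X t = Y t := by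
    intro t ht
    have h1 := S.ops_dist X Y t ht
    rw [h, sub_self, norm_zero, mul_zero, mul_zero] at h1
    have h2 : S.D (X t) - S.D (Y t) = 0 := norm_eq_zero.mp (le_antisymm h1 (norm_nonneg _))
    exact S.emb.injective (sub_eq_zero.mp h2)
  refine OPS.ext' (fun t => ?_)
  obtain ⟨n, hn⟩ := exists_nat_gt (|t| * ‖S.lam X‖ / S.r)
  have hn0 : (0:ℝ) < n := lt_of_le_of_lt (by positivity) hn
  rw [div_lt_iff₀ hr] at hn
  have h1 : |t / n| * ‖S.lam X‖ ≤ S.r := by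
    rw [abs_div, abs_of_pos hn0, div_mul_eq_mul_div, div_le_iff₀ hn0]
    linarith
  have h2 := small (t / n) h1
  have h3 : (n:ℝ) * (t / n) = t := by field_simp
  rw [← h3, OPS.natmul, OPS.natmul, h2]

end Pool.Agent.GY.Gl
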