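import Pool.Agent.GY.OpsLin

/-!
# GY.OpsLam (diff 2): the derivative `lam X` of a one-parameter subgroup

`f t = D (X t)`, `‖f t‖ ≤ A |t|` (`ops_lin`), `‖f (n t) - n f t‖ ≤ 2 C A² n² t²` (`pow_est'`).
For `t > 0` put `q t = t⁻¹ • f t`.  For `0 < s ≤ t` let `n = ⌊t/s⌋`; `‖f t - f (n s)‖ = ‖D (X (t - n s))‖ ≤ A s`,
so `‖t q t - n s q s‖ ≤ A s + 2 C A² n² s²`, and `‖t q t - t q s‖ ≤ 2 A s + 2 C A² t²`, i.e. `‖q t - q s‖ ≤ 2 A s/t + 2 C A² t`.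
Hence `q` is Cauchy as `t → 0+`: for `s, t ≤ δ` compare both with a much smaller `u`: `‖q s - q t‖ ≤ 4 C A² δ + o(1)`.  Let `v` be the limit (`E` complete);
`u → 0` gives `‖q t - v‖ ≤ 2 C A² t`, i.e. `‖f t - t v‖ ≤ 2 C A² t²` for `t ≥ 0`.
`‖f t‖ ≤ n ‖f (t/n)‖ → t ‖v‖`.  So `A` can be replaced by `‖v‖`.  For negative `t` use `inv_est`: total constant `4 C`.
-/

open Topology Filter Set

namespace Pool.Agent.GY.Gl

variable {G E : Type*} [Group G] [TopologicalSpace G] [IsTopologicalGroup G]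
  [NormedAddCommGroup E] [NormedSpace ℝ E] [CompleteSpace E] (S : Gl G E)

omit [CompleteSpace E] in
theorem OpsLam_cmp (X : OPS G) {A : ℝ} (hA : ∀ t, ‖S.D (X t)‖ ≤ A * |t|) {s t : ℝ}
    (hs : 0 < s) (hst : s ≤ t) :
    ‖s⁻¹ • S.D (X s) - t⁻¹ • S.D (X t)‖ ≤ 2 * A * (s / t) + 2 * S.C * A ^ 2 * t := by
  have ht : 0 < t := lt_of_lt_of_le hs hst
  have hC0 : 0 < S.C := S.C_pos
  have hA0 : 0 ≤ A := by
    have h1 := hA 1
    rw [abs_one, mul_one] at h1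
    exact le_trans (norm_nonneg _) h1
  obtain ⟨n, hn⟩ : ∃ n : ℕ, n = ⌊t / s⌋₊ := ⟨_, rfl⟩
  have hn1 : (n:ℝ) * s ≤ t := by
    have h1 : (n:ℝ) ≤ t / s := by rw [hn]; exact Nat.floor_le (by positivity)
    rwa [le_div_iff₀ hs] at h1
  have hn2 : t < (n:ℝ) * s + s := by
    have h1 : t / s < n + 1 := by rw [hn]; exact Nat.lt_floor_add_one _
    rw [div_lt_iff₀ hs] at h1
    linarith
  have hsn : |s| = s := abs_of_pos hs
  have h1 : ‖S.D (X t) - S.D (X ((n:ℝ) * s))‖ ≤ A * s := by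
    rw [S.dist_eq, ← OPS.neg', ← X.add]
    refine le_trans (hA _) (mul_le_mul_of_nonneg_left ?_ hA0)
    rw [abs_of_nonneg (by linarith)]
    linarith
  have hfs : ‖S.D (X s)‖ ≤ A * s := by have := hA s; rwa [hsn] at this
  have h2 : ‖S.D (X ((n:ℝ) * s)) - (n:ℝ) • S.D (X s)‖ ≤ 2 * S.C * A ^ 2 * t ^ 2 := by
    have h3 := S.pow_est' (X s) n
    rw [← OPS.natmul] at h3
    refine le_trans h3 ?_
    have h4 : (n:ℝ) * ‖S.D (X s)‖ ≤ A * t := by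
      calc (n:ℝ) * ‖S.D (X s)‖ ≤ n * (A * s) := by gcongr
        _ = A * (n * s) := by ring
        _ ≤ A * t := by gcongr
    calc 2 * S.C * ((n:ℝ) * ‖S.D (X s)‖) ^ 2 ≤ 2 * S.C * (A * t) ^ 2 := by gcongr
      _ = 2 * S.C * A ^ 2 * t ^ 2 := by ring
  have h5 : ‖((n:ℝ) * s - t) • S.D (X s)‖ ≤ s * (A * s) := by
    rw [norm_smul]
    have : ‖(n:ℝ) * s - t‖ ≤ s := by
      rw [Real.norm_eq_abs, abs_le]; constructor <;> linarith
    exact mul_le_mul this hfs (norm_nonneg _) hs.le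
  have h6 : s • S.D (X t) - t • S.D (X s) = s • (S.D (X t) - S.D (X ((n:ℝ) * s))) +
      s • (S.D (X ((n:ℝ) * s)) - (n:ℝ) • S.D (X s)) + ((n:ℝ) * s - t) • S.D (X s) := by
    module
  have h7 : ‖s • S.D (X t) - t • S.D (X s)‖ ≤
      s * (A * s) + s * (2 * S.C * A ^ 2 * t ^ 2) + s * (A * s) := by
    rw [h6]
    refine le_trans (norm_add₃_le) ?_
    have e1 : ‖s • (S.D (X t) - S.D (X ((n:ℝ) * s)))‖ ≤ s * (A * s) := by
      rw [norm_smul, Real.norm_of_nonneg hs.le]; gcongr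
    have e2 : ‖s • (S.D (X ((n:ℝ) * s)) - (n:ℝ) • S.D (X s))‖ ≤
        s * (2 * S.C * A ^ 2 * t ^ 2) := by
      rw [norm_smul, Real.norm_of_nonneg hs.le]; gcongr
    linarith
  have h8 : s⁻¹ • S.D (X s) - t⁻¹ • S.D (X t) =
      (-(s * t)⁻¹) • (s • S.D (X t) - t • S.D (X s)) := by
    rw [smul_sub, smul_smul, smul_smul]
    have e1 : -(s * t)⁻¹ * s = - t⁻¹ := by field_simp
    have e2 : -(s * t)⁻¹ * t = - s⁻¹ := by field_simp
    rw [e1, e2]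
    module
  rw [h8, norm_smul, norm_neg, norm_inv, Real.norm_of_nonneg (by positivity)]
  rw [inv_mul_le_iff₀ (by positivity)]
  refine le_trans h7 (le_of_eq ?_)
  field_simp
  ring

omit [CompleteSpace E] in
theorem OpsLam_cmp2 (X : OPS G) {A : ℝ} (hA : ∀ t, ‖S.D (X t)‖ ≤ A * |t|) {s t : ℝ}
    (hs : 0 < s) (ht : 0 < t) :
    ‖s⁻¹ • S.D (X s) - t⁻¹ • S.D (X t)‖ ≤ 2 * S.C * A ^ 2 * (s + t) := by
  have hC0 : 0 < S.C := S.C_pos
  have hA0 : 0 ≤ A := by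
    have h1 := hA 1
    rw [abs_one, mul_one] at h1
    exact le_trans (norm_nonneg _) h1
  refine le_of_forall_pos_le_add (fun ε hε => ?_)
  obtain ⟨u, hu⟩ : ∃ u : ℝ, u = min (min s t) (ε / (2 * A / s + 2 * A / t + 1)) := ⟨_, rfl⟩
  have hM : 0 < 2 * A / s + 2 * A / t + 1 := by positivity
  have hu0 : 0 < u := by rw [hu]; exact lt_min (lt_min hs ht) (by positivity)
  have hus : u ≤ s := by rw [hu]; exact le_trans (min_le_left _ _) (min_le_left _ _)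
  have hut : u ≤ t := by rw [hu]; exact le_trans (min_le_left _ _) (min_le_right _ _)
  have hue : u * (2 * A / s + 2 * A / t + 1) ≤ ε := by
    have : u ≤ ε / (2 * A / s + 2 * A / t + 1) := by rw [hu]; exact min_le_right _ _
    rwa [le_div_iff₀ hM] at this
  have h1 := S.OpsLam_cmp X hA hu0 hus
  have h2 := S.OpsLam_cmp X hA hu0 hut
  have h3 : ‖s⁻¹ • S.D (X s) - t⁻¹ • S.D (X t)‖ ≤
      ‖u⁻¹ • S.D (X u) - s⁻¹ • S.D (X s)‖ + ‖u⁻¹ • S.D (X u) - t⁻¹ • S.D (X t)‖ := by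
    have h4 := norm_sub_le (u⁻¹ • S.D (X u) - t⁻¹ • S.D (X t))
      (u⁻¹ • S.D (X u) - s⁻¹ • S.D (X s))
    rw [sub_sub_sub_cancel_left] at h4
    linarith
  have h5 : 2 * A * (u / s) + 2 * A * (u / t) = u * (2 * A / s + 2 * A / t) := by ring
  nlinarith

theorem exists_lam (X : OPS G) : ∃ v : E, (∀ t, ‖S.D (X t)‖ ≤ |t| * ‖v‖) ∧
    ∀ t, ‖S.D (X t) - t • v‖ ≤ 4 * S.C * t ^ 2 * ‖v‖ ^ 2 := by
  have hC0 : 0 < S.C := S.C_pos
  obtain ⟨A, hA0, hA⟩ := S.ops_lin X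
  obtain ⟨q, hq⟩ : ∃ q : ℝ → E, q = fun t => t⁻¹ • S.D (X t) := ⟨_, rfl⟩
  obtain ⟨σ, hσ⟩ : ∃ σ : ℕ → ℝ, σ = fun n : ℕ => 1 / ((n:ℝ) + 1) := ⟨_, rfl⟩
  have hσ0 : ∀ n, 0 < σ n := fun n => by rw [hσ]; positivity
  have hσt : Tendsto σ atTop (𝓝 0) := by rw [hσ]; exact tendsto_one_div_add_atTop_nhds_zero_nat
  have hcmp : ∀ B : ℝ, (∀ t, ‖S.D (X t)‖ ≤ B * |t|) → ∀ s t, 0 < s → 0 < t →
      ‖q s - q t‖ ≤ 2 * S.C * B ^ 2 * (s + t) := by
    intro B hB s t hs ht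
    rw [hq]
    exact S.OpsLam_cmp2 X hB hs ht
  have hcau : CauchySeq (fun n => q (σ n)) := by
    refine cauchySeq_of_le_tendsto_0 (fun n => 2 * S.C * A ^ 2 * (σ n + σ n)) ?_ ?_
    · intro n m N hn hm
      rw [dist_eq_norm]
      refine le_trans (hcmp A hA _ _ (hσ0 n) (hσ0 m)) ?_
      have anti : ∀ i j : ℕ, i ≤ j → σ j ≤ σ i := by
        intro i j hij
        rw [hσ]
        have : (i:ℝ) ≤ j := by exact_mod_cast hij
        simp only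
        gcongr
      have e1 := anti N n hn
      have e2 := anti N m hm
      gcongr
    · have h1 : Tendsto (fun n => 2 * S.C * A ^ 2 * (σ n + σ n)) atTop
          (𝓝 (2 * S.C * A ^ 2 * (0 + 0))) := (hσt.add hσt).const_mul _
      simpa using h1
  obtain ⟨v, hv⟩ := cauchySeq_tendsto_of_complete hcau
  have hlim : ∀ B : ℝ, (∀ t, ‖S.D (X t)‖ ≤ B * |t|) → ∀ t, 0 < t →
      ‖S.D (X t) - t • v‖ ≤ 2 * S.C * B ^ 2 * t ^ 2 := by
    intro B hB t ht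
    have h1 : Tendsto (fun n => ‖q t - q (σ n)‖) atTop (𝓝 ‖q t - v‖) :=
      (tendsto_const_nhds.sub hv).norm
    have h2 : Tendsto (fun n => 2 * S.C * B ^ 2 * (t + σ n)) atTop
        (𝓝 (2 * S.C * B ^ 2 * (t + 0))) := (tendsto_const_nhds.add hσt).const_mul _
    have h3 : ‖q t - v‖ ≤ 2 * S.C * B ^ 2 * (t + 0) :=
      le_of_tendsto_of_tendsto' h1 h2 (fun n => hcmp B hB t (σ n) ht (hσ0 n))
    have h4 : S.D (X t) - t • v = t • (q t - v) := by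
      rw [hq, smul_sub, smul_smul, mul_inv_cancel₀ ht.ne', one_smul]
    rw [h4, norm_smul, Real.norm_of_nonneg ht.le]
    calc t * ‖q t - v‖ ≤ t * (2 * S.C * B ^ 2 * (t + 0)) := by gcongr
      _ = 2 * S.C * B ^ 2 * t ^ 2 := by ring
  have hpos : ∀ t, 0 < t → ‖S.D (X t)‖ ≤ t * ‖v‖ := by
    intro t ht
    have h1 : ∀ n : ℕ, ‖S.D (X t)‖ ≤ t * ‖v‖ + 2 * S.C * A ^ 2 * t ^ 2 * σ n := by
      intro n
      have hn0 : (0:ℝ) < ((n + 1 : ℕ) : ℝ) := by positivity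
      have h3 : X t = (X (t / ((n+1 : ℕ):ℝ))) ^ (n+1) := by
        rw [← OPS.natmul]
        congr 1
        field_simp
      have h4 : ‖S.D (X (t / ((n+1 : ℕ):ℝ)))‖ ≤ t / ((n+1 : ℕ):ℝ) * ‖v‖ +
          2 * S.C * A ^ 2 * (t / ((n+1 : ℕ):ℝ)) ^ 2 := by
        have e1 := hlim A hA (t / ((n+1 : ℕ):ℝ)) (by positivity)
        have e2 := norm_add_le (S.D (X (t / ((n+1 : ℕ):ℝ))) - (t / ((n+1 : ℕ):ℝ)) • v)
          ((t / ((n+1 : ℕ):ℝ)) • v)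
        rw [sub_add_cancel, norm_smul, Real.norm_of_nonneg (by positivity)] at e2
        linarith
      rw [h3]
      calc ‖S.D ((X (t / ((n+1 : ℕ):ℝ))) ^ (n+1))‖
          ≤ ((n+1 : ℕ):ℝ) * ‖S.D (X (t / ((n+1 : ℕ):ℝ)))‖ := S.nrm_pow_le _ _
        _ ≤ ((n+1 : ℕ):ℝ) * (t / ((n+1 : ℕ):ℝ) * ‖v‖ +
          2 * S.C * A ^ 2 * (t / ((n+1 : ℕ):ℝ)) ^ 2) := by gcongr
        _ = t * ‖v‖ + 2 * S.C * A ^ 2 * t ^ 2 * σ n := by
          rw [hσ]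
          push_cast
          field_simp
    have h2 : Tendsto (fun n => t * ‖v‖ + 2 * S.C * A ^ 2 * t ^ 2 * σ n) atTop
        (𝓝 (t * ‖v‖ + 2 * S.C * A ^ 2 * t ^ 2 * 0)) :=
      tendsto_const_nhds.add (hσt.const_mul _)
    have h3 := ge_of_tendsto' h2 h1
    rwa [mul_zero, add_zero] at h3
  have hX0 : S.D (X 0) = 0 := by rw [OPS.zero' X, S.one]
  have hall : ∀ t, ‖S.D (X t)‖ ≤ |t| * ‖v‖ := by
    intro t
    rcases lt_trichotomy t 0 with ht | ht | ht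
    · have h1 : X t = (X (-t))⁻¹ := by rw [← OPS.neg', neg_neg]
      rw [h1, S.nrm_inv, abs_of_neg ht]
      exact hpos (-t) (by linarith)
    · rw [ht, hX0]; simp
    · rw [abs_of_pos ht]; exact hpos t ht
  have hest : ∀ t, 0 < t → ‖S.D (X t) - t • v‖ ≤ 2 * S.C * ‖v‖ ^ 2 * t ^ 2 :=
    hlim ‖v‖ (fun t => by rw [mul_comm]; exact hall t)
  refine ⟨v, hall, fun t => ?_⟩
  rcases lt_trichotomy t 0 with ht | ht | ht
  · have h1 : X t = (X (-t))⁻¹ := by rw [← OPS.neg', neg_neg]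
    have ht' : 0 < -t := by linarith
    have h2 := S.inv_est (X (-t))
    have h3 := hest (-t) ht'
    have h4 := hpos (-t) ht'
    rw [h1]
    have h5 : S.D (X (-t))⁻¹ - t • v = (S.D (X (-t))⁻¹ + S.D (X (-t))) -
        (S.D (X (-t)) - (-t) • v) := by module
    rw [h5]
    refine le_trans (norm_sub_le _ _) ?_
    have h6 : 2 * S.C * ‖S.D (X (-t))‖ ^ 2 ≤ 2 * S.C * (-t * ‖v‖) ^ 2 := by gcongr
    have h7 : 0 ≤ S.C * t ^ 2 * ‖v‖ ^ 2 := by positivity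
    nlinarith
  · rw [ht, hX0]; simp
  · refine le_trans (hest t ht) ?_
    have h7 : 0 ≤ S.C * t ^ 2 * ‖v‖ ^ 2 := by positivity
    nlinarith

/-- the derivative at `0` of `D ∘ X` -/
noncomputable def lam (X : OPS G) : E := (S.exists_lam X).choose

theorem lam_nrm (X : OPS G) (t : ℝ) : ‖S.D (X t)‖ ≤ |t| * ‖S.lam X‖ :=
  (S.exists_lam X).choose_spec.1 t

theorem lam_est (X : OPS G) (t : ℝ) :
    ‖S.D (X t) - t • S.lam X‖ ≤ 4 * S.C * t ^ 2 * ‖S.lam X‖ ^ 2 :=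
  (S.exists_lam X).choose_spec.2 t

theorem lam_tendsto (X : OPS G) {ι : Type*} {l : Filter ι} {t : ι → ℝ} (ht : ∀ i, t i ≠ 0)
    (h0 : Tendsto t l (𝓝 0)) :
    Tendsto (fun i => (t i)⁻¹ • S.D (X (t i))) l (𝓝 (S.lam X)) := by
  rw [tendsto_iff_norm_sub_tendsto_zero]
  have h1 : Tendsto (fun i => 4 * S.C * ‖S.lam X‖ ^ 2 * |t i|) l (𝓝 0) := by
    have h2 := (h0.abs).const_mul (4 * S.C * ‖S.lam X‖ ^ 2)
    simpa using h2
  refine squeeze_zero (fun i => norm_nonneg _) (fun i => ?_) h1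
  have h2 := S.lam_est X (t i)
  have h3 : (t i)⁻¹ • S.D (X (t i)) - S.lam X =
      (t i)⁻¹ • (S.D (X (t i)) - (t i) • S.lam X) := by
    rw [smul_sub, smul_smul, inv_mul_cancel₀ (ht i), one_smul]
  rw [h3, norm_smul, norm_inv, Real.norm_eq_abs, inv_mul_le_iff₀ (abs_pos.mpr (ht i))]
  refine le_trans h2 (le_of_eq ?_)
  rw [← sq_abs (t i)]
  ring

theorem lam_eq_of_est (X : OPS G) {v : E} {K : ℝ}
    (h : ∀ t : ℝ, 0 < t → t ≤ 1 → ‖S.D (X t) - t • v‖ ≤ K * t ^ 2) : S.lam X = v := by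
  have hC0 : 0 < S.C := S.C_pos
  obtain ⟨M, hM⟩ : ∃ M : ℝ, M = 4 * S.C * ‖S.lam X‖ ^ 2 + |K| := ⟨_, rfl⟩
  have hM0 : 0 ≤ M := by rw [hM]; positivity
  have h1 : ∀ t : ℝ, 0 < t → t ≤ 1 → ‖S.lam X - v‖ ≤ M * t := by
    intro t ht ht1
    have e1 := S.lam_est X t
    have e2 := h t ht ht1
    have e3 : t • (S.lam X - v) = (S.D (X t) - t • v) - (S.D (X t) - t • S.lam X) := by module
    have e4 : ‖t • (S.lam X - v)‖ ≤ K * t ^ 2 + 4 * S.C * t ^ 2 * ‖S.lam X‖ ^ 2 := by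
      rw [e3]
      exact le_trans (norm_sub_le _ _) (add_le_add e2 e1)
    rw [norm_smul, Real.norm_of_nonneg ht.le] at e4
    have e5 : K * t ^ 2 ≤ |K| * t ^ 2 := by
      have := le_abs_self K
      gcongr
    have e6 : t * ‖S.lam X - v‖ ≤ t * (M * t) := by
      rw [hM]
      nlinarith
    exact le_of_mul_le_mul_left e6 ht
  have h2 : ‖S.lam X - v‖ ≤ 0 := by
    refine le_of_forall_pos_le_add (fun ε hε => ?_)
    have hm : 0 < min 1 (ε / (M + 1)) := lt_min one_pos (by positivity)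
    have h3 := h1 (min 1 (ε / (M + 1))) hm (min_le_left _ _)
    have h4 : min 1 (ε / (M + 1)) ≤ ε / (M + 1) := min_le_right _ _
    rw [le_div_iff₀ (by positivity)] at h4
    nlinarith
  have h3 : ‖S.lam X - v‖ = 0 := le_antisymm h2 (norm_nonneg _)
  exact sub_eq_zero.mp (norm_eq_zero.mp h3)

theorem lam_scale (X : OPS G) (c : ℝ) : S.lam (X.scale c) = c • S.lam X := by
  refine S.lam_eq_of_est (X.scale c) (K := 4 * S.C * c ^ 2 * ‖S.lam X‖ ^ 2) ?_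
  intro t _ _
  have h1 := S.lam_est X (c * t)
  have h2 : t • c • S.lam X = (c * t) • S.lam X := by rw [smul_smul, mul_comm]
  rw [OPS.scale_apply, h2]
  refine le_trans h1 (le_of_eq ?_)
  ring

end Pool.Agent.GY.Gl
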