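import Pool.Agent.GY.DefsB

/-!
# GY.OpsOps (diff 1): elementary facts on one-parameter subgroups
-/

open Topology Filter Set

namespace Pool.Agent.GY.OPS

variable {G : Type*} [Group G] [TopologicalSpace G] [IsTopologicalGroup G] (X : OPS G)

theorem zero' : X 0 = 1 := by
  have h := X.add 0 0
  rw [add_zero] at h
  have h2 : X.toFun 0 * X.toFun 0 = X.toFun 0 * 1 := by rw [mul_one]; exact h.symm
  exact mul_left_cancel h2

theorem neg' (t : ℝ) : X (-t) = (X t)⁻¹ := by
  apply eq_inv_of_mul_eq_one_left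
  have h := X.add (-t) t
  rw [neg_add_cancel] at h
  rw [← h]
  exact X.zero'

theorem natmul (n : ℕ) (t : ℝ) : X (n * t) = X t ^ n := by
  induction n with
  | zero =>
    rw [Nat.cast_zero, zero_mul, pow_zero]
    exact X.zero'
  | succ n ih =>
    have e : ((n + 1 : ℕ) : ℝ) * t = n * t + t := by push_cast; ring
    rw [e, pow_succ, ← ih]
    exact X.add _ _

theorem intmul (n : ℤ) (t : ℝ) : X (n * t) = X t ^ n := by
  obtain ⟨k, rfl | rfl⟩ := n.eq_nat_or_neg
  · rw [Int.cast_natCast, zpow_natCast]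
    exact X.natmul k t
  · rw [Int.cast_neg, Int.cast_natCast, neg_mul, zpow_neg, zpow_natCast, X.neg', X.natmul]

/-- `t ↦ X (c t)` -/
def scale (c : ℝ) : OPS G :=
  ⟨fun t => X (c * t), X.cont.comp (continuous_const.mul continuous_id),
    fun s t => by rw [mul_add]; exact X.add _ _⟩

/-- conjugate -/
def conj (g : G) : OPS G :=
  ⟨fun t => g * X t * g⁻¹, (continuous_const.mul X.cont).mul continuous_const,
    fun s t => by simp only [X.add]; group⟩

theorem scale_apply (c t : ℝ) : (X.scale c) t = X (c * t) := rfl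

theorem conj_apply (g : G) (t : ℝ) : (X.conj g) t = g * X t * g⁻¹ := rfl

theorem ext' {X Y : OPS G} (h : ∀ t, X t = Y t) : X = Y := by
  obtain ⟨f, hf, hf'⟩ := X
  obtain ⟨g, hg, hg'⟩ := Y
  have : f = g := funext h
  subst this
  rfl

end Pool.Agent.GY.OPS
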