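import Pool.Agent.GY.ProdEst
import Pool.Agent.GY.OpsOps

/-!
# GY.OpsLin (diff 2): `‖D (X t)‖ ≤ A |t|`

Let `ε = 1/(64 C)`.  By continuity there is `t₀ > 0` with `‖D (X s)‖ ≤ ε` for `|s| ≤ t₀`.
Let `0 < t ≤ t₀`, `a = ‖D (X t)‖ ≤ ε`.  Claim `n a ≤ 2 ε` for all `n` with `n t ≤ t₀`: induction: if `n a ≤ 2 ε`
and `(n+1) t ≤ t₀`, then `s = (n+1) a ≤ 3 ε`, and `pow_est'` gives `s ≤ ‖D (X ((n+1) t))‖ + 2 C s² ≤ ε + 2 C s · 3ε`
`≤ ε + s/2` hence `s ≤ 2 ε`.   With `n = ⌊t₀/t⌋ ≥ t₀/(2t)`: `a ≤ 4 ε t/t₀`.  So `‖D (X t)‖ ≤ A t` for `0 < t ≤ t₀`; for general `t > 0`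
write `t = n (t/n)` with `t/n ≤ t₀` (`nrm_pow_le`); negative `t`: `nrm_inv`.
-/

open Topology Filter Set

namespace Pool.Agent.GY.Gl

variable {G E : Type*} [Group G] [TopologicalSpace G] [IsTopologicalGroup G]
  [NormedAddCommGroup E] [NormedSpace ℝ E] (S : Gl G E)

theorem ops_lin (X : OPS G) : ∃ A : ℝ, 0 ≤ A ∧ ∀ t, ‖S.D (X t)‖ ≤ A * |t| := by
  have hC := S.hC
  have hC0 : 0 < S.C := S.C_pos
  set ε : ℝ := 1 / (64 * S.C) with hε
  have hε0 : 0 < ε := by positivity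
  have hCε : S.C * ε = 1 / 64 := by rw [hε]; field_simp
  have hcont : Continuous (fun t : ℝ => ‖S.D (X t)‖) := (S.cont.comp X.cont).norm
  have h0 : ‖S.D (X 0)‖ = 0 := by rw [OPS.zero' X, S.one, norm_zero]
  obtain ⟨t₀, ht₀, hball⟩ : ∃ t₀ : ℝ, 0 < t₀ ∧ ∀ s, |s| ≤ t₀ → ‖S.D (X s)‖ ≤ ε := by
    have h1 : ∀ᶠ s in 𝓝 (0:ℝ), ‖S.D (X s)‖ < ε := by
      have h2 := hcont.tendsto 0
      rw [h0] at h2
      exact h2.eventually_lt_const hε0
    obtain ⟨δ, hδ, h2⟩ := Metric.eventually_nhds_iff.mp h1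
    refine ⟨δ/2, by linarith, fun s hs => (h2 ?_).le⟩
    rw [Real.dist_eq, sub_zero]; linarith
  have key : ∀ t, 0 < t → t ≤ t₀ → ∀ n : ℕ, (n:ℝ) * t ≤ t₀ →
      (n:ℝ) * ‖S.D (X t)‖ ≤ 2 * ε := by
    intro t ht htt n
    induction n with
    | zero => intro _; simp only [Nat.cast_zero, zero_mul]; positivity
    | succ n ih =>
      intro hn
      have hn' : ((n:ℝ) + 1) * t ≤ t₀ := by push_cast at hn; exact hn
      have h1 := ih (by nlinarith)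
      have h2 := hball t (by rw [abs_of_pos ht]; exact htt)
      have h3 := S.pow_est' (X t) (n+1)
      rw [← OPS.natmul] at h3
      have h4 := hball (((n+1 : ℕ):ℝ) * t) (by rw [abs_of_nonneg (by positivity)]; exact hn)
      have h5 : ‖(((n+1:ℕ)):ℝ) • S.D (X t)‖ = ((n:ℝ)+1) * ‖S.D (X t)‖ := by
        rw [norm_smul, Real.norm_of_nonneg (by positivity)]; push_cast; ring
      have h6 : ‖(((n+1:ℕ)):ℝ) • S.D (X t)‖ ≤ ‖S.D (X (((n+1 : ℕ):ℝ) * t))‖ +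
          ‖S.D (X (((n+1 : ℕ):ℝ) * t)) - (((n+1:ℕ)):ℝ) • S.D (X t)‖ := by
        have h7 := norm_sub_le (S.D (X (((n+1 : ℕ):ℝ) * t)))
          (S.D (X (((n+1 : ℕ):ℝ) * t)) - (((n+1:ℕ)):ℝ) • S.D (X t))
        rw [sub_sub_cancel] at h7
        exact h7
      rw [h5] at h6
      push_cast at h3 h4 h6 ⊢
      set a := ‖S.D (X t)‖ with ha
      have ha0 : 0 ≤ a := norm_nonneg _
      set s := ((n:ℝ)+1) * a with hs
      have hs0 : 0 ≤ s := by positivity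
      have hs3 : s ≤ 3 * ε := by rw [hs]; nlinarith
      have h8 : 2 * S.C * s ^ 2 ≤ 3 / 32 * s := by
        have : 2 * S.C * s ^ 2 = S.C * s * s * 2 := by ring
        rw [this]
        have h9 : S.C * s ≤ 3 / 64 := by nlinarith
        nlinarith
      linarith
  refine ⟨4 * ε / t₀, by positivity, ?_⟩
  have small : ∀ t, 0 < t → t ≤ t₀ → ‖S.D (X t)‖ ≤ 4 * ε / t₀ * t := by
    intro t ht htt
    have hx : 1 ≤ t₀ / t := by rw [le_div_iff₀ ht]; linarith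
    have hfl : t₀ / t / 2 ≤ (⌊t₀ / t⌋₊ : ℝ) := by
      have h1 : t₀ / t < ⌊t₀ / t⌋₊ + 1 := Nat.lt_floor_add_one _
      have h2 : (1:ℝ) ≤ ⌊t₀ / t⌋₊ := by
        have : 1 ≤ ⌊t₀ / t⌋₊ := Nat.le_floor (by simpa using hx)
        exact_mod_cast this
      linarith
    have hk := key t ht htt ⌊t₀ / t⌋₊ (by
      have h1 : (⌊t₀ / t⌋₊ : ℝ) ≤ t₀ / t := Nat.floor_le (by positivity)
      calc (⌊t₀ / t⌋₊ : ℝ) * t ≤ t₀ / t * t := by nlinarith
        _ = t₀ := by field_simp)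
    have h3 : t₀ / t / 2 * ‖S.D (X t)‖ ≤ 2 * ε :=
      le_trans (mul_le_mul_of_nonneg_right hfl (norm_nonneg _)) hk
    have h4 : t₀ * ‖S.D (X t)‖ ≤ 4 * ε * t := by
      have h5 : t₀ / t / 2 * ‖S.D (X t)‖ = t₀ * ‖S.D (X t)‖ / (2 * t) := by field_simp
      rw [h5, div_le_iff₀ (by positivity)] at h3
      linarith
    have h6 : 4 * ε / t₀ * t = 4 * ε * t / t₀ := by ring
    rw [h6, le_div_iff₀ ht₀]
    linarith
  have pos : ∀ t, 0 < t → ‖S.D (X t)‖ ≤ 4 * ε / t₀ * t := by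
    intro t ht
    obtain ⟨n, hn⟩ := exists_nat_gt (t / t₀)
    have hn0 : 0 < (n:ℝ) := lt_of_le_of_lt (by positivity) hn
    have h1 : t / n ≤ t₀ := by
      rw [div_le_iff₀ hn0]
      rw [div_lt_iff₀ ht₀] at hn
      linarith
    have h2 := small (t / n) (by positivity) h1
    have h3 : X t = (X (t / n)) ^ n := by
      rw [← OPS.natmul]
      congr 1
      field_simp
    rw [h3]
    calc ‖S.D ((X (t / n)) ^ n)‖ ≤ n * ‖S.D (X (t / n))‖ := S.nrm_pow_le _ n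
      _ ≤ n * (4 * ε / t₀ * (t / n)) := by gcongr
      _ = 4 * ε / t₀ * t := by field_simp
  intro t
  rcases lt_trichotomy t 0 with ht | ht | ht
  · have h1 : X t = (X (-t))⁻¹ := by rw [← OPS.neg', neg_neg]
    rw [h1, S.nrm_inv, abs_of_neg ht]
    exact pos (-t) (by linarith)
  · rw [ht, h0]; simp
  · rw [abs_of_pos ht]; exact pos t ht

end Pool.Agent.GY.Gl
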