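import Pool.Agent.GY.PWop

/-!
# GY.PWeig (diff 2): a finite dimensional invariant subspace separating `x₀` from `1` (Peter-Weyl, step 2)

Choose an open symmetric neighbourhood `V` of `1` with `x₀ ∉ V V`, and a continuous `φ ≥ 0` with support in `V`,
`φ 1 > 0`, `φ z⁻¹ = φ z` (take `ψ` from Urysohn and `φ z = ψ z * ψ z⁻¹`).  `K` from `pw_op`.  Take `f = φ` (as element of `L²`).
`x ↦ ∫ φ(x⁻¹ y) φ(y) dy` is continuous, positive at `1` and zero at `x₀⁻¹`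
(`φ(x₀ y) ≠ 0` and `φ y ≠ 0` imply `x₀ ∈ V V`).  So `K f` and `tau x₀ (K f)` have continuous representatives with different values
at `1`, hence are different in `L²` (`μ` is positive on open sets).
If `tau x₀ g = g` for all `g` in the eigenspaces `E_l` of `K` with `l ≠ 0`, then `tau x₀ (K g) = K g` for all `g` in all eigenspaces, whose
span is dense (`ContinuousLinearMap.orthogonalComplement_iSup_eigenspaces_eq_bot`), so for all `g`: contradiction.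
So there are `l ≠ 0` and `g ∈ E_l` with `tau x₀ g ≠ g`; `E_l` is finite dimensional
(`ContinuousLinearMap.finite_dimensional_eigenspace`) and invariant under all `tau x` (they commute with `K`).
-/

open Topology Filter Set MeasureTheory

namespace Pool.Agent.GY

variable {H : Type*} [Group H] [TopologicalSpace H] [IsTopologicalGroup H] [CompactSpace H]
  [T2Space H] [MeasurableSpace H] [BorelSpace H]
  (μ : Measure H) [IsProbabilityMeasure μ] [μ.IsMulLeftInvariant] [μ.Regular]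
  [μ.IsOpenPosMeasure]

omit [CompactSpace H] [MeasurableSpace H] [BorelSpace H] in
theorem PWeig_nbhd (x₀ : H) (hx : x₀ ≠ 1) :
    ∃ V : Set H, IsOpen V ∧ (1 : H) ∈ V ∧ ∀ a ∈ V, ∀ b ∈ V, a * b ≠ x₀ := by
  have h1 : Tendsto (fun p : H × H => p.1 * p.2) (𝓝 (1, 1)) (𝓝 (1 * 1)) :=
    (continuous_fst.mul continuous_snd).tendsto (1, 1)
  have h2 : ({x₀}ᶜ : Set H) ∈ 𝓝 ((1 : H) * 1) := by
    rw [mul_one]
    exact isOpen_compl_singleton.mem_nhds (by simpa using hx.symm)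
  have h3 := h1 h2
  rw [Filter.mem_map, nhds_prod_eq, Filter.mem_prod_iff] at h3
  obtain ⟨t1, ht1, t2, ht2, h4⟩ := h3
  obtain ⟨V, hV, hVo, hV1⟩ := mem_nhds_iff.mp (Filter.inter_mem ht1 ht2)
  refine ⟨V, hVo, hV1, ?_⟩
  intro a ha b hb hab
  have := h4 (show (a, b) ∈ t1 ×ˢ t2 from ⟨(hV ha).1, (hV hb).2⟩)
  simp only [Set.mem_preimage, Set.mem_compl_iff, Set.mem_singleton_iff] at this
  exact this hab

omit [MeasurableSpace H] [BorelSpace H] in
theorem PWeig_phi (x₀ : H) (hx : x₀ ≠ 1) : ∃ φ : C(H, ℝ), (∀ z, φ z⁻¹ = φ z) ∧ (∀ z, 0 ≤ φ z) ∧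
    φ 1 = 1 ∧ ∀ y, φ (x₀ * y) * φ y = 0 := by
  obtain ⟨V, hVo, hV1, hV⟩ := PWeig_nbhd x₀ hx
  have hd : Disjoint (Vᶜ : Set H) ({1} : Set H) := by
    rw [Set.disjoint_singleton_right]
    simpa using hV1
  obtain ⟨ψ, h0, h1, h01⟩ := exists_continuous_zero_one_of_isClosed hVo.isClosed_compl
    isClosed_singleton hd
  refine ⟨⟨fun z => ψ z * ψ z⁻¹, by fun_prop⟩, ?_, ?_, ?_, ?_⟩
  · intro z
    simp only [ContinuousMap.coe_mk, inv_inv]
    ring
  · intro z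
    exact mul_nonneg (h01 z).1 (h01 _).1
  · have : ψ 1 = 1 := h1 rfl
    simp only [ContinuousMap.coe_mk, inv_one, this, mul_one]
  · intro y
    simp only [ContinuousMap.coe_mk]
    by_cases ha : x₀ * y ∈ V
    · by_cases hb : y⁻¹ ∈ V
      · exfalso
        refine hV _ ha _ hb ?_
        group
      · have : ψ y⁻¹ = 0 := h0 hb
        rw [this]
        ring
    · have : ψ (x₀ * y) = 0 := h0 ha
      rw [this]
      ring

omit [IsTopologicalGroup H] [Group H] [T2Space H] [μ.IsMulLeftInvariant] [μ.Regular] in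
theorem PWeig_pos (φ : C(H, ℝ)) (h0 : ∀ z, 0 ≤ φ z) (x₁ : H) (h1 : φ x₁ = 1) :
    0 < ∫ y, φ y * φ y ∂μ := by
  have hc : Continuous (fun y => φ y * φ y) := by fun_prop
  have hi : Integrable (fun y => φ y * φ y) μ :=
    hc.integrable_of_hasCompactSupport (HasCompactSupport.of_compactSpace _)
  refine hc.integral_pos_of_hasCompactSupport_nonneg_nonzero
    (HasCompactSupport.of_compactSpace _) ?_ (x := x₁) ?_
  · intro y
    exact mul_nonneg (h0 y) (h0 y)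
  · simp [h1]

/-- the convolution operator moves some function -/
theorem PWeig_move (x₀ : H) (φ : C(H, ℝ)) (h0 : ∀ z, 0 ≤ φ z) (h1 : φ 1 = 1)
    (hz : ∀ y, φ (x₀ * y) * φ y = 0) (K : Lp ℂ 2 μ →L[ℂ] Lp ℂ 2 μ)
    (hK : ∀ f : Lp ℂ 2 μ, K f =ᵐ[μ] fun x => ∫ y, ((φ (x⁻¹ * y) : ℝ) : ℂ) * f y ∂μ) :
    ∃ f : Lp ℂ 2 μ, tau μ x₀ (K f) ≠ K f := by
  let φc : C(H, ℂ) := ⟨fun z => ((φ z : ℝ) : ℂ), by fun_prop⟩
  let f : Lp ℂ 2 μ := ContinuousMap.toLp 2 μ ℂ φc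
  have hf : f =ᵐ[μ] φc := ContinuousMap.coeFn_toLp (p := 2) (𝕜 := ℂ) μ φc
  let F : H → ℂ := fun x => ∫ y, φc (x⁻¹ * y) * f y ∂μ
  have hF : Continuous F := PWop_cont μ φc f
  have hFe : ∀ x, F x = ((∫ y, φ (x⁻¹ * y) * φ y ∂μ : ℝ) : ℂ) := by
    intro x
    have h5 : ((∫ y, φ (x⁻¹ * y) * φ y ∂μ : ℝ) : ℂ) =
        ∫ y, ((φ (x⁻¹ * y) * φ y : ℝ) : ℂ) ∂μ := integral_ofReal.symm
    rw [h5]
    refine integral_congr_ae ?_
    filter_upwards [hf] with y hy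
    rw [hy]
    simp [φc]
  refine ⟨f, fun heq => ?_⟩
  have e1 := tau_ae μ x₀ (K f)
  have e2 := (measurePreserving_mul_left μ x₀⁻¹).quasiMeasurePreserving.ae_eq_comp (hK f)
  have e3 : (fun z => F (x₀⁻¹ * z)) =ᵐ[μ] F := by
    rw [heq] at e1
    filter_upwards [e1, e2, hK f] with z z1 z2 z3
    simp only [Function.comp_apply] at z2
    change (∫ y, ((φ ((x₀⁻¹ * z)⁻¹ * y) : ℝ) : ℂ) * f y ∂μ) =
      ∫ y, ((φ (z⁻¹ * y) : ℝ) : ℂ) * f y ∂μ
    rw [← z2, ← z3, ← z1]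
  have hcont : Continuous (fun z => F (x₀⁻¹ * z)) := hF.comp (continuous_const.mul continuous_id)
  have e4 := (hcont.ae_eq_iff_eq μ hF).mp e3
  have e5 := congrFun e4 1
  simp only [mul_one] at e5
  rw [hFe, hFe, inv_inv] at e5
  have e6 := Complex.ofReal_injective e5
  simp only [hz, integral_zero, inv_one, one_mul] at e6
  have := PWeig_pos μ φ h0 1 h1
  rw [← e6] at this
  exact lt_irrefl _ this

theorem pw_eig (x₀ : H) (hx : x₀ ≠ 1) :
    ∃ E : Submodule ℂ (Lp ℂ 2 μ), FiniteDimensional ℂ E ∧ (∀ x, ∀ f ∈ E, tau μ x f ∈ E) ∧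
      ∃ f ∈ E, tau μ x₀ f ≠ f := by
  obtain ⟨φ, hs, h0, h1, hz⟩ := PWeig_phi x₀ hx
  obtain ⟨K, hKc, hKs, hKe, hKt⟩ := pw_op μ ⟨fun z => ((φ z : ℝ) : ℂ), by fun_prop⟩ (by
    intro z
    simp only [ContinuousMap.coe_mk, hs]
    exact (Complex.conj_ofReal _).symm)
  obtain ⟨f₀, hf₀⟩ := PWeig_move μ x₀ φ h0 h1 hz K hKe
  by_contra hcon
  push Not at hcon
  apply hf₀
  have hinv : ∀ l : ℂ, l ≠ 0 → ∀ g ∈ Module.End.eigenspace (K : Lp ℂ 2 μ →ₗ[ℂ] Lp ℂ 2 μ) l,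
      tau μ x₀ g = g := by
    intro l hl g hg
    refine hcon (Module.End.eigenspace (K : Lp ℂ 2 μ →ₗ[ℂ] Lp ℂ 2 μ) l)
      (ContinuousLinearMap.finite_dimensional_eigenspace hKc l hl) ?_ g hg
    intro x f hf
    rw [Module.End.mem_eigenspace_iff] at hf ⊢
    change K (tau μ x f) = l • tau μ x f
    rw [hKt]
    have : K f = l • f := hf
    rw [this, map_smul]
  let T : Lp ℂ 2 μ →L[ℂ] Lp ℂ 2 μ := (tau μ x₀).toContinuousLinearMap.comp K - K
  have hT : ∀ g, T g = tau μ x₀ (K g) - K g := fun g => rfl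
  have hle : (⨆ l, Module.End.eigenspace (K : Lp ℂ 2 μ →ₗ[ℂ] Lp ℂ 2 μ) l) ≤
      LinearMap.ker (T : Lp ℂ 2 μ →ₗ[ℂ] Lp ℂ 2 μ) := by
    refine iSup_le fun l => ?_
    intro g hg
    rw [LinearMap.mem_ker]
    change T g = 0
    rw [hT]
    have hg' : K g = l • g := by
      rw [Module.End.mem_eigenspace_iff] at hg
      exact hg
    by_cases hl : l = 0
    · rw [hg', hl, zero_smul, map_zero, sub_zero]
    · rw [hg', map_smul, hinv l hl g hg, sub_self]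
  have hbot := ContinuousLinearMap.orthogonalComplement_iSup_eigenspaces_eq_bot hKc hKs
  have hbot2 : (LinearMap.ker (T : Lp ℂ 2 μ →ₗ[ℂ] Lp ℂ 2 μ))ᗮ = ⊥ := by
    rw [eq_bot_iff, ← hbot]
    exact Submodule.orthogonal_le hle
  have hcl : IsClosed ((LinearMap.ker (T : Lp ℂ 2 μ →ₗ[ℂ] Lp ℂ 2 μ) : Submodule ℂ (Lp ℂ 2 μ)) :
      Set (Lp ℂ 2 μ)) := T.isClosed_ker
  have : CompleteSpace (LinearMap.ker (T : Lp ℂ 2 μ →ₗ[ℂ] Lp ℂ 2 μ)) :=
    hcl.completeSpace_coe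
  have htop := Submodule.orthogonal_eq_bot_iff.mp hbot2
  have hmem : f₀ ∈ LinearMap.ker (T : Lp ℂ 2 μ →ₗ[ℂ] Lp ℂ 2 μ) := by
    rw [htop]; trivial
  have h5 : T f₀ = 0 := hmem
  rw [hT] at h5
  exact sub_eq_zero.mp h5

omit [T2Space H] [μ.IsOpenPosMeasure] in
/-- strong continuity -/
theorem tau_cont (f : Lp ℂ 2 μ) : Continuous (fun x => tau μ x f) := by
  have hg : Continuous (fun x : H => (⟨fun y => x⁻¹ * y, by fun_prop⟩ : C(H, H))) := by
    exact (ContinuousMap.curry ⟨fun p : H × H => p.1⁻¹ * p.2, by fun_prop⟩).continuous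
  exact Continuous.compMeasurePreservingLp (p := 2) (μ := μ) (ν := μ) (f := fun _ => f)
    continuous_const hg (fun x => measurePreserving_mul_left μ x⁻¹) (by norm_num)

end Pool.Agent.GY
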