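import Pool.Agent.GY.Defs
import Pool.Agent.GY.PWrep
import Pool.Agent.GY.BanNSS

/-!
# GY.PWnss (diff 2): a compact group has small normal subgroups `N` with `H/N` NSS

For every `x ∉ interior U` there is `π_x` with `π_x x ≠ 1` (`pw_rep`); the set where `π_x ≠ 1` is open; `(interior U)ᶜ` is
compact: finitely many `π_i` with `⋂ ker π_i ⊆ interior U`.  `N = ⋂ ker π_i`, `O = ⋂ {y | ‖π_i y - 1‖ < 1/2}` open
(with any fixed norm making `Matrix` a normed algebra, e.g. `Matrix.linftyOpNormedAlgebra` (local instances)).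
A subgroup `L ⊆ O` has `‖π_i y ^ n - 1‖ = ‖π_i (y^n) - 1‖ ≤ 1/2` for all `n`, so `π_i y = 1` (`ban_nss`).
`O` contains `N`.
-/

open Topology Filter Set

namespace Pool.Agent.GY

private theorem PWnss_norm {n : ℕ} (M : Matrix (Fin n) (Fin n) ℂ) {δ : ℝ} (hδ : 0 ≤ δ)
    (h : ∀ i j, ‖M i j‖ ≤ δ) :
    @norm _ Matrix.linftyOpNormedRing.toNorm M ≤ n * δ := by
  letI : NormedRing (Matrix (Fin n) (Fin n) ℂ) := Matrix.linftyOpNormedRing
  have h1 := Matrix.linfty_opNorm_def M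
  change ‖M‖ ≤ n * δ
  have h0 : (0 : ℝ) ≤ n * δ := by positivity
  rw [h1]
  have h2 : (Finset.univ.sup fun i : Fin n => ∑ j : Fin n, ‖M i j‖₊) ≤ (⟨n * δ, h0⟩ : NNReal) := by
    apply Finset.sup_le
    intro i _
    refine NNReal.coe_le_coe.1 ?_
    rw [NNReal.coe_sum]
    calc ∑ j : Fin n, ‖M i j‖ ≤ ∑ _j : Fin n, δ := Finset.sum_le_sum fun j _ => h i j
      _ = n * δ := by simp
  exact_mod_cast h2

private theorem PWnss_one {n : ℕ} (M : Matrix (Fin n) (Fin n) ℂ)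
    (h : ∀ k : ℕ, ∀ i j, ‖(M ^ k - 1) i j‖ ≤ 1 / (2 * (n + 1))) : M = 1 := by
  letI : NormedRing (Matrix (Fin n) (Fin n) ℂ) := Matrix.linftyOpNormedRing
  letI : NormedAlgebra ℝ (Matrix (Fin n) (Fin n) ℂ) := Matrix.linftyOpNormedAlgebra
  refine ban_nss (c := 1 / 2) (by norm_num) fun k => ?_
  refine (PWnss_norm (M ^ k - 1) (by positivity) (h k)).trans ?_
  have hn : (0 : ℝ) ≤ n := Nat.cast_nonneg n
  rw [mul_one_div, div_le_div_iff₀ (by positivity) (by norm_num)]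
  nlinarith

theorem pw_nss {H : Type*} [Group H] [TopologicalSpace H] [IsTopologicalGroup H] [CompactSpace H]
    [T2Space H] {U : Set H} (hU : U ∈ 𝓝 (1 : H)) :
    ∃ N : Subgroup H, N.Normal ∧ IsClosed (N : Set H) ∧ (N : Set H) ⊆ U ∧
      ∃ O : Set H, IsOpen O ∧ (N : Set H) ⊆ O ∧ ∀ L : Subgroup H, (L : Set H) ⊆ O → L ≤ N := by
  have hK : IsCompact (interior U)ᶜ := isOpen_interior.isClosed_compl.isCompact
  have hne : ∀ x ∈ (interior U)ᶜ, x ≠ 1 := by
    rintro x hx rfl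
    exact hx (mem_interior_iff_mem_nhds.2 hU)
  choose n π hπc _ hπ1 using fun (x : H) (hx : x ∈ (interior U)ᶜ) => pw_rep x (hne x hx)
  obtain ⟨t, ht⟩ := hK.elim_nhds_subcover' (fun x hx => {y | π x hx y ≠ 1}) (by
    intro x hx
    have ho : IsOpen {y | π x hx y ≠ 1} := isOpen_ne_fun (hπc x hx) continuous_const
    exact ho.mem_nhds (hπ1 x hx))
  set N : Subgroup H := ⨅ i : {i : ((interior U)ᶜ : Set H) // i ∈ t}, (π i.1.1 i.1.2).ker with hN
  have hmemN : ∀ y, y ∈ N ↔ ∀ i ∈ t, π i.1 i.2 y = 1 := by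
    intro y
    rw [hN, Subgroup.mem_iInf]
    constructor
    · intro h i hi
      exact (MonoidHom.mem_ker).1 (h ⟨i, hi⟩)
    · intro h i
      exact (MonoidHom.mem_ker).2 (h i.1 i.2)
  refine ⟨N, ?_, ?_, ?_, ?_⟩
  · exact Subgroup.normal_iInf_normal fun i => inferInstance
  · have : (N : Set H) = ⋂ i ∈ t, {y | π (i : ((interior U)ᶜ : Set H)).1 i.2 y = 1} := by
      ext y
      simp only [SetLike.mem_coe, hmemN, mem_iInter, mem_setOf_eq]
    rw [this]
    exact isClosed_biInter fun i _ => isClosed_eq (hπc _ _) continuous_const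
  · intro y hy
    by_contra hyU
    have hy' : y ∈ (interior U)ᶜ := fun h => hyU (interior_subset h)
    obtain ⟨i, hi, hyi⟩ := mem_iUnion₂.1 (ht hy')
    exact hyi ((hmemN y).1 hy i hi)
  · refine ⟨⋂ i ∈ t, {y | ∀ a b, ‖(π (i : ((interior U)ᶜ : Set H)).1 i.2 y - 1) a b‖
        < 1 / (2 * ((n i.1 i.2 : ℝ) + 1))}, ?_, ?_, ?_⟩
    · refine t.finite_toSet.isOpen_biInter fun i _ => ?_
      simp only [setOf_forall]
      refine isOpen_iInter_of_finite fun a => isOpen_iInter_of_finite fun b => ?_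
      refine isOpen_lt ?_ continuous_const
      refine Continuous.norm ?_
      have h1 : Continuous fun y => π i.1 i.2 y - 1 := (hπc _ _).sub continuous_const
      exact h1.matrix_elem a b
    · intro y hy
      refine mem_iInter₂.2 fun i hi a b => ?_
      rw [(hmemN y).1 hy i hi, sub_self]
      simp only [Matrix.zero_apply, norm_zero]
      positivity
    · intro L hL y hy
      rw [hmemN]
      intro i hi
      apply PWnss_one
      intro k a b
      have h1 := hL (L.pow_mem hy k)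
      have h2 := mem_iInter₂.1 h1 i hi a b
      rw [map_pow] at h2
      exact h2.le

/-- the same for a compact subgroup of a topological group -/
theorem pw_nss_sub {G : Type*} [Group G] [TopologicalSpace G] [IsTopologicalGroup G] [T2Space G]
    {S : Subgroup G} (hS : IsCompact (S : Set G)) {U : Set G} (hU : U ∈ 𝓝 (1 : G)) :
    ∃ N : Subgroup G, N ≤ S ∧ (∀ s ∈ S, ∀ n ∈ N, s * n * s⁻¹ ∈ N) ∧ IsCompact (N : Set G) ∧
      (N : Set G) ⊆ U ∧
      ∃ O : Set G, IsOpen O ∧ (N : Set G) ⊆ O ∧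
        ∀ L : Subgroup G, L ≤ S → (L : Set G) ⊆ O → L ≤ N := by
  haveI : CompactSpace S := isCompact_iff_compactSpace.1 hS
  have hU' : ((↑) : S → G) ⁻¹' U ∈ 𝓝 (1 : S) :=
    continuous_subtype_val.continuousAt.preimage_mem_nhds (by simpa using hU)
  obtain ⟨N', hN'n, hN'c, hN'U, O', hO', hN'O, hL'⟩ := pw_nss hU'
  obtain ⟨O, hO, rfl⟩ := isOpen_induced_iff.1 hO'
  refine ⟨N'.map S.subtype, ?_, ?_, ?_, ?_, O, hO, ?_, ?_⟩
  · rintro _ ⟨x, _, rfl⟩
    exact x.2
  · rintro s hs _ ⟨x, hx, rfl⟩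
    exact ⟨⟨s, hs⟩ * x * ⟨s, hs⟩⁻¹, hN'n.conj_mem x hx ⟨s, hs⟩, rfl⟩
  · have : ((N'.map S.subtype : Subgroup G) : Set G) = ((↑) : S → G) '' (N' : Set S) := rfl
    rw [this]
    exact hN'c.isCompact.image continuous_subtype_val
  · rintro _ ⟨x, hx, rfl⟩
    exact hN'U hx
  · rintro _ ⟨x, hx, rfl⟩
    exact hN'O hx
  · intro L hLS hLO x hx
    have h1 : L.subgroupOf S ≤ N' := by
      apply hL'
      intro y hy
      exact hLO (Subgroup.mem_subgroupOf.1 hy)
    exact ⟨⟨x, hLS hx⟩, h1 (Subgroup.mem_subgroupOf.2 hx), rfl⟩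

end Pool.Agent.GY
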