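import Mathlib

/-!
# GY.PWop (diff 2): convolution operators on `L²` of a compact group (Peter-Weyl, step 1)

`tau x f (y) = f (x⁻¹ y)`, a unitary representation of `H` on `L²(H)`.
`K f (x) = ∫ φ(x⁻¹ y) f(y) dμ(y)`, `φ` continuous with `φ(z⁻¹) = conj (φ z)`.
* bounded and compact: for `f ∈ L²` the function `x ↦ ∫ φ(x⁻¹ y) f(y) dμ(y)` is continuous and bounded by
  `‖φ‖ ‖f‖₂` (`μ` probability); `K` factors through `C(H)`, and the image of the unit ball in `C(H)` is bounded and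
  equicontinuous (`x ↦ φ(x⁻¹ ·) ∈ C(H)` is continuous), so relatively compact by Arzela-Ascoli.  The file
  `Pool/Agent/CAM/PWa.lean` (landed) contains the complete proof for the kernel `φ(x y⁻¹)` and a commutative group:
  copy and adapt it (lemmas `PWa_int`, `PWa_bound`, `PWa_ker`, `PWa_K`, `PWa_K_compact`, `PWa_main`; the commutativity
  is not used there).
* symmetric: Fubini (the function `φ(x⁻¹ y) f(y) conj g(x)` is integrable on `H × H`; a way around non-second-countable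
  product measurability: it is enough to prove `⟪K f, g⟫ = ⟪f, K g⟫` for continuous `f, g` (dense in `L²`,
  `ContinuousMap.toLp_denseRange`), and for continuous functions with compact support on `H × H`
  `MeasureTheory.integral_integral_swap_of_hasCompactSupport` applies).
* commutes with `tau a`: left invariance of `μ`.
-/

open Topology Filter Set MeasureTheory

namespace Pool.Agent.GY

variable {H : Type*} [Group H] [TopologicalSpace H] [IsTopologicalGroup H] [CompactSpace H]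
  [T2Space H] [MeasurableSpace H] [BorelSpace H]

/-- left translation on `L²` -/
noncomputable def tau (μ : Measure H) [μ.IsMulLeftInvariant] (x : H) :
    Lp ℂ 2 μ →ₗᵢ[ℂ] Lp ℂ 2 μ :=
  Lp.compMeasurePreservingₗᵢ ℂ (fun y => x⁻¹ * y) (measurePreserving_mul_left μ x⁻¹)

variable (μ : Measure H) [IsProbabilityMeasure μ] [μ.IsMulLeftInvariant] [μ.Regular]

omit [T2Space H] [IsProbabilityMeasure μ] [μ.Regular] in
theorem tau_ae (x : H) (f : Lp ℂ 2 μ) : tau μ x f =ᵐ[μ] fun y => f (x⁻¹ * y) := by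
  exact Lp.coeFn_compMeasurePreserving f (measurePreserving_mul_left μ x⁻¹)

omit [T2Space H] [IsProbabilityMeasure μ] [μ.Regular] in
theorem tau_mul (x y : H) (f : Lp ℂ 2 μ) : tau μ (x * y) f = tau μ x (tau μ y f) := by
  apply Lp.ext
  have h1 := tau_ae μ (x * y) f
  have h2 := tau_ae μ x (tau μ y f)
  have h3 := (measurePreserving_mul_left μ x⁻¹).quasiMeasurePreserving.ae_eq_comp (tau_ae μ y f)
  filter_upwards [h1, h2, h3] with z e1 e2 e3
  rw [e1, e2]
  simp only [Function.comp_apply] at e3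
  rw [e3, mul_inv_rev, mul_assoc]

omit [T2Space H] [IsProbabilityMeasure μ] [μ.Regular] in
theorem tau_one (f : Lp ℂ 2 μ) : tau μ 1 f = f := by
  apply Lp.ext
  filter_upwards [tau_ae μ 1 f] with z e1
  rw [e1, inv_one, one_mul]

section

omit [T2Space H] [μ.IsMulLeftInvariant] [μ.Regular]

theorem PWop_int (g : C(H, ℂ)) (f : Lp ℂ 2 μ) : Integrable (fun y => g y * f y) μ := by
  have hf : Integrable (f : H → ℂ) μ := (Lp.memLp f).integrable (by norm_num)
  refine Integrable.bdd_mul (c := ‖g‖) hf g.continuous.aestronglyMeasurable ?_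
  exact Eventually.of_forall fun x => g.norm_coe_le_norm x

theorem PWop_bound (g : C(H, ℂ)) (f : Lp ℂ 2 μ) :
    ‖∫ y, g y * f y ∂μ‖ ≤ ‖g‖ * ‖f‖ := by
  have hfm := Lp.memLp f
  have hf : Integrable (f : H → ℂ) μ := hfm.integrable (by norm_num)
  have h1 : ∫ y, ‖f y‖ ∂μ ≤ ‖f‖ := by
    rw [Lp.norm_def, integral_norm_eq_lintegral_enorm hfm.1, ← eLpNorm_one_eq_lintegral_enorm]
    exact ENNReal.toReal_mono hfm.2.ne
      (eLpNorm_le_eLpNorm_of_exponent_le (by norm_num) hfm.1)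
  calc ‖∫ y, g y * f y ∂μ‖ ≤ ∫ y, ‖g y * f y‖ ∂μ := norm_integral_le_integral_norm _
    _ ≤ ∫ y, ‖g‖ * ‖f y‖ ∂μ := by
        refine integral_mono (PWop_int μ g f).norm (hf.norm.const_mul _) fun y => ?_
        simp only [norm_mul]
        exact mul_le_mul_of_nonneg_right (g.norm_coe_le_norm y) (norm_nonneg _)
    _ = ‖g‖ * ∫ y, ‖f y‖ ∂μ := integral_const_mul _ _
    _ ≤ ‖g‖ * ‖f‖ := mul_le_mul_of_nonneg_left h1 (norm_nonneg _)

theorem PWop_sub (g h : C(H, ℂ)) (f : Lp ℂ 2 μ) :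
    ‖(∫ y, g y * f y ∂μ) - ∫ y, h y * f y ∂μ‖ ≤ ‖g - h‖ * ‖f‖ := by
  rw [← integral_sub (PWop_int μ g f) (PWop_int μ h f)]
  have : (fun y => g y * f y - h y * f y) = fun y => (g - h) y * f y := by
    funext y
    simp [sub_mul]
  rw [this]
  exact PWop_bound μ (g - h) f

/-- the kernel as a continuous family of continuous functions -/
noncomputable def PWop_ker (φ : C(H, ℂ)) : C(H, C(H, ℂ)) :=
  ContinuousMap.curry ⟨fun p : H × H => φ (p.1⁻¹ * p.2), by fun_prop⟩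

omit [CompactSpace H] [MeasurableSpace H] [BorelSpace H] in
theorem PWop_ker_apply (φ : C(H, ℂ)) (x y : H) : PWop_ker φ x y = φ (x⁻¹ * y) := rfl

theorem PWop_cont (φ : C(H, ℂ)) (f : Lp ℂ 2 μ) :
    Continuous (fun x => ∫ y, φ (x⁻¹ * y) * f y ∂μ) := by
  have h : LipschitzWith (Real.toNNReal ‖f‖) (fun g : C(H, ℂ) => ∫ y, g y * f y ∂μ) := by
    refine LipschitzWith.of_dist_le_mul fun g h => ?_
    rw [dist_eq_norm, dist_eq_norm, Real.coe_toNNReal _ (norm_nonneg _), mul_comm]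
    exact PWop_sub μ g h f
  exact h.continuous.comp (PWop_ker φ).continuous

omit [MeasurableSpace H] [BorelSpace H] in
theorem PWop_kernorm (φ : C(H, ℂ)) (x : H) : ‖PWop_ker φ x‖ ≤ ‖φ‖ := by
  rw [ContinuousMap.norm_le _ (norm_nonneg _)]
  intro y
  exact φ.norm_coe_le_norm _

/-- the convolution operator into the continuous functions -/
noncomputable def PWop_K (φ : C(H, ℂ)) : Lp ℂ 2 μ →L[ℂ] BoundedContinuousFunction H ℂ :=
  LinearMap.mkContinuous
    { toFun := fun f => BoundedContinuousFunction.mkOfCompact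
        ⟨fun x => ∫ y, φ (x⁻¹ * y) * f y ∂μ, PWop_cont μ φ f⟩
      map_add' := fun f g => by
        ext x
        simp only [BoundedContinuousFunction.mkOfCompact_apply, ContinuousMap.coe_mk,
          BoundedContinuousFunction.coe_add, Pi.add_apply]
        have h := integral_add (PWop_int μ (PWop_ker φ x) f) (PWop_int μ (PWop_ker φ x) g)
        simp only [PWop_ker_apply] at h
        rw [← h]
        refine integral_congr_ae ?_
        filter_upwards [Lp.coeFn_add f g] with y hy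
        rw [hy, Pi.add_apply, mul_add]
      map_smul' := fun c f => by
        ext x
        simp only [BoundedContinuousFunction.mkOfCompact_apply, ContinuousMap.coe_mk,
          BoundedContinuousFunction.coe_smul, RingHom.id_apply, smul_eq_mul]
        rw [← integral_const_mul]
        refine integral_congr_ae ?_
        filter_upwards [Lp.coeFn_smul c f] with y hy
        rw [hy, Pi.smul_apply, smul_eq_mul]
        ring }
    ‖φ‖ (fun f => by
      rw [BoundedContinuousFunction.norm_le (by positivity)]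
      intro x
      exact (PWop_bound μ (PWop_ker φ x) f).trans
        (mul_le_mul_of_nonneg_right (PWop_kernorm φ x) (norm_nonneg _)))

theorem PWop_K_apply (φ : C(H, ℂ)) (f : Lp ℂ 2 μ) (x : H) :
    PWop_K μ φ f x = ∫ y, φ (x⁻¹ * y) * f y ∂μ := rfl

theorem PWop_K_bound (φ : C(H, ℂ)) (f : Lp ℂ 2 μ) (x : H) :
    ‖PWop_K μ φ f x‖ ≤ ‖φ‖ * ‖f‖ :=
  (PWop_bound μ (PWop_ker φ x) f).trans
        (mul_le_mul_of_nonneg_right (PWop_kernorm φ x) (norm_nonneg _))

theorem PWop_K_compact (φ : C(H, ℂ)) : IsCompactOperator (PWop_K μ φ) := by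
  have key := (isCompactOperator_iff_isCompact_closure_image_closedBall
    (PWop_K μ φ : Lp ℂ 2 μ →ₗ[ℂ] BoundedContinuousFunction H ℂ) (r := 1) one_pos)
  refine key.mpr ?_
  refine BoundedContinuousFunction.arzela_ascoli (Metric.closedBall (0 : ℂ) ‖φ‖)
    (isCompact_closedBall _ _) _ ?_ ?_
  · rintro g x ⟨f, hf, rfl⟩
    rw [mem_closedBall_zero_iff] at hf ⊢
    exact (PWop_K_bound μ φ f x).trans (mul_le_of_le_one_right (norm_nonneg _) hf)
  · intro x₀
    rw [Metric.equicontinuousAt_iff_right]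
    intro ε hε
    have hc := (PWop_ker φ).continuous.tendsto x₀
    rw [Metric.tendsto_nhds] at hc
    filter_upwards [hc ε hε] with x hx
    rintro ⟨g, f, hf, rfl⟩
    rw [mem_closedBall_zero_iff] at hf
    rw [dist_comm, dist_eq_norm]
    rw [dist_eq_norm] at hx
    refine lt_of_le_of_lt ?_ hx
    exact (PWop_sub μ (PWop_ker φ x) (PWop_ker φ x₀) f).trans
      (mul_le_of_le_one_right (norm_nonneg _) hf)

/-- the convolution operator on `L²` -/
noncomputable def PWop_L (φ : C(H, ℂ)) : Lp ℂ 2 μ →L[ℂ] Lp ℂ 2 μ :=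
  (BoundedContinuousFunction.toLp 2 μ ℂ).comp (PWop_K μ φ)

theorem PWop_L_compact (φ : C(H, ℂ)) : IsCompactOperator (PWop_L μ φ) :=
  (PWop_K_compact μ φ).clm_comp (BoundedContinuousFunction.toLp 2 μ ℂ)

theorem PWop_L_ae (φ : C(H, ℂ)) (f : Lp ℂ 2 μ) :
    PWop_L μ φ f =ᵐ[μ] fun x => ∫ y, φ (x⁻¹ * y) * f y ∂μ :=
  BoundedContinuousFunction.coeFn_toLp 2 μ ℂ (PWop_K μ φ f)

end

omit [T2Space H] [μ.IsMulLeftInvariant] in
theorem PWop_symm_cont (φ : C(H, ℂ)) (hφ : ∀ z, φ z⁻¹ = star (φ z)) (f g : C(H, ℂ)) :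
    inner ℂ (PWop_L μ φ (ContinuousMap.toLp 2 μ ℂ f)) (ContinuousMap.toLp 2 μ ℂ g) =
      inner ℂ (ContinuousMap.toLp 2 μ ℂ f) (PWop_L μ φ (ContinuousMap.toLp 2 μ ℂ g)) := by
  rw [L2.inner_def, L2.inner_def]
  have hf := ContinuousMap.coeFn_toLp (p := 2) (𝕜 := ℂ) μ f
  have hg := ContinuousMap.coeFn_toLp (p := 2) (𝕜 := ℂ) μ g
  have e1 : ∀ x, ∫ y, φ (x⁻¹ * y) * (ContinuousMap.toLp 2 μ ℂ f : Lp ℂ 2 μ) y ∂μ
      = ∫ y, φ (x⁻¹ * y) * f y ∂μ := by
    intro x
    refine integral_congr_ae ?_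
    filter_upwards [hf] with y hy
    rw [hy]
  have e2 : ∀ x, ∫ y, φ (x⁻¹ * y) * (ContinuousMap.toLp 2 μ ℂ g : Lp ℂ 2 μ) y ∂μ
      = ∫ y, φ (x⁻¹ * y) * g y ∂μ := by
    intro x
    refine integral_congr_ae ?_
    filter_upwards [hg] with y hy
    rw [hy]
  have l1 : ∫ a, inner ℂ (PWop_L μ φ (ContinuousMap.toLp 2 μ ℂ f) a)
        ((ContinuousMap.toLp 2 μ ℂ g : Lp ℂ 2 μ) a) ∂μ
      = ∫ x, ∫ y, g x * star (φ (x⁻¹ * y) * f y) ∂μ ∂μ := by
    refine integral_congr_ae ?_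
    filter_upwards [PWop_L_ae μ φ (ContinuousMap.toLp 2 μ ℂ f), hg] with x hx hy
    rw [hx, hy, e1]
    rw [integral_const_mul]
    have : ∫ y, star (φ (x⁻¹ * y) * f y) ∂μ = star (∫ y, φ (x⁻¹ * y) * f y ∂μ) := integral_conj
    rw [this]
    rfl
  have l2 : ∫ a, inner ℂ ((ContinuousMap.toLp 2 μ ℂ f : Lp ℂ 2 μ) a)
        (PWop_L μ φ (ContinuousMap.toLp 2 μ ℂ g) a) ∂μ
      = ∫ y, ∫ x, g x * star (φ (x⁻¹ * y) * f y) ∂μ ∂μ := by
    refine integral_congr_ae ?_
    filter_upwards [PWop_L_ae μ φ (ContinuousMap.toLp 2 μ ℂ g), hf] with y hy hx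
    rw [hx, hy, e2]
    have : inner ℂ (f y) (∫ x, φ (y⁻¹ * x) * g x ∂μ) = (∫ x, φ (y⁻¹ * x) * g x ∂μ) * star (f y) := rfl
    rw [this, ← integral_mul_const]
    congr 1
    funext x
    have h3 := hφ (x⁻¹ * y)
    rw [mul_inv_rev, inv_inv] at h3
    rw [h3, star_mul]
    ring
  rw [l1, l2]
  refine integral_integral_swap_of_hasCompactSupport (f := fun x y => g x * star (φ (x⁻¹ * y) * f y))
    ?_ (HasCompactSupport.of_compactSpace _)
  fun_prop

omit [T2Space H] [μ.IsMulLeftInvariant] in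
theorem PWop_symm (φ : C(H, ℂ)) (hφ : ∀ z, φ z⁻¹ = star (φ z)) (f g : Lp ℂ 2 μ) :
    inner ℂ (PWop_L μ φ f) g = inner ℂ f (PWop_L μ φ g) := by
  have hd := ContinuousMap.toLp_denseRange (p := 2) (𝕜 := ℂ) (E := ℂ) μ (by norm_num)
  refine hd.induction_on₂ (p := fun f g => inner ℂ (PWop_L μ φ f) g = inner ℂ f (PWop_L μ φ g))
    ?_ ?_ f g
  · exact isClosed_eq (by fun_prop) (by fun_prop)
  · intro f g
    exact PWop_symm_cont μ φ hφ f g

omit [T2Space H] [μ.Regular] in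
theorem PWop_comm (φ : C(H, ℂ)) (x : H) (f : Lp ℂ 2 μ) :
    PWop_L μ φ (tau μ x f) = tau μ x (PWop_L μ φ f) := by
  apply Lp.ext
  have h1 := PWop_L_ae μ φ (tau μ x f)
  have h2 := tau_ae μ x (PWop_L μ φ f)
  have h3 := (measurePreserving_mul_left μ x⁻¹).quasiMeasurePreserving.ae_eq_comp
    (PWop_L_ae μ φ f)
  filter_upwards [h1, h2, h3] with z e1 e2 e3
  rw [e1, e2]
  simp only [Function.comp_apply] at e3
  rw [e3]
  have h4 : ∫ y, φ (z⁻¹ * y) * (tau μ x f : Lp ℂ 2 μ) y ∂μ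
      = ∫ y, φ (z⁻¹ * y) * f (x⁻¹ * y) ∂μ := by
    refine integral_congr_ae ?_
    filter_upwards [tau_ae μ x f] with y hy
    rw [hy]
  rw [h4, ← integral_mul_left_eq_self (fun y => φ ((x⁻¹ * z)⁻¹ * y) * f y) x⁻¹]
  congr 1
  funext y
  congr 2
  group

omit [T2Space H] in
theorem pw_op (φ : C(H, ℂ)) (hφ : ∀ z, φ z⁻¹ = star (φ z)) :
    ∃ K : Lp ℂ 2 μ →L[ℂ] Lp ℂ 2 μ, IsCompactOperator K ∧
      (K : Lp ℂ 2 μ →ₗ[ℂ] Lp ℂ 2 μ).IsSymmetric ∧
      (∀ f : Lp ℂ 2 μ, K f =ᵐ[μ] fun x => ∫ y, φ (x⁻¹ * y) * f y ∂μ) ∧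
      (∀ x f, K (tau μ x f) = tau μ x (K f)) := by
  exact ⟨PWop_L μ φ, PWop_L_compact μ φ, PWop_symm μ φ hφ, PWop_L_ae μ φ, PWop_comm μ φ⟩

end Pool.Agent.GY
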