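import Pool.Agent.GY.Defs

/-!
# GY.Ph1 (diff 2): the function `φ x = ∫ θ (x u) θ (u) du`

`θ` continuous, values in `[0,1]`, support in the compact set `S`; `μ` a left Haar measure.
* integrable: continuous with compact support (`Continuous.integrable_of_hasCompactSupport`); the integrand
  `u ↦ θ (x u) θ (y u)` vanishes outside `x⁻¹ S`.
* `ph_sq`: expand the square, `∫ θ (x u)^2 = ∫ θ (u)^2` (`integral_mul_left_eq_self`).
* `ph_le`, `ph_first`: the integrand is bounded by `1`, resp. `a`, and vanishes outside `S`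
  (`MeasureTheory.norm_setIntegral_le_of_norm_le_const`, after `setIntegral_eq_integral_of_forall_compl_eq_zero`).
* `ph_cont`: for `x₀` and `ε`: `θ` is right/left uniformly continuous; here `|θ (x u) - θ (x₀ u)|` for `u ∈ S`:
  continuity of `(x, u) ↦ θ (x u)` on a neighbourhood of `{x₀} × S` (tube lemma), or
  `continuous_parametric_integral_of_continuous` on the compact set `S`.
-/

open Topology Filter Set MeasureTheory
open scoped ENNReal Pointwise

namespace Pool.Agent.GY

variable {G : Type*} [Group G] [TopologicalSpace G] [IsTopologicalGroup G]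
  [LocallyCompactSpace G] [T2Space G] [MeasurableSpace G] [BorelSpace G]
  {μ : Measure G} [μ.IsHaarMeasure] {S : Set G} {θ : G → ℝ}

theorem reg_hcs (hS : IsCompact S) (hθ : Reg S θ) : HasCompactSupport θ :=
  HasCompactSupport.intro hS fun x hx => by_contra fun h => hx (hθ.supp x h)

private theorem reg_hcs' (hS : IsCompact S) (hθ : Reg S θ) (x : G) :
    HasCompactSupport (fun u => θ (x * u)) :=
  (reg_hcs hS hθ).comp_homeomorph (Homeomorph.mulLeft x)

private theorem reg_cont' (hθ : Reg S θ) (x : G) : Continuous (fun u => θ (x * u)) :=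
  hθ.cont.comp (continuous_const.mul continuous_id)

theorem reg_int (hS : IsCompact S) (hθ : Reg S θ) (x : G) :
    Integrable (fun u => θ (x * u)) μ :=
  (reg_cont' hθ x).integrable_of_hasCompactSupport (reg_hcs' hS hθ x)

theorem ph_int (hS : IsCompact S) (hθ : Reg S θ) (x y : G) :
    Integrable (fun u => θ (x * u) * θ (y * u)) μ :=
  ((reg_cont' hθ x).mul (reg_cont' hθ y)).integrable_of_hasCompactSupport
    ((reg_hcs' hS hθ x).mul_right)

theorem ph_sq (hS : IsCompact S) (hθ : Reg S θ) (x : G) :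
    Ph μ θ 1 - Ph μ θ x = (1 / 2) * ∫ u, (θ (x * u) - θ u) ^ 2 ∂μ := by
  have i1 : Integrable (fun u => θ (x * u) * θ (x * u)) μ := ph_int hS hθ x x
  have i2 : Integrable (fun u => θ (x * u) * θ u) μ := by
    have := ph_int (μ := μ) hS hθ x 1
    simpa using this
  have i3 : Integrable (fun u => θ u * θ u) μ := by
    have := ph_int (μ := μ) hS hθ 1 1
    simpa using this
  have e1 : ∀ u, (θ (x * u) - θ u) ^ 2 =
      θ (x * u) * θ (x * u) - 2 * (θ (x * u) * θ u) + θ u * θ u := fun u => by ring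
  have e2 : ∫ u, θ (x * u) * θ (x * u) ∂μ = ∫ u, θ u * θ u ∂μ :=
    integral_mul_left_eq_self (fun u => θ u * θ u) x
  simp_rw [e1]
  have i4 : Integrable (fun u => θ (x * u) * θ (x * u) - 2 * (θ (x * u) * θ u)) μ :=
    i1.sub (i2.const_mul 2)
  rw [integral_add i4 i3, integral_sub i1 (i2.const_mul 2), integral_const_mul, e2]
  simp only [Ph, one_mul]
  ring

private theorem ph_set (hS : IsCompact S) (f : G → ℝ) (hf : ∀ u, u ∉ S → f u = 0) {C : ℝ}
    (hC : ∀ u, |f u| ≤ C) : |∫ u, f u ∂μ| ≤ C * (μ S).toReal := by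
  rw [← setIntegral_eq_integral_of_forall_compl_eq_zero hf, ← Real.norm_eq_abs]
  exact norm_setIntegral_le_of_norm_le_const hS.measure_lt_top (fun u _ => by
    rw [Real.norm_eq_abs]
    exact hC u)

theorem ph_le (hS : IsCompact S) (hθ : Reg S θ) (x : G) : |Ph μ θ x| ≤ (μ S).toReal := by
  have h1 := ph_set (μ := μ) hS (fun u => θ (x * u) * θ u) (fun u hu => by
    have : θ u = 0 := by_contra fun h => hu (hθ.supp u h)
    simp [this]) (C := 1) (fun u => by
    rw [abs_of_nonneg (mul_nonneg (hθ.nonneg _) (hθ.nonneg _))]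
    exact mul_le_one₀ (hθ.le_one _) (hθ.nonneg _) (hθ.le_one _))
  rw [one_mul] at h1
  exact h1

theorem ph_supp (hθ : Reg S θ) {x : G} (h : Ph μ θ x ≠ 0) : x ∈ S * S⁻¹ := by
  by_contra hx
  apply h
  have h1 : ∀ u, θ (x * u) * θ u = 0 := by
    intro u
    by_contra hu
    have h2 := mul_ne_zero_iff.1 hu
    apply hx
    have h3 := Set.mul_mem_mul (hθ.supp _ h2.1) (Set.inv_mem_inv.2 (hθ.supp _ h2.2))
    simpa using h3
  simp [Ph, h1]

theorem ph_cont (hS : IsCompact S) (hθ : Reg S θ) : Continuous (Ph μ θ) := by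
  rw [← continuousOn_univ]
  refine continuousOn_integral_of_compact_support (f := fun x u => θ (x * u) * θ u) hS ?_ ?_
  · refine Continuous.continuousOn ?_
    exact (hθ.cont.comp (continuous_fst.mul continuous_snd)).mul (hθ.cont.comp continuous_snd)
  · intro p u _ hu
    have : θ u = 0 := by_contra fun h => hu (hθ.supp u h)
    simp [this]

theorem ph_hcs (hS : IsCompact S) (hθ : Reg S θ) : HasCompactSupport (Ph μ θ) :=
  HasCompactSupport.intro (hS.mul hS.inv) fun x hx => by_contra fun h => hx (ph_supp hθ h)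

theorem ph_first (hS : IsCompact S) (hθ : Reg S θ) {a : ℝ} {g : G}
    (h : ∀ z, |θ (g * z) - θ z| ≤ a) (x : G) :
    |Ph μ θ (g * x) - Ph μ θ x| ≤ a * (μ S).toReal := by
  have i1 : Integrable (fun u => θ (g * x * u) * θ u) μ := by
    have := ph_int (μ := μ) hS hθ (g * x) 1
    simpa using this
  have i2 : Integrable (fun u => θ (x * u) * θ u) μ := by
    have := ph_int (μ := μ) hS hθ x 1
    simpa using this
  have e1 : Ph μ θ (g * x) - Ph μ θ x = ∫ u, (θ (g * x * u) * θ u - θ (x * u) * θ u) ∂μ := by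
    rw [integral_sub i1 i2]
    rfl
  rw [e1]
  refine ph_set hS _ (fun u hu => ?_) (fun u => ?_)
  · have : θ u = 0 := by_contra fun h => hu (hθ.supp u h)
    simp [this]
  · rw [← sub_mul, abs_mul, abs_of_nonneg (hθ.nonneg u), mul_assoc]
    have h1 := h (x * u)
    have h0 : 0 ≤ a := (abs_nonneg _).trans h1
    calc |θ (g * (x * u)) - θ (x * u)| * θ u ≤ a * 1 :=
          mul_le_mul h1 (hθ.le_one u) (hθ.nonneg u) h0
      _ = a := mul_one a

end Pool.Agent.GY
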