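import Mathlib

/-!
# GY.Riem (diff 1-2): Riemann sums of a continuous function converge

Uniform continuity on `[0,1]`: `∫_0^1 f = ∑_{i<n} ∫_{i/n}^{(i+1)/n} f`, and `‖∫_{i/n}^{(i+1)/n} (f - f (i/n))‖ ≤ ε/n` (`intervalIntegral.norm_integral_le_of_norm_le_const`,
`intervalIntegral.sum_integral_adjacent_intervals`).
-/

open Topology Filter Set

namespace Pool.Agent.GY

theorem riemann_sum {F : Type*} [NormedAddCommGroup F] [NormedSpace ℝ F] [CompleteSpace F]
    (f : ℝ → F) (hf : Continuous f) :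
    Tendsto (fun n : ℕ => (n : ℝ)⁻¹ • ∑ i ∈ Finset.range n, f (i / n)) atTop
      (𝓝 (∫ t in (0 : ℝ)..1, f t)) := by
  rw [Metric.tendsto_atTop]
  intro ε hε
  have hu := isCompact_Icc.uniformContinuousOn_of_continuous
    (hf.continuousOn (s := Set.Icc (0 : ℝ) 1))
  rw [Metric.uniformContinuousOn_iff] at hu
  obtain ⟨δ, hδ, hu⟩ := hu (ε / 2) (half_pos hε)
  obtain ⟨N, hN⟩ := exists_nat_gt (1 / δ)
  refine ⟨N + 1, fun n hn => ?_⟩
  have hn0 : (0 : ℝ) < n := by
    have : 0 < n := by omega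
    exact_mod_cast this
  have hNn : (N : ℝ) < n := by
    have : N < n := by omega
    exact_mod_cast this
  have hδn : 1 / (n : ℝ) < δ := by
    rw [div_lt_iff₀ hn0]
    have h1 : 1 / δ < n := lt_trans hN hNn
    rw [div_lt_iff₀ hδ] at h1
    linarith
  have hint : ∫ t in (0 : ℝ)..1, f t =
      ∑ k ∈ Finset.range n, ∫ t in ((k : ℝ) / n)..(((k + 1 : ℕ) : ℝ) / n), f t := by
    rw [intervalIntegral.sum_integral_adjacent_intervals (a := fun k : ℕ => (k : ℝ) / n)
      (fun k _ => hf.intervalIntegrable _ _)]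
    simp only [Nat.cast_zero, zero_div]
    rw [div_self hn0.ne']
  have hsum : (n : ℝ)⁻¹ • ∑ i ∈ Finset.range n, f (i / n) =
      ∑ k ∈ Finset.range n, ∫ _t in ((k : ℝ) / n)..(((k + 1 : ℕ) : ℝ) / n), f (k / n) := by
    rw [Finset.smul_sum]
    apply Finset.sum_congr rfl
    intro k _
    rw [intervalIntegral.integral_const]
    congr 1
    push_cast
    field_simp
    ring
  rw [hint, hsum, dist_eq_norm, ← Finset.sum_sub_distrib]
  refine lt_of_le_of_lt (norm_sum_le _ _) ?_
  have hterm : ∀ k ∈ Finset.range n,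
      ‖(∫ _t in ((k : ℝ) / n)..(((k + 1 : ℕ) : ℝ) / n), f (k / n)) -
        ∫ t in ((k : ℝ) / n)..(((k + 1 : ℕ) : ℝ) / n), f t‖ ≤ ε / 2 * (1 / n) := by
    intro k hk
    rw [Finset.mem_range] at hk
    have hkn : (k : ℝ) + 1 ≤ n := by exact_mod_cast hk
    have hle : (k : ℝ) / n ≤ ((k + 1 : ℕ) : ℝ) / n := by
      push_cast
      gcongr
      linarith
    rw [← intervalIntegral.integral_sub (intervalIntegrable_const)
      (hf.intervalIntegrable _ _)]
    have hlen : |((k + 1 : ℕ) : ℝ) / n - (k : ℝ) / n| = 1 / n := by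
      rw [abs_of_nonneg (sub_nonneg.2 hle)]
      push_cast
      field_simp
      ring
    rw [← hlen]
    apply intervalIntegral.norm_integral_le_of_norm_le_const
    intro t ht
    rw [Set.uIoc_of_le hle] at ht
    have ht1 : (k : ℝ) / n ≤ t := ht.1.le
    have ht2 : t ≤ ((k : ℝ) + 1) / n := by
      have := ht.2
      push_cast at this
      exact this
    have h0 : (0 : ℝ) ≤ (k : ℝ) / n := by positivity
    have h1 : ((k : ℝ) + 1) / n ≤ 1 := by
      rw [div_le_one hn0]; exact hkn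
    have hd : dist ((k : ℝ) / n) t < δ := by
      rw [Real.dist_eq, abs_sub_comm, abs_of_nonneg (by linarith)]
      have : ((k : ℝ) + 1) / n - (k : ℝ) / n = 1 / n := by
        field_simp
        ring
      linarith
    have hkk : (k : ℝ) / n ≤ 1 := le_trans (by gcongr; linarith) h1
    have := hu ((k : ℝ) / n) ⟨h0, hkk⟩ t ⟨le_trans h0 ht1, le_trans ht2 h1⟩ hd
    rw [dist_eq_norm] at this
    exact this.le
  refine lt_of_le_of_lt (Finset.sum_le_sum hterm) ?_
  rw [Finset.sum_const, Finset.card_range, nsmul_eq_mul]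
  have : (n : ℝ) * (ε / 2 * (1 / n)) = ε / 2 := by
    field_simp
  rw [this]
  exact half_lt_self hε

end Pool.Agent.GY
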