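import Pool.Agent.GY.Star
import Pool.Agent.GY.AdExp
import Pool.Agent.GY.Riem

/-!
# GY.PhiEst (diff 3): the derivative of the exponential map

Let `‖z‖, ‖u‖ ≤ s` (small) and `n ≥ 1`.  `star_est` with `x = (z+u)/n`, `y = -z/n`: `ex((z+u)/n) ex(-z/n) = ex(k_n)` with `‖k_n - u/n‖ ≤ K'/n²`, `K' = 60 C² ‖z+u‖ ‖z‖ ≤ 120 C² s²`.
So `ex((z+u)/n) = ex(k_n) ex(z/n)`, and by induction on `m`
`(ex k ex y)^m = ∏_{i<m} ex(Ad (ex (i y)) k) · ex (m y)` (list product over `List.range m`, `Ad_spec`; `y = z/n`).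
With `m = n`: `P := ex(z+u) ex(-z) = ∏_{i<n} ex(A_i k_n)`, `A_i = Ad (ex ((i/n) z)) = exp((i/n) ad z)` (`Ad_ex`), `‖A_i‖ ≤ 2` (`Ad_norm_le`, `2 C s ≤ 1`).
* `prod_est`: `‖D P - ∑ D (ex (A_i k_n))‖ ≤ 2 C (∑ ‖A_i k_n‖)² ≤ 2 C (2 n ‖k_n‖)²`, and `n ‖k_n‖ → ‖u‖`: limsup `≤ 8 C ‖u‖²`.
* `‖D (ex (A_i k_n)) - A_i k_n‖ ≤ 4 C (2 ‖k_n‖)²` (`ex_est`): the sum over `i < n` tends to `0`.
* `∑_{i<n} A_i k_n = (n⁻¹ ∑ A_i) (n k_n) → PhiOp (ad z) u` (`riemann_sum`, `n k_n → u`).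
So `‖D P - PhiOp (ad z) u‖ ≤ 8 C ‖u‖²`.  `P = ex k`, `k = lg P` (`exists_log`, `‖D P‖ ≤ ‖D (ex (z+u)) - D (ex z)‖ ≤ 2 ‖u‖`, by right invariance and `ex_upper`), `‖k‖ ≤ (4/3) 2 ‖u‖`,
`‖D (ex k) - k‖ ≤ 4 C ‖k‖² ≤ 32 C ‖u‖²`.  So `‖k - PhiOp (ad z) u‖ ≤ 40 C ‖u‖²`.
-/

open Topology Filter Set

namespace Pool.Agent.GY.Gl

variable {G E : Type*} [Group G] [TopologicalSpace G] [IsTopologicalGroup G]
  [NormedAddCommGroup E] [NormedSpace ℝ E] [CompleteSpace E] (S : Gl G E)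

theorem pow_mul_ex (k y : S.T) (m : ℕ) : (S.ex k * S.ex y) ^ m =
    ((List.range m).map (fun i : ℕ => S.ex (S.Ad (S.ex ((i : ℝ) • y)) k))).prod *
      S.ex ((m : ℝ) • y) := by
  induction m with
  | zero => simp [S.ex_zero]
  | succ m ih =>
    rw [pow_succ, ih, List.range_succ, List.map_append, List.prod_append]
    have h1 : S.ex (((m + 1 : ℕ) : ℝ) • y) = S.ex ((m : ℝ) • y) * S.ex y := by
      have h2 := S.ex_add y (m : ℝ) 1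
      rw [one_smul] at h2
      push_cast
      exact h2
    have h3 := S.Ad_spec (S.ex ((m : ℝ) • y)) k
    rw [h1]
    simp only [List.map_cons, List.map_nil, List.prod_cons, List.prod_nil, mul_one]
    rw [← h3]
    group

theorem PhiEst_sum {M : Type*} [AddCommMonoid M] (f : ℕ → M) (n : ℕ) :
    ((List.range n).map f).sum = ∑ i ∈ Finset.range n, f i := by
  induction n with
  | zero => simp
  | succ n ih =>
    rw [List.range_succ, List.map_append, List.sum_append, ih, Finset.sum_range_succ]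
    simp

theorem PhiEst_key (z u : S.T) (hz : ‖z‖ ≤ S.RR) (kk : ℕ → S.T) (K : ℝ)
    (hk : ∀ n : ℕ, ‖kk n - (n:ℝ)⁻¹ • u‖ ≤ K * ((n:ℝ)⁻¹) ^ 2) (P : G)
    (hP : ∀ n : ℕ, 0 < n → P = ((List.range n).map (fun i : ℕ =>
      S.ex (S.Ad (S.ex ((i:ℝ) • ((n:ℝ)⁻¹ • z))) (kk n)))).prod) :
    ‖S.D P - S.ι (PhiOp (S.ad z) u)‖ ≤ 8 * S.C * ‖u‖ ^ 2 := by
  have : CompleteSpace S.T := FiniteDimensional.complete ℝ S.T
  have hC0 := S.C_pos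
  have hR0 := S.RR_pos
  have hRr := S.RR_le_r
  have hCR := S.C_RR
  have hinv : Tendsto (fun n : ℕ => ((n:ℝ))⁻¹) atTop (𝓝 0) := tendsto_inv_atTop_nhds_zero_nat
  have l1 : Tendsto (fun n : ℕ => (n:ℝ) • kk n) atTop (𝓝 u) := by
    rw [tendsto_iff_norm_sub_tendsto_zero]
    have h1 : Tendsto (fun n : ℕ => K * ((n:ℝ))⁻¹) atTop (𝓝 0) := by
      simpa using hinv.const_mul K
    refine squeeze_zero' (Eventually.of_forall (fun _ => norm_nonneg _)) ?_ h1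
    filter_upwards [eventually_gt_atTop 0] with n hn
    have hn0 : (0:ℝ) < n := by exact_mod_cast hn
    have h2 : (n:ℝ) • kk n - u = (n:ℝ) • (kk n - (n:ℝ)⁻¹ • u) := by
      rw [smul_sub, smul_smul, mul_inv_cancel₀ hn0.ne', one_smul]
    rw [h2, norm_smul, Real.norm_of_nonneg hn0.le]
    calc (n:ℝ) * ‖kk n - (n:ℝ)⁻¹ • u‖ ≤ n * (K * ((n:ℝ)⁻¹)^2) := by gcongr; exact hk n
      _ = K * (n:ℝ)⁻¹ := by field_simp
  have l2 : Tendsto (fun n : ℕ => (n:ℝ) * ‖kk n‖) atTop (𝓝 ‖u‖) := by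
    refine l1.norm.congr (fun n => ?_)
    rw [norm_smul, Real.norm_of_nonneg (Nat.cast_nonneg n)]
  have l3 : Tendsto (fun n : ℕ => (n:ℝ) * ‖kk n‖^2) atTop (𝓝 0) := by
    have h1 : Tendsto (fun n : ℕ => ((n:ℝ) * ‖kk n‖)^2 * (n:ℝ)⁻¹) atTop (𝓝 (‖u‖^2 * 0)) :=
      (l2.pow 2).mul hinv
    rw [mul_zero] at h1
    refine h1.congr' ?_
    filter_upwards [eventually_gt_atTop 0] with n hn
    have hn0 : (n:ℝ) ≠ 0 := by positivity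
    field_simp
  have l4 : Tendsto (fun n : ℕ => ∑ i ∈ Finset.range n,
      S.Ad (S.ex ((i:ℝ) • ((n:ℝ)⁻¹ • z))) (kk n)) atTop (𝓝 (PhiOp (S.ad z) u)) := by
    have hexpc : Continuous (NormedSpace.exp : (S.T →L[ℝ] S.T) → (S.T →L[ℝ] S.T)) := by
      let _ : NormedAlgebra ℚ (S.T →L[ℝ] S.T) :=
        NormedAlgebra.restrictScalars ℚ ℝ (S.T →L[ℝ] S.T)
      exact NormedSpace.exp_continuous
    have h1 := riemann_sum (fun t : ℝ => NormedSpace.exp (t • S.ad z))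
      (hexpc.comp (continuous_id.smul continuous_const))
    have h2 : Tendsto (fun n : ℕ => ((n:ℝ)⁻¹ • ∑ i ∈ Finset.range n,
        NormedSpace.exp (((i:ℝ) / n) • S.ad z)) ((n:ℝ) • kk n)) atTop
        (𝓝 (PhiOp (S.ad z) u)) := by
      have h3 := (isBoundedBilinearMap_apply (𝕜 := ℝ) (E := S.T) (F := S.T)).continuous.tendsto
        ((∫ t in (0 : ℝ)..1, NormedSpace.exp (t • S.ad z)), u)
      exact h3.comp (h1.prodMk_nhds l1)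
    refine h2.congr' ?_
    filter_upwards [eventually_gt_atTop 0] with n hn
    have hn0 : (n:ℝ) ≠ 0 := by positivity
    rw [ContinuousLinearMap.smul_apply, ContinuousLinearMap.sum_apply]
    simp only [map_smul]
    rw [← Finset.smul_sum, smul_smul, inv_mul_cancel₀ hn0, one_smul]
    refine Finset.sum_congr rfl (fun i _ => ?_)
    rw [S.Ad_ex, map_smul, map_smul, smul_smul, div_eq_mul_inv]
  have hA : ∀ n i : ℕ, 0 < n → i < n →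
      ‖S.Ad (S.ex ((i:ℝ) • ((n:ℝ)⁻¹ • z))) (kk n)‖ ≤ 2 * ‖kk n‖ := by
    intro n i hn hi
    have hn0 : (0:ℝ) < n := by exact_mod_cast hn
    have hin : (i:ℝ) ≤ n := by exact_mod_cast hi.le
    have h1 : ‖(i:ℝ) • ((n:ℝ)⁻¹ • z)‖ ≤ S.RR := by
      rw [smul_smul, norm_smul, Real.norm_of_nonneg (by positivity), ← div_eq_mul_inv]
      have h2 : (i:ℝ) / n ≤ 1 := by rw [div_le_one hn0]; exact hin
      have h3 : 0 ≤ ‖z‖ := norm_nonneg _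
      nlinarith
    have h2 : ‖S.D (S.ex ((i:ℝ) • ((n:ℝ)⁻¹ • z)))‖ ≤ S.RR := le_trans (S.ex_nrm _) h1
    have h3 := S.Ad_norm_le (S.ex ((i:ℝ) • ((n:ℝ)⁻¹ • z))) (by linarith)
    have h4 : ‖S.Ad (S.ex ((i:ℝ) • ((n:ℝ)⁻¹ • z)))‖ ≤ 2 := by
      refine le_trans h3 ?_
      have h5 : S.C * ‖S.D (S.ex ((i:ℝ) • ((n:ℝ)⁻¹ • z)))‖ ≤ S.C * S.RR := by gcongr
      linarith
    refine le_trans (ContinuousLinearMap.le_opNorm _ _) ?_
    gcongr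
  have main : ∀ᶠ n : ℕ in atTop, ‖S.D P - S.ι (PhiOp (S.ad z) u)‖ ≤
      2 * S.C * (2 * ((n:ℝ) * ‖kk n‖)) ^ 2 + 16 * S.C * ((n:ℝ) * ‖kk n‖ ^ 2) +
      ‖(∑ i ∈ Finset.range n, S.Ad (S.ex ((i:ℝ) • ((n:ℝ)⁻¹ • z))) (kk n)) -
        PhiOp (S.ad z) u‖ := by
    filter_upwards [eventually_gt_atTop 0] with n hn
    obtain ⟨a, ha⟩ : ∃ a : ℕ → S.T, a = fun i : ℕ =>
      S.Ad (S.ex ((i:ℝ) • ((n:ℝ)⁻¹ • z))) (kk n) := ⟨_, rfl⟩
    have hai : ∀ i ∈ Finset.range n, ‖a i‖ ≤ 2 * ‖kk n‖ := by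
      intro i hi
      rw [ha]
      exact hA n i hn (Finset.mem_range.mp hi)
    have hPn : P = ((List.range n).map (fun i : ℕ => S.ex (a i))).prod := by
      rw [ha]; exact hP n hn
    have e1 := S.prod_est ((List.range n).map (fun i : ℕ => S.ex (a i)))
    rw [← hPn, List.map_map, List.map_map, PhiEst_sum, PhiEst_sum] at e1
    simp only [Function.comp] at e1
    have e2 : ∑ i ∈ Finset.range n, ‖S.D (S.ex (a i))‖ ≤ 2 * ((n:ℝ) * ‖kk n‖) := by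
      calc ∑ i ∈ Finset.range n, ‖S.D (S.ex (a i))‖ ≤ ∑ i ∈ Finset.range n, 2 * ‖kk n‖ :=
            Finset.sum_le_sum (fun i hi => le_trans (S.ex_nrm _) (hai i hi))
        _ = 2 * ((n:ℝ) * ‖kk n‖) := by
            rw [Finset.sum_const, Finset.card_range, nsmul_eq_mul]; ring
    have e3 : ‖∑ i ∈ Finset.range n, (S.D (S.ex (a i)) - S.ι (a i))‖ ≤
        16 * S.C * ((n:ℝ) * ‖kk n‖ ^ 2) := by
      calc ‖∑ i ∈ Finset.range n, (S.D (S.ex (a i)) - S.ι (a i))‖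
          ≤ ∑ i ∈ Finset.range n, ‖S.D (S.ex (a i)) - S.ι (a i)‖ := norm_sum_le _ _
        _ ≤ ∑ i ∈ Finset.range n, 4 * S.C * (2 * ‖kk n‖) ^ 2 := by
            refine Finset.sum_le_sum (fun i hi => le_trans (S.ex_est _) ?_)
            have := hai i hi
            gcongr
        _ = 16 * S.C * ((n:ℝ) * ‖kk n‖ ^ 2) := by
            rw [Finset.sum_const, Finset.card_range, nsmul_eq_mul]; ring
    have e4 : ‖S.ι (∑ i ∈ Finset.range n, a i) - S.ι (PhiOp (S.ad z) u)‖ =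
        ‖(∑ i ∈ Finset.range n, S.Ad (S.ex ((i:ℝ) • ((n:ℝ)⁻¹ • z))) (kk n)) -
        PhiOp (S.ad z) u‖ := by
      rw [← map_sub, S.norm_ι, ha]
    rw [← e4]
    have e5 : S.D P - S.ι (PhiOp (S.ad z) u) = (S.D P - ∑ i ∈ Finset.range n, S.D (S.ex (a i))) +
        ∑ i ∈ Finset.range n, (S.D (S.ex (a i)) - S.ι (a i)) +
        (S.ι (∑ i ∈ Finset.range n, a i) - S.ι (PhiOp (S.ad z) u)) := by
      rw [map_sum, Finset.sum_sub_distrib]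
      abel
    rw [e5]
    refine le_trans norm_add₃_le ?_
    have e6 : 2 * S.C * (∑ i ∈ Finset.range n, ‖S.D (S.ex (a i))‖) ^ 2 ≤
        2 * S.C * (2 * ((n:ℝ) * ‖kk n‖)) ^ 2 := by
      have h0 : 0 ≤ ∑ i ∈ Finset.range n, ‖S.D (S.ex (a i))‖ :=
        Finset.sum_nonneg (fun _ _ => norm_nonneg _)
      gcongr
    linarith
  have l5 : Tendsto (fun n : ℕ => 2 * S.C * (2 * ((n:ℝ) * ‖kk n‖)) ^ 2 +
      16 * S.C * ((n:ℝ) * ‖kk n‖ ^ 2) +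
      ‖(∑ i ∈ Finset.range n, S.Ad (S.ex ((i:ℝ) • ((n:ℝ)⁻¹ • z))) (kk n)) -
        PhiOp (S.ad z) u‖) atTop
      (𝓝 (2 * S.C * (2 * ‖u‖) ^ 2 + 16 * S.C * 0 + ‖PhiOp (S.ad z) u - PhiOp (S.ad z) u‖)) :=
    ((((l2.const_mul 2).pow 2).const_mul (2 * S.C)).add (l3.const_mul (16 * S.C))).add
      ((l4.sub tendsto_const_nhds).norm)
  have h6 := ge_of_tendsto l5 main
  rw [sub_self, norm_zero] at h6
  refine le_trans h6 (le_of_eq ?_)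
  ring

theorem phi_est : ∃ s : ℝ, 0 < s ∧ ∀ z u : S.T, ‖z‖ ≤ s → ‖u‖ ≤ s →
    ∃ k : S.T, ‖k‖ ≤ S.RR ∧ S.ex (z + u) = S.ex k * S.ex z ∧
      ‖k - PhiOp (S.ad z) u‖ ≤ 40 * S.C * ‖u‖ ^ 2 := by
  have hC0 := S.C_pos
  have hR0 := S.RR_pos
  obtain ⟨s₀, hs₀, hstar⟩ := S.star_est
  obtain ⟨δ, hδ, hlog⟩ := S.exists_log S.RR_pos
  obtain ⟨s, hs⟩ : ∃ s : ℝ, s = min (s₀ / 2) (min (S.RR / 2) (δ / 2)) := ⟨_, rfl⟩
  have hs0 : 0 < s := by rw [hs]; exact lt_min (by linarith) (lt_min (by linarith) (by linarith))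
  have hs1 : s ≤ s₀ / 2 := by rw [hs]; exact min_le_left _ _
  have hs2 : s ≤ S.RR / 2 := by
    rw [hs]; exact le_trans (min_le_right _ _) (min_le_left _ _)
  have hs3 : s ≤ δ / 2 := by
    rw [hs]; exact le_trans (min_le_right _ _) (min_le_right _ _)
  refine ⟨s, hs0, fun z u hz hu => ?_⟩
  have hzu : ‖z + u‖ ≤ 2 * s := le_trans (norm_add_le _ _) (by linarith)
  have hh1 : ∀ n : ℕ, (n:ℝ)⁻¹ ≤ 1 := by
    intro n
    rcases Nat.eq_zero_or_pos n with hn | hn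
    · rw [hn]; simp
    · exact inv_le_one_of_one_le₀ (by exact_mod_cast hn)
  have hh0 : ∀ n : ℕ, 0 ≤ (n:ℝ)⁻¹ := fun n => by positivity
  have hex : ∀ n : ℕ, ∃ k : S.T, S.ex ((n:ℝ)⁻¹ • (z + u)) * S.ex (-((n:ℝ)⁻¹ • z)) = S.ex k ∧
      ‖k - (n:ℝ)⁻¹ • u‖ ≤ 60 * S.C ^ 2 * ‖z + u‖ * ‖z‖ * ((n:ℝ)⁻¹) ^ 2 := by
    intro n
    have e1 : ‖(n:ℝ)⁻¹ • (z + u)‖ = (n:ℝ)⁻¹ * ‖z + u‖ := by
      rw [norm_smul, Real.norm_of_nonneg (hh0 n)]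
    have e2 : ‖-((n:ℝ)⁻¹ • z)‖ = (n:ℝ)⁻¹ * ‖z‖ := by
      rw [norm_neg, norm_smul, Real.norm_of_nonneg (hh0 n)]
    have e3 : (n:ℝ)⁻¹ * ‖z + u‖ ≤ s₀ := by
      have := mul_le_mul (hh1 n) hzu (norm_nonneg _) zero_le_one
      linarith
    have e4 : (n:ℝ)⁻¹ * ‖z‖ ≤ s₀ := by
      have := mul_le_mul (hh1 n) hz (norm_nonneg _) zero_le_one
      linarith
    obtain ⟨k, _, hk2, hk3⟩ := hstar ((n:ℝ)⁻¹ • (z + u)) (-((n:ℝ)⁻¹ • z)) (by rw [e1]; exact e3)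
      (by rw [e2]; exact e4)
    refine ⟨k, hk2, ?_⟩
    have e5 : k - (n:ℝ)⁻¹ • (z + u) - -((n:ℝ)⁻¹ • z) = k - (n:ℝ)⁻¹ • u := by
      rw [smul_add]; abel
    rw [e5, e1, e2] at hk3
    refine le_trans hk3 (le_of_eq ?_)
    ring
  choose kk hkk1 hkk2 using hex
  obtain ⟨P, hPdef⟩ : ∃ P : G, P = S.ex (z + u) * (S.ex z)⁻¹ := ⟨_, rfl⟩
  have hP : ∀ n : ℕ, 0 < n → P = ((List.range n).map (fun i : ℕ =>
      S.ex (S.Ad (S.ex ((i:ℝ) • ((n:ℝ)⁻¹ • z))) (kk n)))).prod := by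
    intro n hn
    have hn0 : (n:ℝ) ≠ 0 := by positivity
    have e1 : S.ex ((n:ℝ)⁻¹ • (z + u)) = S.ex (kk n) * S.ex ((n:ℝ)⁻¹ • z) := by
      rw [← hkk1 n, S.ex_neg]
      group
    have e2 : S.ex (z + u) = S.ex ((n:ℝ)⁻¹ • (z + u)) ^ n := by
      rw [← S.ex_natmul, smul_smul, mul_inv_cancel₀ hn0, one_smul]
    have e3 : (n:ℝ) • ((n:ℝ)⁻¹ • z) = z := by rw [smul_smul, mul_inv_cancel₀ hn0, one_smul]
    rw [hPdef, e2, e1, S.pow_mul_ex, e3]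
    group
  have hzR : ‖z‖ ≤ S.RR := by linarith
  have hzuR : ‖z + u‖ ≤ S.RR := by linarith
  have key := S.PhiEst_key z u hzR kk _ hkk2 P hP
  have hDP : ‖S.D P‖ ≤ 5 / 4 * ‖u‖ := by
    have e1 := S.ex_upper hzuR hzR
    rw [S.dist_eq, add_sub_cancel_left] at e1
    rw [hPdef]
    exact e1
  have hDP2 : ‖S.D P‖ < δ := by linarith
  obtain ⟨_, g2, g3, g4⟩ := hlog P hDP2
  refine ⟨S.lg P, g2.le, ?_, ?_⟩
  · rw [g3, hPdef]; group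
  · have e1 := S.ex_est (S.lg P)
    rw [g3] at e1
    have e2 : ‖S.lg P‖ ≤ 5 / 3 * ‖u‖ := by linarith
    have e3 : ‖S.lg P‖ ^ 2 ≤ (5 / 3 * ‖u‖) ^ 2 := by gcongr
    have e4 : S.ι (S.lg P) - S.ι (PhiOp (S.ad z) u) =
        (S.D P - S.ι (PhiOp (S.ad z) u)) - (S.D P - S.ι (S.lg P)) := by abel
    have e5 : ‖S.lg P - PhiOp (S.ad z) u‖ = ‖S.ι (S.lg P) - S.ι (PhiOp (S.ad z) u)‖ := by
      rw [← map_sub, S.norm_ι]
    rw [e5, e4]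
    refine le_trans (norm_sub_le _ _) ?_
    have e6 : 4 * S.C * ‖S.lg P‖ ^ 2 ≤ 4 * S.C * (5 / 3 * ‖u‖) ^ 2 := by gcongr
    have e7 : 0 ≤ S.C * ‖u‖ ^ 2 := by positivity
    nlinarith

end Pool.Agent.GY.Gl
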