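import Pool.Agent.GY.Nrm

/-!
# GY.ProdEst (diff 1-2): first order estimates for products and powers

* `prod_est`: let `s = ∑ ‖D g_i‖`.  If `s > r`: `‖D L.prod‖ ≤ s`, `‖∑ D g_i‖ ≤ s`, and `2 s ≤ 2 C s²` as `1 ≤ C r ≤ C s` (`hCr`).
  If `s ≤ r`: induction on the list with the better constant `C/2` (all partial sums are `≤ r`, so `mul` applies):
  `‖D (g P) - D g - D P‖ ≤ C ‖D g‖ ‖D P‖ ≤ C ‖D g‖ s_P`, and `(C/2) s_P² + C ‖D g‖ s_P ≤ (C/2)(‖D g‖ + s_P)²`.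
* `pow_est'`: the list `replicate n g`.
* `inv_est`: if `‖D g‖ ≤ r`: `mul` for `g`, `g⁻¹`, with `D 1 = 0`; otherwise trivial as above.
* `zpow_est`: for `n = -m`: `g^n = (g⁻¹)^m`; `‖D ((g⁻¹)^m) - m D g⁻¹‖ ≤ 2C (m‖D g‖)²`, `m ‖D g⁻¹ + D g‖ ≤ m 2C ‖D g‖²`: constant `4 C`.
* `pow_dist`: induction on `n`: `g^(n+1) = g^n g`, `h^(n+1) = h^n h`: `‖D (g^n g) - D (g^n h)‖ + ‖D (g^n h) - D (h^n h)‖`: `left_le` with
  `x = g^n` (`‖D (g^n)‖ ≤ n ‖D g‖`), right invariance.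
-/

open Topology Filter Set

namespace Pool.Agent.GY.Gl

variable {G E : Type*} [Group G] [TopologicalSpace G] [NormedAddCommGroup E] [NormedSpace ℝ E]
  (S : Gl G E) (g h : G)

theorem ProdEst_sum_nonneg (L : List G) : 0 ≤ (L.map (fun g => ‖S.D g‖)).sum := by
  apply List.sum_nonneg
  intro x hx
  obtain ⟨g, _, rfl⟩ := List.mem_map.1 hx
  exact norm_nonneg _

theorem nrm_prod_le (L : List G) : ‖S.D L.prod‖ ≤ (L.map (fun g => ‖S.D g‖)).sum := by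
  induction L with
  | nil => simp [S.one]
  | cons g L ih =>
    rw [List.prod_cons, List.map_cons, List.sum_cons]
    exact (S.nrm_mul_le g L.prod).trans (by linarith)

theorem ProdEst_loc (L : List G) (hL : (L.map (fun g => ‖S.D g‖)).sum ≤ S.r) :
    ‖S.D L.prod - (L.map S.D).sum‖ ≤ S.C / 2 * ((L.map (fun g => ‖S.D g‖)).sum) ^ 2 := by
  induction L with
  | nil => simp [S.one]
  | cons g L ih =>
    rw [List.map_cons, List.sum_cons] at hL
    rw [List.prod_cons, List.map_cons, List.sum_cons, List.map_cons, List.sum_cons]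
    have h2 := S.nrm_prod_le L
    have h3 := S.ProdEst_sum_nonneg L
    have hn0 := norm_nonneg (S.D g)
    have h1 := S.mul g L.prod (by linarith) (by linarith)
    have ih := ih (by linarith)
    have hC := S.hC
    have e : S.D (g * L.prod) - (S.D g + (L.map S.D).sum) =
        (S.D (g * L.prod) - S.D g - S.D L.prod) + (S.D L.prod - (L.map S.D).sum) := by abel
    rw [e]
    refine (norm_add_le _ _).trans ?_
    have h4 : S.C * ‖S.D g‖ * ‖S.D L.prod‖ ≤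
        S.C * ‖S.D g‖ * (L.map (fun g => ‖S.D g‖)).sum :=
      mul_le_mul_of_nonneg_left h2 (by positivity)
    have h5 : 0 ≤ S.C * ‖S.D g‖ ^ 2 := by positivity
    nlinarith

theorem ProdEst_sum_le (L : List G) : ‖(L.map S.D).sum‖ ≤ (L.map (fun g => ‖S.D g‖)).sum := by
  induction L with
  | nil => simp
  | cons g L ih =>
    rw [List.map_cons, List.sum_cons, List.map_cons, List.sum_cons]
    exact (norm_add_le _ _).trans (by linarith)

theorem ProdEst_big {s : ℝ} (hs : S.r < s) : s + s ≤ 2 * S.C * s ^ 2 := by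
  have hC := S.hC
  have hr := S.hr
  have hCr := S.hCr
  have h1 : 1 ≤ S.C * s := by nlinarith
  nlinarith

theorem prod_est (L : List G) :
    ‖S.D L.prod - (L.map S.D).sum‖ ≤ 2 * S.C * ((L.map (fun g => ‖S.D g‖)).sum) ^ 2 := by
  have hC := S.hC
  rcases le_or_gt ((L.map (fun g => ‖S.D g‖)).sum) S.r with hL | hL
  · refine (S.ProdEst_loc L hL).trans ?_
    apply mul_le_mul_of_nonneg_right _ (sq_nonneg _)
    linarith
  · have h1 := S.ProdEst_big hL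
    have h2 := S.nrm_prod_le L
    have h3 := S.ProdEst_sum_le L
    refine (norm_sub_le _ _).trans ?_
    linarith

theorem pow_est' (n : ℕ) :
    ‖S.D (g ^ n) - (n : ℝ) • S.D g‖ ≤ 2 * S.C * (n * ‖S.D g‖) ^ 2 := by
  have h := S.prod_est (List.replicate n g)
  rw [List.prod_replicate, List.map_replicate, List.sum_replicate, List.map_replicate,
    List.sum_replicate, nsmul_eq_mul, ← Nat.cast_smul_eq_nsmul ℝ] at h
  exact h

theorem inv_est : ‖S.D g⁻¹ + S.D g‖ ≤ 2 * S.C * ‖S.D g‖ ^ 2 := by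
  have hC := S.hC
  rcases le_or_gt ‖S.D g‖ S.r with hg | hg
  · have h := S.mul g g⁻¹ hg (by rw [S.nrm_inv]; exact hg)
    rw [mul_inv_cancel, S.one, S.nrm_inv] at h
    have e : (0 : E) - S.D g - S.D g⁻¹ = -(S.D g⁻¹ + S.D g) := by abel
    rw [e, norm_neg] at h
    refine h.trans ?_
    nlinarith [sq_nonneg ‖S.D g‖, mul_nonneg (by linarith : (0:ℝ) ≤ S.C) (sq_nonneg ‖S.D g‖)]
  · have h1 := S.ProdEst_big hg
    refine (norm_add_le _ _).trans ?_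
    rw [S.nrm_inv]
    linarith

theorem zpow_est (n : ℤ) :
    ‖S.D (g ^ n) - (n : ℝ) • S.D g‖ ≤ 4 * S.C * (|(n : ℝ)| * ‖S.D g‖) ^ 2 := by
  have hC := S.hC
  rcases n with m | m
  · have h := S.pow_est' g m
    have e1 : (((Int.ofNat m : ℤ)) : ℝ) = (m : ℝ) := by simp
    rw [e1, abs_of_nonneg (Nat.cast_nonneg m)]
    have e2 : g ^ (Int.ofNat m : ℤ) = g ^ m := by
      rw [Int.ofNat_eq_natCast, zpow_natCast]
    rw [e2]
    have h2 : 0 ≤ (m * ‖S.D g‖) ^ 2 := by positivity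
    nlinarith
  · have h := S.pow_est' g⁻¹ (m + 1)
    have h2 := S.inv_est g
    rw [S.nrm_inv] at h
    have e1 : (((Int.negSucc m : ℤ)) : ℝ) = -((m + 1 : ℕ) : ℝ) := by
      rw [Int.cast_negSucc]
    have e2 : g ^ (Int.negSucc m : ℤ) = g⁻¹ ^ (m + 1) := by
      rw [zpow_negSucc, inv_pow]
    rw [e1, e2, abs_neg, abs_of_nonneg (Nat.cast_nonneg (m + 1))]
    have e3 : S.D (g⁻¹ ^ (m + 1)) - (-((m + 1 : ℕ) : ℝ)) • S.D g =
        (S.D (g⁻¹ ^ (m + 1)) - ((m + 1 : ℕ) : ℝ) • S.D g⁻¹) +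
          ((m + 1 : ℕ) : ℝ) • (S.D g⁻¹ + S.D g) := by
      rw [smul_add, neg_smul]
      abel
    rw [e3]
    refine (norm_add_le _ _).trans ?_
    rw [norm_smul, Real.norm_of_nonneg (Nat.cast_nonneg (m + 1))]
    have h3 : ((m + 1 : ℕ) : ℝ) * ‖S.D g⁻¹ + S.D g‖ ≤ ((m + 1 : ℕ) : ℝ) * (2 * S.C * ‖S.D g‖ ^ 2) :=
      mul_le_mul_of_nonneg_left h2 (Nat.cast_nonneg _)
    have h4 : (1 : ℝ) ≤ ((m + 1 : ℕ) : ℝ) := by
      push_cast
      have : (0 : ℝ) ≤ (m : ℝ) := Nat.cast_nonneg m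
      linarith
    have h5 : ((m + 1 : ℕ) : ℝ) * (2 * S.C * ‖S.D g‖ ^ 2) ≤
        2 * S.C * (((m + 1 : ℕ) : ℝ) * ‖S.D g‖) ^ 2 := by
      have h6 : 0 ≤ S.C * ‖S.D g‖ ^ 2 := by positivity
      have h7 : ((m + 1 : ℕ) : ℝ) * 1 ≤ ((m + 1 : ℕ) : ℝ) * ((m + 1 : ℕ) : ℝ) :=
        mul_le_mul_of_nonneg_left h4 (by linarith)
      nlinarith
    have h8 : 0 ≤ S.C * (((m + 1 : ℕ) : ℝ) * ‖S.D g‖) ^ 2 := by positivity
    nlinarith

theorem pow_dist (n : ℕ) (hn : n * ‖S.D g‖ ≤ S.r) (hgh : ‖S.D g - S.D h‖ ≤ S.r) :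
    ‖S.D (g ^ n) - S.D (h ^ n)‖ ≤ n * (1 + 2 * S.C * (n * ‖S.D g‖)) * ‖S.D g - S.D h‖ := by
  have hC := S.hC
  induction n with
  | zero => simp
  | succ n ih =>
    have h3 := S.nrm_pow_le g n
    have hn' : (n : ℝ) * ‖S.D g‖ ≤ S.r := by
      push_cast at hn
      have := norm_nonneg (S.D g)
      linarith
    have ih := ih hn'
    have h1 := S.left_le g h (g ^ n) (h3.trans hn') hgh
    have h2 := S.right (g ^ n) (h ^ n) h
    rw [pow_succ, pow_succ]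
    have e : S.D (g ^ n * g) - S.D (h ^ n * h) =
        (S.D (g ^ n * g) - S.D (g ^ n * h)) + (S.D (g ^ n * h) - S.D (h ^ n * h)) := by abel
    rw [e]
    refine (norm_add_le _ _).trans ?_
    rw [h2]
    have hδ : 0 ≤ ‖S.D g - S.D h‖ := norm_nonneg _
    have ha : 0 ≤ ‖S.D g‖ := norm_nonneg _
    have h4 : (1 + 2 * S.C * ‖S.D (g ^ n)‖) * ‖S.D g - S.D h‖ ≤
        (1 + 2 * S.C * (n * ‖S.D g‖)) * ‖S.D g - S.D h‖ := by
      apply mul_le_mul_of_nonneg_right _ hδ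
      have : 2 * S.C * ‖S.D (g ^ n)‖ ≤ 2 * S.C * (n * ‖S.D g‖) :=
        mul_le_mul_of_nonneg_left h3 (by linarith)
      linarith
    push_cast
    have h5 : ((n : ℝ) + 1) * (1 + 2 * S.C * (n * ‖S.D g‖)) * ‖S.D g - S.D h‖ ≤
        ((n : ℝ) + 1) * (1 + 2 * S.C * (((n : ℝ) + 1) * ‖S.D g‖)) * ‖S.D g - S.D h‖ := by
      apply mul_le_mul_of_nonneg_right _ hδ
      apply mul_le_mul_of_nonneg_left _ (by positivity)
      have : 2 * S.C * (n * ‖S.D g‖) ≤ 2 * S.C * (((n : ℝ) + 1) * ‖S.D g‖) := by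
        apply mul_le_mul_of_nonneg_left _ (by linarith)
        nlinarith
      linarith
    calc _ ≤ (1 + 2 * S.C * (n * ‖S.D g‖)) * ‖S.D g - S.D h‖ +
          n * (1 + 2 * S.C * (n * ‖S.D g‖)) * ‖S.D g - S.D h‖ := by linarith
      _ = ((n : ℝ) + 1) * (1 + 2 * S.C * (n * ‖S.D g‖)) * ‖S.D g - S.D h‖ := by ring
      _ ≤ _ := h5

end Pool.Agent.GY.Gl
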