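import Pool.Agent.GY.Defs

/-!
# GY.QPow (diff 1): powers of `QW W` = union of the subgroups inside `W`

`QW W` is symmetric, contains `1`, and contains all powers of its elements.  The subgroup generated by it is the
union of the powers `(QW W)^n` (pointwise set powers).  If it is not contained in `U ∋ 1`, there is a largest
`N` with `(QW W)^N ⊆ U` (`Nat.find` for the first `n` with `¬ (QW W)^n ⊆ U`; `n ≠ 0`).
-/

open Topology Filter Set
open scoped ENNReal Pointwise

namespace Pool.Agent.GY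

variable {G : Type*} [Group G] {W : Set G}

theorem one_mem_QW (h : (1 : G) ∈ W) : (1 : G) ∈ QW W :=
  ⟨⊥, by simpa using h, one_mem _⟩

theorem QW_subset : QW W ⊆ W := fun _ ⟨_, hL, hx⟩ => hL hx

theorem QW_mono {W' : Set G} (h : W ⊆ W') : QW W ⊆ QW W' :=
  fun _ ⟨L, hL, hx⟩ => ⟨L, hL.trans h, hx⟩

theorem inv_mem_QW {g : G} (h : g ∈ QW W) : g⁻¹ ∈ QW W := by
  obtain ⟨L, hL, hx⟩ := h
  exact ⟨L, hL, inv_mem hx⟩

theorem pow_mem_QW {g : G} (h : g ∈ QW W) (i : ℕ) : g ^ i ∈ QW W := by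
  obtain ⟨L, hL, hx⟩ := h
  exact ⟨L, hL, pow_mem hx i⟩

theorem inv_mem_pow {g : G} {n : ℕ} (h : g ∈ (QW W) ^ n) : g⁻¹ ∈ (QW W) ^ n := by
  induction n generalizing g with
  | zero =>
    rw [pow_zero, Set.mem_one] at h ⊢
    rw [h, inv_one]
  | succ n ih =>
    rw [pow_succ] at h
    obtain ⟨a, ha, b, hb, rfl⟩ := Set.mem_mul.1 h
    rw [pow_succ', mul_inv_rev]
    exact Set.mul_mem_mul (inv_mem_QW hb) (ih ha)

theorem pow_subset_pow (h1 : (1 : G) ∈ W) {m n : ℕ} (h : m ≤ n) : (QW W) ^ m ⊆ (QW W) ^ n :=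
  Set.pow_subset_pow_right (one_mem_QW h1) h

theorem mem_pow_iff_list {g : G} {n : ℕ} :
    g ∈ (QW W) ^ n ↔ ∃ L : List G, L.length = n ∧ (∀ x ∈ L, x ∈ QW W) ∧ L.prod = g := by
  induction n generalizing g with
  | zero =>
    rw [pow_zero, Set.mem_one]
    constructor
    · rintro rfl
      exact ⟨[], rfl, by simp, rfl⟩
    · rintro ⟨L, hL, _, hp⟩
      rw [List.length_eq_zero_iff] at hL
      subst hL
      rw [← hp, List.prod_nil]
  | succ n ih =>
    rw [pow_succ']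
    constructor
    · intro h
      obtain ⟨a, ha, b, hb, rfl⟩ := Set.mem_mul.1 h
      obtain ⟨L, hL, hmem, hp⟩ := ih.1 hb
      refine ⟨a :: L, by simp [hL], ?_, by simp [hp]⟩
      intro x hx
      rcases List.mem_cons.1 hx with rfl | hx
      · exact ha
      · exact hmem x hx
    · rintro ⟨L, hL, hmem, hp⟩
      match L, hL, hmem, hp with
      | a :: L, hL, hmem, hp =>
        rw [← hp, List.prod_cons]
        exact Set.mul_mem_mul (hmem a (by simp))
          (ih.2 ⟨L, by simpa using hL, fun x hx => hmem x (List.mem_cons_of_mem _ hx), rfl⟩)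

theorem mem_closure_QW {g : G} (h : g ∈ Subgroup.closure (QW W)) : ∃ n : ℕ, g ∈ (QW W) ^ n := by
  induction h using Subgroup.closure_induction with
  | mem x hx => exact ⟨1, by simpa using hx⟩
  | one => exact ⟨0, by simp⟩
  | mul x y _ _ hx hy =>
    obtain ⟨a, ha⟩ := hx
    obtain ⟨b, hb⟩ := hy
    exact ⟨a + b, by rw [pow_add]; exact Set.mul_mem_mul ha hb⟩
  | inv x _ hx =>
    obtain ⟨a, ha⟩ := hx
    exact ⟨a, inv_mem_pow ha⟩

theorem exists_last {U : Set G} (h1 : (1 : G) ∈ W) (hU : (1 : G) ∈ U)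
    (h : ¬ (Subgroup.closure (QW W) : Set G) ⊆ U) :
    ∃ N : ℕ, (QW W) ^ N ⊆ U ∧ ¬ (QW W) ^ (N + 1) ⊆ U := by
  classical
  have hex : ∃ n : ℕ, ¬ (QW W) ^ n ⊆ U := by
    by_contra hcon
    apply h
    intro x hx
    obtain ⟨n, hn⟩ := mem_closure_QW hx
    by_contra hxU
    exact hcon ⟨n, fun hs => hxU (hs hn)⟩
  have hspec := Nat.find_spec hex
  have h0 : Nat.find hex ≠ 0 := by
    intro h0
    rw [h0, pow_zero] at hspec
    apply hspec
    intro x hx
    rw [Set.mem_one.1 hx]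
    exact hU
  obtain ⟨N, hN⟩ := Nat.exists_eq_succ_of_ne_zero h0
  refine ⟨N, ?_, ?_⟩
  · by_contra hc
    have := Nat.find_min' hex hc
    omega
  · rw [hN] at hspec
    exact hspec

end Pool.Agent.GY
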