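import Pool.Agent.GY.Defs

/-!
# GY.Rho (diff 1): the weighted word length

`rho w x = inf over lists with product x of the sum of the weights`.
* `rho_lt_iff`: `iInf_lt_iff`.  `rho_one`: empty list.  `rho_le`: list `[g]`.
* `rho_mul_le`: concatenate (work with `rho_lt_iff` and `ENNReal.le_of_forall_pos_le_add` or
  `le_of_forall_gt`), `rho_inv`: reverse the list of the inverses (`List.prod_inv_reverse`).
* `Del w x = (min (rho w x) 1).toReal`.
* `Del_left`: `rho w (g x) ≤ w g + rho w x`, `rho w x ≤ w g⁻¹ + rho w (g x)`; `min (a + b) 1 ≤ a + min b 1`.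
-/

open Topology Filter Set
open scoped ENNReal Pointwise

namespace Pool.Agent.GY

variable {G : Type*} [Group G] {w : G → ℝ≥0∞} {x y g : G}

theorem rho_lt_iff {c : ℝ≥0∞} :
    rho w x < c ↔ ∃ L : List G, L.prod = x ∧ (L.map w).sum < c := by
  unfold rho
  simp only [iInf_lt_iff, exists_prop]

theorem rho_le_of_list (L : List G) : rho w L.prod ≤ (L.map w).sum :=
  iInf₂_le (f := fun (L' : List G) (_ : L'.prod = L.prod) => (L'.map w).sum) L rfl

theorem rho_one : rho w 1 = 0 := by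
  have := rho_le_of_list (w := w) []
  simpa using this

theorem rho_mul_le : rho w (x * y) ≤ rho w x + rho w y := by
  refine ENNReal.le_of_forall_pos_le_add fun ε hε hlt => ?_
  have hx : rho w x ≠ ∞ := fun h => by simp [h] at hlt
  have hy : rho w y ≠ ∞ := fun h => by simp [h] at hlt
  have hε2 : ((ε / 2 : NNReal) : ℝ≥0∞) ≠ 0 := by
    rw [Ne, ENNReal.coe_eq_zero]
    exact (half_pos hε).ne'
  obtain ⟨L1, hL1, h1⟩ := rho_lt_iff.1 (ENNReal.lt_add_right hx hε2)
  obtain ⟨L2, hL2, h2⟩ := rho_lt_iff.1 (ENNReal.lt_add_right hy hε2)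
  have h3 := rho_le_of_list (w := w) (L1 ++ L2)
  rw [List.prod_append, hL1, hL2, List.map_append, List.sum_append] at h3
  refine h3.trans ((add_le_add h1.le h2.le).trans (le_of_eq ?_))
  have : (ε : ℝ≥0∞) = ((ε / 2 : NNReal) : ℝ≥0∞) + ((ε / 2 : NNReal) : ℝ≥0∞) := by
    rw [← ENNReal.coe_add, add_halves]
  rw [this]
  ring

theorem rho_le : rho w g ≤ w g := by
  have := rho_le_of_list (w := w) [g]
  simpa using this

private theorem Rho_inv_le (hw : ∀ g, w g⁻¹ = w g) : rho w x⁻¹ ≤ rho w x := by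
  refine le_of_forall_gt fun c hc => ?_
  obtain ⟨L, hL, h1⟩ := rho_lt_iff.1 hc
  refine rho_lt_iff.2 ⟨(L.map fun g => g⁻¹).reverse, ?_, ?_⟩
  · rw [← hL, List.prod_inv_reverse]
  · rw [List.map_reverse, List.sum_reverse, List.map_map]
    have : (w ∘ fun g => g⁻¹) = w := by
      funext g
      exact hw g
    rw [this]
    exact h1

theorem rho_inv (hw : ∀ g, w g⁻¹ = w g) : rho w x⁻¹ = rho w x := by
  refine le_antisymm (Rho_inv_le hw) ?_
  have := Rho_inv_le (x := x⁻¹) hw
  rwa [inv_inv] at this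

theorem rho_pow_le (n : ℕ) : rho w (x ^ n) ≤ n * rho w x := by
  induction n with
  | zero => simp [rho_one]
  | succ n ih =>
    rw [pow_succ, Nat.cast_add, Nat.cast_one, add_mul, one_mul]
    exact rho_mul_le.trans (add_le_add ih le_rfl)

theorem Del_nonneg : 0 ≤ Del w x := ENNReal.toReal_nonneg

theorem Del_le_one : Del w x ≤ 1 := by
  unfold Del
  have := ENNReal.toReal_mono ENNReal.one_ne_top (min_le_right (rho w x) 1)
  simpa using this

theorem Del_one : Del w 1 = 0 := by
  simp [Del, rho_one]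

theorem rho_lt_of_Del_lt {d : ℝ} (hd : d ≤ 1) (h : Del w x < d) :
    rho w x < ENNReal.ofReal d := by
  unfold Del at h
  have hne : min (rho w x) 1 ≠ ∞ := ne_top_of_le_ne_top ENNReal.one_ne_top (min_le_right _ _)
  rw [← ENNReal.lt_ofReal_iff_toReal_lt hne] at h
  rcases min_lt_iff.1 h with h1 | h1
  · exact h1
  · exfalso
    have h2 : ENNReal.ofReal d ≤ 1 := by
      rw [← ENNReal.ofReal_one]
      exact ENNReal.ofReal_le_ofReal hd
    exact absurd h1 (not_lt.2 h2)

theorem rho_lt_one_of_Del (h : Del w x ≠ 1) : rho w x < 1 := by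
  have h1 := rho_lt_of_Del_lt le_rfl (lt_of_le_of_ne Del_le_one h)
  rwa [ENNReal.ofReal_one] at h1

private theorem Rho_aux {p q : ℝ≥0∞} {a : ℝ} (ha : 0 ≤ a) (h : p ≤ ENNReal.ofReal a + q) :
    (min p 1).toReal ≤ a + (min q 1).toReal := by
  have hne : min q 1 ≠ ∞ := ne_top_of_le_ne_top ENNReal.one_ne_top (min_le_right _ _)
  have h1 : min p 1 ≤ ENNReal.ofReal a + min q 1 := by
    rcases le_total q 1 with hq | hq
    · rw [min_eq_left hq]
      exact (min_le_left _ _).trans h
    · rw [min_eq_right hq]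
      exact (min_le_right _ _).trans le_add_self
  have h2 := ENNReal.toReal_mono (ENNReal.add_ne_top.2 ⟨ENNReal.ofReal_ne_top, hne⟩) h1
  rwa [ENNReal.toReal_add ENNReal.ofReal_ne_top hne, ENNReal.toReal_ofReal ha] at h2

theorem Del_left (hw : ∀ g, w g⁻¹ = w g) {a : ℝ} (ha : 0 ≤ a) (hg : w g ≤ ENNReal.ofReal a) :
    |Del w (g * x) - Del w x| ≤ a := by
  have h1 : rho w (g * x) ≤ ENNReal.ofReal a + rho w x :=
    rho_mul_le.trans (add_le_add (rho_le.trans hg) le_rfl)
  have h2 : rho w x ≤ ENNReal.ofReal a + rho w (g * x) := by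
    have h3 : rho w (g⁻¹ * (g * x)) ≤ rho w g⁻¹ + rho w (g * x) := rho_mul_le
    rw [inv_mul_cancel_left] at h3
    refine h3.trans (add_le_add (rho_le.trans ?_) le_rfl)
    rw [hw]
    exact hg
  have h4 := Rho_aux ha h1
  have h5 := Rho_aux ha h2
  unfold Del
  rw [abs_le]
  constructor <;> linarith

end Pool.Agent.GY
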