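import Pool.Agent.GY.EscF1
import Pool.Agent.GY.GoodQ

/-!
# GY.SigC (diff 2): countability properties of connected locally compact groups

* `sigma_cpt`: `U` a compact symmetric neighbourhood of `1`: the union of the powers `U^n` is an open subgroup, so it is `G`; each power is compact.
* `nss_basis`: in a locally compact NSS group take `NoSub U` (a compact symmetric neighbourhood inside the NSS neighbourhood); the sets `A_m = {g | g^i ∈ U for i ≤ m}` are neighbourhoods of `1`, and every `V ∈ 𝓝 1`
  contains one of them (`esc_F1`).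
* `sec_of_basis`: a group topology with a countable basis at `1` is first countable (translate), so (as a uniform space with countably generated uniformity) pseudo-metrizable; with T2 metrizable; σ-compact metrizable implies second countable
  (`SecondCountableTopology` from `SigmaCompactSpace`, instance for pseudo-(e)metric spaces: `secondCountable_of_sigmaCompact`/`separable`).
-/

open Topology Filter Set
open scoped Pointwise

namespace Pool.Agent.GY

variable {G : Type*} [Group G] [TopologicalSpace G] [IsTopologicalGroup G]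
  [LocallyCompactSpace G]

theorem SigC_pow_compact {G : Type*} [Group G] [TopologicalSpace G] [IsTopologicalGroup G]
    {V : Set G} (hV : IsCompact V) : ∀ n : ℕ, IsCompact (V ^ n)
  | 0 => by rw [pow_zero]; exact isCompact_singleton
  | n + 1 => by rw [pow_succ]; exact (SigC_pow_compact hV n).mul hV

theorem sigma_cpt [ConnectedSpace G] : SigmaCompactSpace G := by
  obtain ⟨V, hV1, hVc, hVs, -⟩ := exists_cpt_nhd (G := G) (U := univ) univ_mem
  let H : Subgroup G :=
    { carrier := ⋃ n : ℕ, V ^ n
      mul_mem' := by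
        intro a b ha hb
        rw [mem_iUnion] at ha hb ⊢
        obtain ⟨m, hm⟩ := ha
        obtain ⟨n, hn⟩ := hb
        exact ⟨m + n, by rw [pow_add]; exact mul_mem_mul hm hn⟩
      one_mem' := mem_iUnion.2 ⟨0, by simp⟩
      inv_mem' := by
        intro a ha
        rw [mem_iUnion] at ha ⊢
        obtain ⟨m, hm⟩ := ha
        refine ⟨m, ?_⟩
        have h : (V ^ m)⁻¹ = V ^ m := by rw [← inv_pow, hVs]
        rw [← h]
        simpa using hm }
  have hHV : V ⊆ (H : Set G) := by
    intro x hx
    exact mem_iUnion.2 ⟨1, by simpa using hx⟩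
  have hHo : IsOpen (H : Set G) := H.isOpen_of_mem_nhds (g := 1) (mem_of_superset hV1 hHV)
  have hHc : IsClopen (H : Set G) := ⟨H.isClosed_of_isOpen hHo, hHo⟩
  have hHu : (⋃ n : ℕ, V ^ n) = univ := hHc.eq_univ ⟨1, H.one_mem⟩
  exact SigmaCompactSpace_iff_exists_compact_covering.2
    ⟨fun n => V ^ n, fun n => SigC_pow_compact hVc n, hHu⟩

theorem nss_basis [T2Space G] (hG : NSS G) :
    ∃ B : ℕ → Set G, (∀ m, B m ∈ 𝓝 (1 : G)) ∧ ∀ V ∈ 𝓝 (1 : G), ∃ m, B m ⊆ V := by
  obtain ⟨U₀, hU₀, hns⟩ := hG
  obtain ⟨U, hU1, hUc, hUs, hUU⟩ := exists_cpt_nhd hU₀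
  have hU : NoSub U := ⟨hUc, hU1, hUs, fun L hL => hns L (hL.trans hUU)⟩
  refine ⟨fun m => {g | ∀ i ≤ m, g ^ i ∈ U}, fun m => ?_, fun V hV => ?_⟩
  · have h : {g : G | ∀ i ≤ m, g ^ i ∈ U} =
        ⋂ i ∈ Finset.range (m + 1), (fun g : G => g ^ i) ⁻¹' U := by
      ext g
      simp
    show {g : G | ∀ i ≤ m, g ^ i ∈ U} ∈ 𝓝 (1 : G)
    rw [h]
    refine (Filter.biInter_finset_mem _).2 ?_
    intro i _
    exact ((continuous_pow i).tendsto' 1 1 (one_pow i)) hU1
  · obtain ⟨m, -, h⟩ := esc_F1 hU hV
    exact ⟨m, fun g hg => h g hg⟩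

theorem sec_of_basis [ConnectedSpace G] [T2Space G] {B : ℕ → Set G}
    (h1 : ∀ m, B m ∈ 𝓝 (1 : G)) (h2 : ∀ V ∈ 𝓝 (1 : G), ∃ m, B m ⊆ V) :
    SecondCountableTopology G := by
  have := sigma_cpt (G := G)
  have h1' : (𝓝 (1 : G)).IsCountablyGenerated := by
    have h : 𝓝 (1 : G) = ⨅ m, 𝓟 (B m) := by
      refine le_antisymm (le_iInf fun m => le_principal_iff.2 (h1 m)) ?_
      intro V hV
      obtain ⟨m, hm⟩ := h2 V hV
      exact mem_iInf_of_mem m (mem_principal.2 hm)
    rw [h]
    infer_instance
  let : UniformSpace G := IsTopologicalGroup.rightUniformSpace G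
  have : (uniformity G).IsCountablyGenerated := by
    rw [uniformity_eq_comap_nhds_one']
    infer_instance
  have : TopologicalSpace.PseudoMetrizableSpace G := inferInstance
  let := TopologicalSpace.pseudoMetrizableSpacePseudoMetric G
  exact EMetric.secondCountable_of_sigmaCompact G

end Pool.Agent.GY
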