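import Pool.Agent.GY.ThL
import Pool.Agent.GY.Ph2

/-!
# GY.Small2 (diff 2): the second difference of `φ` is small, uniformly in the weight

`S = P * tsupport τ`, `θ = Th w τ` is `Reg S θ` (`th_reg`), `φ = Ph μ θ`.  Let `V₀` be a compact symmetric
neighbourhood of `1` and `B = V₀ * (V₀ * (S * S⁻¹))`, compact.
If `x ∉ B`, `g, b ∈ V₀`, all four terms vanish (`ph_supp`: `φ y ≠ 0 → y ∈ S * S⁻¹`).
If `x ∈ B`: `th_left` (`|θ (g z) - θ z| ≤ a`) and `ph_second` give the bound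
`a ∫ |θ (c u) - θ u| du`, `c = x⁻¹ b⁻¹ x`.  Choose `V₂` by `th_equi_left` with `ε₂ μ (V₀ * S) ≤ ε`, and
`V₁ ⊆ V₀`, symmetric, with `x⁻¹ b⁻¹ x ∈ V₂ ∩ V₀` for `x ∈ B`, `b ∈ V₁` (`unif_conj`); then `int_abs_le`.
-/

open Topology Filter Set MeasureTheory
open scoped ENNReal Pointwise

namespace Pool.Agent.GY

variable {G : Type*} [Group G] [TopologicalSpace G] [IsTopologicalGroup G]
  [LocallyCompactSpace G] [T2Space G] [MeasurableSpace G] [BorelSpace G]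
  {P V : Set G} {τ : G → ℝ}

theorem small_second (μ : Measure G) [μ.IsHaarMeasure] (hP : IsCompact P) (hτ : Cut V τ) {ε : ℝ}
    (hε : 0 < ε) :
    ∃ V₁ ∈ 𝓝 (1 : G), ∀ w : G → ℝ≥0∞, Wt P w → ∀ g ∈ V₁, ∀ b ∈ V₁, ∀ a : ℝ, 0 ≤ a →
      w g ≤ ENNReal.ofReal a → ∀ x,
        |Ph μ (Th w τ) (g * (b * x)) - Ph μ (Th w τ) (b * x) - Ph μ (Th w τ) (g * x)
          + Ph μ (Th w τ) x| ≤ ε * a := by
  set S : Set G := P * tsupport τ with hSdef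
  have hS : IsCompact S := hP.mul hτ.hcs
  obtain ⟨V₀, hV₀, hV₀c, hV₀i, -⟩ := exists_cpt_nhd (G := G) (univ_mem : (univ : Set G) ∈ 𝓝 (1 : G))
  have h1 : (1 : G) ∈ V₀ := mem_of_mem_nhds hV₀
  have hinv : ∀ y ∈ V₀, y⁻¹ ∈ V₀ := by
    intro y hy
    rw [← hV₀i]
    exact Set.inv_mem_inv.2 hy
  set B : Set G := V₀ * (V₀ * (S * S⁻¹)) with hBdef
  have hB : IsCompact B := hV₀c.mul (hV₀c.mul (hS.mul hS.inv))
  set M : ℝ := (μ (V₀ * S)).toReal with hM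
  have hM0 : 0 ≤ M := ENNReal.toReal_nonneg
  have hε₂ : 0 < ε / (M + 1) := by positivity
  obtain ⟨V₂, hV₂, hV₂e⟩ := th_equi_left hP hτ hε₂
  obtain ⟨V', hV', hV'c⟩ := unif_conj hB (Filter.inter_mem hV₂ hV₀)
  refine ⟨V₀ ∩ V'⁻¹, Filter.inter_mem hV₀ (inv_mem_nhds_one G hV'), ?_⟩
  intro w hw g hg b hb a ha hga x
  have hreg : Reg S (Th w τ) := th_reg hτ hw
  by_cases hx : x ∈ B
  · have hc := hV'c x hx b⁻¹ hb.2
    have hfirst : ∀ z, |Th w τ (g * z) - Th w τ z| ≤ a := fun z => th_left hτ hw.symm ha hga z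
    refine (ph_second hS hreg hfirst b x).trans ?_
    have h2 := int_abs_le (μ := μ) hS hreg hV₀c hV₀i h1 hc.2 (fun u => hV₂e w hw _ hc.1 u)
    calc a * ∫ u, |Th w τ (x⁻¹ * b⁻¹ * x * u) - Th w τ u| ∂μ
        ≤ a * (ε / (M + 1) * M) := mul_le_mul_of_nonneg_left h2 ha
      _ ≤ a * ε := by
          apply mul_le_mul_of_nonneg_left _ ha
          rw [div_mul_eq_mul_div, div_le_iff₀ (by positivity)]
          nlinarith
      _ = ε * a := mul_comm _ _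
  · have hz : ∀ y, (∃ u ∈ V₀, ∃ v ∈ V₀, x = u * (v * y)) → Ph μ (Th w τ) y = 0 := by
      rintro y ⟨u, hu, v, hv, hy⟩
      by_contra hne
      exact hx (hy ▸ Set.mul_mem_mul hu (Set.mul_mem_mul hv (ph_supp hreg hne)))
    have e1 : Ph μ (Th w τ) (g * (b * x)) = 0 :=
      hz _ ⟨b⁻¹, hinv b hb.1, g⁻¹, hinv g hg.1, by group⟩
    have e2 : Ph μ (Th w τ) (b * x) = 0 := hz _ ⟨b⁻¹, hinv b hb.1, 1, h1, by group⟩
    have e3 : Ph μ (Th w τ) (g * x) = 0 := hz _ ⟨g⁻¹, hinv g hg.1, 1, h1, by group⟩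
    have e4 : Ph μ (Th w τ) x = 0 := hz _ ⟨1, h1, 1, h1, by group⟩
    rw [e1, e2, e3, e4]
    simp only [sub_zero, add_zero, abs_zero]
    positivity

end Pool.Agent.GY
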