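import Pool.Agent.GY.LogDef

/-!
# GY.Star (diff 2): `exp x exp y = exp z`, `z = x + y + O(‖x‖ ‖y‖)`

Let `g = ex x * ex y`, `‖D g‖ ≤ ‖x‖ + ‖y‖` small: `z = lg g`, `‖z‖ ≤ RR` (`exists_log`).
`‖D g - D (ex x) - D (ex y)‖ ≤ C ‖x‖ ‖y‖` (`mul`).
Claim `‖D (ex (x+y)) - D (ex x) - D (ex y)‖ ≤ 40 C² ‖x‖ ‖y‖` for small `x, y`: by symmetry let `‖y‖ ≤ ‖x‖`.  `ex_bi` with `R = ‖x‖ + ‖y‖ ≤ 2‖x‖`:
`‖D (ex (x+y)) - D (ex x) - y‖ ≤ 18 C² ‖x‖ ‖y‖`, and `‖D (ex y) - y‖ ≤ 4 C ‖y‖² ≤ 4 C ‖x‖ ‖y‖` (`ex_est`).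
So `‖D (ex z) - D (ex (x+y))‖ ≤ 41 C² ‖x‖‖y‖`, and `ex_lower` gives `‖z - (x+y)‖ ≤ 60 C² ‖x‖ ‖y‖`.
-/

open Topology Filter Set

namespace Pool.Agent.GY.Gl

variable {G E : Type*} [Group G] [TopologicalSpace G] [IsTopologicalGroup G]
  [NormedAddCommGroup E] [NormedSpace ℝ E] [CompleteSpace E] (S : Gl G E)

private theorem star_aux {x y : S.T} (hxy : ‖y‖ ≤ ‖x‖) (h1 : ‖x‖ + ‖y‖ ≤ S.RR) :
    ‖S.D (S.ex (x + y)) - S.D (S.ex x) - S.D (S.ex y)‖ ≤ 22 * S.C ^ 2 * ‖x‖ * ‖y‖ := by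
  have hC := S.hC
  have hx0 := norm_nonneg x
  have hy0 := norm_nonneg y
  have hCR : 8 * S.C * (‖x‖ + ‖y‖) ≤ 1 := by
    have h2 := S.C_RR
    have h3 : S.C * (‖x‖ + ‖y‖) ≤ S.C * S.RR := mul_le_mul_of_nonneg_left h1 (by linarith)
    have h4 : 0 ≤ S.C * (‖x‖ + ‖y‖) := by positivity
    linarith
  have h2 := S.ex_bi (v := x + y) (w := x) (R := ‖x‖ + ‖y‖) (norm_add_le x y)
    (by linarith) hCR
  have h3 : S.ι (x + y) - S.ι x = S.ι y := by rw [map_add, add_sub_cancel_left]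
  rw [h3, add_sub_cancel_left] at h2
  have h4 := S.ex_est y
  have h5 : S.D (S.ex (x + y)) - S.D (S.ex x) - S.D (S.ex y) =
      (S.D (S.ex (x + y)) - S.D (S.ex x) - S.ι y) - (S.D (S.ex y) - S.ι y) := by abel
  rw [h5]
  refine (norm_sub_le _ _).trans ?_
  have h6 : 9 * S.C ^ 2 * (‖x‖ + ‖y‖) * ‖y‖ ≤ 18 * S.C ^ 2 * ‖x‖ * ‖y‖ := by
    have : 0 ≤ 9 * S.C ^ 2 * ‖y‖ * (‖x‖ - ‖y‖) := by
      have := sub_nonneg.2 hxy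
      positivity
    nlinarith
  have h7 : 4 * S.C * ‖y‖ ^ 2 ≤ 4 * S.C ^ 2 * ‖x‖ * ‖y‖ := by
    have h8 : ‖y‖ ^ 2 ≤ ‖x‖ * ‖y‖ := by nlinarith
    have h9 : S.C ≤ S.C ^ 2 := by nlinarith
    calc 4 * S.C * ‖y‖ ^ 2 ≤ 4 * S.C ^ 2 * (‖x‖ * ‖y‖) := by gcongr
      _ = 4 * S.C ^ 2 * ‖x‖ * ‖y‖ := by ring
  linarith

theorem star_est : ∃ s : ℝ, 0 < s ∧ ∀ x y : S.T, ‖x‖ ≤ s → ‖y‖ ≤ s →
    ∃ z : S.T, ‖z‖ ≤ S.RR ∧ S.ex x * S.ex y = S.ex z ∧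
      ‖z - x - y‖ ≤ 60 * S.C ^ 2 * ‖x‖ * ‖y‖ := by
  obtain ⟨δ, hδ, hlog⟩ := S.exists_log S.RR_pos
  have hRR := S.RR_pos
  have hRR1 := S.RR_le
  have hRRr := S.RR_le_r
  have hC := S.hC
  refine ⟨min (δ / 3) (S.RR / 2), by positivity, fun x y hx hy => ?_⟩
  have hx1 := hx.trans (min_le_left _ _)
  have hx2 := hx.trans (min_le_right _ _)
  have hy1 := hy.trans (min_le_left _ _)
  have hy2 := hy.trans (min_le_right _ _)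
  have hx0 := norm_nonneg x
  have hy0 := norm_nonneg y
  have hDx := S.ex_nrm x
  have hDy := S.ex_nrm y
  have hD : ‖S.D (S.ex x * S.ex y)‖ < δ := by
    have := S.nrm_mul_le (S.ex x) (S.ex y)
    linarith
  obtain ⟨-, hz, hzg, -⟩ := hlog _ hD
  refine ⟨S.lg (S.ex x * S.ex y), hz.le, hzg.symm, ?_⟩
  set z := S.lg (S.ex x * S.ex y) with hzdef
  have h1 : ‖S.D (S.ex x * S.ex y) - S.D (S.ex x) - S.D (S.ex y)‖ ≤ S.C ^ 2 * ‖x‖ * ‖y‖ := by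
    have h9 : S.C ≤ S.C ^ 2 := by nlinarith
    calc _ ≤ S.C * ‖S.D (S.ex x)‖ * ‖S.D (S.ex y)‖ := S.mul _ _ (by linarith) (by linarith)
      _ ≤ S.C ^ 2 * ‖x‖ * ‖y‖ := by gcongr
  have h2 : ‖S.D (S.ex (x + y)) - S.D (S.ex x) - S.D (S.ex y)‖ ≤ 22 * S.C ^ 2 * ‖x‖ * ‖y‖ := by
    rcases le_total ‖y‖ ‖x‖ with h | h
    · exact S.star_aux h (by linarith)
    · have := S.star_aux h (by linarith)
      rw [add_comm y x] at this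
      calc _ = ‖S.D (S.ex (x + y)) - S.D (S.ex y) - S.D (S.ex x)‖ := by
            congr 1; abel
        _ ≤ 22 * S.C ^ 2 * ‖y‖ * ‖x‖ := this
        _ = 22 * S.C ^ 2 * ‖x‖ * ‖y‖ := by ring
  have h3 : ‖S.D (S.ex z) - S.D (S.ex (x + y))‖ ≤ 23 * S.C ^ 2 * ‖x‖ * ‖y‖ := by
    rw [hzg]
    have h5 : S.D (S.ex x * S.ex y) - S.D (S.ex (x + y)) =
      (S.D (S.ex x * S.ex y) - S.D (S.ex x) - S.D (S.ex y)) -
        (S.D (S.ex (x + y)) - S.D (S.ex x) - S.D (S.ex y)) := by abel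
    rw [h5]
    refine (norm_sub_le _ _).trans ?_
    linarith
  have h4 : 3 / 4 * ‖z - (x + y)‖ ≤ ‖S.D (S.ex z) - S.D (S.ex (x + y))‖ := by
    refine S.ex_lower hz.le ?_
    have := norm_add_le x y
    linarith
  have h5 : z - x - y = z - (x + y) := by abel
  rw [h5]
  have h6 : 0 ≤ S.C ^ 2 * ‖x‖ * ‖y‖ := by positivity
  nlinarith

end Pool.Agent.GY.Gl
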