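import Pool.Agent.GY.StarL3
import Pool.Agent.GY.Yam
import Pool.Agent.GY.GoodQ

/-!
# GY.StarG (diff 2): `C = R Z_C(R)` for compact connected groups

For `N : Subgroup C` with `GoodK N` let `F_N = {r | r ∈ R ∧ ∀ x ∈ R, (r⁻¹ c) x (r⁻¹ c)⁻¹ x⁻¹ ∈ N}`: closed (an intersection of closed sets, `N` closed).
* nonempty: `C ⧸ N` is compact, connected, Hausdorff, NSS (`goodK_quot`); `R' = R.map (mk' N)` is normal, compact, connected: `star_nss` for `(c : C ⧸ N)` gives `r' = mk r`, `r ∈ R`, commuting with `mk x` for `x ∈ R`.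
* directed: `F_{N₁ ⊓ N₂} ⊆ F_{N₁} ∩ F_{N₂}` (`goodK_inf`).
Compactness (`IsCompact.nonempty_iInter_of_directed_nonempty_isCompact_isClosed`, index = the type of good subgroups): `r ∈ ⋂ F_N`.  For `x ∈ R` the element `(r⁻¹ c) x (r⁻¹ c)⁻¹ x⁻¹` is in all good `N`, so it is `1`: `gleason_yamabe` for `C` (compact, connected) and `U = {y}ᶜ`.
-/

open Topology Filter Set
open scoped Pointwise

namespace Pool.Agent.GY

theorem star_gen {C : Type*} [Group C] [TopologicalSpace C] [IsTopologicalGroup C]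
    [CompactSpace C] [T2Space C] [ConnectedSpace C] {R : Subgroup C}
    (hR : R.Normal) (hcl : IsClosed (R : Set C)) (hconn : IsConnected (R : Set C)) (c : C) :
    ∃ r ∈ R, ∀ x ∈ R, (r⁻¹ * c) * x = x * (r⁻¹ * c) := by
  classical
  let F : {N : Subgroup C // GoodK N} → Set C := fun N =>
    {r | r ∈ R ∧ ∀ x ∈ R, (r⁻¹ * c) * x * (r⁻¹ * c)⁻¹ * x⁻¹ ∈ N.1}
  have hFcl : ∀ N, IsClosed (F N) := by
    intro N
    have hNcl : IsClosed (N.1 : Set C) := N.2.compact.isClosed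
    have h1 : F N = (R : Set C) ∩
        ⋂ x ∈ (R : Set C), (fun r : C => (r⁻¹ * c) * x * (r⁻¹ * c)⁻¹ * x⁻¹) ⁻¹' (N.1 : Set C) := by
      ext r
      simp [F]
    rw [h1]
    refine hcl.inter (isClosed_biInter fun x _ => hNcl.preimage ?_)
    fun_prop
  have hFne : ∀ N, (F N).Nonempty := by
    intro N
    have : N.1.Normal := N.2.normal
    have hNcl : IsClosed (N.1 : Set C) := N.2.compact.isClosed
    have hsurj : Function.Surjective (QuotientGroup.mk' N.1) := QuotientGroup.mk'_surjective N.1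
    have hcont : Continuous (QuotientGroup.mk' N.1) := QuotientGroup.continuous_mk
    have : ConnectedSpace (C ⧸ N.1) := hsurj.connectedSpace hcont
    have hR' : (R.map (QuotientGroup.mk' N.1)).Normal := hR.map _ hsurj
    have himg : ((R.map (QuotientGroup.mk' N.1) : Subgroup (C ⧸ N.1)) : Set (C ⧸ N.1)) =
        (QuotientGroup.mk' N.1) '' (R : Set C) := Subgroup.coe_map _ _
    have hcl' : IsClosed ((R.map (QuotientGroup.mk' N.1) : Subgroup (C ⧸ N.1)) :
        Set (C ⧸ N.1)) := by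
      rw [himg]
      exact (hcl.isCompact.image hcont).isClosed
    have hconn' : IsConnected ((R.map (QuotientGroup.mk' N.1) : Subgroup (C ⧸ N.1)) :
        Set (C ⧸ N.1)) := by
      rw [himg]
      exact hconn.image _ hcont.continuousOn
    obtain ⟨r', hr', h⟩ := star_nss (goodK_quot N.2) hR' hcl' hconn' (QuotientGroup.mk' N.1 c)
    obtain ⟨r, hr, rfl⟩ := Subgroup.mem_map.1 hr'
    refine ⟨r, hr, fun x hx => ?_⟩
    have h2 := h (QuotientGroup.mk' N.1 x) (Subgroup.mem_map_of_mem _ hx)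
    rw [← map_inv, ← map_mul, ← map_mul, ← map_mul] at h2
    have h3 : QuotientGroup.mk' N.1 ((r⁻¹ * c) * x * (r⁻¹ * c)⁻¹ * x⁻¹) = 1 := by
      rw [map_mul, map_mul, h2, map_mul, map_inv, map_inv, map_mul]
      group
    rw [← QuotientGroup.ker_mk' N.1]
    exact h3
  have hdir : Directed (· ⊇ ·) F := by
    intro N₁ N₂
    refine ⟨⟨N₁.1 ⊓ N₂.1, goodK_inf N₁.2 N₂.2⟩, ?_, ?_⟩
    · intro r hr
      exact ⟨hr.1, fun x hx => (Subgroup.mem_inf.1 (hr.2 x hx)).1⟩
    · intro r hr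
      exact ⟨hr.1, fun x hx => (Subgroup.mem_inf.1 (hr.2 x hx)).2⟩
  have : Nonempty {N : Subgroup C // GoodK N} := by
    obtain ⟨K, hK, _⟩ := gleason_yamabe (G := C) (U := Set.univ) Filter.univ_mem
    exact ⟨⟨K, hK⟩⟩
  obtain ⟨r, hr⟩ := IsCompact.nonempty_iInter_of_directed_nonempty_isCompact_isClosed F hdir hFne
    (fun N => (hFcl N).isCompact) hFcl
  rw [Set.mem_iInter] at hr
  refine ⟨r, (hr (Classical.arbitrary _)).1, fun x hx => ?_⟩
  by_contra hne
  have hy : (r⁻¹ * c) * x * (r⁻¹ * c)⁻¹ * x⁻¹ ≠ 1 := by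
    intro h
    apply hne
    rw [mul_inv_eq_one, mul_inv_eq_iff_eq_mul] at h
    exact h
  have hU : ({(r⁻¹ * c) * x * (r⁻¹ * c)⁻¹ * x⁻¹}ᶜ : Set C) ∈ 𝓝 (1 : C) :=
    isOpen_compl_singleton.mem_nhds (by
      rw [Set.mem_compl_iff, Set.mem_singleton_iff]
      exact fun h => hy h.symm)
  obtain ⟨K, hK, hKU⟩ := gleason_yamabe hU
  exact hKU ((hr ⟨K, hK⟩).2 x hx) rfl

end Pool.Agent.GY
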