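import Pool.Agent.GY.AdDef

/-!
# GY.StarL1 (diff 2): the tangent space of a closed subgroup

* `lim_mem`: `s_n = 1/(n+1)`, `h_n = ex(s_n v) ex(s_n w) ∈ J`, `‖D (h_n)‖ ≤ (‖v‖ + ‖w‖ + 1) s_n` for large `n` (as in `lam_add`, module VSub), `D (h_n)/s_n → ι v + ι w = ι (v + w)`.  `lim_lemma` (hyperfilter of `ℕ`) gives `Z : OPS G` with `Z t = lim h_n^⌊t/s_n⌋ ∈ J` (`J` closed subgroup) and
  `lam Z = ι (v + w)` (uniqueness of limits), so `Z t = ex (t (v + w))` (`ex_ops`).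
* `VJ`: `add_mem'` from `lim_mem`.   `VJ_Ad`: `ex (t Ad g v) = g ex(t v) g⁻¹` (`Ad_spec`).
* `Ad_sub_mem`: `R` normal closed, `v ∈ VJ R`, `w` arbitrary: apply `lim_mem` to `Ad (ex v) w` and `-w`: `ex(s Ad(ex v) w) ex(-s w) = ex v · (ex(s w) (ex v)⁻¹ ex(s w)⁻¹) ∈ R`.
-/

open Topology Filter Set

namespace Pool.Agent.GY.Gl

variable {G E : Type*} [Group G] [TopologicalSpace G] [IsTopologicalGroup G]
  [NormedAddCommGroup E] [NormedSpace ℝ E] [CompleteSpace E] (S : Gl G E)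

theorem StarL1_s_pos (n : ℕ) : (0 : ℝ) < 1 / ((n : ℝ) + 1) := by positivity

theorem StarL1_s_tendsto : Tendsto (fun n : ℕ => 1 / ((n : ℝ) + 1)) (hyperfilter ℕ : Filter ℕ) (𝓝 0) :=
  tendsto_one_div_add_atTop_nhds_zero_nat.mono_left Nat.hyperfilter_le_atTop

theorem StarL1_add (X Y : OPS G) : ∃ Z : OPS G, (∀ t : ℝ, Tendsto (fun n : ℕ =>
    (X (1 / ((n : ℝ) + 1)) * Y (1 / ((n : ℝ) + 1))) ^ ⌊t / (1 / ((n : ℝ) + 1))⌋)
      (hyperfilter ℕ : Filter ℕ) (𝓝 (Z t))) ∧ S.lam Z = S.lam X + S.lam Y := by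
  have hC := S.hC
  have hA : ∀ n : ℕ, ‖S.D (X (1 / ((n : ℝ) + 1)) * Y (1 / ((n : ℝ) + 1)))‖ ≤
      (‖S.lam X‖ + ‖S.lam Y‖) * (1 / ((n : ℝ) + 1)) := by
    intro n
    have h0 := StarL1_s_pos n
    have h1 := S.lam_nrm X (1 / ((n : ℝ) + 1))
    have h2 := S.lam_nrm Y (1 / ((n : ℝ) + 1))
    rw [abs_of_pos h0] at h1 h2
    refine (S.nrm_mul_le _ _).trans ?_
    linarith
  obtain ⟨Z, hZt, hZ⟩ := S.lim_lemma (hyperfilter ℕ)
    (fun n => X (1 / ((n : ℝ) + 1)) * Y (1 / ((n : ℝ) + 1))) (fun n => 1 / ((n : ℝ) + 1))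
    StarL1_s_pos StarL1_s_tendsto hA
  refine ⟨Z, hZt, tendsto_nhds_unique hZ ?_⟩
  have hX := S.lam_tendsto X (fun n : ℕ => (StarL1_s_pos n).ne') StarL1_s_tendsto
  have hY := S.lam_tendsto Y (fun n : ℕ => (StarL1_s_pos n).ne') StarL1_s_tendsto
  have herr : Tendsto (fun n : ℕ => (1 / ((n : ℝ) + 1))⁻¹ •
      (S.D (X (1 / ((n : ℝ) + 1)) * Y (1 / ((n : ℝ) + 1))) - S.D (X (1 / ((n : ℝ) + 1))) -
        S.D (Y (1 / ((n : ℝ) + 1))))) (hyperfilter ℕ : Filter ℕ) (𝓝 0) := by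
    have hb : Tendsto (fun n : ℕ => S.C * ‖S.lam X‖ * ‖S.lam Y‖ * (1 / ((n : ℝ) + 1)))
        (hyperfilter ℕ : Filter ℕ) (𝓝 0) := by
      have := StarL1_s_tendsto.const_mul (S.C * ‖S.lam X‖ * ‖S.lam Y‖)
      rwa [mul_zero] at this
    have hx1 : Tendsto (fun n : ℕ => 1 / ((n : ℝ) + 1) * ‖S.lam X‖)
        (hyperfilter ℕ : Filter ℕ) (𝓝 0) := by
      have := StarL1_s_tendsto.mul_const ‖S.lam X‖
      rwa [zero_mul] at this
    have hy1 : Tendsto (fun n : ℕ => 1 / ((n : ℝ) + 1) * ‖S.lam Y‖)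
        (hyperfilter ℕ : Filter ℕ) (𝓝 0) := by
      have := StarL1_s_tendsto.mul_const ‖S.lam Y‖
      rwa [zero_mul] at this
    refine squeeze_zero_norm' ?_ hb
    filter_upwards [hx1.eventually (gt_mem_nhds S.hr), hy1.eventually (gt_mem_nhds S.hr)]
      with n hx2 hy2
    have h0 := StarL1_s_pos n
    have h1 := S.lam_nrm X (1 / ((n : ℝ) + 1))
    have h2 := S.lam_nrm Y (1 / ((n : ℝ) + 1))
    rw [abs_of_pos h0] at h1 h2
    have h3 := S.mul (X (1 / ((n : ℝ) + 1))) (Y (1 / ((n : ℝ) + 1))) (h1.trans hx2.le)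
      (h2.trans hy2.le)
    rw [norm_smul, norm_inv, Real.norm_of_nonneg h0.le, inv_mul_le_iff₀ h0]
    refine h3.trans ?_
    have h4 : S.C * ‖S.D (X (1 / ((n : ℝ) + 1)))‖ * ‖S.D (Y (1 / ((n : ℝ) + 1)))‖ ≤
        S.C * (1 / ((n : ℝ) + 1) * ‖S.lam X‖) * (1 / ((n : ℝ) + 1) * ‖S.lam Y‖) := by
      apply mul_le_mul _ h2 (norm_nonneg _) (by positivity)
      exact mul_le_mul_of_nonneg_left h1 (by linarith)
    refine h4.trans (le_of_eq ?_)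
    ring
  have hsum := (herr.add hX).add hY
  rw [zero_add] at hsum
  refine hsum.congr (fun n => ?_)
  rw [← smul_add, ← smul_add]
  congr 1
  abel

theorem lim_mem {J : Subgroup G} (hJ : IsClosed (J : Set G)) {v w : S.T}
    (h : ∀ s : ℝ, 0 < s → S.ex (s • v) * S.ex (s • w) ∈ J) (t : ℝ) : S.ex (t • (v + w)) ∈ J := by
  obtain ⟨X, hX, hXt⟩ := S.exists_ops v
  obtain ⟨Y, hY, hYt⟩ := S.exists_ops w
  obtain ⟨Z, hZt, hZ⟩ := S.StarL1_add X Y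
  have h1 : S.lam Z = S.ι (v + w) := by rw [hZ, hX, hY, map_add]
  rw [← S.ex_ops Z (v + w) h1 t]
  refine hJ.mem_of_tendsto (hZt t) (Eventually.of_forall (fun n => ?_))
  apply J.zpow_mem
  rw [hXt, hYt]
  exact h _ (StarL1_s_pos n)

/-- the tangent space of a closed subgroup -/
def VJ (J : Subgroup G) (hJ : IsClosed (J : Set G)) : Submodule ℝ S.T where
  carrier := {v | ∀ t : ℝ, S.ex (t • v) ∈ J}
  add_mem' := fun {v w} hv hw t => S.lim_mem hJ (fun s _ => J.mul_mem (hv s) (hw s)) t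
  zero_mem' := fun t => by rw [smul_zero, S.ex_zero]; exact J.one_mem
  smul_mem' := fun c v hv t => by rw [smul_smul]; exact hv _

theorem mem_VJ {J : Subgroup G} {hJ : IsClosed (J : Set G)} {v : S.T} :
    v ∈ S.VJ J hJ ↔ ∀ t : ℝ, S.ex (t • v) ∈ J := Iff.rfl

theorem VJ_Ad {J : Subgroup G} (hJ : IsClosed (J : Set G)) (hn : J.Normal) {v : S.T}
    (hv : v ∈ S.VJ J hJ) (g : G) : S.Ad g v ∈ S.VJ J hJ := by
  intro t
  rw [← map_smul, ← S.Ad_spec]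
  exact hn.conj_mem _ (hv t) g

theorem Ad_sub_mem {J : Subgroup G} (hJ : IsClosed (J : Set G)) (hn : J.Normal) {v : S.T}
    (hv : v ∈ S.VJ J hJ) (w : S.T) : S.Ad (S.ex v) w - w ∈ S.VJ J hJ := by
  intro t
  rw [sub_eq_add_neg]
  apply S.lim_mem hJ
  intro s _
  have hv1 : S.ex v ∈ J := by
    have := hv 1
    rwa [one_smul] at this
  have e : S.ex (s • S.Ad (S.ex v) w) * S.ex (s • (-w)) =
      S.ex v * (S.ex (s • w) * (S.ex v)⁻¹ * (S.ex (s • w))⁻¹) := by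
    rw [← map_smul, ← S.Ad_spec, smul_neg, S.ex_neg]
    group
  rw [e]
  exact J.mul_mem hv1 (hn.conj_mem _ (J.inv_mem hv1) _)

end Pool.Agent.GY.Gl
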