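import Mathlib

/-!
# GY.StarL2 (diff 2): invariant complements (Maschke for compact groups)

`p : V → V` a projection onto `W` (`Submodule.exists_isCompl`, `Submodule.IsCompl.projection`, or `Submodule.projectionOnto`), continuous (finite dimension).  `q = ∫ ρ(g) p ρ(g⁻¹) dμ(g)` in `V →L[ℝ] V`, `μ` = Haar measure with `μ univ = 1` (`borel G`, `haarMeasure ⊤`, left invariant, probability;
the integrand is continuous on a compact space, hence integrable: `Continuous.integrable_of_hasCompactSupport` or bounded on a finite measure).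
* `q v ∈ W` for all `v` (closed subspace; or: the integrand has values in `W`, apply a linear map with kernel `W`), `q w = w` for `w ∈ W` (each integrand is `w`, since `ρ(g⁻¹) w ∈ W`).
* `ρ(h) q = q ρ(h)`: substitution `g = h g'` (left invariance): `q ρ(h) = ∫ ρ(g) p ρ(g⁻¹ h) dg = ∫ ρ(h g') p ρ(g'⁻¹) dg'`.
`W' = ker q`.
-/

open Topology Filter Set MeasureTheory

namespace Pool.Agent.GY

theorem inv_compl {G V : Type*} [Group G] [TopologicalSpace G] [IsTopologicalGroup G]
    [CompactSpace G] [T2Space G] [NormedAddCommGroup V] [NormedSpace ℝ V] [FiniteDimensional ℝ V]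
    (ρ : G → V →L[ℝ] V) (hρ : Continuous ρ) (h1 : ρ 1 = 1) (hm : ∀ g h, ρ (g * h) = ρ g * ρ h)
    (W : Submodule ℝ V) (hW : ∀ g, ∀ w ∈ W, ρ g w ∈ W) :
    ∃ W' : Submodule ℝ V, IsCompl W W' ∧ ∀ g, ∀ w ∈ W', ρ g w ∈ W' := by
  classical
  let _ : MeasurableSpace G := borel G
  have : BorelSpace G := ⟨rfl⟩
  have : CompleteSpace V := FiniteDimensional.complete ℝ V
  let μ : Measure G := Measure.haarMeasure (⊤ : TopologicalSpace.PositiveCompacts G)
  have : IsProbabilityMeasure μ := by
    refine ⟨?_⟩
    have := Measure.haarMeasure_self (K₀ := (⊤ : TopologicalSpace.PositiveCompacts G))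
    simpa using this
  obtain ⟨W₁, hW₁⟩ := W.exists_isCompl
  -- the projection
  let pl : V →ₗ[ℝ] W := W.projectionOnto W₁ hW₁
  let p : V →L[ℝ] V := LinearMap.toContinuousLinearMap (W.subtype.comp pl)
  have hp1 : ∀ v, p v ∈ W := fun v => by
    simp [p]
  have hp2 : ∀ w ∈ W, p w = w := by
    intro w hw
    have : pl w = ⟨w, hw⟩ := Submodule.projectionOnto_apply_left hW₁ ⟨w, hw⟩
    simp [p, this]
  have hinv : Continuous fun g : G => ρ g⁻¹ := hρ.comp continuous_inv
  have hap : ∀ v, Continuous fun g : G => ρ g (p (ρ g⁻¹ v)) := by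
    intro v
    have h2 : Continuous fun g : G => p (ρ g⁻¹ v) := p.continuous.comp (hinv.clm_apply continuous_const)
    exact hρ.clm_apply h2
  have hint : ∀ f : G → V, Continuous f → Integrable f μ := by
    intro f hf
    exact hf.integrable_of_hasCompactSupport (HasCompactSupport.of_compactSpace f)
  -- averaged projection
  let q : V →ₗ[ℝ] V :=
    { toFun := fun v => ∫ g, ρ g (p (ρ g⁻¹ v)) ∂μ
      map_add' := by
        intro v w
        rw [← integral_add (hint _ (hap v)) (hint _ (hap w))]
        simp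
      map_smul' := by
        intro c v
        simp only [map_smul, RingHom.id_apply]
        rw [integral_smul] }
  have hq : ∀ v, q v = ∫ g, ρ g (p (ρ g⁻¹ v)) ∂μ := fun v => rfl
  have hq1 : ∀ v, q v ∈ W := by
    intro v
    rw [hq]
    have := Convex.integral_mem (μ := μ) (s := (W : Set V)) (f := fun g => ρ g (p (ρ g⁻¹ v)))
      W.convex W.closed_of_finiteDimensional (Filter.Eventually.of_forall fun g => hW g _ (hp1 _))
      (hint _ (hap v))
    exact this
  have hq2 : ∀ w ∈ W, q w = w := by
    intro w hw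
    rw [hq]
    have : ∀ g, ρ g (p (ρ g⁻¹ w)) = w := by
      intro g
      rw [hp2 _ (hW _ _ hw)]
      have := hm g g⁻¹
      rw [mul_inv_cancel, h1] at this
      have h3 := congrArg (fun T : V →L[ℝ] V => T w) this
      simpa using h3.symm
    simp [this]
  have hq3 : ∀ h v, ρ h (q v) = q (ρ h v) := by
    intro h v
    rw [hq, hq, ← ContinuousLinearMap.integral_comp_comm _ (hint _ (hap v))]
    rw [← integral_mul_left_eq_self (fun g => ρ g (p (ρ g⁻¹ (ρ h v)))) h]
    refine integral_congr_ae (Filter.Eventually.of_forall fun g => ?_)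
    simp only [mul_inv_rev]
    have e1 : ρ (g⁻¹ * h⁻¹) (ρ h v) = ρ g⁻¹ v := by
      have := hm (g⁻¹ * h⁻¹) h
      rw [inv_mul_cancel_right] at this
      rw [this]
      rfl
    rw [e1, hm h g]
    rfl
  refine ⟨LinearMap.ker q, ⟨?_, ?_⟩, ?_⟩
  · rw [Submodule.disjoint_def]
    intro x hx hx'
    rw [LinearMap.mem_ker, hq2 x hx] at hx'
    exact hx'
  · rw [codisjoint_iff, eq_top_iff]
    intro v _
    rw [Submodule.mem_sup]
    refine ⟨q v, hq1 v, v - q v, ?_, by abel⟩
    rw [LinearMap.mem_ker, map_sub, hq2 _ (hq1 v), sub_self]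
  · intro g w hw
    rw [LinearMap.mem_ker] at hw ⊢
    rw [← hq3, hw, map_zero]

end Pool.Agent.GY
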