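import Pool.Agent.GY.StarL1
import Pool.Agent.GY.StarL2
import Pool.Agent.GY.LogDef
import Pool.Agent.GY.GlMk

/-!
# GY.StarL3 (diff 3): `C = R Z_C(R)`, the case of a group without small subgroups

`S` = Gleason data of `C` (`exists_gl`).  `R` is closed; `V_R = S.VJ R`.
* `star_gen`: `R = closure (S.ex '' V_R)`: `↥R` is a compact connected Hausdorff NSS group (a subgroup of an NSS group): Gleason data `S_R`, `Subgroup.closure (range S_R.ex) = ⊤` (`Gl.gen`).  For `u : S_R.T` the curve `X t = (S_R.ex (t • u) : C)` is a continuous one-parameter subgroup of `C` with values in `R`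
  (`ex_cont`, `ex_add`); `exists_ι`, `ex_ops`: `X t = S.ex (t • v)` with `v ∈ V_R`.  So `S_R.ex u = S.ex v`.
* `inv_compl` for `ρ = S.Ad` (`Ad_cont`, `Ad_one`, `Ad_mul`), `W = V_R` (`VJ_Ad`): complement `W'`, invariant.  `v ∈ V_R`, `w ∈ W'`: `Ad (ex v) w - w ∈ V_R ∩ W' = 0` (`Ad_sub_mem`), so `ex v ex w (ex v)⁻¹ = ex w` (`Ad_spec`): `ex w` commutes with `closure (ex V_R) = R`.
* `J = {c | ∃ r ∈ R, r⁻¹ c centralizes R}` is the subgroup `R ⊔ Z`, `Z = Subgroup.centralizer R` (both normal): `(R ⊔ Z : Set C) = R * Z` (`Subgroup.mul_normal`), compact, so closed.  `V_R ≤ S.VJ J` and `W' ≤ S.VJ J`, so `S.VJ J = ⊤`, `range S.ex ⊆ J`, `J = ⊤` (`gen`).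
-/

open Topology Filter Set
open scoped Pointwise

namespace Pool.Agent.GY

/-- a subgroup of an NSS group is NSS -/
theorem StarL3_nss {C : Type*} [Group C] [TopologicalSpace C] (hC : NSS C) (R : Subgroup C) :
    NSS R := by
  obtain ⟨U, hU, hL⟩ := hC
  refine ⟨Subtype.val ⁻¹' U, ?_, ?_⟩
  · exact continuous_subtype_val.continuousAt.preimage_mem_nhds (by simpa using hU)
  · intro L hLU
    have h1 : L.map R.subtype = ⊥ := by
      apply hL
      rintro x hx
      obtain ⟨y, hy, rfl⟩ := Subgroup.mem_map.mp hx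
      exact hLU hy
    exact (Subgroup.map_eq_bot_iff_of_injective L R.subtype_injective).mp h1

theorem star_nss {C : Type*} [Group C] [TopologicalSpace C] [IsTopologicalGroup C]
    [CompactSpace C] [T2Space C] [ConnectedSpace C] (hC : NSS C) {R : Subgroup C}
    (hR : R.Normal) (hcl : IsClosed (R : Set C)) (hconn : IsConnected (R : Set C)) (c : C) :
    ∃ r ∈ R, ∀ x ∈ R, (r⁻¹ * c) * x = x * (r⁻¹ * c) := by
  obtain ⟨S⟩ := exists_gl hC
  have hRc : CompactSpace R := isCompact_iff_compactSpace.mp hcl.isCompact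
  have hRconn : ConnectedSpace R := isConnected_iff_connectedSpace.mp hconn
  obtain ⟨S_R⟩ := exists_gl (StarL3_nss hC R)
  -- one-parameter subgroups of `R`
  have key : ∀ u : S_R.T, ∃ v ∈ S.VJ R hcl, ((S_R.ex u : R) : C) = S.ex v := by
    intro u
    let X : OPS C :=
      { toFun := fun t => ((S_R.ex (t • u) : R) : C)
        cont := continuous_subtype_val.comp
          (S_R.ex_cont.comp (continuous_id.smul continuous_const))
        add := fun s t => by rw [S_R.ex_add]; rfl }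
    obtain ⟨v, hv⟩ := S.exists_ι X
    have hX : ∀ t : ℝ, X t = S.ex (t • v) := fun t => S.ex_ops X v hv.symm t
    refine ⟨v, ?_, ?_⟩
    · rw [Gl.mem_VJ]
      intro t
      rw [← hX t]
      exact (S_R.ex (t • u)).2
    · have h1 := hX 1
      rw [one_smul] at h1
      rw [← h1]
      change _ = ((S_R.ex ((1:ℝ) • u) : R) : C)
      rw [one_smul]
  obtain ⟨W', hW1, hW2⟩ := inv_compl S.Ad S.Ad_cont S.Ad_one S.Ad_mul (S.VJ R hcl)
    (fun g w hw => S.VJ_Ad hcl hR hw g)
  have hcomm : ∀ v ∈ S.VJ R hcl, ∀ w ∈ W', S.ex v * S.ex w = S.ex w * S.ex v := by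
    intro v hv w hw
    have h1 : S.Ad (S.ex v) w - w ∈ S.VJ R hcl := S.Ad_sub_mem hcl hR hv w
    have h2 : S.Ad (S.ex v) w - w ∈ W' := W'.sub_mem (hW2 _ w hw) hw
    have h3 : S.Ad (S.ex v) w - w = 0 := Submodule.disjoint_def.mp hW1.disjoint _ h1 h2
    have h4 := S.Ad_spec (S.ex v) w
    rw [sub_eq_zero.mp h3] at h4
    exact mul_inv_eq_iff_eq_mul.mp h4
  have hcent : ∀ w ∈ W', S.ex w ∈ Subgroup.centralizer (R : Set C) := by
    intro w hw
    have h1 : (⊤ : Subgroup R) ≤ (Subgroup.centralizer {S.ex w}).comap R.subtype := by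
      rw [← S_R.gen, Subgroup.closure_le]
      rintro _ ⟨u, rfl⟩
      obtain ⟨v, hv, huv⟩ := key u
      change ((S_R.ex u : R) : C) ∈ Subgroup.centralizer {S.ex w}
      rw [Subgroup.mem_centralizer_iff]
      intro h hh
      rw [Set.mem_singleton_iff.mp hh, huv]
      exact (hcomm v hv w hw).symm
    rw [Subgroup.mem_centralizer_iff]
    intro x hx
    have h2 := h1 (Subgroup.mem_top (⟨x, hx⟩ : R))
    have h3 : x ∈ Subgroup.centralizer {S.ex w} := h2
    exact (Subgroup.mem_centralizer_iff.mp h3 (S.ex w) rfl).symm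
  obtain ⟨J, hJdef⟩ : ∃ J : Subgroup C, J = R ⊔ Subgroup.centralizer (R : Set C) := ⟨_, rfl⟩
  have hJset : (J : Set C) = (R : Set C) * (Subgroup.centralizer (R : Set C) : Set C) := by
    rw [hJdef]
    exact Subgroup.normal_mul R (Subgroup.centralizer (R : Set C))
  have hZcl : IsClosed (Subgroup.centralizer (R : Set C) : Set C) :=
    Set.isClosed_centralizer (R : Set C)
  have hJcl : IsClosed (J : Set C) := by
    rw [hJset]
    exact (hcl.isCompact.mul hZcl.isCompact).isClosed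
  have hVJ : S.VJ J hJcl = ⊤ := by
    rw [eq_top_iff, ← hW1.codisjoint.eq_top, sup_le_iff]
    constructor
    · intro v hv
      rw [Gl.mem_VJ] at hv ⊢
      intro t
      rw [hJdef]
      exact (le_sup_left : R ≤ _) (hv t)
    · intro w hw
      rw [Gl.mem_VJ]
      intro t
      rw [hJdef]
      exact (le_sup_right : Subgroup.centralizer (R : Set C) ≤ _)
        (hcent _ (W'.smul_mem t hw))
  have hJtop : J = ⊤ := by
    rw [eq_top_iff, ← S.gen, Subgroup.closure_le]
    rintro _ ⟨v, rfl⟩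
    have h1 : v ∈ S.VJ J hJcl := by rw [hVJ]; exact Submodule.mem_top
    have h2 := Gl.mem_VJ S |>.mp h1 1
    rwa [one_smul] at h2
  have hc : c ∈ (J : Set C) := by rw [hJtop]; exact Subgroup.mem_top c
  rw [hJset] at hc
  obtain ⟨r, hr, z, hz, hrz⟩ := Set.mem_mul.mp hc
  refine ⟨r, hr, ?_⟩
  intro x hx
  have h1 : r⁻¹ * c = z := by rw [← hrz]; group
  rw [h1]
  exact (Subgroup.mem_centralizer_iff.mp hz x hx).symm

end Pool.Agent.GY
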