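import Pool.Agent.GY.ProdEst

/-!
# GY.Tele (diff 2): telescoping estimate

The condition `8 C R ≤ 1` implies `R ≤ r/8` (`hCr`), `C R ≤ 1/8`, `R ≤ 1/8`.
`D (g^n) - D (h^n) = ∑_{i<n} (D (g^i g h^(n-i-1)) - D (g^i h h^(n-i-1)))` (`Finset.sum_range_sub`).
Let `a = g^i`, `c = h^(n-i-1)`, `k = g h⁻¹`; `‖D a‖ ≤ R`, `‖D (h c)‖ ≤ R`, `‖D h‖ ≤ R`, `‖D g‖ ≤ R` (`n ≥ 1`), `‖D (a h c)‖ ≤ 2 R`, `‖D k‖ ≤ 2 R`,
`‖D (a k a⁻¹)‖ ≤ (1 + 2 C R) ‖D k‖ ≤ 4 R ≤ r` (`nrm_conj_le`): all norms are `≤ r`.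
`a g c = (a k a⁻¹)(a h c)`, so by `mul`: `‖D (a g c) - D (a h c) - D (a k a⁻¹)‖ ≤ C ‖D (a k a⁻¹)‖ 2 R ≤ 2 C (1 + 2 C R) R ‖D k‖`;
`‖D (a k a⁻¹) - D k‖ ≤ 2 C R ‖D k‖` (`conj_le`); `g = k h`: `‖D g - D h - D k‖ ≤ C R ‖D k‖`.
Sum: `(2C(1 + 2CR) + 2C + C) R ‖D k‖ ≤ 9 C² R ‖D k‖` as `C ≥ 1`, `R ≤ 1`; `‖D k‖ = ‖D g - D h‖` (`dist_eq`).
-/

open Topology Filter Set

namespace Pool.Agent.GY.Gl

variable {G E : Type*} [Group G] [TopologicalSpace G] [NormedAddCommGroup E] [NormedSpace ℝ E]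
  (S : Gl G E)

theorem tele_step (a c g h : G) {R : ℝ} (hR : 8 * S.C * R ≤ 1) (ha : ‖S.D a‖ ≤ R)
    (hc : ‖S.D (h * c)‖ ≤ R) (hg : ‖S.D g‖ ≤ R) (hh : ‖S.D h‖ ≤ R) :
    ‖S.D (a * g * c) - S.D (a * h * c) - (S.D g - S.D h)‖ ≤
      9 * S.C ^ 2 * R * ‖S.D g - S.D h‖ := by
  have hC := S.hC
  have hR0 : 0 ≤ R := (norm_nonneg _).trans ha
  have hr := S.hr
  have hCr := S.hCr
  have hCR : S.C * R ≤ 1 / 8 := by linarith
  have hRr : 8 * R ≤ S.r := by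
    by_contra hcon
    push Not at hcon
    have : S.C * S.r < S.C * (8 * R) := mul_lt_mul_of_pos_left hcon (by linarith)
    linarith
  set κ := ‖S.D (g * h⁻¹)‖ with hκ
  have hκ0 : 0 ≤ κ := norm_nonneg _
  have hκR : κ ≤ 2 * R := by
    rw [hκ, ← S.dist_eq]
    refine (norm_sub_le _ _).trans ?_
    linarith
  rw [S.dist_eq g h]
  have e1 : a * g * c = (a * (g * h⁻¹) * a⁻¹) * (a * h * c) := by group
  have h2 : ‖S.D (a * h * c)‖ ≤ 2 * R := by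
    rw [mul_assoc]
    have := S.nrm_mul_le a (h * c)
    linarith
  have h3 : ‖S.D (a * (g * h⁻¹) * a⁻¹)‖ ≤ (1 + 2 * S.C * R) * κ := by
    refine (S.nrm_conj_le (g * h⁻¹) a (by linarith) (by linarith)).trans ?_
    apply mul_le_mul_of_nonneg_right _ hκ0
    have : 2 * S.C * ‖S.D a‖ ≤ 2 * S.C * R := mul_le_mul_of_nonneg_left ha (by linarith)
    linarith
  have h4 : ‖S.D (a * (g * h⁻¹) * a⁻¹) - S.D (g * h⁻¹)‖ ≤ 2 * S.C * κ * R :=
    (S.conj_le (g * h⁻¹) a (by linarith) (by linarith)).trans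
      (mul_le_mul_of_nonneg_left ha (by positivity))
  have h3' : ‖S.D (a * (g * h⁻¹) * a⁻¹)‖ ≤ S.r := by
    have h31 : (1 + 2 * S.C * R) * κ ≤ (1 + 1 / 4) * κ := by
      apply mul_le_mul_of_nonneg_right _ hκ0
      linarith
    linarith
  have h1 := S.mul (a * (g * h⁻¹) * a⁻¹) (a * h * c) h3' (by linarith)
  rw [← e1] at h1
  have h5 := S.mul (g * h⁻¹) h (by linarith) (by linarith)
  have e2 : g * h⁻¹ * h = g := by group
  rw [e2] at h5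
  have h6 : S.C * κ * ‖S.D h‖ ≤ S.C * κ * R := mul_le_mul_of_nonneg_left hh (by positivity)
  have h7 : S.C * ‖S.D (a * (g * h⁻¹) * a⁻¹)‖ * ‖S.D (a * h * c)‖ ≤
      S.C * ((1 + 2 * S.C * R) * κ) * (2 * R) := by
    apply mul_le_mul _ h2 (norm_nonneg _) (by positivity)
    exact mul_le_mul_of_nonneg_left h3 (by linarith)
  have e3 : S.D (a * g * c) - S.D (a * h * c) - (S.D g - S.D h) =
      (S.D (a * g * c) - S.D (a * (g * h⁻¹) * a⁻¹) - S.D (a * h * c)) +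
        (S.D (a * (g * h⁻¹) * a⁻¹) - S.D (g * h⁻¹)) - (S.D g - S.D (g * h⁻¹) - S.D h) := by
    abel
  rw [e3]
  have h8 := norm_sub_le ((S.D (a * g * c) - S.D (a * (g * h⁻¹) * a⁻¹) - S.D (a * h * c)) +
        (S.D (a * (g * h⁻¹) * a⁻¹) - S.D (g * h⁻¹))) (S.D g - S.D (g * h⁻¹) - S.D h)
  have h9 := norm_add_le (S.D (a * g * c) - S.D (a * (g * h⁻¹) * a⁻¹) - S.D (a * h * c))
        (S.D (a * (g * h⁻¹) * a⁻¹) - S.D (g * h⁻¹))
  have h10 : S.C * ((1 + 2 * S.C * R) * κ) * (2 * R) + 2 * S.C * κ * R + S.C * κ * R ≤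
      9 * S.C ^ 2 * R * κ := by
    have hRκ : 0 ≤ R * κ := by positivity
    have e4 : S.C * ((1 + 2 * S.C * R) * κ) * (2 * R) + 2 * S.C * κ * R + S.C * κ * R =
        (5 * S.C + 4 * S.C ^ 2 * R) * (R * κ) := by ring
    have e5 : 9 * S.C ^ 2 * R * κ = (9 * S.C ^ 2) * (R * κ) := by ring
    rw [e4, e5]
    apply mul_le_mul_of_nonneg_right _ hRκ
    have h101 : S.C ^ 2 * R ≤ S.C * (1 / 8) := by
      rw [pow_two, mul_assoc]
      exact mul_le_mul_of_nonneg_left hCR (by linarith)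
    nlinarith
  linarith

theorem tele (g h : G) (n : ℕ) {R : ℝ} (hR : 8 * S.C * R ≤ 1) (hg : n * ‖S.D g‖ ≤ R)
    (hh : n * ‖S.D h‖ ≤ R) :
    ‖S.D (g ^ n) - S.D (h ^ n) - (n : ℝ) • (S.D g - S.D h)‖ ≤
      n * (9 * S.C ^ 2 * R * ‖S.D g - S.D h‖) := by
  have key : S.D (g ^ n) - S.D (h ^ n) - (n : ℝ) • (S.D g - S.D h) =
      ∑ i ∈ Finset.range n, ((S.D (g ^ (i + 1) * h ^ (n - (i + 1))) - S.D (g ^ i * h ^ (n - i))) -
        (S.D g - S.D h)) := by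
    rw [Finset.sum_sub_distrib, Finset.sum_range_sub (fun i => S.D (g ^ i * h ^ (n - i))),
      Finset.sum_const, Finset.card_range, ← Nat.cast_smul_eq_nsmul ℝ]
    simp
  rw [key]
  refine (norm_sum_le _ _).trans ?_
  have hb : ∀ i ∈ Finset.range n,
      ‖(S.D (g ^ (i + 1) * h ^ (n - (i + 1))) - S.D (g ^ i * h ^ (n - i))) -
        (S.D g - S.D h)‖ ≤ 9 * S.C ^ 2 * R * ‖S.D g - S.D h‖ := by
    intro i hi
    have hin := Finset.mem_range.1 hi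
    have hD0 : 0 ≤ ‖S.D g‖ := norm_nonneg _
    have hD1 : 0 ≤ ‖S.D h‖ := norm_nonneg _
    have e1 : g ^ (i + 1) * h ^ (n - (i + 1)) = g ^ i * g * h ^ (n - (i + 1)) := by
      rw [pow_succ]
    have hsub : n - i = (n - (i + 1)) + 1 := by omega
    have e2 : g ^ i * h ^ (n - i) = g ^ i * h * h ^ (n - (i + 1)) := by
      rw [hsub, pow_succ', mul_assoc]
    rw [e1, e2]
    apply S.tele_step _ _ _ _ hR
    · refine (S.nrm_pow_le g i).trans (le_trans ?_ hg)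
      apply mul_le_mul_of_nonneg_right _ hD0
      exact_mod_cast hin.le
    · rw [← pow_succ', ← hsub]
      refine (S.nrm_pow_le h (n - i)).trans (le_trans ?_ hh)
      apply mul_le_mul_of_nonneg_right _ hD1
      exact_mod_cast Nat.sub_le n i
    · refine le_trans ?_ hg
      have h1 : (1 : ℝ) ≤ (n : ℝ) := by exact_mod_cast (by omega : 1 ≤ n)
      nlinarith
    · refine le_trans ?_ hh
      have h1 : (1 : ℝ) ≤ (n : ℝ) := by exact_mod_cast (by omega : 1 ≤ n)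
      nlinarith
  refine (Finset.sum_le_sum hb).trans ?_
  rw [Finset.sum_const, Finset.card_range, nsmul_eq_mul]

end Pool.Agent.GY.Gl
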