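import Pool.Agent.GY.Rho
import Pool.Agent.GY.Unif

/-!
# GY.ThA (diff 2): the function `θ x = sup_y (1 - Δ y) τ (y⁻¹ x)`

All terms of the supremum are in `[0,1]`.
* `th_one`: the term `y = 1` is `(1 - 0) τ 1 = 1`.
* `th_left`: substitute `y = g y'` in the supremum: the term is `(1 - Δ (g y')) τ (y'⁻¹ x)`, and
  `Δ (g y')` differs from `Δ y'` by at most `a` (`Del_left`), `0 ≤ τ ≤ 1`.
* `th_right`: the terms change by at most `ε`.
* `th_supp`: some term is nonzero: `Δ y ≠ 1` so `rho w y < 1`, `y ∈ P`, and `τ (y⁻¹ x) ≠ 0`.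
* `th_gt`: some term is `> 1 - δ`, so `Δ y < δ` and `τ (y⁻¹ x) ≠ 0`.
* continuity: `right_unif` and `th_right`: for `x'` in the neighbourhood `x V` of `x`.
-/

open Topology Filter Set
open scoped ENNReal Pointwise

namespace Pool.Agent.GY

variable {G : Type*} [Group G] [TopologicalSpace G] [IsTopologicalGroup G]
  [LocallyCompactSpace G] [T2Space G] {P V : Set G} {w : G → ℝ≥0∞} {τ : G → ℝ}

private theorem th_t0 (hτ : Cut V τ) (x y : G) : 0 ≤ (1 - Del w y) * τ (y⁻¹ * x) :=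
  mul_nonneg (sub_nonneg.2 Del_le_one) (hτ.nonneg _)

private theorem th_t1 (hτ : Cut V τ) (x y : G) : (1 - Del w y) * τ (y⁻¹ * x) ≤ 1 - Del w y := by
  have h1 : 0 ≤ 1 - Del w y := sub_nonneg.2 Del_le_one
  calc (1 - Del w y) * τ (y⁻¹ * x) ≤ (1 - Del w y) * 1 :=
        mul_le_mul_of_nonneg_left (hτ.le_one _) h1
    _ = 1 - Del w y := mul_one _

private theorem th_t2 (hτ : Cut V τ) (x y : G) : (1 - Del w y) * τ (y⁻¹ * x) ≤ 1 :=
  (th_t1 hτ x y).trans (sub_le_self _ Del_nonneg)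

private theorem th_bdd (hτ : Cut V τ) (x : G) :
    BddAbove (Set.range fun y : G => (1 - Del w y) * τ (y⁻¹ * x)) :=
  ⟨1, by rintro _ ⟨y, rfl⟩; exact th_t2 hτ x y⟩

private theorem th_ge (hτ : Cut V τ) (x y : G) : (1 - Del w y) * τ (y⁻¹ * x) ≤ Th w τ x :=
  le_ciSup (th_bdd hτ x) y

private theorem th_le {c : ℝ} (x : G) (h : ∀ y, (1 - Del w y) * τ (y⁻¹ * x) ≤ c) :
    Th w τ x ≤ c :=
  ciSup_le h

theorem th_nonneg (hτ : Cut V τ) (x : G) : 0 ≤ Th w τ x :=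
  Real.iSup_nonneg fun y => th_t0 hτ x y

theorem th_le_one (hτ : Cut V τ) (x : G) : Th w τ x ≤ 1 :=
  th_le x fun y => th_t2 hτ x y

theorem th_one (hτ : Cut V τ) : Th w τ 1 = 1 := by
  refine le_antisymm (th_le_one hτ 1) ?_
  have h1 := th_ge (w := w) hτ 1 1
  rw [Del_one, inv_one, mul_one, hτ.one] at h1
  simpa using h1

theorem th_left (hτ : Cut V τ) (hw : ∀ g, w g⁻¹ = w g) {a : ℝ} (ha : 0 ≤ a) {g : G}
    (hg : w g ≤ ENNReal.ofReal a) (x : G) : |Th w τ (g * x) - Th w τ x| ≤ a := by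
  have key : ∀ (g x : G), w g ≤ ENNReal.ofReal a → Th w τ x ≤ Th w τ (g * x) + a := by
    intro g x hg
    refine th_le x fun y => ?_
    have h1 := abs_le.1 (Del_left (x := y) hw ha hg)
    have h2 := th_ge (w := w) hτ (g * x) (g * y)
    have h3 : (g * y)⁻¹ * (g * x) = y⁻¹ * x := by group
    rw [h3] at h2
    have h4 : (1 - Del w y) * τ (y⁻¹ * x) ≤ (1 - Del w (g * y)) * τ (y⁻¹ * x) + a := by
      have h5 : (Del w (g * y) - Del w y) * τ (y⁻¹ * x) ≤ a * 1 :=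
        mul_le_mul h1.2 (hτ.le_one _) (hτ.nonneg _) ha
      nlinarith
    linarith
  rw [abs_le]
  constructor
  · have := key g x hg
    linarith
  · have h1 := key g⁻¹ (g * x) (by rw [hw]; exact hg)
    rw [inv_mul_cancel_left] at h1
    linarith

theorem th_right (hτ : Cut V τ) {u : G} {ε : ℝ} (hε : ∀ x, |τ (x * u) - τ x| ≤ ε) (x : G) :
    |Th w τ (x * u) - Th w τ x| ≤ ε := by
  have h0 : 0 ≤ ε := (abs_nonneg _).trans (hε 1)
  rw [abs_le]
  constructor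
  · have h1 : Th w τ x ≤ Th w τ (x * u) + ε := by
      refine th_le x fun y => ?_
      have h2 := th_ge (w := w) hτ (x * u) y
      have h3 := abs_le.1 (hε (y⁻¹ * x))
      rw [← mul_assoc] at h2
      have h4 : 0 ≤ 1 - Del w y := sub_nonneg.2 Del_le_one
      have h5 : 1 - Del w y ≤ 1 := sub_le_self _ Del_nonneg
      nlinarith
    linarith
  · have h1 : Th w τ (x * u) ≤ Th w τ x + ε := by
      refine th_le (x * u) fun y => ?_
      have h2 := th_ge (w := w) hτ x y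
      have h3 := abs_le.1 (hε (y⁻¹ * x))
      rw [← mul_assoc]
      have h4 : 0 ≤ 1 - Del w y := sub_nonneg.2 Del_le_one
      have h5 : 1 - Del w y ≤ 1 := sub_le_self _ Del_nonneg
      nlinarith
    linarith

theorem th_supp (hτ : Cut V τ) (hw : Wt P w) {x : G} (h : Th w τ x ≠ 0) :
    x ∈ P * tsupport τ := by
  have h1 : ∃ y, (1 - Del w y) * τ (y⁻¹ * x) ≠ 0 := by
    by_contra hcon
    push Not at hcon
    apply h
    simp [Th, hcon]
  obtain ⟨y, hy⟩ := h1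
  obtain ⟨hy1, hy2⟩ := mul_ne_zero_iff.1 hy
  have h2 : Del w y ≠ 1 := fun h3 => hy1 (by rw [h3, sub_self])
  have h3 : y ∈ P := hw.mem y (rho_lt_one_of_Del h2)
  have h4 : y⁻¹ * x ∈ tsupport τ := subset_tsupport τ hy2
  have := Set.mul_mem_mul h3 h4
  rwa [mul_inv_cancel_left] at this

theorem th_gt (hτ : Cut V τ) {δ : ℝ} (hδ0 : 0 < δ) (hδ : δ ≤ 1) {x : G} (h : 1 - δ < Th w τ x) :
    ∃ y, rho w y < ENNReal.ofReal δ ∧ y⁻¹ * x ∈ V := by
  obtain ⟨y, hy⟩ := exists_lt_of_lt_ciSup h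
  refine ⟨y, rho_lt_of_Del_lt hδ ?_, hτ.supp _ ?_⟩
  · have := th_t1 (w := w) hτ x y
    linarith
  · intro h0
    rw [h0, mul_zero] at hy
    linarith

theorem th_reg (hτ : Cut V τ) (hw : Wt P w) : Reg (P * tsupport τ) (Th w τ) := by
  refine ⟨?_, th_nonneg hτ, th_le_one hτ, fun x hx => th_supp hτ hw hx⟩
  rw [continuous_iff_continuousAt]
  intro x₀
  rw [ContinuousAt, Metric.tendsto_nhds]
  intro ε hε
  obtain ⟨V', hV', h1⟩ := right_unif hτ.cont hτ.hcs (half_pos hε)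
  have h2 : Tendsto (fun x : G => x₀⁻¹ * x) (𝓝 x₀) (𝓝 1) := by
    have h3 : Continuous (fun x : G => x₀⁻¹ * x) := continuous_const.mul continuous_id
    have h4 := h3.tendsto x₀
    simpa using h4
  filter_upwards [h2 hV'] with x hx
  have h5 := th_right (w := w) hτ (h1 _ hx) x₀
  rw [mul_inv_cancel_left] at h5
  rw [Real.dist_eq]
  linarith

end Pool.Agent.GY
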