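import Pool.Agent.GY.TrapS
import Pool.Agent.GY.PWnss

/-!
# GY.Trap (diff 3): the trapping lemma

We may assume that `U` is compact (`exists_cpt_nhd`).  Suppose that `closure (QW W) ⊄ U` for all `W ∈ 𝓝 1`.
Let `𝒰` be an ultrafilter on `Set G` containing `(𝓝 1).smallSets ⊓ 𝓟 {W | W ∈ 𝓝 1}` (not bot), `N_U W` from `exists_last`
(for `W ∈ 𝓝 1`), `S = Lim 𝒰 N_U` a compact subgroup (`lim_subgroup`), `S ⊆ U`.
`pw_nss_sub` for `S` and `interior U`: `N ≤ S` compact, `N ⊆ interior U`, `O` open containing `N`, subgroups of `S` inside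
`O` are in `N`.  Choose a compact `P` with `N ⊆ interior P`, `P ⊆ O ∩ interior U`
(`exists_compact_between`); `P ∈ 𝓝 1`.  As `P ⊆ U`, also `closure (QW W) ⊄ P`; `N_P W` from `exists_last`;
`N_P W ≤ N_U W` (otherwise `(QW W)^(N_U+1) ⊆ (QW W)^(N_P) ⊆ P ⊆ U`).
`S' = Lim 𝒰 N_P` is a subgroup, `S' ⊆ P ⊆ O` and `S' ⊆ S` (`lim_mono`), so `S' ≤ N ⊆ interior P`, contradicting
`lim_not_int`.
-/

open Topology Filter Set
open scoped ENNReal Pointwise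

namespace Pool.Agent.GY

variable {G : Type*} [Group G] [TopologicalSpace G] [IsTopologicalGroup G]
  [LocallyCompactSpace G] [T2Space G]

theorem Trap_neBot : ((𝓝 (1 : G)).smallSets ⊓ 𝓟 {W : Set G | W ∈ 𝓝 (1 : G)}).NeBot := by
  rw [inf_principal_neBot_iff]
  intro A hA
  obtain ⟨t, ht, htA⟩ := (hasBasis_smallSets (𝓝 (1 : G))).mem_iff.1 hA
  exact ⟨t, htA (mem_powerset (subset_refl t)), ht⟩

theorem trapping {U : Set G} (hU : U ∈ 𝓝 (1 : G)) :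
    ∃ W ∈ 𝓝 (1 : G), (Subgroup.closure (QW W) : Set G) ⊆ U := by
  obtain ⟨U', hU'n, hU'c, -, hU'U⟩ := exists_cpt_nhd hU
  suffices h : ∃ W ∈ 𝓝 (1 : G), (Subgroup.closure (QW W) : Set G) ⊆ U' by
    obtain ⟨W, hW, h2⟩ := h
    exact ⟨W, hW, h2.trans hU'U⟩
  by_contra hcon
  push Not at hcon
  have := Trap_neBot (G := G)
  set 𝒰 : Ultrafilter (Set G) :=
    Ultrafilter.of ((𝓝 (1 : G)).smallSets ⊓ 𝓟 {W : Set G | W ∈ 𝓝 (1 : G)}) with h𝒰def
  have hle := Ultrafilter.of_le ((𝓝 (1 : G)).smallSets ⊓ 𝓟 {W : Set G | W ∈ 𝓝 (1 : G)})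
  have h𝒰 : (𝒰 : Filter (Set G)) ≤ (𝓝 (1 : G)).smallSets := hle.trans inf_le_left
  have hnh : ∀ᶠ W in (𝒰 : Filter (Set G)), W ∈ 𝓝 (1 : G) := by
    have : (𝒰 : Filter (Set G)) ≤ 𝓟 {W : Set G | W ∈ 𝓝 (1 : G)} := hle.trans inf_le_right
    exact this (mem_principal_self _)
  have h1 : ∀ᶠ W in (𝒰 : Filter (Set G)), (1 : G) ∈ W := by
    filter_upwards [hnh] with W hW
    exact mem_of_mem_nhds hW
  have hexU : ∀ W : Set G, ∃ n : ℕ, W ∈ 𝓝 (1 : G) → (QW W) ^ n ⊆ U' ∧ ¬ (QW W) ^ (n + 1) ⊆ U' := by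
    intro W
    by_cases hW : W ∈ 𝓝 (1 : G)
    · obtain ⟨n, hn⟩ := exists_last (mem_of_mem_nhds hW) (mem_of_mem_nhds hU'n) (hcon W hW)
      exact ⟨n, fun _ => hn⟩
    · exact ⟨0, fun h => absurd h hW⟩
  choose NU hNU using hexU
  have hNU1 : ∀ᶠ W in (𝒰 : Filter (Set G)), (QW W) ^ (NU W) ⊆ U' := by
    filter_upwards [hnh] with W hW
    exact (hNU W hW).1
  obtain ⟨S, hS, hSc⟩ := lim_subgroup h𝒰 h1 hU'c hNU1
  obtain ⟨M, hMS, -, hMc, hMU, O, hO, hMO, hML⟩ :=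
    pw_nss_sub hSc (U := interior U') (interior_mem_nhds.2 hU'n)
  obtain ⟨P, hPc, hMP, hPO⟩ := exists_compact_between hMc (hO.inter isOpen_interior)
    (subset_inter hMO hMU)
  have hPU : P ⊆ U' := (hPO.trans inter_subset_right).trans interior_subset
  have hPn : P ∈ 𝓝 (1 : G) := mem_interior_iff_mem_nhds.1 (hMP M.one_mem)
  have hexP : ∀ W : Set G, ∃ n : ℕ, W ∈ 𝓝 (1 : G) → (QW W) ^ n ⊆ P ∧ ¬ (QW W) ^ (n + 1) ⊆ P := by
    intro W
    by_cases hW : W ∈ 𝓝 (1 : G)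
    · obtain ⟨n, hn⟩ := exists_last (mem_of_mem_nhds hW) (mem_of_mem_nhds hPn)
        (fun h => hcon W hW (h.trans hPU))
      exact ⟨n, fun _ => hn⟩
    · exact ⟨0, fun h => absurd h hW⟩
  choose NP hNP using hexP
  have hNP1 : ∀ᶠ W in (𝒰 : Filter (Set G)), (QW W) ^ (NP W) ⊆ P := by
    filter_upwards [hnh] with W hW
    exact (hNP W hW).1
  have hNP2 : ∀ᶠ W in (𝒰 : Filter (Set G)), ¬ (QW W) ^ (NP W + 1) ⊆ P := by
    filter_upwards [hnh] with W hW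
    exact (hNP W hW).2
  have hle2 : ∀ᶠ W in (𝒰 : Filter (Set G)), NP W ≤ NU W := by
    filter_upwards [hnh] with W hW
    by_contra hlt
    exact (hNU W hW).2 (((pow_subset_pow (mem_of_mem_nhds hW)
      (show NU W + 1 ≤ NP W by omega)).trans (hNP W hW).1).trans hPU)
  obtain ⟨S', hS', -⟩ := lim_subgroup h𝒰 h1 hPc hNP1
  have hS'S : S' ≤ S := by
    intro x hx
    have h2 : x ∈ Lim 𝒰 NP := by rw [← hS']; exact hx
    have h3 : x ∈ Lim 𝒰 NU := lim_mono h1 hle2 h2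
    have h4 : x ∈ (S : Set G) := by rw [hS]; exact h3
    exact h4
  have hS'O : (S' : Set G) ⊆ O := by
    rw [hS']
    exact ((lim_subset hPc hNP1).trans hPO).trans inter_subset_left
  have hS'M : S' ≤ M := hML S' hS'S hS'O
  apply lim_not_int h𝒰 h1 hPc hNP1 hNP2
  rw [← hS']
  exact (show (S' : Set G) ⊆ (M : Set G) from hS'M).trans hMP

end Pool.Agent.GY
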