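import Pool.Agent.GY.LemmaG
import Pool.Agent.GY.QPow

/-!
# GY.TrapG (diff 2): `LemmaG` for the weight `1/(N+1)` on `QW W`

`w g = 1/(N+1)` for `g ∈ QW W`, `w g = ∞` otherwise.  `rho w x < c` means: `x` is a product of `k` elements of
`QW W` with `k/(N+1) < c`.  So `rho w x < 1` implies `x ∈ (QW W)^k`, `k ≤ N`, so `x ∈ (QW W)^N ⊆ U`: `Wt U w`.
`lemmaG` with `P = U`, `δ = 1`, `C = 3` gives `V₁`; take `W₀ = V₁` (intersect with nothing: `1 ∈ V₁`): all powers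
of `g ∈ QW W` are in `QW W ⊆ W ⊆ V₁`, for all `K`.  `x ∈ (QW W)^(2N+2)` has `rho w x ≤ 2 < 3`; we get `y` with
`rho w y < 1`, so `y ∈ (QW W)^N`, and `y⁻¹ x ∈ V`.
(If `1 ∉ W`, then `QW W = ∅`; if `N = 0`, `(QW W)^0 = {1}`: `1 ∈ U`.  The case `QW W = ∅`: `∅^(2N+2) = ∅`.)
-/

open Topology Filter Set
open scoped ENNReal Pointwise

namespace Pool.Agent.GY

variable {G : Type*} [Group G] [TopologicalSpace G] [IsTopologicalGroup G]
  [LocallyCompactSpace G] [T2Space G]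

theorem TrapG_sum {W : Set G} {c : ℝ≥0∞} {w : G → ℝ≥0∞} (hw : ∀ g ∈ QW W, w g = c) (L : List G)
    (hL : ∀ g ∈ L, g ∈ QW W) : (L.map w).sum = L.length * c := by
  induction L with
  | nil => simp
  | cons a L ih =>
    have h1 := hL a (by simp)
    have h2 : ∀ g ∈ L, g ∈ QW W := fun g hg => hL g (List.mem_cons_of_mem _ hg)
    rw [List.map_cons, List.sum_cons, ih h2, hw a h1, List.length_cons]
    push_cast
    ring

theorem TrapG_mem {W : Set G} {w : G → ℝ≥0∞} (hw : ∀ g, g ∉ QW W → w g = ⊤) (L : List G)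
    (hL : (L.map w).sum < ⊤) : ∀ g ∈ L, g ∈ QW W := by
  induction L with
  | nil => simp
  | cons a L ih =>
    rw [List.map_cons, List.sum_cons] at hL
    intro g hg
    rcases List.mem_cons.mp hg with rfl | h
    · by_contra hc
      rw [hw g hc] at hL
      simp at hL
    · exact ih (lt_of_le_of_lt le_add_self hL) g h

theorem trapG {U V : Set G} (hU : IsCompact U) (hV : V ∈ 𝓝 (1 : G)) :
    ∃ W₀ ∈ 𝓝 (1 : G), ∀ W : Set G, W ⊆ W₀ → ∀ N : ℕ, (QW W) ^ N ⊆ U →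
      (QW W) ^ (2 * N + 2) ⊆ (QW W) ^ N * V := by
  classical
  obtain ⟨V₁, hV₁, K, hK, hL⟩ := lemmaG (P := U) hU hV (δ := 1) (C := 3) one_pos le_rfl
    (by norm_num)
  refine ⟨V₁, hV₁, fun W hW N hN => ?_⟩
  intro x hx
  rw [mem_pow_iff_list] at hx
  obtain ⟨L, hLl, hLm, rfl⟩ := hx
  have h1 : (1 : G) ∈ W := by
    cases L with
    | nil => simp at hLl
    | cons a L =>
      obtain ⟨H, hH, -⟩ := hLm a (by simp)
      exact hH H.one_mem
  set c : ℝ≥0∞ := ((N + 1 : ℕ) : ℝ≥0∞)⁻¹ with hc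
  set w : G → ℝ≥0∞ := fun g => if g ∈ QW W then c else ⊤ with hwdef
  have hw1 : ∀ g ∈ QW W, w g = c := fun g hg => by simp [hwdef, hg]
  have hw2 : ∀ g, g ∉ QW W → w g = ⊤ := fun g hg => by simp [hwdef, hg]
  have hN0 : ((N + 1 : ℕ) : ℝ≥0∞) ≠ 0 := by
    simp
  have hNt : ((N + 1 : ℕ) : ℝ≥0∞) ≠ ⊤ := ENNReal.natCast_ne_top _
  have hmemN : ∀ y, rho w y < 1 → y ∈ (QW W) ^ N := by
    intro y hy
    rw [rho_lt_iff] at hy
    obtain ⟨L', hL'p, hL's⟩ := hy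
    have hm := TrapG_mem hw2 L' (lt_trans hL's ENNReal.one_lt_top)
    rw [TrapG_sum hw1 L' hm] at hL's
    have hlen : L'.length ≤ N := by
      by_contra hcon
      push Not at hcon
      have h2 : ((N + 1 : ℕ) : ℝ≥0∞) ≤ (L'.length : ℝ≥0∞) := by exact_mod_cast hcon
      have h3 : (1 : ℝ≥0∞) ≤ (L'.length : ℝ≥0∞) * c := by
        calc (1 : ℝ≥0∞) = ((N + 1 : ℕ) : ℝ≥0∞) * c := by
              rw [hc, ENNReal.mul_inv_cancel hN0 hNt]
          _ ≤ _ := mul_le_mul_left h2 c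
      exact absurd hL's (not_lt.mpr h3)
    apply pow_subset_pow h1 hlen
    rw [mem_pow_iff_list]
    exact ⟨L', rfl, hm, hL'p⟩
  have hWt : Wt U w := by
    refine ⟨?_, fun y hy => hN (hmemN y hy)⟩
    intro g
    by_cases hg : g ∈ QW W
    · rw [hw1 g hg, hw1 _ (inv_mem_QW hg)]
    · have hg' : g⁻¹ ∉ QW W := fun h => hg (by simpa using inv_mem_QW h)
      rw [hw2 g hg, hw2 _ hg']
  have hpow : ∀ g, w g ≤ ENNReal.ofReal 3 → ∀ i : ℕ, (i : ℝ≥0∞) * w g ≤ ENNReal.ofReal K →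
      g ^ i ∈ V₁ := by
    intro g hg i _
    have hgQ : g ∈ QW W := by
      by_contra hcon
      rw [hw2 g hcon] at hg
      exact absurd hg (not_le.mpr ENNReal.ofReal_lt_top)
    exact hW (QW_subset (pow_mem_QW hgQ i))
  have hrho : rho w L.prod < ENNReal.ofReal 3 := by
    rw [rho_lt_iff]
    refine ⟨L, rfl, ?_⟩
    rw [TrapG_sum hw1 L hLm, hLl]
    have e1 : ((2 * N + 2 : ℕ) : ℝ≥0∞) = 2 * ((N + 1 : ℕ) : ℝ≥0∞) := by
      push_cast; ring
    rw [e1, mul_assoc, hc, ENNReal.mul_inv_cancel hN0 hNt, mul_one]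
    rw [show (3 : ℝ) = ((3 : ℕ) : ℝ) by norm_num, ENNReal.ofReal_natCast]
    norm_num
  obtain ⟨y, hy, hyx⟩ := hL w hWt hpow L.prod hrho
  rw [ENNReal.ofReal_one] at hy
  exact ⟨y, hmemN y hy, y⁻¹ * L.prod, hyx, by simp⟩

end Pool.Agent.GY
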