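import Pool.Agent.GY.TrapG
import Pool.Agent.GY.Unif

/-!
# GY.TrapS (diff 3): the limit of `(QW W)^(N W)` along an ultrafilter is a compact subgroup

`Lim 𝒰 N = {x | every neighbourhood of x meets (QW W)^(N W) for 𝒰-almost all W}`.
* `lim_subset`: `U` is compact so closed; if `x ∉ U` then `Uᶜ ∈ 𝓝 x` meets no `(QW W)^(N W) ⊆ U`.
* closed: if `x ∈ closure (Lim 𝒰 N)` and `V ∈ 𝓝 x` open, there is `y ∈ V ∩ Lim`.
* `1 ∈ Lim`: `1 ∈ (QW W)^(N W)` (eventually `1 ∈ W`, as `𝒰 ≤ (𝓝 1).smallSets`... note: `smallSets` means that for each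
  `t ∈ 𝓝 1` eventually `W ⊆ t`; `1 ∈ W` is the extra hypothesis `h1`).
* inverse: `inv_mem_pow`.
* product: `x, y ∈ Lim`, `O ∈ 𝓝 (x y)`.  Choose `O₁ ∈ 𝓝 x`, `O₂ ∈ 𝓝 y`, `V ∈ 𝓝 1` symmetric with `O₁ * O₂ * V ⊆ O`.
  For almost all `W` there are `a ∈ (QW W)^N ∩ O₁`, `b ∈ (QW W)^N ∩ O₂`;
  `a b ∈ (QW W)^(2N) ⊆ (QW W)^(2N+2) ⊆ (QW W)^N * V` (`trapG`), `a b = q v`, `q = a b v⁻¹ ∈ O`.
* `lim_not_int`: for almost all `W` choose `x_W ∈ (QW W)^(N+1) \ U`.  `x_W ∈ (QW W)^N * QW W ⊆ U * C₀`,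
  `C₀` a compact neighbourhood of `1` (eventually `QW W ⊆ W ⊆ C₀`); `U * C₀` is compact, so `x_W` converges along the
  ultrafilter `𝒰` (map `𝒰` by `W ↦ x_W`, `IsCompact.ultrafilter_le_nhds`) to some `x ∈ U * C₀`.
  `x ∉ interior U` because `x_W ∉ U`.  `x ∈ Lim`: for `O ∈ 𝓝 x` choose `O' ∈ 𝓝 x`, `V` symmetric, `O' * V ⊆ O`; for almost
  all `W`: `x_W ∈ O'` and `x_W ∈ (QW W)^(2N+2) ⊆ (QW W)^N * V`, `x_W = q v`, `q = x_W v⁻¹ ∈ O`.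
-/

open Topology Filter Set
open scoped ENNReal Pointwise

namespace Pool.Agent.GY

variable {G : Type*} [Group G] [TopologicalSpace G]

/-- limit set of the powers `(QW W)^(N W)` -/
def Lim (𝒰 : Ultrafilter (Set G)) (N : Set G → ℕ) : Set G :=
  {x | ∀ V ∈ 𝓝 x, ∀ᶠ W in (𝒰 : Filter (Set G)), ((QW W) ^ (N W) ∩ V).Nonempty}

variable [IsTopologicalGroup G] [LocallyCompactSpace G] [T2Space G] {𝒰 : Ultrafilter (Set G)}
  {U : Set G} {N : Set G → ℕ}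

theorem lim_subset (hU : IsCompact U)
    (hN : ∀ᶠ W in (𝒰 : Filter (Set G)), (QW W) ^ (N W) ⊆ U) : Lim 𝒰 N ⊆ U := by
  intro x hx
  by_contra hxU
  have h1 : Uᶜ ∈ 𝓝 x := hU.isClosed.isOpen_compl.mem_nhds hxU
  obtain ⟨W, ⟨y, hy1, hy2⟩, hW⟩ := ((hx _ h1).and hN).exists
  exact hy2 (hW hy1)

theorem TrapS_ev (h𝒰 : (𝒰 : Filter (Set G)) ≤ (𝓝 (1 : G)).smallSets) {T : Set G}
    (hT : T ∈ 𝓝 (1 : G)) : ∀ᶠ W in (𝒰 : Filter (Set G)), W ⊆ T :=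
  h𝒰 (eventually_smallSets_subset.2 hT)

theorem TrapS_key (h𝒰 : (𝒰 : Filter (Set G)) ≤ (𝓝 (1 : G)).smallSets) (hU : IsCompact U)
    (hN : ∀ᶠ W in (𝒰 : Filter (Set G)), (QW W) ^ (N W) ⊆ U) {V : Set G} (hV : V ∈ 𝓝 (1 : G)) :
    ∀ᶠ W in (𝒰 : Filter (Set G)), (QW W) ^ (2 * N W + 2) ⊆ (QW W) ^ (N W) * V := by
  obtain ⟨W₀, hW₀, h⟩ := trapG hU hV
  filter_upwards [TrapS_ev h𝒰 hW₀, hN] with W h1 h2
  exact h W h1 _ h2

theorem TrapS_closed : IsClosed (Lim 𝒰 N) := by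
  rw [← closure_subset_iff_isClosed]
  intro x hx V hV
  obtain ⟨y, hy1, hy2⟩ := mem_closure_iff_nhds.1 hx (interior V) (interior_mem_nhds.2 hV)
  filter_upwards [hy2 (interior V) (isOpen_interior.mem_nhds hy1)] with W hW
  exact hW.mono (inter_subset_inter_right _ interior_subset)

theorem lim_subgroup (h𝒰 : (𝒰 : Filter (Set G)) ≤ (𝓝 (1 : G)).smallSets)
    (h1 : ∀ᶠ W in (𝒰 : Filter (Set G)), (1 : G) ∈ W) (hU : IsCompact U)
    (hN : ∀ᶠ W in (𝒰 : Filter (Set G)), (QW W) ^ (N W) ⊆ U) :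
    ∃ S : Subgroup G, (S : Set G) = Lim 𝒰 N ∧ IsCompact (S : Set G) := by
  refine ⟨{ carrier := Lim 𝒰 N, mul_mem' := ?_, one_mem' := ?_, inv_mem' := ?_ }, rfl, ?_⟩
  · intro x y hx hy O hO
    have hc : Tendsto (fun p : G × G × G => p.1 * p.2.1 * p.2.2⁻¹) (𝓝 (x, y, (1 : G)))
        (𝓝 (x * y)) := by
      have : Continuous (fun p : G × G × G => p.1 * p.2.1 * p.2.2⁻¹) := by fun_prop
      have h2 := this.tendsto (x, y, (1 : G))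
      simpa using h2
    have h2 := hc hO
    rw [nhds_prod_eq, Filter.mem_map, mem_prod_iff] at h2
    obtain ⟨O₁, hO₁, T, hT, h3⟩ := h2
    rw [nhds_prod_eq, mem_prod_iff] at hT
    obtain ⟨O₂, hO₂, V, hV, h4⟩ := hT
    filter_upwards [hx O₁ hO₁, hy O₂ hO₂, TrapS_key h𝒰 hU hN hV, h1] with W ha hb hk h1W
    obtain ⟨a, ha1, ha2⟩ := ha
    obtain ⟨b, hb1, hb2⟩ := hb
    have hab : a * b ∈ (QW W) ^ (2 * N W + 2) := by
      apply pow_subset_pow h1W (show N W + N W ≤ 2 * N W + 2 by omega)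
      rw [pow_add]
      exact mul_mem_mul ha1 hb1
    obtain ⟨q, hq, v, hv, hqv⟩ := mem_mul.1 (hk hab)
    refine ⟨q, hq, ?_⟩
    have h5 : (a, b, v) ∈ (fun p : G × G × G => p.1 * p.2.1 * p.2.2⁻¹) ⁻¹' O :=
      h3 (mk_mem_prod ha2 (h4 (mk_mem_prod hb2 hv)))
    have h6 : a * b * v⁻¹ = q := by rw [← hqv]; group
    have h7 : a * b * v⁻¹ ∈ O := h5
    rwa [h6] at h7
  · intro V hV
    filter_upwards [h1] with W hW
    refine ⟨1, ?_, mem_of_mem_nhds hV⟩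
    apply pow_subset_pow hW (Nat.zero_le _)
    simp
  · intro x hx V hV
    have h2 : V⁻¹ ∈ 𝓝 x := by
      have : Tendsto (fun g : G => g⁻¹) (𝓝 x) (𝓝 x⁻¹) := continuous_inv.tendsto x
      exact this hV
    filter_upwards [hx _ h2] with W hW
    obtain ⟨a, ha1, ha2⟩ := hW
    exact ⟨a⁻¹, inv_mem_pow ha1, ha2⟩
  · exact hU.of_isClosed_subset TrapS_closed (lim_subset hU hN)

theorem lim_not_int (h𝒰 : (𝒰 : Filter (Set G)) ≤ (𝓝 (1 : G)).smallSets)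
    (h1 : ∀ᶠ W in (𝒰 : Filter (Set G)), (1 : G) ∈ W) (hU : IsCompact U)
    (hN : ∀ᶠ W in (𝒰 : Filter (Set G)), (QW W) ^ (N W) ⊆ U)
    (hN' : ∀ᶠ W in (𝒰 : Filter (Set G)), ¬ (QW W) ^ (N W + 1) ⊆ U) :
    ¬ Lim 𝒰 N ⊆ interior U := by
  intro hint
  have hex : ∀ W : Set G, ∃ x : G, ¬ (QW W) ^ (N W + 1) ⊆ U → x ∈ (QW W) ^ (N W + 1) ∧ x ∉ U := by
    intro W
    by_cases h : (QW W) ^ (N W + 1) ⊆ U
    · exact ⟨1, fun h' => absurd h h'⟩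
    · obtain ⟨x, hx1, hx2⟩ := not_subset.1 h
      exact ⟨x, fun _ => ⟨hx1, hx2⟩⟩
  choose f hf using hex
  obtain ⟨C₀, hC₀, hC₀n⟩ := exists_compact_mem_nhds (1 : G)
  have hcpt : IsCompact (U * C₀) := hU.mul hC₀
  have hmem : ∀ᶠ W in (𝒰 : Filter (Set G)), f W ∈ U * C₀ := by
    filter_upwards [hN, hN', TrapS_ev h𝒰 hC₀n] with W h2 h3 h4
    have h5 := (hf W h3).1
    rw [pow_succ] at h5
    exact mul_subset_mul h2 (QW_subset.trans h4) h5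
  have hle : ((𝒰.map f : Ultrafilter G) : Filter G) ≤ 𝓟 (U * C₀) := by
    rw [le_principal_iff]
    exact hmem
  obtain ⟨x, -, hx⟩ := hcpt.ultrafilter_le_nhds _ hle
  have hxt : Tendsto f (𝒰 : Filter (Set G)) (𝓝 x) := hx
  have hxL : x ∈ Lim 𝒰 N := by
    intro O hO
    have hc : Tendsto (fun p : G × G => p.1 * p.2⁻¹) (𝓝 (x, (1 : G))) (𝓝 x) := by
      have : Continuous (fun p : G × G => p.1 * p.2⁻¹) := by fun_prop
      have h2 := this.tendsto (x, (1 : G))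
      simpa using h2
    have h2 := hc hO
    rw [nhds_prod_eq, Filter.mem_map, mem_prod_iff] at h2
    obtain ⟨O', hO', V, hV, h3⟩ := h2
    filter_upwards [hxt hO', TrapS_key h𝒰 hU hN hV, h1, hN'] with W ha hk h1W h4
    have h5 : f W ∈ (QW W) ^ (2 * N W + 2) :=
      pow_subset_pow h1W (show N W + 1 ≤ 2 * N W + 2 by omega) (hf W h4).1
    obtain ⟨q, hq, v, hv, hqv⟩ := mem_mul.1 (hk h5)
    refine ⟨q, hq, ?_⟩
    have h6 : (f W, v) ∈ (fun p : G × G => p.1 * p.2⁻¹) ⁻¹' O := h3 (mk_mem_prod ha hv)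
    have h7 : f W * v⁻¹ = q := by rw [← hqv]; group
    have h8 : f W * v⁻¹ ∈ O := h6
    rwa [h7] at h8
  have hxi : x ∈ interior U := hint hxL
  have hev : ∀ᶠ W in (𝒰 : Filter (Set G)), f W ∈ interior U :=
    hxt (isOpen_interior.mem_nhds hxi)
  obtain ⟨W, hW1, hW2⟩ := (hev.and hN').exists
  exact (hf W hW2).2 (interior_subset hW1)

theorem lim_mono (h1 : ∀ᶠ W in (𝒰 : Filter (Set G)), (1 : G) ∈ W) {N' : Set G → ℕ}
    (h : ∀ᶠ W in (𝒰 : Filter (Set G)), N W ≤ N' W) : Lim 𝒰 N ⊆ Lim 𝒰 N' := by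
  intro x hx V hV
  filter_upwards [hx V hV, h1, h] with W h2 h3 h4
  exact h2.mono (inter_subset_inter_left _ (pow_subset_pow h3 h4))

end Pool.Agent.GY
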