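import Pool.Agent.GY.LimLem
import Pool.Agent.GY.OpsDist

/-!
# GY.VSub (diff 2): the tangent space `V` is a finite dimensional subspace of `E`

* `lam_add`: `h_n = X(s_n) Y(s_n)`, `s_n = 1/(n+1)`, `‖D (h_n)‖ ≤ (‖lam X‖ + ‖lam Y‖) s_n`, `D (h_n)/s_n → lam X + lam Y` (`mul`, `lam_tendsto`);
  `lim_lemma` with the hyperfilter of `ℕ`, uniqueness of limits in `E`.
* `V`: `smul_mem'` by `OPS.scale`, zero: `scale 0` of anything (there is the trivial OPS).
* `V_fin`: `FiniteDimensional.of_isCompact_closedBall ℝ one_pos`: the closed unit ball of `V` is compact: sequential compactness in a metric space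
  (`isCompact_iff_isSeqCompact` or: every sequence has a cluster point in the ball): given `v_n = lam X_n`, `‖v_n‖ ≤ 1`, let
  `h_n = X_n(s_n)`, `‖D (h_n)‖ ≤ s_n`, `‖D (h_n)/s_n - v_n‖ ≤ 2 C s_n`.  For the hyperfilter `𝒰` (or any ultrafilter `≤ atTop`) `D (h_n)/s_n → lam Z`, so
  `v_n → lam Z` along `𝒰`, `‖lam Z‖ ≤ 1`: `lam Z` is a cluster point of the sequence (and so a subsequence converges).
-/

open Topology Filter Set

namespace Pool.Agent.GY.Gl

variable {G E : Type*} [Group G] [TopologicalSpace G] [IsTopologicalGroup G]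
  [NormedAddCommGroup E] [NormedSpace ℝ E] [CompleteSpace E] (S : Gl G E)

theorem VSub_s_pos (n : ℕ) : (0 : ℝ) < 1 / ((n : ℝ) + 1) := by positivity

theorem VSub_s_tendsto : Tendsto (fun n : ℕ => 1 / ((n : ℝ) + 1)) (hyperfilter ℕ : Filter ℕ) (𝓝 0) :=
  tendsto_one_div_add_atTop_nhds_zero_nat.mono_left Nat.hyperfilter_le_atTop

theorem lam_add (X Y : OPS G) : ∃ Z : OPS G, S.lam Z = S.lam X + S.lam Y := by
  have hC := S.hC
  have hA : ∀ n : ℕ, ‖S.D (X (1 / ((n : ℝ) + 1)) * Y (1 / ((n : ℝ) + 1)))‖ ≤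
      (‖S.lam X‖ + ‖S.lam Y‖) * (1 / ((n : ℝ) + 1)) := by
    intro n
    have h0 := VSub_s_pos n
    have h1 := S.lam_nrm X (1 / ((n : ℝ) + 1))
    have h2 := S.lam_nrm Y (1 / ((n : ℝ) + 1))
    rw [abs_of_pos h0] at h1 h2
    refine (S.nrm_mul_le _ _).trans ?_
    linarith
  obtain ⟨Z, -, hZ⟩ := S.lim_lemma (hyperfilter ℕ)
    (fun n => X (1 / ((n : ℝ) + 1)) * Y (1 / ((n : ℝ) + 1))) (fun n => 1 / ((n : ℝ) + 1))
    VSub_s_pos VSub_s_tendsto hA
  refine ⟨Z, tendsto_nhds_unique hZ ?_⟩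
  have hX := S.lam_tendsto X (fun n : ℕ => (VSub_s_pos n).ne') VSub_s_tendsto
  have hY := S.lam_tendsto Y (fun n : ℕ => (VSub_s_pos n).ne') VSub_s_tendsto
  have herr : Tendsto (fun n : ℕ => (1 / ((n : ℝ) + 1))⁻¹ •
      (S.D (X (1 / ((n : ℝ) + 1)) * Y (1 / ((n : ℝ) + 1))) - S.D (X (1 / ((n : ℝ) + 1))) -
        S.D (Y (1 / ((n : ℝ) + 1))))) (hyperfilter ℕ : Filter ℕ) (𝓝 0) := by
    have hb : Tendsto (fun n : ℕ => S.C * ‖S.lam X‖ * ‖S.lam Y‖ * (1 / ((n : ℝ) + 1)))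
        (hyperfilter ℕ : Filter ℕ) (𝓝 0) := by
      have := VSub_s_tendsto.const_mul (S.C * ‖S.lam X‖ * ‖S.lam Y‖)
      rwa [mul_zero] at this
    have hx1 : Tendsto (fun n : ℕ => 1 / ((n : ℝ) + 1) * ‖S.lam X‖)
        (hyperfilter ℕ : Filter ℕ) (𝓝 0) := by
      have := VSub_s_tendsto.mul_const ‖S.lam X‖
      rwa [zero_mul] at this
    have hy1 : Tendsto (fun n : ℕ => 1 / ((n : ℝ) + 1) * ‖S.lam Y‖)
        (hyperfilter ℕ : Filter ℕ) (𝓝 0) := by
      have := VSub_s_tendsto.mul_const ‖S.lam Y‖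
      rwa [zero_mul] at this
    refine squeeze_zero_norm' ?_ hb
    filter_upwards [hx1.eventually (gt_mem_nhds S.hr), hy1.eventually (gt_mem_nhds S.hr)]
      with n hx2 hy2
    have h0 := VSub_s_pos n
    have h1 := S.lam_nrm X (1 / ((n : ℝ) + 1))
    have h2 := S.lam_nrm Y (1 / ((n : ℝ) + 1))
    rw [abs_of_pos h0] at h1 h2
    have h3 := S.mul (X (1 / ((n : ℝ) + 1))) (Y (1 / ((n : ℝ) + 1))) (h1.trans hx2.le)
      (h2.trans hy2.le)
    rw [norm_smul, norm_inv, Real.norm_of_nonneg h0.le, inv_mul_le_iff₀ h0]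
    refine h3.trans ?_
    have h4 : S.C * ‖S.D (X (1 / ((n : ℝ) + 1)))‖ * ‖S.D (Y (1 / ((n : ℝ) + 1)))‖ ≤
        S.C * (1 / ((n : ℝ) + 1) * ‖S.lam X‖) * (1 / ((n : ℝ) + 1) * ‖S.lam Y‖) := by
      apply mul_le_mul _ h2 (norm_nonneg _) (by positivity)
      exact mul_le_mul_of_nonneg_left h1 (by linarith)
    refine h4.trans (le_of_eq ?_)
    ring
  have hsum := (herr.add hX).add hY
  rw [zero_add] at hsum
  refine hsum.congr (fun n => ?_)
  rw [← smul_add, ← smul_add]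
  congr 1
  abel

theorem lam_zero : ∃ Z : OPS G, S.lam Z = 0 := by
  refine ⟨⟨fun _ => 1, continuous_const, fun _ _ => (one_mul 1).symm⟩, ?_⟩
  apply S.lam_eq_of_est (K := 0)
  intro t _ _
  show ‖S.D 1 - t • (0 : E)‖ ≤ 0 * t ^ 2
  rw [S.one]
  simp

/-- the tangent space -/
def V : Submodule ℝ E where
  carrier := Set.range S.lam
  add_mem' := by
    rintro _ _ ⟨X, rfl⟩ ⟨Y, rfl⟩
    exact S.lam_add X Y
  zero_mem' := S.lam_zero
  smul_mem' := by
    rintro c _ ⟨X, rfl⟩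
    exact ⟨X.scale c, S.lam_scale X c⟩

theorem mem_V {v : E} : v ∈ S.V ↔ ∃ X : OPS G, S.lam X = v := Iff.rfl

theorem V_fin : FiniteDimensional ℝ S.V := by
  have hC := S.hC
  apply FiniteDimensional.of_isCompact_closedBall ℝ (r := 1) (c := (0 : S.V)) one_pos
  apply IsSeqCompact.isCompact
  intro v hv
  have hv1 : ∀ n, ‖(v n : E)‖ ≤ 1 := by
    intro n
    have := hv n
    rw [mem_closedBall_zero_iff] at this
    exact this
  choose X hX using fun n => S.mem_V.1 (v n).2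
  have hA : ∀ n : ℕ, ‖S.D (X n (1 / ((n : ℝ) + 1)))‖ ≤ 1 * (1 / ((n : ℝ) + 1)) := by
    intro n
    have h0 := VSub_s_pos n
    have h1 := S.lam_nrm (X n) (1 / ((n : ℝ) + 1))
    rw [abs_of_pos h0, hX n] at h1
    refine h1.trans ?_
    rw [one_mul]
    calc _ ≤ 1 / ((n : ℝ) + 1) * 1 := mul_le_mul_of_nonneg_left (hv1 n) h0.le
      _ = _ := mul_one _
  obtain ⟨Z, -, hZ⟩ := S.lim_lemma (hyperfilter ℕ)
    (fun n => X n (1 / ((n : ℝ) + 1))) (fun n => 1 / ((n : ℝ) + 1))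
    VSub_s_pos VSub_s_tendsto hA
  have herr : Tendsto (fun n : ℕ => (v n : E) - (1 / ((n : ℝ) + 1))⁻¹ •
      S.D (X n (1 / ((n : ℝ) + 1)))) (hyperfilter ℕ : Filter ℕ) (𝓝 0) := by
    have hb : Tendsto (fun n : ℕ => 4 * S.C * (1 / ((n : ℝ) + 1)))
        (hyperfilter ℕ : Filter ℕ) (𝓝 0) := by
      have := VSub_s_tendsto.const_mul (4 * S.C)
      rwa [mul_zero] at this
    refine squeeze_zero_norm (fun n => ?_) hb
    have h0 := VSub_s_pos n
    have h1 := S.lam_est (X n) (1 / ((n : ℝ) + 1))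
    rw [hX n] at h1
    have e : (v n : E) - (1 / ((n : ℝ) + 1))⁻¹ • S.D (X n (1 / ((n : ℝ) + 1))) =
        -((1 / ((n : ℝ) + 1))⁻¹ • (S.D (X n (1 / ((n : ℝ) + 1))) -
          (1 / ((n : ℝ) + 1)) • (v n : E))) := by
      rw [smul_sub, smul_smul, inv_mul_cancel₀ h0.ne', one_smul]
      abel
    rw [e, norm_neg, norm_smul, norm_inv, Real.norm_of_nonneg h0.le, inv_mul_le_iff₀ h0]
    refine h1.trans ?_
    have h2 : ‖(v n : E)‖ ^ 2 ≤ 1 := by
      have := hv1 n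
      have h3 := norm_nonneg (v n : E)
      nlinarith
    calc _ ≤ 4 * S.C * (1 / ((n : ℝ) + 1)) ^ 2 * 1 :=
          mul_le_mul_of_nonneg_left h2 (by positivity)
      _ = _ := by ring
  have hlim : Tendsto (fun n => (v n : E)) (hyperfilter ℕ : Filter ℕ) (𝓝 (S.lam Z)) := by
    have := herr.add hZ
    rw [zero_add] at this
    refine this.congr (fun n => ?_)
    abel
  have hlimV : Tendsto v (hyperfilter ℕ : Filter ℕ) (𝓝 (⟨S.lam Z, Z, rfl⟩ : S.V)) := by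
    rw [tendsto_subtype_rng]
    exact hlim
  refine ⟨⟨S.lam Z, Z, rfl⟩, ?_, ?_⟩
  · exact Metric.isClosed_closedBall.mem_of_tendsto hlimV (Eventually.of_forall hv)
  · have hmc : MapClusterPt (⟨S.lam Z, Z, rfl⟩ : S.V) atTop v :=
      mapClusterPt_iff_ultrafilter.2 ⟨hyperfilter ℕ, Nat.hyperfilter_le_atTop, hlimV⟩
    exact hmc.tendsto_subseq

/-- the tangent space as a type (use only this one; the norm is the norm of `E`) -/
def T : Type _ := S.V

noncomputable instance : NormedAddCommGroup S.T := inferInstanceAs (NormedAddCommGroup S.V)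

noncomputable instance : NormedSpace ℝ S.T := inferInstanceAs (NormedSpace ℝ S.V)

instance : FiniteDimensional ℝ S.T := S.V_fin

/-- the inclusion `T → E` -/
noncomputable def ι : S.T →ₗᵢ[ℝ] E := S.V.subtypeₗᵢ

theorem norm_ι (v : S.T) : ‖S.ι v‖ = ‖v‖ := S.ι.norm_map v

theorem ι_inj {v w : S.T} (h : S.ι v = S.ι w) : v = w := S.ι.injective h

theorem exists_ι (X : OPS G) : ∃ v : S.T, S.ι v = S.lam X := ⟨⟨S.lam X, X, rfl⟩, rfl⟩

theorem ι_ops (v : S.T) : ∃ X : OPS G, S.lam X = S.ι v := by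
  obtain ⟨v, X, hX⟩ := v
  exact ⟨X, hX⟩

theorem ι_mem (e : E) (h : ∃ X : OPS G, S.lam X = e) : ∃ v : S.T, S.ι v = e := by
  obtain ⟨X, rfl⟩ := h
  exact S.exists_ι X

end Pool.Agent.GY.Gl
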