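import Pool.Agent.GY.Curve
import Pool.Agent.GY.GlMk

/-!
# GY.WordId (diff 2): the identity principle for words

* `word_curve`: for `y : Fin k → G`, `u : Fin k → T`: `t ↦ lift (fun i => y i * ex (t u_i)) w` is a `GoodCurve` (induction on `w`: `FreeGroup.induction_on`; one, of, inv, mul).
* `word_identity`: let `A = {x | lift x' w = b for x' near x}`, nonempty and open.  If `y ∈ A` and `u : Fin k → T`, then `y · ex u ∈ A`: for `y'` near `y` the curve
  `c t = lift (y'_i ex(t u_i)) w` equals `b` for small `t` (`y' ∈ A`, continuity), so `c 1 = b` (`good_identity`): and `y' ↦ (y'_i ex(u_i))` is a homeomorphism: all points near `y · ex u` are of this form.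
  Also `y · g ∈ A` for `g` in a finite product of exponentials, one coordinate at a time (`u = Pi.single i v`): `{g | ...}`: for all `y ∈ A` and all `g : Fin k → G` we get `y g ∈ A`, because
  `G = closure (range ex)` (`S.gen`) (`Subgroup.closure_induction` in each coordinate).  So `A = univ`, and `b = lift 1 w = 1`.
* `word_identity_fin`: for `x ∈ O` choose an open set `N` with `N ∩ F = {lift x w}` (finite set in a Hausdorff space); on the open set `O ∩ (lift · w)⁻¹ N` the word is constant.
* continuity of `x ↦ lift x w`: induction on `w`.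
-/

open Topology Filter Set

namespace Pool.Agent.GY

variable {G : Type*} [Group G] [TopologicalSpace G] [IsTopologicalGroup G]

theorem word_cont {ι : Type*} (w : FreeGroup ι) : Continuous (fun x : ι → G => FreeGroup.lift x w) := by
  induction w using FreeGroup.induction_on with
  | C1 => simpa using continuous_const
  | of i =>
    have : (fun x : ι → G => FreeGroup.lift x (FreeGroup.of i)) = fun x => x i := by
      funext x
      exact FreeGroup.lift_apply_of
    rw [this]
    exact continuous_apply i
  | inv_of i h =>
    have : (fun x : ι → G => FreeGroup.lift x (FreeGroup.of i)⁻¹) =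
        fun x => (FreeGroup.lift x (FreeGroup.of i))⁻¹ := by
      funext x
      exact map_inv _ _
    rw [this]
    exact h.inv
  | mul u v hu hv =>
    have : (fun x : ι → G => FreeGroup.lift x (u * v)) =
        fun x => FreeGroup.lift x u * FreeGroup.lift x v := by
      funext x
      exact map_mul _ _ _
    rw [this]
    exact hu.mul hv

theorem WordId_curve {E : Type*} [NormedAddCommGroup E] [NormedSpace ℝ E] [CompleteSpace E]
    (S : Gl G E) {ι : Type*} {x : ℝ → ι → G} (hx : ∀ i, S.GoodCurve (fun t => x t i))
    (w : FreeGroup ι) : S.GoodCurve (fun t => FreeGroup.lift (x t) w) := by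
  induction w using FreeGroup.induction_on with
  | C1 => simpa using Gl.GoodCurve.const (S := S) (1 : G)
  | of i =>
    have : (fun t => FreeGroup.lift (x t) (FreeGroup.of i)) = fun t => x t i := by
      funext t
      exact FreeGroup.lift_apply_of
    rw [this]
    exact hx i
  | inv_of i h =>
    have : (fun t => FreeGroup.lift (x t) (FreeGroup.of i)⁻¹) =
        fun t => (FreeGroup.lift (x t) (FreeGroup.of i))⁻¹ := by
      funext t
      exact map_inv _ _
    rw [this]
    exact h.inv
  | mul u v hu hv =>
    have : (fun t => FreeGroup.lift (x t) (u * v)) =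
        fun t => FreeGroup.lift (x t) u * FreeGroup.lift (x t) v := by
      funext t
      exact map_mul _ _ _
    rw [this]
    exact hu.mul hv

/-- multiply the coordinate `i` by `g` -/
noncomputable def WordId_m {k : ℕ} (i : Fin k) (g : G) (y : Fin k → G) : Fin k → G :=
  Function.update y i (y i * g)

theorem WordId_m_cont {k : ℕ} (i : Fin k) :
    Continuous (fun p : G × (Fin k → G) => WordId_m i p.1 p.2) := by
  unfold WordId_m
  apply Continuous.update continuous_snd
  exact ((continuous_apply i).comp continuous_snd).mul continuous_fst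

theorem WordId_m_m {k : ℕ} (i : Fin k) (g h : G) (y : Fin k → G) :
    WordId_m i h (WordId_m i g y) = WordId_m i (g * h) y := by
  unfold WordId_m
  simp [mul_assoc]

theorem WordId_m_one {k : ℕ} (i : Fin k) (y : Fin k → G) : WordId_m i 1 y = y := by
  unfold WordId_m
  simp

theorem WordId_step {E : Type*} [NormedAddCommGroup E] [NormedSpace ℝ E] [CompleteSpace E]
    (S : Gl G E) {k : ℕ} (w : FreeGroup (Fin k)) (b : G) (i : Fin k) (v : S.T) {y : Fin k → G}
    (hy : ∀ᶠ y' in 𝓝 y, FreeGroup.lift y' w = b) :
    ∀ᶠ y' in 𝓝 (WordId_m i (S.ex v) y), FreeGroup.lift y' w = b := by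
  have h1 : ∀ᶠ y' in 𝓝 y, FreeGroup.lift (WordId_m i (S.ex v) y') w = b := by
    refine (eventually_eventually_nhds.mpr hy).mono fun y' hy' => ?_
    have hgood : S.GoodCurve (fun t : ℝ => FreeGroup.lift (WordId_m i (S.ex (t • v)) y') w) := by
      apply WordId_curve S
      intro j
      by_cases hj : j = i
      · subst hj
        have : (fun t : ℝ => WordId_m j (S.ex (t • v)) y' j) = fun t => y' j * S.ex (t • v) := by
          funext t
          simp [WordId_m]
        rw [this]
        exact Gl.GoodCurve.mul (Gl.GoodCurve.const (y' j)) (Gl.GoodCurve.ex v)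
      · have : (fun t : ℝ => WordId_m i (S.ex (t • v)) y' j) = fun _ => y' j := by
          funext t
          simp [WordId_m, hj]
        rw [this]
        exact Gl.GoodCurve.const _
    have hc : Continuous (fun t : ℝ => WordId_m i (S.ex (t • v)) y') :=
      (WordId_m_cont i).comp
        ((S.ex_cont.comp (continuous_id.smul continuous_const)).prodMk continuous_const)
    have h0 : WordId_m i (S.ex ((0 : ℝ) • v)) y' = y' := by
      rw [zero_smul, S.ex_zero, WordId_m_one]
    have hev : ∀ᶠ t in 𝓝 (0 : ℝ), FreeGroup.lift (WordId_m i (S.ex (t • v)) y') w = b := by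
      have ht := hc.tendsto 0
      rw [h0] at ht
      exact ht.eventually hy'
    have := Gl.good_identity hgood hev 1
    simpa using this
  have hback : Tendsto (fun y' : Fin k → G => WordId_m i (S.ex v)⁻¹ y')
      (𝓝 (WordId_m i (S.ex v) y)) (𝓝 y) := by
    have hc : Continuous (fun y' : Fin k → G => WordId_m i (S.ex v)⁻¹ y') :=
      (WordId_m_cont i).comp (continuous_const.prodMk continuous_id)
    have ht := hc.tendsto (WordId_m i (S.ex v) y)
    rwa [WordId_m_m, mul_inv_cancel, WordId_m_one] at ht
  refine (hback.eventually h1).mono fun y' hy' => ?_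
  rwa [WordId_m_m, inv_mul_cancel, WordId_m_one] at hy'

variable [LocallyCompactSpace G] [T2Space G] [ConnectedSpace G]

theorem word_identity (hG : NSS G) {k : ℕ} (w : FreeGroup (Fin k)) (b : G)
    {O : Set (Fin k → G)} (hO : IsOpen O) (hne : O.Nonempty)
    (h : ∀ x ∈ O, FreeGroup.lift x w = b) : ∀ x : Fin k → G, FreeGroup.lift x w = 1 := by
  obtain ⟨S⟩ := exists_gl hG
  obtain ⟨x₀, hx₀⟩ := hne
  let P : (Fin k → G) → Prop := fun x => ∀ᶠ y in 𝓝 x, FreeGroup.lift y w = b
  have hP0 : P x₀ := by
    filter_upwards [hO.mem_nhds hx₀] with y hy using h y hy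
  have hstep : ∀ (i : Fin k) (g : G) (y : Fin k → G), P y ↔ P (WordId_m i g y) := by
    intro i g
    have hg : g ∈ Subgroup.closure (Set.range S.ex) := by
      rw [S.gen]
      exact Subgroup.mem_top g
    induction hg using Subgroup.closure_induction with
    | mem g hg =>
      obtain ⟨v, rfl⟩ := hg
      intro y
      constructor
      · intro hy
        exact WordId_step S w b i v hy
      · intro hy
        have := WordId_step S w b i (-v) hy
        rwa [WordId_m_m, S.ex_neg, mul_inv_cancel, WordId_m_one] at this
    | one =>
      intro y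
      rw [WordId_m_one]
    | mul g g' _ _ h1 h2 =>
      intro y
      rw [h1 y, h2 (WordId_m i g y), WordId_m_m]
    | inv g _ h1 =>
      intro y
      rw [h1 (WordId_m i g⁻¹ y), WordId_m_m, inv_mul_cancel, WordId_m_one]
  have hall : ∀ x, P x := by
    intro x
    have hs : ∀ s : Finset (Fin k), P (fun i => if i ∈ s then x i else x₀ i) := by
      intro s
      induction s using Finset.induction_on with
      | empty => simpa using hP0
      | insert i s hi ih =>
        have e : (fun j => if j ∈ insert i s then x j else x₀ j) =
            WordId_m i ((x₀ i)⁻¹ * x i) (fun j => if j ∈ s then x j else x₀ j) := by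
          funext j
          by_cases hj : j = i
          · subst hj
            simp [WordId_m, hi]
          · simp [WordId_m, hj]
        rw [e, ← hstep]
        exact ih
    have := hs Finset.univ
    simpa using this
  have hb : b = 1 := by
    have h1 := (hall (fun _ => 1)).self_of_nhds
    have h2 : (FreeGroup.lift (fun _ : Fin k => (1 : G))) = 1 := by
      ext i
      simp
    rw [h2] at h1
    simpa using h1.symm
  intro x
  rw [(hall x).self_of_nhds, hb]

theorem word_identity_fin (hG : NSS G) {k : ℕ} (w : FreeGroup (Fin k)) {F : Set G}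
    (hF : F.Finite) {O : Set (Fin k → G)} (hO : IsOpen O) (hne : O.Nonempty)
    (h : ∀ x ∈ O, FreeGroup.lift x w ∈ F) : ∀ x : Fin k → G, FreeGroup.lift x w = 1 := by
  obtain ⟨x₀, hx₀⟩ := hne
  set b := FreeGroup.lift x₀ w with hb
  have hN : IsOpen (F \ {b})ᶜ := (hF.subset sdiff_subset).isClosed.isOpen_compl
  apply word_identity hG w b (O := O ∩ (fun x : Fin k → G => FreeGroup.lift x w) ⁻¹' (F \ {b})ᶜ)
    (hO.inter (hN.preimage (word_cont w))) ⟨x₀, hx₀, by simp [hb]⟩
  rintro x ⟨hxO, hxN⟩
  by_contra hne
  exact hxN ⟨h x hxO, hne⟩

end Pool.Agent.GY
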